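import Pool.Agent.Work.Monodromy.Interface12C
import Mathlib.LinearAlgebra.FreeModule.PID

/-!
# Phase 12, block ADB: adapted coordinates for a face (helper4)
-/

set_option autoImplicit false

namespace Pool.Agent.Mono.NP

namespace ADBAux

open Module

variable {ι κ : Type} [Fintype ι] [DecidableEq ι] [Fintype κ] [DecidableEq κ]

/-- the difference vectors -/
def dl (w : κ → ι → ℕ) (a₀ v : κ) : ι → ℤ := fun i => (w v i : ℤ) - w a₀ i

/-- an enumeration of the complement of the range of an embedding -/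
theorem exists_equiv {d : ℕ} (f : Fin d ↪ ι) :
    ∃ (m : ℕ) (e : Fin d ⊕ Fin m ≃ ι), (∀ j, e (Sum.inl j) = f j) ∧
      ∀ k, e (Sum.inr k) ∉ Set.range f := by
  classical
  let m := Fintype.card ((Set.range f)ᶜ : Set ι)
  let e₂ : Fin m ≃ ((Set.range f)ᶜ : Set ι) := (Fintype.equivFin _).symm
  let e₁ : Fin d ≃ Set.range f := Equiv.ofInjective f f.injective
  refine ⟨m, (Equiv.sumCongr e₁ e₂).trans (Equiv.Set.sumCompl (Set.range f)), ?_, ?_⟩
  · intro j
    rw [Equiv.trans_apply, Equiv.sumCongr_apply, Sum.map_inl, Equiv.Set.sumCompl_apply_inl]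
    rfl
  · intro k
    rw [Equiv.trans_apply, Equiv.sumCongr_apply, Sum.map_inr, Equiv.Set.sumCompl_apply_inr]
    exact (e₂ k).2

theorem xpnd (b : Basis ι ℤ (ι → ℤ)) {T : Type} [Fintype T] (e : T ≃ ι) (y : ι → ℤ) (i : ι) :
    y i = ∑ x : T, b.repr y (e x) * b (e x) i := by
  have h := b.sum_repr y
  have h2 : ∑ t : ι, b.repr y t * b t i = y i := by
    have h3 := congrFun h i
    rw [Finset.sum_apply] at h3
    exact h3
  rw [← h2]
  exact (Equiv.sum_comp e fun t => b.repr y t * b t i).symm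

/-- the two matrices -/
theorem mats (b : Basis ι ℤ (ι → ℤ)) {T : Type} [Fintype T] [DecidableEq T] (e : T ≃ ι) :
    (Matrix.of fun (x : T) (i : ι) => b (e x) i) *
        (Matrix.of fun (i : ι) (x : T) => b.repr (Pi.single i 1) (e x)) = 1 ∧
      (Matrix.of fun (i : ι) (x : T) => b.repr (Pi.single i 1) (e x)) *
        (Matrix.of fun (x : T) (i : ι) => b (e x) i) = 1 := by
  constructor
  · ext x x'
    rw [Matrix.mul_apply]
    have h1 : (∑ i : ι, (Matrix.of fun (x : T) (i : ι) => b (e x) i) x i *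
        (Matrix.of fun (i : ι) (x : T) => b.repr (Pi.single i 1) (e x)) i x') =
        b.repr (b (e x)) (e x') := by
      have h2 : b (e x) = ∑ i : ι, b (e x) i • (Pi.single i 1 : ι → ℤ) := by
        ext t
        rw [Finset.sum_apply, Finset.sum_eq_single t]
        · rw [Pi.smul_apply, Pi.single_eq_same, smul_eq_mul, mul_one]
        · intro s _ hs
          rw [Pi.smul_apply, Pi.single_eq_of_ne hs.symm, smul_zero]
        · intro h
          exact absurd (Finset.mem_univ t) h
      conv_rhs => rw [h2]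
      rw [map_sum, Finsupp.finsetSum_apply]
      refine Finset.sum_congr rfl fun i _ => ?_
      rw [map_smul, Finsupp.smul_apply, smul_eq_mul]
      rfl
    rw [h1, Basis.repr_self, Matrix.one_apply, Finsupp.single_apply]
    by_cases h : x = x'
    · rw [if_pos h, if_pos (congrArg e h)]
    · rw [if_neg h, if_neg fun h' => h (e.injective h')]
  · ext i i'
    rw [Matrix.mul_apply]
    have h1 := xpnd b e (Pi.single i 1) i'
    rw [Matrix.one_apply]
    have h2 : (∑ x : T, (Matrix.of fun (i : ι) (x : T) => b.repr (Pi.single i 1) (e x)) i x *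
        (Matrix.of fun (x : T) (i : ι) => b (e x) i) x i') = (Pi.single i 1 : ι → ℤ) i' := h1.symm
    rw [h2]
    by_cases h : i = i'
    · subst h
      rw [Pi.single_eq_same, if_pos rfl]
    · rw [Pi.single_eq_of_ne (Ne.symm h), if_neg h]

end ADBAux

open ADBAux Module in
theorem stmt_ADB : Stmt_ADB := by
  intro ι κ _ _ _ _ w F a₀ ha₀
  classical
  let N : Submodule ℤ (ι → ℤ) := Submodule.span ℤ (dl w a₀ '' (F : Set κ))
  obtain ⟨d, snf⟩ := Submodule.smithNormalForm (Pi.basisFun ℤ ι) N
  obtain ⟨m, e, he1, he2⟩ := exists_equiv snf.f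
  obtain ⟨hAB, hBA⟩ := mats snf.bM e
  set A : Matrix (Fin d ⊕ Fin m) ι ℤ := Matrix.of fun x i => snf.bM (e x) i with hA
  set B : Matrix ι (Fin d ⊕ Fin m) ℤ := Matrix.of fun i x => snf.bM.repr (Pi.single i 1) (e x)
    with hB
  let c' : κ → Fin d → ℤ := fun v j => snf.bM.repr (dl w a₀ v) (snf.f j)
  have hdl0 : dl w a₀ a₀ = 0 := by
    ext i
    simp [dl]
  have hc'0 : ∀ j, c' a₀ j = 0 := by
    intro j
    show snf.bM.repr (dl w a₀ a₀) (snf.f j) = 0
    rw [hdl0, map_zero, Finsupp.zero_apply]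
  let N0 : ℕ := ∑ v, ∑ j, (c' v j).natAbs
  have hN0 : ∀ v j, (c' v j).natAbs ≤ N0 := by
    intro v j
    calc (c' v j).natAbs ≤ ∑ j, (c' v j).natAbs :=
          Finset.single_le_sum (f := fun j => (c' v j).natAbs) (fun _ _ => Nat.zero_le _)
            (Finset.mem_univ j)
      _ ≤ N0 := Finset.single_le_sum (f := fun v => ∑ j, (c' v j).natAbs)
          (fun _ _ => Nat.zero_le _) (Finset.mem_univ v)
  let c : κ → Fin d → ℕ := fun v j => (c' v j + N0).toNat
  have hc : ∀ v j, (c v j : ℤ) = c' v j + N0 := by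
    intro v j
    have := hN0 v j
    show ((c' v j + N0).toNat : ℤ) = c' v j + N0
    omega
  have hcc : ∀ v j, (c v j : ℤ) - c a₀ j = c' v j := by
    intro v j
    rw [hc, hc, hc'0]
    ring
  -- the differences
  have hdiff : ∀ v ∈ F, ∀ i, (w v i : ℤ) - w a₀ i =
      ∑ j, ((c v j : ℤ) - c a₀ j) * A (Sum.inl j) i := by
    intro v hv i
    have hmem : dl w a₀ v ∈ N := Submodule.subset_span ⟨v, hv, rfl⟩
    have h1 : dl w a₀ v i = ∑ x : Fin d ⊕ Fin m, snf.bM.repr (dl w a₀ v) (e x) * snf.bM (e x) i :=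
      xpnd snf.bM e (dl w a₀ v) i
    have h2 : ∀ k, snf.bM.repr (dl w a₀ v) (e (Sum.inr k)) = 0 := fun k =>
      snf.repr_eq_zero_of_notMem_range ⟨_, hmem⟩ (he2 k)
    rw [Fintype.sum_sum_type] at h1
    have h3 : ∑ k, snf.bM.repr (dl w a₀ v) (e (Sum.inr k)) * snf.bM (e (Sum.inr k)) i = 0 :=
      Finset.sum_eq_zero fun k _ => by rw [h2, zero_mul]
    rw [h3, add_zero] at h1
    refine h1.trans (Finset.sum_congr rfl fun j _ => ?_)
    rw [hcc]
    show _ = snf.bM.repr (dl w a₀ v) (snf.f j) * snf.bM (e (Sum.inl j)) i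
    rw [he1]
  -- the rank of c
  let S : Submodule ℚ (Fin d ⊕ Unit → ℚ) :=
    Submodule.span ℚ ((fun a => hat c (Sum.inl a)) '' (F : Set κ))
  have hhat : ∀ v ∈ F, hat c (Sum.inl v) ∈ S := fun v hv => Submodule.subset_span ⟨v, hv, rfl⟩
  let V : (ι → ℤ) → (Fin d ⊕ Unit → ℚ) := fun y =>
    Sum.elim (fun j => ((snf.bM.repr y (snf.f j) : ℤ) : ℚ)) fun _ => 0
  have hV : ∀ y ∈ N, V y ∈ S := by
    intro y hy
    induction hy using Submodule.span_induction with
    | mem y hy =>
      obtain ⟨v, hv, rfl⟩ := hy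
      have h1 : V (dl w a₀ v) = hat c (Sum.inl v) - hat c (Sum.inl a₀) := by
        ext x
        rcases x with j | u
        · have h2 := hcc v j
          show ((c' v j : ℤ) : ℚ) = (c v j : ℚ) - (c a₀ j : ℚ)
          rw [← h2]
          push_cast
          ring
        · show (0 : ℚ) = 1 - 1
          ring
      rw [h1]
      exact S.sub_mem (hhat v hv) (hhat a₀ ha₀)
    | zero =>
      have h1 : V 0 = 0 := by
        ext x
        rcases x with j | u
        · show ((snf.bM.repr 0 (snf.f j) : ℤ) : ℚ) = 0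
          rw [map_zero, Finsupp.zero_apply, Int.cast_zero]
        · rfl
      rw [h1]
      exact S.zero_mem
    | add x y _ _ hx hy =>
      have h1 : V (x + y) = V x + V y := by
        ext t
        rcases t with j | u
        · show ((snf.bM.repr (x + y) (snf.f j) : ℤ) : ℚ) =
            ((snf.bM.repr x (snf.f j) : ℤ) : ℚ) + ((snf.bM.repr y (snf.f j) : ℤ) : ℚ)
          rw [map_add, Finsupp.add_apply, Int.cast_add]
        · show (0 : ℚ) = 0 + 0
          ring
      rw [h1]
      exact S.add_mem hx hy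
    | smul r x _ hx =>
      have h1 : V (r • x) = (r : ℚ) • V x := by
        ext t
        rcases t with j | u
        · show ((snf.bM.repr (r • x) (snf.f j) : ℤ) : ℚ) =
            (r : ℚ) • ((snf.bM.repr x (snf.f j) : ℤ) : ℚ)
          rw [map_smul, Finsupp.smul_apply, smul_eq_mul, smul_eq_mul, Int.cast_mul]
        · show (0 : ℚ) = (r : ℚ) • (0 : ℚ)
          rw [smul_zero]
      rw [h1]
      exact S.smul_mem _ hx
  have ha : ∀ j, snf.a j ≠ 0 := by
    intro j hj
    have h1 := snf.snf j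
    rw [hj, zero_smul] at h1
    exact snf.bN.ne_zero j (Subtype.ext h1)
  have hsl : ∀ j, (Pi.single (Sum.inl j) 1 : Fin d ⊕ Unit → ℚ) ∈ S := by
    intro j
    have h1 := hV (snf.bN j) (snf.bN j).2
    have h2 : V (snf.bN j) = (snf.a j : ℚ) • (Pi.single (Sum.inl j) 1 : Fin d ⊕ Unit → ℚ) := by
      ext t
      rcases t with j' | u
      · show ((snf.bM.repr (snf.bN j : ι → ℤ) (snf.f j') : ℤ) : ℚ) =
          (snf.a j : ℚ) • (Pi.single (Sum.inl j) 1 : Fin d ⊕ Unit → ℚ) (Sum.inl j')
        rw [snf.snf, map_smul, Finsupp.smul_apply, Basis.repr_self, Finsupp.single_apply,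
          smul_eq_mul, smul_eq_mul, Int.cast_mul]
        congr 1
        by_cases h : j = j'
        · subst h
          rw [if_pos rfl, Pi.single_eq_same, Int.cast_one]
        · rw [if_neg fun h' => h (snf.f.injective h'),
            Pi.single_eq_of_ne fun h' => h (Sum.inl_injective h').symm, Int.cast_zero]
      · show (0 : ℚ) = (snf.a j : ℚ) • (Pi.single (Sum.inl j) 1 : Fin d ⊕ Unit → ℚ) (Sum.inr u)
        rw [Pi.single_eq_of_ne Sum.inr_ne_inl, smul_zero]
    rw [h2] at h1
    exact (S.smul_mem_iff (Int.cast_ne_zero.mpr (ha j))).mp h1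
  have hsr : (Pi.single (Sum.inr ()) 1 : Fin d ⊕ Unit → ℚ) ∈ S := by
    have h1 : (Pi.single (Sum.inr ()) 1 : Fin d ⊕ Unit → ℚ) = hat c (Sum.inl a₀) -
        ∑ j, (c a₀ j : ℚ) • (Pi.single (Sum.inl j) 1 : Fin d ⊕ Unit → ℚ) := by
      ext t
      rw [Pi.sub_apply, Finset.sum_apply]
      rcases t with j | u
      · rw [Pi.single_eq_of_ne Sum.inl_ne_inr, Finset.sum_eq_single j]
        · rw [Pi.smul_apply, Pi.single_eq_same, smul_eq_mul, mul_one]
          show (0 : ℚ) = (c a₀ j : ℚ) - c a₀ j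
          ring
        · intro j' _ hj'
          rw [Pi.smul_apply, Pi.single_eq_of_ne fun h' => hj' (Sum.inl_injective h').symm,
            smul_zero]
        · intro h
          exact absurd (Finset.mem_univ j) h
      · rw [Finset.sum_eq_zero]
        · rw [sub_zero, Pi.single_eq_same]
          rfl
        · intro j _
          rw [Pi.smul_apply, Pi.single_eq_of_ne Sum.inr_ne_inl, smul_zero]
    rw [h1]
    exact S.sub_mem (hhat a₀ ha₀) (S.sum_mem fun j _ => S.smul_mem _ (hsl j))
  have hS : S = ⊤ := by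
    rw [eq_top_iff]
    intro z _
    have h1 : z = ∑ t, z t • (Pi.single t 1 : Fin d ⊕ Unit → ℚ) := by
      ext s
      rw [Finset.sum_apply, Finset.sum_eq_single s]
      · rw [Pi.smul_apply, Pi.single_eq_same, smul_eq_mul, mul_one]
      · intro t _ ht
        rw [Pi.smul_apply, Pi.single_eq_of_ne ht.symm, smul_zero]
      · intro h
        exact absurd (Finset.mem_univ s) h
    rw [h1]
    refine S.sum_mem fun t _ => S.smul_mem _ ?_
    rcases t with j | u
    · exact hsl j
    · exact hsr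
  have hrkc : rk c F = d + 1 := by
    show Module.finrank ℚ S = d + 1
    rw [hS, finrank_top, Module.finrank_pi, Fintype.card_sum, Fintype.card_fin,
      Fintype.card_unit]
  -- the rank of w
  let T : (Fin d ⊕ Unit → ℚ) →ₗ[ℚ] (ι ⊕ Unit → ℚ) :=
    { toFun := fun z => Sum.elim (fun i => ∑ j, (z (Sum.inl j) - z (Sum.inr ()) * c a₀ j) *
          (A (Sum.inl j) i : ℚ) + z (Sum.inr ()) * w a₀ i) fun _ => z (Sum.inr ())
      map_add' := by
        intro z z'
        ext t
        rcases t with i | u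
        · show ∑ j, (z (Sum.inl j) + z' (Sum.inl j) - (z (Sum.inr ()) + z' (Sum.inr ())) * c a₀ j) *
            (A (Sum.inl j) i : ℚ) + (z (Sum.inr ()) + z' (Sum.inr ())) * w a₀ i =
            (∑ j, (z (Sum.inl j) - z (Sum.inr ()) * c a₀ j) * (A (Sum.inl j) i : ℚ) +
              z (Sum.inr ()) * w a₀ i) +
            (∑ j, (z' (Sum.inl j) - z' (Sum.inr ()) * c a₀ j) * (A (Sum.inl j) i : ℚ) +
              z' (Sum.inr ()) * w a₀ i)
          have h1 : ∑ j, (z (Sum.inl j) + z' (Sum.inl j) -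
              (z (Sum.inr ()) + z' (Sum.inr ())) * c a₀ j) * (A (Sum.inl j) i : ℚ) =
              ∑ j, (z (Sum.inl j) - z (Sum.inr ()) * c a₀ j) * (A (Sum.inl j) i : ℚ) +
              ∑ j, (z' (Sum.inl j) - z' (Sum.inr ()) * c a₀ j) * (A (Sum.inl j) i : ℚ) := by
            rw [← Finset.sum_add_distrib]
            exact Finset.sum_congr rfl fun j _ => by ring
          rw [h1]
          ring
        · rfl
      map_smul' := by
        intro r z
        ext t
        rcases t with i | u
        · show ∑ j, (r * z (Sum.inl j) - (r * z (Sum.inr ())) * c a₀ j) *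
            (A (Sum.inl j) i : ℚ) + (r * z (Sum.inr ())) * w a₀ i =
            r * (∑ j, (z (Sum.inl j) - z (Sum.inr ()) * c a₀ j) * (A (Sum.inl j) i : ℚ) +
              z (Sum.inr ()) * w a₀ i)
          have h1 : ∑ j, (r * z (Sum.inl j) - (r * z (Sum.inr ())) * c a₀ j) *
              (A (Sum.inl j) i : ℚ) =
              r * ∑ j, (z (Sum.inl j) - z (Sum.inr ()) * c a₀ j) * (A (Sum.inl j) i : ℚ) := by
            rw [Finset.mul_sum]
            exact Finset.sum_congr rfl fun j _ => by ring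
          rw [h1]
          ring
        · rfl }
  have hTv : ∀ v ∈ F, T (hat c (Sum.inl v)) = hat w (Sum.inl v) := by
    intro v hv
    ext t
    rcases t with i | u
    · show ∑ j, ((c v j : ℚ) - 1 * c a₀ j) * (A (Sum.inl j) i : ℚ) + 1 * w a₀ i = (w v i : ℚ)
      have h1 := hdiff v hv i
      have h2 : ((w v i : ℤ) : ℚ) - ((w a₀ i : ℤ) : ℚ) =
          ∑ j, (((c v j : ℤ) : ℚ) - ((c a₀ j : ℤ) : ℚ)) * (A (Sum.inl j) i : ℚ) := by
        rw [← Int.cast_sub, h1, Int.cast_sum]
        exact Finset.sum_congr rfl fun j _ => by push_cast; ring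
      have h3 : ∑ j, ((c v j : ℚ) - 1 * c a₀ j) * (A (Sum.inl j) i : ℚ) =
          ∑ j, (((c v j : ℤ) : ℚ) - ((c a₀ j : ℤ) : ℚ)) * (A (Sum.inl j) i : ℚ) :=
        Finset.sum_congr rfl fun j _ => by push_cast; ring
      rw [h3, ← h2]
      push_cast
      ring
    · rfl
  have hTinj : Function.Injective T := by
    rw [← LinearMap.ker_eq_bot, LinearMap.ker_eq_bot']
    intro z hz
    have hz0 : z (Sum.inr ()) = 0 := congrFun hz (Sum.inr ())
    have hz1 : ∀ i, ∑ j, z (Sum.inl j) * (A (Sum.inl j) i : ℚ) = 0 := by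
      intro i
      have h1 : ∑ j, (z (Sum.inl j) - z (Sum.inr ()) * c a₀ j) * (A (Sum.inl j) i : ℚ) +
        z (Sum.inr ()) * w a₀ i = 0 := congrFun hz (Sum.inl i)
      rw [hz0, zero_mul, add_zero] at h1
      rw [← h1]
      exact Finset.sum_congr rfl fun j _ => by ring
    ext t
    rcases t with j | u
    · have h1 : ∑ i, (∑ j', z (Sum.inl j') * (A (Sum.inl j') i : ℚ)) * (B i (Sum.inl j) : ℚ) =
          0 := Finset.sum_eq_zero fun i _ => by rw [hz1, zero_mul]
      have h2 : ∑ i, (∑ j', z (Sum.inl j') * (A (Sum.inl j') i : ℚ)) * (B i (Sum.inl j) : ℚ) =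
          ∑ j', z (Sum.inl j') * (((A * B) (Sum.inl j') (Sum.inl j) : ℤ) : ℚ) := by
        simp_rw [Finset.sum_mul]
        rw [Finset.sum_comm]
        refine Finset.sum_congr rfl fun j' _ => ?_
        rw [Matrix.mul_apply, Int.cast_sum, Finset.mul_sum]
        exact Finset.sum_congr rfl fun i _ => by push_cast; ring
      rw [h2, hAB] at h1
      rw [Finset.sum_eq_single j] at h1
      · rw [Matrix.one_apply_eq, Int.cast_one, mul_one] at h1
        exact h1
      · intro j' _ hj'
        rw [Matrix.one_apply_ne fun h' => hj' (Sum.inl_injective h'), Int.cast_zero, mul_zero]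
      · intro h
        exact absurd (Finset.mem_univ j) h
    · exact hz0
  have hrkw : rk w F = rk c F := by
    have h1 : Submodule.span ℚ ((fun a => hat w (Sum.inl a)) '' (F : Set κ)) =
        S.map T := by
      rw [Submodule.map_span, Set.image_image]
      congr 1
      refine Set.image_congr fun v hv => (hTv v hv).symm
    show Module.finrank ℚ (Submodule.span ℚ ((fun a => hat w (Sum.inl a)) '' (F : Set κ))) =
      Module.finrank ℚ S
    rw [h1]
    exact (Submodule.equivMapOfInjective T hTinj S).finrank_eq.symm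
  refine ⟨d, m, A, B, c, hAB, hBA, ?_, ?_, hdiff, hrkc⟩
  · rw [hrkw, hrkc]
  · have h1 := Fintype.card_congr e
    rwa [Fintype.card_sum, Fintype.card_fin, Fintype.card_fin] at h1

end Pool.Agent.Mono.NP
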