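import Pool.Agent.Work.Monodromy.Interface12C

/-!
# Phase 12, block AUTO: the constraints of the vectors in the span of a cell are automatic
(helper63)
-/

set_option autoImplicit false

namespace Pool.Agent.Mono.NP

open MvPolynomial Filter

namespace AUTOAux

variable {ι κ : Type} [Fintype ι] [DecidableEq ι] [Fintype κ] [DecidableEq κ]

/-- the heights `(h, 0)` -/
def hhv (h : κ → ℝ) : κ ⊕ ι → ℝ := Sum.elim h fun _ => 0

omit [Fintype ι] [Fintype κ] [DecidableEq κ] in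
theorem hat_eq_zv (w : κ → ι → ℕ) (v : κ ⊕ ι) (e : ι ⊕ Unit) : hat w v e = (zv w v e : ℚ) := by
  rcases v with a | j <;> rcases e with i | i
  · simp [hat, zv]
  · simp [hat, zv]
  · by_cases hij : i = j
    · subst hij; simp [hat, zv]
    · simp [hat, zv, hij]
  · simp [hat, zv]

omit [DecidableEq κ] in
theorem zp_real (w : κ → ι → ℕ) (y : ι ⊕ Unit → ℤ) (v : κ ⊕ ι) :
    (zp w y v : ℝ) = ∑ e, (hat w v e : ℝ) * (y e : ℝ) := by
  unfold zp
  push_cast
  refine Finset.sum_congr rfl fun e _ => ?_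
  rw [hat_eq_zv]
  push_cast
  rfl

/-- the slack of a vertex -/
theorem slack (w : κ → ι → ℕ) (h : κ → ℝ) (k : ι → ℝ) (hk : ∀ i, 0 ≤ k i) [Nonempty κ] :
    ∃ Y : ι ⊕ Unit → ℝ, (∀ i, Y (Sum.inl i) = k i) ∧
      ∀ v : κ ⊕ ι, 0 ≤ (∑ e, (hat w v e : ℝ) * Y e) + hhv h v ∧
        ((∑ e, (hat w v e : ℝ) * Y e) + hhv h v = 0 ↔ v ∈ cell w h k) := by
  classical
  obtain ⟨a₀, ha₀⟩ := Finite.exists_min (hval w h k)
  refine ⟨Sum.elim k fun _ => -hval w h k a₀, fun i => rfl, ?_⟩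
  rintro (a | j)
  · have e1 : (∑ e, (hat w (Sum.inl a : κ ⊕ ι) e : ℝ) *
        (Sum.elim k fun _ => -hval w h k a₀ : ι ⊕ Unit → ℝ) e) + hhv h (Sum.inl a : κ ⊕ ι) =
        hval w h k a - hval w h k a₀ := by
      rw [Fintype.sum_sum_type]
      simp only [hat, hhv, Sum.elim_inl, Sum.elim_inr, Finset.univ_unique, Finset.sum_singleton,
        Rat.cast_natCast, Rat.cast_one, one_mul]
      unfold hval
      have : ∑ x, (w a x : ℝ) * k x = ∑ i, k i * (w a i : ℝ) :=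
        Finset.sum_congr rfl fun i _ => mul_comm _ _
      rw [this]; ring
    rw [e1]
    refine ⟨sub_nonneg.2 (ha₀ a), ?_⟩
    unfold cell
    rw [Finset.mem_filter]
    simp only [Finset.mem_univ, true_and, Sum.elim_inl]
    constructor
    · intro h1 b
      rw [sub_eq_zero] at h1
      rw [h1]; exact ha₀ b
    · intro h1
      rw [sub_eq_zero]
      exact le_antisymm (h1 a₀) (ha₀ a)
  · have e1 : (∑ e, (hat w (Sum.inr j : κ ⊕ ι) e : ℝ) *
        (Sum.elim k fun _ => -hval w h k a₀ : ι ⊕ Unit → ℝ) e) + hhv h (Sum.inr j : κ ⊕ ι) =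
        k j := by
      rw [Fintype.sum_sum_type, Finset.sum_eq_single j]
      · simp [hat, hhv]
      · intro i _ hi
        simp [hat, hi]
      · intro hj; exact absurd (Finset.mem_univ j) hj
    rw [e1]
    refine ⟨hk j, ?_⟩
    unfold cell
    rw [Finset.mem_filter]
    simp only [Finset.mem_univ, true_and, Sum.elim_inr]

omit [Fintype ι] [DecidableEq κ] in
/-- coefficients of an element of the span -/
theorem coeffs (w : κ → ι → ℕ) (C : Finset (κ ⊕ ι)) (u : κ ⊕ ι) [Fintype ι]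
    (hu : hat w u ∈ Submodule.span ℚ (hat w '' (C : Set (κ ⊕ ι)))) :
    ∃ l : κ ⊕ ι → ℚ, (∀ v, v ∉ C → l v = 0) ∧ ∀ e, hat w u e = ∑ v, l v * hat w v e := by
  classical
  rw [Submodule.mem_span_image_finset_iff_exists_fun'] at hu
  obtain ⟨c, hc⟩ := hu
  refine ⟨fun v => if v ∈ C then c v else 0, fun v hv => if_neg hv, fun e => ?_⟩
  have h1 := congrFun hc e
  rw [← h1, Finset.sum_apply]
  simp only [Pi.smul_apply, smul_eq_mul]
  rw [← Finset.sum_subset (Finset.subset_univ C)]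
  · exact Finset.sum_congr rfl fun v hv => by rw [if_pos hv]
  · intro v _ hv
    rw [if_neg hv, zero_mul]

end AUTOAux

open AUTOAux in
theorem stmt_AUTO (hTRI1 : Stmt_TRI1) : Stmt_AUTO := by
  classical
  intro ι κ _ _ _ _ _ w h hh M R
  suffices hs : ∀ᶠ K : ℝ in atTop, ∀ Δ : Finset (κ ⊕ ι), ∀ C : Finset (κ ⊕ ι), ∀ u : κ ⊕ ι,
      ∀ g : κ ⊕ ι → ℤ, Near h K R g → Δ ∈ maxCells w h → C ⊆ Δ → ∀ y : ι ⊕ Unit → ℤ,
      (∀ v ∈ C, 0 ≤ zp w y v + g v ∧ zp w y v + g v < M) →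
      hat w u ∈ Submodule.span ℚ (hat w '' (C : Set (κ ⊕ ι))) → 0 ≤ zp w y u + g u by
    obtain ⟨K₀, hK₀⟩ := eventually_atTop.1 hs
    exact ⟨K₀, fun K hK g hg Δ hΔ C hC y hy u hu => hK₀ K hK Δ C u g hg hΔ hC y hy hu⟩
  rw [eventually_all]; intro Δ
  rw [eventually_all]; intro C
  rw [eventually_all]; intro u
  by_cases hΔ : Δ ∈ maxCells w h
  swap
  · exact Eventually.of_forall fun K g _ h1 => absurd h1 hΔ
  by_cases hC : C ⊆ Δ
  swap
  · exact Eventually.of_forall fun K g _ _ h1 => absurd h1 hC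
  by_cases hu : hat w u ∈ Submodule.span ℚ (hat w '' (C : Set (κ ⊕ ι)))
  swap
  · exact Eventually.of_forall fun K g _ _ _ _ _ h1 => absurd h1 hu
  by_cases huC : u ∈ C
  · exact Eventually.of_forall fun K g _ _ _ y hy _ => (hy u huC).1
  have hΔ' : Δ.card = Fintype.card ι + 1 ∧ ∃ k : ι → ℝ, (∀ i, 0 ≤ k i) ∧ Δ = cell w h k := by
    unfold maxCells at hΔ
    exact (Finset.mem_filter.1 hΔ).2
  obtain ⟨-, k, hk0, hk⟩ := hΔ'
  obtain ⟨Y, -, hY⟩ := slack w h k hk0
  obtain ⟨l, hl0, hl⟩ := coeffs w C u hu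
  have huΔ : u ∉ Δ := by
    intro huΔ
    have h1 := hTRI1 ι κ w h k (fun v => (if v = u then 1 else 0) - l v) hh (by
      intro v hv
      rw [← hk] at hv
      have h2 : v ≠ u := fun h => hv (h ▸ huΔ)
      have h3 : v ∉ C := fun h => hv (hC h)
      simp [h2, hl0 v h3]) (by
      intro e
      simp only [sub_mul, Finset.sum_sub_distrib]
      rw [← hl e]
      simp) u
    simp only [if_true, hl0 u huC, sub_zero] at h1
    exact one_ne_zero h1
  -- the slack of u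
  set s : ℝ := (∑ e, (hat w u e : ℝ) * Y e) + hhv h u with hsdef
  have hspos : 0 < s := by
    rcases (hY u).1.eq_or_lt with h1 | h1
    · exact absurd ((hY u).2.1 h1.symm) (by rw [← hk]; exact huΔ)
    · exact h1
  have hlR : ∀ z : ι ⊕ Unit → ℝ, ∑ e, (hat w u e : ℝ) * z e =
      ∑ v, (l v : ℝ) * ∑ e, (hat w v e : ℝ) * z e := by
    intro z
    simp only [Finset.mul_sum]
    rw [Finset.sum_comm]
    refine Finset.sum_congr rfl fun e _ => ?_
    rw [hl e]
    push_cast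
    rw [Finset.sum_mul]
    exact Finset.sum_congr rfl fun v _ => by ring
  have hs : s = hhv h u - ∑ v, (l v : ℝ) * hhv h v := by
    have h1 : ∑ v, (l v : ℝ) * ∑ e, (hat w v e : ℝ) * Y e = ∑ v, (l v : ℝ) * (-hhv h v) := by
      refine Finset.sum_congr rfl fun v _ => ?_
      by_cases hv : v ∈ C
      · have h2 := (hY v).2.2 (by rw [← hk]; exact hC hv)
        rw [eq_neg_of_add_eq_zero_left h2]
      · rw [hl0 v hv]; simp
    rw [hsdef, hlR, h1]
    simp only [mul_neg, Finset.sum_neg_distrib]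
    ring
  set Λ : ℝ := ∑ v, |(l v : ℝ)| with hΛ
  have hΛ0 : 0 ≤ Λ := Finset.sum_nonneg fun v _ => abs_nonneg _
  filter_upwards [eventually_ge_atTop ((R * (1 + Λ) + M * Λ) / s)] with K hK g hg _ _ y hy _
  have hK' : R * (1 + Λ) + M * Λ ≤ K * s := by
    rwa [div_le_iff₀ hspos] at hK
  have hgv : ∀ v, |(g v : ℝ) - K * hhv h v| ≤ R := by
    rintro (a | j)
    · exact hg.1 a
    · have := hg.2 j
      simpa [hhv] using this
  have h1 : (zp w y u : ℝ) = ∑ v, (l v : ℝ) * (zp w y v : ℝ) := by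
    rw [zp_real, hlR]
    exact Finset.sum_congr rfl fun v _ => by rw [zp_real]
  have h2 : (zp w y u : ℝ) + g u = (∑ v, (l v : ℝ) * ((zp w y v : ℝ) + g v)) +
      ((g u : ℝ) - K * hhv h u) - (∑ v, (l v : ℝ) * ((g v : ℝ) - K * hhv h v)) + K * s := by
    rw [h1, hs]
    simp only [mul_sub, mul_add, Finset.sum_add_distrib, Finset.sum_sub_distrib, Finset.mul_sum]
    have h3 : ∑ v, (l v : ℝ) * (K * hhv h v) = ∑ v, K * ((l v : ℝ) * hhv h v) :=
      Finset.sum_congr rfl fun v _ => by ring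
    rw [h3]; ring
  have h3 : -(M * Λ) ≤ ∑ v, (l v : ℝ) * ((zp w y v : ℝ) + g v) := by
    rw [hΛ, Finset.mul_sum, ← Finset.sum_neg_distrib]
    refine Finset.sum_le_sum fun v _ => ?_
    by_cases hv : v ∈ C
    · obtain ⟨h4, h5⟩ := hy v hv
      have h4' : (0 : ℝ) ≤ (zp w y v : ℝ) + g v := by exact_mod_cast h4
      have h5' : (zp w y v : ℝ) + g v ≤ M := by exact_mod_cast h5.le
      have h6 : |(l v : ℝ) * ((zp w y v : ℝ) + g v)| ≤ M * |(l v : ℝ)| := by
        rw [abs_mul, abs_of_nonneg h4', mul_comm]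
        exact mul_le_mul_of_nonneg_right h5' (abs_nonneg _)
      exact (abs_le.1 h6).1
    · rw [hl0 v hv]; simp
  have h4 : ∑ v, (l v : ℝ) * ((g v : ℝ) - K * hhv h v) ≤ R * Λ := by
    rw [hΛ, Finset.mul_sum]
    refine Finset.sum_le_sum fun v _ => ?_
    have h5 : |(l v : ℝ) * ((g v : ℝ) - K * hhv h v)| ≤ R * |(l v : ℝ)| := by
      rw [abs_mul, mul_comm]
      exact mul_le_mul_of_nonneg_right (hgv v) (abs_nonneg _)
    exact (abs_le.1 h5).2
  have h5 : -R ≤ (g u : ℝ) - K * hhv h u := (abs_le.1 (hgv u)).1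
  have h6 : (0 : ℝ) ≤ (zp w y u : ℝ) + g u := by
    rw [h2]
    linarith
  exact_mod_cast h6

end Pool.Agent.Mono.NP
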