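import Pool.Agent.Work.Monodromy.Interface12C

/-!
# Phase 12, part I, BRI: the limits of the sums over thick faces (helper79)
-/

set_option autoImplicit false
set_option linter.unusedSectionVars false

namespace Pool.Agent.Mono.NP

open MvPolynomial Filter Topology

namespace BRIAux

section

variable {ι κ : Type} [Fintype ι] [DecidableEq ι] [Fintype κ] [DecidableEq κ]

lemma Itg_sum {F : Type} [Field F] [Algebra ℚ F] (w : κ → ι → ℕ) (h : κ → ℝ)
    (σ : Finset (κ ⊕ ι)) {τ : Type} (s : Finset τ) (f : τ → MvPolynomial (κ ⊕ ι) ℚ)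
    (y : ι ⊕ Unit → F) : Itg w h σ (∑ t ∈ s, f t) y = ∑ t ∈ s, Itg w h σ (f t) y := by
  unfold Itg
  rw [Finset.sum_comm]
  refine Finset.sum_congr rfl fun Δ _ => ?_
  rw [map_sum, Finset.sum_div]

lemma int_mult {J : Type} [Fintype J] (x : J → ℚ) :
    ∃ (D : ℕ) (ρ : J → ℤ), 1 ≤ D ∧ ∀ e, (ρ e : ℚ) = D * x e := by
  classical
  refine ⟨∏ e, (x e).den, ?_⟩
  have h1 : ∀ e, ∃ z : ℤ, (z : ℚ) = ((∏ e, (x e).den : ℕ) : ℚ) * x e := by
    intro e
    obtain ⟨k, hk⟩ := Finset.dvd_prod_of_mem (fun e => (x e).den) (Finset.mem_univ e)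
    refine ⟨k * (x e).num, ?_⟩
    rw [hk]
    push_cast
    rw [← Rat.mul_den_eq_num (x e)]
    ring
  choose ρ hρ using h1
  exact ⟨ρ, Finset.prod_pos fun e _ => (x e).den_pos, hρ⟩

lemma zp_cast (w : κ → ι → ℕ) (y : ι ⊕ Unit → ℤ) (v : κ ⊕ ι) :
    ((zp w y v : ℤ) : ℚ) = ∑ e, (y e : ℚ) * hat w v e := by
  unfold zp
  push_cast
  refine Finset.sum_congr rfl fun e _ => ?_
  rw [mul_comm]
  congr 1
  rcases v with a | j
  · rcases e with i | e
    · simp [zv, hat]
    · simp [zv, hat]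
  · rcases e with i | e
    · simp only [zv, hat, Sum.elim_inr, Sum.elim_inl]
      by_cases hij : i = j
      · subst hij; simp
      · simp [hij]
    · simp [zv, hat]

open Classical in
lemma card_max (w : κ → ι → ℕ) (h : κ → ℝ) {Δ : Finset (κ ⊕ ι)} (hΔ : Δ ∈ maxCells w h) :
    Δ.card = Fintype.card ι + 1 := by
  unfold maxCells at hΔ
  exact (Finset.mem_filter.1 hΔ).2.1

lemma lim_exp (c : ℝ) :
    Tendsto (fun ε : ℝ => (1 - Real.exp (-ε * c)) / ε) (𝓝[>] 0) (𝓝 c) := by
  have h1 : HasDerivAt (fun ε : ℝ => 1 - Real.exp (-ε * c)) c 0 := by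
    have h2 : HasDerivAt (fun ε : ℝ => -ε * c) (-1 * c) 0 :=
      ((hasDerivAt_id (0 : ℝ)).neg).mul_const c
    have h3 := h2.exp.const_sub 1
    simpa using h3
  have h4 := hasDerivAt_iff_tendsto_slope_zero.1 h1
  have h5 := h4.mono_left (nhdsWithin_mono (0 : ℝ) (fun x (hx : 0 < x) => (ne_of_gt hx)))
  refine h5.congr fun ε => ?_
  simp
  ring

end

end BRIAux

open BRIAux in
theorem stmt_BRI (hDUAL : Stmt_DUAL) (hREL : Stmt_REL) (hEMP : Stmt_EMP) (hTOPC : Stmt_TOPC)
    (hREC : Stmt_REC) : Stmt_BRI := by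
  intro ι κ _ _ _ _ _ w h hh M hM hdiv p hp hgen
  -- the recursion for the integrals
  have hrel : ∀ (C : Finset (κ ⊕ ι)) (ρ : ι ⊕ Unit → ℤ), (∀ v ∈ C, zp w ρ v = 0) →
      ∑ v ∈ Finset.univ.filter (fun v => v ∉ C), (zp w ρ v : ℝ) * Itg w h (insert v C) 1 p =
        ph p ρ * Itg w h C 1 p := by
    intro C ρ hρ
    have r3 : ∀ e, Itg w h C (relv w e * 1) p = p e * Itg w h C 1 p := fun e =>
      (hREL ι κ w h hh ℝ p hgen C 1 1).2.2.1 e
    have r4 : ∀ v, v ∉ C → Itg w h C (X v * 1) p = Itg w h (insert v C) 1 p := fun v hv =>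
      (hREL ι κ w h hh ℝ p hgen C 1 1).2.2.2.1 v hv
    have r2 : ∀ (c : ℚ) (g : MvPolynomial (κ ⊕ ι) ℚ), Itg w h C (MvPolynomial.C c * g) p =
        algebraMap ℚ ℝ c * Itg w h C g p := fun c g =>
      (hREL ι κ w h hh ℝ p hgen C g 1).2.1 c
    have e1 : ∀ e, p e * Itg w h C 1 p = ∑ v, (hat w v e : ℝ) * Itg w h C (X v) p := by
      intro e
      rw [← r3 e, mul_one, relv, Itg_sum]
      refine Finset.sum_congr rfl fun v _ => ?_
      rw [r2]
      rfl
    have e2 : ph p ρ * Itg w h C 1 p = ∑ v, (zp w ρ v : ℝ) * Itg w h C (X v) p := by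
      unfold ph
      rw [Finset.sum_mul]
      have : ∀ e, p e * (ρ e : ℝ) * Itg w h C 1 p =
          ∑ v, ((ρ e : ℝ) * (hat w v e : ℝ)) * Itg w h C (X v) p := by
        intro e
        rw [mul_right_comm, e1 e, Finset.sum_mul]
        exact Finset.sum_congr rfl fun v _ => by ring
      rw [Finset.sum_congr rfl fun e _ => this e, Finset.sum_comm]
      refine Finset.sum_congr rfl fun v _ => ?_
      rw [← Finset.sum_mul]
      congr 1
      have := zp_cast w ρ v
      have h2 : ((zp w ρ v : ℤ) : ℝ) = (((zp w ρ v : ℤ) : ℚ) : ℝ) := by push_cast; rfl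
      rw [h2, this]
      push_cast
      rfl
    rw [e2, Finset.sum_filter]
    refine Finset.sum_congr rfl fun v _ => ?_
    by_cases hv : v ∈ C
    · rw [if_neg (not_not.2 hv), hρ v hv]
      simp
    · rw [if_pos hv, ← r4 v hv, mul_one]
  suffices H : ∀ (m : ℕ) (C : Finset (κ ⊕ ι)), Fintype.card ι + 1 - C.card = m →
      (∃ a, Sum.inl a ∈ C) → (∃ Δ ∈ maxCells w h, C ⊆ Δ) → ∀ R : ℝ,
      ∃ K₀ : ℝ, ∀ K : ℝ, K₀ ≤ K → ∀ g : κ ⊕ ι → ℤ, Near h K R g →
        Tendsto (fun ε : ℝ => ε ^ (Fintype.card ι + 1 - C.card) * Us w g M C p ε) (𝓝[>] 0)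
          (𝓝 ((M : ℝ) ^ C.card * Itg w h C 1 p)) from fun C hC hΔ R => H _ C rfl hC hΔ R
  intro m
  induction m with
  | zero =>
    intro C hm hC hΔ R
    obtain ⟨Δ, hΔ, hCΔ⟩ := hΔ
    have hcard : Δ.card = Fintype.card ι + 1 := card_max w h hΔ
    have hCeq : C = Δ := Finset.eq_of_subset_of_card_le hCΔ (by omega)
    subst hCeq
    obtain ⟨K₀, hK₀⟩ := hTOPC ι κ w h hh M R hM hdiv
    refine ⟨K₀, fun K hK g hg => ?_⟩
    obtain ⟨hfin, hcnt⟩ := hK₀ K hK g hg C hΔ
    have hdet := (hDUAL ι κ w h hh C hΔ).1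
    have hItg : Itg w h C 1 p = 1 / (algebraMap ℚ ℝ (adet w C)) := by
      unfold Itg
      rw [Finset.sum_congr (s₂ := {C}) ?_ fun _ _ => rfl, Finset.sum_singleton]
      · simp
      · ext Δ'
        rw [Finset.mem_filter, Finset.mem_singleton]
        constructor
        · rintro ⟨h1, h2⟩
          have h3 : Δ'.card = Fintype.card ι + 1 := card_max w h h1
          exact (Finset.eq_of_subset_of_card_le h2 (by omega)).symm
        · rintro rfl
          exact ⟨hΔ, Finset.Subset.refl _⟩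
    have hlim : (M : ℝ) ^ C.card * Itg w h C 1 p = ((Rg w g M C).ncard : ℝ) := by
      rw [hItg, hcard]
      have h1 : (((Rg w g M C).ncard : ℚ) * adet w C : ℚ) = (M : ℚ) ^ (Fintype.card ι + 1) := hcnt
      have h2 : (((Rg w g M C).ncard : ℝ) * (algebraMap ℚ ℝ (adet w C)) : ℝ) =
          (M : ℝ) ^ (Fintype.card ι + 1) := by
        have := congrArg (algebraMap ℚ ℝ) h1
        rw [map_mul, map_pow, map_natCast, map_natCast] at this
        exact this
      have h3 : (algebraMap ℚ ℝ (adet w C)) ≠ 0 := by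
        intro h0
        rw [map_eq_zero] at h0
        exact absurd h0 (ne_of_gt hdet)
      rw [← h2]
      field_simp
    rw [hlim, hm]
    have : Fintype (Rg w g M C) := hfin.fintype
    have h4 : ∀ ε : ℝ, ε ^ 0 * Us w g M C p ε = ∑ y : Rg w g M C, Real.exp (-ε * ph p y) := by
      intro ε
      rw [pow_zero, one_mul, Us, tsum_fintype]
    simp_rw [h4]
    have h5 : Tendsto (fun ε : ℝ => ∑ y : Rg w g M C, Real.exp (-ε * ph p y)) (𝓝 0)
        (𝓝 (∑ y : Rg w g M C, Real.exp (-(0 : ℝ) * ph p y))) :=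
      tendsto_finsetSum _ fun y _ => (Continuous.tendsto (by fun_prop) 0)
    have h6 : ∑ y : Rg w g M C, Real.exp (-(0 : ℝ) * ph p y) = ((Rg w g M C).ncard : ℝ) := by
      rw [← Nat.card_coe_set_eq, Nat.card_eq_fintype_card]
      simp
    rw [h6] at h5
    exact h5.mono_left nhdsWithin_le_nhds
  | succ m ih =>
    intro C hm hC hΔ R
    obtain ⟨Δ, hΔ, hCΔ⟩ := hΔ
    have hcard : Δ.card = Fintype.card ι + 1 := card_max w h hΔ
    obtain ⟨v₀, hv₀Δ, hv₀C⟩ : ∃ v ∈ Δ, v ∉ C := by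
      by_contra hcon
      push Not at hcon
      have := Finset.card_le_card (show Δ ⊆ C from hcon)
      omega
    obtain ⟨hdet, hdual, -⟩ := hDUAL ι κ w h hh Δ hΔ
    obtain ⟨D, ρ, hD, hρ⟩ := int_mult (dual w Δ v₀)
    have hzp : ∀ v, ((zp w ρ v : ℤ) : ℚ) = D * pr (dual w Δ v₀) (hat w v) := by
      intro v
      rw [zp_cast, pr, Finset.mul_sum]
      exact Finset.sum_congr rfl fun e _ => by rw [hρ]; ring
    have hzC : ∀ v ∈ C, zp w ρ v = 0 := by
      intro v hv
      have h1 := hzp v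
      rw [hdual v₀ hv₀Δ v (hCΔ hv), if_neg (fun h0 : v = v₀ => hv₀C (h0 ▸ hv)), mul_zero] at h1
      exact_mod_cast h1
    have hph : ph p ρ = D * cf w Δ p v₀ := by
      unfold ph cf ev
      rw [if_pos hv₀Δ, Finset.mul_sum]
      refine Finset.sum_congr rfl fun e _ => ?_
      have h1 : ((ρ e : ℤ) : ℝ) = (D : ℝ) * (algebraMap ℚ ℝ (dual w Δ v₀ e)) := by
        have := congrArg (algebraMap ℚ ℝ) (hρ e)
        rw [map_mul, map_natCast, map_intCast] at this
        exact this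
      rw [h1]
      ring
    have hph0 : ph p ρ ≠ 0 := by
      rw [hph]
      refine mul_ne_zero (by exact_mod_cast (by omega : D ≠ 0)) (hgen Δ hΔ v₀ hv₀Δ)
    set R' : ℝ := R + M * ∑ v, |(zp w ρ v : ℝ)| with hR'
    have hIH : ∀ v, ∃ K₁ : ℝ, v ∉ C → (∃ Δ ∈ maxCells w h, insert v C ⊆ Δ) → ∀ K : ℝ, K₁ ≤ K →
        ∀ g : κ ⊕ ι → ℤ, Near h K R' g →
        Tendsto (fun ε : ℝ => ε ^ (Fintype.card ι + 1 - (insert v C).card) *
          Us w g M (insert v C) p ε) (𝓝[>] 0)
          (𝓝 ((M : ℝ) ^ (insert v C).card * Itg w h (insert v C) 1 p)) := by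
      intro v
      by_cases hv : v ∉ C
      · by_cases hv2 : ∃ Δ ∈ maxCells w h, insert v C ⊆ Δ
        · obtain ⟨K₁, hK₁⟩ := ih (insert v C) (by rw [Finset.card_insert_of_notMem hv]; omega)
            ⟨hC.choose, Finset.mem_insert_of_mem hC.choose_spec⟩ hv2 R'
          exact ⟨K₁, fun _ _ => hK₁⟩
        · exact ⟨0, fun _ h2 => absurd h2 hv2⟩
      · exact ⟨0, fun h1 => absurd h1 hv⟩
    choose K₁ hK₁ using hIH
    obtain ⟨K₂, hK₂⟩ := hEMP ι κ w h hh M R'
    refine ⟨K₂ ⊔ ∑ v, |K₁ v|, fun K hK g hg => ?_⟩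
    obtain ⟨n, σ, j, g', hj, hg', hσ, hrec⟩ := hREC ι κ w g M C ρ hM hC hzC
    have hKK : ∀ v, K₁ v ≤ K := fun v => (le_abs_self _).trans
      ((Finset.single_le_sum (f := fun v => |K₁ v|) (fun _ _ => abs_nonneg _)
        (Finset.mem_univ v)).trans ((le_max_right _ _).trans hK))
    have hnear : ∀ t, Near h K R' (g' t) := by
      intro t
      have h1 : ∀ v, |((g' t v : ℤ) : ℝ) - g v| ≤ M * ∑ v, |(zp w ρ v : ℝ)| := by
        intro v
        have h2 := hg' t v
        have h3 : |((g' t v : ℤ) : ℝ) - g v| ≤ M * |(zp w ρ v : ℝ)| := by exact_mod_cast h2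
        exact h3.trans (mul_le_mul_of_nonneg_left
          (Finset.single_le_sum (f := fun v => |(zp w ρ v : ℝ)|) (fun _ _ => abs_nonneg _)
            (Finset.mem_univ v)) (Nat.cast_nonneg _))
      constructor
      · intro a
        have h2 := hg.1 a
        have h3 := h1 (Sum.inl a)
        calc |((g' t (Sum.inl a) : ℤ) : ℝ) - K * h a| =
            |(((g' t (Sum.inl a) : ℤ) : ℝ) - g (Sum.inl a)) + ((g (Sum.inl a) : ℝ) - K * h a)| := by
              congr 1; ring
          _ ≤ _ := (abs_add_le _ _).trans (by rw [hR']; linarith)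
      · intro i
        have h2 := hg.2 i
        have h3 := h1 (Sum.inr i)
        calc |((g' t (Sum.inr i) : ℤ) : ℝ)| =
            |(((g' t (Sum.inr i) : ℤ) : ℝ) - g (Sum.inr i)) + (g (Sum.inr i) : ℝ)| := by
              congr 1; ring
          _ ≤ _ := (abs_add_le _ _).trans (by rw [hR']; linarith)
    -- the limits of the terms
    have hlim : ∀ t, Tendsto (fun ε : ℝ => ε ^ m * Us w (g' t) M (insert (j t) C) p ε) (𝓝[>] 0)
        (𝓝 ((M : ℝ) ^ (C.card + 1) * Itg w h (insert (j t) C) 1 p)) := by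
      intro t
      have hc : (insert (j t) C).card = C.card + 1 := Finset.card_insert_of_notMem (hj t)
      by_cases h2 : ∃ Δ ∈ maxCells w h, insert (j t) C ⊆ Δ
      · have h3 := hK₁ (j t) (hj t) h2 K (hKK _) (g' t) (hnear t)
        rw [hc, show Fintype.card ι + 1 - (C.card + 1) = m by omega] at h3
        exact h3
      · have h4 : Itg w h (insert (j t) C) 1 p = 0 := by
          refine (hREL ι κ w h hh ℝ p hgen (insert (j t) C) 1 1).2.2.2.2.2 fun Δ' hΔ' h5 => ?_
          exact h2 ⟨Δ', hΔ', h5⟩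
        have h6 : ∀ ε, Us w (g' t) M (insert (j t) C) p ε = 0 := by
          intro ε
          have h7 : IsEmpty (Rg w (g' t) M (insert (j t) C)) := by
            rw [Set.isEmpty_coe_sort, ← Set.not_nonempty_iff_eq_empty]
            intro h8
            exact h2 (hK₂ K ((le_max_left _ _).trans hK) (g' t) (hnear t) _ h8)
          rw [Us, tsum_empty]
        rw [h4, mul_zero]
        simp_rw [h6, mul_zero]
        exact tendsto_const_nhds
    have hsum : Tendsto (fun ε : ℝ => ∑ t, (σ t : ℝ) *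
        (ε ^ m * Us w (g' t) M (insert (j t) C) p ε)) (𝓝[>] 0)
        (𝓝 (∑ t, (σ t : ℝ) * ((M : ℝ) ^ (C.card + 1) * Itg w h (insert (j t) C) 1 p))) :=
      tendsto_finsetSum _ fun t _ => (hlim t).const_mul _
    have hval : ∑ t, (σ t : ℝ) * ((M : ℝ) ^ (C.card + 1) * Itg w h (insert (j t) C) 1 p) =
        (M * ph p ρ) * ((M : ℝ) ^ C.card * Itg w h C 1 p) := by
      have h1 : ∑ t, (σ t : ℝ) * ((M : ℝ) ^ (C.card + 1) * Itg w h (insert (j t) C) 1 p) =
          ∑ v, ∑ t ∈ Finset.univ.filter (fun t => j t = v),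
            (σ t : ℝ) * ((M : ℝ) ^ (C.card + 1) * Itg w h (insert v C) 1 p) := by
        rw [← Finset.sum_fiberwise (s := Finset.univ) (g := j)]
        refine Finset.sum_congr rfl fun v _ => Finset.sum_congr rfl fun t ht => ?_
        rw [(Finset.mem_filter.1 ht).2]
      rw [h1]
      have h2 : ∀ v, ∑ t ∈ Finset.univ.filter (fun t => j t = v),
            (σ t : ℝ) * ((M : ℝ) ^ (C.card + 1) * Itg w h (insert v C) 1 p) =
          if v ∉ C then (M : ℝ) ^ (C.card + 1) * ((zp w ρ v : ℝ) * Itg w h (insert v C) 1 p)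
          else 0 := by
        intro v
        rw [← Finset.sum_mul]
        by_cases hv : v ∈ C
        · rw [if_neg (not_not.2 hv)]
          have h3 : Finset.univ.filter (fun t => j t = v) = ∅ := by
            rw [Finset.filter_eq_empty_iff]
            intro t _ h4
            exact hj t (h4 ▸ hv)
          rw [h3]
          simp
        · rw [if_pos hv]
          have h3 : (∑ t ∈ Finset.univ.filter (fun t => j t = v), (σ t : ℝ)) = zp w ρ v := by
            exact_mod_cast hσ v hv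
          rw [h3]
          ring
      rw [Finset.sum_congr rfl fun v _ => h2 v, ← Finset.sum_filter, ← Finset.mul_sum,
        hrel C ρ hzC]
      ring
    rw [hval] at hsum
    have hc0 : (M : ℝ) * ph p ρ ≠ 0 := mul_ne_zero (by exact_mod_cast (by omega : M ≠ 0)) hph0
    have hdiv := hsum.div (lim_exp (M * ph p ρ)) hc0
    rw [mul_div_cancel_left₀ _ hc0] at hdiv
    refine hdiv.congr' ?_
    filter_upwards [self_mem_nhdsWithin] with ε hε
    rw [Set.mem_Ioi] at hε
    have h1 := hrec p hp ε hε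
    have h2 : ∑ t, (σ t : ℝ) * (ε ^ m * Us w (g' t) M (insert (j t) C) p ε) =
        ε ^ m * ((1 - Real.exp (-ε * (M * ph p ρ))) * Us w g M C p ε) := by
      rw [h1, Finset.mul_sum]
      exact Finset.sum_congr rfl fun t _ => by ring
    have h3 : (1 : ℝ) - Real.exp (-ε * (M * ph p ρ)) ≠ 0 := by
      intro h4
      have h5 : Real.exp (-ε * (M * ph p ρ)) = 1 := by linarith
      rw [Real.exp_eq_one_iff] at h5
      rcases mul_eq_zero.1 h5 with h6 | h6
      · linarith
      · exact hc0 h6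
    rw [Pi.div_apply, h2, hm, pow_succ]
    generalize Real.exp (-ε * (M * ph p ρ)) = E at h3 ⊢
    field_simp

end Pool.Agent.Mono.NP
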