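import Pool.Agent.Work.Monodromy.Interface12C

/-!
# Phase 12, block CELI: the vectors of a cell of a subset are linearly independent (helper63)
-/

set_option autoImplicit false

namespace Pool.Agent.Mono.NP

open MvPolynomial

theorem stmt_CELI : Stmt_CELI := by
  classical
  intro ι κ _ _ _ _ w h hh k C hC
  rw [Fintype.linearIndependent_iff]
  intro g hg
  have hstar : ∑ a : C, g a = 0 := by
    have h1 := congrFun hg (Sum.inr ())
    simpa [hat, Finset.sum_apply] using h1
  have hrow : ∀ i, ∑ a : C, g a * (w a i : ℚ) = 0 := by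
    intro i
    have h1 := congrFun hg (Sum.inl i)
    simpa [hat, Finset.sum_apply] using h1
  obtain ⟨N, hN⟩ : ∃ N : ℝ, ∀ a ∈ C, hval w h k a = N := by
    by_cases h0 : C.Nonempty
    · obtain ⟨a0, ha0⟩ := h0
      exact ⟨hval w h k a0, fun a ha => hC a ha a0 ha0⟩
    · rw [Finset.not_nonempty_iff_eq_empty] at h0
      subst h0
      exact ⟨0, fun a ha => absurd ha (Finset.notMem_empty _)⟩
  have h2 : ∑ a : C, (g a : ℝ) * h a = 0 := by
    have h3 : ∑ a : C, (g a : ℝ) * hval w h k a =
        ∑ i, k i * ((∑ a : C, g a * (w a i : ℚ) : ℚ) : ℝ) +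
          ∑ a : C, (g a : ℝ) * h a := by
      unfold hval
      simp only [mul_add, Finset.sum_add_distrib, Rat.cast_sum, Rat.cast_mul, Rat.cast_natCast,
        Finset.mul_sum]
      rw [Finset.sum_comm]
      congr 1
      refine Finset.sum_congr rfl fun i _ => Finset.sum_congr rfl fun a _ => ?_
      ring
    have h4 : ∑ a : C, (g a : ℝ) * hval w h k a = 0 := by
      rw [Finset.sum_congr rfl fun a _ => by rw [hN a.1 a.2], ← Finset.sum_mul, ← Rat.cast_sum,
        hstar, Rat.cast_zero, zero_mul]
    rw [h4] at h3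
    rw [Finset.sum_congr rfl fun i _ => by rw [hrow i, Rat.cast_zero, mul_zero],
      Finset.sum_const_zero, zero_add] at h3
    exact h3.symm
  have h5 := hh.comp (fun a : C => (a : κ)) Subtype.val_injective
  rw [Fintype.linearIndependent_iff] at h5
  apply h5
  rw [← h2]
  refine Finset.sum_congr rfl fun a _ => ?_
  exact Rat.smul_def (g a) (h a)

end Pool.Agent.Mono.NP
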