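import Pool.Agent.Work.Monodromy.Interface12C
import Pool.Agent.Work.Monodromy.YM

/-!
# Phase 12, part I, block CLS0 (helper42)
-/

set_option autoImplicit false
set_option linter.unusedSectionVars false

namespace Pool.Agent.Mono.NP

open MvPolynomial

namespace CLS0Aux

/-- the torus -/
def Tor (ι : Type) : Set (ι → ℂ) := {x | ∀ i, x i ≠ 0}

theorem cons_Tor (ι : Type) [Finite ι] : Constructible (Tor ι) := by
  refine Constructible.all fun i => ?_
  have h := Constructible.ne (X i : MvPolynomial ι ℂ)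
  simpa only [eval_X] using h

variable {R : Type} [CommRing R] (μ : MotivicMeasure R)

theorem val_Tor_unit : μ.val (Tor Unit) = μ.L - 1 := by
  have h1 : Tor Unit = {x : Unit → ℂ | x = 0}ᶜ := by
    ext x
    simp only [Tor, Set.mem_ofPred_eq, Set.mem_compl_iff, funext_iff, not_forall]
    constructor
    · intro h
      exact ⟨(), h ()⟩
    · rintro ⟨⟨⟩, h⟩ ⟨⟩
      exact h
  rw [h1, μ.val_compl (Constructible.point 0), μ.val_point]
  rfl

theorem val_Tor_equiv {ι κ : Type} [Finite ι] [Finite κ] (e : κ ≃ ι) :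
    μ.val (Tor ι) = μ.val (Tor κ) := by
  rw [← μ.reindex e (cons_Tor κ)]
  congr 1
  ext x
  simp only [Tor, Set.mem_ofPred_eq]
  exact ⟨fun h j => h (e j), fun h i => by simpa using h (e.symm i)⟩

theorem val_Tor_fin (n : ℕ) : μ.val (Tor (Fin n)) = (μ.L - 1) ^ n := by
  induction n with
  | zero =>
    have h : Tor (Fin 0) = Set.univ := by
      ext x
      simp [Tor]
    rw [h, μ.val_univ_fin, pow_zero, pow_zero]
  | succ n ih =>
    have e : Fin n ⊕ Unit ≃ Fin (n + 1) := (Equiv.sumCongr (Equiv.refl _) finOneEquiv.symm).trans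
      finSumFinEquiv
    rw [val_Tor_equiv μ e, pow_succ, ← ih, ← val_Tor_unit μ,
      ← μ.prod _ _ (cons_Tor _) (cons_Tor _)]
    congr 1
    ext x
    simp only [Tor, Set.mem_ofPred_eq, Sum.forall]

theorem val_Tor (ι : Type) [Fintype ι] : μ.val (Tor ι) = (μ.L - 1) ^ Fintype.card ι := by
  rw [val_Tor_equiv μ (Fintype.equivFin ι).symm, val_Tor_fin]

section

variable {ι κ : Type} [Fintype ι] [DecidableEq ι] [Fintype κ] [DecidableEq κ]

omit [Fintype ι] [DecidableEq ι] in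
/-- the universal jet -/
noncomputable def ujet (k : ℕ) (i : ι) : Polynomial (MvPolynomial ((ι × Fin (k + 1)) ⊕ Unit) ℂ) :=
  ∑ l : Fin (k + 1), Polynomial.C (X (Sum.inl (i, l))) * Polynomial.X ^ (l : ℕ)

/-- the coefficient `l` of `f` along the universal jet -/
noncomputable def cJ (k : ℕ) (f : MvPolynomial ι ℂ) (l : ℕ) :
    MvPolynomial ((ι × Fin (k + 1)) ⊕ Unit) ℂ :=
  (aeval (ujet k) f : Polynomial (MvPolynomial ((ι × Fin (k + 1)) ⊕ Unit) ℂ)).coeff l

omit [Fintype ι] [DecidableEq ι] in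
theorem map_aeval (k : ℕ) (f : MvPolynomial ι ℂ) (z : (ι × Fin (k + 1)) ⊕ Unit → ℂ) :
    Polynomial.map (eval z) (aeval (ujet k) f) =
      aeval (jet fun s => z (Sum.inl s)) f := by
  induction f using MvPolynomial.induction_on with
  | C a =>
    rw [aeval_C, aeval_C, Polynomial.algebraMap_apply, Polynomial.algebraMap_apply,
      Polynomial.map_C, algebraMap_eq, eval_C]
    rfl
  | add p q hp hq => rw [map_add, map_add, Polynomial.map_add, hp, hq]
  | mul_X p i hp =>
    rw [map_mul, map_mul, Polynomial.map_mul, hp, aeval_X, aeval_X]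
    congr 1
    simp [ujet, jet, Polynomial.map_sum]

omit [Fintype ι] [DecidableEq ι] in
theorem eval_cJ (k : ℕ) (f : MvPolynomial ι ℂ) (l : ℕ) (z : (ι × Fin (k + 1)) ⊕ Unit → ℂ) :
    eval z (cJ k f l) = (aeval (jet fun s => z (Sum.inl s)) f : Polynomial ℂ).coeff l := by
  rw [cJ, ← Polynomial.coeff_map, map_aeval]

omit [Fintype ι] [DecidableEq ι] in
/-- `jetSet` is constructible -/
theorem cons_jetSet (f : MvPolynomial ι ℂ) (e k : ℕ) : Constructible (jetSet f e k) := by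
  have h0 : jetSet f e k = {z : (ι × Fin (k + 1)) ⊕ Unit → ℂ |
      (∀ l < k, eval z (cJ k f l) = 0) ∧ eval z (cJ k f k) ≠ 0 ∧
        eval z (X (Sum.inr ()) ^ e) = eval z (cJ k f k)} := by
    ext z
    simp only [jetSet, Set.mem_ofPred_eq, eval_cJ, map_pow, eval_X]
  rw [h0]
  refine Constructible.and ?_ (Constructible.and (Constructible.ne _) (Constructible.eq _ _))
  exact Constructible.all_lt k fun l _ => Constructible.zero _

theorem cons_Jt (w : κ → ι → ℕ) (a : κ → ℂ) (d K : ℕ) (k : ι → ℕ) :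
    Constructible (Jt w a d K k) := by
  refine Constructible.and (cons_jetSet _ _ _) (Constructible.all fun i => Constructible.all fun l =>
    Constructible.and ?_ ?_)
  · refine Constructible.imp (Constructible.const _) ?_
    have h := Constructible.zero (X (Sum.inl (i, l)) : MvPolynomial ((ι × Fin (K + 1)) ⊕ Unit) ℂ)
    simpa only [eval_X] using h
  · refine Constructible.imp (Constructible.const _) ?_
    have h := Constructible.ne (X (Sum.inl (i, l)) : MvPolynomial ((ι × Fin (K + 1)) ⊕ Unit) ℂ)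
    simpa only [eval_X] using h

theorem cons_WF (w : κ → ι → ℕ) (a : κ → ℂ) (d : ℕ) (F : Finset κ) :
    Constructible (WF w a d F) := by
  refine Constructible.and (Constructible.all fun i => ?_) (Constructible.and ?_ ?_)
  · have h := Constructible.ne (X (Sum.inl i) : MvPolynomial (ι ⊕ Unit) ℂ)
    simpa only [eval_X] using h
  · have h := Constructible.ne (X (Sum.inr ()) : MvPolynomial (ι ⊕ Unit) ℂ)
    simpa only [eval_X] using h
  · have h := Constructible.eq (X (Sum.inr ()) ^ d : MvPolynomial (ι ⊕ Unit) ℂ)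
      (∑ v ∈ F, C (a v) * ∏ i, X (Sum.inl i) ^ w v i)
    simpa only [map_pow, eval_X, map_sum, map_mul, eval_C, map_prod] using h

/-- the free coordinates -/
abbrev QI (K : ℕ) (k : ι → ℕ) : Type := {p : ι × Fin (K + 1) // k p.1 < (p.2 : ℕ)}

theorem card_QI (K : ℕ) (k : ι → ℕ) : Fintype.card (QI K k) = ∑ i, (K - k i) := by
  have e : QI K k ≃ Σ i : ι, {l : Fin (K + 1) // k i < (l : ℕ)} :=
    { toFun := fun q => ⟨q.1.1, q.1.2, q.2⟩
      invFun := fun q => ⟨(q.1, q.2.1), q.2.2⟩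
      left_inv := fun _ => rfl
      right_inv := fun _ => rfl }
  rw [Fintype.card_congr e, Fintype.card_sigma]
  refine Finset.sum_congr rfl fun i _ => ?_
  rw [Fintype.card_subtype]
  have h : (Finset.univ.filter fun l : Fin (K + 1) => k i < (l : ℕ)).card =
      (Finset.Ico (k i + 1) (K + 1)).card := by
    refine Finset.card_bij (fun l _ => (l : ℕ)) ?_ ?_ ?_
    · intro l hl
      simp only [Finset.mem_filter, Finset.mem_univ, true_and] at hl
      simp only [Finset.mem_Ico]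
      omega
    · intro l _ l' _ h
      exact Fin.ext h
    · intro m hm
      simp only [Finset.mem_Ico] at hm
      exact ⟨⟨m, hm.2⟩, by simp only [Finset.mem_filter, Finset.mem_univ, true_and]; omega, rfl⟩
  rw [h, Nat.card_Ico]
  omega

/-- the coordinates of the torus -/
abbrev BI (K : ℕ) (k : ι → ℕ) : Type := {i : ι // K < k i}

/-- the first coefficients -/
noncomputable def lead (K : ℕ) (k : ι → ℕ) (z : (((ι × Fin (K + 1)) ⊕ Unit) ⊕ BI K k) → ℂ)
    (i : ι) : ℂ :=
  if h : k i ≤ K then z (Sum.inl (Sum.inl (i, ⟨k i, Nat.lt_succ_of_le h⟩)))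
  else z (Sum.inr ⟨i, not_le.1 h⟩)

/-- the map `(z, t) ↦ ((first coefficients, y), free coordinates)` -/
noncomputable def phi (K : ℕ) (k : ι → ℕ) :
    (ι ⊕ Unit) ⊕ QI K k → MvPolynomial (((ι × Fin (K + 1)) ⊕ Unit) ⊕ BI K k) ℂ :=
  Sum.elim (Sum.elim (fun i => if h : k i ≤ K then X (Sum.inl (Sum.inl (i, ⟨k i, Nat.lt_succ_of_le h⟩)))
    else X (Sum.inr ⟨i, not_le.1 h⟩)) fun _ => X (Sum.inl (Sum.inr ())))
    fun q => X (Sum.inl (Sum.inl q.1))

/-- the inverse map -/
noncomputable def psi (K : ℕ) (k : ι → ℕ) (y : (ι ⊕ Unit) ⊕ QI K k → ℂ) :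
    (((ι × Fin (K + 1)) ⊕ Unit) ⊕ BI K k) → ℂ :=
  Sum.elim (Sum.elim (fun p => if h : k p.1 < (p.2 : ℕ) then y (Sum.inr ⟨p, h⟩)
    else if (p.2 : ℕ) = k p.1 then y (Sum.inl (Sum.inl p.1)) else 0)
    fun _ => y (Sum.inl (Sum.inr ()))) fun i => y (Sum.inl (Sum.inl i.1))

omit [Fintype ι] [DecidableEq ι] in
theorem eval_phi (K : ℕ) (k : ι → ℕ) (z : (((ι × Fin (K + 1)) ⊕ Unit) ⊕ BI K k) → ℂ) :
    (fun j => eval z (phi K k j)) = Sum.elim (Sum.elim (lead K k z) fun _ =>
      z (Sum.inl (Sum.inr ()))) fun q => z (Sum.inl (Sum.inl q.1)) := by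
  funext j
  rcases j with (i | ⟨⟩) | q
  · simp only [phi, lead, Sum.elim_inl]
    split_ifs with h
    · rw [eval_X]
    · rw [eval_X]
  · simp only [phi, Sum.elim_inl, Sum.elim_inr, eval_X]
  · simp only [phi, Sum.elim_inr, eval_X]

omit [Fintype ι] [DecidableEq ι] in
theorem lead_psi (K : ℕ) (k : ι → ℕ) (y : (ι ⊕ Unit) ⊕ QI K k → ℂ) (i : ι) :
    lead K k (psi K k y) i = y (Sum.inl (Sum.inl i)) := by
  unfold lead psi
  split_ifs with h
  · simp
  · simp

/-- the conditions on the orders -/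
def Ords (K : ℕ) (k : ι → ℕ) (z : (ι × Fin (K + 1)) ⊕ Unit → ℂ) : Prop :=
  ∀ (i : ι) (l : Fin (K + 1)),
    ((l : ℕ) < k i → z (Sum.inl (i, l)) = 0) ∧ ((l : ℕ) = k i → z (Sum.inl (i, l)) ≠ 0)

omit [Fintype ι] [DecidableEq ι] in
theorem psi_phi (K : ℕ) (k : ι → ℕ) (z : (((ι × Fin (K + 1)) ⊕ Unit) ⊕ BI K k) → ℂ)
    (hz : Ords K k fun s => z (Sum.inl s)) : psi K k (fun j => eval z (phi K k j)) = z := by
  rw [eval_phi]
  funext j
  rcases j with (p | ⟨⟩) | i
  · simp only [psi, Sum.elim_inl, Sum.elim_inr]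
    split_ifs with h1 h2
    · rfl
    · unfold lead
      rw [dif_pos (by rw [← h2]; omega)]
      congr 3
      exact Prod.ext rfl (Fin.ext h2.symm)
    · have h3 : (p.2 : ℕ) < k p.1 := by omega
      exact ((hz p.1 p.2).1 h3).symm
  · simp only [psi, Sum.elim_inl, Sum.elim_inr]
  · simp only [psi, Sum.elim_inl, Sum.elim_inr, lead]
    rw [dif_neg (not_le.2 i.2)]

omit [Fintype ι] [DecidableEq ι] in
theorem phi_psi (K : ℕ) (k : ι → ℕ) (y : (ι ⊕ Unit) ⊕ QI K k → ℂ) :
    (fun j => eval (psi K k y) (phi K k j)) = y := by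
  rw [eval_phi]
  funext j
  rcases j with (i | ⟨⟩) | q
  · simp only [Sum.elim_inl]
    exact lead_psi K k y i
  · simp only [psi, Sum.elim_inl, Sum.elim_inr]
  · simp only [psi, Sum.elim_inl, Sum.elim_inr]
    rw [dif_pos q.2]

omit [Fintype ι] [DecidableEq ι] in
theorem ords_psi (K : ℕ) (k : ι → ℕ) (y : (ι ⊕ Unit) ⊕ QI K k → ℂ)
    (hy : ∀ i, y (Sum.inl (Sum.inl i)) ≠ 0) : Ords K k fun s => psi K k y (Sum.inl s) := by
  intro i l
  simp only [psi, Sum.elim_inl]
  constructor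
  · intro h
    rw [dif_neg (by omega), if_neg (by omega)]
  · intro h
    rw [dif_neg (by omega), if_pos h]
    exact hy i

end

end CLS0Aux

open CLS0Aux in
/-- arcs on which the leading form does not vanish -/
theorem stmt_CLS0 (hXPD : Stmt_XPD) : Stmt_CLS0 := by
  intro ι κ _ _ _ _ _ w a R _ μ d K k hd hK
  -- the product of `Jt` with a torus
  have hB : (Finset.univ.filter fun i => K < k i).card = Fintype.card (BI K k) := by
    rw [Fintype.card_subtype]
  rw [hB, ← val_Tor μ, ← μ.prod _ _ (cons_Jt w a d K k) (cons_Tor _), ← card_QI,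
    ← μ.val_prod_univ (cons_WF w a d _)]
  -- the coefficients
  have key : ∀ z : (ι × Fin (K + 1)) ⊕ Unit → ℂ, Ords K k z → ∀ x : ι → ℂ,
      (∀ (i : ι) (l : Fin (K + 1)), (l : ℕ) = k i → x i = z (Sum.inl (i, l))) →
      (z ∈ jetSet (poly w a) d K ↔ ∑ v ∈ fc w k, a v * ∏ i, x i ^ w v i ≠ 0 ∧
        z (Sum.inr ()) ^ d = ∑ v ∈ fc w k, a v * ∏ i, x i ^ w v i) := by
    intro z hz x hx
    obtain ⟨h1, h2, _⟩ := hXPD ι κ w a K k (fun s => z (Sum.inl s)) fun i l hl => (hz i l).1 hl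
    have h3 := h2 hK.le x hx
    rw [hK] at h3
    simp only [jetSet, Set.mem_ofPred_eq, h3]
    constructor
    · rintro ⟨_, h4, h5⟩
      exact ⟨h4, h5⟩
    · rintro ⟨h4, h5⟩
      exact ⟨fun l hl => h1 l (by omega) (by omega), h4, h5⟩
  have hlead : ∀ z : (((ι × Fin (K + 1)) ⊕ Unit) ⊕ BI K k) → ℂ,
      ∀ (i : ι) (l : Fin (K + 1)), (l : ℕ) = k i → lead K k z i = z (Sum.inl (Sum.inl (i, l))) := by
    intro z i l hl
    unfold lead
    rw [dif_pos (by omega)]
    congr 3
    exact Prod.ext rfl (Fin.ext hl.symm)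
  refine μ.val_of_inv (Constructible.prodSet (cons_Jt w a d K k) (cons_Tor _))
    (Constructible.comap Sum.inl (cons_WF w a d _)) (phi K k) (psi K k) ?_ ?_ ?_ ?_
  · rintro z ⟨⟨hz1, hz2⟩, hz3⟩
    rw [eval_phi]
    simp only [Set.mem_ofPred_eq, Sum.elim_inl]
    obtain ⟨h4, h5⟩ := (key (fun s => z (Sum.inl s)) hz2 (lead K k z) (hlead z)).1 hz1
    refine ⟨fun i => ?_, ?_, h5⟩
    · simp only [Sum.elim_inl]
      unfold lead
      split_ifs with h
      · exact (hz2 i ⟨k i, Nat.lt_succ_of_le h⟩).2 rfl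
      · exact hz3 _
    · intro h6
      simp only [Sum.elim_inr] at h6
      rw [h6, zero_pow (by omega)] at h5
      exact h4 h5.symm
  · rintro y ⟨hy1, hy2, hy3⟩
    have ho := ords_psi K k y hy1
    refine ⟨⟨?_, ho⟩, fun i => hy1 i.1⟩
    refine (key (fun s => psi K k y (Sum.inl s)) ho (fun i => y (Sum.inl (Sum.inl i))) ?_).2 ⟨?_, ?_⟩
    · intro i l hl
      exact (lead_psi K k y i).symm.trans (hlead (psi K k y) i l hl)
    · rw [← hy3]
      exact pow_ne_zero _ hy2
    · exact hy3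
  · rintro z ⟨⟨_, hz2⟩, _⟩
    exact psi_phi K k z hz2
  · intro y _
    exact phi_psi K k y

end Pool.Agent.Mono.NP
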