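import Pool.Agent.Work.Monodromy.Interface12C
import Pool.Agent.Work.Monodromy.YM
import Pool.Agent.Work.Monodromy.GJet

/-!
# Block CLS1: arcs on which the leading form vanishes (helper69)
-/

set_option autoImplicit false

namespace Pool.Agent.Mono.NP

open MvPolynomial

namespace CLS1Aux

section measure

variable {R : Type} [CommRing R] (μ : MotivicMeasure R)

theorem con_ne0 : Constructible {u : Unit → ℂ | u () ≠ 0} := by
  have h := Constructible.ne (X () : MvPolynomial Unit ℂ)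
  simpa only [eval_X] using h

theorem val_ne0 : μ.val {u : Unit → ℂ | u () ≠ 0} = μ.L - 1 := by
  have h0 : {u : Unit → ℂ | u () ≠ 0} = {u : Unit → ℂ | u = fun _ => (0 : ℂ)}ᶜ := by
    ext u
    simp only [Set.mem_ofPred_eq, Set.mem_compl_iff]
    refine not_congr ⟨fun h => funext fun x => ?_, fun h => by rw [h]⟩
    rw [← h]
  rw [h0, μ.val_compl (Constructible.point _), μ.val_point]
  rfl

theorem con_torus (B : Type) [Finite B] : Constructible {t : B → ℂ | ∀ b, t b ≠ 0} := by
  refine Constructible.all fun b => ?_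
  have h := Constructible.ne (X b : MvPolynomial B ℂ)
  simpa only [eval_X] using h

theorem val_torus_fin (n : ℕ) : μ.val {t : Fin n → ℂ | ∀ b, t b ≠ 0} = (μ.L - 1) ^ n := by
  induction n with
  | zero =>
    rw [pow_zero]
    have h0 : {t : Fin 0 → ℂ | ∀ b, t b ≠ 0} = Set.univ := by
      ext t
      simp only [Set.mem_ofPred_eq, Set.mem_univ, iff_true]
      exact fun b => Fin.elim0 b
    rw [h0, μ.val_univ_fin, pow_zero]
  | succ n ih =>
    rw [pow_succ, ← ih, ← val_ne0 μ, ← μ.prod _ _ (con_torus (Fin n)) con_ne0]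
    have e : Fin n ⊕ Unit ≃ Fin (n + 1) := (Equiv.sumCongr (Equiv.refl _) finOneEquiv.symm).trans
      finSumFinEquiv
    have h1 := μ.reindex e (s := {x : Fin n ⊕ Unit → ℂ |
      (fun i => x (Sum.inl i)) ∈ {t : Fin n → ℂ | ∀ b, t b ≠ 0} ∧
      (fun j => x (Sum.inr j)) ∈ {u : Unit → ℂ | u () ≠ 0}})
      (Constructible.prodSet (con_torus (Fin n)) con_ne0)
    rw [← h1]
    congr 1
    ext x
    simp only [Set.mem_ofPred_eq]
    constructor
    · intro h
      exact ⟨fun b => h _, h _⟩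
    · rintro ⟨h1, h2⟩ b
      obtain ⟨c, rfl⟩ := e.surjective b
      rcases c with c | c
      · exact h1 c
      · exact h2

theorem val_torus (B : Type) [Fintype B] :
    μ.val {t : B → ℂ | ∀ b, t b ≠ 0} = (μ.L - 1) ^ Fintype.card B := by
  rw [← val_torus_fin μ (Fintype.card B)]
  have h1 := μ.reindex (Fintype.equivFin B) (s := {t : B → ℂ | ∀ b, t b ≠ 0}) (con_torus B)
  rw [← h1]
  congr 1
  ext x
  simp only [Set.mem_ofPred_eq]
  constructor
  · intro h b
    obtain ⟨c, rfl⟩ := (Fintype.equivFin B).surjective b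
    exact h c
  · intro h b
    exact h _

end measure

section con

variable {ι κ : Type} [Fintype ι] [DecidableEq ι] [Fintype κ] [DecidableEq κ]

theorem con_jetSet (f : MvPolynomial ι ℂ) (e k : ℕ) : Constructible (jetSet f e k) := by
  have hcyl := GJetAux.contactS_cyl e f Set.univ Constructible.univ k
  have hmem : ∀ z : (ι × Fin (k + 1)) ⊕ Unit → ℂ, z ∈ jetSet f e k ↔
      (fun j => z ((GJetAux.ren ι k).symm j)) ∈
        sec (fun _ : ι => k + 1) (contactS e f Set.univ k) := by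
    intro z
    simp only [jetSet, sec, contactS, Set.mem_ofPred_eq, GJetAux.coeff_jet, Set.mem_univ, true_and]
    exact Iff.rfl
  have : jetSet f e k = {z : (ι × Fin (k + 1)) ⊕ Unit → ℂ |
      (fun j => z ((GJetAux.ren ι k).symm j)) ∈
        sec (fun _ : ι => k + 1) (contactS e f Set.univ k)} := by
    ext z
    exact hmem z
  rw [this]
  exact Constructible.comap _ hcyl.2

theorem con_Jt (w : κ → ι → ℕ) (a : κ → ℂ) (d K : ℕ) (k : ι → ℕ) :
    Constructible (Jt w a d K k) := by
  refine Constructible.and (con_jetSet _ d K) ?_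
  refine Constructible.all fun i => Constructible.all fun l => Constructible.and ?_ ?_
  · refine Constructible.imp (Constructible.const _) ?_
    have h := Constructible.zero (X (Sum.inl (i, l)) : MvPolynomial ((ι × Fin (K + 1)) ⊕ Unit) ℂ)
    simpa only [eval_X] using h
  · refine Constructible.imp (Constructible.const _) ?_
    have h := Constructible.ne (X (Sum.inl (i, l)) : MvPolynomial ((ι × Fin (K + 1)) ⊕ Unit) ℂ)
    simpa only [eval_X] using h

theorem con_VF (w : κ → ι → ℕ) (a : κ → ℂ) (F : Finset κ) : Constructible (VF w a F) := by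
  refine Constructible.and (con_torus ι) ?_
  have h := Constructible.zero (∑ v ∈ F, C (a v) * ∏ i, X i ^ w v i : MvPolynomial ι ℂ)
  simpa only [map_sum, map_mul, map_prod, map_pow, eval_C, eval_X] using h

/-- the logarithmic derivative -/
noncomputable def lc (w : κ → ι → ℕ) (a : κ → ℂ) (F : Finset κ) (i : ι) (x : ι → ℂ) : ℂ :=
  ∑ v ∈ F, (w v i : ℂ) * (a v * ∏ i', x i' ^ w v i')

theorem con_lc (w : κ → ι → ℕ) (a : κ → ℂ) (F : Finset κ) (i : ι) :
    Constructible {x : ι → ℂ | lc w a F i x = 0} := by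
  have h := Constructible.zero (∑ v ∈ F, C (w v i : ℂ) * (C (a v) * ∏ i', X i' ^ w v i') :
    MvPolynomial ι ℂ)
  simp only [map_sum, map_mul, map_prod, map_pow, eval_C, eval_X] at h
  exact h

end con

theorem card_slots {ι : Type} [Fintype ι] [DecidableEq ι] (K : ℕ) (m : ι → ℕ) :
    Fintype.card {q : ι × Fin (K + 1) // m q.1 < (q.2 : ℕ)} = ∑ i, (K - m i) := by
  rw [Fintype.card_subtype, Finset.card_filter, Fintype.sum_prod_type]
  refine Finset.sum_congr rfl fun i _ => ?_
  rw [← Finset.card_filter]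
  have h1 : (Finset.univ.filter fun l : Fin (K + 1) => m i < (l : ℕ)) =
      (Finset.univ.filter fun l : Fin (K + 1) => ¬ ((l : ℕ) < m i + 1)) := by
    ext l
    simp only [Finset.mem_filter, Finset.mem_univ, true_and]
    omega
  change (Finset.univ.filter fun l : Fin (K + 1) => m i < (l : ℕ)).card = _
  rw [h1]
  have h2 := Finset.card_filter_add_card_filter_not (s := (Finset.univ : Finset (Fin (K + 1))))
    (fun l : Fin (K + 1) => (l : ℕ) < m i + 1)
  rw [Fin.card_filter_val_lt, Finset.card_univ, Fintype.card_fin] at h2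
  omega

section build

variable {ι κ : Type} [Fintype ι] [DecidableEq ι] [Fintype κ] [DecidableEq κ]

/-- the leading coordinate -/
def lead (K : ℕ) (k : ι → ℕ) (i : ι) :
    ((ι × Fin (K + 1)) ⊕ Unit) ⊕ {i : ι // K < k i} :=
  if h : K < k i then Sum.inr ⟨i, h⟩ else Sum.inl (Sum.inl (i, ⟨k i, by omega⟩))

/-- the last fixed index -/
def mm (k : ι → ℕ) (i₀ : ι) (n : ℕ) (i : ι) : ℕ := if i = i₀ then k i + n else k i

/-- the type of the free coordinates -/
abbrev Qt (K : ℕ) (k : ι → ℕ) (i₀ : ι) (n : ℕ) : Type :=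
  {q : ι × Fin (K + 1) // mm k i₀ n q.1 < (q.2 : ℕ)}

/-- the coordinates of the target -/
def prj (K : ℕ) (k : ι → ℕ) (i₀ : ι) (n : ℕ) :
    (ι ⊕ Unit) ⊕ Qt K k i₀ n → ((ι × Fin (K + 1)) ⊕ Unit) ⊕ {i : ι // K < k i} :=
  Sum.elim (Sum.elim (lead K k) fun _ => Sum.inl (Sum.inr ())) fun q => Sum.inl (Sum.inl q.1)

/-- the jet with given coordinates -/
noncomputable def bz (K : ℕ) (k : ι → ℕ) (i₀ : ι) (n : ℕ) (y : (ι ⊕ Unit) ⊕ Qt K k i₀ n → ℂ)
    (s : Fin n → ℂ) (q : ι × Fin (K + 1)) : ℂ :=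
  if (q.2 : ℕ) < k q.1 then 0
  else if (q.2 : ℕ) = k q.1 then y (Sum.inl (Sum.inl q.1))
  else if h : mm k i₀ n q.1 < (q.2 : ℕ) then y (Sum.inr ⟨q, h⟩)
  else if h : (q.2 : ℕ) - k q.1 - 1 < n then s ⟨(q.2 : ℕ) - k q.1 - 1, h⟩ else 0

/-- the point with given coordinates -/
noncomputable def bx (K : ℕ) (k : ι → ℕ) (i₀ : ι) (n : ℕ) (y : (ι ⊕ Unit) ⊕ Qt K k i₀ n → ℂ)
    (s : Fin n → ℂ) : ((ι × Fin (K + 1)) ⊕ Unit) ⊕ {i : ι // K < k i} → ℂ :=
  Sum.elim (Sum.elim (bz K k i₀ n y s) fun _ => y (Sum.inl (Sum.inr ())))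
    fun b => y (Sum.inl (Sum.inl b.1))

theorem bx_prj (K : ℕ) (k : ι → ℕ) (i₀ : ι) (n : ℕ) (y : (ι ⊕ Unit) ⊕ Qt K k i₀ n → ℂ)
    (s : Fin n → ℂ) (p : (ι ⊕ Unit) ⊕ Qt K k i₀ n) :
    bx K k i₀ n y s (prj K k i₀ n p) = y p := by
  rcases p with (i | u) | q
  · simp only [prj, Sum.elim_inl, lead]
    split_ifs with h
    · rfl
    · simp [bx, bz]
  · rfl
  · have h1 := q.2
    have h2 : k q.1.1 < (q.1.2 : ℕ) := by
      refine lt_of_le_of_lt ?_ h1
      rw [mm]
      split_ifs <;> omega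
    simp only [prj, Sum.elim_inr, bx, Sum.elim_inl, bz]
    rw [if_neg (by omega), if_neg (by omega), dif_pos h1]

/-- agreement of jets -/
theorem bz_agree (K : ℕ) (k : ι → ℕ) (i₀ : ι) (n : ℕ) (y : (ι ⊕ Unit) ⊕ Qt K k i₀ n → ℂ)
    (j : Fin n) (s s' : Fin n → ℂ) (hs : ∀ i, i < j → s i = s' i) (i : ι) (l : Fin (K + 1))
    (h : i ≠ i₀ ∨ (l : ℕ) < k i₀ + ((j : ℕ) + 1)) :
    bz K k i₀ n y s (i, l) = bz K k i₀ n y s' (i, l) := by
  simp only [bz]
  split_ifs with h1 h2 h3 h4
  · rfl
  · rfl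
  · rfl
  · rw [mm] at h3
    split_ifs at h3 with h5
    · subst h5
      rcases h with h | h
      · exact absurd rfl h
      · exact hs _ (by rw [Fin.lt_def]; simp only; omega)
    · omega
  · rfl

/-- the last coordinate -/
theorem bz_last (K : ℕ) (k : ι → ℕ) (i₀ : ι) (n : ℕ) (y : (ι ⊕ Unit) ⊕ Qt K k i₀ n → ℂ)
    (j : Fin n) (s : Fin n → ℂ) (l : Fin (K + 1)) (hl : (l : ℕ) = k i₀ + ((j : ℕ) + 1)) :
    bz K k i₀ n y s (i₀, l) = s j := by
  have hj := j.2
  simp only [bz, mm]
  rw [if_neg (by omega), if_neg (by omega), dif_neg (by simp only [if_true]; omega),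
    dif_pos (by omega)]
  congr 1
  apply Fin.ext
  simp only
  omega

end build

end CLS1Aux

open CLS1Aux

/-- CLS1 -/
theorem stmt_CLS1 (hXPD : Stmt_XPD) (hTRIS : Stmt_TRIS) : Stmt_CLS1 := by
  classical
  intro ι κ _ _ _ _ _ w a R _ μ d K k hNd hd hmK
  set F := fc w k with hF
  set B := {i : ι // K < k i} with hB
  set SS : Set (((ι × Fin (K + 1)) ⊕ Unit) ⊕ B → ℂ) :=
    {x | (fun p => x (Sum.inl p)) ∈ Jt w a d K k ∧ (fun b => x (Sum.inr b)) ∈
      {t : B → ℂ | ∀ b, t b ≠ 0}} with hSS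
  have hSSc : Constructible SS := Constructible.prodSet (con_Jt w a d K k) (con_torus B)
  have hSSv : μ.val SS = μ.val (Jt w a d K k) *
      (μ.L - 1) ^ (Finset.univ.filter fun i => K < k i).card := by
    rw [hSS, μ.prod _ _ (con_Jt w a d K k) (con_torus B), val_torus]
    congr 2
    exact Fintype.card_subtype _
  rw [← hSSv]
  -- the leading vector lies in `VF`
  have hlead : ∀ x ∈ SS, ∀ (i : ι), x (lead K k i) ≠ 0 := by
    intro x hx i
    rw [lead]
    split_ifs with h
    · exact hx.2 ⟨i, h⟩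
    · exact (hx.1.2 i ⟨k i, by omega⟩).2 rfl
  have hleadz : ∀ x : ((ι × Fin (K + 1)) ⊕ Unit) ⊕ B → ℂ, ∀ (i : ι) (l : Fin (K + 1)),
      (l : ℕ) = k i → x (lead K k i) = x (Sum.inl (Sum.inl (i, l))) := by
    intro x i l hl
    have hlK := l.2
    rw [lead, dif_neg (by omega)]
    congr 4
    exact Fin.ext hl.symm
  have hVF : ∀ x ∈ SS, (fun i => x (lead K k i)) ∈ VF w a F := by
    intro x hx
    refine ⟨hlead x hx, ?_⟩
    obtain ⟨_, h2, _⟩ := hXPD ι κ w a K k (fun p => x (Sum.inl (Sum.inl p)))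
      fun i l hl => (hx.1.2 i l).1 hl
    rw [← h2 (le_of_lt hmK) (fun i => x (lead K k i)) (hleadz x)]
    exact hx.1.1.1 (mnk w k) hmK
  -- the strata
  set e := Fintype.equivFin ι with he
  set V : ι → Set (ι → ℂ) := fun i => {x | x ∈ VF w a F ∧ lc w a F i x ≠ 0 ∧
    ∀ i', e i' < e i → lc w a F i' x = 0} with hV
  have hVc : ∀ i, Constructible (V i) := fun i =>
    Constructible.and (con_VF w a F) (Constructible.and (Constructible.not (con_lc w a F i))
      (Constructible.all fun i' => Constructible.imp (Constructible.const _) (con_lc w a F i')))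
  have hVd : ∀ i ∈ (Finset.univ : Finset ι), ∀ j ∈ (Finset.univ : Finset ι), i ≠ j →
      Disjoint (V i) (V j) := by
    intro i _ j _ hij
    rw [Set.disjoint_left]
    rintro x ⟨_, h1, h2⟩ ⟨_, h3, h4⟩
    rcases lt_trichotomy (e i) (e j) with h | h | h
    · exact h1 (h4 i h)
    · exact hij (e.injective h)
    · exact h3 (h2 j h)
  have hFne : F.Nonempty := by
    obtain ⟨v, hv⟩ := exists_eq_ciInf_of_finite (f := kw w k)
    refine ⟨v, ?_⟩
    rw [hF, fc, Finset.mem_filter]
    exact ⟨Finset.mem_univ _, fun b => hv.trans_le (ciInf_le (OrderBot.bddBelow _) b)⟩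
  have hVu : VF w a F = ⋃ i ∈ (Finset.univ : Finset ι), V i := by
    ext x
    simp only [Finset.mem_univ, Set.iUnion_true, Set.mem_iUnion]
    constructor
    · intro hx
      have h1 := hNd F hFne ⟨k, hF⟩ x hx.1 hx.2
      have h2 : ((Finset.univ.filter fun i => lc w a F i x ≠ 0).image e).Nonempty := by
        obtain ⟨i, hi⟩ := h1
        exact ⟨e i, Finset.mem_image_of_mem _ (Finset.mem_filter.2 ⟨Finset.mem_univ _, hi⟩)⟩
      have h3 := Finset.min'_mem _ h2
      obtain ⟨i, hi, hie⟩ := Finset.mem_image.1 h3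
      refine ⟨i, hx, (Finset.mem_filter.1 hi).2, fun i' hi' => ?_⟩
      by_contra hc
      have h5 : i' ∈ Finset.univ.filter fun i => lc w a F i x ≠ 0 :=
        Finset.mem_filter.2 ⟨Finset.mem_univ i', hc⟩
      have h4 := Finset.min'_le _ (e i') (Finset.mem_image_of_mem e h5)
      rw [← hie] at h4
      exact absurd hi' (not_lt.2 h4)
    · rintro ⟨i, hi⟩
      exact hi.1
  set SV : ι → Set (((ι × Fin (K + 1)) ⊕ Unit) ⊕ B → ℂ) := fun i =>
    {x | x ∈ SS ∧ (fun i' => x (lead K k i')) ∈ V i} with hSV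
  have hSVc : ∀ i, Constructible (SV i) := fun i =>
    Constructible.and hSSc (Constructible.comap (lead K k) (hVc i))
  have hSu : SS = ⋃ i ∈ (Finset.univ : Finset ι), SV i := by
    ext x
    simp only [Finset.mem_univ, Set.iUnion_true, Set.mem_iUnion]
    constructor
    · intro hx
      have h1 := hVF x hx
      rw [hVu] at h1
      simp only [Finset.mem_univ, Set.iUnion_true, Set.mem_iUnion] at h1
      obtain ⟨i, hi⟩ := h1
      exact ⟨i, hx, hi⟩
    · rintro ⟨i, hi⟩
      exact hi.1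
  have hSd : ∀ i ∈ (Finset.univ : Finset ι), ∀ j ∈ (Finset.univ : Finset ι), i ≠ j →
      Disjoint (SV i) (SV j) := by
    intro i hi j hj hij
    rw [Set.disjoint_left]
    rintro x ⟨_, h1⟩ ⟨_, h2⟩
    exact (Set.disjoint_left.1 (hVd i hi j hj hij)) h1 h2
  rw [hSu, μ.val_biUnion _ _ (fun i _ => hSVc i) hSd, hVu, μ.val_biUnion _ _ (fun i _ => hVc i) hVd,
    Finset.sum_mul, Finset.sum_mul, Finset.sum_mul]
  refine Finset.sum_congr rfl fun i₀ _ => ?_
  -- one stratum
  by_cases hex : ∃ v ∈ F, w v i₀ ≠ 0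
  swap
  · have h0 : V i₀ = ∅ := by
      rw [Set.eq_empty_iff_forall_notMem]
      rintro x ⟨_, h1, _⟩
      apply h1
      rw [lc]
      apply Finset.sum_eq_zero
      intro v hv
      have : w v i₀ = 0 := by
        by_contra hc
        exact hex ⟨v, hv, hc⟩
      rw [this, Nat.cast_zero, zero_mul]
    have h1 : SV i₀ = ∅ := by
      rw [Set.eq_empty_iff_forall_notMem]
      rintro x ⟨_, h1⟩
      rw [h0] at h1
      exact h1
    rw [h0, h1, μ.val_empty, μ.val_empty]
    ring
  have hk0 : k i₀ ≤ mnk w k := by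
    obtain ⟨v, hv, hvi⟩ := hex
    rw [hF, fc, Finset.mem_filter] at hv
    have h1 : kw w k v ≤ mnk w k := le_ciInf hv.2
    calc k i₀ ≤ k i₀ * w v i₀ := Nat.le_mul_of_pos_right _ (Nat.pos_of_ne_zero hvi)
      _ ≤ kw w k v := Finset.single_le_sum (f := fun i => k i * w v i) (fun _ _ => Nat.zero_le _)
          (Finset.mem_univ i₀)
      _ ≤ mnk w k := h1
  set n := K - mnk w k with hn
  have hn1 : 1 ≤ n := by omega
  have hcard : (∑ i, (K - k i)) = Fintype.card (Qt K k i₀ n) + n := by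
    rw [card_slots, ← Finset.add_sum_erase _ _ (Finset.mem_univ i₀),
      ← Finset.add_sum_erase _ (fun i => K - mm k i₀ n i) (Finset.mem_univ i₀)]
    have h1 : ∑ i ∈ Finset.univ.erase i₀, (K - mm k i₀ n i) =
        ∑ i ∈ Finset.univ.erase i₀, (K - k i) := by
      refine Finset.sum_congr rfl fun i hi => ?_
      rw [mm, if_neg (Finset.ne_of_mem_erase hi)]
    rw [h1, mm, if_pos rfl]
    omega
  -- the target
  set TT : Set ((ι ⊕ Unit) ⊕ Qt K k i₀ n → ℂ) := {y | (fun p => y (Sum.inl p)) ∈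
    {q : ι ⊕ Unit → ℂ | (fun i => q (Sum.inl i)) ∈ V i₀ ∧ (fun u => q (Sum.inr u)) ∈
      {u : Unit → ℂ | u () ≠ 0}}} with hTT
  have hT1c := Constructible.prodSet (hVc i₀) con_ne0
  have hTTc : Constructible TT := Constructible.comap Sum.inl hT1c
  have hTTv : μ.val TT = μ.val (V i₀) * (μ.L - 1) * μ.L ^ Fintype.card (Qt K k i₀ n) := by
    rw [hTT, μ.val_prod_univ hT1c, μ.prod _ _ (hVc i₀) con_ne0, val_ne0]
  -- the bijection
  have hkey : ∀ y ∈ TT, ∃! s : Fin n → ℂ, bx K k i₀ n y s ∈ SV i₀ := by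
    intro y hy
    obtain ⟨hyV, hy0⟩ := hy
    have hy0' : y (Sum.inl (Sum.inr ())) ≠ 0 := hy0
    set x : ι → ℂ := fun i => y (Sum.inl (Sum.inl i)) with hx
    have hxV : x ∈ V i₀ := hyV
    have hx0 : ∀ i, x i ≠ 0 := hxV.1.1
    set G : (Fin n → ℂ) → Fin n → ℂ := fun s j =>
      (aeval (jet (bz K k i₀ n y s)) (poly w a) : Polynomial ℂ).coeff (mnk w k + ((j : ℕ) + 1))
      with hG
    have hz0 : ∀ s, ∀ (i : ι) (l : Fin (K + 1)), (l : ℕ) < k i → bz K k i₀ n y s (i, l) = 0 := by
      intro s i l hl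
      simp only [bz]
      rw [if_pos hl]
    have hz1 : ∀ s, ∀ (i : ι) (l : Fin (K + 1)), (l : ℕ) = k i → bz K k i₀ n y s (i, l) = x i := by
      intro s i l hl
      simp only [bz]
      rw [if_neg (by omega), if_pos hl]
    have hc : lc w a F i₀ x / x i₀ ≠ 0 := div_ne_zero hxV.2.1 (hx0 i₀)
    have hGtri : ∀ (j : Fin n) (s s' : Fin n → ℂ), (∀ i, i < j → s i = s' i) →
        G s j - G s' j = lc w a F i₀ x / x i₀ * (s j - s' j) := by
      intro j s s' hss
      obtain ⟨_, _, h3⟩ := hXPD ι κ w a K k (bz K k i₀ n y s') (hz0 s')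
      obtain ⟨l₀, hl₀, h4⟩ := h3 ((j : ℕ) + 1) i₀ x (bz K k i₀ n y s) (by omega)
        (by have := j.2; omega) (fun i l hl => (hz1 s' i l hl).symm)
        (fun i l hil => bz_agree K k i₀ n y j s s' hss i l hil) hex
      rw [bz_last K k i₀ n y j s l₀ hl₀, bz_last K k i₀ n y j s' l₀ hl₀] at h4
      have h5 : x i₀ * (G s j - G s' j) = (s j - s' j) * lc w a F i₀ x := h4
      rw [div_mul_eq_mul_div, eq_div_iff (hx0 i₀)]
      linear_combination h5
    have hiff : ∀ s, bx K k i₀ n y s ∈ SV i₀ ↔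
        G s = fun j : Fin n => if (j : ℕ) + 1 = n then y (Sum.inl (Sum.inr ())) ^ d else 0 := by
      intro s
      obtain ⟨h1, h2, _⟩ := hXPD ι κ w a K k (bz K k i₀ n y s) (hz0 s)
      have h2' := h2 (le_of_lt hmK) x (fun i l hl => (hz1 s i l hl).symm)
      rw [hxV.1.2] at h2'
      constructor
      · rintro ⟨⟨⟨hj, _⟩, _⟩, _⟩
        funext j
        split_ifs with hjn
        · have h5 := hj.2.2
          have h6 : mnk w k + ((j : ℕ) + 1) = K := by omega
          rw [hG]
          simp only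
          rw [h6]
          exact h5.symm
        · have h5 := hj.1 (mnk w k + ((j : ℕ) + 1)) (by have := j.2; omega)
          exact h5
      · intro hGs
        have hK : (aeval (jet (bz K k i₀ n y s)) (poly w a) : Polynomial ℂ).coeff K =
            y (Sum.inl (Sum.inr ())) ^ d := by
          have h5 := congrFun hGs (⟨n - 1, by omega⟩ : Fin n)
          rw [if_pos (by simp only; omega)] at h5
          rw [← h5, hG]
          simp only
          congr 1
          omega
        refine ⟨⟨⟨⟨fun l hl => ?_, ?_, ?_⟩, fun i l => ⟨fun hl => ?_, fun hl => ?_⟩⟩, ?_⟩, ?_⟩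
        · rcases lt_trichotomy l (mnk w k) with h | h | h
          · exact h1 l h hl.le
          · rw [h]
            exact h2'
          · have h5 := congrFun hGs (⟨l - mnk w k - 1, by omega⟩ : Fin n)
            rw [if_neg (by simp only; omega)] at h5
            rw [← h5, hG]
            simp only
            congr 1
            omega
        · exact hK.trans_ne (pow_ne_zero _ hy0')
        · exact hK.symm
        · exact hz0 s i l hl
        · exact (hz1 s i l hl).trans_ne (hx0 i)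
        · intro b
          exact hx0 b.1
        · have h6 : (fun i' => bx K k i₀ n y s (lead K k i')) = x := by
            funext i'
            exact bx_prj K k i₀ n y s (Sum.inl (Sum.inl i'))
          rw [h6]
          exact hxV
    obtain ⟨s, hs, hu⟩ := hTRIS n G _ hc hGtri
      fun j : Fin n => if (j : ℕ) + 1 = n then y (Sum.inl (Sum.inr ())) ^ d else 0
    exact ⟨s, (hiff s).2 hs, fun s' hs' => hu s' ((hiff s').1 hs')⟩
  have hform : ∀ x ∈ SV i₀, ∃ s : Fin n → ℂ,
      x = bx K k i₀ n (fun p => x (prj K k i₀ n p)) s := by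
    intro x hx
    refine ⟨fun j => x (Sum.inl (Sum.inl (i₀, ⟨k i₀ + 1 + (j : ℕ), by have := j.2; omega⟩))), ?_⟩
    funext p
    rcases p with (⟨i, l⟩ | u) | b
    · simp only [bx, Sum.elim_inl, bz]
      split_ifs with h1 h2 h3 h4
      · exact (hx.1.1.2 i l).1 h1
      · exact (hleadz x i l h2).symm
      · rfl
      · rw [mm] at h3
        split_ifs at h3 with h5
        · subst h5
          congr 4
          apply Fin.ext
          simp only
          omega
        · omega
      · rw [mm] at h3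
        split_ifs at h3 with h5
        · subst h5
          omega
        · omega
    · rfl
    · have h1 : lead K k b.1 = Sum.inr b := by
        rw [lead, dif_pos b.2]
      simp only [bx, Sum.elim_inr, prj, Sum.elim_inl]
      rw [h1]
  have hbij : Set.BijOn (fun x j => eval x (X (prj K k i₀ n j) :
      MvPolynomial (((ι × Fin (K + 1)) ⊕ Unit) ⊕ B) ℂ)) (SV i₀) TT := by
    simp only [eval_X]
    have hmaps : ∀ x ∈ SV i₀, (fun p => x (prj K k i₀ n p)) ∈ TT := by
      intro x hx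
      refine ⟨hx.2, ?_⟩
      change x (Sum.inl (Sum.inr ())) ≠ 0
      intro h0
      have h1 := hx.1.1.1.2.1
      have h2 := hx.1.1.1.2.2
      apply h1
      rw [← h2]
      have h3 : x (Sum.inl (Sum.inr ())) ^ d = 0 := by
        rw [h0, zero_pow (by omega)]
      exact h3
    refine ⟨hmaps, ?_, ?_⟩
    · intro x hx x' hx' hxx'
      simp only at hxx'
      obtain ⟨s, hs⟩ := hform x hx
      obtain ⟨s', hs'⟩ := hform x' hx'
      rw [← hxx'] at hs'
      obtain ⟨s₁, _, hu⟩ := hkey _ (hmaps x hx)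
      have h1 : s = s₁ := hu s (by simp only; rw [← hs]; exact hx)
      have h2 : s' = s₁ := hu s' (by simp only; rw [← hs']; exact hx')
      rw [hs, hs', h1, h2]
    · intro y hy
      obtain ⟨s, hs, _⟩ := hkey y hy
      exact ⟨bx K k i₀ n y s, hs, funext fun p => bx_prj K k i₀ n y s p⟩
  rw [μ.map _ _ _ (hSVc i₀) hTTc hbij, hTTv, hcard, pow_add]
  ring

end Pool.Agent.Mono.NP
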