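import Pool.Agent.Work.Monodromy.Interface12C

/-!
# Phase 12, part I, block CLS2 (helper42)
-/

set_option autoImplicit false

namespace Pool.Agent.Mono.NP

/-- arcs of too large order -/
theorem stmt_CLS2 (hXPD : Stmt_XPD) : Stmt_CLS2 := by
  intro ι κ _ _ _ _ _ w a d K k hK
  rw [Set.eq_empty_iff_forall_notMem]
  rintro z ⟨⟨_, h2, _⟩, h3⟩
  exact h2 ((hXPD ι κ w a K k (fun s => z (Sum.inl s)) fun i l hl => (h3 i l).1 hl).1 K hK le_rfl)

end Pool.Agent.Mono.NP
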