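import Pool.Agent.Work.Monodromy.Interface12C

/-!
# Phase 12, block CNT (helper22)
-/

set_option autoImplicit false

namespace Pool.Agent.Mono.NP

namespace CNTAux

open Finset

variable {τ : Type} [Fintype τ] [DecidableEq τ]

/-- the box `[0, M)^τ` -/
noncomputable def box (τ : Type) [Fintype τ] [DecidableEq τ] (M : ℕ) : Finset (τ → ℤ) :=
  Fintype.piFinset fun _ => Finset.Ico (0 : ℤ) M

theorem mem_box {M : ℕ} {b : τ → ℤ} : b ∈ box τ M ↔ ∀ t, 0 ≤ b t ∧ b t < M := by
  rw [box, Fintype.mem_piFinset]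
  simp only [Finset.mem_Ico]

theorem card_box (M : ℕ) : (box τ M).card = M ^ Fintype.card τ := by
  rw [box, Fintype.card_piFinset]
  simp

open Classical in
theorem card_le (L : AddSubgroup (τ → ℤ)) (M : ℕ) (hM : 1 ≤ M)
    (hL : ∀ z : τ → ℤ, (fun t => (M : ℤ) * z t) ∈ L) (g g' : τ → ℤ) :
    ((box τ M).filter fun b => (fun t => b t - g t) ∈ L).card ≤
      ((box τ M).filter fun b => (fun t => b t - g' t) ∈ L).card := by
  have hM0 : (0 : ℤ) < M := by exact_mod_cast hM
  apply card_le_card_of_injOn (fun b t => (b t + g' t - g t) % M)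
  · intro b hb
    rw [mem_coe, mem_filter] at hb ⊢
    refine ⟨mem_box.mpr fun t => ⟨Int.emod_nonneg _ hM0.ne', Int.emod_lt_of_pos _ hM0⟩, ?_⟩
    have h1 : (fun t => (b t + g' t - g t) % M - g' t) = (fun t => b t - g t) -
        fun t => (M : ℤ) * ((b t + g' t - g t) / M) := by
      funext t
      rw [Pi.sub_apply]
      have := Int.emod_add_mul_ediv (b t + g' t - g t) M
      linarith
    rw [h1]
    exact L.sub_mem hb.2 (hL _)
  · intro b hb b' hb' h
    rw [mem_coe, mem_filter] at hb hb'
    funext t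
    have h1 := congrFun h t
    simp only at h1
    have h2 : (M : ℤ) ∣ (b t + g' t - g t) - (b' t + g' t - g t) :=
      Int.ModEq.dvd h1.symm
    have h3 : (M : ℤ) ∣ b t - b' t := by
      have : (b t + g' t - g t) - (b' t + g' t - g t) = b t - b' t := by ring
      rwa [this] at h2
    have h4 := (mem_box.mp hb.1) t
    have h5 := (mem_box.mp hb'.1) t
    have h6 : b t - b' t = 0 := by
      apply Int.eq_zero_of_abs_lt_dvd h3
      rw [abs_lt]
      omega
    omega

end CNTAux

open CNTAux Finset in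
theorem stmt_CNT : Stmt_CNT := by
  intro τ _ L M g hM hL
  classical
  have hM0 : (0 : ℤ) < M := by exact_mod_cast hM
  set S : Finset (τ → ℤ) := (box τ M).filter fun b => (fun t => b t - g t) ∈ L with hS
  have hset : {b : τ → ℤ | (∀ t, 0 ≤ b t ∧ b t < M) ∧ (fun t => b t - g t) ∈ L} = (S : Set (τ → ℤ)) := by
    ext b
    rw [Set.mem_ofPred_eq, mem_coe, hS, mem_filter, mem_box]
  rw [hset]
  refine ⟨S.finite_toSet, ?_⟩
  rw [Set.ncard_coe_finset]
  -- the quotient
  set π : (τ → ℤ) → (τ → ℤ) ⧸ L := QuotientAddGroup.mk with hπ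
  set F : Finset ((τ → ℤ) ⧸ L) := (box τ M).image π with hF
  have hall : ∀ q, q ∈ F := by
    intro q
    obtain ⟨z, rfl⟩ := QuotientAddGroup.mk_surjective q
    rw [hF, mem_image]
    refine ⟨fun t => z t % M, mem_box.mpr fun t =>
      ⟨Int.emod_nonneg _ hM0.ne', Int.emod_lt_of_pos _ hM0⟩, ?_⟩
    rw [hπ, QuotientAddGroup.eq]
    have h1 : -(fun t => z t % (M : ℤ)) + z = fun t => (M : ℤ) * (z t / M) := by
      funext t
      rw [Pi.add_apply, Pi.neg_apply]
      have := Int.emod_add_mul_ediv (z t) M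
      linarith
    rw [h1]
    exact hL _
  have hidx : L.index = F.card := by
    have h1 : (F : Set ((τ → ℤ) ⧸ L)) = Set.univ := by
      ext q; simp [hall q]
    have h2 : L.index = Nat.card ((τ → ℤ) ⧸ L) := rfl
    rw [h2, ← Set.ncard_univ, ← h1, Set.ncard_coe_finset]
  have hfib : ∀ q ∈ F, ((box τ M).filter fun b => π b = q).card = S.card := by
    intro q _
    obtain ⟨z, rfl⟩ := QuotientAddGroup.mk_surjective q
    have h1 : ((box τ M).filter fun b => π b = (z : (τ → ℤ) ⧸ L)) =
        (box τ M).filter fun b => (fun t => b t - z t) ∈ L := by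
      apply filter_congr
      intro b _
      rw [hπ, QuotientAddGroup.eq]
      rw [← L.neg_mem_iff]
      have : -(-b + z) = fun t => b t - z t := by
        funext t
        rw [Pi.neg_apply, Pi.add_apply, Pi.neg_apply]
        ring
      rw [this]
    rw [h1]
    exact le_antisymm (card_le L M hM hL z g) (card_le L M hM hL g z)
  have hsum : (box τ M).card = ∑ q ∈ F, ((box τ M).filter fun b => π b = q).card :=
    card_eq_sum_card_fiberwise (fun b hb => by exact mem_image_of_mem _ hb)
  rw [card_box, sum_congr rfl hfib, sum_const, smul_eq_mul] at hsum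
  rw [hidx, hsum, mul_comm]

end Pool.Agent.Mono.NP
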