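import Pool.Agent.Work.Monodromy.Interface12A

/-! # Phase 12, block COV: covered rows (helper32) -/

set_option autoImplicit false
set_option linter.unusedSectionVars false

namespace Pool.Agent.Mono.NP

open MvPolynomial

namespace COVAux

variable {ι κ : Type} [Fintype ι] [DecidableEq ι] [Fintype κ] [DecidableEq κ]

theorem algebraMap_rat (x : ℚ) : algebraMap ℚ ℚ x = x := by
  rw [eq_ratCast (algebraMap ℚ ℚ) x, Rat.cast_id]

theorem hat_inl_inl (w : κ → ι → ℕ) (a : κ) (i : ι) :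
    hat w (Sum.inl a) (Sum.inl i) = (w a i : ℚ) := rfl

theorem hat_inl_inr (w : κ → ι → ℕ) (a : κ) : hat w (Sum.inl a) (Sum.inr ()) = 1 := rfl

theorem hat_inr_inl (w : κ → ι → ℕ) (j i : ι) :
    hat w (Sum.inr j) (Sum.inl i) = if i = j then 1 else 0 := by
  simp only [hat, Sum.elim_inr, Sum.elim_inl, Pi.single_apply]

theorem hat_inr_inr (w : κ → ι → ℕ) (j : ι) : hat w (Sum.inr j) (Sum.inr ()) = 0 := rfl

theorem pr_inl (w : κ → ι → ℕ) (x : ι ⊕ Unit → ℚ) (a : κ) :
    pr x (hat w (Sum.inl a)) = ∑ i, x (Sum.inl i) * w a i + x (Sum.inr ()) := by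
  unfold pr
  rw [Fintype.sum_sum_type]
  simp only [hat_inl_inl, Finset.univ_unique, Finset.sum_singleton, PUnit.default_eq_unit]
  congr 1
  exact mul_one _

theorem pr_inr (w : κ → ι → ℕ) (x : ι ⊕ Unit → ℚ) (j : ι) :
    pr x (hat w (Sum.inr j)) = x (Sum.inl j) := by
  unfold pr
  rw [Fintype.sum_sum_type]
  simp only [hat_inr_inl, Finset.univ_unique, Finset.sum_singleton, PUnit.default_eq_unit]
  have : hat w (Sum.inr j) (Sum.inr PUnit.unit) = 0 := rfl
  rw [this]
  simp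

end COVAux

open COVAux in
theorem stmt_COV (hDUAL : Stmt_DUAL) : Stmt_COV := by
  classical
  intro ι κ _ _ _ _ _ w h s₀ e hh b hb Δ hΔ hbΔ
  have hD := ((hDUAL ι κ w h hh Δ hΔ).2.2 ℚ).1 (q0 ι s₀)
  simp only [algebraMap_rat] at hD
  -- coordinates vanish outside of `M`
  have hM0 : ∀ v, v ∉ MM w s₀ Δ → cf w Δ (q0 ι s₀) v = 0 := by
    intro v hv
    by_cases hvΔ : v ∈ Δ
    · by_contra hne
      exact hv (Finset.mem_filter.2 ⟨hvΔ, hne⟩)
    · unfold cf
      rw [if_neg hvΔ]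
  have hB0 : ∀ v, v ∉ BB w s₀ Δ b → cf w Δ (q0 ι s₀) v = 0 := by
    intro v hv
    apply hM0
    intro hvM
    exact hv (Finset.mem_union_left _ hvM)
  have hcB : ∀ a, cc0 w s₀ Δ a ≠ 0 → Sum.inl a ∈ BB w s₀ Δ b := by
    intro a ha
    by_contra hcon
    exact ha (hB0 _ hcon)
  have hcΔ : ∀ a, cc0 w s₀ Δ a ≠ 0 → Sum.inl a ∈ Δ := by
    intro a ha
    by_contra hcon
    apply ha
    unfold cc0 cf
    rw [if_neg hcon]
  have hsB : ∀ a, a ∈ spp b → (Sum.inl a : κ ⊕ ι) ∈ BB w s₀ Δ b := by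
    intro a ha
    apply Finset.mem_union_right
    unfold inl
    rw [Finset.mem_map]
    exact ⟨a, ha, rfl⟩
  -- the last coordinate
  have h5 : ∑ a, cc0 w s₀ Δ a = -s₀ := by
    have h1 := hD (Sum.inr ())
    rw [Fintype.sum_sum_type] at h1
    simp only [hat_inl_inr, hat_inr_inr, mul_zero, Finset.sum_const_zero, add_zero, mul_one] at h1
    exact h1
  have h6 : ∀ i, Sum.inr i ∉ BB w s₀ Δ b → ∑ a, cc0 w s₀ Δ a * w a i = 1 := by
    intro i hi
    have h1 := hD (Sum.inl i)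
    rw [Fintype.sum_sum_type] at h1
    simp only [hat_inl_inl, hat_inr_inl, mul_ite, mul_one, mul_zero, Finset.sum_ite_eq,
      Finset.mem_univ, if_true] at h1
    rw [hB0 _ hi, add_zero] at h1
    exact h1
  have h7 : ∀ a, (∀ z : ℤ, cc0 w s₀ Δ a ≠ z) → Sum.inl a ∈ BB w s₀ Δ b := by
    intro a ha
    apply hcB
    have := ha 0
    simpa using this
  -- private rows
  have hAA : ∀ a ∈ AA w s₀ Δ b, cc0 w s₀ Δ a = 1 ∧ a ∉ spp b := by
    intro a ha
    obtain ⟨haB, i, hwi, hiB, hpriv⟩ := (Finset.mem_filter.1 ha).2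
    have hz : ∀ a', a' ≠ a → ∀ c : κ → ℚ, (c a' ≠ 0 → Sum.inl a' ∈ BB w s₀ Δ b) →
        c a' * (w a' i : ℚ) = 0 := by
      intro a' ha' c hc
      by_cases hc0 : c a' = 0
      · rw [hc0, zero_mul]
      · rw [hpriv a' ha' (hc hc0)]
        simp
    have hsum : ∀ c : κ → ℚ, (∀ a', c a' ≠ 0 → Sum.inl a' ∈ BB w s₀ Δ b) →
        ∑ a', c a' * (w a' i : ℚ) = c a := by
      intro c hc
      rw [Finset.sum_eq_single a]
      · rw [hwi]
        simp
      · intro a' _ ha'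
        exact hz a' ha' c (hc a')
      · intro hn
        exact absurd (Finset.mem_univ a) hn
    refine ⟨?_, ?_⟩
    · rw [← hsum (cc0 w s₀ Δ) hcB]
      exact h6 i hiB
    · intro hs
      have hs' := (Finset.mem_filter.1 hs).2
      obtain ⟨⟨hb1, _⟩, ⟨hb2, _⟩, _⟩ := hb
      have hkey : ∀ c : κ → ℚ, c ∈ Bx w Finset.univ → (∀ a', c a' ≠ 0 → a' ∈ spp b) → c a = 0 := by
        intro c hc hcs
        obtain ⟨z, hz⟩ := hc.2.2 i
        rw [hsum c (fun a' ha' => hsB a' (hcs a' ha'))] at hz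
        obtain ⟨h0, h1⟩ := hc.1 a
        rw [hz] at h0 h1 ⊢
        have hz0 : 0 ≤ z := by exact_mod_cast h0
        have hz1 : z < 1 := by exact_mod_cast h1
        have : z = 0 := by omega
        rw [this]
        simp
      rcases hs' with h1 | h1
      · exact h1 (hkey b.1 hb1 fun a' ha' => Finset.mem_filter.2 ⟨Finset.mem_univ _, Or.inl ha'⟩)
      · exact h1 (hkey b.2 hb2 fun a' ha' => Finset.mem_filter.2 ⟨Finset.mem_univ _, Or.inr ha'⟩)
  have h2 : AA w s₀ Δ b ⊆ HP w s₀ Δ b := by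
    intro a ha
    have h1 := hAA a ha
    refine Finset.mem_filter.2 ⟨Finset.mem_univ _, (Finset.mem_filter.1 ha).2.1, ?_, 1, ?_⟩
    · rw [h1.1]
      norm_num
    · rw [h1.1]
      simp
  have h1 : AA w s₀ Δ b ⊆ QQ w s₀ Δ b := by
    intro a ha
    have h1 := hAA a ha
    refine Finset.mem_filter.2 ⟨Finset.mem_univ _, ?_, h1.2, h1.1⟩
    apply hcΔ
    rw [h1.1]
    norm_num
  have h3 : ∀ i, Sum.inr i ∉ BB w s₀ Δ b → ∃ a, w a i ≠ 0 ∧
      (a ∈ HP w s₀ Δ b ∨ ∀ z : ℤ, cc0 w s₀ Δ a ≠ z) := by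
    intro i hi
    by_contra hcon
    push Not at hcon
    have hle : ∑ a, cc0 w s₀ Δ a * w a i ≤ 0 := by
      apply Finset.sum_nonpos
      intro a _
      by_cases hw : w a i = 0
      · rw [hw]
        simp
      · obtain ⟨hHP, z, hz⟩ := hcon a hw
        have hc : cc0 w s₀ Δ a ≤ 0 := by
          by_contra hpos
          push Not at hpos
          exact hHP (Finset.mem_filter.2 ⟨Finset.mem_univ _, hcB a (ne_of_gt hpos), hpos, z, hz⟩)
        exact mul_nonpos_of_nonpos_of_nonneg hc (Nat.cast_nonneg _)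
    rw [h6 i hi] at hle
    linarith
  -- good cells
  have hposc : ∀ a ∈ HP w s₀ Δ b, 1 ≤ cc0 w s₀ Δ a := by
    intro a ha
    obtain ⟨_, hpos, z, hz⟩ := (Finset.mem_filter.1 ha).2
    rw [hz] at hpos ⊢
    have : 0 < z := by exact_mod_cast hpos
    exact_mod_cast (by omega : 1 ≤ z)
  have hex : ∀ i, Sum.inr i ∉ BB w s₀ Δ b → ∃ a, w a i ≠ 0 ∧
      Sum.inl a ∈ BB w s₀ Δ b \ inl (HP w s₀ Δ b \ AA w s₀ Δ b) := by
    intro i hi
    by_contra hcon
    push Not at hcon
    have hall : ∀ a, w a i ≠ 0 → Sum.inl a ∈ BB w s₀ Δ b →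
        a ∈ HP w s₀ Δ b ∧ a ∉ AA w s₀ Δ b := by
      intro a ha haB
      have h4 := hcon a ha
      rw [Finset.mem_sdiff, not_and, not_not] at h4
      have h5 := h4 haB
      unfold inl at h5
      rw [Finset.mem_map] at h5
      obtain ⟨a', ha', h8⟩ := h5
      have h9 : a' = a := Sum.inl_injective h8
      rw [h9] at ha'
      exact Finset.mem_sdiff.1 ha'
    have hterm : ∀ a, 0 ≤ cc0 w s₀ Δ a * (w a i : ℚ) := by
      intro a
      by_cases hw : w a i = 0
      · rw [hw]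
        simp
      · by_cases haB : Sum.inl a ∈ BB w s₀ Δ b
        · have := hposc a (hall a hw haB).1
          positivity
        · have : cc0 w s₀ Δ a = 0 := hB0 _ haB
          rw [this, zero_mul]
    have hsum := h6 i hi
    obtain ⟨a0, ha0⟩ : ∃ a, cc0 w s₀ Δ a * (w a i : ℚ) ≠ 0 := by
      by_contra hno
      push Not at hno
      rw [Finset.sum_eq_zero fun a _ => hno a] at hsum
      exact zero_ne_one hsum
    have hw0 : w a0 i ≠ 0 := by
      intro h0
      apply ha0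
      rw [h0]
      simp
    have hc0 : cc0 w s₀ Δ a0 ≠ 0 := by
      intro h0
      apply ha0
      rw [h0, zero_mul]
    have haB0 := hcB a0 hc0
    have hH0 := hall a0 hw0 haB0
    have hge : ∀ a, w a i ≠ 0 → Sum.inl a ∈ BB w s₀ Δ b → 1 ≤ cc0 w s₀ Δ a * (w a i : ℚ) := by
      intro a ha haB
      have h8 := hposc a (hall a ha haB).1
      have h9 : (1 : ℚ) ≤ (w a i : ℚ) := by exact_mod_cast Nat.one_le_iff_ne_zero.2 ha
      nlinarith
    -- the sum is the term of `a0` plus the others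
    have hsplit : cc0 w s₀ Δ a0 * (w a0 i : ℚ) +
        ∑ a ∈ Finset.univ.erase a0, cc0 w s₀ Δ a * (w a i : ℚ) = 1 := by
      rw [Finset.add_sum_erase Finset.univ (fun a => cc0 w s₀ Δ a * (w a i : ℚ))
        (Finset.mem_univ a0)]
      exact hsum
    have hrest : ∀ a, a ≠ a0 → Sum.inl a ∈ BB w s₀ Δ b → w a i = 0 := by
      intro a ha haB
      by_contra hw
      have h8 := hge a hw haB
      have h9 : cc0 w s₀ Δ a * (w a i : ℚ) ≤
          ∑ a ∈ Finset.univ.erase a0, cc0 w s₀ Δ a * (w a i : ℚ) :=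
        Finset.single_le_sum (f := fun a => cc0 w s₀ Δ a * (w a i : ℚ)) (fun a _ => hterm a)
          (Finset.mem_erase.2 ⟨ha, Finset.mem_univ a⟩)
      have h10 := hge a0 hw0 haB0
      linarith
    have hle1 : cc0 w s₀ Δ a0 * (w a0 i : ℚ) ≤ 1 := by
      have h9 : 0 ≤ ∑ a ∈ Finset.univ.erase a0, cc0 w s₀ Δ a * (w a i : ℚ) :=
        Finset.sum_nonneg fun a _ => hterm a
      linarith
    have hw1 : w a0 i = 1 := by
      have h8 := hposc a0 hH0.1
      have h9 : (w a0 i : ℚ) ≤ 1 := by nlinarith [Nat.cast_nonneg (α := ℚ) (w a0 i)]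
      have h10 : w a0 i ≤ 1 := by exact_mod_cast h9
      omega
    exact hH0.2 (Finset.mem_filter.2 ⟨Finset.mem_univ _, haB0, i, hw1, hi, hrest⟩)
  have h4b : Good w (BB w s₀ Δ b \ inl (HP w s₀ Δ b \ AA w s₀ Δ b)) := by
    intro x hx hx0
    obtain ⟨hxne, hxpos, hxz⟩ := hx
    apply hxne
    have hxi : ∀ i, 0 ≤ x (Sum.inl i) := by
      intro i
      have := hxpos (Sum.inr i)
      rwa [pr_inr] at this
    funext e'
    rcases e' with i | u
    · by_cases hi : Sum.inr i ∈ BB w s₀ Δ b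
      · have h8 : Sum.inr i ∈ BB w s₀ Δ b \ inl (HP w s₀ Δ b \ AA w s₀ Δ b) := by
          rw [Finset.mem_sdiff]
          refine ⟨hi, ?_⟩
          intro h9
          unfold inl at h9
          rw [Finset.mem_map] at h9
          obtain ⟨a', _, h10⟩ := h9
          exact absurd h10 (by simp)
        have h9 := hxz _ h8
        rw [pr_inr] at h9
        exact h9
      · obtain ⟨a, ha, haσ⟩ := hex i hi
        have h9 := hxz _ haσ
        rw [pr_inl, hx0, add_zero] at h9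
        have h10 := (Finset.sum_eq_zero_iff_of_nonneg (fun j _ =>
          mul_nonneg (hxi j) (Nat.cast_nonneg (α := ℚ) (w a j)))).1 h9 i (Finset.mem_univ i)
        rcases mul_eq_zero.1 h10 with h11 | h11
        · exact h11
        · exact absurd (by exact_mod_cast h11) ha
    · exact hx0
  have h4a : Good w (BB w s₀ Δ b) := by
    intro x hx
    apply h4b x
    exact ⟨hx.1, hx.2.1, fun v hv => hx.2.2 v (Finset.mem_sdiff.1 hv).1⟩
  exact ⟨h1, h2, h3, h4a, h4b, h5, h6, h7⟩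

end Pool.Agent.Mono.NP
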