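import Pool.Agent.Work.Monodromy.Interface12A

/-!
# Phase 12, block DAT (helper49)
-/

set_option autoImplicit false

namespace Pool.Agent.Mono.NP

open MvPolynomial

namespace DATAux

section

variable {ι κ : Type} [Fintype ι] [DecidableEq ι] [Fintype κ] [DecidableEq κ]

/-- the exponent with components `m` and `k` -/
noncomputable def mk (m : κ →₀ ℕ) (k : ι →₀ ℕ) : (κ ⊕ ι) →₀ ℕ :=
  Finsupp.equivFunOnFinite.symm (Sum.elim m k)

theorem mk_inl (m : κ →₀ ℕ) (k : ι →₀ ℕ) (a : κ) : mk m k (Sum.inl a) = m a := rfl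

theorem mk_inr (m : κ →₀ ℕ) (k : ι →₀ ℕ) (i : ι) : mk m k (Sum.inr i) = k i := rfl

theorem mk_add_inl (m : κ →₀ ℕ) (k : ι →₀ ℕ) (a : κ) :
    mk (m + Finsupp.single a 1) k = mk m k + Finsupp.single (Sum.inl a) 1 := by
  ext (b | i)
  · rw [mk_inl, Finsupp.add_apply, Finsupp.add_apply, mk_inl, Finsupp.single_apply,
      Finsupp.single_apply]
    simp
  · rw [mk_inr, Finsupp.add_apply, mk_inr, Finsupp.single_apply]
    simp

theorem mk_add_inr (m : κ →₀ ℕ) (k : ι →₀ ℕ) (i : ι) :
    mk m (k + Finsupp.single i 1) = mk m k + Finsupp.single (Sum.inr i) 1 := by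
  ext (b | j)
  · rw [mk_inl, Finsupp.add_apply, mk_inl, Finsupp.single_apply]
    simp
  · rw [mk_inr, Finsupp.add_apply, Finsupp.add_apply, mk_inr, Finsupp.single_apply,
      Finsupp.single_apply]
    simp

theorem mk_degree (m : κ →₀ ℕ) (k : ι →₀ ℕ) : (mk m k).degree = m.degree + k.degree := by
  rw [Finsupp.degree_eq_sum, Finsupp.degree_eq_sum, Finsupp.degree_eq_sum,
    Fintype.sum_sum_type]
  rfl

theorem exists_mk (m : (κ ⊕ ι) →₀ ℕ) : ∃ (m₁ : κ →₀ ℕ) (k : ι →₀ ℕ), m = mk m₁ k := by
  refine ⟨Finsupp.equivFunOnFinite.symm fun a => m (Sum.inl a),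
    Finsupp.equivFunOnFinite.symm fun i => m (Sum.inr i), ?_⟩
  ext (a | i) <;> rfl

theorem degree_add_single {α : Type} (m : α →₀ ℕ) (a : α) :
    (m + Finsupp.single a 1).degree = m.degree + 1 := by
  rw [map_add]
  simp

end

end DATAux

open DATAux in
theorem stmt_DAT (hLF : Stmt_LF) : Stmt_DAT := by
  intro ι κ _ _ _ _ _ w h p s₀ c σ m0 hh hp hgen hσ hs hc hint hnc hcov0 hdeg0 hne0
  classical
  have hF := hLF ι κ w h p hh hp hgen σ hσ
  let InX : ℕ → Prop := fun d => ∃ (k : ι →₀ ℕ) (m : κ →₀ ℕ), m.degree = d ∧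
    k.degree + d + σ.card < Fintype.card ι + 1 ∧
    (∀ i, Sum.inr i ∉ σ → k i = 0 → Cov w c m i) ∧ Lf w h p σ (monomial (mk m k) 1) ≠ 0
  have hex : ∃ d, InX d := by
    obtain ⟨m₁, k, rfl⟩ := exists_mk m0
    refine ⟨m₁.degree, k, m₁, rfl, ?_, ?_, hne0⟩
    · rw [mk_degree] at hdeg0
      omega
    · intro i hi hk
      exact hcov0 i hi hk
  obtain ⟨k, m, hmd, hkd, hcov, hne⟩ := Nat.find_spec hex
  have hmin : ∀ d' < Nat.find hex, ¬ InX d' := fun d' hd' => Nat.find_min hex hd'
  set d := Nat.find hex with hd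
  -- additivity
  let L : MvPolynomial (κ ⊕ ι) ℚ →+ ℚ :=
    AddMonoidHom.mk' (Lf w h p σ) fun g g' => (hF g g').1
  have hL : ∀ g, L g = Lf w h p σ g := fun _ => rfl
  have hmono : ∀ (v : κ ⊕ ι) (r : ℚ) (μ : (κ ⊕ ι) →₀ ℕ),
      Lf w h p σ (C r * X v * monomial μ 1) = r * Lf w h p σ (monomial (μ + Finsupp.single v 1) 1) := by
    intro v r μ
    rw [mul_assoc, (hF (X v * monomial μ 1) 0).2.1]
    congr 2
    rw [X, monomial_mul, one_mul, add_comm]
  have hrel : ∀ (e : ι ⊕ Unit) (μ : (κ ⊕ ι) →₀ ℕ),
      Lf w h p σ (relv w e * monomial μ 1) =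
        ∑ a, hat w (Sum.inl a) e * Lf w h p σ (monomial (μ + Finsupp.single (Sum.inl a) 1) 1) +
        ∑ i, hat w (Sum.inr i) e * Lf w h p σ (monomial (μ + Finsupp.single (Sum.inr i) 1) 1) := by
    intro e μ
    rw [relv, Finset.sum_mul, ← hL, map_sum, Fintype.sum_sum_type]
    simp only [hL, hmono]
  let lam : (κ →₀ ℕ) → ℚ := fun m' =>
    if m'.degree = d then Lf w h p σ (monomial (mk m' k) 1) else 0
  have hlam : ∀ m', lam m' ≠ 0 → m'.degree = d ∧ Lf w h p σ (monomial (mk m' k) 1) ≠ 0 := by
    intro m' h1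
    by_cases h2 : m'.degree = d
    · refine ⟨h2, ?_⟩
      simpa [lam, h2] using h1
    · exact absurd (by simp [lam, h2]) h1
  let J : Finset ι := Finset.univ.filter fun i => Sum.inr i ∈ σ ∨ k i ≠ 0
  have hJ : ∀ i, i ∈ J ↔ (Sum.inr i ∈ σ ∨ k i ≠ 0) := by
    intro i
    simp [J]
  have hJ' : ∀ i, i ∉ J → Sum.inr i ∉ σ ∧ k i = 0 := by
    intro i hi
    rw [hJ] at hi
    push Not at hi
    exact hi
  -- a nonintegral coordinate
  obtain ⟨a0, ha0⟩ : ∃ a, ∀ z : ℤ, c a ≠ z := by
    by_contra hcon
    push Not at hcon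
    choose z hz using hcon
    apply hs (-∑ a, z a)
    push_cast
    rw [← Finset.sum_congr rfl fun a _ => hz a, hc, neg_neg]
  refine ⟨c, J, d, lam, hc, ?_, fun m' h1 => (hlam m' h1).1, ?_, ?_, ?_, ?_, ?_⟩
  · intro i hi
    exact hint i (hJ' i hi).1
  · intro m' h1
    obtain ⟨h2, h3⟩ := hlam m' h1
    obtain ⟨⟨Δ, hΔ, hsub⟩, -⟩ := (hF 0 0).2.2.2.2.2 (mk m' k) (by
      rw [mk_degree, h2]
      omega) h3
    unfold maxCells at hΔ
    rw [Finset.mem_filter] at hΔ
    obtain ⟨-, -, k', hk', rfl⟩ := hΔ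
    refine ⟨k', hk', fun a ha => hsub ?_⟩
    rcases ha with ha | ha
    · apply Finset.mem_union_right
      rw [Finsupp.mem_support_iff, mk_inl]
      exact ha
    · exact Finset.mem_union_left _ (hnc a ha)
  · intro m' h1
    obtain ⟨h2, h3⟩ := hlam m' h1
    obtain ⟨-, x, hx0, hxp, hxz⟩ := (hF 0 0).2.2.2.2.2 (mk m' k) (by
      rw [mk_degree, h2]
      omega) h3
    have hinl : ∀ a, pr x (hat w (Sum.inl a)) =
        ∑ i, x (Sum.inl i) * w a i + x (Sum.inr ()) := by
      intro a
      unfold pr hat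
      rw [Fintype.sum_sum_type]
      simp
    have hinr : ∀ j, pr x (hat w (Sum.inr j)) = x (Sum.inl j) := by
      intro j
      unfold pr hat
      rw [Fintype.sum_sum_type]
      simp [Pi.single_apply]
    have hx1 : ∀ i, 0 ≤ x (Sum.inl i) := by
      intro i
      have := hxp (Sum.inr i)
      rwa [hinr] at this
    have hx2 : ∀ a, (m' a ≠ 0 ∨ ∀ z : ℤ, c a ≠ z) →
        ∑ i, x (Sum.inl i) * w a i = -x (Sum.inr ()) := by
      intro a ha
      have h4 : pr x (hat w (Sum.inl a)) = 0 := by
        apply hxz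
        rcases ha with ha | ha
        · apply Finset.mem_union_right
          rw [Finsupp.mem_support_iff, mk_inl]
          exact ha
        · exact Finset.mem_union_left _ (hnc a ha)
      rw [hinl] at h4
      linarith
    have hx3 : x (Sum.inr ()) ≠ 0 := by
      apply hσ x
      exact ⟨hx0, hxp, fun v hv => hxz v (Finset.mem_union_left _ hv)⟩
    have hx4 : 0 < -x (Sum.inr ()) := by
      have h4 := hx2 a0 (Or.inr ha0)
      have h5 : 0 ≤ ∑ i, x (Sum.inl i) * (w a0 i : ℚ) :=
        Finset.sum_nonneg fun i _ => mul_nonneg (hx1 i) (by positivity)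
      rw [h4] at h5
      exact lt_of_le_of_ne h5 (fun h6 => hx3 (by linarith))
    refine ⟨fun i => x (Sum.inl i), -x (Sum.inr ()), hx4, hx1, ?_, ?_, hx2⟩
    · intro j hj
      change x (Sum.inl j) = 0
      rw [← hinr]
      apply hxz
      rcases (hJ j).1 hj with hj | hj
      · exact Finset.mem_union_left _ hj
      · apply Finset.mem_union_right
        rw [Finsupp.mem_support_iff, mk_inr]
        exact hj
    · intro a
      have := hxp (Sum.inl a)
      rw [hinl] at this
      linarith
  · intro i m' hm'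
    by_cases hdd : m'.degree + 1 = d
    · have h1 := hrel (Sum.inl i) (mk m' k)
      rw [(hF (monomial (mk m' k) 1) 0).2.2.1 i] at h1
      have h2 : ∑ i', hat w (Sum.inr i') (Sum.inl i) *
          Lf w h p σ (monomial (mk m' k + Finsupp.single (Sum.inr i') 1) 1) = 0 := by
        refine Finset.sum_eq_zero fun i' _ => ?_
        by_cases hi : i' = i
        · subst hi
          rw [← mk_add_inr]
          have h3 : Lf w h p σ (monomial (mk m' (k + Finsupp.single i' 1)) 1) = 0 := by
            by_contra hcon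
            apply hmin m'.degree (by omega)
            refine ⟨k + Finsupp.single i' 1, m', rfl, ?_, ?_, hcon⟩
            · rw [degree_add_single]
              omega
            · intro j hj hkj
              rw [Finsupp.add_apply, Finsupp.single_apply] at hkj
              have hji : j ≠ i' := by
                rintro rfl
                rw [if_pos rfl] at hkj
                omega
              apply hm' j _ hji
              rw [hJ]
              push Not
              refine ⟨hj, ?_⟩
              omega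
          rw [h3, mul_zero]
        · have h3 : hat w (Sum.inr i') (Sum.inl i) = 0 := by
            simp only [hat, Sum.elim_inr, Sum.elim_inl]
            rw [Pi.single_apply, if_neg (fun h => hi h.symm)]
          rw [h3, zero_mul]
      rw [h2, add_zero] at h1
      rw [h1]
      refine Finset.sum_congr rfl fun a _ => ?_
      have h3 : lam (m' + Finsupp.single a 1) =
          Lf w h p σ (monomial (mk (m' + Finsupp.single a 1) k) 1) := by
        simp only [lam]
        rw [if_pos]
        rw [degree_add_single]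
        exact hdd
      rw [h3, mk_add_inl]
      rfl
    · refine Finset.sum_eq_zero fun a _ => ?_
      have h3 : lam (m' + Finsupp.single a 1) = 0 := by
        simp only [lam]
        rw [if_neg]
        rw [degree_add_single]
        exact hdd
      rw [h3, mul_zero]
  · intro m' hm'
    by_cases hdd : m'.degree + 1 = d
    · have h1 := hrel (Sum.inr ()) (mk m' k)
      rw [(hF (monomial (mk m' k) 1) 0).2.2.2.1] at h1
      have h2 : ∑ i', hat w (Sum.inr i') (Sum.inr ()) *
          Lf w h p σ (monomial (mk m' k + Finsupp.single (Sum.inr i') 1) 1) = 0 := by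
        refine Finset.sum_eq_zero fun i' _ => ?_
        have h3 : hat w (Sum.inr i') (Sum.inr ()) = 0 := rfl
        rw [h3, zero_mul]
      have h4 : Lf w h p σ (monomial (mk m' k) 1) = 0 := by
        by_contra hcon
        apply hmin m'.degree (by omega)
        refine ⟨k, m', rfl, by omega, ?_, hcon⟩
        intro j hj hkj
        apply hm' j
        rw [hJ]
        push Not
        exact ⟨hj, hkj⟩
      rw [h2, add_zero, h4, neg_zero] at h1
      rw [h1]
      refine Finset.sum_congr rfl fun a _ => ?_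
      have h3 : lam (m' + Finsupp.single a 1) =
          Lf w h p σ (monomial (mk (m' + Finsupp.single a 1) k) 1) := by
        simp only [lam]
        rw [if_pos]
        rw [degree_add_single]
        exact hdd
      have h5 : hat w (Sum.inl a) (Sum.inr ()) = 1 := rfl
      rw [h3, mk_add_inl, h5, one_mul]
    · refine Finset.sum_eq_zero fun a _ => ?_
      simp only [lam]
      rw [if_neg]
      rw [degree_add_single]
      exact hdd
  · refine ⟨m, ?_, ?_⟩
    · intro j hj
      exact hcov j (hJ' j hj).1 (hJ' j hj).2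
    · simp only [lam]
      rw [if_pos hmd]
      exact hne

end Pool.Agent.Mono.NP
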