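import Pool.Agent.Work.Monodromy.Interface12A

/-! # Phase 12, block DET: passage to a neighbour (helper6) -/

set_option autoImplicit false

namespace Pool.Agent.Mono.NP

namespace DETAux

variable {ι κ : Type} [Fintype ι] [DecidableEq ι] [Fintype κ] [DecidableEq κ]

/-- `adet` with any numbering of the rows -/
theorem adet_eq (w : κ → ι → ℕ) (Δ : Finset (κ ⊕ ι)) (f : ι ⊕ Unit → κ ⊕ ι)
    (hf : Function.Injective f) (hfΔ : ∀ a, f a ∈ Δ) (hcard : Δ.card = Fintype.card ι + 1) :
    adet w Δ = |(Matrix.of fun a b => hat w (f a) b).det| := by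
  classical
  have hc : Fintype.card Δ = Fintype.card (ι ⊕ Unit) := by
    rw [Fintype.card_coe, hcard, Fintype.card_sum, Fintype.card_unit]
  unfold adet
  rw [dif_pos hc]
  set e : Δ ≃ ι ⊕ Unit := Fintype.equivOfCardEq hc with he
  have hinj : Function.Injective (fun a => e ⟨f a, hfΔ a⟩) := by
    intro a b hab
    have h1 := e.injective hab
    exact hf (Subtype.mk.inj h1)
  set s : Equiv.Perm (ι ⊕ Unit) := Equiv.ofBijective _ (Finite.injective_iff_bijective.1 hinj)
    with hs
  have h1 : (Matrix.of fun a b => hat w (f a) b) =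
      (Matrix.of fun a b => hat w (e.symm a) b).submatrix s id := by
    ext a b
    simp [hs]
  rw [h1, Matrix.det_permute, abs_mul]
  have h2 : |((Equiv.Perm.sign s : ℤ) : ℚ)| = 1 := by
    rcases Int.units_eq_one_or (Equiv.Perm.sign s) with h3 | h3 <;> rw [h3] <;> simp
  rw [h2, one_mul]

end DETAux

open DETAux in
theorem stmt_DET (hDUAL : Stmt_DUAL) : Stmt_DET := by
  classical
  intro ι κ _ _ _ _ w h hh Δ hΔ v hv v' hv' hΔ'
  obtain ⟨hd1, hd2, hd3⟩ := hDUAL ι κ w h hh Δ hΔ
  obtain ⟨hd1', hd2', hd3'⟩ := hDUAL ι κ w h hh _ hΔ'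
  have hcard : Δ.card = Fintype.card ι + 1 := by
    unfold maxCells at hΔ
    exact (Finset.mem_filter.1 hΔ).2.1
  have hcard' : (insert v' (Δ.erase v)).card = Fintype.card ι + 1 := by
    unfold maxCells at hΔ'
    exact (Finset.mem_filter.1 hΔ').2.1
  set Δ' := insert v' (Δ.erase v) with hΔ'def
  -- the coordinates of `v'` in `Δ`
  set p : κ ⊕ ι → ℚ := fun u => pr (dual w Δ u) (hat w v') with hp
  set t : ℚ := p v with ht
  have hcfp : ∀ u ∈ Δ, cf w Δ (hat w v') u = p u := by
    intro u hu
    unfold cf
    rw [if_pos hu]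
    rfl
  have hcf0 : ∀ {F : Type} [Field F] [Algebra ℚ F] (y : ι ⊕ Unit → F) (u : κ ⊕ ι), u ∉ Δ →
      cf w Δ y u = 0 := by
    intro F _ _ y u hu
    unfold cf
    rw [if_neg hu]
  have hsum : ∀ {R : Type} [AddCommMonoid R] (f : κ ⊕ ι → R), (∀ u, u ∉ Δ → f u = 0) →
      ∑ u, f u = f v + ∑ u ∈ Δ.erase v, f u := by
    intro R _ f hf
    rw [← Finset.sum_subset (Finset.subset_univ Δ) (fun u _ hu => hf u hu),
      ← Finset.add_sum_erase Δ f hv]
  have hv'e : v' ∉ Δ.erase v := fun h1 => hv' (Finset.mem_of_mem_erase h1)
  have hhat : ∀ e, hat w v' e = t * hat w v e + ∑ u ∈ Δ.erase v, p u * hat w u e := by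
    intro e
    have h1 := (hd3 ℚ).1 (hat w v') e
    rw [← h1, hsum (fun u => cf w Δ (hat w v') u * algebraMap ℚ ℚ (hat w u e))
      (by
        intro u hu
        rw [hcf0 _ u hu, zero_mul])]
    rw [hcfp v hv]
    congr 1
    apply Finset.sum_congr rfl
    intro u hu
    rw [hcfp u (Finset.mem_of_mem_erase hu)]
    rfl
  have ht0 : t ≠ 0 := by
    intro h0
    have h1 := (hd3' ℚ).2 (hat w v') (fun u => if u = v' then 1 else 0) (by
      intro u hu
      rw [if_neg]
      intro h2
      apply hu
      rw [h2, hΔ'def]
      exact Finset.mem_insert_self _ _) (by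
      intro e
      simp)
    have h2 := (hd3' ℚ).2 (hat w v') (fun u => if u ∈ Δ.erase v then p u else 0) (by
      intro u hu
      rw [if_neg]
      intro h2
      apply hu
      rw [hΔ'def]
      exact Finset.mem_insert_of_mem h2) (by
      intro e
      rw [hhat e, h0, zero_mul, zero_add]
      rw [← Finset.sum_subset (Finset.subset_univ (Δ.erase v))]
      · apply Finset.sum_congr rfl
        intro u hu
        rw [if_pos hu]
        rfl
      · intro u _ hu
        rw [if_neg hu, zero_mul])
    have h3 := congrFun (h1.symm.trans h2) v'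
    simp only [if_true] at h3
    rw [if_neg hv'e] at h3
    exact one_ne_zero h3
  refine ⟨ht0, ?_, ?_⟩
  · -- the determinant
    obtain ⟨f, hfinj, hfΔ⟩ : ∃ f : ι ⊕ Unit → κ ⊕ ι, Function.Injective f ∧ ∀ a, f a ∈ Δ := by
      have hc : Fintype.card Δ = Fintype.card (ι ⊕ Unit) := by
        rw [Fintype.card_coe, hcard, Fintype.card_sum, Fintype.card_unit]
      refine ⟨fun a => ((Fintype.equivOfCardEq hc).symm a : κ ⊕ ι), ?_, fun a => Subtype.coe_prop _⟩
      intro a b hab
      exact (Fintype.equivOfCardEq hc).symm.injective (Subtype.ext hab)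
    have himg : Finset.univ.image f = Δ := by
      apply Finset.eq_of_subset_of_card_le
      · intro u hu
        obtain ⟨a, _, ha⟩ := Finset.mem_image.1 hu
        rw [← ha]
        exact hfΔ a
      · rw [Finset.card_image_of_injective _ hfinj, Finset.card_univ, Fintype.card_sum,
          Fintype.card_unit, hcard]
    obtain ⟨a0, ha0⟩ : ∃ a0, f a0 = v := by
      rw [← himg] at hv
      obtain ⟨a, _, ha⟩ := Finset.mem_image.1 hv
      exact ⟨a, ha⟩
    have hf'inj : Function.Injective (Function.update f a0 v') := by
      intro a b hab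
      by_cases h1 : a = a0
      · by_cases h2 : b = a0
        · rw [h1, h2]
        · rw [h1, Function.update_self, Function.update_of_ne h2] at hab
          exact absurd (hab ▸ hfΔ b) hv'
      · by_cases h2 : b = a0
        · rw [h2, Function.update_self, Function.update_of_ne h1] at hab
          exact absurd (hab ▸ hfΔ a) hv'
        · rw [Function.update_of_ne h1, Function.update_of_ne h2] at hab
          exact hfinj hab
    have hf'Δ : ∀ a, Function.update f a0 v' a ∈ Δ' := by
      intro a
      rw [hΔ'def]
      by_cases h1 : a = a0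
      · rw [h1, Function.update_self]
        exact Finset.mem_insert_self _ _
      · rw [Function.update_of_ne h1]
        apply Finset.mem_insert_of_mem
        rw [Finset.mem_erase]
        refine ⟨?_, hfΔ a⟩
        intro h2
        exact h1 (hfinj (h2.trans ha0.symm))
    rw [adet_eq w Δ' _ hf'inj hf'Δ hcard', adet_eq w Δ f hfinj hfΔ hcard]
    set M : Matrix (ι ⊕ Unit) (ι ⊕ Unit) ℚ := Matrix.of fun a b => hat w (f a) b with hM
    have h1 : (Matrix.of fun a b => hat w (Function.update f a0 v' a) b) =
        M.updateRow a0 (∑ k, p (f k) • M k) := by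
      ext a b
      by_cases h2 : a = a0
      · rw [h2, Matrix.updateRow_self, Matrix.of_apply, Function.update_self, hhat b]
        rw [Finset.sum_apply, ← Finset.add_sum_erase Finset.univ _ (Finset.mem_univ a0)]
        simp only [Pi.smul_apply, smul_eq_mul]
        rw [ha0]
        have h3 : M a0 b = hat w v b := by rw [hM, Matrix.of_apply, ha0]
        rw [h3]
        congr 1
        have h4 : Δ.erase v = (Finset.univ.erase a0).image f := by
          rw [← himg, ← ha0]
          ext u
          simp only [Finset.mem_erase, Finset.mem_image, Finset.mem_univ, true_and, ne_eq,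
            and_true]
          constructor
          · rintro ⟨h5, a, ha⟩
            exact ⟨a, fun h6 => h5 (by rw [← ha, h6]), ha⟩
          · rintro ⟨a, h5, ha⟩
            exact ⟨fun h6 => h5 (hfinj (ha.trans h6)), a, ha⟩
        rw [h4, Finset.sum_image (fun a _ b _ hab => hfinj hab)]
        apply Finset.sum_congr rfl
        intro a _
        rw [hM, Matrix.of_apply]
      · rw [Matrix.updateRow_ne h2, Matrix.of_apply, Function.update_of_ne h2, hM, Matrix.of_apply]
    rw [h1, Matrix.det_updateRow_sum, ha0, smul_eq_mul, abs_mul, mul_comm]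
  · intro F _ _ y
    have key := (hd3' F).2 y (fun u => if u = v' then cf w Δ y v / algebraMap ℚ F t
      else if u ∈ Δ.erase v then cf w Δ y u - algebraMap ℚ F (p u / t) * cf w Δ y v else 0) (by
      intro u hu
      rw [hΔ'def, Finset.mem_insert, not_or] at hu
      rw [if_neg hu.1, if_neg hu.2]) (by
      intro e
      have ht0F : algebraMap ℚ F t ≠ 0 := by
        rw [Ne, map_eq_zero]
        exact ht0
      have h1 : ∑ u, (if u = v' then cf w Δ y v / algebraMap ℚ F t
          else if u ∈ Δ.erase v then cf w Δ y u - algebraMap ℚ F (p u / t) * cf w Δ y v else 0) *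
            algebraMap ℚ F (hat w u e) =
          cf w Δ y v / algebraMap ℚ F t * algebraMap ℚ F (hat w v' e) +
          ∑ u ∈ Δ.erase v, (cf w Δ y u - algebraMap ℚ F (p u / t) * cf w Δ y v) *
            algebraMap ℚ F (hat w u e) := by
        rw [← Finset.sum_subset (Finset.subset_univ (insert v' (Δ.erase v))),
          Finset.sum_insert hv'e, if_pos rfl]
        · congr 1
          apply Finset.sum_congr rfl
          intro u hu
          rw [if_neg, if_pos hu]
          intro h2
          rw [h2] at hu
          exact hv'e hu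
        · intro u _ hu
          rw [Finset.mem_insert, not_or] at hu
          rw [if_neg hu.1, if_neg hu.2, zero_mul]
      rw [h1, ← (hd3 F).1 y e, hsum (fun u => cf w Δ y u * algebraMap ℚ F (hat w u e))
        (by
          intro u hu
          rw [hcf0 _ u hu, zero_mul]), hhat e, map_add, map_mul, map_sum, mul_add,
        Finset.mul_sum]
      have h2 : cf w Δ y v / algebraMap ℚ F t * (algebraMap ℚ F t * algebraMap ℚ F (hat w v e)) =
          cf w Δ y v * algebraMap ℚ F (hat w v e) := by
        field_simp
      rw [h2, add_assoc, ← Finset.sum_add_distrib]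
      congr 1
      apply Finset.sum_congr rfl
      intro u _
      rw [map_mul, map_div₀]
      field_simp
      ring)
    constructor
    · rw [key]
      simp only [if_true]
      rfl
    · intro u hu
      rw [key]
      have h2 : u ≠ v' := by
        intro h2
        rw [h2] at hu
        exact hv'e hu
      simp only [if_neg h2, if_pos hu]
      rfl

end Pool.Agent.Mono.NP
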