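import Mathlib
import Pool.Agent.Work.Monodromy.Interface12C

/-!
# Phase 12, block DETI: the index of the lattice of a basis is the determinant (helper4)
-/

set_option autoImplicit false

namespace Pool.Agent.Mono.NP

namespace DETIAux

open Finset

variable {ι κ : Type} [Fintype ι] [DecidableEq ι] [Fintype κ] [DecidableEq κ]

theorem hat_eq (w : κ → ι → ℕ) (v : κ ⊕ ι) (b : ι ⊕ Unit) : hat w v b = (zv w v b : ℚ) := by
  rcases v with a | j <;> rcases b with i | u
  · simp [hat, zv]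
  · simp [hat, zv]
  · simp only [hat, zv, Sum.elim_inr, Sum.elim_inl]
    by_cases h : j = i
    · subst h; simp
    · simp [h]
  · simp [hat, zv]

/-- the matrix of the lattice -/
def Zm (w : κ → ι → ℕ) (Δ : Finset (κ ⊕ ι)) (e : Δ ≃ ι ⊕ Unit) : Matrix Δ Δ ℤ :=
  Matrix.of fun v u => zv w v (e u)

theorem adet_eq (w : κ → ι → ℕ) (Δ : Finset (κ ⊕ ι))
    (hc : Fintype.card Δ = Fintype.card (ι ⊕ Unit)) :
    adet w Δ = |((Zm w Δ (Fintype.equivOfCardEq hc)).det : ℚ)| := by
  set e := Fintype.equivOfCardEq hc with he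
  have h1 : adet w Δ = |(Matrix.of fun a b => hat w (e.symm a) b).det| := by
    unfold adet
    rw [dif_pos hc]
  rw [h1]
  congr 1
  have h2 : ((Zm w Δ e).det : ℚ) = ((Zm w Δ e).map (Int.castRingHom ℚ)).det := by
    rw [← RingHom.mapMatrix_apply, ← RingHom.map_det]; rfl
  rw [h2, ← Matrix.det_submatrix_equiv_self e.symm]
  congr 1
  ext a b
  simp [Zm, hat_eq]

/-- the linear map with range `Lt` -/
def lm (w : κ → ι → ℕ) (Δ : Finset (κ ⊕ ι)) (e : Δ ≃ ι ⊕ Unit) :
    (Δ → ℤ) →ₗ[ℤ] (Lt w Δ).toIntSubmodule where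
  toFun x := ⟨fun v => zp w (fun b => x (e.symm b)) v, ⟨_, fun _ => rfl⟩⟩
  map_add' x y := by
    apply Subtype.ext
    funext v
    simp [zp, mul_add, Finset.sum_add_distrib]
  map_smul' c x := by
    apply Subtype.ext
    funext v
    simp only [zp, Pi.smul_apply, smul_eq_mul, RingHom.id_apply, SetLike.val_smul,
      Finset.mul_sum]
    exact Finset.sum_congr rfl fun b _ => by ring

theorem lm_apply (w : κ → ι → ℕ) (Δ : Finset (κ ⊕ ι)) (e : Δ ≃ ι ⊕ Unit) (x : Δ → ℤ) (v : Δ) :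
    (lm w Δ e x : Δ → ℤ) v = (Zm w Δ e).mulVec x v := by
  show zp w (fun b => x (e.symm b)) v = _
  simp only [zp, Matrix.mulVec, dotProduct, Zm, Matrix.of_apply]
  rw [← Equiv.sum_comp e]
  simp

theorem det_ne (w : κ → ι → ℕ) (Δ : Finset (κ ⊕ ι)) (e : Δ ≃ ι ⊕ Unit)
    (hli : LinearIndependent ℚ fun v : Δ => hat w (v : κ ⊕ ι)) : (Zm w Δ e).det ≠ 0 := by
  intro h0
  obtain ⟨c, hc0, hcM⟩ := Matrix.exists_vecMul_eq_zero_iff.2 h0
  apply hc0
  have h1 := (Fintype.linearIndependent_iff.1 hli) (fun v => (c v : ℚ)) (by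
    funext b
    have h2 := congrFun hcM (e.symm b)
    simp only [Matrix.vecMul, dotProduct, Pi.zero_apply, Zm, Matrix.of_apply,
      Equiv.apply_symm_apply] at h2
    rw [Finset.sum_apply]
    simp only [Pi.smul_apply, smul_eq_mul, hat_eq, Pi.zero_apply]
    exact_mod_cast h2)
  funext v
  have := h1 v
  exact_mod_cast this

theorem index_eq (w : κ → ι → ℕ) (Δ : Finset (κ ⊕ ι)) (e : Δ ≃ ι ⊕ Unit)
    (hli : LinearIndependent ℚ fun v : Δ => hat w (v : κ ⊕ ι)) :
    (Lt w Δ).index = (Zm w Δ e).det.natAbs := by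
  classical
  have hdet := det_ne w Δ e hli
  have hbij : Function.Bijective (lm w Δ e) := by
    constructor
    · rw [injective_iff_map_eq_zero]
      intro x hx
      apply Matrix.eq_zero_of_mulVec_eq_zero hdet
      funext v
      rw [← lm_apply, hx]; rfl
    · rintro ⟨z, y, hy⟩
      refine ⟨fun v => y (e v), Subtype.ext (funext fun v => ?_)⟩
      show zp w (fun b => y (e (e.symm b))) v = z v
      simp only [Equiv.apply_symm_apply]
      exact (hy v).symm
  let f := LinearEquiv.ofBijective (lm w Δ e) hbij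
  have h := AddSubgroup.index_eq_natAbs_det (Pi.basisFun ℤ Δ) (Lt w Δ)
    ((Pi.basisFun ℤ Δ).map f)
  rw [h, Module.Basis.det_apply]
  congr 2
  ext v u
  rw [Module.Basis.toMatrix_apply]
  show (lm w Δ e (Pi.basisFun ℤ Δ u) : Δ → ℤ) v = _
  rw [lm_apply, Pi.basisFun_apply]
  simp [Zm]

end DETIAux

open DETIAux in
/-- Block DETI. -/
theorem stmt_DETI : Stmt_DETI := by
  classical
  intro ι κ _ _ _ _ w Δ hcard hli
  have hc : Fintype.card Δ = Fintype.card (ι ⊕ Unit) := by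
    rw [Fintype.card_coe, hcard, Fintype.card_sum, Fintype.card_unit]
  refine ⟨?_, ?_⟩
  · rw [adet_eq w Δ hc, index_eq w Δ (Fintype.equivOfCardEq hc) hli, Nat.cast_natAbs, Int.cast_abs]
  · intro C hC z
    obtain ⟨y, hy⟩ := AddSubgroup.nsmul_index_mem (Lt w Δ)
      (fun v : Δ => if hv : (v : κ ⊕ ι) ∈ C then z ⟨v, hv⟩ else 0)
    refine ⟨y, fun v => ?_⟩
    have := hy ⟨v, hC v.2⟩
    rw [← this]
    simp

end Pool.Agent.Mono.NP
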