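import Pool.Agent.Work.Monodromy.Interface12A

/-! # Phase 12, block DUAL: coordinates with respect to a maximal cell (helper6) -/

set_option autoImplicit false

namespace Pool.Agent.Mono.NP

namespace DUALAux

open Finset

variable {ι κ : Type} [Fintype ι] [DecidableEq ι] [Fintype κ] [DecidableEq κ]

/-- a sum over all vertices of a function supported on `Δ` as a sum over the row indices -/
theorem sum_conv {R : Type} [AddCommMonoid R] (Δ : Finset (κ ⊕ ι)) (e : Δ ≃ ι ⊕ Unit)
    (f : κ ⊕ ι → R) (hf : ∀ v, v ∉ Δ → f v = 0) :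
    ∑ v, f v = ∑ a, f (e.symm a) := by
  rw [← Finset.sum_subset (Finset.subset_univ Δ) (fun v _ hv => hf v hv), ← Finset.sum_coe_sort Δ]
  exact (Equiv.sum_comp e.symm (fun v : Δ => f v)).symm

end DUALAux

open DUALAux in
theorem stmt_DUAL (hTRI1 : Stmt_TRI1) : Stmt_DUAL := by
  classical
  intro ι κ _ _ _ _ w h hh Δ hΔ
  have hΔ' : Δ.card = Fintype.card ι + 1 ∧ ∃ k : ι → ℝ, (∀ i, 0 ≤ k i) ∧ Δ = cell w h k := by
    unfold maxCells at hΔ
    exact (Finset.mem_filter.1 hΔ).2
  obtain ⟨hcard, k, hk0, hk⟩ := hΔ'
  have hc : Fintype.card Δ = Fintype.card (ι ⊕ Unit) := by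
    rw [Fintype.card_coe, hcard, Fintype.card_sum, Fintype.card_unit]
  set e : Δ ≃ ι ⊕ Unit := Fintype.equivOfCardEq hc with he
  set M : Matrix (ι ⊕ Unit) (ι ⊕ Unit) ℚ := Matrix.of fun a b => hat w (e.symm a) b with hM
  -- the determinant
  have hdet : M.det ≠ 0 := by
    intro h0
    obtain ⟨c, hc0, hcM⟩ := Matrix.exists_vecMul_eq_zero_iff.2 h0
    apply hc0
    have hx := hTRI1 ι κ w h k (fun v => if hv : v ∈ Δ then c (e ⟨v, hv⟩) else 0) hh (by
      intro v hv
      rw [← hk] at hv
      simp [hv]) (by
      intro b
      rw [sum_conv Δ e]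
      · have h1 := congrFun hcM b
        simp only [Matrix.vecMul, dotProduct, Pi.zero_apply] at h1
        rw [← h1]
        apply Finset.sum_congr rfl
        intro a _
        simp [hM]
      · intro v hv
        simp [hv])
    funext a
    have h2 := hx (e.symm a)
    simpa using h2
  have hadet : adet w Δ = |M.det| := by
    unfold adet
    rw [dif_pos hc]
  have hdual : ∀ v ∈ Δ, ∀ u ∈ Δ, ∑ b, dual w Δ v b * hat w u b = if u = v then 1 else 0 := by
    intro v hv
    have hex : ∃ x : ι ⊕ Unit → ℚ, ∀ u ∈ Δ, ∑ b, x b * hat w u b = if u = v then 1 else 0 := by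
      refine ⟨M⁻¹.mulVec (Pi.single (e ⟨v, hv⟩) 1), ?_⟩
      intro u hu
      have h1 : M.mulVec (M⁻¹.mulVec (Pi.single (e ⟨v, hv⟩) 1)) = Pi.single (e ⟨v, hv⟩) 1 := by
        rw [Matrix.mulVec_mulVec, Matrix.mul_nonsing_inv _ (isUnit_iff_ne_zero.2 hdet),
          Matrix.one_mulVec]
      have h2 := congrFun h1 (e ⟨u, hu⟩)
      rw [Matrix.mulVec, dotProduct] at h2
      have h3 : ∑ b, (M⁻¹.mulVec (Pi.single (e ⟨v, hv⟩) 1)) b * hat w u b =
          ∑ b, M (e ⟨u, hu⟩) b * (M⁻¹.mulVec (Pi.single (e ⟨v, hv⟩) 1)) b := by
        apply Finset.sum_congr rfl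
        intro b _
        rw [mul_comm]
        simp [hM]
      rw [h3]
      rw [h2]
      rw [Pi.single_apply]
      have h4 : (e ⟨u, hu⟩ = e ⟨v, hv⟩) ↔ u = v := by
        rw [e.apply_eq_iff_eq, Subtype.mk.injEq]
      by_cases huv : u = v
      · rw [if_pos (h4.2 huv), if_pos huv]
      · rw [if_neg (fun h => huv (h4.1 h)), if_neg huv]
    have h5 : dual w Δ v = hex.choose := by
      unfold dual
      rw [dif_pos hex]
    rw [h5]
    exact hex.choose_spec
  refine ⟨?_, ?_, ?_⟩
  · rw [hadet]
    exact abs_pos.2 hdet
  · intro v hv u hu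
    exact hdual v hv u hu
  · intro F _ _
    -- the matrix of the duals
    set N : Matrix (ι ⊕ Unit) (ι ⊕ Unit) ℚ := Matrix.of fun b a => dual w Δ (e.symm a) b with hN
    have hMN : M * N = 1 := by
      ext a a'
      rw [Matrix.mul_apply, Matrix.one_apply]
      have h1 := hdual (e.symm a') (e.symm a').2 (e.symm a) (e.symm a).2
      have h2 : ∑ j, M a j * N j a' =
          ∑ b, dual w Δ (e.symm a') b * hat w (e.symm a) b := by
        apply Finset.sum_congr rfl
        intro b _
        rw [mul_comm]
        simp [hM, hN]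
      rw [h2, h1]
      by_cases haa : a = a'
      · rw [if_pos haa, if_pos (by rw [haa])]
      · rw [if_neg haa, if_neg]
        intro h3
        exact haa (e.symm.injective (Subtype.ext h3))
    have hNM : N * M = 1 := mul_eq_one_comm.1 hMN
    constructor
    · intro y b'
      rw [sum_conv Δ e (fun v => cf w Δ y v * algebraMap ℚ F (hat w v b'))]
      · have h1 : ∀ a, cf w Δ y (e.symm a) * algebraMap ℚ F (hat w (e.symm a) b') =
            ∑ b, algebraMap ℚ F (N b a * M a b') * y b := by
          intro a
          unfold cf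
          rw [if_pos (e.symm a).2]
          unfold ev
          rw [Finset.sum_mul]
          apply Finset.sum_congr rfl
          intro b _
          rw [map_mul]
          simp only [hN, hM, Matrix.of_apply]
          ring
        rw [Finset.sum_congr rfl (fun a _ => h1 a), Finset.sum_comm]
        have h2 : ∀ b, ∑ a, algebraMap ℚ F (N b a * M a b') * y b = if b = b' then y b else 0 := by
          intro b
          rw [← Finset.sum_mul, ← map_sum, ← Matrix.mul_apply, hNM, Matrix.one_apply]
          by_cases hb : b = b'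
          · rw [if_pos hb, if_pos hb, map_one, one_mul]
          · rw [if_neg hb, if_neg hb, map_zero, zero_mul]
        rw [Finset.sum_congr rfl (fun b _ => h2 b)]
        simp
      · intro v hv
        unfold cf
        rw [if_neg hv, zero_mul]
    · intro y c hcs hcy
      funext v
      by_cases hv : v ∈ Δ
      · unfold cf
        rw [if_pos hv]
        unfold ev
        have h1 : ∀ b, algebraMap ℚ F (dual w Δ v b) * y b =
            ∑ u, c u * algebraMap ℚ F (dual w Δ v b * hat w u b) := by
          intro b
          rw [← hcy b, Finset.mul_sum]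
          apply Finset.sum_congr rfl
          intro u _
          rw [map_mul]
          ring
        rw [Finset.sum_congr rfl (fun b _ => h1 b), Finset.sum_comm]
        have h2 : ∀ u, ∑ b, c u * algebraMap ℚ F (dual w Δ v b * hat w u b) =
            if u = v then c v else 0 := by
          intro u
          rw [← Finset.mul_sum, ← map_sum]
          by_cases hu : u ∈ Δ
          · rw [hdual v hv u hu]
            by_cases huv : u = v
            · rw [if_pos huv, if_pos huv, map_one, mul_one, huv]
            · rw [if_neg huv, if_neg huv, map_zero, mul_zero]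
          · rw [hcs u hu, zero_mul, if_neg]
            intro huv
            rw [huv] at hu
            exact hu hv
        rw [Finset.sum_congr rfl (fun u _ => h2 u)]
        simp
      · unfold cf
        rw [if_neg hv, hcs v hv]

end Pool.Agent.Mono.NP
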