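import Mathlib
import Pool.Agent.Work.Monodromy.Interface12B

/-!
# Phase 12, part III, block EMB: algebraically independent numbers are monomials in a field of
Hahn series (helper46)
-/

set_option autoImplicit false

namespace Pool.Agent.Mono.NP

namespace EMBAux

open Cardinal

/-- a subset of `ℝ` in which every nonempty subset has a minimum is countable -/
theorem countable_of_isPWO (s : Set ℝ) (hs : s.IsPWO) : s.Countable := by
  classical
  have hwf : s.IsWF := hs.isWF
  have hy : ∀ x : ℝ, ∃ y : ℝ, x < y ∧ ∀ z ∈ s, x < z → y ≤ z := by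
    intro x
    by_cases h : (s ∩ Set.Ioi x).Nonempty
    · have h1 : (s ∩ Set.Ioi x).IsWF := hwf.mono Set.inter_subset_left
      refine ⟨h1.min h, ?_, ?_⟩
      · exact (h1.min_mem h).2
      · intro z hz hxz
        exact h1.min_le h ⟨hz, hxz⟩
    · refine ⟨x + 1, by linarith, ?_⟩
      intro z hz hxz
      exact absurd ⟨z, hz, hxz⟩ h
  choose y hy1 hy2 using hy
  refine Set.PairwiseDisjoint.countable_of_Ioo (y := y) ?_ (fun x _ => hy1 x)
  have key : ∀ a ∈ s, ∀ b ∈ s, a < b → Disjoint (Set.Ioo a (y a)) (Set.Ioo b (y b)) := by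
    intro a _ b hb hab
    rw [Set.disjoint_left]
    intro z hz1 hz2
    have := hy2 a b hb hab
    have h3 : z < y a := hz1.2
    have h4 : b < z := hz2.1
    linarith
  intro a ha b hb hab
  rcases lt_or_gt_of_ne hab with h | h
  · exact key a ha b hb h
  · exact (key b hb a ha h).symm

theorem card_hahn : #(HahnSeries ℝ ℚ) ≤ 𝔠 := by
  classical
  have h1 : ∀ x : HahnSeries ℝ ℚ, ∃ f : ℕ → ℝ, x.support ⊆ Set.range f := by
    intro x
    have h2 : x.support.Countable := countable_of_isPWO _ x.isPWO_support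
    by_cases h3 : x.support.Nonempty
    · obtain ⟨f, hf⟩ := h2.exists_eq_range h3
      exact ⟨f, hf.le⟩
    · rw [Set.not_nonempty_iff_eq_empty] at h3
      exact ⟨fun _ => 0, by rw [h3]; exact Set.empty_subset _⟩
  choose f hf using h1
  have h2 : Function.Injective
      (fun x : HahnSeries ℝ ℚ => (fun n : ℕ => ((f x n, x.coeff (f x n)) : ℝ × ℚ))) := by
    intro x x' h
    have h3 : ∀ n, f x n = f x' n ∧ x.coeff (f x n) = x'.coeff (f x' n) := by
      intro n
      have := congrFun h n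
      exact ⟨congrArg Prod.fst this, congrArg Prod.snd this⟩
    ext r
    by_cases hr : ∃ n, f x n = r
    · obtain ⟨n, rfl⟩ := hr
      rw [(h3 n).2, (h3 n).1]
    · have e1 : x.coeff r = 0 := by
        by_contra hne
        exact hr (hf x hne)
      have e2 : x'.coeff r = 0 := by
        by_contra hne
        obtain ⟨n, hn⟩ := hf x' hne
        exact hr ⟨n, (h3 n).1.trans hn⟩
      rw [e1, e2]
  refine (mk_le_of_injective h2).trans ?_
  have h4 : #(ℕ → ℝ × ℚ) = 𝔠 := by
    rw [← Cardinal.power_def]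
    simp [Cardinal.mk_real]
  exact h4.le

/-- extension of a map of a transcendence basis to a ring homomorphism -/
theorem extend {K : Type} [Field K] [Algebra ℚ K] {B : Type} (v : B → K) (e : B → ℂ)
    (hv : IsTranscendenceBasis ℚ v) (he : AlgebraicIndependent ℚ e) :
    ∃ f : K →+* ℂ, ∀ b, f (v b) = e b := by
  let R0 := Algebra.adjoin ℚ (Set.range v)
  let ψ : R0 →ₐ[ℚ] ℂ := (MvPolynomial.aeval e).comp (hv.1.aevalEquiv.symm : R0 →ₐ[ℚ] _)
  have hψ : Function.Injective ψ := by
    have h1 : Function.Injective (MvPolynomial.aeval e : MvPolynomial B ℚ →ₐ[ℚ] ℂ) := he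
    exact h1.comp hv.1.aevalEquiv.symm.injective
  let : Algebra R0 ℂ := ψ.toRingHom.toAlgebra
  have : Module.IsTorsionFree R0 ℂ := by
    have : FaithfulSMul R0 ℂ := (faithfulSMul_iff_algebraMap_injective R0 ℂ).mpr hψ
    infer_instance
  have : Algebra.IsAlgebraic R0 K := hv.isAlgebraic
  let F : K →ₐ[R0] ℂ := IsAlgClosed.lift
  refine ⟨F.toRingHom, ?_⟩
  intro b
  have hb : v b ∈ R0 := Algebra.subset_adjoin ⟨b, rfl⟩
  have h1 : F (v b) = ψ ⟨v b, hb⟩ := F.commutes (⟨v b, hb⟩ : R0)
  have h2 : ψ ⟨v b, hb⟩ = e b := by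
    have h3 : hv.1.aevalEquiv.symm ⟨v b, hb⟩ = MvPolynomial.X b := by
      rw [AlgEquiv.symm_apply_eq]
      apply Subtype.ext
      simp
    show MvPolynomial.aeval e (hv.1.aevalEquiv.symm ⟨v b, hb⟩) = e b
    rw [h3]
    simp
  exact h1.trans h2

section

variable {κ : Type} [Fintype κ] (h : κ → ℝ)

/-- the exponent of a monomial -/
noncomputable def ex (m : κ →₀ ℕ) : ℝ := ∑ v, (m v : ℝ) * h v

theorem ex_inj (hh : LinearIndependent ℚ h) : Function.Injective (ex h) := by
  intro m m' hm
  rw [Fintype.linearIndependent_iff] at hh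
  have h1 := hh (fun v => (m v : ℚ) - m' v) (by
    have h2 : ∑ v, (((m v : ℚ) - m' v) • h v) = ex h m - ex h m' := by
      rw [ex, ex, ← Finset.sum_sub_distrib]
      apply Finset.sum_congr rfl
      intro v _
      rw [Rat.smul_def]
      push_cast
      ring
    rw [h2, hm, sub_self])
  ext v
  have h3 := h1 v
  have h4 : (m v : ℚ) = m' v := by linarith
  exact_mod_cast h4

theorem prod_single (m : κ →₀ ℕ) :
    ∏ v, (HahnSeries.single (h v) (1 : ℚ)) ^ m v = HahnSeries.single (ex h m) (1 : ℚ) := by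
  have h1 : ∀ s : Finset κ, ∏ v ∈ s, (HahnSeries.single (h v) (1 : ℚ)) ^ m v =
      HahnSeries.single (∑ v ∈ s, (m v : ℝ) * h v) (1 : ℚ) := by
    intro s
    classical
    induction s using Finset.induction_on with
    | empty => simp
    | insert b s hb ih =>
      rw [Finset.prod_insert hb, Finset.sum_insert hb, ih, HahnSeries.single_pow,
        HahnSeries.single_mul_single]
      simp
  exact h1 Finset.univ

theorem algInd (hh : LinearIndependent ℚ h) :
    AlgebraicIndependent ℚ (fun v => (HahnSeries.single (h v) (1 : ℚ) : HahnSeries ℝ ℚ)) := by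
  classical
  rw [algebraicIndependent_iff]
  intro p hp
  have h1 : ∀ m0 : κ →₀ ℕ, (MvPolynomial.aeval
      (fun v => (HahnSeries.single (h v) (1 : ℚ) : HahnSeries ℝ ℚ)) p).coeff (ex h m0) =
      p.coeff m0 := by
    intro m0
    rw [MvPolynomial.aeval_def, MvPolynomial.eval₂_eq']
    have h2 : ∀ d : κ →₀ ℕ, (algebraMap ℚ (HahnSeries ℝ ℚ)) (MvPolynomial.coeff d p) *
        ∏ i, (HahnSeries.single (h i) (1 : ℚ) : HahnSeries ℝ ℚ) ^ d i =
        HahnSeries.single (ex h d) (MvPolynomial.coeff d p) := by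
      intro d
      rw [prod_single]
      have h3 : (algebraMap ℚ (HahnSeries ℝ ℚ)) (MvPolynomial.coeff d p) =
          HahnSeries.single 0 (MvPolynomial.coeff d p) := by
        have h4 : (algebraMap ℚ (HahnSeries ℝ ℚ)) = (HahnSeries.C : ℚ →+* HahnSeries ℝ ℚ) :=
          Subsingleton.elim _ _
        rw [h4]
        rfl
      rw [h3, HahnSeries.single_mul_single, zero_add, mul_one]
    rw [Finset.sum_congr rfl (fun d _ => h2 d)]
    have h5 : (∑ d ∈ p.support, HahnSeries.single (ex h d) (MvPolynomial.coeff d p)).coeff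
        (ex h m0) = ∑ d ∈ p.support,
          (HahnSeries.single (ex h d) (MvPolynomial.coeff d p)).coeff (ex h m0) := by
      exact HahnSeries.coeff_sum _
    rw [h5]
    have h6 : ∀ d ∈ p.support, (HahnSeries.single (ex h d) (MvPolynomial.coeff d p)).coeff
        (ex h m0) = if d = m0 then MvPolynomial.coeff m0 p else 0 := by
      intro d _
      by_cases hd : d = m0
      · subst hd
        simp
      · rw [if_neg hd]
        exact HahnSeries.coeff_single_of_ne (fun hc => hd (ex_inj h hh hc.symm))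
    rw [Finset.sum_congr rfl h6, Finset.sum_ite_eq']
    split_ifs with h7
    · rfl
    · exact (MvPolynomial.notMem_support_iff.mp h7).symm
  ext m0
  rw [← h1 m0, hp]
  simp

end

end EMBAux

open Cardinal in
/-- block EMB -/
theorem stmt_EMB : Stmt_EMB := by
  classical
  intro κ _ h a hh ha
  set t : κ → HahnSeries ℝ ℚ := fun v => HahnSeries.single (h v) (1 : ℚ) with ht
  have hti : AlgebraicIndependent ℚ t := EMBAux.algInd h hh
  have htinj : Function.Injective t := hti.injective
  have hainj : Function.Injective a := ha.injective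
  obtain ⟨B, hB1, hB2⟩ := exists_isTranscendenceBasis_superset (R := ℚ) (s := Set.range t)
    hti.coe_range
  obtain ⟨B', hB1', hB2'⟩ := exists_isTranscendenceBasis_superset (R := ℚ) (s := Set.range a)
    ha.coe_range
  have hcB' : #B' = 𝔠 := by
    have h1 := IsAlgClosed.cardinal_eq_cardinal_transcendence_basis_of_aleph0_lt' (R := ℚ)
      (fun x : B' => (x : ℂ)) hB2' mk_le_aleph0 (by rw [Cardinal.mk_complex]; exact aleph0_lt_continuum)
    rw [← h1, Cardinal.mk_complex]
  have hcB : #B ≤ 𝔠 := (mk_subtype_le _).trans EMBAux.card_hahn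
  have hle : #(B \ Set.range t : Set (HahnSeries ℝ ℚ)) ≤ #(B' \ Set.range a : Set ℂ) := by
    have h1 : #(B \ Set.range t : Set (HahnSeries ℝ ℚ)) ≤ 𝔠 :=
      (mk_le_mk_of_subset Set.sdiff_subset).trans hcB
    refine h1.trans ?_
    by_contra hlt
    push Not at hlt
    have h2 : #(B' \ Set.range a : Set ℂ) + #(Set.range a) = #B' := mk_sdiff_add_mk hB1'
    have h3 : #(Set.range a) < 𝔠 :=
      (lt_aleph0_of_finite (Set.range a)).trans aleph0_lt_continuum
    have h4 := add_lt_of_lt aleph0_le_continuum hlt h3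
    rw [h2, hcB'] at h4
    exact lt_irrefl _ h4
  obtain ⟨j⟩ := hle
  have hch : ∀ b : B, b.1 ∈ Set.range t → ∃ v, t v = b.1 := fun b hb => hb
  let g : B → B' := fun b => if hb : b.1 ∈ Set.range t then ⟨a hb.choose, hB1' ⟨_, rfl⟩⟩
    else ⟨(j ⟨b.1, b.2, hb⟩).1, (j ⟨b.1, b.2, hb⟩).2.1⟩
  have hg1 : ∀ (b : B) (hb : b.1 ∈ Set.range t), (g b).1 = a hb.choose := by
    intro b hb
    simp only [g]
    rw [dif_pos hb]
  have hg2 : ∀ (b : B) (hb : b.1 ∉ Set.range t), (g b).1 = (j ⟨b.1, b.2, hb⟩).1 := by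
    intro b hb
    simp only [g]
    rw [dif_neg hb]
  have hginj : Function.Injective g := by
    intro b b' hbb
    have hbb' : (g b).1 = (g b').1 := congrArg Subtype.val hbb
    by_cases hb : b.1 ∈ Set.range t
    · by_cases hb' : b'.1 ∈ Set.range t
      · rw [hg1 b hb, hg1 b' hb'] at hbb'
        apply Subtype.ext
        rw [← hb.choose_spec, ← hb'.choose_spec, hainj hbb']
      · exfalso
        rw [hg1 b hb, hg2 b' hb'] at hbb'
        exact (j ⟨b'.1, b'.2, hb'⟩).2.2 ⟨_, hbb'⟩
    · by_cases hb' : b'.1 ∈ Set.range t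
      · exfalso
        rw [hg2 b hb, hg1 b' hb'] at hbb'
        exact (j ⟨b.1, b.2, hb⟩).2.2 ⟨_, hbb'.symm⟩
      · rw [hg2 b hb, hg2 b' hb'] at hbb'
        have h1 := j.injective (Subtype.ext hbb')
        have h2 := congrArg (fun z : (B \ Set.range t : Set (HahnSeries ℝ ℚ)) => z.1) h1
        exact Subtype.ext h2
  obtain ⟨f, hf⟩ := EMBAux.extend (fun x : B => (x : HahnSeries ℝ ℚ))
    (fun b => ((g b : B') : ℂ)) hB2 (hB2'.1.comp g hginj)
  refine ⟨f, ?_⟩
  intro v
  have hv : t v ∈ B := hB1 ⟨v, rfl⟩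
  have h1 := hf ⟨t v, hv⟩
  have h2 : (t v) ∈ Set.range t := ⟨v, rfl⟩
  have h3 := hg1 ⟨t v, hv⟩ h2
  have h4 : h2.choose = v := htinj h2.choose_spec
  rw [h3, h4] at h1
  exact h1

end Pool.Agent.Mono.NP
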