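import Pool.Agent.Work.Monodromy.Interface12C

/-! # Phase 12, part I, block EMP: only thick faces of cells are not empty (helper39) -/

set_option autoImplicit false
set_option linter.unusedSectionVars false

namespace Pool.Agent.Mono.NP

namespace EMPAux

open Finset

variable {ι κ : Type} [Fintype ι] [DecidableEq ι] [Fintype κ] [DecidableEq κ]

/-- real version of `hat` -/
noncomputable def Hr (w : κ → ι → ℕ) (v : κ ⊕ ι) (e : ι ⊕ Unit) : ℝ := (hat w v e : ℝ)

theorem zv_cast (w : κ → ι → ℕ) (v : κ ⊕ ι) (e : ι ⊕ Unit) :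
    ((zv w v e : ℤ) : ℝ) = Hr w v e := by
  unfold Hr zv hat
  rcases v with a | j <;> rcases e with i | u
  · simp
  · simp
  · simp only [Sum.elim_inl, Sum.elim_inr, Pi.single_apply]
    split_ifs <;> simp
  · simp

@[simp] theorem Hr_inl_inl (w : κ → ι → ℕ) (a : κ) (i : ι) :
    Hr w (Sum.inl a) (Sum.inl i) = w a i := by simp [Hr, hat]

@[simp] theorem Hr_inl_inr (w : κ → ι → ℕ) (a : κ) (i : Unit) :
    Hr w (Sum.inl a) (Sum.inr i) = 1 := by simp [Hr, hat]

@[simp] theorem Hr_inr_inl (w : κ → ι → ℕ) (j : ι) (i : ι) :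
    Hr w (Sum.inr j) (Sum.inl i) = if i = j then 1 else 0 := by
  simp only [Hr, hat, Sum.elim_inl, Sum.elim_inr, Pi.single_apply]
  split_ifs <;> simp

@[simp] theorem Hr_inr_inr (w : κ → ι → ℕ) (j : ι) (i : Unit) :
    Hr w (Sum.inr j) (Sum.inr i) = 0 := by simp [Hr, hat]

theorem zp_cast (w : κ → ι → ℕ) (y : ι ⊕ Unit → ℤ) (v : κ ⊕ ι) :
    ((zp w y v : ℤ) : ℝ) = ∑ e, Hr w v e * (y e : ℝ) := by
  unfold zp
  push_cast
  simp only [zv_cast]

theorem span_Hr [Nonempty κ] (w : κ → ι → ℕ) :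
    Submodule.span ℝ (Set.range (Hr w)) = ⊤ := by
  obtain ⟨a⟩ := ‹Nonempty κ›
  rw [eq_top_iff]
  intro x _
  have hx : x = x (Sum.inr ()) • Hr w (Sum.inl a) +
      ∑ j, (x (Sum.inl j) - x (Sum.inr ()) * w a j) • Hr w (Sum.inr j) := by
    funext e
    rw [Pi.add_apply, Finset.sum_apply]
    rcases e with i | u
    · simp
    · simp
  rw [hx]
  refine Submodule.add_mem _ (Submodule.smul_mem _ _ (Submodule.subset_span ⟨_, rfl⟩))
    (Submodule.sum_mem _ fun j _ => Submodule.smul_mem _ _ (Submodule.subset_span ⟨_, rfl⟩))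

/-- the dual basis of a basis -/
theorem bas (w : κ → ι → ℕ) (Δ : Finset (κ ⊕ ι)) (hcard : Δ.card = Fintype.card ι + 1)
    (hli : LinearIndepOn ℝ (Hr w) (Δ : Set (κ ⊕ ι))) :
    ∃ D : κ ⊕ ι → ι ⊕ Unit → ℚ,
      (∀ v ∈ Δ, ∀ u ∈ Δ, ∑ b, D v b * hat w u b = if u = v then 1 else 0) ∧
      ∀ b b', ∑ v ∈ Δ, D v b * hat w v b' = if b = b' then 1 else 0 := by
  classical
  have hc : Fintype.card Δ = Fintype.card (ι ⊕ Unit) := by
    rw [Fintype.card_coe, hcard, Fintype.card_sum, Fintype.card_unit]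
  set e : Δ ≃ ι ⊕ Unit := Fintype.equivOfCardEq hc with he
  set M : Matrix (ι ⊕ Unit) (ι ⊕ Unit) ℚ := Matrix.of fun a b => hat w (e.symm a) b with hM
  have hconv : ∀ (R : Type) [AddCommMonoid R] (f : κ ⊕ ι → R),
      ∑ v ∈ Δ, f v = ∑ a, f (e.symm a) := by
    intro R _ f
    rw [← Finset.sum_coe_sort Δ]
    exact (Equiv.sum_comp e.symm (fun v : Δ => f v)).symm
  have hdet : M.det ≠ 0 := by
    intro h0
    obtain ⟨c, hc0, hcM⟩ := Matrix.exists_vecMul_eq_zero_iff.2 h0
    apply hc0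
    rw [linearIndepOn_finset_iff] at hli
    have hx := hli (fun v => if hv : v ∈ Δ then (c (e ⟨v, hv⟩) : ℝ) else 0) (by
      rw [hconv]
      funext b
      have h1 := congrFun hcM b
      simp only [Matrix.vecMul, dotProduct, Pi.zero_apply] at h1
      have h2 : (((∑ x, c x * M x b : ℚ)) : ℝ) = 0 := by rw [h1]; simp
      rw [Finset.sum_apply, Pi.zero_apply, ← h2]
      push_cast
      refine Finset.sum_congr rfl fun a _ => ?_
      simp [hM, Hr])
    funext a
    have h2 := hx (e.symm a) (e.symm a).2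
    simpa using h2
  have hu : IsUnit M.det := isUnit_iff_ne_zero.2 hdet
  refine ⟨fun v b => if hv : v ∈ Δ then M⁻¹ b (e ⟨v, hv⟩) else 0, ?_, ?_⟩
  · intro v hv u hu'
    have h1 : (M * M⁻¹) (e ⟨u, hu'⟩) (e ⟨v, hv⟩) = if u = v then 1 else 0 := by
      rw [Matrix.mul_nonsing_inv _ hu, Matrix.one_apply]
      have h4 : (e ⟨u, hu'⟩ = e ⟨v, hv⟩) ↔ u = v := by
        rw [e.apply_eq_iff_eq, Subtype.mk.injEq]
      by_cases huv : u = v
      · rw [if_pos (h4.2 huv), if_pos huv]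
      · rw [if_neg (fun h => huv (h4.1 h)), if_neg huv]
    rw [← h1, Matrix.mul_apply]
    refine Finset.sum_congr rfl fun b _ => ?_
    beta_reduce
    rw [dif_pos hv, mul_comm]
    simp [hM]
  · intro b b'
    have h1 : (M⁻¹ * M) b b' = if b = b' then 1 else 0 := by
      rw [Matrix.nonsing_inv_mul _ hu, Matrix.one_apply]
    rw [← h1, Matrix.mul_apply, hconv]
    refine Finset.sum_congr rfl fun a _ => ?_
    simp [hM]

open Classical in
/-- the chosen dual basis -/
noncomputable def Dd (w : κ → ι → ℕ) (Δ : Finset (κ ⊕ ι)) : κ ⊕ ι → ι ⊕ Unit → ℚ :=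
  if h : ∃ D : κ ⊕ ι → ι ⊕ Unit → ℚ,
      (∀ v ∈ Δ, ∀ u ∈ Δ, ∑ b, D v b * hat w u b = if u = v then 1 else 0) ∧
      ∀ b b', ∑ v ∈ Δ, D v b * hat w v b' = if b = b' then 1 else 0 then h.choose else 0

/-- the coordinates of `uhat` -/
noncomputable def lam (w : κ → ι → ℕ) (Δ : Finset (κ ⊕ ι)) (u v : κ ⊕ ι) : ℚ :=
  ∑ b, Dd w Δ v b * hat w u b

/-- heights -/
def hh (h : κ → ℝ) : κ ⊕ ι → ℝ := Sum.elim h fun _ => 0

/-- the slack -/
noncomputable def sl (w : κ → ι → ℕ) (h : κ → ℝ) (Δ : Finset (κ ⊕ ι)) (u : κ ⊕ ι) : ℝ :=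
  hh h u - ∑ v ∈ Δ, (lam w Δ u v : ℝ) * hh h v

section

variable {w : κ → ι → ℕ} {Δ : Finset (κ ⊕ ι)} (hcard : Δ.card = Fintype.card ι + 1)
  (hli : LinearIndepOn ℝ (Hr w) (Δ : Set (κ ⊕ ι)))

include hcard hli

theorem Dd_spec : (∀ v ∈ Δ, ∀ u ∈ Δ, ∑ b, Dd w Δ v b * hat w u b = if u = v then 1 else 0) ∧
    ∀ b b', ∑ v ∈ Δ, Dd w Δ v b * hat w v b' = if b = b' then 1 else 0 := by
  have h := bas w Δ hcard hli
  unfold Dd
  rw [dif_pos h]
  exact h.choose_spec

theorem lam_self {u v : κ ⊕ ι} (hu : u ∈ Δ) (hv : v ∈ Δ) : lam w Δ u v = if u = v then 1 else 0 :=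
  (Dd_spec hcard hli).1 v hv u hu

/-- expansion of `uhat` -/
theorem hat_lam (u : κ ⊕ ι) (e : ι ⊕ Unit) :
    ∑ v ∈ Δ, lam w Δ u v * hat w v e = hat w u e := by
  unfold lam
  simp only [Finset.sum_mul]
  rw [Finset.sum_comm]
  have h1 : ∀ b, ∑ v ∈ Δ, Dd w Δ v b * hat w u b * hat w v e =
      if b = e then hat w u b else 0 := by
    intro b
    have h2 := (Dd_spec hcard hli).2 b e
    have h3 : ∑ v ∈ Δ, Dd w Δ v b * hat w u b * hat w v e =
        hat w u b * ∑ v ∈ Δ, Dd w Δ v b * hat w v e := by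
      rw [Finset.mul_sum]
      exact Finset.sum_congr rfl fun v _ => by ring
    rw [h3, h2]
    split_ifs <;> simp
  rw [Finset.sum_congr rfl fun b _ => h1 b]
  simp

theorem Hr_lam (u : κ ⊕ ι) (e : ι ⊕ Unit) :
    Hr w u e = ∑ v ∈ Δ, (lam w Δ u v : ℝ) * Hr w v e := by
  unfold Hr
  rw [← hat_lam hcard hli u e]
  push_cast
  rfl

theorem sl_mem (h : κ → ℝ) {u : κ ⊕ ι} (hu : u ∈ Δ) : sl w h Δ u = 0 := by
  unfold sl
  have : ∑ v ∈ Δ, (lam w Δ u v : ℝ) * hh h v = hh h u := by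
    have h1 : ∀ v ∈ Δ, (lam w Δ u v : ℝ) * hh h v = if u = v then hh h v else 0 := by
      intro v hv
      rw [lam_self hcard hli hu hv]
      split_ifs <;> simp
    rw [Finset.sum_congr rfl h1, Finset.sum_ite_eq, if_pos hu]
  rw [this, sub_self]

theorem sl_ne {h : κ → ℝ} (hh' : LinearIndependent ℚ h) {u : κ ⊕ ι} (hu : u ∉ Δ) :
    sl w h Δ u ≠ 0 := by
  intro h0
  classical
  have key : ∀ a : κ, (if u = Sum.inl a then (1 : ℚ) else 0) -
      (if Sum.inl a ∈ Δ then lam w Δ u (Sum.inl a) else 0) = 0 := by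
    rw [Fintype.linearIndependent_iff] at hh'
    apply hh'
    unfold sl at h0
    have h1 : hh h u = ∑ a, (if u = Sum.inl a then (1 : ℝ) else 0) * h a := by
      rcases u with a | j
      · simp [hh]
      · simp [hh]
    have h2 : ∑ v ∈ Δ, (lam w Δ u v : ℝ) * hh h v =
        ∑ a, (if Sum.inl a ∈ Δ then (lam w Δ u (Sum.inl a) : ℝ) else 0) * h a := by
      have h3 : ∑ v ∈ Δ, (lam w Δ u v : ℝ) * hh h v =
          ∑ v, (if v ∈ Δ then (lam w Δ u v : ℝ) * hh h v else 0) := by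
        rw [← Finset.sum_filter]
        congr 1
        ext v; simp
      rw [h3, Fintype.sum_sum_type]
      have h4 : ∑ j : ι, (if (Sum.inr j : κ ⊕ ι) ∈ Δ then
          (lam w Δ u (Sum.inr j) : ℝ) * hh h (Sum.inr j) else 0) = 0 := by
        apply Finset.sum_eq_zero
        intro j _
        simp [hh]
      rw [h4, add_zero]
      refine Finset.sum_congr rfl fun a _ => ?_
      by_cases ha : (Sum.inl a : κ ⊕ ι) ∈ Δ
      · rw [if_pos ha, if_pos ha]; rfl
      · rw [if_neg ha, if_neg ha, zero_mul]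
    rw [h1, h2, ← Finset.sum_sub_distrib] at h0
    rw [← h0]
    refine Finset.sum_congr rfl fun a _ => ?_
    rw [Rat.smul_def]
    push_cast
    split_ifs <;> (simp; try ring)
  rcases u with a | j
  · have := key a
    rw [if_pos rfl, if_neg hu] at this
    norm_num at this
  · have hl : ∀ a, Sum.inl a ∈ Δ → lam w Δ (Sum.inr j) (Sum.inl a) = 0 := by
      intro a ha
      have := key a
      rw [if_neg (by simp), if_pos ha] at this
      linarith
    have h1 := hat_lam hcard hli (Sum.inr j) (Sum.inl j)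
    have h2 : ∑ v ∈ Δ, lam w Δ (Sum.inr j) v * hat w v (Sum.inl j) = 0 := by
      apply Finset.sum_eq_zero
      rintro (a | i) hv
      · rw [hl a hv, zero_mul]
      · have : i ≠ j := by rintro rfl; exact hu hv
        simp [hat, this.symm]
    rw [h2] at h1
    simp [hat] at h1

/-- a basis with positive slacks is a maximal cell -/
theorem max_of_sl {h : κ → ℝ} (hs : ∀ u, u ∉ Δ → 0 < sl w h Δ u) : Δ ∈ maxCells w h := by
  classical
  -- the covector
  set Y : ι ⊕ Unit → ℝ := fun e => -∑ v ∈ Δ, hh h v * (Dd w Δ v e : ℝ) with hY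
  have hYu : ∀ u, ∑ e, Hr w u e * Y e + hh h u = sl w h Δ u := by
    intro u
    have h1 : ∑ e, Hr w u e * Y e = -∑ v ∈ Δ, (lam w Δ u v : ℝ) * hh h v := by
      have h2 : ∀ v, (lam w Δ u v : ℝ) * hh h v = ∑ e, hh h v * (Dd w Δ v e : ℝ) * Hr w u e := by
        intro v
        unfold lam Hr
        push_cast
        rw [Finset.sum_mul]
        exact Finset.sum_congr rfl fun b _ => by ring
      rw [Finset.sum_congr rfl fun v _ => h2 v, Finset.sum_comm, ← Finset.sum_neg_distrib]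
      refine Finset.sum_congr rfl fun e _ => ?_
      rw [hY]
      simp only
      rw [← Finset.sum_mul]
      ring
    rw [h1]
    unfold sl
    ring
  set k : ι → ℝ := fun i => Y (Sum.inl i) with hk
  have hinr : ∀ j, k j = sl w h Δ (Sum.inr j) := by
    intro j
    rw [← hYu]
    rw [Fintype.sum_sum_type]
    simp [hh, hk]
  have hinl : ∀ a, hval w h k a + Y (Sum.inr ()) = sl w h Δ (Sum.inl a) := by
    intro a
    rw [← hYu, Fintype.sum_sum_type]
    simp only [hval, Hr_inl_inl, Hr_inl_inr, hh, hk, Sum.elim_inl, Finset.univ_unique,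
      Finset.sum_singleton, one_mul]
    have : ∑ i, Y (Sum.inl i) * (w a i : ℝ) = ∑ i, (w a i : ℝ) * Y (Sum.inl i) :=
      Finset.sum_congr rfl fun i _ => by ring
    rw [this]
    have hu : (PUnit.unit : Unit) = () := rfl
    have hd : (default : Unit) = () := rfl
    rw [hd]
    ring
  have hnn : ∀ u, 0 ≤ sl w h Δ u := by
    intro u
    by_cases hu : u ∈ Δ
    · rw [sl_mem hcard hli h hu]
    · exact (hs u hu).le
  have hiff : ∀ u, sl w h Δ u = 0 ↔ u ∈ Δ := by
    intro u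
    constructor
    · intro h0
      by_contra hu
      exact absurd h0 (hs u hu).ne'
    · exact fun hu => sl_mem hcard hli h hu
  -- some `inl a` belongs to `Δ`
  have hex : ∃ a, Sum.inl a ∈ Δ := by
    by_contra hno
    push Not at hno
    have h1 := (Dd_spec hcard hli).2 (Sum.inr ()) (Sum.inr ())
    rw [if_pos rfl] at h1
    have h2 : ∑ v ∈ Δ, Dd w Δ v (Sum.inr ()) * hat w v (Sum.inr ()) = 0 := by
      apply Finset.sum_eq_zero
      rintro (a | i) hv
      · exact absurd hv (hno a)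
      · simp [hat]
    rw [h2] at h1
    norm_num at h1
  obtain ⟨a₀, ha₀⟩ := hex
  unfold maxCells
  rw [Finset.mem_filter]
  refine ⟨Finset.mem_univ _, hcard, k, ?_, ?_⟩
  · intro i
    rw [hinr]; exact hnn _
  · ext u
    unfold cell
    rw [Finset.mem_filter]
    simp only [Finset.mem_univ, true_and]
    rcases u with a | j
    · simp only [Sum.elim_inl]
      rw [← hiff]
      constructor
      · intro h0 b
        have h1 := hinl a
        have h2 := hinl b
        have h3 := hnn (Sum.inl b)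
        linarith
      · intro hb
        have h1 := hinl a
        have h2 := hinl a₀
        rw [(hiff _).2 ha₀] at h2
        have h3 := hb a₀
        have h4 := hnn (Sum.inl a)
        linarith
    · simp only [Sum.elim_inr]
      rw [← hiff, hinr]

end

end EMPAux

open EMPAux in
theorem stmt_EMP (hV : Stmt_VERT) : Stmt_EMP := by
  classical
  intro ι κ _ _ _ _ _ w h hh' M R
  set cb : Finset (κ ⊕ ι) → κ ⊕ ι → ℝ := fun Δ u =>
    |R| + (∑ v ∈ Δ, |(lam w Δ u v : ℝ)|) * |R| + (∑ v ∈ Δ, |(lam w Δ u v : ℝ)|) * M + M with hcb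
  have hcb0 : ∀ Δ u, 0 ≤ cb Δ u := by
    intro Δ u
    have h1 : 0 ≤ ∑ v ∈ Δ, |(lam w Δ u v : ℝ)| := Finset.sum_nonneg fun _ _ => abs_nonneg _
    have h2 := abs_nonneg R
    simp only [hcb]
    positivity
  refine ⟨∑ Δ : Finset (κ ⊕ ι), ∑ u : κ ⊕ ι, (cb Δ u + 1) / |sl w h Δ u|, ?_⟩
  intro K hK g hg C hne
  obtain ⟨y, hy0, hyC⟩ := hne
  -- the vertex
  obtain ⟨ys, h1, -, h3⟩ := hV (ι ⊕ Unit) ((κ ⊕ ι) ⊕ C)
    (Sum.elim (fun v => Hr w v) fun v => -Hr w (v : κ ⊕ ι))
    (Sum.elim (fun v => (g v : ℝ)) fun v => (M : ℝ) - (g (v : κ ⊕ ι) : ℝ))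
    (fun e => (y e : ℝ)) (by
      rw [eq_top_iff, ← span_Hr w]
      apply Submodule.span_mono
      rintro _ ⟨v, rfl⟩
      exact ⟨Sum.inl v, rfl⟩) (by
      rintro (v | v)
      · simp only [Sum.elim_inl]
        rw [← zp_cast]
        exact_mod_cast hy0 v
      · simp only [Sum.elim_inr, Pi.neg_apply, neg_mul, Finset.sum_neg_distrib]
        rw [← zp_cast]
        have := hyC v v.2
        have h2 : ((zp w y v : ℤ) : ℝ) + (g v : ℝ) ≤ M := by exact_mod_cast this.le
        linarith)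
  set x : κ ⊕ ι → ℝ := fun v => ∑ e, Hr w v e * ys e + g v with hx
  have hx0 : ∀ v, 0 ≤ x v := fun v => h1 (Sum.inl v)
  have hxM : ∀ v ∈ C, x v ≤ M := by
    intro v hv
    have := h1 (Sum.inr ⟨v, hv⟩)
    simp only [Sum.elim_inr, Pi.neg_apply, neg_mul, Finset.sum_neg_distrib] at this
    simp only [hx]
    linarith
  set S0 : Set (κ ⊕ ι) := {v | x v = 0 ∨ x v = M} with hS0
  have hspan : Submodule.span ℝ (Hr w '' S0) = ⊤ := by
    rw [eq_top_iff, ← h3, Submodule.span_le]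
    rintro _ ⟨t, ht, rfl⟩
    rcases t with v | v
    · simp only [Set.mem_ofPred_eq, Sum.elim_inl] at ht ⊢
      exact Submodule.subset_span ⟨v, Or.inl ht, rfl⟩
    · simp only [Set.mem_ofPred_eq, Sum.elim_inr, Pi.neg_apply, neg_mul,
        Finset.sum_neg_distrib] at ht ⊢
      apply Submodule.neg_mem
      refine Submodule.subset_span ⟨v, Or.inr ?_, rfl⟩
      simp only [hx]
      linarith
  obtain ⟨b, hbS, -, hbspan, hbli⟩ := exists_linearIndepOn_extension
    (linearIndepOn_empty ℝ (Hr w)) (Set.empty_subset S0)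
  set Δ : Finset (κ ⊕ ι) := (Set.toFinite b).toFinset with hΔ
  have hΔb : (Δ : Set (κ ⊕ ι)) = b := (Set.toFinite b).coe_toFinset
  have hli : LinearIndepOn ℝ (Hr w) (Δ : Set (κ ⊕ ι)) := by rw [hΔb]; exact hbli
  have htop : Submodule.span ℝ (Hr w '' (Δ : Set (κ ⊕ ι))) = ⊤ := by
    rw [hΔb, eq_top_iff, ← hspan, Submodule.span_le]
    exact hbspan
  have hcard : Δ.card = Fintype.card ι + 1 := by
    have h4 := finrank_span_eq_card hli
    have h5 : Set.range (fun v : ((Δ : Set (κ ⊕ ι)) : Type) => Hr w v) =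
        Hr w '' (Δ : Set (κ ⊕ ι)) := by
      ext z; simp
    rw [h5, htop, finrank_top, Module.finrank_fintype_fun_eq_card] at h4
    rw [Fintype.card_sum, Fintype.card_unit] at h4
    rw [h4]
    simp
  -- the estimate
  have hR : 0 ≤ R := (abs_nonneg _).trans (hg.1 (Classical.arbitrary κ))
  have hgR : ∀ v, |(g v : ℝ) - K * hh h v| ≤ |R| := by
    intro v
    rw [abs_of_nonneg hR]
    rcases v with a | j
    · exact hg.1 a
    · have := hg.2 j
      simpa [hh] using this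
  have hest : ∀ u, |x u - K * sl w h Δ u| ≤ cb Δ u - M := by
    intro u
    have e1 : ∑ e, Hr w u e * ys e = ∑ v ∈ Δ, (lam w Δ u v : ℝ) * (x v - g v) := by
      have e2 : ∀ v, (lam w Δ u v : ℝ) * (x v - g v) =
          ∑ e, (lam w Δ u v : ℝ) * Hr w v e * ys e := by
        intro v
        simp only [hx, add_sub_cancel_right]
        rw [Finset.mul_sum]
        exact Finset.sum_congr rfl fun e _ => by ring
      rw [Finset.sum_congr rfl fun v _ => e2 v, Finset.sum_comm]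
      refine Finset.sum_congr rfl fun e _ => ?_
      rw [Hr_lam hcard hli u e, Finset.sum_mul]
    have e3 : x u - K * sl w h Δ u = (g u - K * hh h u) -
        ∑ v ∈ Δ, (lam w Δ u v : ℝ) * (g v - K * hh h v) + ∑ v ∈ Δ, (lam w Δ u v : ℝ) * x v := by
      have e4 : x u = ∑ v ∈ Δ, (lam w Δ u v : ℝ) * (x v - g v) + g u := by
        rw [← e1]
      rw [e4]
      unfold sl
      simp only [mul_sub, Finset.sum_sub_distrib, Finset.mul_sum]
      have e5 : ∑ v ∈ Δ, K * ((lam w Δ u v : ℝ) * hh h v) =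
          ∑ v ∈ Δ, (lam w Δ u v : ℝ) * (K * hh h v) :=
        Finset.sum_congr rfl fun v _ => by ring
      rw [e5]
      ring
    have e6 : |∑ v ∈ Δ, (lam w Δ u v : ℝ) * (g v - K * hh h v)| ≤
        (∑ v ∈ Δ, |(lam w Δ u v : ℝ)|) * |R| := by
      refine (Finset.abs_sum_le_sum_abs _ _).trans ?_
      rw [Finset.sum_mul]
      refine Finset.sum_le_sum fun v _ => ?_
      rw [abs_mul]
      exact mul_le_mul_of_nonneg_left (hgR v) (abs_nonneg _)
    have e7 : |∑ v ∈ Δ, (lam w Δ u v : ℝ) * x v| ≤ (∑ v ∈ Δ, |(lam w Δ u v : ℝ)|) * M := by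
      refine (Finset.abs_sum_le_sum_abs _ _).trans ?_
      rw [Finset.sum_mul]
      refine Finset.sum_le_sum fun v hv => ?_
      rw [abs_mul]
      refine mul_le_mul_of_nonneg_left ?_ (abs_nonneg _)
      have hvS : v ∈ S0 := by
        apply hbS
        rw [← hΔb]
        exact hv
      rcases hvS with h0 | h0
      · rw [h0, abs_zero]; exact Nat.cast_nonneg _
      · rw [h0, abs_of_nonneg (Nat.cast_nonneg M)]
    rw [e3]
    have e8 := hgR u
    have e9 := abs_add_le ((g u - K * hh h u) -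
        ∑ v ∈ Δ, (lam w Δ u v : ℝ) * (g v - K * hh h v)) (∑ v ∈ Δ, (lam w Δ u v : ℝ) * x v)
    have e10 := abs_sub (g u - K * hh h u) (∑ v ∈ Δ, (lam w Δ u v : ℝ) * (g v - K * hh h v))
    simp only [hcb]
    linarith
  -- `K` is large
  have hKu : ∀ u, u ∉ Δ → cb Δ u < K * |sl w h Δ u| := by
    intro u hu
    have hne := sl_ne hcard hli hh' hu
    have hpos : 0 < |sl w h Δ u| := abs_pos.2 hne
    have hle : (cb Δ u + 1) / |sl w h Δ u| ≤ K := by
      refine le_trans ?_ hK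
      have hnn : ∀ Δ' : Finset (κ ⊕ ι), ∀ u' : κ ⊕ ι, 0 ≤ (cb Δ' u' + 1) / |sl w h Δ' u'| :=
        fun Δ' u' => div_nonneg (by have := hcb0 Δ' u'; linarith) (abs_nonneg _)
      refine le_trans ?_ (Finset.single_le_sum
        (f := fun Δ' : Finset (κ ⊕ ι) => ∑ u' : κ ⊕ ι, (cb Δ' u' + 1) / |sl w h Δ' u'|)
        (fun Δ' _ => Finset.sum_nonneg fun u' _ => hnn Δ' u') (Finset.mem_univ Δ))
      exact Finset.single_le_sum (f := fun u' : κ ⊕ ι => (cb Δ u' + 1) / |sl w h Δ u'|)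
        (fun u' _ => hnn Δ u') (Finset.mem_univ u)
    rw [div_le_iff₀ hpos] at hle
    linarith
  have hspos : ∀ u, u ∉ Δ → 0 < sl w h Δ u := by
    intro u hu
    by_contra hneg
    push Not at hneg
    have h4 := hKu u hu
    have h5 := hest u
    have h6 := (abs_le.1 h5).2
    rw [abs_of_nonpos hneg] at h4
    have h7 := hx0 u
    have h8 : (0 : ℝ) ≤ M := Nat.cast_nonneg M
    linarith
  refine ⟨Δ, max_of_sl hcard hli hspos, ?_⟩
  intro u hu
  by_contra hnu
  have h4 := hKu u hnu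
  have h5 := hest u
  have h6 := (abs_le.1 h5).1
  rw [abs_of_pos (hspos u hnu)] at h4
  have h7 := hxM u hu
  linarith

end Pool.Agent.Mono.NP
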