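import Pool.Agent.Work.Monodromy.Interface12C

/-!
# Phase 12, block EXCH: the zeta function at `T = u^{-s}` (helper9)
-/

set_option autoImplicit false

namespace Pool.Agent.Mono.NP

open Filter Topology

namespace EXCHAux

set_option linter.unusedSectionVars false

variable {ι κ : Type} [Fintype ι] [DecidableEq ι] [Fintype κ] [DecidableEq κ]

/-- the geometric sum over `ℕ^ι` -/
theorem summable_pow (r : ℝ) (h0 : 0 ≤ r) (h1 : r < 1) :
    Summable fun k : ι → ℕ => r ^ (∑ i, k i) := by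
  classical
  refine summable_of_sum_le (c := ∏ _i : ι, (1 - r)⁻¹) (fun k => pow_nonneg h0 _) fun S => ?_
  obtain ⟨N, hN⟩ : ∃ N : ℕ, ∀ k ∈ S, ∀ i, k i < N := by
    refine ⟨(S.sup fun k => Finset.univ.sup k) + 1, fun k hk i => ?_⟩
    have h2 : k i ≤ Finset.univ.sup k := Finset.le_sup (f := k) (Finset.mem_univ i)
    have h3 : Finset.univ.sup k ≤ S.sup fun k => Finset.univ.sup k :=
      Finset.le_sup (f := fun k : ι → ℕ => Finset.univ.sup k) hk
    omega
  calc ∑ k ∈ S, r ^ (∑ i, k i)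
      ≤ ∑ k ∈ Fintype.piFinset fun _ : ι => Finset.range N, r ^ (∑ i, k i) := by
        refine Finset.sum_le_sum_of_subset_of_nonneg (fun k hk => ?_)
          fun k _ _ => pow_nonneg h0 _
        rw [Fintype.mem_piFinset]
        exact fun i => Finset.mem_range.2 (hN k hk i)
    _ = ∏ _i : ι, ∑ j ∈ Finset.range N, r ^ j := by
        rw [Finset.prod_univ_sum]
        refine Finset.sum_congr rfl fun k _ => ?_
        rw [Finset.prod_pow_eq_pow_sum]
    _ ≤ ∏ _i : ι, (1 - r)⁻¹ := by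
        refine Finset.prod_le_prod (fun i _ => Finset.sum_nonneg fun j _ => pow_nonneg h0 _)
          fun i _ => ?_
        rw [← tsum_geometric_of_lt_one h0 h1]
        exact (summable_geometric_of_lt_one h0 h1).sum_le_tsum _ fun j _ => pow_nonneg h0 _

/-- `ct` at `K = mnk + j` -/
theorem ct_add (E : HodgeMeasure) (w : κ → ι → ℕ) (a : κ → ℂ) (d : ℕ) (u : ℝ) (k : ι → ℕ)
    (j : ℕ) :
    ct E w a d (mnk w k + j) u k = u⁻¹ ^ (∑ i, k i) *
      (if j = 0 then Polynomial.aeval u (E.val (WF w a d (fc w k)))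
      else Polynomial.aeval u (E.val (VF w a (fc w k))) * (u - 1) * u⁻¹ ^ j) := by
  rw [ct]
  congr 1
  by_cases hj : j = 0
  · subst hj; simp
  · rw [if_neg (by omega), if_pos (by omega), if_neg hj, Nat.add_sub_cancel_left]

theorem ct_of_lt (E : HodgeMeasure) (w : κ → ι → ℕ) (a : κ → ℂ) (d K : ℕ) (u : ℝ) (k : ι → ℕ)
    (h : K < mnk w k) : ct E w a d K u k = 0 := by
  rw [ct, if_neg (by omega), if_neg (by omega), mul_zero]

/-- the double series is summable -/
theorem summable_ct (E : HodgeMeasure) (w : κ → ι → ℕ) (a : κ → ℂ) (d : ℕ) (u : ℝ) (s : ℕ)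
    (hu : 1 < u) :
    Summable fun p : (ι → ℕ) × ℕ => ct E w a d p.2 u p.1 * u⁻¹ ^ (p.2 * s) := by
  have hr0 : (0 : ℝ) ≤ u⁻¹ := inv_nonneg.2 (by linarith)
  have hr1 : u⁻¹ < 1 := inv_lt_one_of_one_lt₀ hu
  have hinj : Function.Injective fun p : (ι → ℕ) × ℕ => (p.1, mnk w p.1 + p.2) := by
    rintro ⟨k, j⟩ ⟨k', j'⟩ hp
    simp only [Prod.mk.injEq] at hp
    obtain ⟨rfl, h2⟩ := hp
    simp only [Prod.mk.injEq, true_and]
    omega
  rw [← hinj.summable_iff]
  · obtain ⟨c, hc⟩ : ∃ c : ℝ, ∀ F : Finset κ,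
        |Polynomial.aeval u (E.val (WF w a d F))| + |Polynomial.aeval u (E.val (VF w a F))| ≤ c := by
      obtain ⟨c, hc⟩ := (Set.finite_range fun F : Finset κ =>
        |Polynomial.aeval u (E.val (WF w a d F))| +
          |Polynomial.aeval u (E.val (VF w a F))|).bddAbove
      exact ⟨c, fun F => hc ⟨F, rfl⟩⟩
    have hc0 : 0 ≤ c := (add_nonneg (abs_nonneg _) (abs_nonneg _)).trans (hc ∅)
    refine Summable.of_norm_bounded
      (g := fun p : (ι → ℕ) × ℕ => (c * u) * (u⁻¹ ^ (∑ i, p.1 i) * u⁻¹ ^ p.2)) ?_ ?_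
    · exact ((summable_pow (ι := ι) u⁻¹ hr0 hr1).mul_of_nonneg
        (summable_geometric_of_lt_one hr0 hr1) (fun k => pow_nonneg hr0 _)
        fun j => pow_nonneg hr0 _).mul_left _
    · rintro ⟨k, j⟩
      simp only [Function.comp_apply]
      rw [ct_add, norm_mul, norm_mul, Real.norm_eq_abs, Real.norm_eq_abs, Real.norm_eq_abs,
        abs_of_nonneg (pow_nonneg hr0 (∑ i, k i)),
        abs_of_nonneg (pow_nonneg hr0 ((mnk w k + j) * s))]
      have h1 : u⁻¹ ^ ((mnk w k + j) * s) ≤ 1 := pow_le_one₀ hr0 hr1.le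
      have h2 : |if j = 0 then Polynomial.aeval u (E.val (WF w a d (fc w k)))
          else Polynomial.aeval u (E.val (VF w a (fc w k))) * (u - 1) * u⁻¹ ^ j| ≤
          c * u * u⁻¹ ^ j := by
        have h3 := hc (fc w k)
        by_cases hj : j = 0
        · rw [if_pos hj, hj, pow_zero, mul_one]
          have h4 : |Polynomial.aeval u (E.val (WF w a d (fc w k)))| ≤ c :=
            le_trans (le_add_of_nonneg_right (abs_nonneg _)) h3
          nlinarith
        · rw [if_neg hj, abs_mul, abs_mul, abs_of_nonneg (pow_nonneg hr0 j),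
            abs_of_nonneg (by linarith : (0 : ℝ) ≤ u - 1)]
          refine mul_le_mul_of_nonneg_right ?_ (pow_nonneg hr0 j)
          have h4 : |Polynomial.aeval u (E.val (VF w a (fc w k)))| ≤ c :=
            le_trans (le_add_of_nonneg_left (abs_nonneg _)) h3
          refine mul_le_mul h4 (by linarith) (by linarith) hc0
      calc u⁻¹ ^ (∑ i, k i) * |if j = 0 then Polynomial.aeval u (E.val (WF w a d (fc w k)))
            else Polynomial.aeval u (E.val (VF w a (fc w k))) * (u - 1) * u⁻¹ ^ j| *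
            u⁻¹ ^ ((mnk w k + j) * s)
          ≤ u⁻¹ ^ (∑ i, k i) * (c * u * u⁻¹ ^ j) * 1 := by
            refine mul_le_mul (mul_le_mul_of_nonneg_left h2 (pow_nonneg hr0 _)) h1
              (pow_nonneg hr0 _) ?_
            have := pow_nonneg hr0 (∑ i, k i)
            have h5 := pow_nonneg hr0 j
            positivity
        _ = c * u * (u⁻¹ ^ (∑ i, k i) * u⁻¹ ^ j) := by ring
  · rintro ⟨k, K⟩ hK
    have h1 : K < mnk w k := by
      by_contra hcon
      push Not at hcon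
      exact hK ⟨(k, K - mnk w k), by simp [Nat.add_sub_cancel' hcon]⟩
    simp only
    rw [ct_of_lt E w a d K u k h1, zero_mul]

/-- the sum over `K` for fixed `k` -/
theorem hasSum_K (E : HodgeMeasure) (w : κ → ι → ℕ) (a : κ → ℂ) (d : ℕ) (u : ℝ) (s : ℕ)
    (hu : 1 < u) (k : ι → ℕ) :
    HasSum (fun K : ℕ => ct E w a d K u k * u⁻¹ ^ (K * s))
      (u⁻¹ ^ (∑ i, k i + s * mnk w k) *
        (Polynomial.aeval u (E.val (WF w a d (fc w k))) +
          Polynomial.aeval u (E.val (VF w a (fc w k))) * ((u - 1) / (u ^ (s + 1) - 1)))) := by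
  have hr0 : (0 : ℝ) ≤ u⁻¹ := inv_nonneg.2 (by linarith)
  have hr1 : u⁻¹ < 1 := inv_lt_one_of_one_lt₀ hu
  have hu0 : u ≠ 0 := by linarith
  have hinj : Function.Injective fun j : ℕ => mnk w k + j := fun j j' h => by
    simpa using h
  rw [← hinj.hasSum_iff]
  · set W := Polynomial.aeval u (E.val (WF w a d (fc w k))) with hW
    set V := Polynomial.aeval u (E.val (VF w a (fc w k))) with hV
    have hq1 : u⁻¹ ^ (s + 1) < 1 := pow_lt_one₀ hr0 hr1 (by omega)
    have h1 := (hasSum_geometric_of_lt_one (pow_nonneg hr0 (s + 1)) hq1).mul_left (V * (u - 1))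
    have h2 : HasSum (fun j : ℕ => if j = 0 then W - V * (u - 1) else 0) (W - V * (u - 1)) :=
      hasSum_ite_eq 0 _
    have h3 := (h1.add h2).mul_left (u⁻¹ ^ (∑ i, k i + s * mnk w k))
    have h4 : u ^ (s + 1) - 1 ≠ 0 := by
      have := one_lt_pow₀ hu (by omega : s + 1 ≠ 0)
      linarith
    have hval : V * (u - 1) * (1 - u⁻¹ ^ (s + 1))⁻¹ + (W - V * (u - 1)) =
        W + V * ((u - 1) / (u ^ (s + 1) - 1)) := by
      have h5 : (1 - u⁻¹ ^ (s + 1))⁻¹ = u ^ (s + 1) / (u ^ (s + 1) - 1) := by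
        rw [inv_pow]
        field_simp
      rw [h5]
      field_simp
      ring
    rw [hval] at h3
    have h6 : ((fun K : ℕ => ct E w a d K u k * u⁻¹ ^ (K * s)) ∘ fun j : ℕ => mnk w k + j) =
        fun j : ℕ => u⁻¹ ^ (∑ i, k i + s * mnk w k) *
          (V * (u - 1) * (u⁻¹ ^ (s + 1)) ^ j + if j = 0 then W - V * (u - 1) else 0) := by
      funext j
      simp only [Function.comp_apply]
      rw [ct_add, ← hW, ← hV]
      have h7 : u⁻¹ ^ ((mnk w k + j) * s) = u⁻¹ ^ (s * mnk w k) * u⁻¹ ^ (j * s) := by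
        rw [← pow_add]; congr 1; ring
      have h8 : (u⁻¹ ^ (s + 1)) ^ j = u⁻¹ ^ j * u⁻¹ ^ (j * s) := by
        rw [← pow_mul, ← pow_add]; congr 1; ring
      rw [h7, h8, pow_add u⁻¹ (∑ i, k i)]
      by_cases hj : j = 0
      · subst hj
        rw [if_pos rfl, if_pos rfl, pow_zero, zero_mul, pow_zero]
        ring
      · rw [if_neg hj, if_neg hj]; ring
    rw [h6]
    exact h3
  · intro K hK
    have h1 : K < mnk w k := by
      by_contra hcon
      push Not at hcon
      exact hK ⟨K - mnk w k, by simp [Nat.add_sub_cancel' hcon]⟩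
    rw [ct_of_lt E w a d K u k h1, zero_mul]

end EXCHAux

open EXCHAux

theorem stmt_EXCH (hS : Stmt_SUMK) : Stmt_EXCH := by
  intro ι κ _ _ _ _ _ w a E d u s hNd hd hu
  have hu0 : (0 : ℝ) < u := by linarith
  have key : ∀ s : ℕ, HasSum (fun K : ℕ => Polynomial.aeval u (E.val (jetSet (poly w a) d K)) *
        u⁻¹ ^ (K * Fintype.card ι) * u⁻¹ ^ (K * s))
      (∑' p : (ι → ℕ) × ℕ, ct E w a d p.2 u p.1 * u⁻¹ ^ (p.2 * s)) := by
    intro s
    have h1 := (summable_ct E w a d u s hu).hasSum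
    have h2 : HasSum (fun p : ℕ × (ι → ℕ) => ct E w a d p.1 u p.2 * u⁻¹ ^ (p.1 * s))
        (∑' p : (ι → ℕ) × ℕ, ct E w a d p.2 u p.1 * u⁻¹ ^ (p.2 * s)) :=
      (Equiv.prodComm ℕ (ι → ℕ)).hasSum_iff.2 h1
    exact h2.prod_fiberwise fun K => (hS ι κ w a E d K u hNd hd hu).mul_right _
  refine ⟨?_, ?_⟩
  · have h1 := (key 0).summable.abs
    refine h1.congr fun K => ?_
    rw [mul_zero, pow_zero, mul_one, abs_mul, abs_of_pos (pow_pos (inv_pos.2 hu0) _)]
  · rw [(key s).tsum_eq]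
    exact (summable_ct E w a d u s hu).hasSum.prod_fiberwise fun k =>
      hasSum_K E w a d u s hu k

end Pool.Agent.Mono.NP
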