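import Pool.Agent.Work.Monodromy.Interface12C

/-!
# Phase 12, part I, FAC: the limits of the sums over faces (helper79)
-/

set_option autoImplicit false
set_option linter.unusedSectionVars false

namespace Pool.Agent.Mono.NP

open MvPolynomial Filter Topology

namespace FACAux

section

variable {ι κ : Type} [Fintype ι] [DecidableEq ι] [Fintype κ] [DecidableEq κ]

lemma zp_add (w : κ → ι → ℕ) (y z : ι ⊕ Unit → ℤ) (v : κ ⊕ ι) :
    zp w (y + z) v = zp w y v + zp w z v := by
  unfold zp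
  rw [← Finset.sum_add_distrib]
  exact Finset.sum_congr rfl fun e _ => by rw [Pi.add_apply]; ring

lemma ph_add (p : ι ⊕ Unit → ℝ) (y z : ι ⊕ Unit → ℤ) : ph p (y + z) = ph p y + ph p z := by
  unfold ph
  rw [← Finset.sum_add_distrib]
  exact Finset.sum_congr rfl fun e _ => by rw [Pi.add_apply]; push_cast; ring

lemma zp_inl (w : κ → ι → ℕ) (y : ι ⊕ Unit → ℤ) (a : κ) :
    zp w y (Sum.inl a) = ∑ i, (w a i : ℤ) * y (Sum.inl i) + y (Sum.inr ()) := by
  simp [zp, zv]

lemma zp_inr (w : κ → ι → ℕ) (y : ι ⊕ Unit → ℤ) (j : ι) :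
    zp w y (Sum.inr j) = y (Sum.inl j) := by
  simp [zp, zv, Pi.single_apply]

lemma zp_cast (w : κ → ι → ℕ) (y : ι ⊕ Unit → ℤ) (v : κ ⊕ ι) :
    ((zp w y v : ℤ) : ℚ) = ∑ e, (y e : ℚ) * hat w v e := by
  unfold zp
  push_cast
  refine Finset.sum_congr rfl fun e _ => ?_
  rw [mul_comm]
  congr 1
  rcases v with a | j
  · rcases e with i | e
    · simp [zv, hat]
    · simp [zv, hat]
  · rcases e with i | e
    · simp only [zv, hat, Sum.elim_inr, Sum.elim_inl]
      by_cases hij : i = j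
      · subst hij; simp
      · simp [hij]
    · simp [zv, hat]

/-- if `z` is orthogonal to `C` then it is orthogonal to the span -/
lemma zp_span (w : κ → ι → ℕ) (z : ι ⊕ Unit → ℤ) (C : Finset (κ ⊕ ι))
    (hz : ∀ v ∈ C, zp w z v = 0) (u : κ ⊕ ι)
    (hu : hat w u ∈ Submodule.span ℚ (hat w '' (C : Set (κ ⊕ ι)))) : zp w z u = 0 := by
  have h1 : ∀ x ∈ Submodule.span ℚ (hat w '' (C : Set (κ ⊕ ι))), ∑ e, (z e : ℚ) * x e = 0 := by
    intro x hx
    induction hx using Submodule.span_induction with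
    | mem x hx =>
      obtain ⟨v, hv, rfl⟩ := hx
      rw [← zp_cast, hz v hv]
      simp
    | zero => simp
    | add x y _ _ hx hy =>
      simp only [Pi.add_apply, mul_add, Finset.sum_add_distrib, hx, hy, add_zero]
    | smul c x _ hx =>
      simp only [Pi.smul_apply, smul_eq_mul]
      have : ∀ e, (z e : ℚ) * (c * x e) = c * ((z e : ℚ) * x e) := fun e => by ring
      rw [Finset.sum_congr rfl fun e _ => this e, ← Finset.mul_sum, hx, mul_zero]
  have h2 := h1 _ hu
  rw [← zp_cast] at h2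
  exact_mod_cast h2

open Classical in
lemma card_max (w : κ → ι → ℕ) (h : κ → ℝ) {Δ : Finset (κ ⊕ ι)} (hΔ : Δ ∈ maxCells w h) :
    Δ.card = Fintype.card ι + 1 := by
  unfold maxCells at hΔ
  exact (Finset.mem_filter.1 hΔ).2.1

lemma indep_max (hDUAL : Stmt_DUAL) (w : κ → ι → ℕ) (h : κ → ℝ) (hh : LinearIndependent ℚ h)
    {Δ : Finset (κ ⊕ ι)} (hΔ : Δ ∈ maxCells w h) :
    LinearIndepOn ℚ (hat w) (Δ : Set (κ ⊕ ι)) := by
  rw [linearIndepOn_finset_iff]
  intro f hf v hv
  obtain ⟨-, hd, -⟩ := hDUAL ι κ w h hh Δ hΔ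
  have h1 : ∑ u ∈ Δ, f u * pr (dual w Δ v) (hat w u) = 0 := by
    have h2 : ∀ e, ∑ u ∈ Δ, f u * hat w u e = 0 := by
      intro e
      have := congrFun hf e
      simpa [Finset.sum_apply] using this
    unfold pr
    have h3 : ∀ u ∈ Δ, f u * ∑ e, dual w Δ v e * hat w u e =
        ∑ e, dual w Δ v e * (f u * hat w u e) := by
      intro u _
      rw [Finset.mul_sum]
      exact Finset.sum_congr rfl fun e _ => by ring
    rw [Finset.sum_congr rfl h3, Finset.sum_comm]
    refine Finset.sum_eq_zero fun e _ => ?_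
    rw [← Finset.mul_sum, h2, mul_zero]
  rw [Finset.sum_congr rfl fun u hu => by rw [hd v hv u hu]] at h1
  simpa [hv] using h1

end

end FACAux

open FACAux in
theorem stmt_FAC (hBRI : Stmt_BRI) (hGRO : Stmt_GRO) (hCNT : Stmt_CNT) (hDETI : Stmt_DETI)
    (hIDX : Stmt_IDX) (hAUTO : Stmt_AUTO) (hSUMU : Stmt_SUMU) (hDUAL : Stmt_DUAL) :
    Stmt_FAC := by
  classical
  intro ι κ _ _ _ _ _ w h hh p hp hgen C hC
  obtain ⟨hCne, Δ, hΔ, hCΔ⟩ : C.Nonempty ∧ ∃ Δ ∈ maxCells w h, inl C ⊆ Δ := by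
    unfold cls0 at hC
    exact (Finset.mem_filter.1 hC).2
  obtain ⟨a₀, ha₀⟩ := hCne
  have ha₀' : (Sum.inl a₀ : κ ⊕ ι) ∈ (inl C : Finset (κ ⊕ ι)) := by
    unfold inl
    exact Finset.mem_map.2 ⟨a₀, ha₀, rfl⟩
  have hinl : ∀ v, v ∈ (inl C : Finset (κ ⊕ ι)) ↔ ∃ a ∈ C, v = Sum.inl a := by
    intro v
    unfold inl
    rw [Finset.mem_map]
    constructor
    · rintro ⟨a, ha, rfl⟩; exact ⟨a, ha, rfl⟩
    · rintro ⟨a, ha, rfl⟩; exact ⟨a, ha, rfl⟩
  have hcardC : (inl C : Finset (κ ⊕ ι)).card = C.card := by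
    unfold inl
    exact Finset.card_map _
  have hindΔ := indep_max hDUAL w h hh hΔ
  have hindC : LinearIndepOn ℚ (hat w) ((inl C : Finset (κ ⊕ ι)) : Set (κ ⊕ ι)) :=
    hindΔ.mono (by exact_mod_cast hCΔ)
  have hCle : C.card ≤ Fintype.card ι + 1 := by
    rw [← hcardC, ← card_max w h hΔ]
    exact Finset.card_le_card hCΔ
  -- the modulus
  have hidx : ∀ Δ ∈ maxCells w h, 0 < (Lt w Δ).index := by
    intro Δ' hΔ'
    have h1 := (hDUAL ι κ w h hh Δ' hΔ').1
    have h2 := (hDETI ι κ w Δ' (card_max w h hΔ') (indep_max hDUAL w h hh hΔ')).1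
    rw [← h2] at h1
    exact_mod_cast h1
  set M : ℕ := ∏ Δ ∈ maxCells w h, (Lt w Δ).index with hM
  have hM1 : 1 ≤ M := Finset.prod_pos hidx
  have hMd : ∀ Δ ∈ maxCells w h, (Lt w Δ).index ∣ M := fun Δ' hΔ' =>
    Finset.dvd_prod_of_mem (fun Δ => (Lt w Δ).index) hΔ'
  obtain ⟨K₁, hK₁⟩ := hBRI ι κ w h hh M hM1 hMd p hp hgen (inl C) ⟨a₀, ha₀'⟩ ⟨Δ, hΔ, hCΔ⟩ 1
  obtain ⟨K₂, hK₂⟩ := hAUTO ι κ w h hh M 1
  set K : ℝ := K₁ ⊔ K₂ with hK
  set g : κ ⊕ ι → ℤ := Sum.elim (fun a => ⌊K * h a⌋) (fun _ => 0) with hg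
  have hnear : Near h K 1 g := by
    constructor
    · intro a
      have h1 := Int.floor_le (K * h a)
      have h2 := Int.lt_floor_add_one (K * h a)
      simp only [hg, Sum.elim_inl]
      rw [abs_le]
      constructor <;> linarith
    · intro j
      simp [hg]
  have hU := hK₁ K (le_max_left _ _) g hnear
  rw [hcardC] at hU
  have hauto := hK₂ K (le_max_right _ _) g hnear Δ hΔ (inl C) hCΔ
  obtain ⟨hBfin, hBcard⟩ := hCNT (inl C : Finset (κ ⊕ ι)) (Lt w (inl C)) M (fun t => g t) hM1 (by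
    intro z
    obtain ⟨m, hm⟩ := hMd Δ hΔ
    have h1 := (hDETI ι κ w Δ (card_max w h hΔ) (indep_max hDUAL w h hh hΔ)).2 (inl C) hCΔ
      (fun t => (m : ℤ) * z t)
    have h2 : (fun t => (M : ℤ) * z t) =
        fun v : (inl C : Finset (κ ⊕ ι)) => ((Lt w Δ).index : ℤ) * ((m : ℤ) * z v) := by
      funext t
      rw [hm]
      push_cast
      ring
    rw [h2]
    exact h1)
  set 𝓑 : Finset (↥(inl C : Finset (κ ⊕ ι)) → ℤ) := hBfin.toFinset with h𝓑
  have hBmem : ∀ b, b ∈ 𝓑 ↔ (∀ t, 0 ≤ b t ∧ b t < M) ∧ (fun t => b t - g t) ∈ Lt w (inl C) := by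
    intro b
    rw [h𝓑, Set.Finite.mem_toFinset]
    rfl
  have hidxC := hIDX ι κ w C (by
    have h1 := hindC.comp (fun a : C => (⟨Sum.inl (a : κ), (hinl _).2 ⟨a, a.2, rfl⟩⟩ :
      ((inl C : Finset (κ ⊕ ι)) : Set (κ ⊕ ι)))) (by
      intro a b hab
      have h2 := congrArg (fun x : ((inl C : Finset (κ ⊕ ι)) : Set (κ ⊕ ι)) => (x : κ ⊕ ι)) hab
      exact Subtype.ext (Sum.inl_injective h2))
    exact h1)
  have hBc : (𝓑.card : ℝ) * nuE w 1 C = (M : ℝ) ^ C.card := by
    rw [Set.ncard_eq_toFinset_card _ hBfin, hidxC.1, Fintype.card_coe, hcardC] at hBcard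
    exact_mod_cast hBcard
  have hyb : ∀ b, ∃ y : ι ⊕ Unit → ℤ, b ∈ 𝓑 → ∀ v : (inl C : Finset (κ ⊕ ι)),
      zp w y v = b v - g v := by
    intro b
    by_cases hb : b ∈ 𝓑
    · obtain ⟨y, hy⟩ := ((hBmem b).1 hb).2
      exact ⟨y, fun _ v => (hy v).symm⟩
    · exact ⟨0, fun h1 => absurd h1 hb⟩
  choose yb hyb using hyb
  set r : ℕ := Fintype.card ι + 1 - C.card with hr
  set f : ℝ → (ι ⊕ Unit → ℤ) → ℝ := fun ε y => Real.exp (-ε * ph p y) with hf
  have hf0 : ∀ ε y, 0 ≤ f ε y := fun ε y => (Real.exp_pos _).le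
  set Y : Set (ι ⊕ Unit → ℤ) := {z | (∀ u, 0 ≤ zp w z u) ∧
    ∀ v ∈ (inl C : Finset (κ ⊕ ι)), zp w z v = 0} with hY
  set fb : (↥(inl C : Finset (κ ⊕ ι)) → ℤ) → Set (ι ⊕ Unit → ℤ) := fun b =>
    {z | (∀ v ∈ (inl C : Finset (κ ⊕ ι)), zp w z v = 0) ∧
      ∀ u, 0 ≤ zp w z u + (zp w (yb b) u + g u)} with hfb
  -- the sum over `Y`
  have hFs : ∀ ε, Fs w C p ε = ∑' z, Y.indicator (f ε) z := by
    intro ε
    rw [← tsum_subtype]
    have hmn : ∀ (k : ι → ℕ) a, mnk w k ≤ kw w k a := fun k a =>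
      ciInf_le (OrderBot.bddBelow _) a
    have hmn2 : ∀ (k : ι → ℕ), ∃ a, kw w k a = mnk w k := fun k =>
      (ciInf_mem (fun a => kw w k a) : iInf (fun a => kw w k a) ∈ Set.range _)
    set T : (ι → ℕ) → (ι ⊕ Unit → ℤ) := fun k =>
      Sum.elim (fun i => (k i : ℤ)) fun _ => -(mnk w k : ℤ) with hT
    have hTl : ∀ k a, zp w (T k) (Sum.inl a) = (kw w k a : ℤ) - mnk w k := by
      intro k a
      rw [zp_inl, kw]
      simp only [hT, Sum.elim_inl, Sum.elim_inr]
      push_cast
      rw [sub_eq_add_neg]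
      congr 1
      exact Finset.sum_congr rfl fun i _ => by ring
    have hTr : ∀ k j, zp w (T k) (Sum.inr j) = (k j : ℤ) := by
      intro k j
      rw [zp_inr]
      simp [hT]
    have hfc : ∀ (k : ι → ℕ) a, a ∈ fc w k ↔ kw w k a = mnk w k := by
      intro k a
      unfold fc
      rw [Finset.mem_filter]
      constructor
      · rintro ⟨-, h1⟩
        obtain ⟨b, hb⟩ := hmn2 k
        exact le_antisymm ((h1 b).trans hb.le) (hmn k a)
      · intro h1
        exact ⟨Finset.mem_univ _, fun b => h1.le.trans (hmn k b)⟩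
    have hbij : Set.BijOn T {k | C ⊆ fc w k} Y := by
      refine ⟨?_, ?_, ?_⟩
      · intro k hk
        refine ⟨?_, ?_⟩
        · rintro (a | j)
          · rw [hTl]
            have := hmn k a
            omega
          · rw [hTr]
            exact Int.natCast_nonneg _
        · intro v hv
          obtain ⟨a, ha, rfl⟩ := (hinl v).1 hv
          rw [hTl, (hfc k a).1 (hk ha)]
          ring
      · intro k _ k' _ hkk
        funext i
        have := congrFun hkk (Sum.inl i)
        simp only [hT, Sum.elim_inl] at this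
        exact_mod_cast this
      · intro z hz
        have hz1 : ∀ i, 0 ≤ z (Sum.inl i) := fun i => by
          have := hz.1 (Sum.inr i)
          rwa [zp_inr] at this
        set k : ι → ℕ := fun i => (z (Sum.inl i)).toNat with hk
        have hki : ∀ i, (k i : ℤ) = z (Sum.inl i) := fun i => Int.toNat_of_nonneg (hz1 i)
        have hkz : ∀ a, zp w z (Sum.inl a) = (kw w k a : ℤ) + z (Sum.inr ()) := by
          intro a
          rw [zp_inl, kw]
          push_cast
          congr 1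
          exact Finset.sum_congr rfl fun i _ => by rw [hki]; ring
        have h1 : (kw w k a₀ : ℤ) + z (Sum.inr ()) = 0 := by
          rw [← hkz]
          exact hz.2 _ ha₀'
        have h2 : ∀ a, kw w k a₀ ≤ kw w k a := by
          intro a
          have := hz.1 (Sum.inl a)
          rw [hkz] at this
          omega
        have h3 : mnk w k = kw w k a₀ := by
          obtain ⟨b, hb⟩ := hmn2 k
          exact le_antisymm (hmn k a₀) (hb ▸ h2 b)
        refine ⟨k, ?_, ?_⟩
        · intro a ha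
          rw [hfc, h3]
          have := hz.2 (Sum.inl a) ((hinl _).2 ⟨a, ha, rfl⟩)
          rw [hkz] at this
          omega
        · funext e
          rcases e with i | e
          · simp only [hT, Sum.elim_inl]
            exact hki i
          · simp only [hT, Sum.elim_inr]
            rw [h3]
            have he : e = () := rfl
            subst he
            omega
    rw [Fs, ← (hbij.equiv T).tsum_eq]
    refine tsum_congr fun k => ?_
    simp only [hf]
    congr 2
    have : (((hbij.equiv T) k : Y) : ι ⊕ Unit → ℤ) = T k := rfl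
    rw [this, ph, Fintype.sum_sum_type]
    simp [hT]
    ring
  -- the sum over the thick face
  have hsumS : ∀ ε, 0 < ε → Summable ((Rg w g M (inl C)).indicator (f ε)) := by
    intro ε hε
    rw [← summable_subtype_iff_indicator]
    exact hSUMU ι κ w p hp (inl C) g M ⟨a₀, ha₀'⟩ ε hε
  have hmemb : ∀ b ∈ 𝓑, ∀ z, (yb b + z ∈ Rg w g M (inl C) ∧
      ∀ v : (inl C : Finset (κ ⊕ ι)), zp w (yb b + z) v + g v = b v) ↔ z ∈ fb b := by
    intro b hb z
    have h1 := ((hBmem b).1 hb).1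
    constructor
    · rintro ⟨h2, h3⟩
      refine ⟨fun v hv => ?_, fun u => ?_⟩
      · have h4 := h3 ⟨v, hv⟩
        have h5 := hyb b hb ⟨v, hv⟩
        rw [zp_add] at h4
        simp only at h4 h5
        omega
      · have h4 := h2.1 u
        rw [zp_add] at h4
        omega
    · rintro ⟨h2, h3⟩
      have h6 : ∀ v : (inl C : Finset (κ ⊕ ι)), zp w (yb b + z) v + g v = b v := by
        intro v
        rw [zp_add, hyb b hb v, h2 v v.2]
        ring
      refine ⟨⟨fun u => ?_, fun v hv => ?_⟩, h6⟩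
      · have h4 := h3 u
        rw [zp_add]
        omega
      · rw [h6 ⟨v, hv⟩]
        exact (h1 ⟨v, hv⟩).2
  set Sb : (↥(inl C : Finset (κ ⊕ ι)) → ℤ) → Set (ι ⊕ Unit → ℤ) := fun b =>
    {y | y ∈ Rg w g M (inl C) ∧ ∀ v : (inl C : Finset (κ ⊕ ι)), zp w y v + g v = b v} with hSb
  have hsumSb : ∀ ε, 0 < ε → ∀ b, Summable ((Sb b).indicator (f ε)) := by
    intro ε hε b
    refine Summable.of_nonneg_of_le (fun y => Set.indicator_nonneg (fun y _ => hf0 ε y) y)
      (fun y => ?_) (hsumS ε hε)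
    exact Set.indicator_le_indicator_of_subset (fun y hy => hy.1) (fun y => hf0 ε y) y
  have hshift : ∀ ε, ∀ b ∈ 𝓑, ∀ z, (Sb b).indicator (f ε) (yb b + z) =
      Real.exp (-ε * ph p (yb b)) * (fb b).indicator (f ε) z := by
    intro ε b hb z
    by_cases hz : z ∈ fb b
    · have hz' : yb b + z ∈ Sb b := (hmemb b hb z).2 hz
      rw [Set.indicator_of_mem hz, Set.indicator_of_mem hz']
      simp only [hf]
      rw [ph_add, ← Real.exp_add]
      congr 1
      ring
    · have hz' : yb b + z ∉ Sb b := fun h1 => hz ((hmemb b hb z).1 h1)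
      rw [Set.indicator_of_notMem hz, Set.indicator_of_notMem hz', mul_zero]
  have hsumfb : ∀ ε, 0 < ε → ∀ b ∈ 𝓑, Summable ((fb b).indicator (f ε)) := by
    intro ε hε b hb
    have h1 := (Equiv.addLeft (yb b)).summable_iff.2 (hsumSb ε hε b)
    have h2 : ((Sb b).indicator (f ε) ∘ (Equiv.addLeft (yb b))) =
        fun z => Real.exp (-ε * ph p (yb b)) * (fb b).indicator (f ε) z := by
      funext z
      exact hshift ε b hb z
    rw [h2] at h1
    exact (summable_mul_left_iff (Real.exp_ne_zero _)).1 h1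
  have hUs : ∀ ε, 0 < ε → Us w g M (inl C) p ε = ∑ b ∈ 𝓑, Real.exp (-ε * ph p (yb b)) *
      ∑' z, (fb b).indicator (f ε) z := by
    intro ε hε
    have h1 : Us w g M (inl C) p ε = ∑' y, (Rg w g M (inl C)).indicator (f ε) y := by
      rw [← tsum_subtype]
      rfl
    have h2 : (Rg w g M (inl C)).indicator (f ε) = fun y => ∑ b ∈ 𝓑, (Sb b).indicator (f ε) y := by
      funext y
      by_cases hy : y ∈ Rg w g M (inl C)
      · rw [Set.indicator_of_mem hy]
        set b : ↥(inl C : Finset (κ ⊕ ι)) → ℤ := fun v => zp w y v + g v with hb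
        have hb𝓑 : b ∈ 𝓑 := by
          rw [hBmem]
          refine ⟨fun t => ⟨hy.1 t, hy.2 t t.2⟩, ⟨y, fun v => ?_⟩⟩
          simp only [hb]
          ring
        rw [Finset.sum_eq_single b]
        · rw [Set.indicator_of_mem]
          exact ⟨hy, fun v => rfl⟩
        · intro b' _ hbb
          rw [Set.indicator_of_notMem]
          rintro ⟨-, h3⟩
          exact hbb (funext fun v => (h3 v).symm)
        · intro h3
          exact absurd hb𝓑 h3
      · rw [Set.indicator_of_notMem hy]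
        refine (Finset.sum_eq_zero fun b _ => ?_).symm
        rw [Set.indicator_of_notMem]
        exact fun h3 => hy h3.1
    rw [h1, h2, Summable.tsum_finsetSum fun b _ => hsumSb ε hε b]
    refine Finset.sum_congr rfl fun b hb => ?_
    rw [← (Equiv.addLeft (yb b)).tsum_eq, ← tsum_mul_left]
    exact tsum_congr fun z => hshift ε b hb z
  -- the comparison of the fibres with `Y`
  set c₀ : ℕ := ∑ b ∈ 𝓑, ∑ u, (zp w (yb b) u + g u).natAbs with hc₀
  have hcb : ∀ b ∈ 𝓑, ∀ u, |zp w (yb b) u + g u| ≤ (c₀ : ℤ) := by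
    intro b hb u
    have h1 : (zp w (yb b) u + g u).natAbs ≤ c₀ :=
      (Finset.single_le_sum (f := fun u => (zp w (yb b) u + g u).natAbs)
        (fun _ _ => Nat.zero_le _) (Finset.mem_univ u)).trans
      (Finset.single_le_sum (f := fun b => ∑ u, (zp w (yb b) u + g u).natAbs)
        (fun _ _ => Nat.zero_le _) hb)
    rw [Int.abs_eq_natAbs]
    exact_mod_cast h1
  set U : Finset (κ ⊕ ι) := Finset.univ.filter fun u =>
    hat w u ∉ Submodule.span ℚ (hat w '' ((inl C : Finset (κ ⊕ ι)) : Set (κ ⊕ ι))) with hUdef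
  set Z : κ ⊕ ι → Set (ι ⊕ Unit → ℤ) := fun u => {y | (∀ v, -(c₀ : ℤ) ≤ zp w y v) ∧
    ∀ v ∈ insert u (inl C : Finset (κ ⊕ ι)), zp w y v ≤ c₀} with hZ
  have hpt : ∀ ε, ∀ b ∈ 𝓑, ∀ z, |(fb b).indicator (f ε) z - Y.indicator (f ε) z| ≤
      ∑ u ∈ U, (Z u).indicator (f ε) z := by
    intro ε b hb z
    have hn : 0 ≤ ∑ u ∈ U, (Z u).indicator (f ε) z :=
      Finset.sum_nonneg fun u _ => Set.indicator_nonneg (fun y _ => hf0 ε y) z
    have hbox := ((hBmem b).1 hb).1
    by_cases h1 : z ∈ fb b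
    · by_cases h2 : z ∈ Y
      · rw [Set.indicator_of_mem h1, Set.indicator_of_mem h2, sub_self, abs_zero]
        exact hn
      · rw [Set.indicator_of_mem h1, Set.indicator_of_notMem h2, sub_zero, abs_of_nonneg (hf0 ε z)]
        have h3 : ∃ u, zp w z u < 0 := by
          by_contra hcon
          push Not at hcon
          exact h2 ⟨hcon, h1.1⟩
        obtain ⟨u, hu⟩ := h3
        have hu2 : u ∈ U := by
          rw [hUdef, Finset.mem_filter]
          refine ⟨Finset.mem_univ _, fun h4 => ?_⟩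
          have := zp_span w z (inl C) h1.1 u h4
          omega
        have hu3 : z ∈ Z u := by
          refine ⟨fun v => ?_, fun v hv => ?_⟩
          · have h4 := h1.2 v
            have h5 := (abs_le.1 (hcb b hb v)).2
            omega
          · rcases Finset.mem_insert.1 hv with rfl | hv
            · have : (0 : ℤ) ≤ c₀ := Int.natCast_nonneg _
              omega
            · rw [h1.1 v hv]
              exact Int.natCast_nonneg _
        calc f ε z = (Z u).indicator (f ε) z := (Set.indicator_of_mem hu3 _).symm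
          _ ≤ _ := Finset.single_le_sum (f := fun u => (Z u).indicator (f ε) z)
            (fun u _ => Set.indicator_nonneg (fun y _ => hf0 ε y) z) hu2
    · by_cases h2 : z ∈ Y
      · rw [Set.indicator_of_notMem h1, Set.indicator_of_mem h2, zero_sub, abs_neg,
          abs_of_nonneg (hf0 ε z)]
        have h3 : ∃ u, zp w z u + (zp w (yb b) u + g u) < 0 := by
          by_contra hcon
          push Not at hcon
          exact h1 ⟨h2.2, hcon⟩
        obtain ⟨u, hu⟩ := h3
        have hu2 : u ∈ U := by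
          rw [hUdef, Finset.mem_filter]
          refine ⟨Finset.mem_univ _, fun h4 => ?_⟩
          have h5 := zp_span w z (inl C) h2.2 u h4
          have h6 := hauto (yb b) (fun v hv => by
            have h7 := hyb b hb ⟨v, hv⟩
            have h8 := hbox ⟨v, hv⟩
            simp only at h7
            rw [h7]
            constructor
            · have := h8.1
              omega
            · have := h8.2
              omega) u h4
          omega
        have hu3 : z ∈ Z u := by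
          refine ⟨fun v => ?_, fun v hv => ?_⟩
          · have h4 := h2.1 v
            have : (0 : ℤ) ≤ c₀ := Int.natCast_nonneg _
            omega
          · rcases Finset.mem_insert.1 hv with rfl | hv
            · have h5 := (abs_le.1 (hcb b hb v)).1
              omega
            · rw [h2.2 v hv]
              exact Int.natCast_nonneg _
        calc f ε z = (Z u).indicator (f ε) z := (Set.indicator_of_mem hu3 _).symm
          _ ≤ _ := Finset.single_le_sum (f := fun u => (Z u).indicator (f ε) z)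
            (fun u _ => Set.indicator_nonneg (fun y _ => hf0 ε y) z) hu2
      · rw [Set.indicator_of_notMem h1, Set.indicator_of_notMem h2, sub_self, abs_zero]
        exact hn
  -- growth
  have hgroU : ∀ u, ∃ A : ℝ, 0 ≤ A ∧ (u ∈ U → ∀ ε : ℝ, 0 < ε → Summable ((Z u).indicator (f ε)) ∧
      (ε ≤ 1 → ε ^ r * ∑' z, (Z u).indicator (f ε) z ≤ ε * A)) := by
    intro u
    by_cases hu : u ∈ U
    · have hu' := (Finset.mem_filter.1 hu).2
      have huC : u ∉ (inl C : Finset (κ ⊕ ι)) := fun h1 =>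
        hu' (Submodule.subset_span ⟨u, by exact_mod_cast h1, rfl⟩)
      have hind : LinearIndepOn ℚ (hat w)
          ((insert u (inl C) : Finset (κ ⊕ ι)) : Set (κ ⊕ ι)) := by
        rw [Finset.coe_insert]
        exact hindC.insert hu'
      have hcard : (insert u (inl C : Finset (κ ⊕ ι))).card = C.card + 1 := by
        rw [Finset.card_insert_of_notMem huC, hcardC]
      have hle : C.card + 1 ≤ Fintype.card ι + 1 := by
        have h1 := hind.linearIndependent.fintype_card_le_finrank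
        rw [Module.finrank_fintype_fun_eq_card, Fintype.card_sum, Fintype.card_unit] at h1
        have h2 : Fintype.card ((insert u (inl C : Finset (κ ⊕ ι)) : Finset (κ ⊕ ι)) :
          Set (κ ⊕ ι)) = C.card + 1 := by
          rw [← hcard]
          exact Fintype.card_coe _
        omega
      obtain ⟨g1, A, hA⟩ := hGRO ι κ w p hp (insert u (inl C)) c₀
        ⟨a₀, Finset.mem_insert_of_mem ha₀'⟩ hind
      refine ⟨|A|, abs_nonneg _, fun _ ε hε => ⟨?_, fun hε1 => ?_⟩⟩
      · rw [← summable_subtype_iff_indicator]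
        exact g1 ε hε
      · have h1 := hA ε hε hε1
        rw [hcard] at h1
        have h2 : r = (Fintype.card ι + 1 - (C.card + 1)) + 1 := by omega
        rw [h2, pow_succ, ← tsum_subtype, mul_comm _ ε, mul_assoc]
        exact mul_le_mul_of_nonneg_left (h1.trans (le_abs_self A)) hε.le
    · exact ⟨0, le_rfl, fun h1 => absurd h1 hu⟩
  choose A hA0 hA using hgroU
  obtain ⟨hYs, A₀, hA₀⟩ : (∀ ε : ℝ, 0 < ε → Summable (Y.indicator (f ε))) ∧ ∃ A₀ : ℝ,
      ∀ ε : ℝ, 0 < ε → ε ≤ 1 → ε ^ r * ∑' z, Y.indicator (f ε) z ≤ A₀ := by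
    obtain ⟨g1, A, hA⟩ := hGRO ι κ w p hp (inl C) 0 ⟨a₀, ha₀'⟩ hindC
    have hYeq : Y = {y : ι ⊕ Unit → ℤ | (∀ v, -((0 : ℕ) : ℤ) ≤ zp w y v) ∧
        ∀ v ∈ (inl C : Finset (κ ⊕ ι)), zp w y v ≤ ((0 : ℕ) : ℤ)} := by
      ext y
      simp only [hY, Set.mem_ofPred_eq, Nat.cast_zero, neg_zero]
      constructor
      · rintro ⟨h1, h2⟩
        exact ⟨h1, fun v hv => (h2 v hv).le⟩
      · rintro ⟨h1, h2⟩
        exact ⟨h1, fun v hv => le_antisymm (h2 v hv) (h1 v)⟩
    refine ⟨fun ε hε => ?_, A, fun ε hε hε1 => ?_⟩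
    · rw [← summable_subtype_iff_indicator, hYeq]
      exact g1 ε hε
    · have h1 := hA ε hε hε1
      rw [hcardC] at h1
      rw [← tsum_subtype, hYeq]
      exact h1
  set At : ℝ := ∑ u ∈ U, A u with hAt
  have hAt0 : 0 ≤ At := Finset.sum_nonneg fun u _ => hA0 u
  have hdiff : ∀ ε, 0 < ε → ε ≤ 1 → ∀ b ∈ 𝓑, |ε ^ r * ∑' z, (fb b).indicator (f ε) z -
      ε ^ r * ∑' z, Y.indicator (f ε) z| ≤ ε * At := by
    intro ε hε hε1 b hb
    have hs := hsumfb ε hε b hb
    have hsU : Summable fun z => ∑ u ∈ U, (Z u).indicator (f ε) z :=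
      summable_sum fun u hu => (hA u hu ε hε).1
    have h1 : |∑' z, (fb b).indicator (f ε) z - ∑' z, Y.indicator (f ε) z| ≤
        ∑ u ∈ U, ∑' z, (Z u).indicator (f ε) z := by
      rw [← hs.tsum_sub (hYs ε hε), ← Summable.tsum_finsetSum fun u hu => (hA u hu ε hε).1]
      have h2 : Summable fun z => |(fb b).indicator (f ε) z - Y.indicator (f ε) z| :=
        Summable.of_nonneg_of_le (fun _ => abs_nonneg _) (hpt ε b hb) hsU
      calc |∑' z, ((fb b).indicator (f ε) z - Y.indicator (f ε) z)| ≤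
          ∑' z, |(fb b).indicator (f ε) z - Y.indicator (f ε) z| := by
            have := norm_tsum_le_tsum_norm (f := fun z =>
              (fb b).indicator (f ε) z - Y.indicator (f ε) z) (by simpa using h2)
            simpa using this
        _ ≤ _ := h2.tsum_le_tsum (hpt ε b hb) hsU
    rw [← mul_sub, abs_mul, abs_of_nonneg (pow_nonneg hε.le r)]
    calc ε ^ r * |∑' z, (fb b).indicator (f ε) z - ∑' z, Y.indicator (f ε) z| ≤
        ε ^ r * ∑ u ∈ U, ∑' z, (Z u).indicator (f ε) z :=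
          mul_le_mul_of_nonneg_left h1 (pow_nonneg hε.le r)
      _ = ∑ u ∈ U, ε ^ r * ∑' z, (Z u).indicator (f ε) z := Finset.mul_sum _ _ _
      _ ≤ ∑ u ∈ U, ε * A u := Finset.sum_le_sum fun u hu => (hA u hu ε hε).2 hε1
      _ = ε * At := by rw [hAt, Finset.mul_sum]
  -- conclusion
  have hT : Tendsto (fun ε : ℝ => ε ^ r * Us w g M (inl C) p ε -
      (𝓑.card : ℝ) * (ε ^ r * Fs w C p ε)) (𝓝[>] 0) (𝓝 0) := by
    have hB : Tendsto (fun ε : ℝ => ∑ b ∈ 𝓑, (Real.exp (-ε * ph p (yb b)) * (ε * At) +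
        |Real.exp (-ε * ph p (yb b)) - 1| * A₀)) (𝓝[>] 0) (𝓝 0) := by
      have h1 : Continuous (fun ε : ℝ => ∑ b ∈ 𝓑, (Real.exp (-ε * ph p (yb b)) * (ε * At) +
        |Real.exp (-ε * ph p (yb b)) - 1| * A₀)) := by fun_prop
      have h2 := h1.tendsto 0
      simp only [neg_zero, zero_mul, Real.exp_zero, mul_zero, sub_self, abs_zero, add_zero,
        Finset.sum_const_zero] at h2
      exact h2.mono_left nhdsWithin_le_nhds
    refine squeeze_zero_norm' ?_ hB
    have hmem : Set.Ioc (0 : ℝ) 1 ∈ 𝓝[>] (0 : ℝ) := Ioc_mem_nhdsGT one_pos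
    filter_upwards [hmem] with ε hε
    have hε0 : 0 < ε := hε.1
    have hF0 : 0 ≤ ε ^ r * ∑' z, Y.indicator (f ε) z := mul_nonneg (pow_nonneg hε0.le r)
      (tsum_nonneg fun z => Set.indicator_nonneg (fun y _ => hf0 ε y) z)
    have h1 : ε ^ r * Us w g M (inl C) p ε - (𝓑.card : ℝ) * (ε ^ r * Fs w C p ε) =
        ∑ b ∈ 𝓑, (Real.exp (-ε * ph p (yb b)) * (ε ^ r * ∑' z, (fb b).indicator (f ε) z -
          ε ^ r * ∑' z, Y.indicator (f ε) z) +
          (Real.exp (-ε * ph p (yb b)) - 1) * (ε ^ r * ∑' z, Y.indicator (f ε) z)) := by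
      rw [hUs ε hε0, hFs, Finset.mul_sum]
      have h2 : (𝓑.card : ℝ) * (ε ^ r * ∑' z, Y.indicator (f ε) z) =
          ∑ b ∈ 𝓑, ε ^ r * ∑' z, Y.indicator (f ε) z := by
        rw [Finset.sum_const, nsmul_eq_mul]
      rw [h2, ← Finset.sum_sub_distrib]
      refine Finset.sum_congr rfl fun b _ => ?_
      ring
    rw [h1, Real.norm_eq_abs]
    refine (Finset.abs_sum_le_sum_abs _ _).trans (Finset.sum_le_sum fun b hb => ?_)
    refine (abs_add_le _ _).trans (add_le_add ?_ ?_)
    · rw [abs_mul, abs_of_nonneg (Real.exp_pos _).le]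
      exact mul_le_mul_of_nonneg_left (hdiff ε hε0 hε.2 b hb) (Real.exp_pos _).le
    · rw [abs_mul, abs_of_nonneg hF0]
      exact mul_le_mul_of_nonneg_left (hA₀ ε hε0 hε.2) (abs_nonneg _)
  have hBpos : (𝓑.card : ℝ) ≠ 0 := by
    intro h0
    rw [h0, zero_mul] at hBc
    exact absurd hBc.symm (pow_ne_zero _ (by exact_mod_cast (by omega : M ≠ 0)))
  have hfin := ((hU.sub hT).div_const (𝓑.card : ℝ))
  have hlim : ((M : ℝ) ^ C.card * Itg w h (inl C) 1 p - 0) / (𝓑.card : ℝ) =
      (nuE w 1 C : ℝ) * Itg w h (inl C) 1 p := by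
    rw [← hBc, sub_zero]
    field_simp
  rw [hlim] at hfin
  refine hfin.congr fun ε => ?_
  rw [sub_sub_cancel, mul_div_cancel_left₀ _ hBpos]

end Pool.Agent.Mono.NP
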