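import Pool.Agent.Work.Monodromy.Interface12A
import Pool.Agent.Work.Monodromy.Interface12B

/-!
# Phase 12, block FIN (helper49)
-/

set_option autoImplicit false

namespace Pool.Agent.Mono.NP

open MvPolynomial

namespace FINAux

section

variable {ι κ : Type} [Fintype ι] [DecidableEq ι] [Fintype κ] [DecidableEq κ]

theorem sum_hval {w : κ → ι → ℕ} {h : κ → ℝ} {c : κ → ℚ} {β : ℚ} {u : ι → ℚ} {n : κ → ℚ}
    (hn : n ∈ NS w c β u) (k : ι → ℝ) :
    ∑ a, (n a : ℝ) * hval w h k a = -∑ i, k i * (u i : ℝ) + hdot h n := by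
  unfold hval hdot
  have h1 : ∀ a, (n a : ℝ) * (∑ i, k i * (w a i : ℝ) + h a) =
      ∑ i, k i * ((n a : ℝ) * (w a i : ℝ)) + (n a : ℝ) * h a := by
    intro a
    rw [mul_add, Finset.mul_sum]
    congr 1
    refine Finset.sum_congr rfl fun i _ => ?_
    ring
  simp only [h1]
  rw [Finset.sum_add_distrib, Finset.sum_comm]
  congr 1
  rw [← Finset.sum_neg_distrib]
  refine Finset.sum_congr rfl fun i _ => ?_
  rw [← Finset.mul_sum]
  have h2 := hn.2.1 i
  have h3 : ∑ a, (n a : ℝ) * (w a i : ℝ) = -(u i : ℝ) := by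
    have := congrArg (fun q : ℚ => (q : ℝ)) h2
    push_cast at this
    exact this
  rw [h3]
  ring

theorem finite_one (hTRI1 : Stmt_TRI1) {w : κ → ι → ℕ} {h : κ → ℝ} {c : κ → ℚ}
    (hh : LinearIndependent ℚ h) (β : ℚ) (u : ι → ℚ) (g : ℝ) (k : ι → ℝ) :
    {n : κ → ℚ | n ∈ NS w c β u ∧
      (∀ a, Sum.inl a ∉ cell w h k → ∃ j : ℕ, n a = j) ∧ hdot h n ≤ g}.Finite := by
  classical
  rcases isEmpty_or_nonempty κ with hκ | hκ
  · exact Set.toFinite _
  obtain ⟨a0, ha0⟩ := Finite.exists_min (hval w h k)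
  set μ : ℝ := hval w h k a0 with hμ
  set A : ℝ := -∑ i, k i * (u i : ℝ) + g - μ * β with hA
  have hcell : ∀ a, Sum.inl a ∈ cell w h k ↔ hval w h k a = μ := by
    intro a
    unfold cell
    simp only [Finset.mem_filter, Finset.mem_univ, true_and, Sum.elim_inl]
    constructor
    · intro hb
      exact le_antisymm (hb a0) (ha0 a)
    · intro he b
      rw [he]
      exact ha0 b
  let R : (κ → ℚ) → (κ → ℚ) := fun n a => if Sum.inl a ∈ cell w h k then 0 else n a
  let N : κ → ℕ := fun a => ⌊A / (hval w h k a - μ)⌋₊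
  let T : κ → Set ℚ := fun a => (fun j : ℕ => (j : ℚ)) '' (Set.Iic (N a))
  refine Set.Finite.of_finite_image (f := R) ?_ ?_
  · refine (Set.Finite.pi' (t := T) fun a => (Set.finite_Iic _).image _).subset ?_
    rintro _ ⟨n, ⟨hn, hnat, hg⟩, rfl⟩ a
    change (if Sum.inl a ∈ cell w h k then 0 else n a) ∈ T a
    by_cases hc : Sum.inl a ∈ cell w h k
    · rw [if_pos hc]
      exact ⟨0, Nat.zero_le _, by simp⟩
    · rw [if_neg hc]
      obtain ⟨j, hj⟩ := hnat a hc
      refine ⟨j, ?_, hj.symm⟩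
      rw [Set.mem_Iic]
      have hpos : 0 < hval w h k a - μ := by
        have h1 : hval w h k a ≠ μ := fun h2 => hc ((hcell a).2 h2)
        have h2 := ha0 a
        have h3 : μ < hval w h k a := lt_of_le_of_ne h2 (Ne.symm h1)
        linarith
      apply Nat.le_floor
      rw [le_div_iff₀ hpos]
      -- the sum
      have h4 := sum_hval (h := h) hn k
      have h5 : ∑ b, (n b : ℝ) * (hval w h k b - μ) ≤ A := by
        have h6 : ∑ b, (n b : ℝ) * (hval w h k b - μ) =
            ∑ b, (n b : ℝ) * hval w h k b - μ * ∑ b, (n b : ℝ) := by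
          rw [Finset.mul_sum, ← Finset.sum_sub_distrib]
          refine Finset.sum_congr rfl fun b _ => ?_
          ring
        have h7 : ∑ b, (n b : ℝ) = β := by
          have := congrArg (fun q : ℚ => (q : ℝ)) hn.2.2
          push_cast at this
          exact this
        rw [h6, h4, h7, hA]
        linarith
      have h8 : (n a : ℝ) * (hval w h k a - μ) ≤ ∑ b, (n b : ℝ) * (hval w h k b - μ) := by
        refine Finset.single_le_sum (f := fun b => (n b : ℝ) * (hval w h k b - μ)) ?_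
          (Finset.mem_univ a)
        intro b _
        by_cases hb : Sum.inl b ∈ cell w h k
        · change 0 ≤ (n b : ℝ) * (hval w h k b - μ)
          rw [(hcell b).1 hb, sub_self, mul_zero]
        · obtain ⟨j', hj'⟩ := hnat b hb
          have h9 : (0 : ℝ) ≤ (n b : ℝ) := by
            rw [hj']
            positivity
          have h10 := ha0 b
          exact mul_nonneg h9 (by linarith)
      have h11 : ((j : ℕ) : ℝ) = (n a : ℝ) := by
        rw [hj]
        simp
      rw [h11]
      linarith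
  · rintro n ⟨hn, -, -⟩ n' ⟨hn', -, -⟩ he
    have hx := hTRI1 ι κ w h k (Sum.elim (fun a => n a - n' a) fun _ => 0) hh (by
      rintro (a | i) hv
      · have h1 := congrFun he a
        change (if Sum.inl a ∈ cell w h k then 0 else n a) =
          (if Sum.inl a ∈ cell w h k then 0 else n' a) at h1
        rw [if_neg hv, if_neg hv] at h1
        simp [h1]
      · rfl) (by
      rintro (i | ⟨⟩)
      · rw [Fintype.sum_sum_type]
        simp only [Sum.elim_inl, Sum.elim_inr, hat, zero_mul, Finset.sum_const_zero, add_zero]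
        simp only [sub_mul]
        rw [Finset.sum_sub_distrib, hn.2.1 i, hn'.2.1 i, sub_self]
      · rw [Fintype.sum_sum_type]
        simp only [Sum.elim_inl, Sum.elim_inr, hat, zero_mul, Finset.sum_const_zero, add_zero,
          mul_one]
        rw [Finset.sum_sub_distrib, hn.2.2, hn'.2.2, sub_self])
    funext a
    have := hx (Sum.inl a)
    simp only [Sum.elim_inl] at this
    linarith

end

end FINAux

open FINAux in
theorem stmt_FIN (hTRI1 : Stmt_TRI1) (hSUPP : Stmt_SUPP) : Stmt_FIN := by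
  intro G hG ι κ _ _ _ _ w h s₀ c J d lam hh hD β u g
  have hfinm : {m : κ →₀ ℕ | m.degree = d}.Finite := by
    have h1 : ((Finset.univ : Finset κ).finsuppAntidiag d : Set (κ →₀ ℕ)).Finite :=
      Finset.finite_toSet _
    refine h1.subset ?_
    intro m hm
    rw [Finset.mem_coe, Finset.mem_finsuppAntidiag]
    refine ⟨?_, Finset.subset_univ _⟩
    rw [← hm, Finsupp.degree_eq_sum]
  have hcover : {n : κ → ℚ | n ∈ NS w c β u ∧ Lam G d lam n ≠ 0 ∧ hdot h n ≤ g} ⊆
      ⋃ m ∈ {m : κ →₀ ℕ | m.degree = d}, {n : κ → ℚ | lam m ≠ 0 ∧ n ∈ NS w c β u ∧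
        (∀ a, m a = 0 → (∃ z : ℤ, c a = z) → ∃ j : ℕ, n a = j) ∧ hdot h n ≤ g} := by
    rintro n ⟨hn, hL, hg⟩
    obtain ⟨⟨m, hm, hdeg, hnat⟩, -⟩ := hSUPP G hG ι κ w h s₀ c J d lam hD n hn.1 hL
    simp only [Set.mem_iUnion]
    exact ⟨m, hdeg, hm, hn, hnat, hg⟩
  refine (hfinm.biUnion fun m _ => ?_).subset hcover
  by_cases hm : lam m = 0
  · have : {n : κ → ℚ | lam m ≠ 0 ∧ n ∈ NS w c β u ∧
        (∀ a, m a = 0 → (∃ z : ℤ, c a = z) → ∃ j : ℕ, n a = j) ∧ hdot h n ≤ g} = ∅ := by
      ext n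
      simp [hm]
    rw [this]
    exact Set.finite_empty
  · obtain ⟨k, -, hk⟩ := hD.2.2.2.1 m hm
    refine (finite_one hTRI1 (w := w) (c := c) hh β u g k).subset ?_
    rintro n ⟨-, hn, hnat, hg⟩
    refine ⟨hn, fun a ha => ?_, hg⟩
    apply hnat
    · by_contra hcon
      exact ha (hk a (Or.inl hcon))
    · by_contra hcon
      push Not at hcon
      exact ha (hk a (Or.inr hcon))

end Pool.Agent.Mono.NP
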