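import Pool.Agent.Work.Monodromy.Defs12

/-! # Phase 12, block FULL (helper21): existence of heights with `Full w h`

Take `ε : κ → ℝ` and `θ` with `(ε, θ)` linearly independent over `ℚ` and
`h a = ε a - N ∑ i, w a i`, `N = q θ` large: the cell of `k` for `h` is the cell of `k - N` for `ε`.
There are only finitely many cells for `ε`, hence all of them are seen by some `k ≥ - N`. -/

set_option autoImplicit false

namespace Pool.Agent.Mono.NP

open Finset

namespace FULLAux

theorem exists_indep (σ : Type) [Fintype σ] : ∃ f : σ → ℝ, LinearIndependent ℚ f := by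
  classical
  let b := Module.Basis.ofVectorSpace ℚ ℝ
  have hinf : Infinite (Module.Basis.ofVectorSpaceIndex ℚ ℝ) := by
    by_contra h
    rw [not_infinite_iff_finite] at h
    have := h
    have : Fintype (Module.Basis.ofVectorSpaceIndex ℚ ℝ) := Fintype.ofFinite _
    have e := b.equivFun
    have hc : Countable ℝ := e.toEquiv.injective.countable
    exact not_countable hc
  let g : σ ↪ Module.Basis.ofVectorSpaceIndex ℚ ℝ :=
    ((Fintype.equivFin σ).toEmbedding.trans Fin.valEmbedding).trans (Infinite.natEmbedding _)
  exact ⟨fun s => b (g s), b.linearIndependent.comp g g.injective⟩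

theorem exists_mul_ge (θ B : ℝ) (h : θ ≠ 0) : ∃ q : ℚ, B ≤ q * θ := by
  rcases lt_or_gt_of_ne h with h1 | h1
  · obtain ⟨q, hq⟩ := exists_rat_lt (B / θ)
    refine ⟨q, ?_⟩
    rw [lt_div_iff_of_neg h1] at hq
    exact hq.le
  · obtain ⟨q, hq⟩ := exists_rat_gt (B / θ)
    refine ⟨q, ?_⟩
    rw [div_lt_iff₀ h1] at hq
    exact hq.le

end FULLAux

open FULLAux in
theorem stmt_FULL : Stmt_FULL := by
  classical
  intro ι κ _ _ _ _ w hw
  obtain ⟨f, hf⟩ := exists_indep (Option κ)
  -- witnesses of the cells of `ε`
  have hwit : ∀ C : Finset κ, ∃ k : ι → ℝ, (∃ k0 : ι → ℝ,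
      C = univ.filter (fun a => ∀ b, hval w (fun a => f (some a)) k0 a ≤
        hval w (fun a => f (some a)) k0 b)) →
      C = univ.filter (fun a => ∀ b, hval w (fun a => f (some a)) k a ≤
        hval w (fun a => f (some a)) k b) := by
    intro C
    by_cases h : ∃ k0 : ι → ℝ,
      C = univ.filter (fun a => ∀ b, hval w (fun a => f (some a)) k0 a ≤
        hval w (fun a => f (some a)) k0 b)
    · obtain ⟨k, hk⟩ := h
      exact ⟨k, fun _ => hk⟩
    · exact ⟨0, fun h' => absurd h' h⟩
  choose kk hkk using hwit
  obtain ⟨B, hB⟩ := (Set.finite_range (fun p : Finset κ × ι => -kk p.1 p.2)).bddAbove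
  have hB' : ∀ C i, -kk C i ≤ B := fun C i => hB ⟨(C, i), rfl⟩
  obtain ⟨q, hq⟩ := exists_mul_ge (f none) B (hf.ne_zero none)
  refine ⟨fun a => f (some a) - q * f none * ∑ i, (w a i : ℝ), ?_, ?_⟩
  · rw [Fintype.linearIndependent_iff] at hf ⊢
    intro g hg a
    have h1 := hf (fun o => o.elim (-(q * ∑ a, g a * ∑ i, (w a i : ℚ))) g) (by
      rw [Fintype.sum_option]
      have h2 : ∑ a, g a • (f (some a) - q * f none * ∑ i, (w a i : ℝ)) =
          (∑ a, g a • f (some a)) - (q * ∑ a, (g a : ℝ) * ∑ i, (w a i : ℝ)) * f none := by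
        rw [Finset.mul_sum, Finset.sum_mul, ← Finset.sum_sub_distrib]
        apply Finset.sum_congr rfl
        intro a _
        simp only [Rat.smul_def]
        ring
      rw [h2] at hg
      simp only [Option.elim]
      rw [Rat.smul_def]
      push_cast
      linear_combination hg) (some a)
    exact h1
  · intro k
    have key : ∀ (k1 : ι → ℝ) (a : κ),
        hval w (fun a => f (some a) - q * f none * ∑ i, (w a i : ℝ)) (fun i => k1 i + q * f none) a =
        hval w (fun a => f (some a)) k1 a := by
      intro k1 a
      unfold hval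
      have h1 : ∑ i, (k1 i + q * f none) * (w a i : ℝ) =
          ∑ i, k1 i * (w a i : ℝ) + q * f none * ∑ i, (w a i : ℝ) := by
        rw [Finset.mul_sum, ← Finset.sum_add_distrib]
        apply Finset.sum_congr rfl
        intro i _
        ring
      rw [h1]
      ring
    set k0 : ι → ℝ := fun i => k i - q * f none with hk0
    have hkk0 : k = fun i => k0 i + q * f none := by
      funext i
      simp [hk0]
    set C : Finset κ := univ.filter (fun a => ∀ b, hval w (fun a => f (some a)) k0 a ≤
        hval w (fun a => f (some a)) k0 b) with hC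
    have hCk := hkk C ⟨k0, hC⟩
    refine ⟨fun i => kk C i + q * f none, ?_, ?_⟩
    · intro i
      have := hB' C i
      linarith
    · intro a ha
      rw [hkk0] at ha
      have haC : a ∈ C := by
        rw [hC, mem_filter]
        refine ⟨mem_univ _, fun b => ?_⟩
        have := ha b
        rwa [key, key] at this
      rw [hCk, mem_filter] at haC
      intro b
      rw [key, key]
      exact haC.2 b

end Pool.Agent.Mono.NP
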