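import Pool.Agent.Work.Monodromy.Interface12B

/-!
# Phase 12, block G: series which behave like `1/Γ(r + 1 - X)` (helper14)
-/

set_option autoImplicit false

namespace Pool.Agent.Mono.NP

namespace GAux

open PowerSeries

/-- the series for `r = r0 + m` -/
noncomputable def H (r0 : ℚ) : ℤ → PowerSeries ℚ
  | Int.ofNat n => ∏ j ∈ Finset.range n, (C (r0 + (j : ℚ) + 1) - X)⁻¹
  | Int.negSucc n => ∏ j ∈ Finset.range (n + 1), (C (r0 - (j : ℚ)) - X)

theorem cc (c : ℚ) : constantCoeff (C c - X : PowerSeries ℚ) = c := by simp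

theorem H_rel (r0 : ℚ) (h0 : 0 ≤ r0) (m : ℤ) :
    H r0 (m - 1) = (C (r0 + (m : ℚ)) - X) * H r0 m := by
  rcases m with n | n
  · rcases n with _ | n
    · change H r0 (Int.negSucc 0) = _
      simp [H]
    · have h1 : (Int.ofNat (n + 1) - 1 : ℤ) = Int.ofNat n := by
        simp
      rw [h1]
      have h2 : (C (r0 + ((Int.ofNat (n + 1) : ℤ) : ℚ)) - X : PowerSeries ℚ) =
          C (r0 + (n : ℚ) + 1) - X := by
        congr 2
        push_cast [Int.ofNat_eq_natCast]
        ring
      rw [h2, H, H, Finset.prod_range_succ, mul_comm (∏ x ∈ Finset.range n, _), ← mul_assoc,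
        PowerSeries.mul_inv_cancel, one_mul]
      rw [cc]
      positivity
  · have h1 : (Int.negSucc n - 1 : ℤ) = Int.negSucc (n + 1) := by
      omega
    rw [h1]
    have h2 : (C (r0 + ((Int.negSucc n : ℤ) : ℚ)) - X : PowerSeries ℚ) =
        C (r0 - ((n + 1 : ℕ) : ℚ)) - X := by
      congr 2
      rw [Int.cast_negSucc]
      ring
    rw [h2, H, H, Finset.prod_range_succ _ (n + 1), mul_comm]

theorem H_cc_nat (r0 : ℚ) (h0 : 0 ≤ r0) (n : ℕ) : constantCoeff (H r0 (Int.ofNat n)) ≠ 0 := by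
  rw [H, map_prod]
  refine Finset.prod_ne_zero_iff.2 fun j _ => ?_
  rw [PowerSeries.constantCoeff_inv, cc]
  positivity

theorem H_cc_neg (r0 : ℚ) (h0 : 0 < r0) (h1 : r0 < 1) (n : ℕ) :
    constantCoeff (H r0 (Int.negSucc n)) ≠ 0 := by
  rw [H, map_prod]
  refine Finset.prod_ne_zero_iff.2 fun j _ => ?_
  rw [cc]
  rcases j with _ | j
  · simpa using h0.ne'
  · push_cast
    have : (0 : ℚ) ≤ j := Nat.cast_nonneg j
    intro h
    linarith

theorem H_zero_neg (n : ℕ) : ∃ U : PowerSeries ℚ, constantCoeff U ≠ 0 ∧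
    H 0 (Int.negSucc n) = X * U := by
  refine ⟨-∏ j ∈ Finset.range n, (C (0 - ((j + 1 : ℕ) : ℚ)) - X), ?_, ?_⟩
  · rw [map_neg, neg_ne_zero, map_prod]
    refine Finset.prod_ne_zero_iff.2 fun j _ => ?_
    rw [cc]
    have : (0 : ℚ) ≤ j := Nat.cast_nonneg j
    push_cast
    intro h
    linarith
  · rw [H, Finset.prod_range_succ']
    simp only [Nat.cast_zero, sub_zero, map_zero, zero_sub]
    ring

end GAux

open GAux in
theorem stmt_G : Stmt_G := by
  have hfl : ∀ n : ℕ, Int.floor (-((n : ℚ) + 1)) = Int.negSucc n := by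
    intro n
    rw [show (-((n : ℚ) + 1)) = ((Int.negSucc n : ℤ) : ℚ) by rw [Int.cast_negSucc]; push_cast; ring]
    exact Int.floor_intCast _
  have hfr : ∀ n : ℕ, Int.fract (-((n : ℚ) + 1)) = 0 := by
    intro n
    rw [Int.fract, hfl, Int.cast_negSucc]
    push_cast
    ring
  refine ⟨fun r => H (Int.fract r) (Int.floor r), ?_, ?_, ?_, ?_⟩
  · intro r
    have h1 : Int.fract (r - 1) = Int.fract r := Int.fract_sub_one r
    have h2 : Int.floor (r - 1) = Int.floor r - 1 := Int.floor_sub_one r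
    simp only [h1, h2]
    rw [H_rel _ (Int.fract_nonneg r), Int.fract_add_floor]
  · intro n
    obtain ⟨U, -, hU⟩ := H_zero_neg n
    simp only [hfl, hfr]
    rw [hU, PowerSeries.coeff_zero_eq_constantCoeff_apply]
    simp
  · intro n
    obtain ⟨U, hU0, hU⟩ := H_zero_neg n
    simp only [hfl, hfr]
    rw [hU, show (1 : ℕ) = 0 + 1 from rfl, PowerSeries.coeff_succ_X_mul,
      PowerSeries.coeff_zero_eq_constantCoeff_apply]
    exact hU0
  · intro r hr
    simp only
    rw [PowerSeries.coeff_zero_eq_constantCoeff_apply]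
    rcases hm : Int.floor r with n | n
    · exact H_cc_nat _ (Int.fract_nonneg r) n
    · refine H_cc_neg _ ?_ (Int.fract_lt_one r) n
      refine lt_of_le_of_ne (Int.fract_nonneg r) fun h0 => ?_
      apply hr n
      have h3 := Int.fract_add_floor r
      rw [← h0, hm, Int.cast_negSucc, zero_add] at h3
      rw [← h3]
      push_cast
      ring

end Pool.Agent.Mono.NP
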