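import Pool.Agent.Work.Monodromy.Interface12B

/-!
# Phase 12, block LR (helper22)
-/

set_option autoImplicit false

namespace Pool.Agent.Mono.NP

namespace LRAux

variable {κ : Type} [Fintype κ] [DecidableEq κ]

/-- `Lam` as a sum over any finite set which contains the support of `lam` -/
theorem Lam_eq (G : ℚ → PowerSeries ℚ) (d : ℕ) (lam : (κ →₀ ℕ) → ℚ)
    (hdeg : ∀ m, lam m ≠ 0 → m.degree = d) (S : Finset (κ →₀ ℕ)) (hS : ∀ m, lam m ≠ 0 → m ∈ S)
    (n : κ → ℚ) :
    Lam G d lam n = ∑ m ∈ S, (∏ a, PowerSeries.coeff (m a) (G (n a))) * lam m := by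
  unfold Lam
  refine Finset.sum_bij_ne_zero (fun m _ _ => Finsupp.equivFunOnFinite.symm fun a => (m a : ℕ))
    ?_ ?_ ?_ ?_
  · intro m _ hm
    exact hS _ (right_ne_zero_of_mul hm)
  · intro m₁ _ _ m₂ _ _ h
    funext a
    apply Fin.ext
    have := DFunLike.congr_fun h a
    exact this
  · intro m _ hm
    have hl : lam m ≠ 0 := right_ne_zero_of_mul hm
    have hlt : ∀ a, m a < d + 1 := by
      intro a
      have h1 : m a ≤ m.degree := Finsupp.le_degree a m
      rw [hdeg m hl] at h1
      omega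
    have he : (Finsupp.equivFunOnFinite.symm fun a => ((⟨m a, hlt a⟩ : Fin (d + 1)) : ℕ)) = m := by
      ext a; rfl
    refine ⟨fun a => ⟨m a, hlt a⟩, Finset.mem_univ _, ?_, he⟩
    rw [he]
    exact hm
  · intro m _ _
    rfl

/-- one step of the recursion -/
theorem Lam_sub (G : ℚ → PowerSeries ℚ) (hG : IsG G) (d : ℕ) (lam : (κ →₀ ℕ) → ℚ)
    (hdeg : ∀ m, lam m ≠ 0 → m.degree = d) (S' : Finset (κ →₀ ℕ))
    (hS' : ∀ m a, lam (m + Finsupp.single a 1) ≠ 0 → m ∈ S') (n : κ → ℚ) (a : κ) :
    Lam G d lam (fun b => n b - if b = a then 1 else 0) = n a * Lam G d lam n -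
      ∑ m ∈ S', (∏ b, PowerSeries.coeff (m b) (G (n b))) * lam (m + Finsupp.single a 1) := by
  classical
  set S : Finset (κ →₀ ℕ) := (Finset.univ : Finset κ).finsuppAntidiag d with hSdef
  have hS : ∀ m, lam m ≠ 0 → m ∈ S := by
    intro m hm
    rw [hSdef, Finset.mem_finsuppAntidiag]
    refine ⟨?_, Finset.subset_univ _⟩
    rw [← hdeg m hm, Finsupp.degree_eq_sum]
  rw [Lam_eq G d lam hdeg S hS, Lam_eq G d lam hdeg S hS]
  -- coefficients
  have hco : ∀ (k : ℕ), PowerSeries.coeff k (G (n a - 1)) = n a * PowerSeries.coeff k (G (n a)) -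
      (if k = 0 then 0 else PowerSeries.coeff (k - 1) (G (n a))) := by
    intro k
    rw [hG.1, sub_mul, map_sub, PowerSeries.coeff_C_mul]
    congr 1
    cases k with
    | zero => simp
    | succ k => rw [PowerSeries.coeff_succ_X_mul]; simp
  have hprod : ∀ m : κ →₀ ℕ,
      (∏ b, PowerSeries.coeff (m b) (G ((fun b => n b - if b = a then 1 else 0) b))) =
      n a * (∏ b, PowerSeries.coeff (m b) (G (n b))) -
      (if m a = 0 then 0 else PowerSeries.coeff (m a - 1) (G (n a))) *
        ∏ b ∈ Finset.univ.erase a, PowerSeries.coeff (m b) (G (n b)) := by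
    intro m
    rw [← Finset.mul_prod_erase Finset.univ _ (Finset.mem_univ a),
      ← Finset.mul_prod_erase Finset.univ (fun b => PowerSeries.coeff (m b) (G (n b)))
        (Finset.mem_univ a)]
    have h1 : ∏ b ∈ Finset.univ.erase a,
        PowerSeries.coeff (m b) (G ((fun b => n b - if b = a then 1 else 0) b)) =
        ∏ b ∈ Finset.univ.erase a, PowerSeries.coeff (m b) (G (n b)) := by
      apply Finset.prod_congr rfl
      intro b hb
      have hba : b ≠ a := Finset.ne_of_mem_erase hb
      simp [hba]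
    rw [h1]
    have h2 : PowerSeries.coeff (m a) (G ((fun b => n b - if b = a then 1 else 0) a)) =
        PowerSeries.coeff (m a) (G (n a - 1)) := by simp
    rw [h2, hco]
    ring
  have hsum : ∑ m ∈ S, (∏ b, PowerSeries.coeff (m b)
      (G ((fun b => n b - if b = a then 1 else 0) b))) * lam m =
      n a * ∑ m ∈ S, (∏ b, PowerSeries.coeff (m b) (G (n b))) * lam m -
      ∑ m ∈ S, ((if m a = 0 then 0 else PowerSeries.coeff (m a - 1) (G (n a))) *
        ∏ b ∈ Finset.univ.erase a, PowerSeries.coeff (m b) (G (n b))) * lam m := by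
    rw [Finset.mul_sum, ← Finset.sum_sub_distrib]
    apply Finset.sum_congr rfl
    intro m _
    rw [hprod m]
    ring
  rw [hsum]
  congr 1
  symm
  refine Finset.sum_bij_ne_zero (fun m _ _ => m + Finsupp.single a 1) ?_ ?_ ?_ ?_
  · intro m _ hm
    exact hS _ (right_ne_zero_of_mul hm)
  · intro m₁ _ _ m₂ _ _ h
    exact add_right_cancel h
  · intro m _ hm
    have hma : m a ≠ 0 := by
      intro h0
      apply hm
      rw [h0]
      simp
    have he : (m - Finsupp.single a 1) + Finsupp.single a 1 = m := by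
      ext b
      by_cases hb : b = a
      · subst hb
        simp only [Finsupp.coe_add, Finsupp.coe_tsub, Pi.add_apply, Pi.sub_apply,
          Finsupp.single_eq_same]
        omega
      · simp [Ne.symm hb]
    have hl : lam m ≠ 0 := right_ne_zero_of_mul hm
    refine ⟨m - Finsupp.single a 1, hS' _ a (by rw [he]; exact hl), ?_, he⟩
    rw [he]
    intro h0
    apply hm
    refine Eq.trans ?_ h0
    rw [if_neg hma]
    congr 1
    rw [← Finset.mul_prod_erase Finset.univ (fun b => PowerSeries.coeff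
      ((m - (Finsupp.single a 1 : κ →₀ ℕ)) b) (G (n b))) (Finset.mem_univ a)]
    congr 1
    · simp
    · apply Finset.prod_congr rfl
      intro b hb
      have hba : b ≠ a := Finset.ne_of_mem_erase hb
      simp [Ne.symm hba]
  · intro m _ _
    congr 1
    rw [← Finset.mul_prod_erase Finset.univ (fun b => PowerSeries.coeff (m b) (G (n b)))
      (Finset.mem_univ a)]
    congr 1
    · simp
    · apply Finset.prod_congr rfl
      intro b hb
      have hba : b ≠ a := Finset.ne_of_mem_erase hb
      simp [Ne.symm hba]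

end LRAux

open LRAux

theorem stmt_LR : Stmt_LR := by
  intro G hG ι κ _ _ _ _ w h s₀ c J d lam hL n hn
  obtain ⟨hc, hci, hdeg, hcell, hface, hrel, hrel2, hm⟩ := hL
  classical
  set S' : Finset (κ →₀ ℕ) := (Finset.univ : Finset κ).finsuppAntidiag (d - 1) with hSdef
  have hS' : ∀ m a, lam (m + Finsupp.single a 1) ≠ 0 → m ∈ S' := by
    intro m a hm
    rw [hSdef, Finset.mem_finsuppAntidiag]
    refine ⟨?_, Finset.subset_univ _⟩
    have h1 := hdeg _ hm
    rw [map_add, Finsupp.degree_single] at h1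
    rw [← Finsupp.degree_eq_sum]
    omega
  have hcov : ∀ (j : ι) (m : κ →₀ ℕ), NCov w n j →
      ∏ b, PowerSeries.coeff (m b) (G (n b)) ≠ 0 → Cov w c m j := by
    intro j m ⟨a, hwa, ha⟩ hne
    refine ⟨a, hwa, ?_⟩
    rcases ha with ⟨k, hk⟩ | ha
    · left
      intro h0
      apply hne
      apply Finset.prod_eq_zero (Finset.mem_univ a)
      rw [h0, hk]
      exact hG.2.1 k
    · right
      intro z hz
      obtain ⟨z', hz'⟩ := hn a
      apply ha (z' - z)
      push_cast
      linarith
  constructor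
  · intro i hi
    have h1 : ∀ a, (w a i : ℚ) * Lam G d lam (fun b => n b - if b = a then 1 else 0) =
        (w a i : ℚ) * n a * Lam G d lam n -
        ∑ m ∈ S', (∏ b, PowerSeries.coeff (m b) (G (n b))) *
          ((w a i : ℚ) * lam (m + Finsupp.single a 1)) := by
      intro a
      rw [Lam_sub G hG d lam hdeg S' hS', mul_sub, Finset.mul_sum, ← mul_assoc]
      congr 1
      apply Finset.sum_congr rfl
      intro m _
      ring
    rw [Finset.sum_congr rfl fun a _ => h1 a, Finset.sum_sub_distrib, ← Finset.sum_mul,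
      Finset.sum_comm]
    have h2 : ∑ m ∈ S', ∑ a, (∏ b, PowerSeries.coeff (m b) (G (n b))) *
        ((w a i : ℚ) * lam (m + Finsupp.single a 1)) = 0 := by
      apply Finset.sum_eq_zero
      intro m _
      rw [← Finset.mul_sum]
      by_cases h0 : ∏ b, PowerSeries.coeff (m b) (G (n b)) = 0
      · rw [h0, zero_mul]
      · rw [hrel i m fun j hj hji => hcov j m (hi j hj hji) h0, mul_zero]
    rw [h2, sub_zero]
  · intro hi
    rw [Finset.sum_congr rfl fun a _ => Lam_sub G hG d lam hdeg S' hS' n a,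
      Finset.sum_sub_distrib, ← Finset.sum_mul, Finset.sum_comm]
    have h2 : ∑ m ∈ S', ∑ a, (∏ b, PowerSeries.coeff (m b) (G (n b))) *
        lam (m + Finsupp.single a 1) = 0 := by
      apply Finset.sum_eq_zero
      intro m _
      rw [← Finset.mul_sum]
      by_cases h0 : ∏ b, PowerSeries.coeff (m b) (G (n b)) = 0
      · rw [h0, zero_mul]
      · rw [hrel2 m fun j hj => hcov j m (hi j hj) h0, mul_zero]
    rw [h2, sub_zero]

end Pool.Agent.Mono.NP
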