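import Pool.Agent.Work.Monodromy.Interface12B

/-!
# Phase 12, block NZ (helper22)
-/

set_option autoImplicit false

namespace Pool.Agent.Mono.NP

namespace NZAux

/-- a multilinear functional which vanishes on all products of the families `φ a` -/
theorem multi {κ : Type} [Fintype κ] [DecidableEq κ] (d : ℕ) (φ : κ → Fin (d + 1) → Fin (d + 1) → ℚ)
    (mu : (κ → Fin (d + 1)) → ℚ) (ms : κ → Fin (d + 1))
    (hφ : ∀ a (L : Fin (d + 1) → ℚ), (∀ j, ∑ i, L i * φ a j i = 0) → L (ms a) = 0)
    (h0 : ∀ j : κ → Fin (d + 1), ∑ m : κ → Fin (d + 1), (∏ a, φ a (j a) (m a)) * mu m = 0) :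
    mu ms = 0 := by
  have key : ∀ A : Finset κ, ∀ j : κ → Fin (d + 1), ∑ m : κ → Fin (d + 1),
      (∏ a, if a ∈ A then (if m a = ms a then (1 : ℚ) else 0) else φ a (j a) (m a)) * mu m = 0 := by
    intro A
    induction A using Finset.induction_on with
    | empty =>
      intro j
      simpa using h0 j
    | insert a A haA ih =>
      intro j
      set R : (κ → Fin (d + 1)) → ℚ := fun m =>
        ∏ b ∈ Finset.univ.erase a,
          if b ∈ A then (if m b = ms b then (1 : ℚ) else 0) else φ b (j b) (m b) with hR
      have h1 := hφ a (fun i => ∑ m : κ → Fin (d + 1), (if m a = i then 1 else 0) * (R m * mu m)) ?_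
      · refine Eq.trans ?_ h1
        apply Finset.sum_congr rfl
        intro m _
        rw [← Finset.mul_prod_erase Finset.univ _ (Finset.mem_univ a), mul_assoc]
        rw [if_pos (Finset.mem_insert_self a A)]
        congr 2
        apply Finset.prod_congr rfl
        intro b hb
        have hba : b ≠ a := Finset.ne_of_mem_erase hb
        simp only [Finset.mem_insert, hba, false_or]
      · intro j'
        have h2 := ih (Function.update j a j')
        refine Eq.trans ?_ h2
        simp only [Finset.sum_mul]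
        rw [Finset.sum_comm]
        apply Finset.sum_congr rfl
        intro m _
        rw [Finset.sum_eq_single (m a)]
        · rw [if_pos rfl, one_mul, ← Finset.mul_prod_erase Finset.univ _ (Finset.mem_univ a),
            if_neg haA, Function.update_self]
          have h3 : R m = ∏ b ∈ Finset.univ.erase a,
              if b ∈ A then (if m b = ms b then (1 : ℚ) else 0)
              else φ b (Function.update j a j' b) (m b) := by
            apply Finset.prod_congr rfl
            intro b hb
            have hba : b ≠ a := Finset.ne_of_mem_erase hb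
            rw [Function.update_of_ne hba]
          rw [h3]
          ring
        · intro i _ hi
          rw [if_neg (Ne.symm hi)]
          ring
        · intro h; exact absurd (Finset.mem_univ _) h
  have h1 := key Finset.univ (fun _ => 0)
  rw [Finset.sum_eq_single ms] at h1
  · simpa using h1
  · intro m _ hm
    have : ∃ a, m a ≠ ms a := by
      by_contra h
      push Not at h
      exact hm (funext h)
    obtain ⟨a, ha⟩ := this
    rw [Finset.prod_eq_zero (Finset.mem_univ a), zero_mul]
    simp [ha]
  · intro h; exact absurd (Finset.mem_univ _) h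

end NZAux

open NZAux

theorem stmt_NZ (SP : Stmt_SP) : Stmt_NZ := by
  intro G hG ι κ _ _ _ _ w h s₀ c J d lam hL
  obtain ⟨hc, hci, hdeg, hcell, hface, hrel, hrel2, ms, hms, hlm⟩ := hL
  classical
  set W : ℕ := ∑ a, ∑ i, w a i with hW
  set K : ℕ := 1 + d * W with hK
  -- the base point
  have hr : ∀ a, ∃ r : ℚ, (∃ z : ℤ, r + c a = z) ∧
      ((ms a ≠ 0 ∨ ∀ z : ℤ, c a ≠ z) → r ≤ -(K : ℚ)) ∧
      ((ms a = 0 ∧ ∃ z : ℤ, c a = z) → r = d) ∧ r ≤ d := by
    intro a
    by_cases h1 : ms a ≠ 0 ∨ ∀ z : ℤ, c a ≠ z
    · refine ⟨-(K : ℚ) - c a + ⌊c a⌋, ⟨-(K : ℤ) + ⌊c a⌋, by push_cast; ring⟩, ?_, ?_, ?_⟩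
      · intro _
        have := Int.floor_le (c a)
        linarith
      · intro h2
        exfalso
        rcases h1 with h1 | h1
        · exact h1 h2.1
        · obtain ⟨z, hz⟩ := h2.2
          exact h1 z hz
      · have := Int.floor_le (c a)
        have h3 : (0 : ℚ) ≤ K := Nat.cast_nonneg K
        have h4 : (0 : ℚ) ≤ d := Nat.cast_nonneg d
        linarith
    · push Not at h1
      obtain ⟨h1, z, hz⟩ := h1
      exact ⟨d, ⟨d + z, by rw [hz]; push_cast; ring⟩, fun h2 => by
        exfalso
        rcases h2 with h2 | h2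
        · exact h2 h1
        · exact h2 z hz, fun _ => rfl, le_refl _⟩
  choose r hrz hrK hrd hrle using hr
  have hmsd : ∀ a, ms a < d + 1 := by
    intro a
    have h1 : ms a ≤ ms.degree := Finsupp.le_degree a ms
    rw [hdeg ms hlm] at h1
    omega
  -- nonvanishing for some shift
  have hne : ∃ j : κ → Fin (d + 1), Lam G d lam (fun a => r a - (j a : ℕ)) ≠ 0 := by
    by_contra hcon
    push Not at hcon
    have h1 := multi d (fun a j i => PowerSeries.coeff (i : ℕ) (G (r a - (j : ℕ))))
      (fun m => lam (Finsupp.equivFunOnFinite.symm fun a => (m a : ℕ)))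
      (fun a => ⟨ms a, hmsd a⟩) ?_ ?_
    · apply hlm
      have he : ms = Finsupp.equivFunOnFinite.symm
          fun a => (((fun a => ⟨ms a, hmsd a⟩ : κ → Fin (d + 1)) a : Fin (d + 1)) : ℕ) := by
        ext a; rfl
      rw [he]
      exact h1
    · intro a L hL
      have h2 := SP G hG (r a) d (fun i => if hi : i < d + 1 then L ⟨i, hi⟩ else 0) ?_ (ms a)
        (by have := hmsd a; omega) ?_
      · rw [dif_pos (hmsd a)] at h2
        exact h2
      · intro j hj
        rw [← hL ⟨j, by omega⟩, Finset.sum_range]
        apply Finset.sum_congr rfl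
        intro i _
        rw [dif_pos i.isLt]
      · by_cases h3 : ms a ≠ 0
        · left; omega
        · push Not at h3
          right
          intro k hk
          by_cases h4 : ∃ z : ℤ, c a = z
          · have h5 := hrd a ⟨h3, h4⟩
            rw [hk] at h5
            have h6 : (0 : ℚ) ≤ d := Nat.cast_nonneg d
            have h7 : (0 : ℚ) ≤ k := Nat.cast_nonneg k
            linarith
          · push Not at h4
            obtain ⟨z, hz⟩ := hrz a
            apply h4 (z + (k + 1))
            push_cast
            linarith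
    · intro j
      exact hcon j
  obtain ⟨j, hj⟩ := hne
  refine ⟨fun a => r a - (j a : ℕ), ?_, ?_, hj⟩
  · intro a
    obtain ⟨z, hz⟩ := hrz a
    exact ⟨z - (j a : ℕ), by push_cast; linarith⟩
  · intro i hi
    obtain ⟨a, hwa, ha⟩ := hms i hi
    have h1 : r a ≤ -(K : ℚ) := hrK a ha
    have h2 : ∑ b, (r b - (j b : ℕ)) * (w b i : ℚ) ≤
        ∑ b, ((d : ℚ) * w b i - if b = a then ((K : ℚ) + d) * w a i else 0) := by
      apply Finset.sum_le_sum
      intro b _
      by_cases hb : b = a
      · subst hb
        rw [if_pos rfl]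
        have h3 : (r b - (j b : ℕ)) ≤ -(K : ℚ) := by
          have : (0 : ℚ) ≤ (j b : ℕ) := Nat.cast_nonneg _
          linarith
        have h4 : (r b - (j b : ℕ)) * (w b i : ℚ) ≤ -(K : ℚ) * (w b i : ℚ) :=
          mul_le_mul_of_nonneg_right h3 (Nat.cast_nonneg _)
        linarith
      · rw [if_neg hb, sub_zero]
        apply mul_le_mul_of_nonneg_right _ (Nat.cast_nonneg _)
        have : (0 : ℚ) ≤ (j b : ℕ) := Nat.cast_nonneg _
        have := hrle b
        linarith
    have h3 : ∑ b, ((d : ℚ) * w b i - if b = a then ((K : ℚ) + d) * w a i else 0) =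
        (d : ℚ) * (∑ b, (w b i : ℚ)) - ((K : ℚ) + d) * w a i := by
      rw [Finset.sum_sub_distrib, Finset.mul_sum]
      simp
    have h4 : (1 : ℚ) ≤ w a i := by
      have : 1 ≤ w a i := Nat.one_le_iff_ne_zero.mpr hwa
      exact_mod_cast this
    have h5 : (∑ b, (w b i : ℚ)) ≤ W := by
      rw [hW]
      push_cast
      apply Finset.sum_le_sum
      intro b _
      exact Finset.single_le_sum (f := fun i => (w b i : ℚ)) (fun i _ => Nat.cast_nonneg _)
        (Finset.mem_univ i)
    have h6 : (K : ℚ) = 1 + d * W := by rw [hK]; push_cast; ring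
    have h7 : (d : ℚ) * (∑ b, (w b i : ℚ)) ≤ d * W :=
      mul_le_mul_of_nonneg_left h5 (Nat.cast_nonneg _)
    have h8 : (K : ℚ) + d ≤ ((K : ℚ) + d) * w a i := by
      have h9 : (0 : ℚ) ≤ (K : ℚ) + d := by positivity
      nlinarith
    have h10 : (0 : ℚ) ≤ d := Nat.cast_nonneg d
    calc ∑ b, (r b - (j b : ℕ)) * (w b i : ℚ) ≤ _ := h2
      _ = _ := h3
      _ ≤ -1 := by linarith

end Pool.Agent.Mono.NP
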