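import Pool.Agent.Work.Monodromy.Interface12B

/-!
# Phase 12, block PHI (helper49)
-/

set_option autoImplicit false

namespace Pool.Agent.Mono.NP

open MvPolynomial

namespace PHIAux

section

variable {ι κ : Type} [Fintype ι] [DecidableEq ι] [Fintype κ] [DecidableEq κ]

theorem hdot_inj {h : κ → ℝ} (hh : LinearIndependent ℚ h) {n n' : κ → ℚ}
    (e : hdot h n = hdot h n') : n = n' := by
  have h1 := Fintype.linearIndependent_iff.1 hh (fun a => n a - n' a) (by
    unfold hdot at e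
    have : ∑ a, (n a - n' a) • h a = ∑ a, (n a : ℝ) * h a - ∑ a, (n' a : ℝ) * h a := by
      rw [← Finset.sum_sub_distrib]
      refine Finset.sum_congr rfl fun a _ => ?_
      rw [Rat.smul_def]
      push_cast
      ring
    rw [this, e, sub_self])
  funext a
  have := h1 a
  linarith

/-- the support -/
def supp (w : κ → ι → ℕ) (h : κ → ℝ) (c : κ → ℚ) (L : (κ → ℚ) → ℚ) (β : ℚ) (u : ι → ℚ) :
    Set ℝ :=
  {γ | ∃ n ∈ NS w c β u, L n ≠ 0 ∧ hdot h n = γ}

theorem supp_isPWO {w : κ → ι → ℕ} {h : κ → ℝ} {c : κ → ℚ} {L : (κ → ℚ) → ℚ} {β : ℚ}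
    {u : ι → ℚ} (hfin : ∀ g : ℝ, {n : κ → ℚ | n ∈ NS w c β u ∧ L n ≠ 0 ∧ hdot h n ≤ g}.Finite) :
    (supp w h c L β u).IsPWO := by
  rw [Set.isPWO_iff_isWF, Set.isWF_iff_no_descending_seq]
  intro f hf hall
  have h1 : Set.range f ⊆
      (hdot h) '' {n : κ → ℚ | n ∈ NS w c β u ∧ L n ≠ 0 ∧ hdot h n ≤ f 0} := by
    rintro _ ⟨k, rfl⟩
    obtain ⟨n, hn, hL, he⟩ := hall k
    refine ⟨n, ⟨hn, hL, ?_⟩, he⟩
    rw [he]
    exact hf.antitone (Nat.zero_le k)
  have h2 : (Set.range f).Finite := ((hfin (f 0)).image _).subset h1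
  exact Set.infinite_range_of_injective hf.injective h2

open Classical in
/-- the coefficients -/
noncomputable def cof (w : κ → ι → ℕ) (h : κ → ℝ) (c : κ → ℚ) (L : (κ → ℚ) → ℚ) (β : ℚ)
    (u : ι → ℚ) (γ : ℝ) : ℚ :=
  if e : ∃ n ∈ NS w c β u, hdot h n = γ then L e.choose else 0

theorem cof_eq {w : κ → ι → ℕ} {h : κ → ℝ} {c : κ → ℚ} (L : (κ → ℚ) → ℚ) {β : ℚ} {u : ι → ℚ}
    (hh : LinearIndependent ℚ h) {n : κ → ℚ} (hn : n ∈ NS w c β u) :
    cof w h c L β u (hdot h n) = L n := by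
  have e : ∃ n' ∈ NS w c β u, hdot h n' = hdot h n := ⟨n, hn, rfl⟩
  unfold cof
  rw [dif_pos e]
  rw [hdot_inj hh e.choose_spec.2]

theorem cof_zero {w : κ → ι → ℕ} {h : κ → ℝ} {c : κ → ℚ} (L : (κ → ℚ) → ℚ) {β : ℚ} {u : ι → ℚ}
    {γ : ℝ} (hn : ¬ ∃ n ∈ NS w c β u, hdot h n = γ) : cof w h c L β u γ = 0 := by
  unfold cof
  rw [dif_neg hn]

theorem support_cof {w : κ → ι → ℕ} {h : κ → ℝ} {c : κ → ℚ} (L : (κ → ℚ) → ℚ) {β : ℚ}
    {u : ι → ℚ} (hh : LinearIndependent ℚ h) :
    Function.support (cof w h c L β u) ⊆ supp w h c L β u := by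
  intro γ hγ
  by_cases e : ∃ n ∈ NS w c β u, hdot h n = γ
  · obtain ⟨n, hn, rfl⟩ := e
    refine ⟨n, hn, ?_, rfl⟩
    rw [← cof_eq L hh hn]
    exact hγ
  · exact absurd (cof_zero L e) hγ

/-- `n - e_a` -/
def sub1 (n : κ → ℚ) (a : κ) : κ → ℚ := fun b => n b - if b = a then 1 else 0

theorem hdot_sub1 (h : κ → ℝ) (n : κ → ℚ) (a : κ) : hdot h (sub1 n a) = hdot h n - h a := by
  unfold hdot sub1
  have : ∀ b, ((n b - if b = a then (1 : ℚ) else 0 : ℚ) : ℝ) * h b =
      (n b : ℝ) * h b - if b = a then h a else 0 := by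
    intro b
    by_cases hb : b = a
    · subst hb
      simp only [if_true]
      push_cast
      ring
    · simp [hb]
  simp only [this]
  rw [Finset.sum_sub_distrib]
  simp

theorem sub1_mem {w : κ → ι → ℕ} {c : κ → ℚ} {β : ℚ} {u : ι → ℚ} {n : κ → ℚ} (a : κ) :
    sub1 n a ∈ NS w c (β - 1) (fun j => u j + w a j) ↔ n ∈ NS w c β u := by
  have h1 : ∀ i, ∑ b, sub1 n a b * w b i = ∑ b, n b * w b i - w a i := by
    intro i
    unfold sub1
    have : ∀ b, (n b - if b = a then (1 : ℚ) else 0) * (w b i : ℚ) =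
        n b * w b i - if b = a then (w a i : ℚ) else 0 := by
      intro b
      by_cases hb : b = a
      · subst hb
        simp only [if_true]
        ring
      · simp [hb]
    simp only [this]
    rw [Finset.sum_sub_distrib]
    simp
  have h2 : ∑ b, sub1 n a b = ∑ b, n b - 1 := by
    unfold sub1
    rw [Finset.sum_sub_distrib]
    simp
  unfold NS
  simp only [Set.mem_setOf_eq, h1, h2]
  constructor
  · rintro ⟨hz, hi, hs⟩
    refine ⟨fun b => ?_, fun i => by linarith [hi i], by linarith⟩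
    obtain ⟨z, hz⟩ := hz b
    by_cases hb : b = a
    · refine ⟨z + 1, ?_⟩
      unfold sub1 at hz
      rw [if_pos hb] at hz
      push_cast
      linarith
    · refine ⟨z, ?_⟩
      unfold sub1 at hz
      rw [if_neg hb] at hz
      linarith
  · rintro ⟨hz, hi, hs⟩
    refine ⟨fun b => ?_, fun i => by linarith [hi i], by linarith⟩
    obtain ⟨z, hz⟩ := hz b
    by_cases hb : b = a
    · refine ⟨z - 1, ?_⟩
      unfold sub1
      rw [if_pos hb]
      push_cast
      linarith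
    · refine ⟨z, ?_⟩
      unfold sub1
      rw [if_neg hb]
      linarith

/-- the coefficients satisfy the relation -/
theorem cof_rel {w : κ → ι → ℕ} {h : κ → ℝ} {c : κ → ℚ} (L : (κ → ℚ) → ℚ) {β : ℚ} {u : ι → ℚ}
    (hh : LinearIndependent ℚ h) (θ : κ → ℚ) (r : ℚ)
    (hrel : ∀ n ∈ NS w c β u, ∑ a, θ a * L (sub1 n a) = r * L n) (γ : ℝ) :
    ∑ a, θ a * cof w h c L (β - 1) (fun j => u j + w a j) (γ - h a) = r * cof w h c L β u γ := by
  by_cases e : ∃ n ∈ NS w c β u, hdot h n = γ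
  · obtain ⟨n, hn, rfl⟩ := e
    rw [cof_eq L hh hn, ← hrel n hn]
    refine Finset.sum_congr rfl fun a _ => ?_
    rw [← hdot_sub1, cof_eq L hh ((sub1_mem a).2 hn)]
  · rw [cof_zero L e, mul_zero]
    refine Finset.sum_eq_zero fun a _ => ?_
    rw [cof_zero L, mul_zero]
    rintro ⟨n', hn', hγ⟩
    apply e
    have h1 : sub1 (fun b => n' b + if b = a then 1 else 0) a = n' := by
      funext b
      unfold sub1
      ring
    refine ⟨fun b => n' b + if b = a then 1 else 0, (sub1_mem a).1 (by rw [h1]; exact hn'), ?_⟩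
    have h2 := hdot_sub1 h (fun b => n' b + if b = a then 1 else 0) a
    rw [h1, hγ] at h2
    linarith

end

end PHIAux

open PHIAux in
theorem stmt_PHI (hLR : Stmt_LR) (hFIN : Stmt_FIN) : Stmt_PHI := by
  intro G hG ι κ _ _ _ _ w h s₀ c J d lam hh hD
  have hfin := hFIN G hG ι κ w h s₀ c J d lam hh hD
  set L : (κ → ℚ) → ℚ := Lam G d lam with hL
  let Φ : ℚ → (ι → ℚ) → HahnSeries ℝ ℚ := fun β u =>
    { coeff := cof w h c L β u
      isPWO_support' := (supp_isPWO (hfin β u)).mono (support_cof L hh) }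
  have hcoeff : ∀ β u γ, (Φ β u).coeff γ = cof w h c L β u γ := fun _ _ _ => rfl
  have hLR1 := hLR G hG ι κ w h s₀ c J d lam hD
  have hcov : ∀ (β : ℚ) (u : ι → ℚ) (n : κ → ℚ), n ∈ NS w c β u → ∀ j, 1 ≤ u j →
      NCov w n j := by
    intro β u n hn j hj
    have h1 : ∑ a, n a * w a j < 0 := by
      rw [hn.2.1 j]
      linarith
    obtain ⟨a, -, ha⟩ := Finset.exists_lt_of_sum_lt (s := Finset.univ)
      (f := fun a => n a * (w a j : ℚ)) (g := fun _ => 0) (by simpa using h1)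
    have hw : w a j ≠ 0 := by
      intro h0
      simp [h0] at ha
    have hna : n a < 0 := by
      by_contra hcon
      push Not at hcon
      have : 0 ≤ n a * (w a j : ℚ) := mul_nonneg hcon (by positivity)
      linarith
    refine ⟨a, hw, ?_⟩
    by_cases hz : ∃ z : ℤ, n a = z
    · left
      obtain ⟨z, hz⟩ := hz
      have hz0 : z < 0 := by
        rw [hz] at hna
        exact_mod_cast hna
      refine ⟨(-z - 1).toNat, ?_⟩
      have h2 : (((-z - 1).toNat : ℤ) : ℚ) = ((-z - 1 : ℤ) : ℚ) := by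
        rw [Int.toNat_of_nonneg (by omega)]
      rw [hz]
      have h3 : (((-z - 1).toNat : ℕ) : ℚ) = ((-z - 1 : ℤ) : ℚ) := by exact_mod_cast h2
      rw [h3]
      push_cast
      ring
    · right
      push Not at hz
      exact hz
  refine ⟨Φ, ?_, ?_, ?_, ?_⟩
  · intro β u n hn
    rw [hcoeff, cof_eq L hh hn]
  · intro β u hne
    by_contra hcon
    push Not at hcon
    apply hne
    ext γ
    rw [hcoeff]
    by_cases e : ∃ n ∈ NS w c β u, hdot h n = γ
    · obtain ⟨n, hn, rfl⟩ := e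
      rw [cof_eq L hh hn, hcon n hn]
      rfl
    · rw [cof_zero L e]
      rfl
  · intro β u i hu
    ext γ
    rw [HahnSeries.coeff_sum, HahnSeries.C_mul_eq_smul, HahnSeries.coeff_smul, smul_eq_mul,
      hcoeff, ← cof_rel L hh (fun a => (w a i : ℚ)) (-u i)]
    · refine Finset.sum_congr rfl fun a _ => ?_
      rw [HahnSeries.C_mul_eq_smul, HahnSeries.coeff_smul, smul_eq_mul,
        HahnSeries.coeff_single_mul, one_mul, hcoeff]
    · intro n hn
      have h1 := (hLR1 n hn.1).1 i (fun j hj hji => hcov β u n hn j (hu j hj hji))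
      have h2 : ∑ a, (w a i : ℚ) * n a = -u i := by
        rw [← hn.2.1 i]
        exact Finset.sum_congr rfl fun a _ => mul_comm _ _
      rw [h2] at h1
      exact h1
  · intro β u hu
    ext γ
    rw [HahnSeries.coeff_sum, HahnSeries.C_mul_eq_smul, HahnSeries.coeff_smul, smul_eq_mul,
      hcoeff, ← cof_rel L hh (fun _ => 1) β]
    · refine Finset.sum_congr rfl fun a _ => ?_
      rw [HahnSeries.coeff_single_mul, one_mul, hcoeff]
    · intro n hn
      have h1 := (hLR1 n hn.1).2 (fun j hj => hcov β u n hn j (hu j hj))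
      rw [hn.2.2] at h1
      simp only [one_mul]
      exact h1

end Pool.Agent.Mono.NP
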