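import Pool.Agent.Work.Monodromy.Interface12B

/-! # Phase 12, block SP: the shifts of `G_r` span everything which they can span (helper52) -/

set_option autoImplicit false

namespace Pool.Agent.Mono.NP

namespace SPAux

open PowerSeries

/-- the functional `f ↦ ∑_{i ≤ D} L_i f_i` -/
noncomputable def fn (D : ℕ) (L : ℕ → ℚ) (f : PowerSeries ℚ) : ℚ :=
  ∑ i ∈ Finset.range (D + 1), L i * PowerSeries.coeff i f

theorem fn_sub (D : ℕ) (L : ℕ → ℚ) (f g : PowerSeries ℚ) :
    fn D L (f - g) = fn D L f - fn D L g := by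
  unfold fn
  rw [← Finset.sum_sub_distrib]
  apply Finset.sum_congr rfl
  intro i _
  rw [map_sub]
  ring

theorem fn_C_mul (D : ℕ) (L : ℕ → ℚ) (c : ℚ) (f : PowerSeries ℚ) :
    fn D L (PowerSeries.C c * f) = c * fn D L f := by
  unfold fn
  rw [Finset.mul_sum]
  apply Finset.sum_congr rfl
  intro i _
  rw [PowerSeries.coeff_C_mul]
  ring

theorem fn_X_pow (G : ℚ → PowerSeries ℚ)
    (hG : ∀ r : ℚ, G (r - 1) = (PowerSeries.C r - PowerSeries.X) * G r) (r : ℚ) (D : ℕ)
    (L : ℕ → ℚ) (h : ∀ j ≤ D, fn D L (G (r - j)) = 0) (m : ℕ) :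
    ∀ k : ℕ, k + m ≤ D → fn D L (PowerSeries.X ^ m * G (r - k)) = 0 := by
  induction m with
  | zero =>
    intro k hk
    rw [pow_zero, one_mul]
    exact h k hk
  | succ m ih =>
    intro k hk
    have h1 : PowerSeries.X ^ (m + 1) * G (r - k) =
        PowerSeries.C (r - k) * (PowerSeries.X ^ m * G (r - k)) -
          PowerSeries.X ^ m * G (r - ((k + 1 : ℕ) : ℚ)) := by
      have h2 : r - ((k + 1 : ℕ) : ℚ) = (r - k) - 1 := by
        push_cast
        ring
      rw [h2, hG]
      ring
    rw [h1, fn_sub, fn_C_mul, ih k (by omega), ih (k + 1) (by omega)]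
    ring

theorem zero_of (g : PowerSeries ℚ) (D s : ℕ) (L : ℕ → ℚ)
    (h : ∀ m ≤ D, fn D L (PowerSeries.X ^ m * g) = 0) (h0 : ∀ t < s, PowerSeries.coeff t g = 0)
    (h1 : PowerSeries.coeff s g ≠ 0) (n : ℕ) : ∀ i, i + n = D → s ≤ i → L i = 0 := by
  induction n using Nat.strong_induction_on with
  | _ n ih =>
    intro i hi hs
    have h2 := h (i - s) (by omega)
    unfold fn at h2
    rw [Finset.sum_eq_single i] at h2
    · rw [PowerSeries.coeff_X_pow_mul', if_pos (Nat.sub_le i s)] at h2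
      have h3 : i - (i - s) = s := by omega
      rw [h3] at h2
      exact (mul_eq_zero.1 h2).resolve_right h1
    · intro j hj hji
      rw [Finset.mem_range] at hj
      rcases lt_or_gt_of_ne hji with hlt | hgt
      · rw [PowerSeries.coeff_X_pow_mul']
        split_ifs with h4
        · rw [h0 _ (by omega), mul_zero]
        · rw [mul_zero]
      · rw [ih (D - j) (by omega) j (by omega) (by omega), zero_mul]
    · intro h4
      exact absurd (Finset.mem_range.2 (by omega)) h4

end SPAux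

open SPAux in
theorem stmt_SP : Stmt_SP := by
  intro G hG r D L h i hi hir
  obtain ⟨hG1, hG2, hG3, hG4⟩ := hG
  have hA : ∀ m ≤ D, fn D L (PowerSeries.X ^ m * G r) = 0 := by
    intro m hm
    have h1 := fn_X_pow G hG1 r D L h m 0 (by omega)
    rwa [Nat.cast_zero, sub_zero] at h1
  by_cases hr : ∀ n : ℕ, r ≠ -(n + 1)
  · exact zero_of (G r) D 0 L hA (fun t ht => absurd ht (Nat.not_lt_zero t)) (hG4 r hr) (D - i) i
      (by omega) (Nat.zero_le i)
  · have h1 : 1 ≤ i := hir.resolve_right hr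
    push Not at hr
    obtain ⟨n, rfl⟩ := hr
    refine zero_of (G (-(n + 1))) D 1 L hA ?_ (hG3 n) (D - i) i (by omega) h1
    intro t ht
    have h2 : t = 0 := by omega
    rw [h2]
    exact hG2 n

end Pool.Agent.Mono.NP
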