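import Pool.Agent.Work.Monodromy.Interface12B

/-!
# Phase 12, block SUPP (helper22)
-/

set_option autoImplicit false

namespace Pool.Agent.Mono.NP

theorem stmt_SUPP : Stmt_SUPP := by
  intro G hG ι κ _ _ _ _ w h s₀ c J d lam hL n hn hne
  obtain ⟨hc, hci, hdeg, hcell, hface, hrel, hrel2, hm⟩ := hL
  obtain ⟨m', -, hm'⟩ := Finset.exists_ne_zero_of_sum_ne_zero hne
  set m : κ →₀ ℕ := Finsupp.equivFunOnFinite.symm fun a => (m' a : ℕ) with hmdef
  have hma : ∀ a, m a = (m' a : ℕ) := fun a => rfl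
  have hlam : lam m ≠ 0 := right_ne_zero_of_mul hm'
  have hco : ∀ a, PowerSeries.coeff (m a) (G (n a)) ≠ 0 := by
    intro a h0
    apply left_ne_zero_of_mul hm'
    exact Finset.prod_eq_zero (Finset.mem_univ a) h0
  have hnat : ∀ a, m a = 0 → (∃ z : ℤ, c a = z) → ∃ k : ℕ, n a = k := by
    intro a h0 ⟨z, hz⟩
    obtain ⟨z', hz'⟩ := hn a
    have hnz : n a = ((z' - z : ℤ) : ℚ) := by push_cast; linarith
    rcases le_or_gt 0 (z' - z) with h1 | h1
    · obtain ⟨k, hk⟩ := Int.eq_ofNat_of_zero_le h1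
      refine ⟨k, ?_⟩
      rw [hnz, hk]; simp
    · exfalso
      obtain ⟨k, hk⟩ := Int.eq_ofNat_of_zero_le (show 0 ≤ -(z' - z) - 1 by omega)
      have h2 : n a = -((k : ℚ) + 1) := by
        have h3 : z' - z = -((k : ℤ) + 1) := by omega
        rw [hnz, h3]; push_cast; ring
      have h3 := hG.2.1 k
      rw [← h2] at h3
      have h4 := hco a
      rw [h0] at h4
      exact h4 h3
  refine ⟨⟨m, hlam, hdeg m hlam, hnat⟩, ?_⟩
  intro hle
  obtain ⟨x, N, hN, hx0, hxJ, hxw, hxe⟩ := hface m hlam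
  have h1 : 0 ≤ ∑ a, n a * ((∑ i, x i * w a i) - N) := by
    apply Finset.sum_nonneg
    intro a _
    by_cases h2 : m a ≠ 0 ∨ ∀ z : ℤ, c a ≠ z
    · rw [hxe a h2]; simp
    · push Not at h2
      obtain ⟨k, hk⟩ := hnat a h2.1 h2.2
      rw [hk]
      apply mul_nonneg (Nat.cast_nonneg k)
      have := hxw a
      linarith
  have h2 : ∑ a, n a * ((∑ i, x i * w a i) - N) =
      (∑ i, x i * ∑ a, n a * w a i) - N * ∑ a, n a := by
    simp only [mul_sub, Finset.sum_sub_distrib, Finset.mul_sum]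
    rw [Finset.sum_comm]
    congr 1
    · apply Finset.sum_congr rfl
      intro i _
      apply Finset.sum_congr rfl
      intro a _
      ring
    · apply Finset.sum_congr rfl
      intro a _
      ring
  have h3 : ∑ i, x i * ∑ a, n a * w a i ≤ 0 := by
    apply Finset.sum_nonpos
    intro i _
    by_cases hi : i ∈ J
    · rw [hxJ i hi]; simp
    · exact mul_nonpos_of_nonneg_of_nonpos (hx0 i) (hle i hi)
  rw [h2] at h1
  have h4 : N * ∑ a, n a ≤ 0 := by linarith
  by_contra h5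
  push Not at h5
  have := mul_pos hN h5
  linarith

end Pool.Agent.Mono.NP
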