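import Pool.Agent.Work.Monodromy.Interface12A

/-!
# Phase 12, block TRI1: the vectors of a cell are linearly independent (helper45)
-/

set_option autoImplicit false

namespace Pool.Agent.Mono.NP

open MvPolynomial

theorem stmt_TRI1 : Stmt_TRI1 := by
  classical
  intro ι κ _ _ _ _ w h k x hh hx hs
  -- coordinates
  have hstar : ∑ a, x (Sum.inl a) = 0 := by
    have h1 := hs (Sum.inr ())
    rw [Fintype.sum_sum_type] at h1
    simpa [hat] using h1
  have hrow : ∀ i, ∑ a, x (Sum.inl a) * (w a i : ℚ) + x (Sum.inr i) = 0 := by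
    intro i
    have h1 := hs (Sum.inl i)
    rw [Fintype.sum_sum_type] at h1
    simp only [hat, Sum.elim_inl, Sum.elim_inr] at h1
    rw [Finset.sum_eq_single i] at h1
    · rw [Pi.single_eq_same, mul_one] at h1
      exact h1
    · intro j _ hj
      rw [Pi.single_eq_of_ne (Ne.symm hj), mul_zero]
    · intro hi
      exact absurd (Finset.mem_univ i) hi
  -- the common value
  obtain ⟨N, hN⟩ : ∃ N : ℝ, ∀ a, x (Sum.inl a) ≠ 0 → hval w h k a = N := by
    by_cases h0 : ∃ a0, x (Sum.inl a0) ≠ 0
    · obtain ⟨a0, ha0⟩ := h0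
      have hmem : ∀ a, x (Sum.inl a) ≠ 0 → ∀ b, hval w h k a ≤ hval w h k b := by
        intro a ha
        by_contra hcon
        apply ha
        apply hx
        intro hmem
        unfold cell at hmem
        rw [Finset.mem_filter] at hmem
        exact hcon hmem.2
      exact ⟨hval w h k a0, fun a ha => le_antisymm (hmem a ha a0) (hmem a0 ha0 a)⟩
    · push Not at h0
      exact ⟨0, fun a ha => absurd (h0 a) ha⟩
  have hk : ∀ i, k i * (x (Sum.inr i) : ℝ) = 0 := by
    intro i
    by_cases hi : x (Sum.inr i) = 0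
    · rw [hi, Rat.cast_zero, mul_zero]
    · have : k i = 0 := by
        by_contra hcon
        apply hi
        apply hx
        intro hmem
        unfold cell at hmem
        rw [Finset.mem_filter] at hmem
        exact hcon hmem.2
      rw [this, zero_mul]
  have h1 : ∑ a, (x (Sum.inl a) : ℝ) * hval w h k a = 0 := by
    have : ∀ a, (x (Sum.inl a) : ℝ) * hval w h k a = (x (Sum.inl a) : ℝ) * N := by
      intro a
      by_cases ha : x (Sum.inl a) = 0
      · rw [ha, Rat.cast_zero, zero_mul, zero_mul]
      · rw [hN a ha]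
    rw [Finset.sum_congr rfl fun a _ => this a, ← Finset.sum_mul, ← Rat.cast_sum, hstar,
      Rat.cast_zero, zero_mul]
  have h2 : ∑ a, (x (Sum.inl a) : ℝ) * h a = 0 := by
    have h3 : ∑ a, (x (Sum.inl a) : ℝ) * hval w h k a =
        ∑ i, k i * ((∑ a, x (Sum.inl a) * (w a i : ℚ) : ℚ) : ℝ) +
          ∑ a, (x (Sum.inl a) : ℝ) * h a := by
      unfold hval
      simp only [mul_add, Finset.sum_add_distrib, Rat.cast_sum, Rat.cast_mul, Rat.cast_natCast,
        Finset.mul_sum]
      rw [Finset.sum_comm]
      congr 1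
      refine Finset.sum_congr rfl fun i _ => Finset.sum_congr rfl fun a _ => ?_
      ring
    rw [h1] at h3
    have h4 : ∀ i, k i * ((∑ a, x (Sum.inl a) * (w a i : ℚ) : ℚ) : ℝ) = 0 := by
      intro i
      have h5 : (∑ a, x (Sum.inl a) * (w a i : ℚ) : ℚ) = -x (Sum.inr i) := by
        have := hrow i
        linarith
      rw [h5, Rat.cast_neg, mul_neg, hk i, neg_zero]
    rw [Finset.sum_eq_zero fun i _ => h4 i, zero_add] at h3
    exact h3.symm
  have h3 : ∀ a, x (Sum.inl a) = 0 := by
    rw [Fintype.linearIndependent_iff] at hh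
    apply hh
    rw [← h2]
    refine Finset.sum_congr rfl fun a _ => ?_
    exact Rat.smul_def (x (Sum.inl a)) (h a)
  rintro (a | i)
  · exact h3 a
  · have h4 := hrow i
    simp only [h3, zero_mul, Finset.sum_const_zero, zero_add] at h4
    exact h4

end Pool.Agent.Mono.NP
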