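import Pool.Agent.Work.Monodromy.Interface12B
import Pool.Agent.Work.Monodromy4.WB

/-!
# Phase 12, block WITA: a function with the relations gives a witness (helper14)
-/

set_option autoImplicit false

namespace Pool.Agent.Mono.NP

open MvPolynomial

namespace WITAAux

variable {ι : Type} [DecidableEq ι]

/-- functions on `ι → ℤ`; `X_i` and `∂_i` shift the argument -/
noncomputable def W (ν : ι → ℚ) : BP.WMod ℂ ((ι → ℤ) → ℂ) ι where
  X' i :=
    { toFun := fun φ u => φ (u + Pi.single i 1)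
      map_add' := fun φ ψ => rfl
      map_smul' := fun c φ => rfl }
  D' i :=
    { toFun := fun φ u => -((u i : ℂ) + (ν i : ℂ)) * φ (u - Pi.single i 1)
      map_add' := fun φ ψ => by
        funext u
        simp only [Pi.add_apply]
        ring
      map_smul' := fun c φ => by
        funext u
        simp only [Pi.smul_apply, smul_eq_mul, RingHom.id_apply]
        ring }
  XX i j := by
    refine LinearMap.ext fun φ => funext fun u => ?_
    change φ (u + Pi.single i 1 + Pi.single j 1) = φ (u + Pi.single j 1 + Pi.single i 1)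
    rw [add_right_comm]
  DD i j := by
    refine LinearMap.ext fun φ => funext fun u => ?_
    change -((u i : ℂ) + (ν i : ℂ)) * (-(((u - Pi.single i 1 : ι → ℤ) j : ℂ) + (ν j : ℂ)) *
        φ (u - Pi.single i 1 - Pi.single j 1)) =
      -((u j : ℂ) + (ν j : ℂ)) * (-(((u - Pi.single j 1 : ι → ℤ) i : ℂ) + (ν i : ℂ)) *
        φ (u - Pi.single j 1 - Pi.single i 1))
    rw [sub_right_comm u (Pi.single i 1) (Pi.single j 1)]
    by_cases h : i = j
    · subst h
      ring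
    · rw [Pi.sub_apply, Pi.sub_apply, Pi.single_eq_of_ne (Ne.symm h), Pi.single_eq_of_ne h]
      push_cast
      ring
  DX i j := by
    refine LinearMap.ext fun φ => funext fun u => ?_
    have h2 : ((if i = j then (1 : Module.End ℂ ((ι → ℤ) → ℂ)) else 0) φ) u =
        if i = j then φ u else 0 := by
      split_ifs <;> rfl
    change -((u i : ℂ) + (ν i : ℂ)) * φ (u - Pi.single i 1 + Pi.single j 1) =
      -(((u + Pi.single j 1 : ι → ℤ) i : ℂ) + (ν i : ℂ)) * φ (u + Pi.single j 1 - Pi.single i 1) +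
        ((if i = j then (1 : Module.End ℂ ((ι → ℤ) → ℂ)) else 0) φ) u
    rw [h2]
    by_cases h : i = j
    · subst h
      rw [if_pos rfl, sub_add_cancel, add_sub_cancel_right, Pi.add_apply, Pi.single_eq_same]
      push_cast
      ring
    · rw [if_neg h, Pi.add_apply, Pi.single_eq_of_ne h, sub_add_eq_add_sub]
      push_cast
      ring

theorem X_apply (ν : ι → ℚ) (i : ι) (φ : (ι → ℤ) → ℂ) (u : ι → ℤ) :
    (W ν).X' i φ u = φ (u + Pi.single i 1) := rfl

theorem D_apply (ν : ι → ℚ) (i : ι) (φ : (ι → ℤ) → ℂ) (u : ι → ℤ) :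
    (W ν).D' i φ u = -((u i : ℂ) + (ν i : ℂ)) * φ (u - Pi.single i 1) := rfl

theorem pX_X_pow (ν : ι → ℚ) (i : ι) (n : ℕ) (φ : (ι → ℤ) → ℂ) (u : ι → ℤ) :
    (W ν).pX (X i ^ n) φ u = φ (u + Pi.single i (n : ℤ)) := by
  induction n generalizing φ with
  | zero => simp
  | succ n ih =>
    rw [pow_succ, TS.WBAux.pX_mul, ih, BP.WMod.pX_X, X_apply, add_assoc, ← Pi.single_add]
    push_cast
    rfl

theorem pX_prod (ν : ι → ℚ) (m : ι → ℕ) (s : Finset ι) (φ : (ι → ℤ) → ℂ) (u : ι → ℤ) :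
    (W ν).pX (∏ i ∈ s, X i ^ m i) φ u = φ (u + ∑ i ∈ s, Pi.single i (m i : ℤ)) := by
  induction s using Finset.induction_on generalizing φ with
  | empty => simp
  | insert i s hi ih =>
    rw [Finset.prod_insert hi, Finset.sum_insert hi, mul_comm, TS.WBAux.pX_mul, ih, pX_X_pow]
    congr 1
    rw [add_assoc, add_comm (∑ i ∈ s, _)]

variable [Fintype ι] {κ : Type} [Fintype κ]

theorem pX_mon (ν : ι → ℚ) (m : ι → ℕ) (φ : (ι → ℤ) → ℂ) (u : ι → ℤ) :
    (W ν).pX (∏ i, X i ^ m i) φ u = φ (fun j => u j + m j) := by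
  rw [pX_prod]
  congr 1
  funext j
  simp [Finset.sum_apply, Pi.single_apply]

theorem pX_pd_mon (ν : ι → ℚ) (m : ι → ℕ) (i : ι) (φ : (ι → ℤ) → ℂ) (u : ι → ℤ) :
    (W ν).pX (pderiv i (∏ i, X i ^ m i)) φ u =
      (m i : ℂ) * φ (fun j => u j + m j - if j = i then 1 else 0) := by
  have h := congrArg (fun T : Module.End ℂ ((ι → ℤ) → ℂ) => T φ u)
    ((W ν).D_pX i (∏ i, X i ^ m i))
  simp only [Module.End.mul_apply, LinearMap.add_apply, Pi.add_apply] at h
  rw [D_apply, pX_mon, pX_mon, D_apply] at h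
  have h1 : (fun j => (u - Pi.single i 1 : ι → ℤ) j + (m j : ℤ)) =
      (fun j => u j + m j - if j = i then 1 else 0) := by
    funext j
    rw [Pi.sub_apply, Pi.single_apply]
    ring
  have h2 : ((fun j => u j + (m j : ℤ)) - Pi.single i 1 : ι → ℤ) =
      (fun j => u j + m j - if j = i then 1 else 0) := by
    funext j
    rw [Pi.sub_apply, Pi.single_apply]
  rw [h1, h2] at h
  push_cast at h
  linear_combination -h

theorem pX_poly (ν : ι → ℚ) (w : κ → ι → ℕ) (a : κ → ℂ) (φ : (ι → ℤ) → ℂ) (u : ι → ℤ) :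
    (W ν).pX (poly w a) φ u = ∑ v, a v * φ (fun j => u j + w v j) := by
  rw [poly, map_sum, LinearMap.sum_apply, Finset.sum_apply]
  refine Finset.sum_congr rfl fun v _ => ?_
  rw [TS.WBAux.pX_mul, TS.WBAux.pX_C, Pi.smul_apply, pX_mon, smul_eq_mul]

theorem pX_pd_poly (ν : ι → ℚ) (w : κ → ι → ℕ) (a : κ → ℂ) (i : ι) (φ : (ι → ℤ) → ℂ)
    (u : ι → ℤ) :
    (W ν).pX (pderiv i (poly w a)) φ u =
      ∑ v, (w v i : ℂ) * (a v * φ (fun j => u j + w v j - if j = i then 1 else 0)) := by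
  rw [poly, map_sum, map_sum, LinearMap.sum_apply, Finset.sum_apply]
  refine Finset.sum_congr rfl fun v _ => ?_
  rw [pderiv_C_mul, TS.WBAux.pX_mul, TS.WBAux.pX_C, Pi.smul_apply, pX_pd_mon, smul_eq_mul]
  ring

/-- the functions which vanish at all `u` with `u_j ≥ 0` for `j ∉ J` -/
def N (J : Finset ι) : Submodule ℂ ((ι → ℤ) → ℂ) where
  carrier := {φ | ∀ u : ι → ℤ, (∀ j, j ∉ J → 0 ≤ u j) → φ u = 0}
  add_mem' := fun {φ ψ} h1 h2 u hu => by rw [Pi.add_apply, h1 u hu, h2 u hu, add_zero]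
  zero_mem' := fun u _ => rfl
  smul_mem' := fun c φ h u hu => by rw [Pi.smul_apply, h u hu, smul_zero]

theorem mem_N (J : Finset ι) (φ : (ι → ℤ) → ℂ) :
    φ ∈ N J ↔ ∀ u : ι → ℤ, (∀ j, j ∉ J → 0 ≤ u j) → φ u = 0 := Iff.rfl

theorem N_X (ν : ι → ℚ) (J : Finset ι) (i : ι) : N J ≤ (N J).comap ((W ν).X' i) := by
  intro φ hφ u hu
  rw [X_apply]
  refine hφ _ fun j hj => ?_
  rw [Pi.add_apply, Pi.single_apply]
  have := hu j hj
  split_ifs <;> omega

theorem N_D (ν : ι → ℚ) (J : Finset ι) (hν : ∀ i, i ∉ J → ν i = 0) (i : ι) :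
    N J ≤ (N J).comap ((W ν).D' i) := by
  intro φ hφ u hu
  rw [D_apply]
  by_cases h : i ∉ J ∧ u i = 0
  · rw [h.2, hν i h.1]
    simp
  · have h1 : φ (u - Pi.single i 1) = 0 := by
      refine hφ _ fun j hj => ?_
      rw [Pi.sub_apply, Pi.single_apply]
      have h2 := hu j hj
      split_ifs with h3
      · subst h3
        have h4 : u j ≠ 0 := fun h5 => h ⟨hj, h5⟩
        omega
      · omega
    rw [h1, mul_zero]

end WITAAux

open WITAAux in
theorem stmt_WITA : Stmt_WITA := by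
  intro ι κ _ _ _ _ w a J ν β Φ hν h1 h2 hb hne
  obtain ⟨k₀, hk₀⟩ := hb
  obtain ⟨k₂, u₂, hu₂, hΦ₂⟩ := hne
  obtain ⟨k₁, hk₁, hmin⟩ := Int.exists_least_of_bdd (P := fun k => Φ k ∉ N J)
    ⟨k₀, fun k hk => by
      by_contra hlt
      exact hk fun u hu => hk₀ k (not_le.1 hlt) u hu⟩
    ⟨k₂, fun h => hΦ₂ (h u₂ hu₂)⟩
  have hpred : Φ (k₁ - 1) ∈ N J := by
    by_contra h
    have := hmin _ h
    omega
  have hX := N_X ν J
  have hD := N_D ν J hν
  -- the relations modulo `N J`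
  have r1 : ∀ (k : ℤ) (i : ι),
      (W ν).D' i (Φ k) - (W ν).pX (pderiv i (poly w a)) (Φ (k + 1)) ∈ N J := by
    intro k i u hu
    rw [Pi.sub_apply, pX_pd_poly, h1 k u i hu, D_apply]
    have h3 : (fun j => u j - if j = i then 1 else 0) = u - Pi.single i 1 := by
      funext j
      rw [Pi.sub_apply, Pi.single_apply]
    rw [h3, sub_self]
  have r2 : ∀ k : ℤ, (W ν).pX (poly w a) (Φ (k + 1)) - ((β : ℂ) - k) • Φ k ∈ N J := by
    intro k u hu
    rw [Pi.sub_apply, pX_poly, h2 k u hu, Pi.smul_apply, smul_eq_mul, sub_self]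
  refine ⟨-k₁, _ ⧸ N J, inferInstance, inferInstance, TS.WBAux.quot (W ν) (N J) hX hD,
    fun i => (N J).mkQ (Φ (k₁ + i)), ?_, ?_, ?_, ?_, ?_⟩
  · intro h
    have h' : (N J).mkQ (Φ (k₁ + ((0 : ℕ) : ℤ))) = 0 := h
    rw [Submodule.mkQ_apply, Submodule.Quotient.mk_eq_zero] at h'
    simp only [Nat.cast_zero, add_zero] at h'
    exact hk₁ h'
  · show (TS.WBAux.quot (W ν) (N J) hX hD).pX (poly w a) ((N J).mkQ (Φ (k₁ + ((0 : ℕ) : ℤ)))) = 0
    rw [TS.WBAux.quot_pX, Submodule.mkQ_apply, Submodule.Quotient.mk_eq_zero]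
    have h3 := r2 (k₁ - 1)
    rw [sub_add_cancel] at h3
    have h4 := (N J).add_mem h3 ((N J).smul_mem ((β : ℂ) - ((k₁ - 1 : ℤ) : ℂ)) hpred)
    rw [sub_add_cancel] at h4
    simpa only [Nat.cast_zero, add_zero] using h4
  · intro i
    show (TS.WBAux.quot (W ν) (N J) hX hD).pX (pderiv i (poly w a))
      ((N J).mkQ (Φ (k₁ + ((0 : ℕ) : ℤ)))) = 0
    rw [TS.WBAux.quot_pX, Submodule.mkQ_apply, Submodule.Quotient.mk_eq_zero]
    have h3 := r1 (k₁ - 1) i
    rw [sub_add_cancel] at h3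
    have h4 := (N J).sub_mem (hD i hpred) h3
    rw [sub_sub_cancel] at h4
    simpa only [Nat.cast_zero, add_zero] using h4
  · intro n i
    show (TS.WBAux.quot (W ν) (N J) hX hD).D' i ((N J).mkQ (Φ (k₁ + (n : ℤ)))) =
      (TS.WBAux.quot (W ν) (N J) hX hD).pX (pderiv i (poly w a))
        ((N J).mkQ (Φ (k₁ + ((n + 1 : ℕ) : ℤ))))
    rw [TS.WBAux.quot_pX, TS.WBAux.quot_D, ← sub_eq_zero, ← map_sub, Submodule.mkQ_apply,
      Submodule.Quotient.mk_eq_zero]
    have h3 := r1 (k₁ + n) i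
    rw [add_assoc] at h3
    push_cast
    exact h3
  · intro n
    show (TS.WBAux.quot (W ν) (N J) hX hD).pX (poly w a)
        ((N J).mkQ (Φ (k₁ + ((n + 1 : ℕ) : ℤ)))) =
      (((β + ((-k₁ : ℤ) : ℚ) : ℚ) : ℂ) - (n : ℂ)) • ((N J).mkQ (Φ (k₁ + (n : ℤ))))
    rw [TS.WBAux.quot_pX, ← map_smul, ← sub_eq_zero, ← map_sub, Submodule.mkQ_apply,
      Submodule.Quotient.mk_eq_zero]
    have h3 := r2 (k₁ + n)
    rw [add_assoc] at h3
    have h4 : (((β + ((-k₁ : ℤ) : ℚ) : ℚ) : ℂ) - (n : ℂ)) =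
        (β : ℂ) - ((k₁ + (n : ℤ) : ℤ) : ℂ) := by
      push_cast
      ring
    rw [h4]
    have h5 : (k₁ + ((n + 1 : ℕ) : ℤ)) = k₁ + ((n : ℤ) + 1) := by push_cast; ring
    rw [h5]
    exact h3

end Pool.Agent.Mono.NP
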