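import Pool.Agent.Work.Monodromy12.IIIASM12
import Pool.Agent.Work.Monodromy12.G12
import Pool.Agent.Work.Monodromy12.SP12
import Pool.Agent.Work.Monodromy12.LR12
import Pool.Agent.Work.Monodromy12.SUPP12
import Pool.Agent.Work.Monodromy12.TRI112
import Pool.Agent.Work.Monodromy12.FIN12
import Pool.Agent.Work.Monodromy12.NZ12
import Pool.Agent.Work.Monodromy12.EMB12
import Pool.Agent.Work.Monodromy12.PHI12
import Pool.Agent.Work.Monodromy12.WITA12

/-!
# Phase 12: part III, all blocks put together (helper14)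
-/

set_option autoImplicit false

namespace Pool.Agent.Mono.NP

theorem part_III : Stmt_III :=
  stmt_III stmt_G stmt_SUPP (stmt_NZ stmt_SP) stmt_EMB
    (stmt_PHI stmt_LR (stmt_FIN stmt_TRI1 stmt_SUPP)) stmt_WITA

end Pool.Agent.Mono.NP
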