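import Pool.Agent.Work.Monodromy12.PartII12
import Pool.Agent.Work.Monodromy12.PartIII12
import Pool.Agent.Work.Monodromy12.FULL12
import Pool.Agent.Work.Monodromy.Final1
import Pool.Agent.Work.Monodromy.FinalB
import Pool.Agent.Work.Monodromy.SS
import Pool.Agent.Work.Monodromy4.W5
import Pool.Agent.Work.Monodromy5.TM5

/-!
# Phase 12: generic polynomials, final form (helper17)
-/

set_option autoImplicit false

namespace Pool.Agent.Mono.NP

open MvPolynomial

namespace FinalAux

/-- an integer gives the eigenvalue `1` -/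
theorem eig_z {ι : Type} [Fintype ι] [DecidableEq ι] (f : MvPolynomial ι ℂ)
    (hf : f.totalDegree ≠ 0) (z : ℤ) :
    IsEigenvalue f (Complex.exp (2 * Real.pi * Complex.I * (z : ℂ))) := by
  have h1 := SSAux.eig_int f hf 1 (Or.inl rfl)
  have h2 : Complex.exp (2 * Real.pi * Complex.I * (z : ℂ)) = 1 :=
    Complex.exp_eq_one_iff.2 ⟨z, by ring⟩
  have h3 : Complex.exp (2 * Real.pi * Complex.I * (1 : ℂ)) = 1 :=
    Complex.exp_eq_one_iff.2 ⟨1, by push_cast; ring⟩
  rw [h2]
  rwa [h3] at h1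

theorem eig_wit {ι : Type} [Fintype ι] [DecidableEq ι] (f : MvPolynomial ι ℂ) (s₀ β : ℚ) (z : ℤ)
    (hs : ∀ z : ℤ, s₀ ≠ z) (hβ : β = s₀ + z) (hw : TS.Wit f (β : ℂ)) :
    IsEigenvalue f (Complex.exp (2 * Real.pi * Complex.I * (s₀ : ℂ))) := by
  have hne : ∀ n : ℕ, (β : ℂ) ≠ n := by
    intro n h
    have h1 : β = (n : ℚ) := by exact_mod_cast h
    apply hs (n - z)
    push_cast
    linarith
  refine ⟨(β : ℂ), fun b hb => TS.stmt_W5 ι f β hne hw b (isEvBernstein_of hb), ?_⟩
  have h1 : (s₀ : ℂ) = (β : ℂ) + ((-z : ℤ) : ℂ) := by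
    rw [hβ]
    push_cast
    ring
  rw [h1, mul_add, Complex.exp_add]
  have h2 : Complex.exp (2 * Real.pi * Complex.I * ((-z : ℤ) : ℂ)) = 1 :=
    Complex.exp_eq_one_iff.2 ⟨-z, by ring⟩
  rw [h2, mul_one]

theorem pole_pref {e : ℕ} {s : ℂ} (h : Polynomial.aeval s (pref e).denom = 0) : s = -1 := by
  unfold pref at h
  split_ifs at h with he
  · have h1 : (-RatFunc.X / (RatFunc.X + 1) : RatFunc ℚ) =
        algebraMap (Polynomial ℚ) (RatFunc ℚ) (-Polynomial.X) /
          algebraMap (Polynomial ℚ) (RatFunc ℚ) (Polynomial.X + 1) := by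
      simp
    rw [h1] at h
    obtain ⟨r, hr⟩ := RatFunc.denom_div_dvd (-Polynomial.X) (Polynomial.X + 1 : Polynomial ℚ)
    have h2 : Polynomial.aeval s (Polynomial.X + 1 : Polynomial ℚ) = 0 := by
      rw [hr, map_mul, h, zero_mul]
    simp at h2
    linear_combination h2
  · exfalso
    have h1 : (-1 : RatFunc ℚ) = RatFunc.C (-1) := by simp
    rw [h1, RatFunc.denom_C] at h
    simp at h

end FinalAux

open FinalAux

/-- the monodromy conjecture for generic polynomials -/
theorem good12 (hI : Stmt_I) (E : EulerMeasure) {ι : Type} [Fintype ι] [DecidableEq ι]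
    (f : MvPolynomial ι ℂ) (hf : f.totalDegree ≠ 0)
    (ha : AlgebraicIndependent ℚ (fun m : f.support => f.coeff m)) (e : ℕ) (he : 1 ≤ e)
    (R : RatFunc ℚ) (hR : IsTwTopZeta E.toHodgeMeasure f e R) : GoodPoles f R := by
  classical
  have hf0 : f ≠ 0 := by
    rintro rfl
    exact hf (totalDegree_zero)
  obtain ⟨m₀, hm₀⟩ := MvPolynomial.support_nonempty.2 hf0
  have : Nonempty f.support := ⟨⟨m₀, hm₀⟩⟩
  set w : f.support → ι → ℕ := fun m i => (m : ι →₀ ℕ) i with hw
  set a : f.support → ℂ := fun m => f.coeff m with hadef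
  have hinj : Function.Injective w := by
    intro m m' h
    apply Subtype.ext
    ext i
    exact congrFun h i
  have hpoly : poly w a = f := by
    conv_rhs => rw [f.as_sum, ← Finset.sum_coe_sort f.support]
    unfold poly
    refine Finset.sum_congr rfl fun m _ => ?_
    rw [monomial_eq, Finsupp.prod_fintype _ _ (fun i => pow_zero _)]
  obtain ⟨h, hh, hfull⟩ := stmt_FULL ι f.support w hinj
  obtain ⟨P, D, hTP, hD, hpole⟩ := part_II ι f.support w h e hinj hh he
  obtain ⟨c, hc⟩ := hI E ι f.support w a h e R P D hinj ha hh hfull he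
    (by rw [hpoly]; exact hR) hTP
  intro s hs
  by_cases hz : ∃ z : ℤ, s = z
  · obtain ⟨z, rfl⟩ := hz
    exact eig_z f hf z
  push Not at hz
  have htot : ((e.totient : ℚ)) ≠ 0 := by exact_mod_cast (Nat.totient_pos.2 he).ne'
  have h1 : Polynomial.aeval s (RatFunc.C (e.totient : ℚ) * R + RatFunc.C c).denom = 0 :=
    SSAux.pole_add_C (SSAux.pole_C_mul htot hs)
  have h2 : RatFunc.C (e.totient : ℚ) * R + RatFunc.C c =
      pref e * (aeval (line ι) P / aeval (line ι) D) := by
    rw [← mul_div_assoc, ← hc, mul_div_assoc, div_self hD, mul_one]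
  rw [h2] at h1
  rcases pole_mul h1 with h3 | h3
  · exact absurd (by rw [pole_pref h3]; push_cast; rfl) (hz (-1))
  · obtain ⟨s₀, hs₀, hL⟩ := hpole s hz h3
    have hs₀z : ∀ z : ℤ, s₀ ≠ z := by
      intro z hz'
      apply hz z
      rw [← hs₀, hz']
      simp
    obtain ⟨β, z, hβ, hW⟩ := part_III ι f.support w a h s₀ ha hh hs₀z hL
    rw [hpoly] at hW
    rw [← hs₀]
    exact eig_wit f s₀ β z hs₀z hβ hW

theorem good12_top (hI : Stmt_I) (E : EulerMeasure) {ι : Type} [Fintype ι] [DecidableEq ι]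
    (f : MvPolynomial ι ℂ) (hf : f.totalDegree ≠ 0)
    (ha : AlgebraicIndependent ℚ (fun m : f.support => f.coeff m))
    (R : RatFunc ℚ) (hR : IsTopologicalZeta E.toHodgeMeasure f R) : GoodPoles f R := by
  obtain ⟨q, hq⟩ := isLim_zetaSer1 E.toHodgeMeasure f 1 R ((isTopologicalZeta_iff _ f R).1 hR)
  have h1 : IsTwTopZeta E.toHodgeMeasure f 1 (R + RatFunc.C q) := by
    refine ⟨fun _ => R + RatFunc.C q, fun d hd => ?_, ?_⟩
    · rw [Nat.divisors_one, Finset.mem_singleton] at hd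
      rw [hd]
      exact hq
    · simp
  intro s hs
  exact good12 hI E f hf ha 1 le_rfl _ h1 s (SSAux.pole_add_C hs)

end Pool.Agent.Mono.NP
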