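import Pool.Agent.Work.Monodromy.Interface12A

/-! # Phase 12, block GENP: generic vectors (helper32) -/

set_option autoImplicit false

namespace Pool.Agent.Mono.NP

open MvPolynomial

namespace GENPAux

theorem algebraMap_eq (a : ℚ) : algebraMap ℚ (LaurentSeries ℚ) a = HahnSeries.C a :=
  RingHom.congr_fun (Subsingleton.elim (algebraMap ℚ (LaurentSeries ℚ))
    (HahnSeries.C : ℚ →+* LaurentSeries ℚ)) a

theorem tau_pow (n : ℕ) : tau ^ n = HahnSeries.single (n : ℤ) (1 : ℚ) := by
  unfold tau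
  rw [HahnSeries.single_pow]
  simp

theorem coeff_C_mul_tau_pow (a : ℚ) (n : ℕ) (k : ℤ) :
    (HahnSeries.C a * tau ^ n : LaurentSeries ℚ).coeff k = if k = n then a else 0 := by
  rw [tau_pow, HahnSeries.C_mul_eq_smul, HahnSeries.coeff_smul, HahnSeries.coeff_single]
  split_ifs <;> simp

theorem coeff_C (a : ℚ) (k : ℤ) :
    (HahnSeries.C a : LaurentSeries ℚ).coeff k = if k = 0 then a else 0 := by
  rw [HahnSeries.C_apply, HahnSeries.coeff_single]
  by_cases hk : k = 0
  · rw [if_pos hk, if_pos hk]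
  · rw [if_neg hk, if_neg hk]

theorem ev_yv {ι : Type} [Fintype ι] (x : ι ⊕ Unit → ℚ) (p : ι → ℚ) (j : ℕ) :
    ev x (yv p j) = HahnSeries.C (∑ i, x (Sum.inl i) * p i) * tau ^ j -
      HahnSeries.C (x (Sum.inr ())) := by
  unfold ev yv
  rw [Fintype.sum_sum_type]
  simp only [Sum.elim_inl, Sum.elim_inr, algebraMap_eq, Finset.univ_unique, Finset.sum_singleton,
    map_sum, Finset.sum_mul, map_mul, mul_neg, mul_one, ← mul_assoc, PUnit.default_eq_unit]
  rw [sub_eq_add_neg]

theorem ev_crv {ι : Type} [Fintype ι] (x : ι ⊕ Unit → ℚ) (p : ι → ℚ) (s₀ : ℚ) (N : ℕ) :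
    ev x (crv p s₀ N) = HahnSeries.C ((∑ i, x (Sum.inl i)) - s₀ * x (Sum.inr ())) -
      HahnSeries.C (x (Sum.inr ())) * tau ^ 1 +
      HahnSeries.C (∑ i, x (Sum.inl i) * p i) * tau ^ N := by
  unfold ev crv
  rw [Fintype.sum_sum_type]
  simp only [Sum.elim_inl, Sum.elim_inr, algebraMap_eq, Finset.univ_unique, Finset.sum_singleton,
    map_sum, Finset.sum_mul, map_mul, map_sub, mul_add, Finset.sum_add_distrib, mul_one, mul_sub,
    mul_neg, pow_one, ← mul_assoc, PUnit.default_eq_unit]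
  ring

/-- finitely many nonzero linear forms have a common nonzero -/
theorem exists_generic {ι α : Type} [Fintype ι] (s : Finset α) (f : α → ι → ℚ)
    (hf : ∀ a ∈ s, ∃ i, f a i ≠ 0) : ∃ p : ι → ℚ, ∀ a ∈ s, ∑ i, f a i * p i ≠ 0 := by
  classical
  have h1 : (∏ a ∈ s, ∑ i, C (f a i) * X i : MvPolynomial ι ℚ) ≠ 0 := by
    rw [Finset.prod_ne_zero_iff]
    intro a ha h0
    obtain ⟨i, hi⟩ := hf a ha
    apply hi
    have h2 := congrArg (eval (Pi.single i 1)) h0
    rw [map_sum, map_zero] at h2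
    rw [Finset.sum_eq_single i] at h2
    · simpa using h2
    · intro b _ hb
      simp [hb]
    · intro h
      exact absurd (Finset.mem_univ i) h
  by_contra hcon
  push Not at hcon
  apply h1
  apply MvPolynomial.funext
  intro p
  obtain ⟨a, ha, h2⟩ := hcon p
  rw [map_prod, map_zero]
  apply Finset.prod_eq_zero ha
  rw [map_sum, ← h2]
  apply Finset.sum_congr rfl
  intro i _
  simp

end GENPAux

open GENPAux in
theorem stmt_GENP (hDUAL : Stmt_DUAL) : Stmt_GENP := by
  classical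
  intro ι κ _ _ _ _ w h hh
  obtain ⟨p, hp⟩ := exists_generic
    (((maxCells w h) ×ˢ (Finset.univ : Finset (κ ⊕ ι))).filter
      fun q => ∃ i, dual w q.1 q.2 (Sum.inl i) ≠ 0)
    (fun q i => dual w q.1 q.2 (Sum.inl i)) (fun q hq => (Finset.mem_filter.1 hq).2)
  have hGp : Gp w h p := by
    intro Δ hΔ v _ hex
    exact hp (Δ, v) (Finset.mem_filter.2
      ⟨Finset.mem_product.2 ⟨hΔ, Finset.mem_univ _⟩, hex⟩)
  have hdual : ∀ Δ ∈ maxCells w h, ∀ v ∈ Δ, dual w Δ v (Sum.inr ()) = 0 →
      ∑ i, dual w Δ v (Sum.inl i) * p i ≠ 0 := by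
    intro Δ hΔ v hv h0
    apply hGp Δ hΔ v hv
    by_contra hcon
    push Not at hcon
    have h1 := (hDUAL ι κ w h hh Δ hΔ).2.1 v hv v hv
    rw [if_pos rfl] at h1
    unfold pr at h1
    rw [Fintype.sum_sum_type] at h1
    simp [hcon, h0] at h1
  refine ⟨p, hGp, ?_, ?_⟩
  · intro j hj Δ hΔ v hv h0
    unfold cf at h0
    rw [if_pos hv, ev_yv] at h0
    by_cases hd : dual w Δ v (Sum.inr ()) = 0
    · have h1 := congrArg (fun x : LaurentSeries ℚ => x.coeff j) h0
      simp only [HahnSeries.coeff_sub, coeff_C_mul_tau_pow, if_true, coeff_C,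
        HahnSeries.coeff_zero] at h1
      rw [if_neg (by omega), sub_zero] at h1
      exact hdual Δ hΔ v hv hd h1
    · have h1 := congrArg (fun x : LaurentSeries ℚ => x.coeff 0) h0
      simp only [HahnSeries.coeff_sub, coeff_C_mul_tau_pow, if_true, coeff_C,
        HahnSeries.coeff_zero] at h1
      rw [if_neg (by omega)] at h1
      apply hd
      linarith
  · intro s₀ N hN Δ hΔ v hv h0
    unfold cf at h0
    rw [if_pos hv, ev_crv] at h0
    by_cases hd : dual w Δ v (Sum.inr ()) = 0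
    · have h1 := congrArg (fun x : LaurentSeries ℚ => x.coeff N) h0
      simp only [HahnSeries.coeff_sub, HahnSeries.coeff_add, coeff_C_mul_tau_pow, if_true, coeff_C,
        HahnSeries.coeff_zero] at h1
      rw [if_neg (by omega), if_neg (by push_cast; omega), sub_zero, zero_add] at h1
      exact hdual Δ hΔ v hv hd h1
    · have h1 := congrArg (fun x : LaurentSeries ℚ => x.coeff 1) h0
      simp only [HahnSeries.coeff_sub, HahnSeries.coeff_add, coeff_C_mul_tau_pow, if_true, coeff_C,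
        HahnSeries.coeff_zero, Nat.cast_one] at h1
      rw [if_neg (by omega), if_neg (by omega)] at h1
      apply hd
      linarith

end Pool.Agent.Mono.NP
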