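import Pool.Agent.Work.Monodromy.Interface12C

/-!
# Phase 12, block GENR: there are generic directions (helper63)
-/

set_option autoImplicit false

namespace Pool.Agent.Mono.NP

open MvPolynomial Filter Topology

namespace GENRAux

/-- finitely many nonzero rational vectors do not kill a vector `(t^0, t^1, …)` -/
theorem exists_dir {ι : Type} [Fintype ι] (S : Finset (ι → ℚ)) :
    ∃ ζ : ι → ℝ, (∀ i, 0 < ζ i ∧ ζ i ≤ 1) ∧ ∀ x ∈ S, x ≠ 0 → ∑ i, (x i : ℝ) * ζ i ≠ 0 := by
  classical
  let e := Fintype.equivFin ι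
  let p : (ι → ℚ) → Polynomial ℝ := fun x => ∑ i, Polynomial.C (x i : ℝ) * Polynomial.X ^ (e i : ℕ)
  have hp : ∀ x : ι → ℚ, x ≠ 0 → p x ≠ 0 := by
    intro x hx h0
    apply hx
    funext i
    have h1 : (p x).coeff (e i : ℕ) = 0 := by rw [h0]; simp
    simp only [p, Polynomial.finsetSum_coeff, Polynomial.coeff_C_mul, Polynomial.coeff_X_pow] at h1
    rw [Finset.sum_eq_single i] at h1
    · simpa using h1
    · intro j _ hj
      rw [if_neg, mul_zero]
      intro h2
      exact hj (e.injective (Fin.ext h2.symm))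
    · intro hi; exact absurd (Finset.mem_univ i) hi
  set P : Polynomial ℝ := ∏ x ∈ S.filter (fun x => x ≠ 0), p x with hP
  have hP0 : P ≠ 0 := by
    rw [hP, Finset.prod_ne_zero_iff]
    intro x hx
    exact hp x (Finset.mem_filter.1 hx).2
  obtain ⟨t, ht, htP⟩ := (Set.Ioo_infinite (zero_lt_one (α := ℝ))).exists_notMem_finset
    P.roots.toFinset
  have htP' : P.eval t ≠ 0 := by
    intro h0
    apply htP
    rw [Multiset.mem_toFinset, Polynomial.mem_roots hP0]
    exact h0
  refine ⟨fun i => t ^ (e i : ℕ), fun i => ⟨pow_pos ht.1 _, pow_le_one₀ ht.1.le ht.2.le⟩, ?_⟩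
  intro x hx hx0 h0
  apply htP'
  rw [hP, Polynomial.eval_prod]
  refine Finset.prod_eq_zero (Finset.mem_filter.2 ⟨hx, hx0⟩) ?_
  rw [← h0]
  simp [p, Polynomial.eval_finset_sum]

theorem ev_ne {A B : ℝ} (hB : B ≠ 0) : ∀ᶠ η in 𝓝[>] (0 : ℝ), A + η * B ≠ 0 := by
  by_cases hA : A = 0
  · filter_upwards [self_mem_nhdsWithin] with η hη
    rw [hA, zero_add]
    exact mul_ne_zero (ne_of_gt hη) hB
  · have h1 : ∀ᶠ η in 𝓝[>] (0 : ℝ), η ≠ -A / B := by
      refine Filter.Eventually.filter_mono nhdsWithin_le_nhds ?_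
      refine eventually_ne_nhds ?_
      intro h2
      have h3 := (eq_div_iff hB).1 h2
      rw [zero_mul] at h3
      exact hA (neg_eq_zero.1 h3.symm)
    filter_upwards [h1] with η hη h2
    apply hη
    rw [eq_div_iff hB]
    linarith

end GENRAux

open GENRAux in
theorem stmt_GENR (hDUAL : Stmt_DUAL) : Stmt_GENR := by
  classical
  intro ι κ _ _ _ _ w h hh
  obtain ⟨ζ, hζ, hζ2⟩ := exists_dir ((maxCells w h).biUnion fun Δ =>
    Δ.image fun v => fun i : ι => dual w Δ v (Sum.inl i))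
  refine ⟨ζ, hζ, fun s hs => ?_⟩
  unfold Gen
  rw [Finset.eventually_all]
  intro Δ hΔ
  rw [Finset.eventually_all]
  intro v hv
  set x := dual w Δ v with hx
  have hval : ∀ η : ℝ, cf w Δ (pz ζ s η) v =
      ((∑ i, (x (Sum.inl i) : ℝ)) - s * x (Sum.inr ())) + η * ∑ i, (x (Sum.inl i) : ℝ) * ζ i := by
    intro η
    unfold cf
    rw [if_pos hv]
    unfold ev pz
    rw [Fintype.sum_sum_type]
    simp only [Sum.elim_inl, Sum.elim_inr, Finset.univ_unique, Finset.sum_singleton, ← hx,
      eq_ratCast, mul_add, mul_one, Finset.sum_add_distrib, Finset.mul_sum]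
    have h1 : ∑ i, (x (Sum.inl i) : ℝ) * (η * ζ i) = ∑ i, η * ((x (Sum.inl i) : ℝ) * ζ i) :=
      Finset.sum_congr rfl fun i _ => by ring
    have h2 : (default : Unit) = () := rfl
    rw [h1, h2]
    ring
  have hx1 : pr x (hat w v) = 1 := by
    have := (hDUAL ι κ w h hh Δ hΔ).2.1 v hv v hv
    rwa [if_pos rfl] at this
  by_cases h0 : (fun i : ι => x (Sum.inl i)) = 0
  · have h0' : ∀ i, x (Sum.inl i) = 0 := fun i => congrFun h0 i
    have hstar : x (Sum.inr ()) ≠ 0 := by
      intro h1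
      have h2 : x = 0 := by
        funext e
        rcases e with i | u
        · exact h0' i
        · exact h1
      rw [h2] at hx1
      unfold pr at hx1
      simp at hx1
    refine Eventually.of_forall fun η => ?_
    rw [hval η]
    simp only [h0', Rat.cast_zero, Finset.sum_const_zero, zero_mul, mul_zero, add_zero, zero_sub]
    exact neg_ne_zero.2 (mul_ne_zero hs.ne' (by exact_mod_cast hstar))
  · have hB := hζ2 (fun i : ι => x (Sum.inl i)) (Finset.mem_biUnion.2 ⟨Δ, hΔ,
      Finset.mem_image.2 ⟨v, hv, rfl⟩⟩) h0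
    filter_upwards [ev_ne (A := (∑ i, (x (Sum.inl i) : ℝ)) - s * x (Sum.inr ())) hB] with η hη
    rw [hval η]
    exact hη

end Pool.Agent.Mono.NP
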