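import Pool.Agent.Work.Monodromy.Interface12C

/-!
# Phase 12, block GRK (helper22)
-/

set_option autoImplicit false
set_option linter.unusedSectionVars false

namespace Pool.Agent.Mono.NP

namespace GRKAux

open Finset

variable {ι κ : Type} [Fintype ι] [DecidableEq ι] [Fintype κ] [DecidableEq κ]

/-- the point `(k, -mnk w k)` -/
noncomputable def pt (w : κ → ι → ℕ) (k : ι → ℕ) : ι ⊕ Unit → ℤ :=
  Sum.elim (fun i => (k i : ℤ)) fun _ => -(mnk w k : ℤ)

theorem pt_inj (w : κ → ι → ℕ) {k k' : ι → ℕ} (h : pt w k = pt w k') : k = k' := by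
  funext i
  have h1 := congrFun h (Sum.inl i)
  simpa [pt] using h1

theorem mnk_le (w : κ → ι → ℕ) (k : ι → ℕ) (a : κ) : mnk w k ≤ kw w k a :=
  ciInf_le (OrderBot.bddBelow _) a

theorem mnk_eq (w : κ → ι → ℕ) (k : ι → ℕ) (a : κ) (ha : a ∈ fc w k) : mnk w k = kw w k a := by
  have : Nonempty κ := ⟨a⟩
  apply le_antisymm (mnk_le w k a)
  apply le_ciInf
  intro b
  exact (mem_filter.mp ha).2 b

theorem zp_pt_inl (w : κ → ι → ℕ) (k : ι → ℕ) (a : κ) :
    zp w (pt w k) (Sum.inl a) = (kw w k a : ℤ) - mnk w k := by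
  rw [zp, Fintype.sum_sum_type]
  simp only [zv, pt, Sum.elim_inl, Sum.elim_inr, kw]
  simp only [univ_unique, sum_singleton, one_mul]
  push_cast
  rw [← sub_eq_add_neg]
  congr 1
  apply sum_congr rfl
  intro i _
  ring

theorem zp_pt_inr (w : κ → ι → ℕ) (k : ι → ℕ) (j : ι) :
    zp w (pt w k) (Sum.inr j) = (k j : ℤ) := by
  rw [zp, Fintype.sum_sum_type]
  simp [zv, pt, Pi.single_apply]

end GRKAux

open GRKAux Finset in
theorem stmt_GRK (GRO : Stmt_GRO) : Stmt_GRK := by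
  intro ι κ _ _ _ _ _ w C s hC hs
  classical
  -- the basis
  obtain ⟨b, hbt, -, hbspan, hbind⟩ := exists_linearIndepOn_extension
    (linearIndepOn_empty ℚ (fun a : κ => hat w (Sum.inl a)))
    (Set.empty_subset (C : Set κ))
  set C₀ : Finset κ := b.toFinset with hC₀
  have hmem : ∀ a, a ∈ C₀ ↔ a ∈ b := fun a => by rw [hC₀, Set.mem_toFinset]
  have hsub : C₀ ⊆ C := fun a ha => by
    have := hbt ((hmem a).mp ha)
    exact mem_coe.mp this
  have hcard : C₀.card = rk w C := by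
    rw [rk]
    have h1 : Submodule.span ℚ ((fun a => hat w (Sum.inl a)) '' (C : Set κ)) =
        Submodule.span ℚ (Set.range fun a : b => hat w (Sum.inl (a : κ))) := by
      apply le_antisymm
      · rw [Submodule.span_le]
        refine hbspan.trans ?_
        rw [Set.image_eq_range]
      · apply Submodule.span_mono
        rintro _ ⟨a, rfl⟩
        exact ⟨a, hbt a.2, rfl⟩
    rw [h1, finrank_span_eq_card (show LinearIndependent ℚ fun a : b => hat w (Sum.inl (a : κ))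
      from hbind), hC₀, Set.toFinset_card]
  have hne : C₀.Nonempty := by
    obtain ⟨a, ha⟩ := hC
    by_contra hcon
    rw [not_nonempty_iff_eq_empty] at hcon
    have h1 : b = ∅ := by
      ext a
      rw [← hmem, hcon]
      simp
    have h2 := hbspan ⟨a, mem_coe.mpr ha, rfl⟩
    rw [h1] at h2
    simp only [Set.image_empty, Submodule.span_empty, Submodule.bot_coe, Set.mem_singleton_iff] at h2
    have h3 := congrFun h2 (Sum.inr ())
    simp [hat] at h3
  have hind : LinearIndependent ℚ fun v : (inl C₀ : Finset (κ ⊕ ι)) => hat w (v : κ ⊕ ι) := by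
    have h1 : LinearIndepOn ℚ (hat w) ((inl C₀ : Finset (κ ⊕ ι)) : Set (κ ⊕ ι)) := by
      have h2 : ((inl C₀ : Finset (κ ⊕ ι)) : Set (κ ⊕ ι)) = Sum.inl '' b := by
        ext v
        simp only [inl, coe_map, Function.Embedding.inl_apply, Set.mem_image, mem_coe, hmem]
      rw [h2]
      exact LinearIndepOn.image_of_comp Sum.inl (hat w) hbind
    exact h1
  have hcard2 : (inl C₀ : Finset (κ ⊕ ι)).card = rk w C := by
    rw [inl, card_map, hcard]
  set p : ι ⊕ Unit → ℝ := Sum.elim (fun _ => 1) fun _ => -s with hp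
  have hpos : Pos p := ⟨fun i => by rw [hp]; simp, by rw [hp]; simpa using hs⟩
  obtain ⟨a₀, ha₀⟩ := hne
  obtain ⟨hsum, A, hA⟩ := GRO ι κ w p hpos (inl C₀) 0
    ⟨a₀, mem_map.mpr ⟨a₀, ha₀, rfl⟩⟩ hind
  -- the embedding
  have hmemY : ∀ k : ι → ℕ, C ⊆ fc w k → (∀ v, -((0 : ℕ) : ℤ) ≤ zp w (pt w k) v) ∧
      ∀ v ∈ (inl C₀ : Finset (κ ⊕ ι)), zp w (pt w k) v ≤ ((0 : ℕ) : ℤ) := by
    intro k hk
    constructor
    · rintro (a | j)
      · rw [zp_pt_inl]
        have := mnk_le w k a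
        push_cast
        omega
      · rw [zp_pt_inr]
        push_cast
        omega
    · intro v hv
      obtain ⟨a, ha, rfl⟩ := mem_map.mp hv
      rw [Function.Embedding.inl_apply, zp_pt_inl, mnk_eq w k a (hk (hsub ha))]
      simp
  have hph : ∀ k : ι → ℕ, ph p (pt w k) = ∑ i, (k i : ℝ) + s * (mnk w k : ℝ) := by
    intro k
    rw [ph, Fintype.sum_sum_type, hp]
    simp [pt]
  set f : {k : ι → ℕ // C ⊆ fc w k} → {y : ι ⊕ Unit → ℤ // (∀ v, -((0 : ℕ) : ℤ) ≤ zp w y v) ∧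
      ∀ v ∈ (inl C₀ : Finset (κ ⊕ ι)), zp w y v ≤ ((0 : ℕ) : ℤ)} :=
    fun k => ⟨pt w k.1, hmemY k.1 k.2⟩ with hf
  have hfinj : Function.Injective f := fun k k' h =>
    Subtype.ext (pt_inj w (congrArg Subtype.val h))
  have hterm : ∀ (ε : ℝ) (k : {k : ι → ℕ // C ⊆ fc w k}),
      Real.exp (-ε * (∑ i, ((k : ι → ℕ) i : ℝ) + s * (mnk w k : ℝ))) =
        Real.exp (-ε * ph p (f k).1) := by
    intro ε k
    rw [hf]
    simp only
    rw [hph]
  constructor
  · intro ε hε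
    have h1 := (hsum ε hε).comp_injective hfinj
    exact (summable_congr (fun k => (hterm ε k))).mpr h1
  · refine ⟨A, fun ε hε hε1 => ?_⟩
    have h1 : ∑' k : {k : ι → ℕ // C ⊆ fc w k},
        Real.exp (-ε * (∑ i, ((k : ι → ℕ) i : ℝ) + s * (mnk w k : ℝ))) ≤
        ∑' y : {y : ι ⊕ Unit → ℤ // (∀ v, -((0 : ℕ) : ℤ) ≤ zp w y v) ∧
          ∀ v ∈ (inl C₀ : Finset (κ ⊕ ι)), zp w y v ≤ ((0 : ℕ) : ℤ)}, Real.exp (-ε * ph p y.1) := by
      rw [tsum_congr (hterm ε)]
      exact tsum_comp_le_tsum_of_inj (hsum ε hε) (fun y => (Real.exp_pos _).le) hfinj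
    have h2 := hA ε hε hε1
    rw [hcard2] at h2
    refine le_trans ?_ h2
    exact mul_le_mul_of_nonneg_left h1 (pow_nonneg hε.le _)

end Pool.Agent.Mono.NP
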