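import Pool.Agent.Work.Monodromy.Interface12C

/-!
# Phase 12, block GRO (helper22)
-/

set_option autoImplicit false
set_option linter.unusedSectionVars false

namespace Pool.Agent.Mono.NP

namespace GROAux

open Finset

variable {ι κ : Type} [Fintype ι] [DecidableEq ι] [Fintype κ] [DecidableEq κ]

theorem zp_inr (w : κ → ι → ℕ) (y : ι ⊕ Unit → ℤ) (j : ι) : zp w y (Sum.inr j) = y (Sum.inl j) := by
  rw [zp, Fintype.sum_sum_type]
  simp [zv, Pi.single_apply]

theorem zp_inl (w : κ → ι → ℕ) (y : ι ⊕ Unit → ℤ) (a : κ) :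
    zp w y (Sum.inl a) = (∑ i, (w a i : ℤ) * y (Sum.inl i)) + y (Sum.inr ()) := by
  rw [zp, Fintype.sum_sum_type]
  simp [zv]

theorem zv_cast (w : κ → ι → ℕ) (v : κ ⊕ ι) (e : ι ⊕ Unit) : ((zv w v e : ℤ) : ℚ) = hat w v e := by
  rcases v with a | j
  · rcases e with i | u
    · simp [zv, hat]
    · simp [zv, hat]
  · rcases e with i | u
    · simp only [zv, hat, Sum.elim_inr, Sum.elim_inl, Pi.single_apply]
      split_ifs <;> simp
    · simp [zv, hat]

/-- the number of small numbers -/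
theorem exp_bound (x : ℝ) (h0 : 0 < x) (h1 : x ≤ 1) : 1 / (1 - Real.exp (-x)) ≤ 2 / x := by
  have h2 : Real.exp (-x) ≤ 1 - x / 2 := by
    rw [Real.exp_neg]
    have h3 : 1 + x ≤ Real.exp x := by linarith [Real.add_one_le_exp x]
    have h4 : (Real.exp x)⁻¹ ≤ (1 + x)⁻¹ := by
      apply inv_anti₀ (by linarith) h3
    refine h4.trans ?_
    rw [inv_le_iff_one_le_mul₀ (by linarith)]
    nlinarith
  have h3 : x / 2 ≤ 1 - Real.exp (-x) := by linarith
  calc 1 / (1 - Real.exp (-x)) ≤ 1 / (x / 2) := by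
        apply one_div_le_one_div_of_le (by linarith) h3
    _ = 2 / x := by field_simp

theorem geom_le (q : ℝ) (h0 : 0 ≤ q) (h1 : q < 1) (T : ℕ) :
    ∑ t ∈ range T, q ^ t ≤ 1 / (1 - q) := by
  rw [geom_sum_eq h1.ne]
  have h2 : (q ^ T - 1) / (q - 1) = (1 - q ^ T) / (1 - q) := by
    rw [← neg_div_neg_eq]; ring_nf
  rw [h2]
  apply div_le_div_of_nonneg_right _ (by linarith)
  have := pow_nonneg h0 T
  linarith

end GROAux

open GROAux Finset in
theorem stmt_GRO : Stmt_GRO := by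
  intro ι κ _ _ _ _ w p hp C c₀ hC hind
  classical
  obtain ⟨a₀, ha₀⟩ := hC
  -- the basis
  have hind' : LinearIndepOn ℚ (hat w) (C : Set (κ ⊕ ι)) := hind
  obtain ⟨b, hbt, hCb, hbspan, hbind⟩ := exists_linearIndepOn_extension hind'
    (show (C : Set (κ ⊕ ι)) ⊆ (C : Set (κ ⊕ ι)) ∪ Set.range Sum.inr from Set.subset_union_left)
  set Bs : Finset (κ ⊕ ι) := b.toFinset with hBs
  have hmemBs : ∀ v, v ∈ Bs ↔ v ∈ b := fun v => by rw [hBs, Set.mem_toFinset]
  have hCBs : C ⊆ Bs := fun v hv => (hmemBs v).mpr (hCb hv)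
  have hBcard : Bs.card ≤ Fintype.card ι + 1 := by
    have h1 : LinearIndependent ℚ fun v : Bs => hat w (v : κ ⊕ ι) := by
      have h2 : LinearIndepOn ℚ (hat w) (Bs : Set (κ ⊕ ι)) := by
        rw [hBs, Set.coe_toFinset]; exact hbind
      exact h2
    have h2 := h1.fintype_card_le_finrank
    rw [Fintype.card_coe, Module.finrank_fintype_fun_eq_card, Fintype.card_sum,
      Fintype.card_unit] at h2
    exact h2
  -- constants
  obtain ⟨δ, hδ0, hδ1, hδ⟩ : ∃ δ : ℝ, 0 < δ ∧ δ ≤ 1 ∧ ∀ i, δ ≤ p (Sum.inl i) := by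
    rcases isEmpty_or_nonempty ι with h | h
    · exact ⟨1, one_pos, le_refl _, fun i => (h.false i).elim⟩
    · obtain ⟨i₀, hi₀⟩ := Finite.exists_min fun i => p (Sum.inl i)
      exact ⟨min 1 (p (Sum.inl i₀)), lt_min one_pos (hp.1 i₀), min_le_left _ _,
        fun i => (min_le_right _ _).trans (hi₀ i)⟩
  set c₂ : ℝ := c₀ * (∑ i, p (Sum.inl i)) + (-p (Sum.inr ())) * (c₀ * (∑ i, (w a₀ i : ℝ)) + c₀)
    with hc₂
  set Y := {y : ι ⊕ Unit → ℤ // (∀ v, -(c₀ : ℤ) ≤ zp w y v) ∧ ∀ v ∈ C, zp w y v ≤ c₀} with hY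
  set m : Y → (κ ⊕ ι) → ℕ := fun y v => (zp w y.1 v + c₀).toNat with hm
  have hmz : ∀ (y : Y) v, ((m y v : ℕ) : ℤ) = zp w y.1 v + c₀ := by
    intro y v
    rw [hm]
    simp only
    rw [Int.toNat_of_nonneg]
    have := y.2.1 v
    omega
  have hmr : ∀ (y : Y) v, ((m y v : ℕ) : ℝ) = (zp w y.1 v : ℝ) + c₀ := by
    intro y v
    exact_mod_cast congrArg (Int.cast : ℤ → ℝ) (hmz y v)
  have hmC : ∀ (y : Y), ∀ v ∈ C, m y v < 2 * c₀ + 1 := by
    intro y v hv
    have h1 := hmz y v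
    have h2 := y.2.2 v hv
    omega
  -- the lower bound
  have hph : ∀ y : Y, δ * ∑ v ∈ Bs \ C, (m y v : ℝ) - c₂ ≤ ph p y.1 := by
    intro y
    have h1 : ∑ v ∈ Bs \ C, (m y v : ℝ) ≤ ∑ j : ι, (m y (Sum.inr j) : ℝ) := by
      have h2 : Bs \ C ⊆ univ.map (Function.Embedding.inr : ι ↪ κ ⊕ ι) := by
        intro v hv
        rw [mem_sdiff, hmemBs] at hv
        rcases hbt hv.1 with h | ⟨j, rfl⟩
        · exact absurd h hv.2
        · exact mem_map.mpr ⟨j, mem_univ _, rfl⟩
      refine (sum_le_sum_of_subset_of_nonneg h2 fun v _ _ => Nat.cast_nonneg _).trans ?_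
      rw [sum_map]
      exact le_refl _
    have h2 : δ * ∑ j : ι, (m y (Sum.inr j) : ℝ) ≤
        ∑ i, p (Sum.inl i) * ((y.1 (Sum.inl i) : ℝ) + c₀) := by
      rw [mul_sum]
      apply sum_le_sum
      intro i _
      have h3 := hmr y (Sum.inr i)
      rw [zp_inr] at h3
      rw [← h3]
      exact mul_le_mul_of_nonneg_right (hδ i) (Nat.cast_nonneg _)
    have h3 : ph p y.1 = ∑ i, p (Sum.inl i) * (y.1 (Sum.inl i) : ℝ) +
        p (Sum.inr ()) * (y.1 (Sum.inr ()) : ℝ) := by
      rw [ph, Fintype.sum_sum_type]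
      simp
    have h4 : -(c₀ * (∑ i, (w a₀ i : ℝ)) + c₀) ≤ -(y.1 (Sum.inr ()) : ℝ) := by
      have h5 : ((zp w y.1 (Sum.inl a₀) : ℤ) : ℝ) =
          (∑ i, (w a₀ i : ℝ) * (y.1 (Sum.inl i) : ℝ)) + (y.1 (Sum.inr ()) : ℝ) := by
        rw [zp_inl]; push_cast; ring
      have h6 : ((zp w y.1 (Sum.inl a₀) : ℤ) : ℝ) ≤ c₀ := by
        exact_mod_cast y.2.2 _ ha₀
      have h7 : -(c₀ * (∑ i, (w a₀ i : ℝ))) ≤ ∑ i, (w a₀ i : ℝ) * (y.1 (Sum.inl i) : ℝ) := by
        rw [mul_sum, ← sum_neg_distrib]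
        apply sum_le_sum
        intro i _
        have h8 : -(c₀ : ℝ) ≤ (y.1 (Sum.inl i) : ℝ) := by
          have h9 := y.2.1 (Sum.inr i)
          rw [zp_inr] at h9
          exact_mod_cast h9
        have h10 : (0 : ℝ) ≤ (w a₀ i : ℝ) := Nat.cast_nonneg _
        nlinarith
      linarith
    have h5 : (-p (Sum.inr ())) * -(c₀ * (∑ i, (w a₀ i : ℝ)) + c₀) ≤
        (-p (Sum.inr ())) * -(y.1 (Sum.inr ()) : ℝ) :=
      mul_le_mul_of_nonneg_left h4 (by linarith [hp.2])
    have h6 : ∑ i, p (Sum.inl i) * ((y.1 (Sum.inl i) : ℝ) + c₀) =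
        ∑ i, p (Sum.inl i) * (y.1 (Sum.inl i) : ℝ) + c₀ * ∑ i, p (Sum.inl i) := by
      rw [mul_sum, ← sum_add_distrib]
      apply sum_congr rfl
      intro i _
      ring
    have h7 := mul_le_mul_of_nonneg_left h1 hδ0.le
    rw [h3, hc₂]
    linarith
  -- injectivity
  have hinj : ∀ y y' : Y, (∀ v ∈ Bs, m y v = m y' v) → y = y' := by
    intro y y' h
    have h1 : ∀ v ∈ b, zp w y.1 v = zp w y'.1 v := by
      intro v hv
      have h2 := h v ((hmemBs v).mpr hv)
      have h3 := hmz y v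
      have h4 := hmz y' v
      omega
    set f : (ι ⊕ Unit → ℚ) →ₗ[ℚ] ℚ :=
      ∑ e, ((y.1 e - y'.1 e : ℤ) : ℚ) • LinearMap.proj e with hf
    have hfv : ∀ v, f (hat w v) = ((zp w y.1 v - zp w y'.1 v : ℤ) : ℚ) := by
      intro v
      rw [hf]
      simp only [LinearMap.sum_apply, LinearMap.smul_apply, LinearMap.proj_apply, smul_eq_mul]
      rw [zp, zp, ← sum_sub_distrib]
      push_cast
      apply sum_congr rfl
      intro e _
      rw [← zv_cast]
      ring
    have h2 : ∀ x ∈ Submodule.span ℚ (hat w '' b), f x = 0 := by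
      intro x hx
      have h3 : Submodule.span ℚ (hat w '' b) ≤ LinearMap.ker f := by
        rw [Submodule.span_le]
        rintro _ ⟨v, hv, rfl⟩
        rw [SetLike.mem_coe, LinearMap.mem_ker, hfv, h1 v hv, sub_self, Int.cast_zero]
      exact LinearMap.mem_ker.mp (h3 hx)
    have h3 : ∀ v, v ∈ (C : Set (κ ⊕ ι)) ∪ Set.range Sum.inr → zp w y.1 v = zp w y'.1 v := by
      intro v hv
      have h4 := h2 _ (hbspan ⟨v, hv, rfl⟩)
      rw [hfv] at h4
      have h5 : zp w y.1 v - zp w y'.1 v = 0 := by exact_mod_cast h4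
      omega
    have h4 : ∀ i, y.1 (Sum.inl i) = y'.1 (Sum.inl i) := by
      intro i
      have := h3 (Sum.inr i) (Or.inr ⟨i, rfl⟩)
      rwa [zp_inr, zp_inr] at this
    apply Subtype.ext
    funext e
    rcases e with i | u
    · exact h4 i
    · have h5 := h3 (Sum.inl a₀) (Or.inl ha₀)
      rw [zp_inl, zp_inl] at h5
      simp only [h4] at h5
      exact add_left_cancel h5
  -- the bound for finite sums
  have hbound : ∀ ε : ℝ, 0 < ε → ∀ S : Finset Y, ∑ y ∈ S, Real.exp (-ε * ph p y.1) ≤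
      Real.exp (ε * c₂) * ((2 * c₀ + 1 : ℝ) ^ C.card *
        (1 / (1 - Real.exp (-(ε * δ)))) ^ (Bs \ C).card) := by
    intro ε hε S
    set q : ℝ := Real.exp (-(ε * δ)) with hq
    have hq0 : 0 ≤ q := (Real.exp_pos _).le
    have hq1 : q < 1 := by
      rw [hq, Real.exp_lt_one_iff]
      have := mul_pos hε hδ0
      linarith
    set T : ℕ := S.sup fun y => (univ.sup fun v => m y v) + 1 with hT
    have hmT : ∀ y ∈ S, ∀ v, m y v < T := by
      intro y hy v
      have h1 : m y v ≤ univ.sup fun v => m y v := le_sup (f := fun v => m y v) (mem_univ v)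
      have h2 : (univ.sup fun v => m y v) + 1 ≤ T := le_sup (f := fun y => (univ.sup fun v => m y v) + 1) hy
      omega
    set r : Bs → ℝ := fun v => if (v : κ ⊕ ι) ∈ C then 1 else q with hr
    set R : Bs → Finset ℕ := fun v => if (v : κ ⊕ ι) ∈ C then range (2 * c₀ + 1) else range T with hR
    have hterm : ∀ y : Y, Real.exp (-ε * ph p y.1) ≤ Real.exp (ε * c₂) *
        ∏ v : Bs, r v ^ m y v := by
      intro y
      have h1 : ∏ v : Bs, r v ^ m y v = ∏ v ∈ Bs, (if v ∈ C then (1 : ℝ) else q) ^ m y v := by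
        rw [hr]
        exact prod_coe_sort Bs (fun v => (if v ∈ C then (1 : ℝ) else q) ^ m y v)
      have h2 : ∏ v ∈ Bs, (if v ∈ C then (1 : ℝ) else q) ^ m y v = ∏ v ∈ Bs \ C, q ^ m y v := by
        rw [← prod_sdiff hCBs]
        have h3 : ∏ v ∈ C, (if v ∈ C then (1 : ℝ) else q) ^ m y v = 1 := by
          apply prod_eq_one
          intro v hv
          rw [if_pos hv, one_pow]
        rw [h3, mul_one]
        apply prod_congr rfl
        intro v hv
        rw [if_neg (mem_sdiff.mp hv).2]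
      rw [h1, h2, prod_pow_eq_pow_sum, hq, ← Real.exp_nat_mul, ← Real.exp_add]
      apply Real.exp_le_exp.mpr
      have h3 := hph y
      have h4 := mul_le_mul_of_nonneg_left h3 hε.le
      push_cast
      nlinarith
    calc ∑ y ∈ S, Real.exp (-ε * ph p y.1) ≤ ∑ y ∈ S, Real.exp (ε * c₂) * ∏ v : Bs, r v ^ m y v :=
          sum_le_sum fun y _ => hterm y
      _ = ∑ y ∈ S, (fun f : Bs → ℕ => Real.exp (ε * c₂) * ∏ v : Bs, r v ^ f v)
            (fun v : Bs => m y v) := rfl
      _ = ∑ f ∈ S.image fun y => (fun v : Bs => m y v : Bs → ℕ),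
            Real.exp (ε * c₂) * ∏ v : Bs, r v ^ f v := by
          rw [sum_image]
          intro y _ y' _ h
          apply hinj
          intro v hv
          exact congrFun h ⟨v, hv⟩
      _ ≤ ∑ f ∈ Fintype.piFinset R, Real.exp (ε * c₂) * ∏ v : Bs, r v ^ f v := by
          apply sum_le_sum_of_subset_of_nonneg
          · intro f hf
            rw [mem_image] at hf
            obtain ⟨y, hy, rfl⟩ := hf
            rw [Fintype.mem_piFinset]
            intro v
            rw [hR]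
            simp only
            split_ifs with h
            · exact mem_range.mpr (hmC y _ h)
            · exact mem_range.mpr (hmT y hy _)
          · intro f _ _
            apply mul_nonneg (Real.exp_pos _).le
            apply prod_nonneg
            intro v _
            apply pow_nonneg
            rw [hr]
            simp only
            split_ifs
            · norm_num
            · exact hq0
      _ = Real.exp (ε * c₂) * ∏ v : Bs, ∑ t ∈ R v, r v ^ t := by
          rw [← mul_sum, prod_univ_sum]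
      _ = Real.exp (ε * c₂) * ((2 * c₀ + 1 : ℝ) ^ C.card *
            (∑ t ∈ range T, q ^ t) ^ (Bs \ C).card) := by
          congr 1
          have h1 : ∏ v : Bs, ∑ t ∈ R v, r v ^ t =
              ∏ v ∈ Bs, (if v ∈ C then (2 * c₀ + 1 : ℝ) else ∑ t ∈ range T, q ^ t) := by
            rw [← prod_coe_sort Bs (fun v => (if v ∈ C then (2 * c₀ + 1 : ℝ) else
              ∑ t ∈ range T, q ^ t))]
            apply prod_congr rfl
            intro v _
            rw [hR, hr]
            simp only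
            split_ifs
            · simp
            · rfl
          rw [h1, ← prod_sdiff hCBs, mul_comm]
          congr 1
          · rw [prod_congr rfl (fun v hv => if_pos hv), prod_const]
          · rw [prod_congr rfl (fun v hv => if_neg (mem_sdiff.mp hv).2), prod_const]
      _ ≤ _ := by
          apply mul_le_mul_of_nonneg_left _ (Real.exp_pos _).le
          apply mul_le_mul_of_nonneg_left _ (by positivity)
          apply pow_le_pow_left₀ (sum_nonneg fun t _ => pow_nonneg hq0 t)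
          exact geom_le q hq0 hq1 T
  have hsummable : ∀ ε : ℝ, 0 < ε → Summable fun y : Y => Real.exp (-ε * ph p y.1) :=
    fun ε hε => summable_of_sum_le (fun y => (Real.exp_pos _).le) (hbound ε hε)
  refine ⟨hsummable, ?_⟩
  have hCle : C.card ≤ Bs.card := card_le_card hCBs
  have hcard : (Bs \ C).card = Bs.card - C.card := card_sdiff_of_subset hCBs
  refine ⟨Real.exp |c₂| * ((2 * c₀ + 1 : ℝ) ^ C.card * (2 / δ) ^ (Bs \ C).card), ?_⟩
  intro ε hε hε1
  have h1 : ∑' y : Y, Real.exp (-ε * ph p y.1) ≤ _ :=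
    Real.tsum_le_of_sum_le (fun y => (Real.exp_pos _).le) (hbound ε hε)
  have hεδ : 0 < ε * δ := mul_pos hε hδ0
  have hεδ1 : ε * δ ≤ 1 := by nlinarith
  have h2 := exp_bound (ε * δ) hεδ hεδ1
  have hpos : 0 ≤ 1 / (1 - Real.exp (-(ε * δ))) := by
    apply one_div_nonneg.mpr
    have : Real.exp (-(ε * δ)) ≤ 1 := Real.exp_le_one_iff.mpr (by linarith)
    linarith
  have h3 : (1 / (1 - Real.exp (-(ε * δ)))) ^ (Bs \ C).card ≤ (2 / (ε * δ)) ^ (Bs \ C).card :=
    pow_le_pow_left₀ hpos h2 _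
  have h4 : Real.exp (ε * c₂) ≤ Real.exp |c₂| := by
    apply Real.exp_le_exp.mpr
    calc ε * c₂ ≤ |ε * c₂| := le_abs_self _
      _ = ε * |c₂| := by rw [abs_mul, abs_of_pos hε]
      _ ≤ 1 * |c₂| := mul_le_mul_of_nonneg_right hε1 (abs_nonneg _)
      _ = |c₂| := one_mul _
  have h5 : ε ^ (Fintype.card ι + 1 - C.card) ≤ ε ^ (Bs \ C).card := by
    apply pow_le_pow_of_le_one hε.le hε1
    omega
  have hA : 0 ≤ (2 * c₀ + 1 : ℝ) ^ C.card := by positivity
  calc ε ^ (Fintype.card ι + 1 - C.card) * ∑' y : Y, Real.exp (-ε * ph p y.1)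
      ≤ ε ^ (Bs \ C).card * (Real.exp |c₂| * ((2 * c₀ + 1 : ℝ) ^ C.card *
          (2 / (ε * δ)) ^ (Bs \ C).card)) := by
        apply mul_le_mul h5 _ (tsum_nonneg fun y => (Real.exp_pos _).le) (pow_nonneg hε.le _)
        refine h1.trans ?_
        apply mul_le_mul h4 _ (mul_nonneg hA (pow_nonneg hpos _)) (Real.exp_pos _).le
        exact mul_le_mul_of_nonneg_left h3 hA
    _ = Real.exp |c₂| * ((2 * c₀ + 1 : ℝ) ^ C.card * (ε * (2 / (ε * δ))) ^ (Bs \ C).card) := by
        rw [mul_pow]; ring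
    _ = Real.exp |c₂| * ((2 * c₀ + 1 : ℝ) ^ C.card * (2 / δ) ^ (Bs \ C).card) := by
        congr 3
        field_simp
    _ ≤ _ := le_refl _

end Pool.Agent.Mono.NP
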