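import Pool.Agent.Work.Monodromy.Interface12C

/-!
# Phase 12, part I, block IASM: assembly (helper99)
-/

set_option autoImplicit false

namespace Pool.Agent.Mono.NP

open MvPolynomial Filter Topology

namespace IASMAux

section

variable {ι κ : Type} [Fintype ι] [DecidableEq ι] [Fintype κ] [DecidableEq κ]

set_option linter.unusedSectionVars false

/-! ### Box points of small cells -/

theorem zero_mem_Bx (w : κ → ι → ℕ) (C : Finset κ) : (0 : κ → ℚ) ∈ Bx w C := by
  refine ⟨fun a => ⟨le_rfl, one_pos⟩, fun a _ => rfl, fun i => ⟨0, ?_⟩⟩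
  simp

theorem nuE_eq_one (w : κ → ι → ℕ) (C : Finset κ)
    (hC : ∀ b ∈ Bx w C, (∑ a, b a).den = 1 → b = 0) : nuE w 1 C = 1 := by
  unfold nuE
  rw [Nat.card_eq_one_iff_unique]
  refine ⟨⟨?_⟩, ⟨⟨0, zero_mem_Bx w C, ?_⟩⟩⟩
  · rintro ⟨b, hb1, hb2⟩ ⟨b', hb1', hb2'⟩
    apply Subtype.ext
    show b = b'
    rw [hC b hb1 hb2, hC b' hb1' hb2']
  · simp

theorem nuE_empty_one (w : κ → ι → ℕ) : nuE w 1 ∅ = 1 := by
  apply nuE_eq_one
  intro b hb _
  funext a
  exact hb.2.1 a (Finset.notMem_empty a)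

theorem nuE_empty_ne (w : κ → ι → ℕ) (e : ℕ) (he : e ≠ 1) : nuE w e ∅ = 0 := by
  unfold nuE
  rw [Nat.card_eq_zero]
  left
  constructor
  rintro ⟨b, hb1, hb2⟩
  have h1 : b = 0 := by
    funext a
    exact hb1.2.1 a (Finset.notMem_empty a)
  rw [h1] at hb2
  apply he
  rw [← hb2]
  simp

theorem nuE_single (w : κ → ι → ℕ) (a : κ) : nuE w 1 {a} = 1 := by
  apply nuE_eq_one
  intro b hb hden
  have h1 : ∀ a', a' ≠ a → b a' = 0 := fun a' ha' =>
    hb.2.1 a' (fun hc => ha' (Finset.mem_singleton.1 hc))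
  have h2 : ∑ a', b a' = b a := by
    rw [Finset.sum_eq_single a (fun a' _ ha' => h1 a' ha')]
    intro hc
    exact absurd (Finset.mem_univ a) hc
  rw [h2] at hden
  have h3 : b a = ((b a).num : ℚ) := (Rat.den_eq_one_iff (b a)).1 hden |>.symm
  have h4 := hb.1 a
  have h5 : b a = 0 := by
    rw [h3] at h4 ⊢
    have h6 : (0 : ℤ) ≤ (b a).num := by exact_mod_cast h4.1
    have h7 : (b a).num < 1 := by exact_mod_cast h4.2
    have h8 : (b a).num = 0 := by omega
    rw [h8]
    simp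
  funext a'
  by_cases ha : a' = a
  · rw [ha]
    exact h5
  · exact h1 a' ha

/-! ### Rules for the integrals -/

theorem Itg_sum (w : κ → ι → ℕ) (h : κ → ℝ) (σ : Finset (κ ⊕ ι)) (y : ι ⊕ Unit → ℝ)
    {α : Type} (s : Finset α) (f : α → MvPolynomial (κ ⊕ ι) ℚ) :
    Itg w h σ (∑ i ∈ s, f i) y = ∑ i ∈ s, Itg w h σ (f i) y := by
  unfold Itg
  rw [Finset.sum_comm]
  apply Finset.sum_congr rfl
  intro Δ _
  rw [map_sum, Finset.sum_div]

/-- `∑_a ∫_{a} 1 = y_* ∫ 1` -/
theorem sum_single (hR : Stmt_REL) (w : κ → ι → ℕ) (h : κ → ℝ) (hh : LinearIndependent ℚ h)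
    (y : ι ⊕ Unit → ℝ) (hy : Gen w h y) :
    ∑ a : κ, Itg w h (inl {a}) 1 y = y (Sum.inr ()) * Itg w h ∅ 1 y := by
  obtain ⟨-, h2, h3, h4, -, -⟩ := hR ι κ w h hh ℝ y hy ∅ 1 1
  rw [← h3 (Sum.inr ()), mul_one]
  unfold relv
  rw [Itg_sum]
  have h5 : ∀ v, Itg w h ∅ (C (hat w v (Sum.inr ())) * X v) y =
      algebraMap ℚ ℝ (hat w v (Sum.inr ())) * Itg w h {v} 1 y := by
    intro v
    obtain ⟨-, g2, -, -, -, -⟩ := hR ι κ w h hh ℝ y hy ∅ (X v) 1
    rw [g2, ← insert_empty_eq, ← h4 v (Finset.notMem_empty v), mul_one]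
  rw [Finset.sum_congr rfl (fun v _ => h5 v), Fintype.sum_sum_type]
  have h6 : ∀ j : ι, hat w (Sum.inr j) (Sum.inr ()) = 0 := fun j => rfl
  have h7 : ∀ a : κ, hat w (Sum.inl a) (Sum.inr ()) = 1 := fun a => rfl
  simp only [h6, h7, map_zero, map_one, zero_mul, Finset.sum_const_zero, one_mul, add_zero]
  apply Finset.sum_congr rfl
  intro a _
  have h8 : (inl {a} : Finset (κ ⊕ ι)) = {Sum.inl a} := by
    simp [inl]
  rw [h8]

theorem inl_empty : (inl ∅ : Finset (κ ⊕ ι)) = ∅ := by simp [inl]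

/-- the sum without the cells that do not occur -/
theorem Tf_cls0 (hR : Stmt_REL) (w : κ → ι → ℕ) (h : κ → ℝ) (hh : LinearIndependent ℚ h)
    (e : ℕ) (y : ι ⊕ Unit → ℝ) (hy : Gen w h y) :
    Tf w h e y = (if e = 1 then Itg w h ∅ 1 y else 0) +
      ∑ C ∈ cls0 w h, (-1) ^ C.card * ((nuE w e C : ℝ) * nuE w 1 C) * Itg w h (inl C) 1 y := by
  classical
  have hmu : ∀ C : Finset κ, (mu w e C : ℝ) = (nuE w e C : ℝ) * nuE w 1 C := by
    intro C
    unfold mu nuE
    push_cast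
    rfl
  have hzero : ∀ C : Finset κ, C ≠ ∅ → C ∉ cls0 w h → Itg w h (inl C) 1 y = 0 := by
    intro C hC1 hC2
    obtain ⟨-, -, -, -, -, h6⟩ := hR ι κ w h hh ℝ y hy (inl C) 1 1
    apply h6
    intro Δ hΔ hsub
    apply hC2
    simp only [cls0, Finset.mem_filter, Finset.mem_univ, true_and]
    exact ⟨Finset.nonempty_iff_ne_empty.2 hC1, Δ, hΔ, hsub⟩
  have hne : (∅ : Finset κ) ∉ cls0 w h := by
    intro hc
    simp only [cls0, Finset.mem_filter, Finset.mem_univ, true_and] at hc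
    exact Finset.not_nonempty_empty hc.1
  have h1 : ∀ C : Finset κ, (-1 : ℝ) ^ C.card * (mu w e C : ℝ) * Itg w h (inl C) 1 y =
      (if C = ∅ then (if e = 1 then Itg w h ∅ 1 y else 0) else 0) +
      (if C ∈ cls0 w h then
        (-1) ^ C.card * ((nuE w e C : ℝ) * nuE w 1 C) * Itg w h (inl C) 1 y else 0) := by
    intro C
    by_cases hC1 : C = ∅
    · subst hC1
      rw [if_pos rfl, if_neg hne, add_zero, inl_empty, hmu, nuE_empty_one]
      by_cases he : e = 1
      · subst he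
        rw [if_pos rfl, nuE_empty_one]
        simp
      · rw [if_neg he, nuE_empty_ne w e he]
        simp
    · rw [if_neg hC1, zero_add]
      by_cases hC2 : C ∈ cls0 w h
      · rw [if_pos hC2, hmu]
      · rw [if_neg hC2, hzero C hC1 hC2, mul_zero]
  unfold Tf
  rw [Finset.sum_congr rfl (fun C _ => h1 C), Finset.sum_add_distrib, Finset.sum_ite_eq',
    if_pos (Finset.mem_univ _), Finset.sum_ite_mem, Finset.univ_inter]

/-- the identity between the two forms -/
theorem main_id (hR : Stmt_REL) (w : κ → ι → ℕ) (h : κ → ℝ) (hh : LinearIndependent ℚ h)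
    (e s : ℕ) (y : ι ⊕ Unit → ℝ) (hy : Gen w h y) (hys : y (Sum.inr ()) = -(s : ℝ)) :
    ∑ C ∈ cls0 w h, (-1) ^ (C.card + 1) * ((nuE w e C : ℝ) -
        (if e = 1 ∧ 2 ≤ C.card then (nuE w 1 C : ℝ) / (1 + s) else 0)) *
          ((nuE w 1 C : ℝ) * Itg w h (inl C) 1 y) =
      (if e = 1 then -(s : ℝ) / (s + 1) else -1) * Tf w h e y := by
  classical
  have hs1 : (1 : ℝ) + s ≠ 0 := by positivity
  have hs2 : (s : ℝ) + 1 ≠ 0 := by positivity
  rw [Tf_cls0 hR w h hh e y hy]
  by_cases he : e = 1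
  · subst he
    rw [if_pos rfl, if_pos rfl]
    set T : Finset κ → ℝ := fun C => (-1) ^ C.card * ((nuE w 1 C : ℝ) * nuE w 1 C) *
      Itg w h (inl C) 1 y with hT
    have h1 : ∀ C ∈ cls0 w h, (-1) ^ (C.card + 1) * ((nuE w 1 C : ℝ) -
        (if 1 = 1 ∧ 2 ≤ C.card then (nuE w 1 C : ℝ) / (1 + s) else 0)) *
          ((nuE w 1 C : ℝ) * Itg w h (inl C) 1 y) =
        -T C + (T C - if C.card = 1 then T C else 0) / (1 + s) := by
      intro C hC
      have hne : C.Nonempty := by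
        simp only [cls0, Finset.mem_filter, Finset.mem_univ, true_and] at hC
        exact hC.1
      have hpos : 0 < C.card := Finset.card_pos.2 hne
      by_cases hc : 2 ≤ C.card
      · rw [if_pos ⟨rfl, hc⟩, if_neg (by omega)]
        simp only [hT]
        rw [pow_succ]
        field_simp
        ring
      · have hc1 : C.card = 1 := by omega
        rw [if_neg (fun h => hc h.2), if_pos hc1]
        simp only [hT]
        rw [pow_succ]
        ring
    have h2 : ∑ C ∈ cls0 w h, (if C.card = 1 then T C else 0) = s * Itg w h ∅ 1 y := by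
      rw [← Finset.sum_filter]
      have h3 : (cls0 w h).filter (fun C => C.card = 1) ⊆
          Finset.univ.image (fun a : κ => ({a} : Finset κ)) := by
        intro C hC
        obtain ⟨_, hC2⟩ := Finset.mem_filter.1 hC
        obtain ⟨a, rfl⟩ := Finset.card_eq_one.1 hC2
        exact Finset.mem_image_of_mem _ (Finset.mem_univ a)
      rw [Finset.sum_subset h3]
      · rw [Finset.sum_image (fun a _ b _ hab => Finset.singleton_injective hab)]
        have h4 : ∀ a : κ, T {a} = -Itg w h (inl {a}) 1 y := by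
          intro a
          simp only [hT]
          rw [nuE_single, Finset.card_singleton]
          simp
        rw [Finset.sum_congr rfl (fun a _ => h4 a), Finset.sum_neg_distrib,
          sum_single hR w h hh y hy, hys]
        ring
      · intro C hC1 hC2
        obtain ⟨a, _, rfl⟩ := Finset.mem_image.1 hC1
        have h5 : {a} ∉ cls0 w h := by
          intro hc
          exact hC2 (Finset.mem_filter.2 ⟨hc, Finset.card_singleton a⟩)
        obtain ⟨-, -, -, -, -, h6⟩ := hR ι κ w h hh ℝ y hy (inl {a}) 1 1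
        have h7 : Itg w h (inl {a}) 1 y = 0 := by
          apply h6
          intro Δ hΔ hsub
          apply h5
          simp only [cls0, Finset.mem_filter, Finset.mem_univ, true_and]
          exact ⟨Finset.singleton_nonempty a, Δ, hΔ, hsub⟩
        simp only [hT]
        rw [h7, mul_zero]
    rw [Finset.sum_congr rfl h1, Finset.sum_add_distrib, ← Finset.sum_div,
      Finset.sum_sub_distrib, h2, Finset.sum_neg_distrib]
    field_simp
    ring
  · rw [if_neg he, if_neg he]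
    have h1 : ∀ C ∈ cls0 w h, (-1) ^ (C.card + 1) * ((nuE w e C : ℝ) -
        (if e = 1 ∧ 2 ≤ C.card then (nuE w 1 C : ℝ) / (1 + s) else 0)) *
          ((nuE w 1 C : ℝ) * Itg w h (inl C) 1 y) =
        -((-1) ^ C.card * ((nuE w e C : ℝ) * nuE w 1 C) * Itg w h (inl C) 1 y) := by
      intro C _
      rw [if_neg (fun h => he h.1), pow_succ]
      ring
    rw [Finset.sum_congr rfl h1, Finset.sum_neg_distrib]
    ring

/-! ### Continuity and specialisation -/

theorem tendsto_aeval (ζ : ι → ℝ) (s : ℝ) (P : MvPolynomial (ι ⊕ Unit) ℚ) :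
    Tendsto (fun η : ℝ => (aeval (pz ζ s η) P : ℝ)) (𝓝[>] 0) (𝓝 (aeval (pz ζ s 0) P)) := by
  have h1 : ∀ y : ι ⊕ Unit → ℝ, (aeval y P : ℝ) = eval y (map (algebraMap ℚ ℝ) P) := by
    intro y
    rw [eval_map, aeval_def]
  simp only [h1]
  have h2 : Continuous fun η : ℝ => pz ζ s η := by
    apply continuous_pi
    rintro (i | ⟨⟩)
    · show Continuous fun η : ℝ => 1 + η * ζ i
      fun_prop
    · exact continuous_const
  exact (((MvPolynomial.continuous_eval _).comp h2).tendsto 0).mono_left nhdsWithin_le_nhds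

/-- restriction to the line, as a polynomial -/
noncomputable def lineP (P : MvPolynomial (ι ⊕ Unit) ℚ) : Polynomial ℚ :=
  aeval (Sum.elim (fun _ => 1) fun _ => -Polynomial.X : ι ⊕ Unit → Polynomial ℚ) P

theorem aeval_line (P : MvPolynomial (ι ⊕ Unit) ℚ) :
    aeval (line ι) P = algebraMap (Polynomial ℚ) (RatFunc ℚ) (lineP P) := by
  unfold lineP
  rw [map_aeval, aeval_def, coe_eval₂Hom]
  have h1 : (algebraMap (Polynomial ℚ) (RatFunc ℚ)).comp (algebraMap ℚ (Polynomial ℚ)) =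
      algebraMap ℚ (RatFunc ℚ) := Subsingleton.elim _ _
  rw [h1]
  congr 1
  funext i
  rcases i with i | i
  · simp [line]
  · simp [line, RatFunc.algebraMap_X]

theorem aeval_pz (ζ : ι → ℝ) (s : ℕ) (P : MvPolynomial (ι ⊕ Unit) ℚ) :
    (aeval (pz ζ s 0) P : ℝ) = (((lineP P).eval (s : ℚ) : ℚ) : ℝ) := by
  have h1 : ((((lineP P).eval (s : ℚ) : ℚ) : ℝ)) =
      ((Rat.castHom ℝ).comp (Polynomial.evalRingHom (s : ℚ))) (lineP P) := rfl
  rw [h1]
  unfold lineP
  rw [map_aeval, aeval_def, coe_eval₂Hom]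
  have h2 : ((Rat.castHom ℝ).comp (Polynomial.evalRingHom (s : ℚ))).comp
      (algebraMap ℚ (Polynomial ℚ)) = algebraMap ℚ ℝ := Subsingleton.elim _ _
  rw [h2]
  congr 1
  funext i
  rcases i with i | i
  · simp [pz]
  · simp [pz]

/-- from the values at the natural numbers to rational functions -/
theorem ratfunc_id (R : RatFunc ℚ) (D P : Polynomial ℚ) (φ c : ℚ) (e : ℕ)
    (hv : ∀ s : ℕ, 1 ≤ s → R.denom.eval (s : ℚ) ≠ 0 →
      (φ * R.eval (RingHom.id ℚ) (s : ℚ) + c) * D.eval (s : ℚ) =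
        (if e = 1 then -(s : ℚ) / (s + 1) else -1) * P.eval (s : ℚ)) :
    (RatFunc.C φ * R + RatFunc.C c) * algebraMap (Polynomial ℚ) (RatFunc ℚ) D =
      pref e * algebraMap (Polynomial ℚ) (RatFunc ℚ) P := by
  set pn : Polynomial ℚ := if e = 1 then -Polynomial.X else -(Polynomial.X + 1) with hpn
  have hX1 : (Polynomial.X + 1 : Polynomial ℚ) ≠ 0 := by
    intro hc
    have := congrArg (Polynomial.eval (0 : ℚ)) hc
    simp at this
  have hX1' : (RatFunc.X + 1 : RatFunc ℚ) ≠ 0 := by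
    have h1 : (RatFunc.X + 1 : RatFunc ℚ) =
        algebraMap (Polynomial ℚ) (RatFunc ℚ) (Polynomial.X + 1) := by
      rw [map_add, RatFunc.algebraMap_X, map_one]
    rw [h1]
    exact RatFunc.algebraMap_ne_zero hX1
  have hpref : pref e * (RatFunc.X + 1) = algebraMap (Polynomial ℚ) (RatFunc ℚ) pn := by
    unfold pref
    rw [hpn]
    by_cases he : e = 1
    · rw [if_pos he, if_pos he, div_mul_cancel₀ _ hX1', map_neg, RatFunc.algebraMap_X]
    · rw [if_neg he, if_neg he, map_neg, map_add, RatFunc.algebraMap_X, map_one]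
      ring
  have hQ : R.denom ≠ 0 := R.denom_ne_zero
  have key : Polynomial.X * R.denom * ((Polynomial.C φ * R.num + Polynomial.C c * R.denom) * D *
      (Polynomial.X + 1) - pn * P * R.denom) = 0 := by
    apply Polynomial.eq_zero_of_infinite_isRoot
    apply Set.Infinite.mono _ (Set.infinite_range_of_injective (Nat.cast_injective (R := ℚ)))
    rintro _ ⟨s, rfl⟩
    show Polynomial.IsRoot _ _
    unfold Polynomial.IsRoot
    simp only [Polynomial.eval_mul, Polynomial.eval_sub, Polynomial.eval_add, Polynomial.eval_C,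
      Polynomial.eval_X, Polynomial.eval_one]
    by_cases hs : 1 ≤ s
    · by_cases hd : R.denom.eval (s : ℚ) = 0
      · rw [hd]
        ring
      · have h1 := hv s hs hd
        have h2 : R.eval (RingHom.id ℚ) (s : ℚ) = R.num.eval (s : ℚ) / R.denom.eval (s : ℚ) := by
          simp [RatFunc.eval]
        have hs1 : (s : ℚ) + 1 ≠ 0 := by positivity
        have h3 : pn.eval (s : ℚ) = (if e = 1 then -(s : ℚ) / (s + 1) else -1) * (s + 1) := by
          rw [hpn]
          by_cases he : e = 1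
          · rw [if_pos he, if_pos he, div_mul_cancel₀ _ hs1]
            simp
          · rw [if_neg he, if_neg he]
            simp
        rw [h2] at h1
        rw [h3]
        have h4 : (φ * R.num.eval (s : ℚ) + c * R.denom.eval (s : ℚ)) =
            (φ * (R.num.eval (s : ℚ) / R.denom.eval (s : ℚ)) + c) * R.denom.eval (s : ℚ) := by
          field_simp
        rw [h4]
        linear_combination ((s : ℚ) * R.denom.eval (s : ℚ) * R.denom.eval (s : ℚ) * (s + 1)) * h1
    · have hs0 : s = 0 := by omega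
      rw [hs0]
      simp
  have key2 : (Polynomial.C φ * R.num + Polynomial.C c * R.denom) * D * (Polynomial.X + 1) =
      pn * P * R.denom := by
    rcases mul_eq_zero.1 key with h1 | h1
    · rcases mul_eq_zero.1 h1 with h2 | h2
      · exact absurd h2 Polynomial.X_ne_zero
      · exact absurd h2 hQ
    · exact sub_eq_zero.1 h1
  have key3 := congrArg (algebraMap (Polynomial ℚ) (RatFunc ℚ)) key2
  simp only [map_mul, map_add, map_one, RatFunc.algebraMap_X, RatFunc.algebraMap_C] at key3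
  rw [← hpref] at key3
  have hQ' : algebraMap (Polynomial ℚ) (RatFunc ℚ) R.denom ≠ 0 := RatFunc.algebraMap_ne_zero hQ
  have hR : R * algebraMap (Polynomial ℚ) (RatFunc ℚ) R.denom =
      algebraMap (Polynomial ℚ) (RatFunc ℚ) R.num := by
    have h1 := R.num_div_denom
    rw [div_eq_iff hQ'] at h1
    exact h1.symm
  rw [← hR] at key3
  have h5 : ((RatFunc.C φ * R + RatFunc.C c) * algebraMap (Polynomial ℚ) (RatFunc ℚ) D -
      pref e * algebraMap (Polynomial ℚ) (RatFunc ℚ) P) *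
      (algebraMap (Polynomial ℚ) (RatFunc ℚ) R.denom * (RatFunc.X + 1)) = 0 := by
    linear_combination key3
  rcases mul_eq_zero.1 h5 with h6 | h6
  · exact sub_eq_zero.1 h6
  · exact absurd h6 (mul_ne_zero hQ' hX1')

end

end IASMAux

/-- block IASM -/
theorem stmt_IASM (hLIMA : Stmt_LIMA) (hJC : Stmt_JC) (hGENR : Stmt_GENR) (hREL : Stmt_REL) :
    Stmt_I := by
  classical
  intro E ι κ _ _ _ _ _ w a h e R P D hw ha hh hfull he hR hTf
  obtain ⟨c, hc⟩ := hLIMA E ι κ w a h e R hw ha hh hfull he hR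
  obtain ⟨ζ, hζ, hgen⟩ := hGENR ι κ w h hh
  refine ⟨c, ?_⟩
  rw [IASMAux.aeval_line, IASMAux.aeval_line]
  apply IASMAux.ratfunc_id
  intro s hs hd
  have hs0 : (0 : ℝ) < s := by exact_mod_cast hs
  have hJ : ∀ C : Finset κ, ∃ J : ℝ, C ∈ cls0 w h →
      Tendsto (fun ε : ℝ => ε ^ (Fintype.card ι + 1 - C.card) *
        Fs w C (pz (fun _ => 0) (s : ℝ) 0) ε) (𝓝[>] 0) (𝓝 J) ∧
      Tendsto (fun η : ℝ => (nuE w 1 C : ℝ) * Itg w h (inl C) 1 (pz ζ (s : ℝ) η)) (𝓝[>] 0)
        (𝓝 J) := by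
    intro C
    by_cases hC : C ∈ cls0 w h
    · obtain ⟨J, h1⟩ := hJC ι κ w h hh ζ s hζ hs0 (hgen s hs0) C hC
      exact ⟨J, fun _ => h1⟩
    · exact ⟨0, fun hC' => absurd hC' hC⟩
  choose J hJ using hJ
  have h1 := hc s J hs hd (fun C hC => (hJ C hC).1)
  -- the limit of the sums
  have h2 : Tendsto (fun η : ℝ => ∑ C ∈ cls0 w h, (-1) ^ (C.card + 1) * ((nuE w e C : ℝ) -
        (if e = 1 ∧ 2 ≤ C.card then (nuE w 1 C : ℝ) / (1 + s) else 0)) *
          ((nuE w 1 C : ℝ) * Itg w h (inl C) 1 (pz ζ (s : ℝ) η))) (𝓝[>] 0)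
      (𝓝 (∑ C ∈ cls0 w h, (-1) ^ (C.card + 1) * ((nuE w e C : ℝ) -
        (if e = 1 ∧ 2 ≤ C.card then (nuE w 1 C : ℝ) / (1 + s) else 0)) * J C)) := by
    apply tendsto_finsetSum
    intro C hC
    exact ((hJ C hC).2).const_mul _
  rw [← h1] at h2
  have h3 := h2.mul (IASMAux.tendsto_aeval ζ s D)
  have h4 := (IASMAux.tendsto_aeval ζ s P).const_mul (if e = 1 then -(s : ℝ) / (s + 1) else -1)
  have h5 : (fun η : ℝ => (∑ C ∈ cls0 w h, (-1) ^ (C.card + 1) * ((nuE w e C : ℝ) -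
        (if e = 1 ∧ 2 ≤ C.card then (nuE w 1 C : ℝ) / (1 + s) else 0)) *
          ((nuE w 1 C : ℝ) * Itg w h (inl C) 1 (pz ζ (s : ℝ) η))) *
            (aeval (pz ζ (s : ℝ) η) D : ℝ)) =ᶠ[𝓝[>] 0]
      fun η : ℝ => (if e = 1 then -(s : ℝ) / (s + 1) else -1) *
        (aeval (pz ζ (s : ℝ) η) P : ℝ) := by
    filter_upwards [hgen s hs0] with η hη
    rw [IASMAux.main_id hREL w h hh e s (pz ζ (s : ℝ) η) hη rfl, mul_assoc, hTf _ hη]
  have h6 := tendsto_nhds_unique_of_eventuallyEq h3 h4 h5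
  rw [IASMAux.aeval_pz, IASMAux.aeval_pz] at h6
  have h7 : ((((e.totient : ℚ) * R.eval (RingHom.id ℚ) (s : ℚ) + c) *
      (IASMAux.lineP D).eval (s : ℚ) : ℚ) : ℝ) =
      (((if e = 1 then -(s : ℚ) / (s + 1) else -1) * (IASMAux.lineP P).eval (s : ℚ) : ℚ) : ℝ) := by
    push_cast
    rw [h6]
    split_ifs <;> push_cast <;> rfl
  exact_mod_cast h7

end Pool.Agent.Mono.NP
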