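import Mathlib
import Pool.Agent.Work.Monodromy.Interface12C

/-!
# Phase 12, block IDX: the index of the lattice is the number of box points (helper4)
-/

set_option autoImplicit false

namespace Pool.Agent.Mono.NP

namespace IDXAux

open Finset

variable {ι κ : Type} [Fintype ι] [DecidableEq ι] [Fintype κ] [DecidableEq κ]

theorem hat_eq (w : κ → ι → ℕ) (v : κ ⊕ ι) (b : ι ⊕ Unit) : hat w v b = (zv w v b : ℚ) := by
  rcases v with a | j <;> rcases b with i | u
  · simp [hat, zv]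
  · simp [hat, zv]
  · simp only [hat, zv, Sum.elim_inr, Sum.elim_inl]
    by_cases h : j = i
    · subst h; simp
    · simp [h]
  · simp [hat, zv]

/-- vectors in the rational span of the columns -/
theorem surj (w : κ → ι → ℕ) (C : Finset (κ ⊕ ι))
    (hli : LinearIndependent ℚ fun v : C => hat w (v : κ ⊕ ι)) (x : C → ℚ) :
    ∃ y : ι ⊕ Unit → ℚ, ∀ v : C, ∑ e, hat w v e * y e = x v := by
  classical
  let φ : (ι ⊕ Unit → ℚ) →ₗ[ℚ] (C → ℚ) :=
    Matrix.mulVecLin (Matrix.of fun (v : C) e => hat w v e)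
  have hφ : LinearMap.range φ = ⊤ := by
    by_contra hne
    obtain ⟨f, hf0, hf⟩ := Submodule.exists_le_ker_of_lt_top _ (lt_top_iff_ne_top.2 hne)
    apply hf0
    have h1 := Fintype.linearIndependent_iff.1 hli (fun v => f (Pi.single v 1)) (by
      funext e
      have h2 : f (φ (Pi.single e 1)) = 0 := hf ⟨_, rfl⟩
      have h3 : φ (Pi.single e 1) = ∑ v : C, hat w v e • (Pi.single v 1 : C → ℚ) := by
        funext u
        rw [Finset.sum_apply]
        simp [φ, Pi.single_apply, Finset.sum_ite_eq]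
      rw [h3, map_sum] at h2
      rw [Finset.sum_apply]
      simp only [Pi.smul_apply, smul_eq_mul, Pi.zero_apply]
      rw [← h2]
      refine Finset.sum_congr rfl fun v _ => ?_
      rw [map_smul, smul_eq_mul, mul_comm])
    refine LinearMap.pi_ext' fun v => LinearMap.ext_ring ?_
    simpa using h1 v
  obtain ⟨y, hy⟩ := LinearMap.range_eq_top.1 hφ x
  refine ⟨y, fun v => ?_⟩
  rw [← hy]
  simp [φ, Matrix.mulVec, dotProduct]

theorem torsion (w : κ → ι → ℕ) (C : Finset (κ ⊕ ι))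
    (hli : LinearIndependent ℚ fun v : C => hat w (v : κ ⊕ ι)) (z : C → ℤ) :
    ∃ n : ℕ, 0 < n ∧ n • z ∈ Lt w C := by
  obtain ⟨y, hy⟩ := surj w C hli fun v => (z v : ℚ)
  let n : ℕ := ∏ e, (y e).den
  have hn : 0 < n := Finset.prod_pos fun e _ => (y e).den_pos
  have hint : ∀ e, ∃ m : ℤ, (n : ℚ) * y e = m := by
    intro e
    obtain ⟨c, hc⟩ : (y e).den ∣ n := Finset.dvd_prod_of_mem _ (Finset.mem_univ e)
    refine ⟨c * (y e).num, ?_⟩
    have h1 : ((y e).den : ℚ) * y e = (y e).num := by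
      rw [mul_comm]; exact Rat.mul_den_eq_num (y e)
    rw [hc]
    push_cast
    calc ((y e).den : ℚ) * c * y e = c * (((y e).den : ℚ) * y e) := by ring
      _ = c * (y e).num := by rw [h1]
  choose m hm using hint
  refine ⟨n, hn, m, fun v => ?_⟩
  have h2 : ((n • z : C → ℤ) v : ℚ) = (zp w m v : ℚ) := by
    simp only [zp, Pi.smul_apply, nsmul_eq_mul]
    push_cast
    rw [← hy v, Finset.mul_sum]
    refine Finset.sum_congr rfl fun e _ => ?_
    rw [← hm e, hat_eq]; ring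
  exact_mod_cast h2

theorem finQ (w : κ → ι → ℕ) (C : Finset (κ ⊕ ι))
    (hli : LinearIndependent ℚ fun v : C => hat w (v : κ ⊕ ι)) :
    Finite ((C → ℤ) ⧸ Lt w C) := by
  have hfg : AddGroup.FG ((C → ℤ) ⧸ Lt w C) :=
    QuotientAddGroup.fg _
  have htor : IsAddTorsion ((C → ℤ) ⧸ Lt w C) := by
    intro g
    obtain ⟨z, rfl⟩ := QuotientAddGroup.mk_surjective g
    obtain ⟨n, hn, h⟩ := torsion w C hli z
    rw [isOfFinAddOrder_iff_nsmul_eq_zero]
    refine ⟨n, hn, ?_⟩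
    rw [← QuotientAddGroup.mk_nsmul]
    exact (QuotientAddGroup.eq_zero_iff _).2 h
  exact AddCommGroup.finite_of_fg_isAddTorsion _ htor

/-! ### characters -/

/-- `exp(2πi q)` -/
noncomputable def ex (q : ℚ) : ℂ := Complex.exp (2 * Real.pi * Complex.I * (q : ℂ))

theorem ex_zero : ex 0 = 1 := by simp [ex]

theorem ex_add (p q : ℚ) : ex (p + q) = ex p * ex q := by
  unfold ex
  rw [← Complex.exp_add]
  congr 1
  push_cast; ring

theorem ex_eq_one {q : ℚ} : ex q = 1 ↔ ∃ n : ℤ, q = n := by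
  unfold ex
  rw [Complex.exp_eq_one_iff]
  have hpi : (2 * Real.pi * Complex.I : ℂ) ≠ 0 := Complex.two_pi_I_ne_zero
  constructor
  · rintro ⟨n, hn⟩
    refine ⟨n, ?_⟩
    have h : (q : ℂ) = (n : ℂ) := by
      have h1 : (2 * Real.pi * Complex.I : ℂ) * (q : ℂ) = (2 * Real.pi * Complex.I) * (n : ℂ) := by
        rw [hn]; ring
      exact mul_left_cancel₀ hpi h1
    exact_mod_cast h
  · rintro ⟨n, rfl⟩
    refine ⟨n, ?_⟩
    push_cast; ring

theorem ex_ne_zero (q : ℚ) : ex q ≠ 0 := Complex.exp_ne_zero _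

theorem ex_eq {p q : ℚ} (h : ex p = ex q) : ∃ n : ℤ, p - q = n := by
  rw [← ex_eq_one]
  have h1 : ex (p - q) * ex q = ex q := by rw [← ex_add, sub_add_cancel, h]
  exact mul_right_cancel₀ (ex_ne_zero q) (by rw [h1, one_mul])

theorem ex_mul_int (q : ℚ) (n : ℤ) : ex (q * n) = ex q ^ n := by
  unfold ex
  rw [← Complex.exp_int_mul]
  congr 1
  push_cast; ring

theorem ex_sum {τ : Type} (s : Finset τ) (f : τ → ℚ) : ex (∑ t ∈ s, f t) = ∏ t ∈ s, ex (f t) := by
  classical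
  induction s using Finset.induction_on with
  | empty => simp [ex_zero]
  | insert a s ha ih => rw [Finset.sum_insert ha, Finset.prod_insert ha, ex_add, ih]

theorem addChar_sum {G τ : Type} [AddCommGroup G] (χ : AddChar G ℂ) (s : Finset τ) (f : τ → G) :
    χ (∑ t ∈ s, f t) = ∏ t ∈ s, χ (f t) := by
  classical
  induction s using Finset.induction_on with
  | empty => simp
  | insert a s ha ih =>
    rw [Finset.sum_insert ha, Finset.prod_insert ha, AddChar.map_add_eq_mul, ih]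

/-- `b` on `inl C` -/
def pb (C : Finset κ) (b : κ → ℚ) (v : (inl C : Finset (κ ⊕ ι))) : ℚ :=
  Sum.elim b (fun _ => 0) (v : κ ⊕ ι)

theorem sum_pb (C : Finset κ) (b : κ → ℚ) (hb : ∀ a, a ∉ C → b a = 0) (F : κ ⊕ ι → ℚ) :
    ∑ v : (inl C : Finset (κ ⊕ ι)), pb C b v * F v = ∑ a, b a * F (Sum.inl a) := by
  rw [← Finset.sum_subset (Finset.subset_univ C) (fun a _ ha => by rw [hb a ha, zero_mul])]
  have h1 : ∑ v : (inl C : Finset (κ ⊕ ι)), pb C b v * F v
      = ∑ v ∈ (inl C : Finset (κ ⊕ ι)), Sum.elim b (fun _ => 0) v * F v :=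
    Finset.sum_coe_sort (inl C : Finset (κ ⊕ ι)) fun v => Sum.elim b (fun _ => 0) v * F v
  rw [h1]
  unfold inl
  rw [Finset.sum_map]
  rfl

/-- the integrality conditions -/
theorem integral_iff (w : κ → ι → ℕ) (C : Finset κ) (b : κ → ℚ) (hb : ∀ a, a ∉ C → b a = 0) :
    (∀ z ∈ Lt w (inl C : Finset (κ ⊕ ι)), ∃ n : ℤ, ∑ v, pb C b v * (z v : ℚ) = n) ↔
      (∀ i, ∃ z : ℤ, ∑ a, b a * w a i = z) ∧ ∃ z : ℤ, ∑ a, b a = z := by
  constructor
  · intro h
    refine ⟨fun i => ?_, ?_⟩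
    · obtain ⟨n, hn⟩ := h (fun v => zp w (Pi.single (Sum.inl i) 1) v) ⟨_, fun _ => rfl⟩
      refine ⟨n, ?_⟩
      rw [← hn, sum_pb C b hb (fun v => (zp w (Pi.single (Sum.inl i) 1) v : ℚ))]
      refine Finset.sum_congr rfl fun a _ => ?_
      congr 1
      simp [zp, zv, Pi.single_apply]
    · obtain ⟨n, hn⟩ := h (fun v => zp w (Pi.single (Sum.inr ()) 1) v) ⟨_, fun _ => rfl⟩
      refine ⟨n, ?_⟩
      rw [← hn, sum_pb C b hb (fun v => (zp w (Pi.single (Sum.inr ()) 1) v : ℚ))]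
      refine Finset.sum_congr rfl fun a _ => ?_
      simp [zp, zv, Pi.single_apply]
  · rintro ⟨h1, h2⟩ z ⟨y, hy⟩
    have h3 : ∑ v, pb C b v * (z v : ℚ) = ∑ a, b a * (zp w y (Sum.inl a) : ℚ) := by
      rw [← sum_pb C b hb (fun v => (zp w y v : ℚ))]
      exact Finset.sum_congr rfl fun v _ => by rw [hy v]
    rw [h3]
    choose m hm using h1
    obtain ⟨m', hm'⟩ := h2
    refine ⟨∑ i, y (Sum.inl i) * m i + y (Sum.inr ()) * m', ?_⟩
    push_cast
    have h4 : ∀ a, b a * (zp w y (Sum.inl a) : ℚ)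
        = ∑ i, (y (Sum.inl i) : ℚ) * (b a * w a i) + (y (Sum.inr ()) : ℚ) * b a := by
      intro a
      simp only [zp, zv, Fintype.sum_sum_type, Sum.elim_inl, Sum.elim_inr]
      push_cast
      simp only [Finset.univ_unique, Finset.sum_singleton, mul_add, Finset.mul_sum]
      congr 1
      · exact Finset.sum_congr rfl fun i _ => by ring
      · simp [mul_comm]
    simp only [h4, Finset.sum_add_distrib]
    rw [Finset.sum_comm]
    simp only [← Finset.mul_sum, hm, hm']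

/-- the box points with integral weight -/
abbrev S (w : κ → ι → ℕ) (C : Finset κ) : Type :=
  {b : κ → ℚ // b ∈ Bx w C ∧ (∑ a, b a).den = 1}

theorem S_int (w : κ → ι → ℕ) (C : Finset κ) (b : S w C) :
    ∀ z ∈ Lt w (inl C : Finset (κ ⊕ ι)), ∃ n : ℤ, ∑ v, pb C b.1 v * (z v : ℚ) = n := by
  rw [integral_iff w C b.1 b.2.1.2.1]
  refine ⟨b.2.1.2.2, (∑ a, b.1 a).num, ?_⟩
  exact ((Rat.den_eq_one_iff _).1 b.2.2).symm

/-- the homomorphism of a box point -/
noncomputable def hm (w : κ → ι → ℕ) (C : Finset κ) (b : S w C) :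
    (↥(inl C : Finset (κ ⊕ ι)) → ℤ) →+ Additive ℂ where
  toFun z := Additive.ofMul (ex (∑ v, pb C b.1 v * (z v : ℚ)))
  map_zero' := by simp [ex_zero]
  map_add' x y := by
    rw [← ofMul_mul, ← ex_add, ← Finset.sum_add_distrib]
    congr 2
    refine Finset.sum_congr rfl fun v _ => ?_
    rw [Pi.add_apply]; push_cast; ring

/-- the character of a box point -/
noncomputable def ch (w : κ → ι → ℕ) (C : Finset κ) (b : S w C) :
    AddChar ((↥(inl C : Finset (κ ⊕ ι)) → ℤ) ⧸ Lt w (inl C : Finset (κ ⊕ ι))) ℂ :=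
  AddChar.toAddMonoidHomEquiv.symm (QuotientAddGroup.lift _ (hm w C b) (by
    intro z hz
    rw [AddMonoidHom.mem_ker]
    show Additive.ofMul (ex (∑ v, pb C b.1 v * (z v : ℚ))) = 0
    rw [ex_eq_one.2 (S_int w C b z hz)]; rfl))

theorem ch_mk (w : κ → ι → ℕ) (C : Finset κ) (b : S w C) (z : ↥(inl C : Finset (κ ⊕ ι)) → ℤ) :
    ch w C b (QuotientAddGroup.mk z) = ex (∑ v, pb C b.1 v * (z v : ℚ)) := rfl

theorem ch_inj (w : κ → ι → ℕ) (C : Finset κ) : Function.Injective (ch w C) := by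
  intro b b' h
  apply Subtype.ext
  funext a
  by_cases ha : a ∈ C
  · have hm : (Sum.inl a : κ ⊕ ι) ∈ (inl C : Finset (κ ⊕ ι)) := Finset.mem_map_of_mem _ ha
    have e : ∀ b : S w C, ∑ v, pb C b.1 v *
        (((Pi.single ⟨Sum.inl a, hm⟩ 1 : ↥(inl C : Finset (κ ⊕ ι)) → ℤ) v : ℤ) : ℚ) = b.1 a := by
      intro b
      rw [Finset.sum_eq_single ⟨Sum.inl a, hm⟩]
      · simp [pb]
      · intro v _ hv
        rw [Pi.single_eq_of_ne hv]; simp
      · simp
    have h1 := congrArg (fun c => c (QuotientAddGroup.mk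
      (Pi.single ⟨Sum.inl a, hm⟩ 1 : ↥(inl C : Finset (κ ⊕ ι)) → ℤ))) h
    simp only [ch_mk] at h1
    rw [e, e] at h1
    obtain ⟨n, hn⟩ := ex_eq h1
    have p1 := (b.2.1.1 a)
    have p2 := (b'.2.1.1 a)
    have q1 : (-1 : ℚ) < n := by rw [← hn]; linarith [p1.1, p2.2]
    have q2 : (n : ℚ) < 1 := by rw [← hn]; linarith [p1.2, p2.1]
    have q3 : n = 0 := by
      have r1 : (-1 : ℤ) < n := by exact_mod_cast q1
      have r2 : n < 1 := by exact_mod_cast q2
      omega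
    rw [q3] at hn
    simpa [sub_eq_zero] using hn
  · rw [b.2.1.2.1 a ha, b'.2.1.2.1 a ha]

theorem ch_surj (w : κ → ι → ℕ) (C : Finset κ)
    (hfin : Finite ((↥(inl C : Finset (κ ⊕ ι)) → ℤ) ⧸ Lt w (inl C : Finset (κ ⊕ ι)))) :
    Function.Surjective (ch w C) := by
  classical
  intro χ
  set Q := ((↥(inl C : Finset (κ ⊕ ι)) → ℤ) ⧸ Lt w (inl C : Finset (κ ⊕ ι))) with hQ
  set n := Nat.card Q with hn
  have hn0 : n ≠ 0 := Nat.card_pos.ne'
  have hpow : ∀ g : Q, χ g ^ n = 1 := by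
    intro g
    rw [← AddChar.map_nsmul_eq_pow, hn, card_nsmul_eq_zero', AddChar.map_zero_eq_one]
  have hroot : ∀ g : Q, ∃ q : ℚ, 0 ≤ q ∧ q < 1 ∧ ex q = χ g := by
    intro g
    obtain ⟨i, hi, h⟩ := (Complex.isPrimitiveRoot_exp n hn0).eq_pow_of_pow_eq_one (hpow g)
    have hnq : (0 : ℚ) < n := by exact_mod_cast Nat.pos_of_ne_zero hn0
    refine ⟨(i : ℚ) / n, by positivity, ?_, ?_⟩
    · rw [div_lt_one hnq]; exact_mod_cast hi
    · rw [← h, ex, ← Complex.exp_nat_mul]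
      congr 1
      push_cast
      ring
  choose q hq0 hq1 hq2 using hroot
  let b : κ → ℚ := fun a => if ha : a ∈ C then
    q (QuotientAddGroup.mk (Pi.single ⟨Sum.inl a, Finset.mem_map_of_mem _ ha⟩ 1 :
      ↥(inl C : Finset (κ ⊕ ι)) → ℤ)) else 0
  have hb0 : ∀ a, a ∉ C → b a = 0 := fun a ha => by simp [b, ha]
  have hpb : ∀ v : (inl C : Finset (κ ⊕ ι)), ex (pb C b v) = χ (QuotientAddGroup.mk
      (Pi.single v 1 : ↥(inl C : Finset (κ ⊕ ι)) → ℤ)) := by
    rintro ⟨v, hv⟩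
    obtain ⟨a, ha, rfl⟩ := Finset.mem_map.1 hv
    rw [← hq2]
    congr 1
    show b a = _
    simp only [b, dif_pos ha]
    rfl
  have hev : ∀ z : ↥(inl C : Finset (κ ⊕ ι)) → ℤ,
      ex (∑ v, pb C b v * (z v : ℚ)) = χ (QuotientAddGroup.mk z) := by
    intro z
    rw [ex_sum]
    have hz : (QuotientAddGroup.mk z : Q) = ∑ v, z v • (QuotientAddGroup.mk
        (Pi.single v 1 : ↥(inl C : Finset (κ ⊕ ι)) → ℤ) : Q) := by
      have h1 : z = ∑ v, z v • (Pi.single v 1 : ↥(inl C : Finset (κ ⊕ ι)) → ℤ) := by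
        funext u
        rw [Finset.sum_apply]
        simp [Pi.single_apply]
      conv_lhs => rw [h1]
      rw [← QuotientAddGroup.mk'_apply, map_sum]
      rfl
    rw [hz, addChar_sum]
    refine Finset.prod_congr rfl fun v _ => ?_
    rw [ex_mul_int, hpb, AddChar.map_zsmul_eq_zpow]
  have hint := (integral_iff w C b hb0).1 (by
    intro z hz
    rw [← ex_eq_one, hev, (QuotientAddGroup.eq_zero_iff z).2 hz, AddChar.map_zero_eq_one])
  refine ⟨⟨b, ⟨?_, hb0, hint.1⟩, ?_⟩, ?_⟩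
  · intro a
    by_cases ha : a ∈ C
    · simp only [b, dif_pos ha]
      exact ⟨hq0 _, hq1 _⟩
    · rw [hb0 a ha]; norm_num
  · obtain ⟨z, hz⟩ := hint.2
    rw [hz]; exact Rat.den_intCast z
  · ext g
    obtain ⟨z, rfl⟩ := QuotientAddGroup.mk_surjective g
    rw [ch_mk, hev]

end IDXAux

open IDXAux in
/-- Block IDX. -/
theorem stmt_IDX : Stmt_IDX := by
  classical
  intro ι κ _ _ _ _ w C hli
  have hli' : LinearIndependent ℚ fun v : (inl C : Finset (κ ⊕ ι)) => hat w (v : κ ⊕ ι) := by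
    let f : C ≃ (inl C : Finset (κ ⊕ ι)) := Equiv.ofBijective
      (fun a => ⟨Sum.inl a.1, Finset.mem_map_of_mem _ a.2⟩) ⟨by
        intro a a' h
        apply Subtype.ext
        simpa using h, by
        rintro ⟨v, hv⟩
        obtain ⟨a, ha, rfl⟩ := Finset.mem_map.1 hv
        exact ⟨⟨a, ha⟩, rfl⟩⟩
    rw [← linearIndependent_equiv f]
    exact hli
  have hfin := finQ w (inl C : Finset (κ ⊕ ι)) hli'
  have h1 : (Lt w (inl C : Finset (κ ⊕ ι))).index = nuE w 1 C := by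
    have := Fintype.ofFinite ((↥(inl C : Finset (κ ⊕ ι)) → ℤ) ⧸ Lt w (inl C : Finset (κ ⊕ ι)))
    rw [AddSubgroup.index, nuE, Nat.card_congr (Equiv.ofBijective (ch w C) ⟨ch_inj w C,
      ch_surj w C hfin⟩), Nat.card_eq_fintype_card, Nat.card_eq_fintype_card, AddChar.card_eq]
  refine ⟨h1, ?_⟩
  rw [← h1]
  exact Nat.card_pos

end Pool.Agent.Mono.NP
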