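import Pool.Agent.Work.Monodromy12.LF12

/-!
# Phase 12, assembly of part II (helper49)
-/

set_option autoImplicit false

namespace Pool.Agent.Mono.NP

open MvPolynomial

namespace IIASMAux

section

variable {ι κ : Type} [Fintype ι] [DecidableEq ι] [Fintype κ] [DecidableEq κ]

/-- `∑_{a ∈ A} e_a` -/
noncomputable def one (A : Finset κ) : (κ ⊕ ι) →₀ ℕ := ∑ a ∈ A, Finsupp.single (Sum.inl a) 1

theorem one_inl (A : Finset κ) (a : κ) :
    (one A : (κ ⊕ ι) →₀ ℕ) (Sum.inl a) = if a ∈ A then 1 else 0 := by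
  rw [one, Finsupp.finsetSum_apply]
  simp [Finsupp.single_apply]

theorem one_degree (A : Finset κ) : (one A : (κ ⊕ ι) →₀ ℕ).degree = A.card := by
  rw [one, map_sum]
  simp

theorem xprod_eq (A : Finset κ) :
    (xprod A : MvPolynomial (κ ⊕ ι) ℚ) = monomial (one A) 1 := by
  rw [xprod, one, monomial_sum_one]
  rfl

theorem prod_inl (A : Finset κ) :
    (∏ v ∈ (inl A : Finset (κ ⊕ ι)), X v : MvPolynomial (κ ⊕ ι) ℚ) = monomial (one A) 1 := by
  rw [← xprod_eq, xprod, inl, Finset.prod_map]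
  rfl

theorem mem_inl {A : Finset κ} {a : κ} : Sum.inl a ∈ (inl A : Finset (κ ⊕ ι)) ↔ a ∈ A := by
  simp [inl]

theorem inr_mem_inl {A : Finset κ} {i : ι} : Sum.inr i ∉ (inl A : Finset (κ ⊕ ι)) := by
  simp [inl]

theorem aeval_listProd {F : Type} [Field F] [Algebra ℚ F] (B : List (ι ⊕ Unit → ℚ))
    (y : ι ⊕ Unit → F) :
    aeval y (B.map fun x => ∑ e, C (x e) * X e).prod = (B.map fun x => ev x y).prod := by
  rw [map_list_prod, List.map_map]
  congr 1
  apply List.map_congr_left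
  intro x _
  simp only [Function.comp_apply, map_sum, map_mul, aeval_X, aeval_C]
  rfl

open Classical in
theorem mem_HP {w : κ → ι → ℕ} {s₀ : ℚ} {Δ : Finset (κ ⊕ ι)} {b : (κ → ℚ) × (κ → ℚ)} {a : κ} :
    a ∈ HP w s₀ Δ b ↔ Sum.inl a ∈ BB w s₀ Δ b ∧ 0 < cc0 w s₀ Δ a ∧
      ∃ z : ℤ, cc0 w s₀ Δ a = z := by
  unfold HP
  rw [Finset.mem_filter]
  simp

/-- a nonzero value of the functional on `xprod A * g` is a nonzero value on a monomial -/
theorem exists_monomial {w : κ → ι → ℕ} {h : κ → ℝ} {p : ι → ℚ} {σ : Finset (κ ⊕ ι)}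
    (hadd : ∀ g g', Lf w h p σ (g + g') = Lf w h p σ g + Lf w h p σ g')
    (hsc : ∀ (c : ℚ) g, Lf w h p σ (C c * g) = c * Lf w h p σ g)
    (A : Finset κ) (g : MvPolynomial (κ ⊕ ι) ℚ) (d : ℕ) (hg : g.IsHomogeneous d)
    (hne : Lf w h p σ (xprod A * g) ≠ 0) :
    ∃ μ : (κ ⊕ ι) →₀ ℕ, μ.degree = d ∧ Lf w h p σ (monomial (one A + μ) 1) ≠ 0 := by
  let L : MvPolynomial (κ ⊕ ι) ℚ →+ ℚ := AddMonoidHom.mk' (Lf w h p σ) hadd
  have hL : ∀ g, L g = Lf w h p σ g := fun _ => rfl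
  rw [g.as_sum, Finset.mul_sum, ← hL, map_sum] at hne
  obtain ⟨μ, hμ, hμ2⟩ := Finset.exists_ne_zero_of_sum_ne_zero hne
  refine ⟨μ, ?_, ?_⟩
  · by_contra hd
    exact (mem_support_iff.1 hμ) (hg.coeff_eq_zero hd)
  · intro h0
    apply hμ2
    have h1 : xprod A * monomial μ (coeff μ g) =
        C (coeff μ g) * monomial (one A + μ) 1 := by
      rw [xprod_eq, monomial_mul, C_mul_monomial, one_mul, mul_one]
    rw [h1, hL, hsc, h0, mul_zero]

end

end IIASMAux

open IIASMAux in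
theorem stmt_II (hREL : Stmt_REL) (hGENP : Stmt_GENP) (hLF : Stmt_LF) (hPOLE : Stmt_POLE)
    (hTD : Stmt_TD) (hNUM : Stmt_NUM) (hCOV : Stmt_COV) (hDAT : Stmt_DAT) : Stmt_II := by
  intro ι κ _ _ _ _ _ w h e _ hh he
  obtain ⟨B, P, hB, hP⟩ := hTD ι κ w h e hh
  obtain ⟨p, hp, hgen, hcrv⟩ := hGENP ι κ w h hh
  obtain ⟨hD0, hnum⟩ := hNUM ι κ w p B P hB
  refine ⟨P, (B.map fun x => ∑ e, C (x e) * X e).prod, ?_, ?_, ?_⟩
  · intro y hy
    rw [aeval_listProd]
    exact hP ℝ y hy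
  · exact hD0
  · intro s hs hpole
    obtain ⟨s₀, hs₀, N₀, hN⟩ := hnum s hs hpole
    refine ⟨s₀, hs₀, ?_⟩
    by_contra hcon
    have hs₀z : ∀ z : ℤ, s₀ ≠ z := by
      intro z hz
      apply hs z
      rw [← hs₀, hz]
      simp
    -- the functionals vanish
    have hvan : ∀ b ∈ BP w h e, ∀ Δ ∈ maxCells w h, inl (spp b) ⊆ Δ →
        Good w (BB w s₀ Δ b) ∧
      ∀ (g : MvPolynomial (κ ⊕ ι) ℚ) (d : ℕ), g.IsHomogeneous d →
        (QQ w s₀ Δ b).card + d + (BB w s₀ Δ b).card < Fintype.card ι + 1 →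
        Lf w h p (BB w s₀ Δ b) (xprod (QQ w s₀ Δ b) * g) = 0 := by
      intro b hb Δ hΔ hsub
      obtain ⟨hAQ, hAH, hrow, hgood, hgood2, hsum, hint, hnc⟩ :=
        hCOV ι κ w h s₀ e hh b hb Δ hΔ hsub
      refine ⟨hgood, ?_⟩
      intro g d hg hcard
      by_contra hne
      obtain ⟨μ, hμ, hμne⟩ := exists_monomial
        (fun g g' => (hLF ι κ w h p hh hp hgen _ hgood g g').1)
        (fun c g => (hLF ι κ w h p hh hp hgen _ hgood g 0).2.1 c) _ g d hg hne
      apply hcon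
      set H : Finset κ := HP w s₀ Δ b \ AA w s₀ Δ b with hH
      set σ₂ : Finset (κ ⊕ ι) := BB w s₀ Δ b \ inl H with hσ₂
      have hHB : (inl H : Finset (κ ⊕ ι)) ⊆ BB w s₀ Δ b := by
        intro v hv
        rcases v with a | i
        · rw [mem_inl, hH, Finset.mem_sdiff] at hv
          exact (mem_HP.1 hv.1).1
        · exact absurd hv inr_mem_inl
      have hun : σ₂ ∪ inl H = BB w s₀ Δ b := by
        rw [hσ₂]
        exact Finset.sdiff_union_of_subset hHB
      have hLeq : Lf w h p σ₂ (monomial (one H + (one (QQ w s₀ Δ b) + μ)) 1) =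
          Lf w h p (BB w s₀ Δ b) (monomial (one (QQ w s₀ Δ b) + μ) 1) := by
        unfold Lf
        have h1 := LFAux.itg_prod hREL hh (hgen 1 le_rfl) (inl H) σ₂
          (monomial (one (QQ w s₀ Δ b) + μ) 1) Finset.disjoint_sdiff
        rw [hun, prod_inl, monomial_mul, one_mul] at h1
        rw [h1]
      have hcardH : σ₂.card + H.card = (BB w s₀ Δ b).card := by
        rw [← hun, Finset.card_union_of_disjoint Finset.sdiff_disjoint]
        congr 1
        unfold inl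
        rw [Finset.card_map]
      have hinr : ∀ i : ι, Sum.inr i ∉ σ₂ → Sum.inr i ∉ BB w s₀ Δ b := by
        intro i hi hi2
        apply hi
        rw [hσ₂, Finset.mem_sdiff]
        exact ⟨hi2, inr_mem_inl⟩
      refine hDAT ι κ w h p s₀ (cc0 w s₀ Δ) σ₂ (one H + (one (QQ w s₀ Δ b) + μ)) hh hp hgen
        hgood2 hs₀z hsum ?_ ?_ ?_ ?_ ?_
      · intro i hi
        exact ⟨1, by rw [hint i (hinr i hi)]; simp⟩
      · intro a ha
        rw [hσ₂, Finset.mem_sdiff]
        refine ⟨hnc a ha, ?_⟩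
        rw [mem_inl, hH, Finset.mem_sdiff]
        rintro ⟨h1, -⟩
        obtain ⟨z, hz⟩ := (mem_HP.1 h1).2.2
        exact ha z hz
      · intro i hi _
        obtain ⟨a, ha, ha2⟩ := hrow i (hinr i hi)
        refine ⟨a, ha, ?_⟩
        rcases ha2 with ha2 | ha2
        · left
          rw [Finsupp.add_apply, Finsupp.add_apply, one_inl, one_inl]
          by_cases hA : a ∈ AA w s₀ Δ b
          · rw [if_pos (hAQ hA)]
            omega
          · rw [if_pos (show a ∈ H from Finset.mem_sdiff.2 ⟨ha2, hA⟩)]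
            omega
        · exact Or.inr ha2
      · rw [map_add, map_add, one_degree, one_degree, hμ]
        omega
      · rw [hLeq]
        exact hμne
    have hord := hPOLE ι κ w h p s₀ e hh he hp hgen (hcrv s₀) hvan
    have hNN : N₀ ≤ max N₀ (Fintype.card ι + 3) := le_max_left _ _
    have hN3 : Fintype.card ι + 3 ≤ max N₀ (Fintype.card ι + 3) := le_max_right _ _
    exact hN _ _ hNN (hP (LaurentSeries ℚ) _ (hcrv s₀ _ (by omega))) (hord _ hN3)

end Pool.Agent.Mono.NP
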