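import Pool.Agent.Work.Monodromy.Interface12C

/-!
# Phase 12, block JC: the limits on the line `(1, …, 1, -s)` (helper63)
-/

set_option autoImplicit false

namespace Pool.Agent.Mono.NP

open MvPolynomial Filter Topology

namespace JCAux

/-- squeezing -/
theorem squeeze (r : ℕ) (F : ℝ → ℝ) (Fη : ℝ → ℝ → ℝ) (L : ℝ → ℝ)
    (hF0 : ∀ ε, 0 < ε → 0 ≤ F ε)
    (h1 : ∀ η, 0 < η → ∀ ε, 0 < ε → Fη η ε ≤ F ε)
    (h2 : ∀ η, 0 < η → ∀ ε, 0 < ε → F ((1 + η) * ε) ≤ Fη η ε)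
    (hL : ∀ᶠ η in 𝓝[>] (0 : ℝ), Tendsto (fun ε => ε ^ r * Fη η ε) (𝓝[>] 0) (𝓝 (L η))) :
    ∃ J : ℝ, Tendsto (fun ε => ε ^ r * F ε) (𝓝[>] 0) (𝓝 J) ∧ Tendsto L (𝓝[>] 0) (𝓝 J) := by
  set G : ℝ → ℝ := fun ε => ε ^ r * F ε with hG
  have hpos : ∀ᶠ η in 𝓝[>] (0 : ℝ), 0 < η := self_mem_nhdsWithin
  have hG0 : ∀ᶠ ε in 𝓝[>] (0 : ℝ), 0 ≤ G ε := by
    filter_upwards [hpos] with ε hε
    exact mul_nonneg (pow_nonneg hε.le _) (hF0 ε hε)
  -- upper bounds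
  have hub : ∀ η, 0 < η → Tendsto (fun ε => ε ^ r * Fη η ε) (𝓝[>] 0) (𝓝 (L η)) →
      ∀ b, (1 + η) ^ r * L η < b → ∀ᶠ ε in 𝓝[>] (0 : ℝ), G ε ≤ b := by
    intro η hη hLη b hb
    have h3 : Tendsto (fun ε => (1 + η) ^ r * (ε ^ r * Fη η ε)) (𝓝[>] 0)
        (𝓝 ((1 + η) ^ r * L η)) := hLη.const_mul _
    have h4 : ∀ᶠ ε in 𝓝[>] (0 : ℝ), (1 + η) ^ r * (ε ^ r * Fη η ε) < b := h3.eventually_lt_const hb
    have h5 : Tendsto (fun ε : ℝ => (1 + η)⁻¹ * ε) (𝓝[>] 0) (𝓝[>] 0) := by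
      refine tendsto_nhdsWithin_iff.2 ⟨?_, ?_⟩
      · have : Tendsto (fun ε : ℝ => (1 + η)⁻¹ * ε) (𝓝 0) (𝓝 ((1 + η)⁻¹ * 0)) :=
          tendsto_id.const_mul _
        rw [mul_zero] at this
        exact this.mono_left nhdsWithin_le_nhds
      · filter_upwards [hpos] with ε hε
        exact mul_pos (inv_pos.2 (by linarith)) hε
    filter_upwards [h5.eventually h4, hpos] with ε h6 hε
    have h7 : 0 < (1 + η)⁻¹ * ε := mul_pos (inv_pos.2 (by linarith)) hε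
    have h8 := h2 η hη _ h7
    have h9 : (1 + η) * ((1 + η)⁻¹ * ε) = ε := by
      rw [← mul_assoc, mul_inv_cancel₀ (by linarith), one_mul]
    rw [h9] at h8
    have h10 : G ε = (1 + η) ^ r * (((1 + η)⁻¹ * ε) ^ r * F ε) := by
      rw [hG, ← mul_assoc, ← mul_pow, h9]
    rw [h10]
    refine le_trans ?_ h6.le
    exact mul_le_mul_of_nonneg_left (mul_le_mul_of_nonneg_left h8 (pow_nonneg h7.le _))
      (pow_nonneg (by linarith) _)
  have hlb : ∀ η, 0 < η → Tendsto (fun ε => ε ^ r * Fη η ε) (𝓝[>] 0) (𝓝 (L η)) →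
      ∀ a, a < L η → ∀ᶠ ε in 𝓝[>] (0 : ℝ), a ≤ G ε := by
    intro η hη hLη a ha
    filter_upwards [hLη.eventually_const_lt ha, hpos] with ε h3 hε
    exact h3.le.trans (mul_le_mul_of_nonneg_left (h1 η hη ε hε) (pow_nonneg hε.le _))
  obtain ⟨η₁, hη₁, hη₁'⟩ := (hpos.and hL).exists
  have hbdd : ∀ᶠ ε in 𝓝[>] (0 : ℝ), G ε ≤ (1 + η₁) ^ r * L η₁ + 1 :=
    hub η₁ hη₁ hη₁' _ (lt_add_one _)
  have hB1 : IsBoundedUnder (· ≤ ·) (𝓝[>] (0 : ℝ)) G := ⟨_, hbdd⟩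
  have hB2 : IsBoundedUnder (· ≥ ·) (𝓝[>] (0 : ℝ)) G := ⟨0, hG0⟩
  have hC1 : IsCoboundedUnder (· ≤ ·) (𝓝[>] (0 : ℝ)) G := hB2.isCoboundedUnder_le
  have hC2 : IsCoboundedUnder (· ≥ ·) (𝓝[>] (0 : ℝ)) G := hB1.isCoboundedUnder_ge
  set J := liminf G (𝓝[>] (0 : ℝ)) with hJ
  have hlow : ∀ η, 0 < η → Tendsto (fun ε => ε ^ r * Fη η ε) (𝓝[>] 0) (𝓝 (L η)) → L η ≤ J := by
    intro η hη hLη
    refine le_of_forall_lt fun a ha => ?_
    obtain ⟨a', ha1, ha2⟩ := exists_between ha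
    exact lt_of_lt_of_le ha1 (le_liminf_of_le hC2 (hlb η hη hLη a' ha2))
  have hupp : ∀ η, 0 < η → Tendsto (fun ε => ε ^ r * Fη η ε) (𝓝[>] 0) (𝓝 (L η)) →
      limsup G (𝓝[>] (0 : ℝ)) ≤ (1 + η) ^ r * L η := by
    intro η hη hLη
    refine le_of_forall_gt_imp_ge_of_dense fun b hb => ?_
    exact limsup_le_of_le hC1 (hub η hη hLη b hb)
  have hpow : Tendsto (fun η : ℝ => (1 + η) ^ r) (𝓝[>] 0) (𝓝 1) := by
    have : Tendsto (fun η : ℝ => (1 + η) ^ r) (𝓝 0) (𝓝 ((1 + 0) ^ r)) :=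
      (tendsto_id.const_add 1).pow r
    rw [add_zero, one_pow] at this
    exact this.mono_left nhdsWithin_le_nhds
  have hls : limsup G (𝓝[>] (0 : ℝ)) ≤ J := by
    have h3 : Tendsto (fun η : ℝ => (1 + η) ^ r * J) (𝓝[>] 0) (𝓝 (1 * J)) := hpow.mul_const J
    rw [one_mul] at h3
    refine ge_of_tendsto h3 ?_
    filter_upwards [hpos, hL] with η hη hLη
    exact (hupp η hη hLη).trans (mul_le_mul_of_nonneg_left (hlow η hη hLη)
      (pow_nonneg (by linarith) _))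
  have hGJ : Tendsto G (𝓝[>] 0) (𝓝 J) :=
    tendsto_of_le_liminf_of_limsup_le le_rfl hls hB1 hB2
  refine ⟨J, hGJ, ?_⟩
  have h4 : Tendsto (fun η : ℝ => J / (1 + η) ^ r) (𝓝[>] 0) (𝓝 (J / 1)) :=
    tendsto_const_nhds.div hpow one_ne_zero
  rw [div_one] at h4
  refine tendsto_of_tendsto_of_tendsto_of_le_of_le' h4 tendsto_const_nhds ?_ ?_
  · filter_upwards [hpos, hL] with η hη hLη
    have h5 : (0 : ℝ) < (1 + η) ^ r := pow_pos (by linarith) _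
    rw [div_le_iff₀ h5, mul_comm]
    have h6 : J ≤ limsup G (𝓝[>] (0 : ℝ)) := by
      rw [hGJ.limsup_eq]
    exact h6.trans (hupp η hη hLη)
  · filter_upwards [hpos, hL] with η hη hLη
    exact hlow η hη hLη

end JCAux

open JCAux in
theorem stmt_JC (hFAC : Stmt_FAC) (hGRK : Stmt_GRK) : Stmt_JC := by
  classical
  intro ι κ _ _ _ _ _ w h hh ζ s hζ hs hGen C hC
  have hCne : C.Nonempty := by
    have := hC
    unfold cls0 at this
    exact (Finset.mem_filter.1 this).2.1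
  have hsum := (hGRK ι κ w C s hCne hs.le).1
  let φ : {k : ι → ℕ // C ⊆ fc w k} → ℝ := fun k =>
    ∑ i, ((k : ι → ℕ) i : ℝ) + s * (mnk w k : ℝ)
  let ψ : ℝ → {k : ι → ℕ // C ⊆ fc w k} → ℝ := fun η k =>
    ∑ i, (1 + η * ζ i) * ((k : ι → ℕ) i : ℝ) + s * (mnk w k : ℝ)
  have hF0 : ∀ ε, Fs w C (pz (fun _ => 0) s 0) ε = ∑' k, Real.exp (-ε * φ k) := by
    intro ε
    unfold Fs
    refine tsum_congr fun k => ?_
    simp only [pz, Sum.elim_inl, Sum.elim_inr, mul_zero, add_zero, one_mul, neg_mul, sub_neg_eq_add,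
      φ]
  have hF1 : ∀ η ε, Fs w C (pz ζ s η) ε = ∑' k, Real.exp (-ε * ψ η k) := by
    intro η ε
    unfold Fs
    refine tsum_congr fun k => ?_
    simp only [pz, Sum.elim_inl, Sum.elim_inr, neg_mul, sub_neg_eq_add, ψ]
  have hφψ : ∀ η, 0 < η → ∀ k, φ k ≤ ψ η k ∧ ψ η k ≤ (1 + η) * φ k := by
    intro η hη k
    have h3 : ψ η k = φ k + η * ∑ i, ζ i * ((k : ι → ℕ) i : ℝ) := by
      simp only [φ, ψ, add_mul, one_mul, Finset.sum_add_distrib, Finset.mul_sum]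
      have : ∑ i, η * ζ i * ((k : ι → ℕ) i : ℝ) = ∑ i, η * (ζ i * ((k : ι → ℕ) i : ℝ)) :=
        Finset.sum_congr rfl fun i _ => by ring
      rw [this]; ring
    have h4 : 0 ≤ ∑ i, ζ i * ((k : ι → ℕ) i : ℝ) :=
      Finset.sum_nonneg fun i _ => mul_nonneg (hζ i).1.le (Nat.cast_nonneg _)
    have h5 : ∑ i, ζ i * ((k : ι → ℕ) i : ℝ) ≤ φ k := by
      have h6 : ∑ i, ζ i * ((k : ι → ℕ) i : ℝ) ≤ ∑ i, ((k : ι → ℕ) i : ℝ) :=
        Finset.sum_le_sum fun i _ => mul_le_of_le_one_left (Nat.cast_nonneg _) (hζ i).2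
      have h7 : (0 : ℝ) ≤ s * (mnk w k : ℝ) := mul_nonneg hs.le (Nat.cast_nonneg _)
      simp only [φ]
      linarith
    rw [h3]
    constructor
    · have := mul_nonneg hη.le h4
      linarith
    · have := mul_le_mul_of_nonneg_left h5 hη.le
      linarith
  have hsψ : ∀ η, 0 < η → ∀ ε, 0 < ε → Summable fun k => Real.exp (-ε * ψ η k) := by
    intro η hη ε hε
    refine Summable.of_nonneg_of_le (fun k => (Real.exp_pos _).le) (fun k => ?_) (hsum ε hε)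
    refine Real.exp_le_exp.2 ?_
    have h3 : ε * φ k ≤ ε * ψ η k := mul_le_mul_of_nonneg_left (hφψ η hη k).1 hε.le
    show -ε * ψ η k ≤ -ε * φ k
    linarith
  obtain ⟨J, hJ1, hJ2⟩ := squeeze (Fintype.card ι + 1 - C.card)
    (fun ε => Fs w C (pz (fun _ => 0) s 0) ε) (fun η ε => Fs w C (pz ζ s η) ε)
    (fun η => (nuE w 1 C : ℝ) * Itg w h (inl C) 1 (pz ζ s η))
    (fun ε _ => by
      rw [hF0]
      exact tsum_nonneg fun k => (Real.exp_pos _).le)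
    (fun η hη ε hε => by
      simp only [hF0, hF1]
      refine Summable.tsum_le_tsum (fun k => ?_) (hsψ η hη ε hε) (hsum ε hε)
      refine Real.exp_le_exp.2 ?_
      have h3 : ε * φ k ≤ ε * ψ η k := mul_le_mul_of_nonneg_left (hφψ η hη k).1 hε.le
      show -ε * ψ η k ≤ -ε * φ k
      linarith)
    (fun η hη ε hε => by
      simp only [hF0, hF1]
      refine Summable.tsum_le_tsum (fun k => ?_)
        (hsum ((1 + η) * ε) (mul_pos (by linarith) hε)) (hsψ η hη ε hε)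
      refine Real.exp_le_exp.2 ?_
      have h3 : ε * ψ η k ≤ ε * ((1 + η) * φ k) := mul_le_mul_of_nonneg_left (hφψ η hη k).2 hε.le
      show -((1 + η) * ε) * φ k ≤ -ε * ψ η k
      linarith)
    (by
      have hpos : ∀ᶠ η in 𝓝[>] (0 : ℝ), 0 < η := self_mem_nhdsWithin
      filter_upwards [hGen, hpos] with η hη hη0
      refine hFAC ι κ w h hh (pz ζ s η) ⟨fun i => ?_, ?_⟩ hη C hC
      · simp only [pz, Sum.elim_inl]
        have := mul_pos hη0 (hζ i).1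
        linarith
      · simp only [pz, Sum.elim_inr]
        linarith)
  exact ⟨J, hJ1, hJ2⟩

end Pool.Agent.Mono.NP
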