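import Mathlib
import Pool.Agent.Work.Monodromy.Interface12K
import Pool.Agent.Work.Monodromy.Central1

/-!
# Phase 12, part K: assembly (helper4)
-/

set_option autoImplicit false

namespace Pool.Agent.Mono.NP

open MvPolynomial

namespace KASMAux

theorem cst_singleton {ι : Type} [Finite ι] (x : ι → ℂ) : Constructible ({x} : Set (ι → ℂ)) := by
  classical
  have := Fintype.ofFinite ι
  have h : Constructible (⋂ i ∈ (Finset.univ : Finset ι), {y : ι → ℂ | eval y (X i - C (x i)) = 0}) :=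
    cst_iInter _ _ fun i _ => Constructible.zero _
  convert h using 1
  ext y
  simp only [Set.mem_singleton_iff, Finset.mem_univ, Set.iInter_true, Set.mem_iInter,
    Set.mem_ofPred_eq, map_sub, eval_X, eval_C, sub_eq_zero]
  exact funext_iff

theorem val_singleton {R : Type} [CommRing R] (μ : MotivicMeasure R) {ι : Type} [Finite ι]
    (x : ι → ℂ) : μ.val ({x} : Set (ι → ℂ)) = 1 := by
  rw [← μ.point]
  refine (μ.map (Set.univ : Set (Empty → ℂ)) ({x} : Set (ι → ℂ)) (fun i => C (x i)) cst_univ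
    (cst_singleton x) ⟨?_, ?_, ?_⟩).symm
  · intro y _
    simp
  · intro y _ z _ _
    exact Subsingleton.elim _ _
  · intro y hy
    refine ⟨fun e => e.elim, trivial, ?_⟩
    rw [Set.mem_singleton_iff.1 hy]
    simp

theorem val_finite {R : Type} [CommRing R] (μ : MotivicMeasure R) {ι : Type} [Finite ι]
    (s : Set (ι → ℂ)) (hs : s.Finite) : Constructible s ∧ μ.val s = (s.ncard : R) := by
  induction s, hs using Set.Finite.induction_on with
  | empty =>
    have h0 : Constructible (∅ : Set (ι → ℂ)) := by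
      have := (cst_univ (ι := ι)).compl
      rwa [Set.compl_univ] at this
    exact ⟨h0, by rw [val_empty, Set.ncard_empty, Nat.cast_zero]⟩
  | @insert x s hx hs ih =>
    have e : insert x s = s ∪ {x} := by rw [Set.union_comm, Set.insert_eq]
    have hd : Disjoint s {x} := Set.disjoint_singleton_right.2 hx
    refine ⟨?_, ?_⟩
    · rw [e]
      have h := (ih.1.compl.inter (cst_singleton x).compl).compl
      rwa [Set.compl_inter, compl_compl, compl_compl] at h
    · rw [Set.ncard_insert_of_notMem hx hs, e, μ.union _ _ ih.1 (cst_singleton x) hd, ih.2,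
        val_singleton]
      push_cast; rfl

/-- the claim -/
theorem claim (hKCNT2 : Stmt_KCNT2) (hKSLC : Stmt_KSLC) (hKFUB : Stmt_KFUB) (hKCHG : Stmt_KCHG)
    (hKDIR : Stmt_KDIR) (hKMOR : Stmt_KMOR) (E : EulerMeasure) (κ : Type) [Fintype κ]
    [DecidableEq κ] (h : κ → ℝ) (hh : LinearIndependent ℚ h) (d : ℕ) :
    ∀ (w : κ → Fin (d + 1) → ℕ) (a : κ → ℂ), FullDim w → NdI w a → Nod w a →
      (((E.val (Hyp w a)).eval 1 : ℤ) : ℚ) = (-1) ^ d * (VolT w h - ((Nds w a).ncard : ℚ)) := by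
  induction d with
  | zero =>
    intro w a hF hN hO
    have hW : ∀ v, w v 0 ≤ ∑ v, w v 0 := fun v =>
      Finset.single_le_sum (f := fun v => w v 0) (fun _ _ => Nat.zero_le _) (Finset.mem_univ v)
    obtain ⟨P, hP, hP'⟩ := hKDIR κ 0 w _ hW
    obtain ⟨m, hm, hH2⟩ := hKMOR κ 0 w a _ hW hO P hP
    obtain ⟨c1, c2, c3, c4, c5, c6⟩ := hKCHG E κ 0 w a h m _ hW
    have hDr := hP' m hm
    rw [← c4, ← c5, ← c6]
    generalize chw m (∑ v, w v 0) w = w' at *
    obtain ⟨hf, hc⟩ := hKCNT2 κ 0 w' h a (c1 hF) (c2 hN) (c3 hO) hDr hH2 hh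
    have e : Hyp w' a = Cr w' a := by
      ext x
      exact ⟨fun hx => ⟨hx.1, hx.2, fun i => i.elim0⟩, fun hx => ⟨hx.1, hx.2.1⟩⟩
    rw [e, (val_finite E.toMotivicMeasure _ hf).2, ← hc]
    simp
  | succ d ih =>
    intro w a hF hN hO
    have hW : ∀ v, w v 0 ≤ ∑ v, w v 0 := fun v =>
      Finset.single_le_sum (f := fun v => w v 0) (fun _ _ => Nat.zero_le _) (Finset.mem_univ v)
    obtain ⟨P, hP, hP'⟩ := hKDIR κ (d + 1) w _ hW
    obtain ⟨m, hm, hH2⟩ := hKMOR κ (d + 1) w a _ hW hO P hP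
    obtain ⟨c1, c2, c3, c4, c5, c6⟩ := hKCHG E κ (d + 1) w a h m _ hW
    have hDr := hP' m hm
    rw [← c4, ← c5, ← c6]
    generalize chw m (∑ v, w v 0) w = w' at *
    obtain ⟨hf, hc⟩ := hKCNT2 κ (d + 1) w' h a (c1 hF) (c2 hN) (c3 hO) hDr hH2 hh
    rw [hKFUB E κ (d + 1) w' a (VolT (slw w') h) (by omega) hf, ← hc]
    · ring
    · intro c hc0
      obtain ⟨s1, s2, s3, s4, s5⟩ := hKSLC κ (d + 1) w' a c hc0 (c1 hF) (c2 hN) hDr hH2
      rw [← s4, ← s5, ih (slw w') (sla w' a c) s1 s2 s3, Nat.add_sub_cancel]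

end KASMAux

open KASMAux

/-- Block KASM. -/
theorem stmt_KASM (hKCNT2 : Stmt_KCNT2) (hKSLC : Stmt_KSLC) (hKFUB : Stmt_KFUB)
    (hKCHG : Stmt_KCHG) (hKDIR : Stmt_KDIR) (hKMOR : Stmt_KMOR) (hKNDG : Stmt_KNDG) :
    Stmt_K := by
  intro E κ _ _ d w a h hd hF ha hh
  obtain ⟨d, rfl⟩ : ∃ d', d = d' + 1 := ⟨d - 1, by omega⟩
  have hne : Nonempty κ := by
    by_contra hk
    rw [not_nonempty_iff] at hk
    have := hF 1 0 (fun v => (hk.false v).elim)
    exact one_ne_zero (congrFun this 0)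
  have hN : NdI w a := fun F hF0 _ _ x hx => hKNDG κ (d + 1) w a ha F hF0 x hx
  have hE : Nds w a = ∅ := by
    rw [Set.eq_empty_iff_forall_notMem]
    rintro x ⟨hx, h1, h2⟩
    exact hKNDG κ (d + 1) w a ha Finset.univ Finset.univ_nonempty x hx ⟨h1, h2⟩
  have hO : Nod w a := by
    intro x hx
    rw [hE] at hx
    exact absurd hx (Set.notMem_empty x)
  rw [claim hKCNT2 hKSLC hKFUB hKCHG hKDIR hKMOR E κ h hh d w a hF hN hO, hE, Set.ncard_empty,
    Nat.add_sub_cancel]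
  simp

end Pool.Agent.Mono.NP
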