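import Mathlib
import Pool.Agent.Work.Monodromy.Interface12K

/-!
# Phase 12, part K, block KAUT: automorphisms of the field of complex numbers (helper99)
-/

set_option autoImplicit false

namespace Pool.Agent.Mono.NP

namespace KAUTAux

open Cardinal

/-- a bijection of transcendence bases extends to a field automorphism of `ℂ` -/
theorem extend {B B' : Type} (v : B → ℂ) (w : B' → ℂ) (e : B ≃ B')
    (hv : IsTranscendenceBasis ℚ v) (hw : IsTranscendenceBasis ℚ w) :
    ∃ f : ℂ ≃+* ℂ, ∀ b, f (v b) = w (e b) := by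
  let := IsAlgClosed.isAlgClosure_of_transcendence_basis v hv
  let := IsAlgClosed.isAlgClosure_of_transcendence_basis w hw
  let e1 : Algebra.adjoin ℚ (Set.range v) ≃ₐ[ℚ] MvPolynomial B ℚ := hv.1.aevalEquiv.symm
  let e2 : MvPolynomial B ℚ ≃ₐ[ℚ] MvPolynomial B' ℚ := MvPolynomial.renameEquiv ℚ e
  let e3 : MvPolynomial B' ℚ ≃ₐ[ℚ] Algebra.adjoin ℚ (Set.range w) := hw.1.aevalEquiv
  let E : Algebra.adjoin ℚ (Set.range v) ≃+* Algebra.adjoin ℚ (Set.range w) :=
    ((e1.trans e2).trans e3).toRingEquiv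
  refine ⟨IsAlgClosure.equivOfEquiv ℂ ℂ E, ?_⟩
  intro b
  have hb : v b ∈ Algebra.adjoin ℚ (Set.range v) := Algebra.subset_adjoin ⟨b, rfl⟩
  have h1 := IsAlgClosure.equivOfEquiv_algebraMap ℂ ℂ E ⟨v b, hb⟩
  have h2 : (algebraMap (Algebra.adjoin ℚ (Set.range v)) ℂ) ⟨v b, hb⟩ = v b := rfl
  rw [h2] at h1
  rw [h1]
  have h3 : e1 ⟨v b, hb⟩ = MvPolynomial.X b := by
    rw [AlgEquiv.symm_apply_eq]
    apply Subtype.ext
    simp
  have h4 : E ⟨v b, hb⟩ = e3 (e2 (e1 ⟨v b, hb⟩)) := rfl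
  rw [h4, h3]
  have h5 : e2 (MvPolynomial.X b) = MvPolynomial.X (e b) := by
    simp [e2]
  rw [h5]
  show ((e3 (MvPolynomial.X (e b)) : Algebra.adjoin ℚ (Set.range w)) : ℂ) = w (e b)
  simp [e3]

/-- the complement of a finite subset in a transcendence basis of `ℂ` -/
theorem card_compl (B : Set ℂ) (hB : IsTranscendenceBasis ℚ ((↑) : B → ℂ)) (s : Set ℂ)
    (hs : s ⊆ B) (hf : s.Finite) : #(B \ s : Set ℂ) = 𝔠 := by
  have hcB : #B = 𝔠 := by
    have h1 := IsAlgClosed.cardinal_eq_cardinal_transcendence_basis_of_aleph0_lt' (R := ℚ)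
      (fun x : B => (x : ℂ)) hB mk_le_aleph0 (by rw [Cardinal.mk_complex]; exact aleph0_lt_continuum)
    rw [← h1, Cardinal.mk_complex]
  have h2 : #(B \ s : Set ℂ) + #s = #B := mk_sdiff_add_mk hs
  have h3 : #s < 𝔠 := by
    have : Finite s := hf
    exact (lt_aleph0_of_finite s).trans aleph0_lt_continuum
  refine le_antisymm ?_ ?_
  · rw [← hcB]
    exact mk_le_mk_of_subset Set.sdiff_subset
  · by_contra hlt
    push Not at hlt
    have h4 := add_lt_of_lt aleph0_le_continuum hlt h3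
    rw [h2, hcB] at h4
    exact lt_irrefl _ h4

end KAUTAux

open Cardinal in
/-- block KAUT -/
theorem stmt_KAUT : Stmt_KAUT := by
  classical
  intro κ _ a b ha hb
  have hainj : Function.Injective a := ha.injective
  have hbinj : Function.Injective b := hb.injective
  obtain ⟨B, hB1, hB2⟩ := exists_isTranscendenceBasis_superset (R := ℚ) (s := Set.range a)
    ha.coe_range
  obtain ⟨B', hB1', hB2'⟩ := exists_isTranscendenceBasis_superset (R := ℚ) (s := Set.range b)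
    hb.coe_range
  have h1 := KAUTAux.card_compl B hB2 _ hB1 (Set.finite_range a)
  have h2 := KAUTAux.card_compl B' hB2' _ hB1' (Set.finite_range b)
  obtain ⟨j⟩ : Nonempty ((B \ Set.range a : Set ℂ) ≃ (B' \ Set.range b : Set ℂ)) :=
    Cardinal.eq.1 (h1.trans h2.symm)
  -- the parametrised bases
  let e1 : κ ⊕ (B \ Set.range a : Set ℂ) ≃ B :=
    (Equiv.sumCongr (Equiv.ofInjective a hainj) (Equiv.refl _)).trans
      (Equiv.Set.sumDiffSubset hB1)
  let e2 : κ ⊕ (B' \ Set.range b : Set ℂ) ≃ B' :=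
    (Equiv.sumCongr (Equiv.ofInjective b hbinj) (Equiv.refl _)).trans
      (Equiv.Set.sumDiffSubset hB1')
  let e : B ≃ B' := e1.symm.trans ((Equiv.sumCongr (Equiv.refl κ) j).trans e2)
  obtain ⟨f, hf⟩ := KAUTAux.extend (fun x : B => (x : ℂ)) (fun x : B' => (x : ℂ)) e hB2 hB2'
  refine ⟨f, ?_⟩
  intro v
  have h3 := hf (e1 (Sum.inl v))
  have h4 : ((e1 (Sum.inl v) : B) : ℂ) = a v := by
    simp [e1, Equiv.Set.sumDiffSubset_apply_inl]
  have h5 : e (e1 (Sum.inl v)) = e2 (Sum.inl v) := by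
    simp [e]
  have h6 : ((e2 (Sum.inl v) : B') : ℂ) = b v := by
    simp [e2, Equiv.Set.sumDiffSubset_apply_inl]
  have h7 : f (a v) = ((e (e1 (Sum.inl v)) : B') : ℂ) := by
    rw [← h4]
    exact h3
  rw [h7, h5, h6]

end Pool.Agent.Mono.NP
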