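import Pool.Agent.Work.Monodromy.Interface12K

/-!
# KCHG: change of coordinates (helper27)
-/

set_option autoImplicit false

namespace Pool.Agent.Mono.NP

open Matrix MvPolynomial

namespace KCHGAux

variable {κ : Type} {d : ℕ}

/-- the matrix of the change of coordinates -/
def T (K : Type) [Ring K] (m : Fin d → ℕ) : Matrix (Fin (d + 1)) (Fin (d + 1)) K :=
  fun i l => Fin.cases (if l = 0 then 1 else 0)
    (fun i' => (if l = i'.succ then 1 else 0) - if l = 0 then (m i' : K) else 0) i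

/-- its translation part -/
def cc (K : Type) [Ring K] (m : Fin d → ℕ) (W : ℕ) : Fin (d + 1) → K :=
  fun i => Fin.cases 0 (fun i' => (m i' : K) * W) i

theorem chw_cast (K : Type) [CommRing K] (m : Fin d → ℕ) (W : ℕ) (w : κ → Fin (d + 1) → ℕ)
    (v : κ) (hW : w v 0 ≤ W) (i : Fin (d + 1)) :
    (chw m W w v i : K) = ∑ l, T K m i l * (w v l : K) + cc K m W i := by
  refine Fin.cases ?_ (fun i' => ?_) i
  · simp [T, cc, chw]
  · simp only [chw, Fin.cons_succ, T, cc, Fin.cases_succ, sub_mul, Finset.sum_sub_distrib,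
      ite_mul, one_mul, zero_mul, Finset.sum_ite_eq', Finset.mem_univ, if_true]
    push_cast [Nat.cast_sub hW]
    ring

theorem det_T (K : Type) [CommRing K] (m : Fin d → ℕ) : (T K m).det = 1 := by
  rw [Matrix.det_of_isLowerTriangular]
  · refine Finset.prod_eq_one fun i _ => ?_
    refine Fin.cases ?_ (fun i' => ?_) i
    · simp [T]
    · simp [T]
  · intro i j hij
    have hij' : i < j := hij
    refine Fin.cases (fun h => ?_) (fun i' h => ?_) i hij'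
    · have : j ≠ 0 := ne_of_gt h
      simp [T, this]
    · have h1 : j ≠ 0 := by
        intro h0; rw [h0] at h; exact absurd h (Fin.not_lt_zero _)
      have h2 : j ≠ i'.succ := ne_of_gt h
      simp [T, h1, h2]

theorem T_inj {K : Type} [Field K] (m : Fin d → ℕ) {y : Fin (d + 1) → K}
    (h : T K m *ᵥ y = 0) : y = 0 := by
  have h1 : IsUnit (T K m).det := by rw [det_T]; exact isUnit_one
  have h2 := congrArg (fun z => (T K m)⁻¹ *ᵥ z) h
  simpa [Matrix.mulVec_mulVec, Matrix.nonsing_inv_mul _ h1] using h2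

/-- pairing with a covector -/
theorem pair_chw (K : Type) [CommRing K] (m : Fin d → ℕ) (W : ℕ) (w : κ → Fin (d + 1) → ℕ)
    (v : κ) (hW : w v 0 ≤ W) (ρ : Fin (d + 1) → K) :
    ∑ i, ρ i * (chw m W w v i : K) =
      ∑ l, (ρ ᵥ* T K m) l * (w v l : K) + ∑ i, ρ i * cc K m W i := by
  simp only [chw_cast K m W w v hW, mul_add, Finset.sum_add_distrib, Matrix.vecMul, dotProduct,
    Finset.sum_mul, Finset.mul_sum, mul_assoc]
  rw [Finset.sum_comm]

theorem vecMul_inj {K : Type} [Field K] (m : Fin d → ℕ) {ρ : Fin (d + 1) → K}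
    (h : ρ ᵥ* T K m = 0) : ρ = 0 := by
  have h1 : IsUnit (T K m).det := by rw [det_T]; exact isUnit_one
  have h2 := congrArg (fun z => z ᵥ* (T K m)⁻¹) h
  simpa [Matrix.vecMul_vecMul, Matrix.mul_nonsing_inv _ h1] using h2

theorem fullDim {w : κ → Fin (d + 1) → ℕ} (m : Fin d → ℕ) {W : ℕ} (hW : ∀ v, w v 0 ≤ W)
    (h : FullDim w) : FullDim (chw m W w) := by
  intro ρ z hρ
  apply vecMul_inj m
  refine h _ (z - ∑ i, ρ i * cc ℚ m W i) fun v => ?_
  rw [← hρ v, pair_chw ℚ m W w v (hW v) ρ]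
  ring

/-- the change of coordinates of the torus -/
def ψ (m : Fin d → ℕ) (x : Fin (d + 1) → ℂ) : Fin (d + 1) → ℂ :=
  Fin.cons (x 0 * ∏ i, x i.succ ^ m i) fun i => x i.succ

/-- the factor -/
def KK (m : Fin d → ℕ) (W : ℕ) (x : Fin (d + 1) → ℂ) : ℂ := (∏ i, x i.succ ^ m i) ^ W

theorem KK_ne (m : Fin d → ℕ) (W : ℕ) {x : Fin (d + 1) → ℂ} (hx : x ∈ TT (d + 1)) :
    KK m W x ≠ 0 := pow_ne_zero _ (Finset.prod_ne_zero_iff.2 fun i _ => pow_ne_zero _ (hx _))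

theorem ψ_mem (m : Fin d → ℕ) {x : Fin (d + 1) → ℂ} (hx : x ∈ TT (d + 1)) :
    ψ m x ∈ TT (d + 1) := by
  intro i
  refine Fin.cases ?_ (fun i' => ?_) i
  · simp only [ψ, Fin.cons_zero]
    exact mul_ne_zero (hx 0) (Finset.prod_ne_zero_iff.2 fun i _ => pow_ne_zero _ (hx _))
  · simp only [ψ, Fin.cons_succ]; exact hx _

theorem ψ_surj (m : Fin d → ℕ) {y : Fin (d + 1) → ℂ} (hy : y ∈ TT (d + 1)) :
    ∃ x ∈ TT (d + 1), ψ m x = y := by
  have h1 : ∏ i, y i.succ ^ m i ≠ 0 :=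
    Finset.prod_ne_zero_iff.2 fun i _ => pow_ne_zero _ (hy _)
  refine ⟨Fin.cons (y 0 / ∏ i, y i.succ ^ m i) fun i => y i.succ, ?_, ?_⟩
  · intro i
    refine Fin.cases ?_ (fun i' => ?_) i
    · simp only [Fin.cons_zero]; exact div_ne_zero (hy 0) h1
    · simp only [Fin.cons_succ]; exact hy _
  · ext i
    refine Fin.cases ?_ (fun i' => ?_) i
    · simp only [ψ, Fin.cons_zero, Fin.cons_succ]; exact div_mul_cancel₀ _ h1
    · simp only [ψ, Fin.cons_succ]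

theorem ψ_inj (m : Fin d → ℕ) : Set.InjOn (ψ m) (TT (d + 1)) := by
  intro x hx y _ h
  have h1 : ∀ i : Fin d, x i.succ = y i.succ := fun i => by
    have := congrFun h i.succ
    simpa [ψ] using this
  have h0 := congrFun h 0
  simp only [ψ, Fin.cons_zero, ← h1] at h0
  have h2 := mul_right_cancel₀
    (Finset.prod_ne_zero_iff.2 fun i _ => pow_ne_zero (m i) (hx i.succ)) h0
  ext i
  refine Fin.cases h2 (fun i' => h1 i') i

theorem mn_ψ (m : Fin d → ℕ) (W : ℕ) (w : κ → Fin (d + 1) → ℕ) (v : κ) (hW : w v 0 ≤ W)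
    (x : Fin (d + 1) → ℂ) : mn (chw m W w) (ψ m x) v = KK m W x * mn w x v := by
  unfold mn KK
  rw [Fin.prod_univ_succ, Fin.prod_univ_succ]
  simp only [chw, ψ, Fin.cons_zero, Fin.cons_succ, pow_add, Finset.prod_mul_distrib]
  have h1 : ∏ i : Fin d, x i.succ ^ (m i * (W - w v 0)) =
      (∏ i, x i.succ ^ m i) ^ (W - w v 0) := by
    rw [← Finset.prod_pow]
    exact Finset.prod_congr rfl fun i _ => pow_mul _ _ _
  have h2 : (∏ i, x i.succ ^ m i) ^ W =
      (∏ i, x i.succ ^ m i) ^ (W - w v 0) * (∏ i, x i.succ ^ m i) ^ w v 0 := by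
    rw [← pow_add, Nat.sub_add_cancel hW]
  rw [h1, h2, mul_pow]
  ring

section
variable [Fintype κ] {w : κ → Fin (d + 1) → ℕ} {W : ℕ}

omit [Fintype κ] in
theorem sumF0 (m : Fin d → ℕ) (hW : ∀ v, w v 0 ≤ W) (a : κ → ℂ) (F : Finset κ)
    (x : Fin (d + 1) → ℂ) : ∑ v ∈ F, a v * mn (chw m W w) (ψ m x) v =
      KK m W x * ∑ v ∈ F, a v * mn w x v := by
  rw [Finset.mul_sum]
  refine Finset.sum_congr rfl fun v _ => ?_
  rw [mn_ψ m W w v (hW v)]; ring

omit [Fintype κ] in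
theorem sumF1 (m : Fin d → ℕ) (hW : ∀ v, w v 0 ≤ W) (a : κ → ℂ) (F : Finset κ)
    (x : Fin (d + 1) → ℂ) (i : Fin (d + 1)) :
    ∑ v ∈ F, a v * (chw m W w v i : ℂ) * mn (chw m W w) (ψ m x) v =
      KK m W x * ((T ℂ m *ᵥ fun l => ∑ v ∈ F, a v * (w v l : ℂ) * mn w x v) i +
        cc ℂ m W i * ∑ v ∈ F, a v * mn w x v) := by
  simp only [Matrix.mulVec, dotProduct, Finset.mul_sum]
  rw [Finset.sum_comm, ← Finset.sum_add_distrib, Finset.mul_sum]
  refine Finset.sum_congr rfl fun v _ => ?_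
  rw [mn_ψ m W w v (hW v), chw_cast ℂ m W w v (hW v) i]
  simp only [mul_add, add_mul, Finset.mul_sum, Finset.sum_mul]
  congr 1
  · refine Finset.sum_congr rfl fun l _ => by ring
  · ring

theorem fc_of (m : Fin d → ℕ) (hW : ∀ v, w v 0 ≤ W) {F : Finset κ} (h : Fc (chw m W w) F) :
    Fc w F := by
  intro q hq0 hq1 hq2
  refine h q hq0 (fun i => ?_) hq2
  simp only [chw_cast ℚ m W w _ (hW _) i, mul_add, Finset.sum_add_distrib, Finset.mul_sum]
  rw [Finset.sum_comm, ← Finset.sum_mul, hq0, zero_mul, add_zero]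
  refine Finset.sum_eq_zero fun l _ => ?_
  have h1 : ∀ v, q v * (T ℚ m i l * (w v l : ℚ)) = T ℚ m i l * (q v * (w v l : ℚ)) :=
    fun v => by ring
  simp only [h1]
  rw [← Finset.mul_sum, hq1, mul_zero]

theorem ndI (m : Fin d → ℕ) (hW : ∀ v, w v 0 ≤ W) {a : κ → ℂ} (h : NdI w a) :
    NdI (chw m W w) a := by
  rintro F hF hF' hFc y hy ⟨h1, h2⟩
  obtain ⟨x, hx, rfl⟩ := ψ_surj m hy
  have hK := KK_ne m W hx
  rw [sumF0 m hW] at h1
  have h1' := (mul_eq_zero.1 h1).resolve_left hK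
  refine h F hF hF' (fc_of m hW hFc) x hx ⟨h1', fun l => ?_⟩
  have h3 : (T ℂ m *ᵥ fun l => ∑ v ∈ F, a v * (w v l : ℂ) * mn w x v) = 0 := by
    ext i
    have h4 := h2 i
    rw [sumF1 m hW, h1', mul_zero, add_zero] at h4
    exact (mul_eq_zero.1 h4).resolve_left hK
  exact congrFun (T_inj m h3) l

theorem sm_ψ (m : Fin d → ℕ) (hW : ∀ v, w v 0 ≤ W) (a : κ → ℂ) (x : Fin (d + 1) → ℂ) :
    sm (chw m W w) a (ψ m x) = KK m W x * sm w a x := sumF0 m hW a Finset.univ x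

theorem sth_ψ (m : Fin d → ℕ) (hW : ∀ v, w v 0 ≤ W) (a : κ → ℂ) (x : Fin (d + 1) → ℂ)
    (i : Fin (d + 1)) : sth (chw m W w) a (ψ m x) i =
      KK m W x * ((T ℂ m *ᵥ sth w a x) i + cc ℂ m W i * sm w a x) :=
  sumF1 m hW a Finset.univ x i

theorem hyp_iff (m : Fin d → ℕ) (hW : ∀ v, w v 0 ≤ W) (a : κ → ℂ) {x : Fin (d + 1) → ℂ}
    (hx : x ∈ TT (d + 1)) : ψ m x ∈ Hyp (chw m W w) a ↔ x ∈ Hyp w a := by
  change (ψ m x ∈ TT (d + 1) ∧ sm (chw m W w) a (ψ m x) = 0) ↔ (x ∈ TT (d + 1) ∧ sm w a x = 0)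
  rw [sm_ψ m hW, mul_eq_zero, or_iff_right (KK_ne m W hx)]
  simp [hx, ψ_mem m hx]

theorem nds_iff (m : Fin d → ℕ) (hW : ∀ v, w v 0 ≤ W) (a : κ → ℂ) {x : Fin (d + 1) → ℂ}
    (hx : x ∈ TT (d + 1)) : ψ m x ∈ Nds (chw m W w) a ↔ x ∈ Nds w a := by
  have hK := KK_ne m W hx
  constructor
  · rintro ⟨_, h1, h2⟩
    rw [sm_ψ m hW] at h1
    have h1' := (mul_eq_zero.1 h1).resolve_left hK
    refine ⟨hx, h1', fun l => ?_⟩
    have h3 : (T ℂ m *ᵥ sth w a x) = 0 := by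
      ext i
      have h4 := h2 i
      rw [sth_ψ m hW, h1', mul_zero, add_zero] at h4
      exact (mul_eq_zero.1 h4).resolve_left hK
    exact congrFun (T_inj m h3) l
  · rintro ⟨_, h1, h2⟩
    refine ⟨ψ_mem m hx, by rw [sm_ψ m hW, h1, mul_zero], fun i => ?_⟩
    have h3 : sth w a x = 0 := funext h2
    rw [sth_ψ m hW, h1, h3, Matrix.mulVec_zero]
    simp

theorem hyp_image (m : Fin d → ℕ) (hW : ∀ v, w v 0 ≤ W) (a : κ → ℂ) :
    Hyp (chw m W w) a = ψ m '' Hyp w a := by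
  ext y
  constructor
  · intro hy
    obtain ⟨x, hx, rfl⟩ := ψ_surj m hy.1
    exact ⟨x, (hyp_iff m hW a hx).1 hy, rfl⟩
  · rintro ⟨x, hx, rfl⟩
    exact (hyp_iff m hW a hx.1).2 hx

theorem nds_image (m : Fin d → ℕ) (hW : ∀ v, w v 0 ≤ W) (a : κ → ℂ) :
    Nds (chw m W w) a = ψ m '' Nds w a := by
  ext y
  constructor
  · intro hy
    obtain ⟨x, hx, rfl⟩ := ψ_surj m hy.1
    exact ⟨x, (nds_iff m hW a hx).1 hy, rfl⟩
  · rintro ⟨x, hx, rfl⟩
    exact (nds_iff m hW a hx.1).2 hx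

/-- the second derivatives at a singular point -/
theorem shs_ψ (m : Fin d → ℕ) (hW : ∀ v, w v 0 ≤ W) (a : κ → ℂ) {x : Fin (d + 1) → ℂ}
    (hx : x ∈ Nds w a) : Matrix.of (shs (chw m W w) a (ψ m x)) =
      KK m W x • (T ℂ m * Matrix.of (shs w a x) * (T ℂ m)ᵀ) := by
  obtain ⟨_, h1, h2⟩ := hx
  ext i j
  -- the sums of products
  have e1 : ∑ v, a v * (∑ l, T ℂ m i l * (w v l : ℂ)) * (∑ l, T ℂ m j l * (w v l : ℂ)) *
      mn w x v = (T ℂ m * Matrix.of (shs w a x) * (T ℂ m)ᵀ) i j := by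
    simp only [Matrix.mul_apply, Matrix.of_apply, Matrix.transpose_apply, shs, Finset.mul_sum,
      Finset.sum_mul]
    rw [Finset.sum_comm]
    refine Finset.sum_congr rfl fun l' _ => ?_
    rw [Finset.sum_comm]
    refine Finset.sum_congr rfl fun l _ => ?_
    refine Finset.sum_congr rfl fun v _ => by ring
  have e2 : ∀ i', ∑ v, a v * (∑ l, T ℂ m i' l * (w v l : ℂ)) * mn w x v = 0 := by
    intro i'
    have : ∑ v, a v * (∑ l, T ℂ m i' l * (w v l : ℂ)) * mn w x v =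
        ∑ l, T ℂ m i' l * sth w a x l := by
      simp only [sth, Finset.mul_sum, Finset.sum_mul]
      rw [Finset.sum_comm]
      refine Finset.sum_congr rfl fun l _ => Finset.sum_congr rfl fun v _ => by ring
    rw [this]
    simp [h2]
  have e3 : ∑ v, a v * mn w x v = 0 := h1
  rw [Matrix.of_apply, Matrix.smul_apply, smul_eq_mul, ← e1]
  have e4 : shs (chw m W w) a (ψ m x) i j = KK m W x *
      (∑ v, a v * (∑ l, T ℂ m i l * (w v l : ℂ)) * (∑ l, T ℂ m j l * (w v l : ℂ)) * mn w x v +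
        cc ℂ m W j * ∑ v, a v * (∑ l, T ℂ m i l * (w v l : ℂ)) * mn w x v +
        cc ℂ m W i * ∑ v, a v * (∑ l, T ℂ m j l * (w v l : ℂ)) * mn w x v +
        cc ℂ m W i * cc ℂ m W j * ∑ v, a v * mn w x v) := by
    rw [shs, Finset.mul_sum, Finset.mul_sum, Finset.mul_sum, ← Finset.sum_add_distrib,
      ← Finset.sum_add_distrib, ← Finset.sum_add_distrib, Finset.mul_sum]
    refine Finset.sum_congr rfl fun v _ => ?_
    rw [mn_ψ m W w v (hW v), chw_cast ℂ m W w v (hW v) i, chw_cast ℂ m W w v (hW v) j]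
    ring
  rw [e4, e2, e2, e3]
  ring

theorem nod (m : Fin d → ℕ) (hW : ∀ v, w v 0 ≤ W) {a : κ → ℂ} (h : Nod w a) :
    Nod (chw m W w) a := by
  intro y hy
  obtain ⟨x, hx, rfl⟩ := ψ_surj m hy.1
  have hx' := (nds_iff m hW a hx).1 hy
  rw [shs_ψ m hW a hx', Matrix.det_smul, Matrix.det_mul, Matrix.det_mul, Matrix.det_transpose,
    det_T, one_mul, mul_one]
  exact mul_ne_zero (pow_ne_zero _ (KK_ne m W hx)) (h x hx')

end

/-! ### constructibility and the value of the measure -/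

theorem cst_univ' {ι : Type} : Constructible (Set.univ : Set (ι → ℂ)) := by
  have := Constructible.zero (ι := ι) (0 : MvPolynomial ι ℂ)
  simpa using this

theorem cst_TT {ι : Type} (t : Finset ι) : Constructible {x : ι → ℂ | ∀ i ∈ t, x i ≠ 0} := by
  classical
  induction t using Finset.induction_on with
  | empty => simpa using cst_univ'
  | insert j t hj ih =>
    have h1 : {x : ι → ℂ | ∀ i ∈ insert j t, x i ≠ 0} =
        {x : ι → ℂ | eval x (X j) = 0}ᶜ ∩ {x : ι → ℂ | ∀ i ∈ t, x i ≠ 0} := by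
      ext x
      simp
    rw [h1]
    exact (Constructible.zero _).compl.inter ih

theorem cst_hyp [Fintype κ] {n : ℕ} (w : κ → Fin n → ℕ) (a : κ → ℂ) :
    Constructible (Hyp w a) := by
  have h1 : Hyp w a = {x : Fin n → ℂ | ∀ i ∈ (Finset.univ : Finset (Fin n)), x i ≠ 0} ∩
      {x | eval x (∑ v, C (a v) * ∏ i, X i ^ w v i) = 0} := by
    ext x
    simp [Hyp, TT, sm, mn]
  rw [h1]
  exact (cst_TT _).inter (Constructible.zero _)

theorem val_hyp (E : EulerMeasure) [Fintype κ] {w : κ → Fin (d + 1) → ℕ} {W : ℕ} (m : Fin d → ℕ)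
    (hW : ∀ v, w v 0 ≤ W) (a : κ → ℂ) : E.val (Hyp (chw m W w) a) = E.val (Hyp w a) := by
  have h1 : ∀ (x : Fin (d + 1) → ℂ) (j : Fin (d + 1)),
      eval x ((Fin.cons (X 0 * ∏ i, X i.succ ^ m i) fun i => X i.succ :
        Fin (d + 1) → MvPolynomial (Fin (d + 1)) ℂ) j) = ψ m x j := by
    intro x j
    refine Fin.cases ?_ (fun j' => ?_) j <;> simp [ψ]
  refine (E.map (Hyp w a) (Hyp (chw m W w) a) (Fin.cons (X 0 * ∏ i, X i.succ ^ m i)
    fun i => X i.succ) (cst_hyp w a) (cst_hyp _ a) ?_).symm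
  simp only [h1]
  rw [hyp_image m hW]
  exact Set.InjOn.bijOn_image ((ψ_inj m).mono fun x hx => hx.1)

/-! ### the volume -/

theorem hval_chw {w : κ → Fin (d + 1) → ℕ} {W : ℕ} (m : Fin d → ℕ) (hW : ∀ v, w v 0 ≤ W)
    (h : κ → ℝ) (k : Fin (d + 1) → ℝ) (v : κ) :
    hval (chw m W w) h k v = hval w h (k ᵥ* T ℝ m) v + ∑ i, k i * cc ℝ m W i := by
  unfold hval
  rw [pair_chw ℝ m W w v (hW v) k]
  ring

theorem argM_chw [Fintype κ] {w : κ → Fin (d + 1) → ℕ} {W : ℕ} (m : Fin d → ℕ)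
    (hW : ∀ v, w v 0 ≤ W) (h : κ → ℝ) (C : Finset κ) (k : Fin (d + 1) → ℝ) :
    ArgM (chw m W w) h C k ↔ ArgM w h C (k ᵥ* T ℝ m) := by
  unfold ArgM
  simp only [hval_chw m hW, add_le_add_iff_right]

theorem exists_argM [Fintype κ] {w : κ → Fin (d + 1) → ℕ} {W : ℕ} (m : Fin d → ℕ)
    (hW : ∀ v, w v 0 ≤ W) (h : κ → ℝ) (C : Finset κ) :
    (∃ k, ArgM (chw m W w) h C k) ↔ ∃ k, ArgM w h C k := by
  constructor
  · rintro ⟨k, hk⟩
    exact ⟨_, (argM_chw m hW h C k).1 hk⟩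
  · rintro ⟨k, hk⟩
    have h1 : IsUnit (T ℝ m).det := by rw [det_T]; exact isUnit_one
    refine ⟨k ᵥ* (T ℝ m)⁻¹, (argM_chw m hW h C _).2 ?_⟩
    rwa [Matrix.vecMul_vecMul, Matrix.nonsing_inv_mul _ h1, Matrix.vecMul_one]

/-- the change of basis -/
def QQ (m : Fin d → ℕ) (W : ℕ) : Matrix (Fin (d + 1) ⊕ Unit) (Fin (d + 1) ⊕ Unit) ℚ :=
  Matrix.fromBlocks (T ℚ m)ᵀ 0 (Matrix.of fun _ i => cc ℚ m W i) 1

theorem det_QQ (m : Fin d → ℕ) (W : ℕ) : (QQ m W).det = 1 := by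
  rw [QQ, Matrix.det_fromBlocks_zero₁₂, Matrix.det_transpose, det_T, Matrix.det_one, one_mul]

theorem adet_chw [Fintype κ] [DecidableEq κ] {w : κ → Fin (d + 1) → ℕ} {W : ℕ} (m : Fin d → ℕ)
    (hW : ∀ v, w v 0 ≤ W) (C : Finset κ) : adet (chw m W w) (inl C) = adet w (inl C) := by
  unfold adet
  split_ifs with h
  · have h1 : (Matrix.of fun a b => hat (chw m W w) ((Fintype.equivOfCardEq h).symm a).1 b) =
        (Matrix.of fun a b => hat w ((Fintype.equivOfCardEq h).symm a).1 b) * QQ m W := by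
      ext a b
      obtain ⟨v, _, hv⟩ := Finset.mem_map.1 ((Fintype.equivOfCardEq h).symm a).2
      have hv' : (((Fintype.equivOfCardEq h).symm a).1 : κ ⊕ Fin (d + 1)) = Sum.inl v := hv.symm
      rw [Matrix.mul_apply, Fintype.sum_sum_type]
      simp only [Matrix.of_apply, hv']
      rcases b with i | b
      · simp only [hat, Sum.elim_inl, Sum.elim_inr, QQ, Matrix.fromBlocks_apply₁₁,
          Matrix.fromBlocks_apply₂₁, Matrix.transpose_apply, Matrix.of_apply]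
        rw [chw_cast ℚ m W w v (hW v) i]
        simp [mul_comm]
      · simp [hat, QQ]
    rw [h1, Matrix.det_mul, det_QQ, mul_one]
  · rfl

theorem volT_chw [Fintype κ] [DecidableEq κ] {w : κ → Fin (d + 1) → ℕ} {W : ℕ} (m : Fin d → ℕ)
    (hW : ∀ v, w v 0 ≤ W) (h : κ → ℝ) : VolT (chw m W w) h = VolT w h := by
  classical
  unfold VolT
  have h1 : ∀ C : Finset κ, (C.card = d + 1 + 1 ∧ ∃ k, ArgM (chw m W w) h C k) ↔
      (C.card = d + 1 + 1 ∧ ∃ k, ArgM w h C k) := fun C => by rw [exists_argM m hW h C]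
  refine Finset.sum_congr ?_ fun C _ => adet_chw m hW C
  ext C
  simp only [Finset.mem_filter, h1]

end KCHGAux

open KCHGAux in
theorem stmt_KCHG : Stmt_KCHG := by
  intro E κ _ _ d w a h m W hW
  refine ⟨fullDim m hW, ndI m hW, nod m hW, val_hyp E m hW a, ?_, volT_chw m hW h⟩
  rw [nds_image m hW]
  exact ((ψ_inj m).mono fun x hx => hx.1).ncard_image

end Pool.Agent.Mono.NP
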