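import Pool.Agent.Work.Monodromy.Interface12K

/-!
# Phase 12, part K, block KCMP: counting by limits (helper96)
-/

set_option autoImplicit false

namespace Pool.Agent.Mono.NP

open Filter Topology

theorem stmt_KCMP : Stmt_KCMP := by
  classical
  intro X P _ Sol B m h1 h2 h3
  have hcov : ∀ᶠ n in atTop, Sol n ⊆ ⋃ p, B p n := by
    by_contra hc
    have hfr : ∃ᶠ n in atTop, ∃ x, x ∈ Sol n ∧ x ∉ ⋃ p, B p n := by
      intro hn
      apply hc
      filter_upwards [hn] with n hn x hx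
      by_contra hx'
      exact hn ⟨x, hx, hx'⟩
    obtain ⟨n₀, x₀, -⟩ := hfr.exists
    let S : Set ℕ := {n | ∃ x, x ∈ Sol n ∧ x ∉ ⋃ p, B p n}
    have hne : (atTop ⊓ 𝓟 S : Filter ℕ).NeBot := frequently_mem_iff_neBot.1 hfr
    obtain ⟨U, hU⟩ := Ultrafilter.exists_le (atTop ⊓ 𝓟 S : Filter ℕ)
    have hUS : ∀ᶠ n in (U : Filter ℕ), n ∈ S := le_principal_iff.1 (hU.trans inf_le_right)
    let x : ℕ → X := fun n => if h : ∃ x, x ∈ Sol n ∧ x ∉ ⋃ p, B p n then h.choose else x₀
    have hx : ∀ n ∈ S, x n ∈ Sol n ∧ x n ∉ ⋃ p, B p n := by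
      intro n hn
      have h : ∃ x, x ∈ Sol n ∧ x ∉ ⋃ p, B p n := hn
      simp only [x, dif_pos h]
      exact h.choose_spec
    obtain ⟨p, hp⟩ := h3 U (hU.trans inf_le_left) x (hUS.mono fun n hn => (hx n hn).1)
    obtain ⟨n, hn, hn'⟩ := (hUS.and hp).exists
    exact (hx n hn).2 (Set.mem_iUnion.2 ⟨p, hn'⟩)
  have hfin : ∀ᶠ n in atTop, ∀ p, (Sol n ∩ B p n).Finite ∧ (Sol n ∩ B p n).ncard = m p :=
    eventually_all.2 h1
  have hdis : ∀ᶠ n in atTop, ∀ p q, p ≠ q → Disjoint (B p n) (B q n) := by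
    refine eventually_all.2 fun p => eventually_all.2 fun q => ?_
    by_cases hpq : p = q
    · exact Eventually.of_forall fun n h => absurd hpq h
    · exact (h2 p q hpq).mono fun n hn _ => hn
  filter_upwards [hcov, hfin, hdis] with n hc hf hd
  have hS : Sol n = ⋃ p ∈ (Set.univ : Set P), (Sol n ∩ B p n) := by
    ext y
    simp only [Set.mem_iUnion, Set.mem_inter_iff, Set.mem_univ, exists_prop, true_and]
    constructor
    · intro hy
      obtain ⟨p, hp⟩ := Set.mem_iUnion.1 (hc hy)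
      exact ⟨p, hy, hp⟩
    · rintro ⟨p, hy, -⟩
      exact hy
  have hcard := Set.Finite.ncard_biUnion (Set.finite_univ (α := P))
    (s := fun p => Sol n ∩ B p n) (fun p _ => (hf p).1)
    (fun p _ q _ hpq => (hd p q hpq).mono Set.inter_subset_right Set.inter_subset_right)
  rw [← hS, finsum_mem_univ, finsum_eq_sum_of_fintype] at hcard
  refine ⟨?_, ?_⟩
  · rw [hS]
    exact Set.Finite.biUnion Set.finite_univ fun p _ => (hf p).1
  · rw [hcard]
    exact Finset.sum_congr rfl fun p _ => (hf p).2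

end Pool.Agent.Mono.NP
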