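import Mathlib
import Pool.Agent.Work.Monodromy.Interface12K

/-!
# Phase 12, part K, block KCNT1: the number of critical points for generic coefficients (helper99)
-/

set_option autoImplicit false

namespace Pool.Agent.Mono.NP

open Filter Topology

namespace KCNT1Aux

section

variable {κ : Type} {d : ℕ}

set_option linter.unusedSectionVars false

/-- coordinatewise multiplication -/
def scl (t x : Fin d → ℂ) : Fin d → ℂ := fun i => t i * x i

theorem mn_scl (w : κ → Fin d → ℕ) (t x : Fin d → ℂ) (v : κ) :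
    mn w (scl t x) v = mn w t v * mn w x v := by
  simp only [mn, scl, mul_pow, Finset.prod_mul_distrib]

variable [Fintype κ]

theorem Cr_scl (w : κ → Fin (d + 1) → ℕ) (A c : κ → ℂ) (t : Fin (d + 1) → ℂ) (l : ℂ)
    (ht : ∀ i, t i ≠ 0) (hl : l ≠ 0) (hc : ∀ v, c v * mn w t v = l * A v)
    (x : Fin (d + 1) → ℂ) : scl t x ∈ Cr w c ↔ x ∈ Cr w A := by
  have h1 : sm w c (scl t x) = l * sm w A x := by
    simp only [sm, Finset.mul_sum]
    apply Finset.sum_congr rfl
    intro v _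
    rw [mn_scl]
    linear_combination mn w x v * hc v
  have h2 : ∀ i, sth w c (scl t x) i = l * sth w A x i := by
    intro i
    simp only [sth, Finset.mul_sum]
    apply Finset.sum_congr rfl
    intro v _
    rw [mn_scl]
    linear_combination (w v i : ℂ) * mn w x v * hc v
  have h3 : scl t x ∈ TT (d + 1) ↔ x ∈ TT (d + 1) := by
    simp only [TT, Set.mem_ofPred_eq, scl]
    exact ⟨fun h i => (mul_ne_zero_iff.1 (h i)).2, fun h i => mul_ne_zero (ht i) (h i)⟩
  simp only [Cr, Set.mem_ofPred_eq]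
  rw [h3, h1]
  simp only [h2, mul_eq_zero, hl, false_or]

/-- `(e^{n k_i})_i` -/
noncomputable def ek (k : Fin d → ℝ) (n : ℕ) : Fin d → ℂ :=
  fun i => (Real.exp ((n : ℝ) * k i) : ℂ)

theorem ek_ne (k : Fin d → ℝ) (n : ℕ) (i : Fin d) : ek k n i ≠ 0 := by
  simp only [ek]
  exact_mod_cast (Real.exp_pos _).ne'

theorem mn_ek (w : κ → Fin d → ℕ) (k : Fin d → ℝ) (n : ℕ) (v : κ) :
    mn w (ek k n) v = (Real.exp ((n : ℝ) * ∑ i, k i * w v i) : ℂ) := by
  simp only [mn, ek]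
  rw [Finset.mul_sum, Real.exp_sum, Complex.ofReal_prod]
  apply Finset.prod_congr rfl
  intro i _
  rw [← Complex.ofReal_pow, ← Real.exp_nat_mul]
  congr 2
  ring

/-- the coefficients of the system `n` -/
noncomputable def An (h : κ → ℝ) (b : κ → ℂ) (n : ℕ) : κ → ℂ :=
  fun v => b v * (Real.exp (-((n : ℝ) * h v)) : ℂ)

/-- the coefficients of the rescaled system -/
noncomputable def cn (w : κ → Fin d → ℕ) (h : κ → ℝ) (b : κ → ℂ) (k : Fin d → ℝ) (μ : ℝ)
    (n : ℕ) : κ → ℂ :=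
  fun v => b v * (Real.exp (-((n : ℝ) * (hval w h k v - μ))) : ℂ)

theorem Cr_ek (w : κ → Fin (d + 1) → ℕ) (h : κ → ℝ) (b : κ → ℂ) (k : Fin (d + 1) → ℝ) (μ : ℝ)
    (n : ℕ) (x : Fin (d + 1) → ℂ) :
    scl (ek k n) x ∈ Cr w (cn w h b k μ n) ↔ x ∈ Cr w (An h b n) := by
  refine Cr_scl w _ _ _ ((Real.exp ((n : ℝ) * μ) : ℝ) : ℂ) (ek_ne k n) ?_ ?_ x
  · exact_mod_cast (Real.exp_pos _).ne'
  · intro v
    rw [mn_ek]
    simp only [cn, An]
    have h1 : Real.exp (-((n : ℝ) * (hval w h k v - μ))) * Real.exp ((n : ℝ) * ∑ i, k i * w v i)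
        = Real.exp ((n : ℝ) * μ) * Real.exp (-((n : ℝ) * h v)) := by
      rw [← Real.exp_add, ← Real.exp_add]
      congr 1
      simp only [hval]
      ring
    have h2 : ((Real.exp (-((n : ℝ) * (hval w h k v - μ))) : ℝ) : ℂ) *
        ((Real.exp ((n : ℝ) * ∑ i, k i * w v i) : ℝ) : ℂ)
        = ((Real.exp ((n : ℝ) * μ) : ℝ) : ℂ) * ((Real.exp (-((n : ℝ) * h v)) : ℝ) : ℂ) := by
      exact_mod_cast h1
    linear_combination b v * h2

theorem argM_eq {w : κ → Fin d → ℕ} {h : κ → ℝ} {C : Finset κ} {k : Fin d → ℝ}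
    (hA : ArgM w h C k) {v u : κ} (hv : v ∈ C) (hu : u ∈ C) :
    hval w h k v = hval w h k u :=
  le_antisymm ((hA v).1 hv u) ((hA u).1 hu v)

theorem argM_lt {w : κ → Fin d → ℕ} {h : κ → ℝ} {C : Finset κ} {k : Fin d → ℝ}
    (hA : ArgM w h C k) {v u : κ} (hv : v ∈ C) (hu : u ∉ C) :
    hval w h k v < hval w h k u := by
  have h1 : ¬ ∀ u', hval w h k u ≤ hval w h k u' := fun hc => hu ((hA u).2 hc)
  push Not at h1
  obtain ⟨u', h2⟩ := h1
  exact lt_of_le_of_lt ((hA v).1 hv u') h2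

theorem tendsto_cn (w : κ → Fin d → ℕ) (h : κ → ℝ) (b : κ → ℂ) {C : Finset κ} {k : Fin d → ℝ}
    (hA : ArgM w h C k) {v₀ : κ} (hv₀ : v₀ ∈ C) :
    Tendsto (cn w h b k (hval w h k v₀)) atTop (𝓝 (rc b C)) := by
  rw [tendsto_pi_nhds]
  intro v
  by_cases hv : v ∈ C
  · have h1 : (fun n => cn w h b k (hval w h k v₀) n v) = fun _ => rc b C v := by
      funext n
      simp only [cn, rc]
      rw [argM_eq hA hv hv₀, sub_self, mul_zero, neg_zero, Real.exp_zero, if_pos hv]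
      simp
    rw [h1]
    exact tendsto_const_nhds
  · have h1 : rc b C v = b v * ((0 : ℝ) : ℂ) := by
      simp only [rc]
      rw [if_neg hv]
      simp
    rw [h1]
    simp only [cn]
    refine Tendsto.const_mul _ ?_
    refine (Complex.continuous_ofReal.tendsto 0).comp ?_
    refine Real.tendsto_exp_neg_atTop_nhds_zero.comp ?_
    refine Tendsto.atTop_mul_const ?_ tendsto_natCast_atTop_atTop
    have := argM_lt hA hv₀ hv
    linarith

/-- the vectors of a cell are independent -/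
theorem indep {w : κ → Fin d → ℕ} {h : κ → ℝ} (hh : LinearIndependent ℚ h) {C : Finset κ}
    {k : Fin d → ℝ} (hA : ArgM w h C k) (m : κ → ℚ) (hm : ∀ v, v ∉ C → m v = 0)
    (hm0 : ∑ v, m v = 0) (hmw : ∀ i, ∑ v, m v * w v i = 0) : m = 0 := by
  by_cases hC : C.Nonempty
  · obtain ⟨v₀, hv₀⟩ := hC
    rw [Fintype.linearIndependent_iff] at hh
    have h1 : ∑ v, m v • h v = 0 := by
      have h2 : ∀ v, m v • h v = (m v : ℝ) * hval w h k v₀ -
          ∑ i, k i * ((m v : ℝ) * (w v i : ℝ)) := by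
        intro v
        rw [Rat.smul_def]
        by_cases hv : v ∈ C
        · rw [← argM_eq hA hv hv₀]
          simp only [hval]
          rw [mul_add, Finset.mul_sum]
          have h3 : ∑ i, (m v : ℝ) * (k i * (w v i : ℝ)) = ∑ i, k i * ((m v : ℝ) * (w v i : ℝ)) := by
            apply Finset.sum_congr rfl
            intro i _
            ring
          rw [h3]
          ring
        · rw [hm v hv]
          simp
      rw [Finset.sum_congr rfl (fun v _ => h2 v), Finset.sum_sub_distrib, ← Finset.sum_mul,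
        Finset.sum_comm]
      have h4 : ∑ v, (m v : ℝ) = 0 := by exact_mod_cast hm0
      have h5 : ∀ i, ∑ v, k i * ((m v : ℝ) * (w v i : ℝ)) = 0 := by
        intro i
        rw [← Finset.mul_sum]
        have h6 : ∑ v, (m v : ℝ) * (w v i : ℝ) = 0 := by exact_mod_cast hmw i
        rw [h6, mul_zero]
      rw [h4, Finset.sum_eq_zero (fun i _ => h5 i)]
      ring
    funext v
    exact hh m h1 v
  · funext v
    exact hm v (fun hv => hC ⟨v, hv⟩)

/-- the vectors of a full-dimensional cell span the space -/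
theorem spans {w : κ → Fin (d + 1) → ℕ} {C : Finset κ} (hcard : C.card = d + 2)
    (hind : ∀ m : κ → ℚ, (∀ v, v ∉ C → m v = 0) → ∑ v, m v = 0 →
      (∀ i, ∑ v, m v * w v i = 0) → m = 0) (i : Fin (d + 1)) :
    ∃ q : κ → ℚ, (∀ v, v ∉ C → q v = 0) ∧ ∑ v, q v = 0 ∧
      ∀ j, ∑ v, q v * w v j = if j = i then 1 else 0 := by
  classical
  let ext : (C → ℚ) → κ → ℚ := fun q v => if hv : v ∈ C then q ⟨v, hv⟩ else 0
  have hext0 : ∀ q v, v ∉ C → ext q v = 0 := by
    intro q v hv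
    simp only [ext, dif_neg hv]
  have hext1 : ∀ q (v : C), ext q v.1 = q v := by
    intro q v
    simp only [ext, dif_pos v.2]
  let Φ : (C → ℚ) →ₗ[ℚ] (Fin (d + 1) → ℚ) × ℚ :=
    { toFun := fun q => (fun i => ∑ v, ext q v * w v i, ∑ v, ext q v)
      map_add' := by
        intro q q'
        have h1 : ∀ v, ext (q + q') v = ext q v + ext q' v := by
          intro v
          by_cases hv : v ∈ C
          · simp only [ext, dif_pos hv, Pi.add_apply]
          · simp only [ext, dif_neg hv, add_zero]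
        refine Prod.ext ?_ ?_
        · funext i
          simp only [h1, add_mul, Finset.sum_add_distrib, Prod.fst_add, Pi.add_apply]
        · simp only [h1, Finset.sum_add_distrib, Prod.snd_add]
      map_smul' := by
        intro r q
        have h1 : ∀ v, ext (r • q) v = r * ext q v := by
          intro v
          by_cases hv : v ∈ C
          · simp only [ext, dif_pos hv, Pi.smul_apply, smul_eq_mul]
          · simp only [ext, dif_neg hv, mul_zero]
        refine Prod.ext ?_ ?_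
        · funext i
          simp only [h1, Prod.smul_fst, Pi.smul_apply, smul_eq_mul, Finset.mul_sum, mul_assoc,
            RingHom.id_apply]
        · simp only [h1, Prod.smul_snd, smul_eq_mul, Finset.mul_sum, RingHom.id_apply] }
  have hinj : Function.Injective Φ := by
    rw [← LinearMap.ker_eq_bot, LinearMap.ker_eq_bot']
    intro q hq
    have h1 : (fun i => ∑ v, ext q v * w v i) = 0 := congrArg Prod.fst hq
    have h2 : ∑ v, ext q v = 0 := congrArg Prod.snd hq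
    have h3 := hind (ext q) (hext0 q) h2 (fun i => congrFun h1 i)
    funext v
    rw [← hext1 q v, h3]
    rfl
  have hfin : Module.finrank ℚ (C → ℚ) = Module.finrank ℚ ((Fin (d + 1) → ℚ) × ℚ) := by
    rw [Module.finrank_fintype_fun_eq_card, Module.finrank_prod, Module.finrank_fin_fun,
      Module.finrank_self]
    simp [hcard]
  have hsurj : Function.Surjective Φ :=
    (LinearMap.injective_iff_surjective_of_finrank_eq_finrank hfin).1 hinj
  obtain ⟨q, hq⟩ := hsurj (fun j => if j = i then 1 else 0, 0)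
  have h1 : (fun i => ∑ v, ext q v * w v i) = fun j => if j = i then 1 else 0 :=
    congrArg Prod.fst hq
  have h2 : ∑ v, ext q v = 0 := congrArg Prod.snd hq
  exact ⟨ext q, hext0 q, h2, fun j => congrFun h1 j⟩

/-- the covector of a full-dimensional cell is unique -/
theorem k_unique {w : κ → Fin (d + 1) → ℕ} {h : κ → ℝ} (hh : LinearIndependent ℚ h)
    {C : Finset κ} (hcard : C.card = d + 2) {k k' : Fin (d + 1) → ℝ} (hA : ArgM w h C k)
    (hA' : ArgM w h C k') : k = k' := by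
  funext i
  obtain ⟨q, hq1, hq2, hq3⟩ := spans hcard (fun m => indep hh hA m) i
  obtain ⟨v₀, hv₀⟩ : C.Nonempty := by
    rw [← Finset.card_pos, hcard]
    omega
  -- the pairing of the covector with the combination
  have key : ∀ l : Fin (d + 1) → ℝ, ArgM w h C l → l i = - ∑ v, (q v : ℝ) * h v := by
    intro l hl
    have h1 : ∀ v, (q v : ℝ) * hval w h l v = (q v : ℝ) * hval w h l v₀ := by
      intro v
      by_cases hv : v ∈ C
      · rw [argM_eq hl hv hv₀]
      · rw [hq1 v hv]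
        simp
    have h2 : ∑ v, (q v : ℝ) * hval w h l v = 0 := by
      rw [Finset.sum_congr rfl (fun v _ => h1 v), ← Finset.sum_mul]
      have h3 : ∑ v, (q v : ℝ) = 0 := by exact_mod_cast hq2
      rw [h3, zero_mul]
    have h4 : ∑ v, (q v : ℝ) * hval w h l v =
        ∑ j, l j * ∑ v, (q v : ℝ) * (w v j : ℝ) + ∑ v, (q v : ℝ) * h v := by
      simp only [hval, mul_add, Finset.sum_add_distrib, Finset.mul_sum]
      rw [Finset.sum_comm]
      congr 1
      apply Finset.sum_congr rfl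
      intro j _
      apply Finset.sum_congr rfl
      intro v _
      ring
    have h5 : ∀ j, ∑ v, (q v : ℝ) * (w v j : ℝ) = if j = i then 1 else 0 := by
      intro j
      have := hq3 j
      have h6 : ((∑ v, q v * (w v j : ℚ) : ℚ) : ℝ) = ((if j = i then 1 else 0 : ℚ) : ℝ) := by
        rw [this]
      push_cast at h6
      rw [h6]
      split_ifs <;> simp
    have h7 : ∑ j, l j * ∑ v, (q v : ℝ) * (w v j : ℝ) = l i := by
      have h8 : ∀ j, l j * ∑ v, (q v : ℝ) * (w v j : ℝ) = if j = i then l j else 0 := by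
        intro j
        rw [h5 j]
        split_ifs <;> simp
      rw [Finset.sum_congr rfl (fun j _ => h8 j)]
      simp
    linarith
  rw [key k hA, key k' hA']

/-- good neighbourhoods -/
theorem local_box (hI : Stmt_KIFT) (w : κ → Fin (d + 1) → ℕ) (h : κ → ℝ) (b : κ → ℂ)
    {C : Finset κ} {k : Fin (d + 1) → ℝ} (hA : ArgM w h C k) {v₀ : κ} (hv₀ : v₀ ∈ C)
    {y : Fin (d + 1) → ℂ} (hy : y ∈ Cr w (rc b C)) (hND : ND w (rc b C) y)
    {N : Set (Fin (d + 1) → ℂ)} (hN : N ∈ 𝓝 y) :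
    ∃ B ∈ 𝓝 y, B ⊆ N ∧ (∀ x ∈ B, ∀ i, ‖y i‖ / 2 ≤ ‖x i‖ ∧ ‖x i‖ ≤ 2 * ‖y i‖) ∧
      ∀ᶠ n in atTop, {x | x ∈ Cr w (An h b n) ∧ scl (ek k n) x ∈ B}.Finite ∧
        {x | x ∈ Cr w (An h b n) ∧ scl (ek k n) x ∈ B}.ncard = 1 := by
  have hbox : ∀ i : Fin (d + 1), ∀ᶠ x in 𝓝 y, ‖y i‖ / 2 ≤ ‖x i‖ ∧ ‖x i‖ ≤ 2 * ‖y i‖ := by
    intro i
    have hpos : 0 < ‖y i‖ := norm_pos_iff.2 (hy.1 i)
    have hc : Tendsto (fun x : Fin (d + 1) → ℂ => ‖x i‖) (𝓝 y) (𝓝 ‖y i‖) :=
      ((continuous_apply i).norm).tendsto y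
    have h1 : ∀ᶠ x in 𝓝 y, ‖y i‖ / 2 < ‖x i‖ := hc.eventually (lt_mem_nhds (by linarith))
    have h2 : ∀ᶠ x in 𝓝 y, ‖x i‖ < 2 * ‖y i‖ := hc.eventually (gt_mem_nhds (by linarith))
    filter_upwards [h1, h2] with x h3 h4
    exact ⟨h3.le, h4.le⟩
  have hbox' : {x : Fin (d + 1) → ℂ | ∀ i, ‖y i‖ / 2 ≤ ‖x i‖ ∧ ‖x i‖ ≤ 2 * ‖y i‖} ∈ 𝓝 y :=
    eventually_all.2 hbox
  obtain ⟨B, hB1, hB2, hB3⟩ := hI κ d w _ _ y (tendsto_cn w h b hA hv₀) hy hND _
    (inter_mem hN hbox')
  refine ⟨B, hB1, fun x hx => (hB2 hx).1, fun x hx => (hB2 hx).2, ?_⟩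
  filter_upwards [hB3] with n hn
  have h1 : {x | x ∈ B ∧ x ∈ Cr w (cn w h b k (hval w h k v₀) n)} =
      scl (ek k n) '' {x | x ∈ Cr w (An h b n) ∧ scl (ek k n) x ∈ B} := by
    ext z
    simp only [Set.mem_ofPred_eq, Set.mem_image]
    constructor
    · rintro ⟨hz1, hz2⟩
      have hz3 : scl (ek k n) (fun i => z i / ek k n i) = z := by
        funext i
        simp only [scl]
        field_simp [ek_ne k n i]
      refine ⟨fun i => z i / ek k n i, ⟨?_, ?_⟩, hz3⟩
      · rw [← Cr_ek w h b k (hval w h k v₀) n, hz3]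
        exact hz2
      · rw [hz3]
        exact hz1
    · rintro ⟨x, ⟨hx1, hx2⟩, rfl⟩
      exact ⟨hx2, (Cr_ek w h b k (hval w h k v₀) n x).2 hx1⟩
  have hinj : Function.Injective (scl (ek k n)) := by
    intro x x' hxx
    funext i
    have := congrFun hxx i
    simp only [scl] at this
    exact mul_left_cancel₀ (ek_ne k n i) this
  rw [h1, Set.ncard_image_of_injective _ hinj] at hn
  refine ⟨Set.finite_of_ncard_ne_zero (by rw [hn]; exact one_ne_zero), hn⟩

theorem disj_lt {k k' : Fin d → ℝ} {y y' : Fin d → ℂ} {B B' : Set (Fin d → ℂ)}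
    (hy : ∀ i, y i ≠ 0)
    (hB : ∀ x ∈ B, ∀ i, ‖y i‖ / 2 ≤ ‖x i‖ ∧ ‖x i‖ ≤ 2 * ‖y i‖)
    (hB' : ∀ x ∈ B', ∀ i, ‖y' i‖ / 2 ≤ ‖x i‖ ∧ ‖x i‖ ≤ 2 * ‖y' i‖) {i : Fin d}
    (hk : k i < k' i) :
    ∀ᶠ n in atTop, Disjoint {x | scl (ek k n) x ∈ B} {x | scl (ek k' n) x ∈ B'} := by
  have hpos : 0 < ‖y i‖ := norm_pos_iff.2 (hy i)
  have h1 : Tendsto (fun n : ℕ => Real.exp ((n : ℝ) * (k' i - k i))) atTop atTop :=
    Real.tendsto_exp_atTop.comp
      (Tendsto.atTop_mul_const (by linarith) tendsto_natCast_atTop_atTop)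
  filter_upwards [h1.eventually (eventually_gt_atTop (2 * ‖y' i‖ / (‖y i‖ / 2)))] with n hn
  rw [Set.disjoint_left]
  intro x hx hx'
  have h2 := (hB _ hx i).1
  have h3 := (hB' _ hx' i).2
  have h4 : ∀ l : Fin d → ℝ, ‖scl (ek l n) x i‖ = Real.exp ((n : ℝ) * l i) * ‖x i‖ := by
    intro l
    simp only [scl, ek, norm_mul, Complex.norm_real, Real.norm_eq_abs, Real.abs_exp]
  rw [h4] at h2 h3
  have h5 : Real.exp ((n : ℝ) * k' i) =
      Real.exp ((n : ℝ) * (k' i - k i)) * Real.exp ((n : ℝ) * k i) := by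
    rw [← Real.exp_add]
    congr 1
    ring
  rw [div_lt_iff₀ (by linarith)] at hn
  have h6 : Real.exp ((n : ℝ) * (k' i - k i)) * (‖y i‖ / 2) ≤
      Real.exp ((n : ℝ) * (k' i - k i)) * (Real.exp ((n : ℝ) * k i) * ‖x i‖) :=
    mul_le_mul_of_nonneg_left h2 (Real.exp_pos _).le
  rw [h5] at h3
  have h7 : Real.exp ((n : ℝ) * (k' i - k i)) * (Real.exp ((n : ℝ) * k i) * ‖x i‖) =
    Real.exp ((n : ℝ) * (k' i - k i)) * Real.exp ((n : ℝ) * k i) * ‖x i‖ := by ring
  linarith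

theorem disj {k k' : Fin d → ℝ} {y y' : Fin d → ℂ} {B B' : Set (Fin d → ℂ)}
    (hy : ∀ i, y i ≠ 0) (hy' : ∀ i, y' i ≠ 0)
    (hB : ∀ x ∈ B, ∀ i, ‖y i‖ / 2 ≤ ‖x i‖ ∧ ‖x i‖ ≤ 2 * ‖y i‖)
    (hB' : ∀ x ∈ B', ∀ i, ‖y' i‖ / 2 ≤ ‖x i‖ ∧ ‖x i‖ ≤ 2 * ‖y' i‖) (hk : k ≠ k') :
    ∀ᶠ n in atTop, Disjoint {x | scl (ek k n) x ∈ B} {x | scl (ek k' n) x ∈ B'} := by
  obtain ⟨i, hi⟩ : ∃ i, k i ≠ k' i := by
    by_contra hc
    push Not at hc
    exact hk (funext hc)
  rcases lt_or_gt_of_ne hi with h1 | h1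
  · exact disj_lt hy hB hB' h1
  · filter_upwards [disj_lt hy' hB' hB h1] with n hn
    exact hn.symm

theorem Cr_map (w : κ → Fin (d + 1) → ℕ) (σ : ℂ ≃+* ℂ) (A a : κ → ℂ) (hσ : ∀ v, σ (A v) = a v) :
    Cr w a = (fun x i => σ (x i)) '' Cr w A := by
  have hmn : ∀ x v, mn w (fun i => σ (x i)) v = σ (mn w x v) := by
    intro x v
    simp only [mn, map_prod, map_pow]
  have hsm : ∀ x, sm w a (fun i => σ (x i)) = σ (sm w A x) := by
    intro x
    simp only [sm, map_sum, map_mul, hmn, hσ]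
  have hst : ∀ x i, sth w a (fun i => σ (x i)) i = σ (sth w A x i) := by
    intro x i
    simp only [sth, map_sum, map_mul, hmn, hσ, map_natCast]
  have hCr : ∀ x, (fun i => σ (x i)) ∈ Cr w a ↔ x ∈ Cr w A := by
    intro x
    simp only [Cr, Set.mem_ofPred_eq, TT, hsm, hst]
    simp
  ext z
  constructor
  · intro hz
    refine ⟨fun i => σ.symm (z i), ?_, ?_⟩
    · rw [← hCr]
      have : (fun i => σ (σ.symm (z i))) = z := by
        funext i
        exact σ.apply_symm_apply _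
      rw [this]
      exact hz
    · funext i
      exact σ.apply_symm_apply _
  · rintro ⟨x, hx, rfl⟩
    exact (hCr x).2 hx

end

end KCNT1Aux

open KCNT1Aux in
/-- block KCNT1 -/
theorem stmt_KCNT1 (hAUT : Stmt_KAUT) (hG : Stmt_KG) (hS : Stmt_KSIM) (hI : Stmt_KIFT)
    (hL : Stmt_KLM1) (hM : Stmt_KCMP) : Stmt_KCNT1 := by
  classical
  intro κ _ _ d w h a hF hD hh ha
  -- generic coefficients
  have hs : (insert (0 : ℂ) (Set.range fun p : ℕ × κ =>
      ((Real.exp (-((p.1 : ℝ) * h p.2)) : ℝ) : ℂ))).Countable :=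
    (Set.countable_range _).insert 0
  obtain ⟨b, hb1, -⟩ := hG κ _ hs
  have hAn : ∀ n, AlgebraicIndependent ℚ (An h b n) := by
    intro n
    have h1 := hb1 (fun _ => 0) (fun v => ((Real.exp (-((n : ℝ) * h v)) : ℝ) : ℂ)) (fun v =>
      ⟨Set.mem_insert _ _, Set.mem_insert_of_mem _ ⟨(n, v), rfl⟩, by
        exact_mod_cast (Real.exp_pos _).ne'⟩)
    have h2 : (fun v => (0 : ℂ) + ((Real.exp (-((n : ℝ) * h v)) : ℝ) : ℂ) * b v) = An h b n := by
      funext v
      simp only [An]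
      ring
    rw [h2] at h1
    exact h1
  have hb0 : ∀ v, b v ≠ 0 := by
    intro v hv
    have h1 := (hAn 0).ne_zero v
    apply h1
    simp only [An, hv, zero_mul]
  -- the cells
  have hVol : VolT w h = ∑ C ∈ (Finset.univ : Finset (Finset κ)).filter
    (fun C => C.card = d + 1 + 1 ∧ ∃ k, ArgM w h C k), adet w (inl C) := by
    unfold VolT
    congr!
  set S : Finset (Finset κ) := (Finset.univ : Finset (Finset κ)).filter
    (fun C => C.card = d + 1 + 1 ∧ ∃ k, ArgM w h C k) with hSdef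
  have hScard : ∀ C : S, C.1.card = d + 2 := fun C => (Finset.mem_filter.1 C.2).2.1
  have hSk : ∀ C : S, ∃ k, ArgM w h C.1 k := fun C => (Finset.mem_filter.1 C.2).2.2
  choose k hk using hSk
  have hSne : ∀ C : S, ∃ v, v ∈ C.1 := by
    intro C
    have h1 : 0 < C.1.card := by rw [hScard C]; omega
    exact Finset.card_pos.1 h1
  choose v₀ hv₀ using hSne
  have hsim : ∀ C : S, (Cr w (rc b C.1)).Finite ∧ ((Cr w (rc b C.1)).ncard : ℚ) =
      adet w (inl C.1) ∧ ∀ y ∈ Cr w (rc b C.1), ND w (rc b C.1) y := fun C =>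
    hS κ d w b C.1 (hScard C) hb0 hD (fun m => indep hh (hk C) m)
  -- the points
  have hsep : ∀ C : S, ∃ N : (Fin (d + 1) → ℂ) → Set (Fin (d + 1) → ℂ),
      (∀ x, x ∈ N x ∧ IsOpen (N x)) ∧ (Cr w (rc b C.1)).PairwiseDisjoint N := fun C =>
    (hsim C).1.t2_separation
  choose N hN1 hN2 using hsep
  let P : Type := (C : S) × (Cr w (rc b C.1) : Set (Fin (d + 1) → ℂ))
  have hbox : ∀ p : P, ∃ B ∈ 𝓝 p.2.1, B ⊆ N p.1 p.2.1 ∧
      (∀ x ∈ B, ∀ i, ‖p.2.1 i‖ / 2 ≤ ‖x i‖ ∧ ‖x i‖ ≤ 2 * ‖p.2.1 i‖) ∧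
      ∀ᶠ n in atTop, {x | x ∈ Cr w (An h b n) ∧ scl (ek (k p.1) n) x ∈ B}.Finite ∧
        {x | x ∈ Cr w (An h b n) ∧ scl (ek (k p.1) n) x ∈ B}.ncard = 1 := fun p =>
    local_box hI w h b (hk p.1) (hv₀ p.1) p.2.2 ((hsim p.1).2.2 _ p.2.2)
      ((hN1 p.1 p.2.1).2.mem_nhds (hN1 p.1 p.2.1).1)
  choose B hB1 hB2 hB3 hB4 using hbox
  have : ∀ C : S, Fintype (Cr w (rc b C.1) : Set (Fin (d + 1) → ℂ)) := fun C =>
    (hsim C).1.fintype
  have hP : Fintype P := by
    show Fintype ((C : S) × (Cr w (rc b C.1) : Set (Fin (d + 1) → ℂ)))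
    infer_instance
  have hcnt := hM (Fin (d + 1) → ℂ) P (fun n => Cr w (An h b n))
    (fun p n => {x | scl (ek (k p.1) n) x ∈ B p}) (fun _ => 1) (fun p => hB4 p) (by
      intro p q hpq
      by_cases hC : p.1 = q.1
      · obtain ⟨C, y⟩ := p
        obtain ⟨C', y'⟩ := q
        simp only at hC
        subst hC
        have hyy : y.1 ≠ y'.1 := by
          intro hc
          apply hpq
          rw [Subtype.ext hc]
        have h1 : Disjoint (N C y.1) (N C y'.1) := hN2 C y.2 y'.2 hyy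
        refine Eventually.of_forall (fun n => ?_)
        rw [Set.disjoint_left] at h1 ⊢
        intro x hx hx'
        exact h1 (hB2 _ hx) (hB2 _ hx')
      · have hkk : k p.1 ≠ k q.1 := by
          intro hc
          apply hC
          apply Subtype.ext
          ext v
          rw [hk p.1 v, hk q.1 v, hc]
        exact disj p.2.2.1 q.2.2.1 (hB3 p) (hB3 q) hkk) (by
      intro U hU x hx
      obtain ⟨C, l, hC1, hC2, y, hy1, hy2⟩ := hL κ d w h b U x hF hD hh hb0 hU hx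
      have hCS : C ∈ S := by
        rw [hSdef, Finset.mem_filter]
        exact ⟨Finset.mem_univ _, hC1, l, hC2⟩
      have hl : l = k ⟨C, hCS⟩ := k_unique hh hC1 hC2 (hk ⟨C, hCS⟩)
      refine ⟨⟨⟨C, hCS⟩, ⟨y, hy1⟩⟩, ?_⟩
      have h1 := hy2.eventually (hB1 ⟨⟨C, hCS⟩, ⟨y, hy1⟩⟩)
      rw [hl] at h1
      exact h1)
  obtain ⟨n, hn1, hn2⟩ := hcnt.exists
  obtain ⟨σ, hσ⟩ := hAUT κ (An h b n) a (hAn n) ha
  have hmap := Cr_map w σ (An h b n) a hσ
  have hinj : Function.Injective (fun (x : Fin (d + 1) → ℂ) i => σ (x i)) := by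
    intro x x' hxx
    funext i
    exact σ.injective (congrFun hxx i)
  refine ⟨by rw [hmap]; exact hn1.image _, ?_⟩
  rw [hmap, Set.ncard_image_of_injective _ hinj, hn2, hVol]
  have h1 : ∑ _p : P, 1 = ∑ C : S, (Cr w (rc b C.1)).ncard := by
    have h2 : Fintype.card P = ∑ C : S, Fintype.card (Cr w (rc b C.1) : Set (Fin (d + 1) → ℂ)) := by
      convert Fintype.card_sigma (α := fun C : S =>
        ((Cr w (rc b C.1) : Set (Fin (d + 1) → ℂ)) : Type))
    rw [Finset.sum_const, smul_eq_mul, mul_one, Finset.card_univ, h2]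
    apply Finset.sum_congr rfl
    intro C _
    rw [Set.ncard_eq_toFinset_card', Set.toFinset_card]
  rw [h1]
  push_cast
  rw [Finset.sum_congr rfl (fun C _ => (hsim C).2.1)]
  exact Finset.sum_coe_sort S (fun C => adet w (inl C))

end Pool.Agent.Mono.NP
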