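import Pool.Agent.Work.Monodromy.Interface12K

/-!
# Block KCNT2: the number of critical points in the presence of nodes (helper51)
-/

set_option autoImplicit false

namespace Pool.Agent.Mono.NP

open MvPolynomial Filter Topology

namespace KCNT2Aux

variable {κ : Type} [Fintype κ] {d : ℕ}

theorem nonempty_of_fullDim {w : κ → Fin (d + 1) → ℕ} (h : FullDim w) : Nonempty κ := by
  by_contra hne
  rw [not_nonempty_iff] at hne
  have h1 := h (fun _ => 1) 0 (fun v => (hne.false v).elim)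
  have h2 := congrFun h1 0
  simp at h2

theorem mn_ne {w : κ → Fin (d + 1) → ℕ} {x : Fin (d + 1) → ℂ} (hx : x ∈ TT (d + 1)) (v : κ) :
    mn w x v ≠ 0 := by
  unfold mn
  exact Finset.prod_ne_zero_iff.2 fun i _ => pow_ne_zero _ (hx i)

theorem Nds_sub (w : κ → Fin (d + 1) → ℕ) (a : κ → ℂ) : Nds w a ⊆ Cr w a := by
  rintro x ⟨h1, h2, h3⟩
  exact ⟨h1, h2, fun i => h3 i.succ⟩

theorem nd_of {w : κ → Fin (d + 1) → ℕ} {a : κ → ℂ} {x : Fin (d + 1) → ℂ} (hx : x ∈ Cr w a)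
    (hdet : (Matrix.of fun i j : Fin d => shs w a x i.succ j.succ).det ≠ 0)
    (hn : x ∉ Nds w a) : ND w a x := by
  have h0 : sth w a x 0 ≠ 0 := by
    intro h1
    apply hn
    refine ⟨hx.1, hx.2.1, fun i => ?_⟩
    refine Fin.cases h1 (fun j => hx.2.2 j) i
  intro ξ h1 h2
  rw [Fin.sum_univ_succ] at h1
  have h3 : ∑ i : Fin d, ξ i.succ * sth w a x i.succ = 0 :=
    Finset.sum_eq_zero fun i _ => by rw [hx.2.2 i, mul_zero]
  rw [h3, add_zero] at h1
  have h4 : ξ 0 = 0 := (mul_eq_zero.1 h1).resolve_right h0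
  have h5 : Matrix.mulVec (Matrix.of fun i j : Fin d => shs w a x i.succ j.succ)
      (fun j => ξ j.succ) = 0 := by
    funext i
    have h6 := h2 i
    rw [Fin.sum_univ_succ, h4, zero_mul, zero_add] at h6
    show ∑ j : Fin d, shs w a x i.succ j.succ * ξ j.succ = 0
    rw [← h6]
    exact Finset.sum_congr rfl fun j _ => mul_comm _ _
  have h6 := Matrix.eq_zero_of_mulVec_eq_zero hdet h5
  funext i
  refine Fin.cases h4 (fun j => ?_) i
  exact congrFun h6 j

theorem cr_finite (hISO : Stmt_KISO) (hLM : Stmt_KLM2) {w : κ → Fin (d + 1) → ℕ} {a : κ → ℂ}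
    (hF : FullDim w) (hI : NdI w a) (hN : Nod w a) (hD : Dr w) (h2 : H2 w a) :
    (Cr w a).Finite := by
  by_contra hinf
  have hinf' : (Cr w a).Infinite := hinf
  obtain ⟨f, hf⟩ : ∃ f : ℕ → Cr w a, Function.Injective f :=
    ⟨Set.Infinite.natEmbedding _ hinf', (Set.Infinite.natEmbedding _ hinf').injective⟩
  obtain ⟨y, hy, hlim⟩ := hLM κ d w a (fun _ => a) (hyperfilter ℕ) (fun n => (f n : Fin (d + 1) → ℂ))
    hF hI hD tendsto_const_nhds (Eventually.of_forall fun n => (f n).2)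
  obtain ⟨B, hB, hB2⟩ := hISO κ d w a y hy (h2 y hy) (fun h => hN y h)
  have h3 : ∀ᶠ n in (hyperfilter ℕ : Filter ℕ), (f n : Fin (d + 1) → ℂ) = y := by
    filter_upwards [hlim.eventually hB] with n hn
    exact hB2 _ hn (f n).2
  have h4 : {n : ℕ | (f n : Fin (d + 1) → ℂ) = y}.Subsingleton := by
    intro n hn m hm
    apply hf
    apply Subtype.ext
    have e1 : (f n : Fin (d + 1) → ℂ) = y := hn
    have e2 : (f m : Fin (d + 1) → ℂ) = y := hm
    rw [e1, e2]
  exact Set.Finite.notMem_hyperfilter h4.finite h3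

end KCNT2Aux

open KCNT2Aux in
theorem stmt_KCNT2 (hG : Stmt_KG) (hC1 : Stmt_KCNT1) (hIFT : Stmt_KIFT) (hLM : Stmt_KLM2)
    (hCMP : Stmt_KCMP) (hISO : Stmt_KISO) (hNODE : Stmt_KNODE) : Stmt_KCNT2 := by
  classical
  intro κ _ _ d w h a hF hI hN hD h2 hh
  have hfin := cr_finite hISO hLM hF hI hN hD h2
  refine ⟨hfin, ?_⟩
  haveI : Nonempty κ := nonempty_of_fullDim hF
  obtain ⟨η, hη⟩ : ∃ η : ℕ → ℂ, η = fun n : ℕ => 1 / ((n : ℂ) + 1) := ⟨_, rfl⟩
  have hη0 : ∀ n, η n ≠ 0 := by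
    intro n
    rw [hη]
    exact one_div_ne_zero (by exact_mod_cast Nat.succ_ne_zero n)
  have hηt : Tendsto η atTop (𝓝 0) := by
    rw [hη]
    exact tendsto_one_div_add_atTop_nhds_zero_nat (𝕜 := ℂ)
  obtain ⟨s, hs⟩ : ∃ s : Set ℂ, s = ({0} ∪ Set.range a) ∪ (Set.range (fun n => η n ^ 2) ∪
    ⋃ x ∈ Cr w a, Set.range (mn w x)) := ⟨_, rfl⟩
  have hsc : s.Countable := by
    rw [hs]
    refine ((Set.countable_singleton 0).union (Set.countable_range a)).union
      ((Set.countable_range _).union ?_)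
    exact hfin.countable.biUnion fun x _ => Set.countable_range _
  obtain ⟨g, hg1, hg2⟩ := hG κ s hsc
  obtain ⟨A, hA⟩ : ∃ A : ℕ → κ → ℂ, A = fun n v => a v + η n ^ 2 * g v := ⟨_, rfl⟩
  have hAi : ∀ n, AlgebraicIndependent ℚ (A n) := by
    intro n
    have h1 := hg1 a (fun _ => η n ^ 2) (fun v => by
      refine ⟨?_, ?_, pow_ne_zero _ (hη0 n)⟩
      · rw [hs]
        exact Or.inl (Or.inr ⟨v, rfl⟩)
      · rw [hs]
        exact Or.inr (Or.inl ⟨n, rfl⟩))
    rw [hA]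
    exact h1
  have hAt : Tendsto A atTop (𝓝 a) := by
    rw [tendsto_pi_nhds]
    intro v
    have h1 : Tendsto (fun n => a v + η n ^ 2 * g v) atTop (𝓝 (a v + 0 ^ 2 * g v)) :=
      tendsto_const_nhds.add ((hηt.pow 2).mul_const (g v))
    have e : a v + (0 : ℂ) ^ 2 * g v = a v := by ring
    rw [e] at h1
    rw [hA]
    exact h1
  have hgx : ∀ x ∈ Cr w a, sm w g x ≠ 0 := by
    intro x hx
    have h1 := hg2 (mn w x) (fun v => by
      rw [hs]
      refine Or.inr (Or.inr ?_)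
      rw [Set.mem_iUnion₂]
      exact ⟨x, hx, v, rfl⟩) ⟨Classical.arbitrary κ, mn_ne hx.1 _⟩
    unfold sm
    intro h3
    apply h1
    rw [← h3]
    exact Finset.sum_congr rfl fun v _ => mul_comm _ _
  -- disjoint neighbourhoods
  obtain ⟨V, hV1, hV2⟩ := hfin.t2_separation
  obtain ⟨m, hm⟩ : ∃ m : (Fin (d + 1) → ℂ) → ℕ, m = fun x => if x ∈ Nds w a then 2 else 1 :=
    ⟨_, rfl⟩
  have hex : ∀ x : (Fin (d + 1) → ℂ), ∃ B : Set (Fin (d + 1) → ℂ), x ∈ Cr w a →
      B ∈ 𝓝 x ∧ B ⊆ V x ∧ ∀ᶠ n in atTop, {y | y ∈ B ∧ y ∈ Cr w (A n)}.ncard = m x := by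
    intro x
    by_cases hx : x ∈ Cr w a
    · by_cases hxn : x ∈ Nds w a
      · obtain ⟨B, hB1, hB2, hB3⟩ := hNODE κ d w a g x η hxn (h2 x hx) (hN x hxn) (hgx x hx)
          hηt hη0 (V x) ((hV1 x).2.mem_nhds (hV1 x).1)
        refine ⟨B, fun _ => ⟨hB1, hB2, ?_⟩⟩
        rw [hm, hA]
        simp only [hxn, if_true]
        exact hB3
      · obtain ⟨B, hB1, hB2, hB3⟩ := hIFT κ d w A a x hAt hx (nd_of hx (h2 x hx) hxn)
          (V x) ((hV1 x).2.mem_nhds (hV1 x).1)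
        refine ⟨B, fun _ => ⟨hB1, hB2, ?_⟩⟩
        rw [hm]
        simp only [hxn, if_false]
        exact hB3
    · exact ⟨∅, fun h => absurd h hx⟩
  choose B hB using hex
  haveI : Fintype (Cr w a) := hfin.fintype
  have hcount := hCMP (Fin (d + 1) → ℂ) (Cr w a) (fun n => Cr w (A n)) (fun p _ => B p)
    (fun p => m p)
    (by
      intro p
      filter_upwards [(hB p p.2).2.2] with n hn
      have e : Cr w (A n) ∩ B p = {y | y ∈ B p ∧ y ∈ Cr w (A n)} := by
        ext y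
        exact and_comm
      rw [e, hn]
      refine ⟨?_, rfl⟩
      apply Set.finite_of_ncard_ne_zero
      rw [hn, hm]
      show (if (p : Fin (d + 1) → ℂ) ∈ Nds w a then 2 else 1) ≠ 0
      split_ifs <;> norm_num)
    (by
      intro p q hpq
      refine Eventually.of_forall fun n => ?_
      refine Set.disjoint_of_subset (hB p p.2).2.1 (hB q q.2).2.1 ?_
      exact hV2 p.2 q.2 (fun h3 => hpq (Subtype.ext h3)))
    (by
      intro U hU x hx
      obtain ⟨y, hy, hlim⟩ := hLM κ d w a A U x hF hI hD (hAt.mono_left hU) hx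
      exact ⟨⟨y, hy⟩, hlim.eventually (hB y hy).1⟩)
  obtain ⟨n, hn1, hn2⟩ := hcount.exists
  have h3 := (hC1 κ d w h (A n) hF hD hh (hAi n)).2
  rw [← h3, hn2]
  have h4 : ∑ p : Cr w a, m p = (Cr w a).ncard + (Nds w a).ncard := by
    have e1 : ∑ p : Cr w a, m p = ∑ x ∈ hfin.toFinset, m x := by
      rw [Finset.sum_subtype hfin.toFinset (p := fun x => x ∈ Cr w a)
        (fun x => hfin.mem_toFinset) m]
    have e2 : ∀ x, m x = 1 + if x ∈ Nds w a then 1 else 0 := by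
      intro x
      rw [hm]
      show (if x ∈ Nds w a then 2 else 1) = 1 + if x ∈ Nds w a then 1 else 0
      split_ifs <;> rfl
    rw [e1, Finset.sum_congr rfl (fun x _ => e2 x), Finset.sum_add_distrib, Finset.sum_const,
      smul_eq_mul, mul_one, ← Finset.sum_filter, Finset.sum_const, smul_eq_mul, mul_one,
      Set.ncard_eq_toFinset_card _ hfin]
    congr 1
    rw [← Set.ncard_coe_finset]
    congr 1
    ext x
    rw [Finset.mem_coe, Finset.mem_filter, hfin.mem_toFinset]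
    exact ⟨fun h5 => h5.2, fun h5 => ⟨Nds_sub w a h5, h5⟩⟩
  rw [h4]
  push_cast
  rfl

end Pool.Agent.Mono.NP
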