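import Pool.Agent.Work.Monodromy.Interface12K

/-! KDER: derivations dual to algebraically independent elements. -/

set_option autoImplicit false

namespace Pool.Agent.Mono.NP

open MvPolynomial TensorProduct

namespace KDERAux

/-- a derivation with prescribed values on a transcendence basis -/
theorem kder (k L : Type) [Field k] [Field L] [Algebra k L] [CharZero k] {B : Type} (v : B → L)
    (hv : IsTranscendenceBasis k v) (c : B → L) :
    ∃ D : Derivation k L L, ∀ b, D (v b) = c b := by
  classical
  letI : Algebra (MvPolynomial B k) L :=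
    (MvPolynomial.aeval v : MvPolynomial B k →ₐ[k] L).toRingHom.toAlgebra
  have hmap : ∀ p : MvPolynomial B k, algebraMap (MvPolynomial B k) L p = aeval v p :=
    fun _ => rfl
  haveI : IsScalarTower k (MvPolynomial B k) L := by
    refine IsScalarTower.of_algebraMap_eq fun r => ?_
    rw [hmap, MvPolynomial.algebraMap_eq, MvPolynomial.aeval_C]
  have hinj : Function.Injective (algebraMap (MvPolynomial B k) L) := hv.1
  haveI : FaithfulSMul (MvPolynomial B k) L :=
    (faithfulSMul_iff_algebraMap_injective (MvPolynomial B k) L).mpr hinj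
  letI : Algebra (FractionRing (MvPolynomial B k)) L :=
    FractionRing.liftAlgebra (MvPolynomial B k) L
  haveI : IsScalarTower (MvPolynomial B k) (FractionRing (MvPolynomial B k)) L :=
    FractionRing.isScalarTower_liftAlgebra (MvPolynomial B k) L
  haveI h1 : Algebra.IsAlgebraic (Algebra.adjoin k (Set.range v)) L := hv.isAlgebraic
  haveI h2 : Algebra.IsAlgebraic (MvPolynomial B k) L := by
    refine Algebra.IsAlgebraic.of_ringHom_of_comp_eq
      (S := Algebra.adjoin k (Set.range v)) (B := L)
      (hv.1.aevalEquiv : MvPolynomial B k ≃ₐ[k] Algebra.adjoin k (Set.range v))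
      (RingHom.id L) (AlgEquiv.surjective _) Function.injective_id ?_
    ext p
    · simp [hmap]
    · simp [hmap]
  haveI h3 : Algebra.IsAlgebraic (FractionRing (MvPolynomial B k)) L :=
    (IsFractionRing.comap_isAlgebraic_iff (A := MvPolynomial B k)
      (K := FractionRing (MvPolynomial B k)) (C := L)).mp h2
  haveI : CharZero (FractionRing (MvPolynomial B k)) :=
    charZero_of_injective_algebraMap
      (FaithfulSMul.algebraMap_injective k (FractionRing (MvPolynomial B k)))
  haveI : Algebra.FormallyEtale (MvPolynomial B k) (FractionRing (MvPolynomial B k)) :=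
    Algebra.FormallyEtale.of_isLocalization (nonZeroDivisors (MvPolynomial B k))
  haveI : Algebra.FormallyEtale (FractionRing (MvPolynomial B k)) L :=
    Algebra.FormallyEtale.of_isSeparable _ _
  haveI : Algebra.FormallyEtale (MvPolynomial B k) L :=
    Algebra.FormallyEtale.comp (MvPolynomial B k) (FractionRing (MvPolynomial B k)) L
  let δ : Derivation k (MvPolynomial B k) L := MvPolynomial.mkDerivation k c
  let φ := LinearMap.liftBaseChange L δ.liftKaehlerDifferential
  let e := KaehlerDifferential.tensorKaehlerEquivOfFormallyEtale k (MvPolynomial B k) L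
  refine ⟨(φ.comp e.symm.toLinearMap).compDer (KaehlerDifferential.D k L), fun b => ?_⟩
  have h : v b = algebraMap (MvPolynomial B k) L (MvPolynomial.X b) := by
    rw [hmap, aeval_X]
  have h5 : e.symm (KaehlerDifferential.D k L (v b)) =
      1 ⊗ₜ KaehlerDifferential.D k (MvPolynomial B k) (X b) := by
    rw [h]
    exact KaehlerDifferential.tensorKaehlerEquivOfFormallyEtale_symm_D_algebraMap k
      (MvPolynomial B k) L (X b)
  change φ (e.symm (KaehlerDifferential.D k L (v b))) = c b
  rw [h5, LinearMap.liftBaseChange_tmul, one_smul, Derivation.liftKaehlerDifferential_comp_D]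
  exact MvPolynomial.mkDerivation_X k c b

end KDERAux

theorem stmt_KDER : Stmt_KDER := by
  classical
  intro k L _ _ _ _ ι _ _ m hm
  have hr : AlgebraicIndependent k ((↑) : Set.range m → L) := hm.coe_range
  obtain ⟨t, ht, hB⟩ := exists_isTranscendenceBasis_superset hr
  have key : ∀ i : ι, ∃ D : Derivation k L L, ∀ j, D (m j) = if i = j then 1 else 0 := by
    intro i
    obtain ⟨D, hD⟩ := KDERAux.kder k L (fun b : t => (b : L)) hB
      (fun b => if (b : L) = m i then 1 else 0)
    refine ⟨D, fun j => ?_⟩
    have h1 := hD ⟨m j, ht ⟨j, rfl⟩⟩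
    simp only at h1
    rw [h1]
    by_cases hij : i = j
    · rw [if_pos hij, if_pos (by rw [hij])]
    · rw [if_neg hij, if_neg]
      intro h2
      exact hij (hm.injective h2).symm
  choose D hD using key
  exact ⟨D, hD⟩

end Pool.Agent.Mono.NP
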