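import Pool.Agent.Work.Monodromy.Interface12K

/-! KDIR: generic directions are good for the faces. -/

set_option autoImplicit false

namespace Pool.Agent.Mono.NP

open Finset MvPolynomial

namespace KDIRAux

variable {κ : Type} {d : ℕ}

/-- a covector on the changed exponents -/
theorem sum_chw (m : Fin d → ℕ) (W : ℕ) (w : κ → Fin (d + 1) → ℕ) (v : κ) (hv : w v 0 ≤ W)
    (ρ : Fin (d + 1) → ℚ) :
    ∑ i, ρ i * (chw m W w v i : ℚ) =
      (ρ 0 - ∑ i : Fin d, (m i : ℚ) * ρ i.succ) * (w v 0 : ℚ) +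
        (∑ i : Fin d, ρ i.succ * (w v i.succ : ℚ)) +
        (W : ℚ) * ∑ i : Fin d, (m i : ℚ) * ρ i.succ := by
  rw [Fin.sum_univ_succ]
  have h0 : chw m W w v 0 = w v 0 := rfl
  have h1 : ∀ i : Fin d, chw m W w v i.succ = w v i.succ + m i * (W - w v 0) := fun i => rfl
  simp only [h0, h1]
  push_cast [Nat.cast_sub hv]
  have h2 : ∑ x : Fin d, ρ x.succ * ((w v x.succ : ℚ) + (m x : ℚ) * ((W : ℚ) - (w v 0 : ℚ))) =
      (∑ i : Fin d, ρ i.succ * (w v i.succ : ℚ)) -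
        (∑ i : Fin d, (m i : ℚ) * ρ i.succ) * (w v 0 : ℚ) +
        (W : ℚ) * ∑ i : Fin d, (m i : ℚ) * ρ i.succ := by
    rw [sum_mul, mul_sum, ← sum_sub_distrib, ← sum_add_distrib]
    exact sum_congr rfl fun i _ => by ring
  rw [h2]
  ring

/-- the linear polynomial of a covector -/
noncomputable def lp (ρ : Fin (d + 1) → ℚ) : MvPolynomial (Fin d) ℚ :=
  C (ρ 0) + ∑ i : Fin d, C (ρ i.succ) * X i

theorem eval_lp (ρ : Fin (d + 1) → ℚ) (x : Fin d → ℚ) :
    eval x (lp ρ) = ρ 0 + ∑ i : Fin d, ρ i.succ * x i := by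
  unfold lp
  rw [map_add, eval_C, map_sum]
  congr 1
  refine sum_congr rfl fun i _ => ?_
  rw [map_mul, eval_C, eval_X]

theorem lp_ne {ρ : Fin (d + 1) → ℚ} (h : ρ ≠ 0) : lp ρ ≠ 0 := by
  intro h0
  apply h
  have h1 : ρ 0 = 0 := by
    have := eval_lp ρ (fun _ => 0)
    rw [h0] at this
    simpa using this.symm
  funext j
  refine Fin.cases ?_ (fun i => ?_) j
  · exact h1
  · have := eval_lp ρ (Pi.single i 1)
    rw [h0, h1, zero_add, sum_eq_single i] at this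
    · simpa using this.symm
    · intro b _ hb
      rw [Pi.single_eq_of_ne hb, mul_zero]
    · intro hi
      exact absurd (mem_univ i) hi

end KDIRAux

open KDIRAux in
theorem stmt_KDIR : Stmt_KDIR := by
  classical
  intro κ _ d w W hW
  -- a covector for every set `F`
  have hex : ∀ F : Finset κ, ∃ ρ : Fin (d + 1) → ℚ, ρ ≠ 0 ∧
      ((∃ (ρ : Fin (d + 1) → ℚ) (z : ℚ), ρ ≠ 0 ∧ ∀ v ∈ F, ∑ i, ρ i * w v i = z) →
        ∃ z : ℚ, ∀ v ∈ F, ∑ i, ρ i * w v i = z) := by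
    intro F
    by_cases h : ∃ (ρ : Fin (d + 1) → ℚ) (z : ℚ), ρ ≠ 0 ∧ ∀ v ∈ F, ∑ i, ρ i * w v i = z
    · obtain ⟨ρ, z, h1, h2⟩ := h
      exact ⟨ρ, h1, fun _ => ⟨z, h2⟩⟩
    · refine ⟨fun _ => 1, ?_, fun h' => absurd h' h⟩
      intro h'
      have := congrFun h' 0
      simp at this
  choose ρ hρ hρ2 using hex
  refine ⟨∏ F : Finset κ, lp (ρ F), prod_ne_zero_iff.mpr fun F _ => lp_ne (hρ F), ?_⟩
  intro m hm F hF
  rw [map_prod, prod_ne_zero_iff] at hm
  have hmF := hm F (mem_univ F)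
  rw [eval_lp] at hmF
  -- a covector for `w`
  have h1 : ∃ (ρ : Fin (d + 1) → ℚ) (z : ℚ), ρ ≠ 0 ∧ ∀ v ∈ F, ∑ i, ρ i * w v i = z := by
    obtain ⟨σ, z, hσ, hz⟩ := hF
    refine ⟨Fin.cons (σ 0 - ∑ i : Fin d, (m i : ℚ) * σ i.succ) fun i => σ i.succ,
      z - (W : ℚ) * ∑ i : Fin d, (m i : ℚ) * σ i.succ, ?_, ?_⟩
    · intro h
      apply hσ
      have h2 : ∀ i : Fin d, σ i.succ = 0 := by
        intro i
        have := congrFun h i.succ
        simpa using this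
      have h3 := congrFun h 0
      simp only [Fin.cons_zero, h2, mul_zero, sum_const_zero, sub_zero, Pi.zero_apply] at h3
      funext j
      exact Fin.cases h3 h2 j
    · intro v hv
      have h2 := hz v hv
      rw [sum_chw m W w v (hW v)] at h2
      rw [Fin.sum_univ_succ]
      simp only [Fin.cons_zero, Fin.cons_succ]
      linarith
  obtain ⟨z, hz⟩ := hρ2 F h1
  refine ⟨Fin.cons (ρ F 0 + ∑ i : Fin d, (m i : ℚ) * ρ F i.succ) fun i => ρ F i.succ,
    z + (W : ℚ) * ∑ i : Fin d, (m i : ℚ) * ρ F i.succ, ?_, ?_⟩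
  · rw [Fin.cons_zero]
    intro h
    apply hmF
    rw [← h]
    congr 1
    exact sum_congr rfl fun i _ => mul_comm _ _
  · intro v hv
    rw [sum_chw m W w v (hW v), ← hz v hv]
    simp only [Fin.cons_zero, Fin.cons_succ]
    rw [Fin.sum_univ_succ]
    ring

end Pool.Agent.Mono.NP
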