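import Pool.Agent.Work.Monodromy.Interface12C
import Pool.Agent.Work.Monodromy.X0

/-!
# Phase 12, part I, block KF: the class of the hypersurface of a face (helper99)
-/

set_option autoImplicit false

namespace Pool.Agent.Mono.NP

open MvPolynomial Filter Topology

namespace KFAux

section

variable {ι κ κ' : Type} [Fintype ι] [DecidableEq ι] [Fintype κ] [DecidableEq κ] [Fintype κ']
  [DecidableEq κ']

set_option linter.unusedSectionVars false

/-! ### Restriction to a subset of the exponents -/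

theorem sum_ext (f : κ' ↪ κ) (b : κ → ℚ) (hb : ∀ a, a ∉ Set.range f → b a = 0) (g : κ → ℚ) :
    ∑ a, b a * g a = ∑ a', b (f a') * g (f a') := by
  symm
  exact Fintype.sum_of_injective f f.injective _ _ (fun a ha => by rw [hb a ha, zero_mul])
    (fun _ => rfl)

theorem sum_ext' (f : κ' ↪ κ) (b : κ → ℚ) (hb : ∀ a, a ∉ Set.range f → b a = 0) :
    ∑ a, b a = ∑ a', b (f a') := by
  symm
  exact Fintype.sum_of_injective f f.injective _ _ hb (fun _ => rfl)

theorem Bx_ext (f : κ' ↪ κ) (w : κ → ι → ℕ) (C : Finset κ') (b : κ → ℚ)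
    (hb : ∀ a, a ∉ Set.range f → b a = 0) :
    b ∈ Bx w (C.map f) ↔ (fun a => b (f a)) ∈ Bx (fun v => w (f v)) C := by
  constructor
  · rintro ⟨h1, h2, h3⟩
    refine ⟨fun a => h1 (f a), ?_, ?_⟩
    · intro a ha
      apply h2
      rw [Finset.mem_map' f]
      exact ha
    · intro i
      obtain ⟨z, hz⟩ := h3 i
      refine ⟨z, ?_⟩
      rw [← hz, sum_ext f b hb fun a => (w a i : ℚ)]
  · rintro ⟨h1, h2, h3⟩
    refine ⟨?_, ?_, ?_⟩
    · intro a
      by_cases ha : a ∈ Set.range f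
      · obtain ⟨a', rfl⟩ := ha
        exact h1 a'
      · rw [hb a ha]
        exact ⟨le_rfl, one_pos⟩
    · intro a ha
      by_cases ha' : a ∈ Set.range f
      · obtain ⟨a', rfl⟩ := ha'
        apply h2
        intro hc
        exact ha ((Finset.mem_map' f).2 hc)
      · exact hb a ha'
    · intro i
      obtain ⟨z, hz⟩ := h3 i
      refine ⟨z, ?_⟩
      rw [← hz, sum_ext f b hb fun a => (w a i : ℚ)]

theorem nuE_map (f : κ' ↪ κ) (w : κ → ι → ℕ) (e : ℕ) (C : Finset κ') :
    nuE (fun v => w (f v)) e C = nuE w e (C.map f) := by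
  unfold nuE
  have h0 : ∀ b : κ' → ℚ, ∀ a, a ∉ Set.range f → Function.extend f b 0 a = 0 := by
    intro b a ha
    rw [Function.extend_apply' _ _ _ (fun ⟨a', h⟩ => ha ⟨a', h⟩)]
    rfl
  have h1 : ∀ b : κ' → ℚ, (fun a => Function.extend f b 0 (f a)) = b := by
    intro b
    funext a
    exact f.injective.extend_apply _ _ _
  have h2 : ∀ b : κ → ℚ, b ∈ Bx w (C.map f) → ∀ a, a ∉ Set.range f → b a = 0 := by
    intro b hb a ha
    apply hb.2.1
    intro hc
    obtain ⟨a', _, h⟩ := Finset.mem_map.1 hc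
    exact ha ⟨a', h⟩
  refine Nat.card_congr ⟨fun b => ⟨Function.extend f b.1 0, ?_, ?_⟩,
    fun b => ⟨fun a => b.1 (f a), ?_, ?_⟩, ?_, ?_⟩
  · rw [Bx_ext f w C _ (h0 b.1), h1]
    exact b.2.1
  · rw [sum_ext' f _ (h0 b.1)]
    have := congrFun (h1 b.1)
    rw [Finset.sum_congr rfl (fun a _ => this a)]
    exact b.2.2
  · exact (Bx_ext f w C _ (h2 b.1 b.2.1)).1 b.2.1
  · show (∑ a, b.1 (f a)).den = e
    rw [← sum_ext' f b.1 (h2 b.1 b.2.1)]
    exact b.2.2
  · intro b
    exact Subtype.ext (h1 b.1)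
  · intro b
    apply Subtype.ext
    funext a
    by_cases ha : a ∈ Set.range f
    · obtain ⟨a', rfl⟩ := ha
      exact f.injective.extend_apply _ _ _
    · exact (h0 _ a ha).trans (h2 b.1 b.2.1 a ha).symm

theorem rk_map (f : κ' ↪ κ) (w : κ → ι → ℕ) (G : Finset κ') :
    rk (fun v => w (f v)) G = rk w (G.map f) := by
  unfold rk
  have h1 : (fun a => hat (fun v => w (f v)) (Sum.inl a)) '' (G : Set κ') =
      (fun a => hat w (Sum.inl a)) '' ((G.map f : Finset κ) : Set κ) := by
    rw [Finset.coe_map, Set.image_image]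
    rfl
  rw [h1]

theorem mem_smp_map (f : κ' ↪ κ) (w : κ → ι → ℕ) (h : κ → ℝ) (G C : Finset κ') :
    C ∈ smp (fun v => w (f v)) (fun v => h (f v)) G ↔ C.map f ∈ smp w h (G.map f) := by
  simp only [smp, Finset.mem_filter, Finset.mem_univ, true_and, Finset.card_map, rk_map f w G]
  refine and_congr_right fun _ => exists_congr fun k => ?_
  constructor
  · intro hC a
    constructor
    · intro ha
      obtain ⟨a', ha', rfl⟩ := Finset.mem_map.1 ha
      obtain ⟨h1, h2⟩ := (hC a').1 ha'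
      refine ⟨(Finset.mem_map' f).2 h1, ?_⟩
      intro b hb
      obtain ⟨b', hb', rfl⟩ := Finset.mem_map.1 hb
      exact h2 b' hb'
    · rintro ⟨ha, h2⟩
      obtain ⟨a', ha', rfl⟩ := Finset.mem_map.1 ha
      rw [Finset.mem_map' f, hC a']
      exact ⟨ha', fun b hb => h2 (f b) ((Finset.mem_map' f).2 hb)⟩
  · intro hC a
    constructor
    · intro ha
      obtain ⟨h1, h2⟩ := (hC (f a)).1 ((Finset.mem_map' f).2 ha)
      exact ⟨(Finset.mem_map' f).1 h1, fun b hb => h2 (f b) ((Finset.mem_map' f).2 hb)⟩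
    · rintro ⟨ha, h2⟩
      rw [← Finset.mem_map' f, hC]
      refine ⟨(Finset.mem_map' f).2 ha, ?_⟩
      intro b hb
      obtain ⟨b', hb', rfl⟩ := Finset.mem_map.1 hb
      exact h2 b' hb'

theorem smp_subset (w : κ → ι → ℕ) (h : κ → ℝ) (G C : Finset κ) (hC : C ∈ smp w h G) :
    C ⊆ G := by
  simp only [smp, Finset.mem_filter, Finset.mem_univ, true_and] at hC
  obtain ⟨_, k, hk⟩ := hC
  intro a ha
  exact ((hk a).1 ha).1

theorem sum_smp_map {A : Type} [AddCommMonoid A] (f : κ' ↪ κ) (w : κ → ι → ℕ) (h : κ → ℝ)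
    (G : Finset κ') (g : Finset κ → A) :
    ∑ C ∈ smp (fun v => w (f v)) (fun v => h (f v)) G, g (C.map f) =
      ∑ C ∈ smp w h (G.map f), g C := by
  refine Finset.sum_bij (fun C _ => C.map f) ?_ ?_ ?_ ?_
  · intro C hC
    exact (mem_smp_map f w h G C).1 hC
  · intro C _ C' _ hCC
    exact Finset.map_injective f hCC
  · intro C hC
    have h1 := smp_subset w h _ C hC
    obtain ⟨C', _, rfl⟩ := Finset.subset_map_iff.1 h1
    exact ⟨C', (mem_smp_map f w h G C').2 hC, rfl⟩
  · intro C _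
    rfl

theorem sum_smp_nuE (f : κ' ↪ κ) (w : κ → ι → ℕ) (h : κ → ℝ) (G : Finset κ') (e : ℕ) :
    ∑ C ∈ smp (fun v => w (f v)) (fun v => h (f v)) G, (nuE (fun v => w (f v)) e C : ℤ) =
      ∑ C ∈ smp w h (G.map f), (nuE w e C : ℤ) := by
  rw [← sum_smp_map f w h G fun C => (nuE w e C : ℤ)]
  apply Finset.sum_congr rfl
  intro C _
  rw [nuE_map]

end

end KFAux

/-- block KF -/
theorem stmt_KF (hK : Stmt_K) (hADB : Stmt_ADB) (hTORM : Stmt_TORM) (hTORC : Stmt_TORC)
    (hVOLB : Stmt_VOLB) : Stmt_KF := by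
  classical
  intro E ι κ _ _ _ _ w a h F hF hw ha hh
  obtain ⟨a₀, ha₀⟩ := hF
  obtain ⟨d, m, A, B, c, hAB, hBA, hd, hm, hc, hrk⟩ := hADB ι κ w F a₀ ha₀
  have hval := hTORM ι κ w a F a₀ d m A B c ha₀ hAB hBA hc (Polynomial ℤ) E.toMotivicMeasure
  obtain ⟨hsmp, hnu⟩ := hTORC ι κ w h F a₀ d m A B c ha₀ hAB hBA hc (by rw [hrk, hd])
  have hL : E.toMotivicMeasure.L = Polynomial.X := E.line
  refine ⟨E.val (VF c a F), ?_, ?_, ?_⟩
  · have h1 : Fintype.card ι + 1 - rk w F = m := by omega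
    rw [h1, hval, hL]
  · intro h1
    have hd0 : d = 0 := by omega
    subst hd0
    have hF1 : ∀ v ∈ F, v = a₀ := by
      intro v hv
      apply hw
      funext i
      have h2 := hc v hv i
      simp only [Finset.univ_eq_empty, Finset.sum_empty] at h2
      omega
    have hF2 : F = {a₀} := Finset.eq_singleton_iff_unique_mem.2 ⟨ha₀, hF1⟩
    have h2 : VF c a F = ∅ := by
      rw [Set.eq_empty_iff_forall_notMem]
      rintro x ⟨_, hx⟩
      rw [hF2, Finset.sum_singleton] at hx
      simp only [Finset.univ_eq_empty, Finset.prod_empty, mul_one] at hx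
      exact ha.ne_zero a₀ hx
    rw [h2]
    exact X0.val_empty E.toMotivicMeasure
  · intro h2
    have hd1 : 1 ≤ d := by omega
    let f : F ↪ κ := Function.Embedding.subtype _
    have hfF : (Finset.univ : Finset F).map f = F := by
      rw [Finset.univ_eq_attach]
      exact Finset.attach_map_val
    have hrk' : rk (fun v : F => c (f v)) Finset.univ = d + 1 := by
      rw [KFAux.rk_map f c, hfF, hrk]
    have ha' : AlgebraicIndependent ℚ fun v : F => a (f v) := ha.comp f f.injective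
    have hh' : LinearIndependent ℚ fun v : F => h (f v) := hh.comp f f.injective
    obtain ⟨hFD, hVol⟩ := hVOLB F d (fun v => c (f v)) (fun v => h (f v)) hrk' hh'
    have hKK := hK E F d (fun v => c (f v)) (fun v => a (f v)) (fun v => h (f v)) hd1 hFD ha' hh'
    have hset : Hyp (fun v : F => c (f v)) (fun v => a (f v)) = VF c a F := by
      ext x
      have h3 : sm (fun v : F => c (f v)) (fun v => a (f v)) x =
          ∑ v ∈ F, a v * ∏ i, x i ^ c v i := by
        simp only [sm, mn]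
        exact Finset.sum_coe_sort F fun v => a v * ∏ i, x i ^ c v i
      constructor
      · rintro ⟨h4, h5⟩
        exact ⟨h4, h3.symm.trans h5⟩
      · rintro ⟨h4, h5⟩
        exact ⟨h4, h3.trans h5⟩
    rw [hset, hVol] at hKK
    have hsum : ∑ C ∈ smp (fun v : F => c (f v)) (fun v => h (f v)) Finset.univ,
        (nuE (fun v : F => c (f v)) 1 C : ℤ) = ∑ C ∈ smp w h F, (nuE w 1 C : ℤ) := by
      rw [KFAux.sum_smp_nuE f c h, hfF, hsmp]
      apply Finset.sum_congr rfl
      intro C hC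
      rw [hnu C (KFAux.smp_subset w h F C hC)]
    have hsumQ : ∑ C ∈ smp (fun v : F => c (f v)) (fun v => h (f v)) Finset.univ,
        (nuE (fun v : F => c (f v)) 1 C : ℚ) = ((∑ C ∈ smp w h F, (nuE w 1 C : ℤ) : ℤ) : ℚ) := by
      rw [← hsum]
      push_cast
      rfl
    rw [hsumQ] at hKK
    have hsign : ((-1 : ℚ)) ^ (d - 1) = (-1) ^ rk w F := by
      have h5 : rk w F = (d - 1) + 2 := by omega
      rw [h5, pow_add]
      norm_num
    rw [hsign] at hKK
    exact_mod_cast hKK

end Pool.Agent.Mono.NP
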