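import Pool.Agent.Work.Monodromy.Interface12K

/-!
# Block KFUB: integration over the slices (helper51)
-/

set_option autoImplicit false

namespace Pool.Agent.Mono.NP

open MvPolynomial Filter Topology

namespace KFUBAux

theorem fc0 {d : ℕ} (c : ℂ) (y : Fin d → ℂ) : (Fin.cons c y : Fin (d + 1) → ℂ) 0 = c := rfl

theorem fcs {d : ℕ} (c : ℂ) (y : Fin d → ℂ) (j : Fin d) :
    (Fin.cons c y : Fin (d + 1) → ℂ) j.succ = y j := rfl

theorem cuniv {ι : Type} : Constructible (Set.univ : Set (ι → ℂ)) := by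
  have h : (Set.univ : Set (ι → ℂ)) = {x | eval x (0 : MvPolynomial ι ℂ) = 0} := by
    ext x; simp
  rw [h]
  exact Constructible.zero _

theorem cempty {ι : Type} : Constructible (∅ : Set (ι → ℂ)) := by
  have h := (cuniv (ι := ι)).compl
  rwa [Set.compl_univ] at h

theorem cunion {ι : Type} {s t : Set (ι → ℂ)} (hs : Constructible s) (ht : Constructible t) :
    Constructible (s ∪ t) := by
  have h := (hs.compl.inter ht.compl).compl
  rwa [Set.compl_inter, compl_compl, compl_compl] at h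

theorem ceq {ι : Type} (i : ι) (c : ℂ) : Constructible {x : ι → ℂ | x i = c} := by
  have h : {x : ι → ℂ | x i = c} = {x | eval x (X i - C c : MvPolynomial ι ℂ) = 0} := by
    ext x; simp [sub_eq_zero]
  rw [h]
  exact Constructible.zero _

theorem cnotin {ι : Type} (i : ι) (F : Finset ℂ) : Constructible {x : ι → ℂ | x i ∉ F} := by
  classical
  induction F using Finset.induction_on with
  | empty =>
    have e : {x : ι → ℂ | x i ∉ (∅ : Finset ℂ)} = Set.univ := by ext x; simp
    rw [e]; exact cuniv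
  | insert c F _ ih =>
    have e : {x : ι → ℂ | x i ∉ insert c F} = {x : ι → ℂ | x i = c}ᶜ ∩ {x : ι → ℂ | x i ∉ F} := by
      ext x
      simp only [Finset.mem_insert, not_or, Set.mem_inter_iff, Set.mem_compl_iff]
      exact Iff.rfl
    rw [e]
    exact (ceq i c).compl.inter ih

theorem vempty {R : Type} [CommRing R] (μ : MotivicMeasure R) {ι : Type} [Finite ι] :
    μ.val (∅ : Set (ι → ℂ)) = 0 := by
  have h := μ.union (∅ : Set (ι → ℂ)) ∅ cempty cempty disjoint_bot_left
  rw [Set.union_empty] at h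
  exact left_eq_add.1 h

/-- splitting off finitely many values of a coordinate -/
theorem vsplit {R : Type} [CommRing R] (μ : MotivicMeasure R) {ι : Type} [Finite ι] (i : ι)
    (s : Set (ι → ℂ)) (hs : Constructible s) (F : Finset ℂ) :
    μ.val s = μ.val (s ∩ {x | x i ∉ F}) + ∑ c ∈ F, μ.val (s ∩ {x | x i = c}) := by
  classical
  induction F using Finset.induction_on with
  | empty =>
    have e : s ∩ {x : ι → ℂ | x i ∉ (∅ : Finset ℂ)} = s := by ext x; simp
    rw [e, Finset.sum_empty, add_zero]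
  | insert c F hc ih =>
    have e : s ∩ {x : ι → ℂ | x i ∉ F} =
        (s ∩ {x : ι → ℂ | x i ∉ insert c F}) ∪ (s ∩ {x : ι → ℂ | x i = c}) := by
      ext x
      constructor
      · rintro ⟨h1, h2⟩
        by_cases h3 : x i = c
        · exact Or.inr ⟨h1, h3⟩
        · refine Or.inl ⟨h1, ?_⟩
          show x i ∉ insert c F
          rw [Finset.mem_insert, not_or]
          exact ⟨h3, h2⟩
      · rintro (⟨h1, h2⟩ | ⟨h1, h2⟩)
        · refine ⟨h1, ?_⟩
          show x i ∉ F
          intro h3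
          exact h2 (Finset.mem_insert_of_mem h3)
        · refine ⟨h1, ?_⟩
          show x i ∉ F
          have h3 : x i = c := h2
          rw [h3]
          exact hc
    rw [ih, e, μ.union _ _ (hs.inter (cnotin i _)) (hs.inter (ceq i c)), Finset.sum_insert hc]
    · ring
    · rw [Set.disjoint_left]
      rintro x ⟨_, h2⟩ ⟨_, h3⟩
      have h4 : x i = c := h3
      exact h2 (by rw [h4]; exact Finset.mem_insert_self _ _)

/-- points have value `1` -/
theorem vpoint {R : Type} [CommRing R] (μ : MotivicMeasure R) (c : ℂ) :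
    μ.val ({x : Unit → ℂ | x () = c}) = 1 := by
  rw [← μ.point]
  symm
  refine μ.map _ _ (fun _ => C c) cuniv (ceq () c) ⟨?_, ?_, ?_⟩
  · intro x _
    show eval x (C c : MvPolynomial Empty ℂ) = c
    rw [eval_C]
  · intro x _ y _ _
    funext e
    exact e.elim
  · intro y hy
    refine ⟨fun e => e.elim, trivial, ?_⟩
    funext u
    have h1 : y () = c := hy
    rw [← h1]
    show eval _ (C (y ())) = y u
    rw [eval_C]

theorem cHyp {κ : Type} [Fintype κ] {d : ℕ} (w : κ → Fin d → ℕ) (a : κ → ℂ) :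
    Constructible (Hyp w a) := by
  have e : Hyp w a = {x | eval x (∏ i, X i : MvPolynomial (Fin d) ℂ) = 0}ᶜ ∩
      {x | eval x (∑ v, C (a v) * ∏ i, X i ^ w v i : MvPolynomial (Fin d) ℂ) = 0} := by
    ext x
    have h1 : eval x (∏ i, X i : MvPolynomial (Fin d) ℂ) = ∏ i, x i := by
      rw [map_prod]
      exact Finset.prod_congr rfl fun i _ => eval_X i
    have h2 : eval x (∑ v, C (a v) * ∏ i, X i ^ w v i : MvPolynomial (Fin d) ℂ) = sm w a x := by
      rw [map_sum]
      unfold sm mn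
      refine Finset.sum_congr rfl fun v _ => ?_
      rw [map_mul, eval_C, map_prod]
      congr 1
      refine Finset.prod_congr rfl fun i _ => ?_
      rw [map_pow, eval_X]
    show (x ∈ TT d ∧ sm w a x = 0) ↔ ¬ (eval x (∏ i, X i : MvPolynomial (Fin d) ℂ) = 0) ∧
      eval x (∑ v, C (a v) * ∏ i, X i ^ w v i : MvPolynomial (Fin d) ℂ) = 0
    rw [h1, h2, Finset.prod_eq_zero_iff]
    refine and_congr_left fun _ => ?_
    constructor
    · rintro h ⟨i, _, hi⟩
      exact h i hi
    · intro h i hi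
      exact h ⟨i, Finset.mem_univ _, hi⟩
  rw [e]
  exact (Constructible.zero _).compl.inter (Constructible.zero _)

/-- the value of a fibre -/
theorem vfib {R : Type} [CommRing R] (μ : MotivicMeasure R) {d : ℕ}
    (s : Set (Fin (d + 1) → ℂ)) (hs : Constructible s)
    (hs2 : ∀ c : ℂ, Constructible {y : Fin d → ℂ | (Fin.cons c y : Fin (d + 1) → ℂ) ∈ s}) (c : ℂ) :
    μ.val (s ∩ {x | x 0 = c}) = μ.val {y : Fin d → ℂ | (Fin.cons c y : Fin (d + 1) → ℂ) ∈ s} := by
  refine μ.map _ _ (fun j => X j.succ) (hs.inter (ceq 0 c)) (hs2 c) ?_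
  have e1 : (fun (x : Fin (d + 1) → ℂ) (j : Fin d) =>
      eval x (X j.succ : MvPolynomial (Fin (d + 1)) ℂ)) = fun x j => x j.succ := by
    funext x j
    rw [eval_X]
  have hc : ∀ x : Fin (d + 1) → ℂ, (Fin.cons (x 0) (fun j : Fin d => x j.succ) :
      Fin (d + 1) → ℂ) = x := fun x => Fin.cons_self_tail x
  rw [e1]
  refine ⟨?_, ?_, ?_⟩
  · rintro x ⟨h1, h2⟩
    have h3 : x 0 = c := h2
    show (Fin.cons c (fun j : Fin d => x j.succ) : Fin (d + 1) → ℂ) ∈ s
    rw [← h3, hc]
    exact h1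
  · rintro x ⟨_, h2⟩ y ⟨_, h4⟩ h5
    have h3 : x 0 = c := h2
    have h6 : y 0 = c := h4
    have h7 : (fun j : Fin d => x j.succ) = fun j : Fin d => y j.succ := h5
    rw [← hc x, ← hc y, h3, h6, h7]
  · intro y hy
    exact ⟨Fin.cons c y, ⟨hy, fc0 c y⟩, funext fun j => fcs c y j⟩

theorem cslice {κ : Type} [Fintype κ] {d : ℕ} (w : κ → Fin (d + 1) → ℕ) (a : κ → ℂ) (c : ℂ) :
    Constructible {y : Fin d → ℂ | (Fin.cons c y : Fin (d + 1) → ℂ) ∈ Hyp w a} := by
  by_cases hc : c = 0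
  · have e : {y : Fin d → ℂ | (Fin.cons c y : Fin (d + 1) → ℂ) ∈ Hyp w a} = ∅ := by
      rw [Set.eq_empty_iff_forall_notMem]
      rintro y ⟨h1, _⟩
      exact h1 0 (by rw [Fin.cons_zero, hc])
    rw [e]
    exact cempty
  · have e : {y : Fin d → ℂ | (Fin.cons c y : Fin (d + 1) → ℂ) ∈ Hyp w a} =
        Hyp (slw w) (sla w a c) := by
      ext y
      have h1 : (Fin.cons c y : Fin (d + 1) → ℂ) ∈ TT (d + 1) ↔ y ∈ TT d := by
        constructor
        · intro h i
          have := h i.succ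
          rwa [Fin.cons_succ] at this
        · intro h i
          refine Fin.cases ?_ (fun j => ?_) i
          · rw [Fin.cons_zero]; exact hc
          · rw [Fin.cons_succ]; exact h j
      have h2 : sm w a (Fin.cons c y : Fin (d + 1) → ℂ) = sm (slw w) (sla w a c) y := by
        unfold sm mn slw sla
        refine Finset.sum_congr rfl fun v _ => ?_
        rw [Fin.prod_univ_succ]
        simp only [Fin.cons_zero, Fin.cons_succ]
        ring
      show ((Fin.cons c y : Fin (d + 1) → ℂ) ∈ TT (d + 1) ∧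
        sm w a (Fin.cons c y : Fin (d + 1) → ℂ) = 0) ↔ (y ∈ TT d ∧ _)
      rw [h1, h2]
    rw [e]
    exact cHyp _ _

end KFUBAux

open KFUBAux in
theorem stmt_KFUB : Stmt_KFUB := by
  classical
  intro E κ _ d w a z hd hfin hval
  obtain ⟨μ, hμ⟩ : ∃ μ : MotivicMeasure (Polynomial ℤ), μ = E.toMotivicMeasure := ⟨_, rfl⟩
  obtain ⟨F, hF⟩ : ∃ F : Finset ℂ, F = hfin.toFinset.image (fun x => x 0) := ⟨_, rfl⟩
  have memF : ∀ c, c ∈ F ↔ ∃ x ∈ Cr w a, x 0 = c := by
    intro c
    rw [hF, Finset.mem_image]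
    constructor
    · rintro ⟨x, hx, h⟩
      exact ⟨x, hfin.mem_toFinset.1 hx, h⟩
    · rintro ⟨x, hx, h⟩
      exact ⟨x, hfin.mem_toFinset.2 hx, h⟩
  have h0F : (0 : ℂ) ∉ F := by
    intro h
    obtain ⟨x, hx, h1⟩ := (memF 0).1 h
    exact hx.1 0 h1
  have hNc : ∀ c, c ∉ F → {y | (Fin.cons c y : Fin (d + 1) → ℂ) ∈ Cr w a} = ∅ := by
    intro c hc
    rw [Set.eq_empty_iff_forall_notMem]
    intro y hy
    exact hc ((memF c).2 ⟨_, hy, fc0 c y⟩)
  -- the generic value
  obtain ⟨c₀, hc₀⟩ : ∃ c₀ : ℂ, c₀ ∉ insert 0 F := Infinite.exists_notMem_finset _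
  rw [Finset.mem_insert, not_or] at hc₀
  obtain ⟨k, hk⟩ : ∃ k : ℤ, k = (E.val {y | (Fin.cons c₀ y : Fin (d + 1) → ℂ) ∈ Hyp w a}).eval 1 :=
    ⟨_, rfl⟩
  have hk1 : ((k : ℤ) : ℚ) = (-1) ^ (d - 1) * z := by
    rw [hk, hval c₀ hc₀.1, hNc c₀ hc₀.2, Set.ncard_empty]
    push_cast
    ring
  have hkc : ∀ c, c ≠ 0 → c ∉ F →
      (E.val {y | (Fin.cons c y : Fin (d + 1) → ℂ) ∈ Hyp w a}).eval 1 = k := by
    intro c h1 h2
    have h3 := hval c h1
    rw [hNc c h2, Set.ncard_empty] at h3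
    have h4 : (((E.val {y | (Fin.cons c y : Fin (d + 1) → ℂ) ∈ Hyp w a}).eval 1 : ℤ) : ℚ) = k := by
      rw [h3, hk1]
      push_cast
      ring
    exact_mod_cast h4
  -- Fubini
  obtain ⟨t, ht⟩ : ∃ t : Set (Unit → ℂ), t = Set.univ ∩ {x | x () ∉ insert 0 F} := ⟨_, rfl⟩
  have hct : Constructible t := by
    rw [ht]
    exact cuniv.inter (cnotin () _)
  have hcs : Constructible (Hyp w a ∩ {x | x 0 ∉ F}) := (cHyp w a).inter (cnotin 0 F)
  have hfub := E.fubini (Hyp w a ∩ {x | x 0 ∉ F}) t (fun _ => X 0) k hcs hct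
    (by
      rintro x ⟨h1, h2⟩
      rw [ht]
      refine ⟨trivial, ?_⟩
      show eval x (X 0 : MvPolynomial (Fin (d + 1)) ℂ) ∉ insert 0 F
      rw [eval_X, Finset.mem_insert, not_or]
      exact ⟨h1.1 0, h2⟩)
    (by
      intro y hy
      rw [ht] at hy
      have hy2 : y () ∉ insert 0 F := hy.2
      rw [Finset.mem_insert, not_or] at hy2
      have e : {x : Fin (d + 1) → ℂ | x ∈ Hyp w a ∩ {x | x 0 ∉ F} ∧
          (fun _ : Unit => eval x (X 0 : MvPolynomial (Fin (d + 1)) ℂ)) = y} =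
          Hyp w a ∩ {x | x 0 = y ()} := by
        ext x
        constructor
        · rintro ⟨⟨h1, _⟩, h3⟩
          refine ⟨h1, ?_⟩
          have h4 := congrFun h3 ()
          simp only [eval_X] at h4
          exact h4
        · rintro ⟨h1, h2⟩
          have h3 : x 0 = y () := h2
          refine ⟨⟨h1, ?_⟩, ?_⟩
          · show x 0 ∉ F
            rw [h3]
            exact hy2.2
          · funext u
            simp only [eval_X]
            exact h3
      rw [e]
      have h1 := vfib E.toMotivicMeasure (Hyp w a) (cHyp w a) (cslice w a) (y ())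
      have h2 : E.val (Hyp w a ∩ {x | x 0 = y ()}) =
          E.val {z : Fin d → ℂ | (Fin.cons (y ()) z : Fin (d + 1) → ℂ) ∈ Hyp w a} := h1
      rw [h2]
      exact hkc _ hy2.1 hy2.2)
  have htv : (E.val t).eval 1 = -(F.card : ℤ) := by
    have h1 := vsplit E.toMotivicMeasure () (Set.univ : Set (Unit → ℂ)) cuniv (insert 0 F)
    have h2 : E.val (Set.univ : Set (Unit → ℂ)) = E.val t +
        ∑ c ∈ insert 0 F, E.val ((Set.univ : Set (Unit → ℂ)) ∩ {x | x () = c}) := by
      rw [ht]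
      exact h1
    have h3 : ∀ c, E.val ((Set.univ : Set (Unit → ℂ)) ∩ {x | x () = c}) = 1 := by
      intro c
      rw [Set.univ_inter]
      exact vpoint E.toMotivicMeasure c
    rw [Finset.sum_congr rfl (fun c _ => h3 c), E.line, Finset.sum_const,
      Finset.card_insert_of_notMem h0F] at h2
    have h4 := congrArg (Polynomial.eval 1) h2
    rw [Polynomial.eval_X, Polynomial.eval_add] at h4
    simp only [nsmul_eq_mul, mul_one, Polynomial.eval_natCast] at h4
    push_cast at h4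
    linarith
  have hsum := vsplit E.toMotivicMeasure (0 : Fin (d + 1)) (Hyp w a) (cHyp w a) F
  have hsum2 : E.val (Hyp w a) = E.val (Hyp w a ∩ {x | x 0 ∉ F}) +
      ∑ c ∈ F, E.val {y : Fin d → ℂ | (Fin.cons c y : Fin (d + 1) → ℂ) ∈ Hyp w a} := by
    have h1 : E.val (Hyp w a) = E.val (Hyp w a ∩ {x | x 0 ∉ F}) +
      ∑ c ∈ F, E.val (Hyp w a ∩ {x | x 0 = c}) := hsum
    rw [h1]
    congr 1
    refine Finset.sum_congr rfl fun c _ => ?_
    exact vfib E.toMotivicMeasure (Hyp w a) (cHyp w a) (cslice w a) c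
  have hmain : (((E.val (Hyp w a)).eval 1 : ℤ) : ℚ) = k * (-(F.card : ℚ)) +
      ∑ c ∈ F, (((E.val {y : Fin d → ℂ |
        (Fin.cons c y : Fin (d + 1) → ℂ) ∈ Hyp w a}).eval 1 : ℤ) : ℚ) := by
    rw [hsum2, Polynomial.eval_add, Polynomial.eval_finsetSum, hfub, htv]
    push_cast
    rfl
  -- the number of critical points
  have hcr : ((Cr w a).ncard : ℚ) =
      ∑ c ∈ F, ({y | (Fin.cons c y : Fin (d + 1) → ℂ) ∈ Cr w a}.ncard : ℚ) := by
    have h1 : (Cr w a).ncard =
        ∑ c ∈ F, {y | (Fin.cons c y : Fin (d + 1) → ℂ) ∈ Cr w a}.ncard := by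
      rw [Set.ncard_eq_toFinset_card _ hfin,
        Finset.card_eq_sum_card_image (fun x : Fin (d + 1) → ℂ => x 0) hfin.toFinset, ← hF]
      refine Finset.sum_congr rfl fun c _ => ?_
      rw [← Set.ncard_coe_finset]
      symm
      refine Set.ncard_congr (fun y _ => (Fin.cons c y : Fin (d + 1) → ℂ)) ?_ ?_ ?_
      · intro y hy
        rw [Finset.mem_coe, Finset.mem_filter, hfin.mem_toFinset]
        exact ⟨hy, fc0 c y⟩
      · intro y y' _ _ h
        funext j
        have h1 := congrFun h j.succ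
        simp only [fcs] at h1
        exact h1
      · intro x hx
        rw [Finset.mem_coe, Finset.mem_filter, hfin.mem_toFinset] at hx
        have h2 : (Fin.cons c (fun j : Fin d => x j.succ) : Fin (d + 1) → ℂ) = x := by
          rw [← hx.2]
          exact Fin.cons_self_tail x
        refine ⟨fun j : Fin d => x j.succ, ?_, h2⟩
        show (Fin.cons c (fun j : Fin d => x j.succ) : Fin (d + 1) → ℂ) ∈ Cr w a
        rw [h2]
        exact hx.1
    rw [h1]
    push_cast
    rfl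
  have hne0 : ∀ c ∈ F, c ≠ 0 := fun c hc h => h0F (h ▸ hc)
  rw [hmain, Finset.sum_congr rfl (fun c hc => hval c (hne0 c hc)), hcr, hk1, ← Finset.mul_sum,
    Finset.sum_sub_distrib, Finset.sum_const, nsmul_eq_mul]
  obtain ⟨e, rfl⟩ : ∃ e, d = e + 1 := ⟨d - 1, by omega⟩
  rw [Nat.add_sub_cancel, pow_succ]
  ring

end Pool.Agent.Mono.NP
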