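import Pool.Agent.Work.Monodromy.Interface12K
import Mathlib.FieldTheory.IsAlgClosed.Classification
import Mathlib.SetTheory.Cardinal.Subfield

/-! KG: generic numbers over a countable set. -/

set_option autoImplicit false

namespace Pool.Agent.Mono.NP

open Cardinal

namespace KGAux

/-- algebraically independent numbers over a countable subfield -/
theorem exists_indep (κ : Type) [Fintype κ] (K : Subfield ℂ) (hK : #K ≤ ℵ₀) :
    ∃ g : κ → ℂ, AlgebraicIndependent K g := by
  classical
  obtain ⟨t, ht⟩ := exists_isTranscendenceBasis K ℂ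
  have h1 : ℵ₀ < #ℂ := by
    rw [Cardinal.mk_complex]
    exact Cardinal.aleph0_lt_continuum
  have h2 : #ℂ = #t :=
    IsAlgClosed.cardinal_eq_cardinal_transcendence_basis_of_aleph0_lt' _ ht hK h1
  have h3 : ℵ₀ < #t := h2 ▸ h1
  haveI : Infinite t := Cardinal.aleph0_le_mk_iff.mp h3.le
  obtain ⟨f⟩ : Nonempty (κ ↪ t) := by
    obtain ⟨n, ⟨e⟩⟩ : ∃ n : ℕ, Nonempty (κ ≃ Fin n) := ⟨Fintype.card κ, ⟨Fintype.equivFin κ⟩⟩
    exact ⟨e.toEmbedding.trans (Fin.valEmbedding.trans (Infinite.natEmbedding t))⟩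
  exact ⟨fun v => (f v : ℂ), ht.1.comp f f.injective⟩

/-- affine changes of algebraically independent elements -/
theorem affine {κ : Type} (K : Subfield ℂ) (g : κ → ℂ) (hg : AlgebraicIndependent K g)
    (c e : κ → K) (he : ∀ v, e v ≠ 0) :
    AlgebraicIndependent K fun v => (c v : ℂ) + (e v : ℂ) * g v := by
  classical
  let φ : MvPolynomial κ K →ₐ[K] MvPolynomial κ K :=
    MvPolynomial.aeval fun v => MvPolynomial.C (c v) + MvPolynomial.C (e v) * MvPolynomial.X v
  let ψ : MvPolynomial κ K →ₐ[K] MvPolynomial κ K :=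
    MvPolynomial.aeval fun v => MvPolynomial.C (e v)⁻¹ *
      (MvPolynomial.X v - MvPolynomial.C (c v))
  have h1 : ψ.comp φ = AlgHom.id K _ := by
    apply MvPolynomial.algHom_ext
    intro v
    simp only [φ, ψ, AlgHom.comp_apply, MvPolynomial.aeval_X, map_add, map_mul,
      MvPolynomial.algHom_C, AlgHom.id_apply, MvPolynomial.algebraMap_eq]
    rw [← mul_assoc, ← MvPolynomial.C_mul, mul_inv_cancel₀ (he v), MvPolynomial.C_1]
    ring
  have h2 : Function.Injective φ := by
    intro p q h
    have := congrArg ψ h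
    rw [← AlgHom.comp_apply, ← AlgHom.comp_apply, h1] at this
    exact this
  have h3 : (MvPolynomial.aeval fun v => (c v : ℂ) + (e v : ℂ) * g v : MvPolynomial κ K →ₐ[K] ℂ)
      = (MvPolynomial.aeval g).comp φ := by
    apply MvPolynomial.algHom_ext
    intro v
    simp only [φ, AlgHom.comp_apply, MvPolynomial.aeval_X, map_add, map_mul,
      MvPolynomial.algHom_C]
    rfl
  change Function.Injective (MvPolynomial.aeval fun v => (c v : ℂ) + (e v : ℂ) * g v :
    MvPolynomial κ K →ₐ[K] ℂ)
  rw [h3]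
  have hg' : Function.Injective (MvPolynomial.aeval g : MvPolynomial κ K →ₐ[K] ℂ) := hg
  exact hg'.comp h2

end KGAux

theorem stmt_KG : Stmt_KG := by
  classical
  intro κ _ s hs
  let K : Subfield ℂ := Subfield.closure s
  have hK : #K ≤ ℵ₀ := by
    refine (Subfield.cardinalMk_closure_le_max s).trans (max_le ?_ le_rfl)
    exact hs.le_aleph0
  have hsK : ∀ z ∈ s, z ∈ K := fun z hz => Subfield.subset_closure hz
  obtain ⟨g, hg⟩ := KGAux.exists_indep κ K hK
  refine ⟨g, ?_, ?_⟩
  · intro c e hce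
    have h1 := KGAux.affine K g hg (fun v => ⟨c v, hsK _ (hce v).1⟩)
      (fun v => ⟨e v, hsK _ (hce v).2.1⟩) (fun v h => (hce v).2.2 (congrArg Subtype.val h))
    exact h1.restrictScalars (algebraMap ℚ K).injective
  · rintro c hc ⟨u, hu⟩ h0
    have h1 : LinearIndependent K g := hg.linearIndependent
    rw [Fintype.linearIndependent_iff] at h1
    have h2 := h1 (fun v => ⟨c v, hsK _ (hc v)⟩) (by
      rw [← h0]
      exact Finset.sum_congr rfl fun v _ => rfl) u
    exact hu (congrArg Subtype.val h2)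

end Pool.Agent.Mono.NP
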