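import Pool.Agent.Work.Monodromy.Interface12K

/-!
# Block KIFT: a nondegenerate solution is stable (helper51)
-/

set_option autoImplicit false

namespace Pool.Agent.Mono.NP

open MvPolynomial Filter Topology

namespace KIFTAux

variable {κ : Type} [Fintype κ] {d : ℕ}

/-- the coefficients of the equations -/
def qq (w : κ → Fin (d + 1) → ℕ) (j : Fin (d + 1)) (v : κ) : ℂ :=
  Fin.cases (1 : ℂ) (fun i : Fin d => (w v i.succ : ℂ)) j

/-- the system -/
def Gmap (w : κ → Fin (d + 1) → ℕ) (c : κ → ℂ) (x : Fin (d + 1) → ℂ) (j : Fin (d + 1)) : ℂ :=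
  ∑ v, c v * qq w j v * ∏ i, x i ^ w v i

theorem Gmap_zero (w : κ → Fin (d + 1) → ℕ) (c : κ → ℂ) (x : Fin (d + 1) → ℂ) :
    Gmap w c x 0 = sm w c x := by
  unfold Gmap sm mn qq
  refine Finset.sum_congr rfl fun v _ => ?_
  simp

theorem Gmap_succ (w : κ → Fin (d + 1) → ℕ) (c : κ → ℂ) (x : Fin (d + 1) → ℂ) (i : Fin d) :
    Gmap w c x i.succ = sth w c x i.succ := by
  unfold Gmap sth mn qq
  refine Finset.sum_congr rfl fun v _ => ?_
  simp

theorem mem_Cr (w : κ → Fin (d + 1) → ℕ) (c : κ → ℂ) (x : Fin (d + 1) → ℂ) :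
    x ∈ Cr w c ↔ x ∈ TT (d + 1) ∧ Gmap w c x = 0 := by
  show (x ∈ TT (d + 1) ∧ sm w c x = 0 ∧ ∀ i : Fin d, sth w c x i.succ = 0) ↔ _
  refine and_congr_right fun _ => ?_
  constructor
  · rintro ⟨h1, h2⟩
    funext j
    refine Fin.cases ?_ (fun i => ?_) j
    · rw [Gmap_zero]; exact h1
    · rw [Gmap_succ]; exact h2 i
  · intro h
    refine ⟨?_, fun i => ?_⟩
    · rw [← Gmap_zero, h]; rfl
    · rw [← Gmap_succ, h]; rfl

/-- the map of the implicit function theorem -/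
def Fmap (w : κ → Fin (d + 1) → ℕ) (p : (κ → ℂ) × (Fin (d + 1) → ℂ)) :
    (κ → ℂ) × (Fin (d + 1) → ℂ) := (p.1, Gmap w p.1 p.2)

theorem Fmap_contDiff (w : κ → Fin (d + 1) → ℕ) : ContDiff ℂ 1 (Fmap w) := by
  unfold Fmap
  refine contDiff_fst.prodMk ?_
  rw [contDiff_pi]
  intro j
  unfold Gmap
  refine ContDiff.sum fun v _ => ?_
  refine ContDiff.mul (ContDiff.mul ?_ contDiff_const) ?_
  · exact (contDiff_apply ℂ ℂ v).comp contDiff_fst
  · refine contDiff_prod fun i _ => ContDiff.pow ?_ _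
    exact (contDiff_apply ℂ ℂ i).comp contDiff_snd

/-- the derivative in the direction of the torus -/
theorem deriv_dir (w : κ → Fin (d + 1) → ℕ) (c : κ → ℂ) (y ξ : Fin (d + 1) → ℂ)
    (F' : (κ → ℂ) × (Fin (d + 1) → ℂ) →L[ℂ] (κ → ℂ) × (Fin (d + 1) → ℂ))
    (hF : HasFDerivAt (Fmap w) F' (c, y)) (j : Fin (d + 1)) :
    (F' (0, fun i => y i * ξ i)).2 j =
      ∑ v, c v * qq w j v * mn w y v * ∑ i, ξ i * (w v i : ℂ) := by
  have hγ : HasDerivAt (fun t : ℂ => ((c, fun i => y i * Complex.exp (t * ξ i)) :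
      (κ → ℂ) × (Fin (d + 1) → ℂ))) (0, fun i => y i * ξ i) 0 := by
    refine HasDerivAt.prodMk (hasDerivAt_const _ _) ?_
    rw [hasDerivAt_pi]
    intro i
    have h1 : HasDerivAt (fun t : ℂ => Complex.exp (t * ξ i)) (Complex.exp (0 * ξ i) * (1 * ξ i)) 0 :=
      ((hasDerivAt_id (0 : ℂ)).mul_const (ξ i)).cexp
    have h2 := h1.const_mul (y i)
    simpa using h2
  have h0 : ((c, fun i => y i * Complex.exp (0 * ξ i)) : (κ → ℂ) × (Fin (d + 1) → ℂ)) = (c, y) := by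
    simp
  rw [← h0] at hF
  have h1 := hF.comp_hasDerivAt (0 : ℂ) hγ
  have h2 : HasDerivAt (fun t : ℂ => Gmap w c (fun i => y i * Complex.exp (t * ξ i)) j)
      ((F' (0, fun i => y i * ξ i)).2 j) 0 := by
    have h3 : HasDerivAt (Prod.snd ∘ Fmap w ∘ fun t : ℂ => ((c, fun i => y i *
        Complex.exp (t * ξ i)) : (κ → ℂ) × (Fin (d + 1) → ℂ)))
        ((F' (0, fun i => y i * ξ i)).2) 0 := hasFDerivAt_snd.comp_hasDerivAt (0 : ℂ) h1
    exact (hasDerivAt_pi.1 h3) j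
  have h3 : HasDerivAt (fun t : ℂ => Gmap w c (fun i => y i * Complex.exp (t * ξ i)) j)
      (∑ v, c v * qq w j v * mn w y v * ∑ i, ξ i * (w v i : ℂ)) 0 := by
    have e : (fun t : ℂ => Gmap w c (fun i => y i * Complex.exp (t * ξ i)) j) =
        fun t : ℂ => ∑ v, c v * qq w j v * mn w y v *
          Complex.exp (t * ∑ i, ξ i * (w v i : ℂ)) := by
      funext t
      unfold Gmap mn
      refine Finset.sum_congr rfl fun v _ => ?_
      have h4 : ∏ i, (y i * Complex.exp (t * ξ i)) ^ w v i =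
          (∏ i, y i ^ w v i) * Complex.exp (t * ∑ i, ξ i * (w v i : ℂ)) := by
        rw [Finset.mul_sum, Complex.exp_sum, ← Finset.prod_mul_distrib]
        refine Finset.prod_congr rfl fun i _ => ?_
        rw [mul_pow, ← Complex.exp_nat_mul]
        congr 2
        ring
      rw [h4]
      ring
    rw [e]
    refine HasDerivAt.fun_sum fun v _ => ?_
    have h5 : HasDerivAt (fun t : ℂ => Complex.exp (t * ∑ i, ξ i * (w v i : ℂ)))
        (Complex.exp (0 * ∑ i, ξ i * (w v i : ℂ)) * (1 * ∑ i, ξ i * (w v i : ℂ))) 0 :=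
      ((hasDerivAt_id (0 : ℂ)).mul_const _).cexp
    have h6 := h5.const_mul (c v * qq w j v * mn w y v)
    simpa using h6
  exact h2.unique h3

end KIFTAux

open KIFTAux in
theorem stmt_KIFT : Stmt_KIFT := by
  classical
  intro κ _ d w c c₀ y hc hy hND B₀ hB₀
  rw [mem_Cr] at hy
  obtain ⟨hyT, hyG⟩ := hy
  have hst : HasStrictFDerivAt (Fmap w) (fderiv ℂ (Fmap w) (c₀, y)) (c₀, y) :=
    (Fmap_contDiff w).contDiffAt.hasStrictFDerivAt one_ne_zero
  obtain ⟨F', hF'⟩ : ∃ F', F' = fderiv ℂ (Fmap w) (c₀, y) := ⟨_, rfl⟩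
  rw [← hF'] at hst
  -- injectivity
  have hinj : Function.Injective F' := by
    rw [injective_iff_map_eq_zero]
    rintro ⟨δc, δx⟩ h
    have hfst : HasFDerivAt (fun p : (κ → ℂ) × (Fin (d + 1) → ℂ) => (Fmap w p).1)
        ((ContinuousLinearMap.fst ℂ (κ → ℂ) (Fin (d + 1) → ℂ)).comp F') (c₀, y) :=
      hasFDerivAt_fst.comp (c₀, y) hst.hasFDerivAt
    have hfst2 : HasFDerivAt (fun p : (κ → ℂ) × (Fin (d + 1) → ℂ) => (Fmap w p).1)
        (ContinuousLinearMap.fst ℂ (κ → ℂ) (Fin (d + 1) → ℂ)) (c₀, y) := hasFDerivAt_fst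
    have h1 := congrArg (fun L => L (δc, δx)) (hfst.unique hfst2)
    have h2 : (F' (δc, δx)).1 = δc := h1
    rw [h] at h2
    have h3 : δc = 0 := h2.symm
    rw [h3] at h
    have h4 : δx = fun i => y i * (δx i / y i) := by
      funext i
      have := hyT i
      field_simp
    have h5 := deriv_dir w c₀ y (fun i => δx i / y i) F' hst.hasFDerivAt
    rw [← h4, h] at h5
    have h6 : (fun i => δx i / y i) = 0 := by
      refine hND _ ?_ ?_
      · have h7 := h5 0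
        have h8 : ∑ j, δx j / y j * sth w c₀ y j =
            ∑ v, c₀ v * qq w 0 v * mn w y v * ∑ i, δx i / y i * (w v i : ℂ) := by
          unfold sth
          simp only [Finset.mul_sum]
          rw [Finset.sum_comm]
          refine Finset.sum_congr rfl fun v _ => Finset.sum_congr rfl fun i _ => ?_
          unfold qq
          simp only [Fin.cases_zero]
          ring
        rw [h8, ← h7]
        rfl
      · intro l
        have h7 := h5 l.succ
        have h8 : ∑ j, δx j / y j * shs w c₀ y l.succ j =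
            ∑ v, c₀ v * qq w l.succ v * mn w y v * ∑ i, δx i / y i * (w v i : ℂ) := by
          unfold shs
          simp only [Finset.mul_sum]
          rw [Finset.sum_comm]
          refine Finset.sum_congr rfl fun v _ => Finset.sum_congr rfl fun i _ => ?_
          unfold qq
          simp only [Fin.cases_succ]
          ring
        rw [h8, ← h7]
        rfl
    have h9 : δx = 0 := by
      rw [h4]
      funext i
      have := congrFun h6 i
      simp only [Pi.zero_apply] at this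
      rw [this]
      simp
    rw [h3, h9]
    rfl
  have hsurj : Function.Surjective F' := by
    have h1 : Function.Injective (F' : ((κ → ℂ) × (Fin (d + 1) → ℂ)) →ₗ[ℂ]
      ((κ → ℂ) × (Fin (d + 1) → ℂ))) := hinj
    have h2 := LinearMap.injective_iff_surjective.1 h1
    exact h2
  obtain ⟨e', he'⟩ : ∃ e' : ((κ → ℂ) × (Fin (d + 1) → ℂ)) ≃L[ℂ] ((κ → ℂ) × (Fin (d + 1) → ℂ)),
      (e' : _ →L[ℂ] _) = F' :=
    ⟨ContinuousLinearEquiv.ofBijective F' (LinearMap.ker_eq_bot.2 hinj)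
      (LinearMap.range_eq_top.2 hsurj), ContinuousLinearEquiv.coe_ofBijective _ _ _⟩
  rw [← he'] at hst
  obtain ⟨Φ, hΦ⟩ : ∃ Φ, Φ = hst.toOpenPartialHomeomorph (Fmap w) := ⟨_, rfl⟩
  have hΦc : ∀ p, Φ p = Fmap w p := by
    intro p
    rw [hΦ]
    rfl
  have hsrc : (c₀, y) ∈ Φ.source := by
    rw [hΦ]
    exact hst.mem_toOpenPartialHomeomorph_source
  have hFy : Fmap w (c₀, y) = (c₀, 0) := by
    unfold Fmap
    rw [hyG]
  have htgt : ((c₀, 0) : (κ → ℂ) × (Fin (d + 1) → ℂ)) ∈ Φ.target := by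
    rw [← hFy, ← hΦc]
    exact Φ.map_source hsrc
  have hsymm : Φ.symm (c₀, 0) = (c₀, y) := by
    rw [← hFy, ← hΦc]
    exact Φ.left_inv hsrc
  -- the neighbourhood
  have hnb : Φ.source ∈ 𝓝 ((c₀, y) : (κ → ℂ) × (Fin (d + 1) → ℂ)) := Φ.open_source.mem_nhds hsrc
  rw [nhds_prod_eq, mem_prod_iff] at hnb
  obtain ⟨U, hU, V, hV, hUV⟩ := hnb
  have hTo : TT (d + 1) ∈ 𝓝 y := by
    have h1 : TT (d + 1) = ⋂ i : Fin (d + 1), {x : Fin (d + 1) → ℂ | x i ≠ 0} := by
      ext x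
      rw [Set.mem_iInter]
      exact Iff.rfl
    rw [h1]
    refine (isOpen_iInter_of_finite fun i => ?_).mem_nhds ?_
    · exact isOpen_ne_fun (continuous_apply i) continuous_const
    · rw [Set.mem_iInter]
      exact hyT
  refine ⟨B₀ ∩ (V ∩ TT (d + 1)), inter_mem hB₀ (inter_mem hV hTo), Set.inter_subset_left, ?_⟩
  -- the solution
  have ht1 : Tendsto (fun n => ((c n, 0) : (κ → ℂ) × (Fin (d + 1) → ℂ))) atTop (𝓝 (c₀, 0)) :=
    hc.prodMk_nhds tendsto_const_nhds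
  have ht2 : Tendsto (fun n => Φ.symm (c n, 0)) atTop (𝓝 (c₀, y)) := by
    have h1 := (Φ.continuousAt_symm htgt).tendsto.comp ht1
    rw [hsymm] at h1
    exact h1
  have ht3 : Tendsto (fun n => (Φ.symm (c n, 0)).2) atTop (𝓝 y) :=
    (continuous_snd.tendsto _).comp ht2
  have hev1 : ∀ᶠ n in atTop, ((c n, 0) : (κ → ℂ) × (Fin (d + 1) → ℂ)) ∈ Φ.target :=
    ht1.eventually (Φ.open_target.mem_nhds htgt)
  have hev2 : ∀ᶠ n in atTop, (Φ.symm (c n, 0)).2 ∈ B₀ ∩ (V ∩ TT (d + 1)) :=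
    ht3.eventually (inter_mem hB₀ (inter_mem hV hTo))
  have hev3 : ∀ᶠ n in atTop, c n ∈ U := hc.eventually hU
  filter_upwards [hev1, hev2, hev3] with n h1 h2 h3
  rw [Set.ncard_eq_one]
  have h4 : Fmap w (Φ.symm (c n, 0)) = (c n, 0) := by
    rw [← hΦc]
    exact Φ.right_inv h1
  have h5 : (Φ.symm (c n, 0)).1 = c n := congrArg Prod.fst h4
  have h6 : Gmap w (c n) (Φ.symm (c n, 0)).2 = 0 := by
    have h7 : Gmap w (Φ.symm (c n, 0)).1 (Φ.symm (c n, 0)).2 = 0 := congrArg Prod.snd h4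
    rw [h5] at h7
    exact h7
  refine ⟨(Φ.symm (c n, 0)).2, ?_⟩
  ext x
  constructor
  · rintro ⟨h7, h8⟩
    rw [mem_Cr] at h8
    have h9 : ((c n, x) : (κ → ℂ) × (Fin (d + 1) → ℂ)) ∈ Φ.source := hUV ⟨h3, h7.2.1⟩
    have h10 : Φ (c n, x) = (c n, 0) := by
      rw [hΦc]
      unfold Fmap
      rw [h8.2]
    have h11 := Φ.left_inv h9
    rw [h10] at h11
    show x = (Φ.symm (c n, 0)).2
    rw [h11]
  · intro h7
    have h8 : x = (Φ.symm (c n, 0)).2 := h7
    rw [h8]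
    exact ⟨h2, (mem_Cr _ _ _).2 ⟨h2.2.2, h6⟩⟩

end Pool.Agent.Mono.NP
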