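import Pool.Agent.Work.Monodromy.Interface12K

/-!
# Phase 12, part K, block KISO: the solutions are isolated (helper71)
-/

set_option autoImplicit false

namespace Pool.Agent.Mono.NP

open MvPolynomial Filter Topology

namespace KISOAux

/-- first order expansion of the exponential -/
theorem lim1 {α : Type*} {l : Filter α} {s L : α → ℂ} {L₀ : ℂ} (hs : Tendsto s l (𝓝 0))
    (hs0 : ∀ᶠ n in l, s n ≠ 0) (hL : Tendsto L l (𝓝 L₀)) :
    Tendsto (fun n => (Complex.exp (s n * L n) - 1) / s n) l (𝓝 L₀) := by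
  have hg : ContinuousAt (dslope Complex.exp 0) 0 := by
    rw [continuousAt_dslope_same]
    exact Complex.differentiableAt_exp
  have hsL : Tendsto (fun n => s n * L n) l (𝓝 0) := by
    have := hs.mul hL
    simpa using this
  have h1 : Tendsto (fun n => L n * dslope Complex.exp 0 (s n * L n)) l (𝓝 (L₀ * 1)) := by
    refine hL.mul ?_
    have h2 := hg.tendsto.comp hsL
    rw [dslope_same, Complex.deriv_exp, Complex.exp_zero] at h2
    exact h2
  rw [mul_one] at h1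
  refine h1.congr' ?_
  filter_upwards [hs0] with n hn
  have h3 := sub_smul_dslope Complex.exp 0 (s n * L n)
  rw [sub_zero, smul_eq_mul, Complex.exp_zero] at h3
  rw [← h3]
  field_simp

/-- second order expansion of the exponential -/
theorem lim2 {α : Type*} {l : Filter α} {s L : α → ℂ} {L₀ : ℂ} (hs : Tendsto s l (𝓝 0))
    (hs0 : ∀ᶠ n in l, s n ≠ 0) (hL : Tendsto L l (𝓝 L₀)) :
    Tendsto (fun n => (Complex.exp (s n * L n) - 1 - s n * L n) / s n ^ 2) l
      (𝓝 (L₀ ^ 2 / 2)) := by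
  have hsL : Tendsto (fun n => s n * L n) l (𝓝 0) := by
    have := hs.mul hL
    simpa using this
  have hb : Tendsto (fun n => (Complex.exp (s n * L n) - 1 - s n * L n) / s n ^ 2 - L n ^ 2 / 2) l
      (𝓝 0) := by
    have hmaj : Tendsto (fun n => ‖s n‖ * ‖L n‖ ^ 3) l (𝓝 0) := by
      have h1 := hs.norm.mul (hL.norm.pow 3)
      simpa using h1
    refine squeeze_zero_norm' ?_ hmaj
    have h1 : ∀ᶠ n in l, ‖s n * L n‖ ≤ 1 := by
      have h2 := hsL.norm
      rw [norm_zero] at h2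
      exact h2.eventually (eventually_le_nhds zero_lt_one) 
    filter_upwards [hs0, h1] with n hn hn1
    have h3 := Complex.exp_bound hn1 (n := 3) (by norm_num)
    have h4 : ∑ m ∈ Finset.range 3, (s n * L n) ^ m / (m.factorial : ℂ) =
        1 + s n * L n + (s n * L n) ^ 2 / 2 := by
      simp [Finset.sum_range_succ, Nat.factorial]
    rw [h4] at h3
    have h5 : (Complex.exp (s n * L n) - 1 - s n * L n) / s n ^ 2 - L n ^ 2 / 2 =
        (Complex.exp (s n * L n) - (1 + s n * L n + (s n * L n) ^ 2 / 2)) / s n ^ 2 := by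
      field_simp
      ring
    rw [h5, norm_div, norm_pow]
    have hs' : 0 < ‖s n‖ := norm_pos_iff.2 hn
    rw [div_le_iff₀ (by positivity)]
    refine h3.trans ?_
    rw [norm_mul]
    have h6 : ((3 : ℕ).succ : ℝ) * (((3 : ℕ).factorial : ℝ) * ((3 : ℕ) : ℝ))⁻¹ ≤ 1 := by
      norm_num [Nat.factorial]
    have h7 : (‖s n‖ * ‖L n‖) ^ 3 * (((3 : ℕ).succ : ℝ) * (((3 : ℕ).factorial : ℝ) * ((3 : ℕ) : ℝ))⁻¹)
        ≤ (‖s n‖ * ‖L n‖) ^ 3 * 1 := by
      apply mul_le_mul_of_nonneg_left h6 (by positivity)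
    refine h7.trans (le_of_eq ?_)
    ring
  have h8 := hb.add ((hL.pow 2).div_const 2)
  simp only [sub_add_cancel, zero_add] at h8
  exact h8

variable {κ : Type} {d : ℕ}

/-- the linear form `w_v · ζ` -/
noncomputable def lf (w : κ → Fin d → ℕ) (v : κ) (ζ : Fin d → ℂ) : ℂ := ∑ i, (w v i : ℂ) * ζ i

theorem continuous_lf (w : κ → Fin d → ℕ) (v : κ) : Continuous (lf w v) := by
  unfold lf
  fun_prop

theorem lf_smul (w : κ → Fin d → ℕ) (v : κ) (c : ℂ) (ζ : Fin d → ℂ) :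
    lf w v (c • ζ) = c * lf w v ζ := by
  unfold lf
  rw [Finset.mul_sum]
  refine Finset.sum_congr rfl fun i _ => ?_
  simp only [Pi.smul_apply, smul_eq_mul]
  ring

theorem mn_exp (w : κ → Fin d → ℕ) (v : κ) (x ζ : Fin d → ℂ) :
    mn w (fun i => x i * Complex.exp (ζ i)) v = mn w x v * Complex.exp (lf w v ζ) := by
  unfold mn lf
  rw [Complex.exp_sum, ← Finset.prod_mul_distrib]
  refine Finset.prod_congr rfl fun i _ => ?_
  rw [mul_pow, ← Complex.exp_nat_mul]

theorem mn_ne_zero (w : κ → Fin d → ℕ) (v : κ) {x : Fin d → ℂ} (hx : x ∈ TT d) :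
    mn w x v ≠ 0 := Finset.prod_ne_zero_iff.2 fun i _ => pow_ne_zero _ (hx i)


section

variable [Fintype κ]

theorem sm_exp (w : κ → Fin d → ℕ) (a : κ → ℂ) (x ζ : Fin d → ℂ) :
    sm w a (fun i => x i * Complex.exp (ζ i)) =
      ∑ v, a v * mn w x v * Complex.exp (lf w v ζ) := by
  unfold sm
  refine Finset.sum_congr rfl fun v _ => ?_
  rw [mn_exp, mul_assoc]

theorem sth_exp (w : κ → Fin d → ℕ) (a : κ → ℂ) (x ζ : Fin d → ℂ) (i : Fin d) :
    sth w a (fun i => x i * Complex.exp (ζ i)) i =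
      ∑ v, a v * (w v i : ℂ) * mn w x v * Complex.exp (lf w v ζ) := by
  unfold sth
  refine Finset.sum_congr rfl fun v _ => ?_
  rw [mn_exp, mul_assoc _ (mn w x v)]

theorem sum_lf (w : κ → Fin d → ℕ) (a : κ → ℂ) (x ζ : Fin d → ℂ) :
    ∑ v, a v * mn w x v * lf w v ζ = ∑ i, ζ i * sth w a x i := by
  unfold lf sth
  simp only [Finset.mul_sum]
  rw [Finset.sum_comm]
  refine Finset.sum_congr rfl fun i _ => Finset.sum_congr rfl fun v _ => ?_
  ring

theorem sum_lf' (w : κ → Fin d → ℕ) (a : κ → ℂ) (x ζ : Fin d → ℂ) (i : Fin d) :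
    ∑ v, a v * (w v i : ℂ) * mn w x v * lf w v ζ = ∑ j, shs w a x i j * ζ j := by
  unfold lf shs
  simp only [Finset.mul_sum, Finset.sum_mul]
  rw [Finset.sum_comm]
  refine Finset.sum_congr rfl fun j _ => Finset.sum_congr rfl fun v _ => ?_
  ring

theorem sum_lf_sq (w : κ → Fin d → ℕ) (a : κ → ℂ) (x ζ : Fin d → ℂ) :
    ∑ v, a v * mn w x v * lf w v ζ ^ 2 = ∑ i, ζ i * ∑ j, shs w a x i j * ζ j := by
  have h : ∀ i, ∑ j, shs w a x i j * ζ j = ∑ v, a v * (w v i : ℂ) * mn w x v * lf w v ζ :=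
    fun i => (sum_lf' w a x ζ i).symm
  simp only [h]
  have h2 : ∀ v, a v * mn w x v * lf w v ζ ^ 2 =
      ∑ i, ζ i * (a v * (w v i : ℂ) * mn w x v * lf w v ζ) := by
    intro v
    rw [pow_two]
    nth_rewrite 1 [lf]
    rw [Finset.sum_mul, Finset.mul_sum]
    refine Finset.sum_congr rfl fun i _ => ?_
    ring
  simp only [h2, Finset.mul_sum]
  rw [Finset.sum_comm]

/-- the kernel of the block -/
theorem block_zero (w : κ → Fin (d + 1) → ℕ) (a : κ → ℂ) (x ζ : Fin (d + 1) → ℂ)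
    (hdet : (Matrix.of fun i j : Fin d => shs w a x i.succ j.succ).det ≠ 0)
    (h0 : ζ 0 = 0) (h : ∀ i : Fin d, ∑ j, shs w a x i.succ j * ζ j = 0) : ζ = 0 := by
  have h1 : Matrix.mulVec (Matrix.of fun i j : Fin d => shs w a x i.succ j.succ)
      (fun j => ζ j.succ) = 0 := by
    funext i
    have h2 := h i
    rw [Fin.sum_univ_succ, h0, mul_zero, zero_add] at h2
    simpa [Matrix.mulVec, dotProduct] using h2
  have h3 := Matrix.eq_zero_of_mulVec_eq_zero hdet h1
  funext j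
  refine Fin.cases h0 (fun i => ?_) j
  exact congrFun h3 i

/-- the limit equations at first order, and at second order at a singular point -/
theorem dir_zero (w : κ → Fin (d + 1) → ℕ) (a : κ → ℂ) (x ζ : Fin (d + 1) → ℂ)
    (hx : x ∈ Cr w a)
    (hdet : (Matrix.of fun i j : Fin d => shs w a x i.succ j.succ).det ≠ 0)
    (hH : x ∈ Nds w a → (Matrix.of (shs w a x)).det ≠ 0)
    (h1 : ∑ i, ζ i * sth w a x i = 0)
    (h2 : ∀ i : Fin d, ∑ j, shs w a x i.succ j * ζ j = 0)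
    (h3 : x ∈ Nds w a → ∑ i, ζ i * ∑ j, shs w a x i j * ζ j = 0) : ζ = 0 := by
  have hth : ∀ i : Fin d, sth w a x i.succ = 0 := hx.2.2
  by_cases hN : sth w a x 0 = 0
  · have hN' : x ∈ Nds w a := ⟨hx.1, hx.2.1, fun i => Fin.cases hN hth i⟩
    have h4 := h3 hN'
    rw [Fin.sum_univ_succ] at h4
    have h5 : ∑ i : Fin d, ζ i.succ * ∑ j, shs w a x i.succ j * ζ j = 0 := by
      refine Finset.sum_eq_zero fun i _ => ?_
      rw [h2 i, mul_zero]
    rw [h5, add_zero] at h4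
    rcases mul_eq_zero.1 h4 with h6 | h6
    · exact block_zero w a x ζ hdet h6 h2
    · have h7 : Matrix.mulVec (Matrix.of (shs w a x)) ζ = 0 := by
        funext i
        have h8 : ∑ j, shs w a x i j * ζ j = 0 := Fin.cases h6 h2 i
        simpa [Matrix.mulVec, dotProduct] using h8
      exact Matrix.eq_zero_of_mulVec_eq_zero (hH hN') h7
  · rw [Fin.sum_univ_succ] at h1
    have h5 : ∑ i : Fin d, ζ i.succ * sth w a x i.succ = 0 := by
      refine Finset.sum_eq_zero fun i _ => ?_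
      rw [hth i, mul_zero]
    rw [h5, add_zero] at h1
    rcases mul_eq_zero.1 h1 with h6 | h6
    · exact block_zero w a x ζ hdet h6 h2
    · exact absurd h6 hN

/-- the expansion: if `x e^{s ζ}` solves the system with coefficients `a` along a filter -/
theorem expandCr {α : Type*} {l : Filter α} [l.NeBot] (w : κ → Fin (d + 1) → ℕ) (a : κ → ℂ)
    (x : Fin (d + 1) → ℂ) (hx : x ∈ Cr w a) (s : α → ℂ) (ζ : α → Fin (d + 1) → ℂ)
    (ζ₀ : Fin (d + 1) → ℂ) (hs : Tendsto s l (𝓝 0)) (hs0 : ∀ᶠ n in l, s n ≠ 0)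
    (hζ : Tendsto ζ l (𝓝 ζ₀))
    (hCr : ∀ᶠ n in l, (fun i => x i * Complex.exp ((s n • ζ n) i)) ∈ Cr w a) :
    (∑ i, ζ₀ i * sth w a x i = 0) ∧ (∀ i : Fin d, ∑ j, shs w a x i.succ j * ζ₀ j = 0) ∧
      (x ∈ Nds w a → ∑ i, ζ₀ i * ∑ j, shs w a x i j * ζ₀ j = 0) := by
  have hL : ∀ v, Tendsto (fun n => lf w v (ζ n)) l (𝓝 (lf w v ζ₀)) := fun v =>
    ((continuous_lf w v).tendsto ζ₀).comp hζ
  refine ⟨?_, fun i => ?_, fun hN => ?_⟩
  · rw [← sum_lf]
    have h1 : Tendsto (fun n => ∑ v, a v * mn w x v *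
        ((Complex.exp (s n * lf w v (ζ n)) - 1) / s n)) l
        (𝓝 (∑ v, a v * mn w x v * lf w v ζ₀)) :=
      tendsto_finsetSum _ fun v _ => (lim1 hs hs0 (hL v)).const_mul _
    refine tendsto_nhds_unique (h1.congr' ?_) tendsto_const_nhds |>.symm ▸ rfl
    filter_upwards [hs0, hCr] with n hn hc
    have h2 : ∑ v, a v * mn w x v * ((Complex.exp (s n * lf w v (ζ n)) - 1) / s n) =
        (∑ v, a v * mn w x v * Complex.exp (lf w v (s n • ζ n)) - ∑ v, a v * mn w x v) / s n := by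
      rw [← Finset.sum_sub_distrib, Finset.sum_div]
      refine Finset.sum_congr rfl fun v _ => ?_
      rw [lf_smul]
      ring
    rw [h2, ← sm_exp, hc.2.1]
    have h3 : ∑ v, a v * mn w x v = 0 := hx.2.1
    rw [h3]
    simp
  · rw [← sum_lf']
    have h1 : Tendsto (fun n => ∑ v, a v * (w v i.succ : ℂ) * mn w x v *
        ((Complex.exp (s n * lf w v (ζ n)) - 1) / s n)) l
        (𝓝 (∑ v, a v * (w v i.succ : ℂ) * mn w x v * lf w v ζ₀)) :=
      tendsto_finsetSum _ fun v _ => (lim1 hs hs0 (hL v)).const_mul _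
    refine tendsto_nhds_unique (h1.congr' ?_) tendsto_const_nhds |>.symm ▸ rfl
    filter_upwards [hs0, hCr] with n hn hc
    have h2 : ∑ v, a v * (w v i.succ : ℂ) * mn w x v *
        ((Complex.exp (s n * lf w v (ζ n)) - 1) / s n) =
        (∑ v, a v * (w v i.succ : ℂ) * mn w x v * Complex.exp (lf w v (s n • ζ n)) -
          ∑ v, a v * (w v i.succ : ℂ) * mn w x v) / s n := by
      rw [← Finset.sum_sub_distrib, Finset.sum_div]
      refine Finset.sum_congr rfl fun v _ => ?_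
      rw [lf_smul]
      ring
    rw [h2, ← sth_exp, hc.2.2 i]
    have h3 : ∑ v, a v * (w v i.succ : ℂ) * mn w x v = 0 := hx.2.2 i
    rw [h3]
    simp
  · rw [← sum_lf_sq]
    have h1 : Tendsto (fun n => ∑ v, a v * mn w x v *
        ((Complex.exp (s n * lf w v (ζ n)) - 1 - s n * lf w v (ζ n)) / s n ^ 2)) l
        (𝓝 (∑ v, a v * mn w x v * (lf w v ζ₀ ^ 2 / 2))) :=
      tendsto_finsetSum _ fun v _ => (lim2 hs hs0 (hL v)).const_mul _
    have h4 : ∑ v, a v * mn w x v * (lf w v ζ₀ ^ 2 / 2) = 0 := by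
      refine tendsto_nhds_unique (h1.congr' ?_) tendsto_const_nhds |>.symm ▸ rfl
      filter_upwards [hs0, hCr] with n hn hc
      have h2 : ∑ v, a v * mn w x v *
          ((Complex.exp (s n * lf w v (ζ n)) - 1 - s n * lf w v (ζ n)) / s n ^ 2) =
          (∑ v, a v * mn w x v * Complex.exp (lf w v (s n • ζ n)) - ∑ v, a v * mn w x v -
            s n * ∑ v, a v * mn w x v * lf w v (ζ n)) / s n ^ 2 := by
        rw [Finset.mul_sum, ← Finset.sum_sub_distrib, ← Finset.sum_sub_distrib, Finset.sum_div]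
        refine Finset.sum_congr rfl fun v _ => ?_
        rw [lf_smul]
        ring
      rw [h2, ← sm_exp, hc.2.1, sum_lf]
      have h3 : ∑ v, a v * mn w x v = 0 := hx.2.1
      have h5 : ∑ i, ζ n i * sth w a x i = 0 := by
        refine Finset.sum_eq_zero fun i _ => ?_
        rw [hN.2.2 i, mul_zero]
      rw [h3, h5]
      simp
    have h6 : ∑ v, a v * mn w x v * (lf w v ζ₀ ^ 2 / 2) =
        (∑ v, a v * mn w x v * lf w v ζ₀ ^ 2) / 2 := by
      rw [Finset.sum_div]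
      refine Finset.sum_congr rfl fun v _ => ?_
      ring
    rw [h6] at h4
    simpa using h4

end

/-- logarithmic coordinates near `x` -/
noncomputable def lg (x y : Fin d → ℂ) (i : Fin d) : ℂ := Complex.log (y i / x i)

theorem tendsto_lg {x : Fin d → ℂ} (hx : x ∈ TT d) : Tendsto (lg x) (𝓝 x) (𝓝 0) := by
  rw [tendsto_pi_nhds]
  intro i
  have h1 : ContinuousAt (fun y : Fin d → ℂ => Complex.log (y i / x i)) x := by
    refine ContinuousAt.clog ?_ ?_
    · exact ((continuous_apply i).div_const _).continuousAt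
    · rw [div_self (hx i)]
      exact Complex.one_mem_slitPlane
  have h2 := h1.tendsto
  rw [div_self (hx i), Complex.log_one] at h2
  exact h2

theorem exp_lg {x y : Fin d → ℂ} (hx : x ∈ TT d) (hy : y ∈ TT d) :
    (fun i => x i * Complex.exp (lg x y i)) = y := by
  funext i
  unfold lg
  rw [Complex.exp_log (div_ne_zero (hy i) (hx i)), mul_div_cancel₀ _ (hx i)]

end KISOAux

open KISOAux

theorem stmt_KISO : Stmt_KISO := by
  intro κ _ d w a x hx hdet hH
  by_contra hcon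
  push Not at hcon
  set S : Set (Fin (d + 1) → ℂ) := {y | y ∈ Cr w a ∧ y ≠ x} with hS
  have hfr : ∃ᶠ y in 𝓝 x, y ∈ S := by
    rw [frequently_iff]
    intro B hB
    obtain ⟨y, hy, h1, h2⟩ := hcon B hB
    exact ⟨y, hy, h1, h2⟩
  have hne : (𝓝 x ⊓ 𝓟 S).NeBot := by
    rwa [frequently_mem_iff_neBot] at hfr
  set U : Ultrafilter (Fin (d + 1) → ℂ) := Ultrafilter.of (𝓝 x ⊓ 𝓟 S) with hU
  have hUle : (U : Filter (Fin (d + 1) → ℂ)) ≤ 𝓝 x ⊓ 𝓟 S := Ultrafilter.of_le _
  have hUx : (U : Filter (Fin (d + 1) → ℂ)) ≤ 𝓝 x := hUle.trans inf_le_left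
  have hUS : ∀ᶠ y in (U : Filter (Fin (d + 1) → ℂ)), y ∈ S :=
    (hUle.trans inf_le_right) (mem_principal_self S)
  have hlg : Tendsto (lg x) (U : Filter (Fin (d + 1) → ℂ)) (𝓝 0) :=
    (tendsto_lg hx.1).mono_left hUx
  set s : (Fin (d + 1) → ℂ) → ℂ := fun y => (‖lg x y‖ : ℂ) with hs
  set ζ : (Fin (d + 1) → ℂ) → Fin (d + 1) → ℂ := fun y => (s y)⁻¹ • lg x y with hζ
  have hs_t : Tendsto s (U : Filter (Fin (d + 1) → ℂ)) (𝓝 0) := by
    have h1 := hlg.norm
    rw [norm_zero] at h1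
    have h2 := (Complex.continuous_ofReal.tendsto 0).comp h1
    rw [Complex.ofReal_zero] at h2
    exact h2
  have hlg0 : ∀ y ∈ S, lg x y ≠ 0 := by
    intro y hy h0
    apply hy.2
    have h1 := exp_lg hx.1 hy.1.1
    rw [h0] at h1
    rw [← h1]
    funext i
    simp
  have hs0 : ∀ᶠ y in (U : Filter (Fin (d + 1) → ℂ)), s y ≠ 0 := by
    filter_upwards [hUS] with y hy
    have h1 : ‖lg x y‖ ≠ 0 := norm_ne_zero_iff.2 (hlg0 y hy)
    exact Complex.ofReal_ne_zero.2 h1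
  have hsph : ∀ᶠ y in (U : Filter (Fin (d + 1) → ℂ)), ζ y ∈ Metric.sphere (0 : Fin (d + 1) → ℂ) 1 := by
    filter_upwards [hUS] with y hy
    have h1 : ‖lg x y‖ ≠ 0 := norm_ne_zero_iff.2 (hlg0 y hy)
    rw [mem_sphere_zero_iff_norm, hζ, hs]
    simp only
    rw [norm_smul, norm_inv, Complex.norm_real, norm_norm, inv_mul_cancel₀ h1]
  obtain ⟨ζ₀, hζ₀, hlim⟩ := (isCompact_sphere (0 : Fin (d + 1) → ℂ) 1).ultrafilter_le_nhds
    (U.map ζ) (le_principal_iff.2 hsph)
  have hζt : Tendsto ζ (U : Filter (Fin (d + 1) → ℂ)) (𝓝 ζ₀) := hlim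
  have hCr : ∀ᶠ y in (U : Filter (Fin (d + 1) → ℂ)),
      (fun i => x i * Complex.exp ((s y • ζ y) i)) ∈ Cr w a := by
    filter_upwards [hUS, hs0] with y hy hy0
    have h1 : s y • ζ y = lg x y := by
      rw [hζ]
      simp only
      rw [smul_smul, mul_inv_cancel₀ hy0, one_smul]
    rw [h1, exp_lg hx.1 hy.1.1]
    exact hy.1
  obtain ⟨e1, e2, e3⟩ := expandCr w a x hx s ζ ζ₀ hs_t hs0 hζt hCr
  have hz := dir_zero w a x ζ₀ hx hdet hH e1 e2 e3
  rw [hz] at hζ₀
  simp at hζ₀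

end Pool.Agent.Mono.NP
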