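import Pool.Agent.Work.Monodromy12.KLM212

/-!
# Phase 12, block KLM1: limits of solutions of the tropical system (helper71)
-/

set_option autoImplicit false

namespace Pool.Agent.Mono.NP

open MvPolynomial Filter Topology

namespace KLM1Aux

open KLM2Aux

section

variable {κ : Type} [Fintype κ] {d : ℕ}

/-- independence over `ℚ` implies independence over `ℂ` -/
theorem indep_complex (w : κ → Fin d → ℕ) (F : Finset κ)
    (h : ∀ m : κ → ℚ, (∀ v, v ∉ F → m v = 0) → ∑ v, m v = 0 → (∀ i, ∑ v, m v * w v i = 0) →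
      m = 0)
    (y : κ → ℂ) (hy : ∀ v, v ∉ F → y v = 0) (h0 : ∑ v, y v = 0)
    (h1 : ∀ i, ∑ v, (w v i : ℂ) * y v = 0) : y = 0 := by
  funext v
  rw [Pi.zero_apply, ← Module.forall_dual_apply_eq_zero_iff ℚ]
  intro φ
  have h2 := h (fun v => φ (y v)) (fun v hv => by rw [hy v hv, map_zero])
    (by rw [← map_sum, h0, map_zero]) (by
      intro i
      have h3 : ∑ v, φ (y v) * (w v i : ℚ) = φ (∑ v, (w v i : ℂ) * y v) := by
        rw [map_sum]
        refine Finset.sum_congr rfl fun u _ => ?_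
        rw [← nsmul_eq_mul, map_nsmul, nsmul_eq_mul, mul_comm]
      rw [h3, h1 i, map_zero])
  exact congrFun h2 v

/-- the number of elements of `F` -/
theorem card_eq (w : κ → Fin d → ℕ) (F : Finset κ) (hF : F.Nonempty)
    (h : ∀ m : κ → ℚ, (∀ v, v ∉ F → m v = 0) → ∑ v, m v = 0 → (∀ i, ∑ v, m v * w v i = 0) →
      m = 0)
    (h' : ∀ (ρ : Fin d → ℚ) (z : ℚ), (∀ v ∈ F, ∑ i, ρ i * w v i = z) → ρ = 0) :
    F.card = d + 1 := by
  classical
  let T : (F → ℚ) →ₗ[ℚ] (Fin d → ℚ) × ℚ :=
    { toFun := fun c => (fun i => ∑ v, c v * (w v i : ℚ), ∑ v, c v)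
      map_add' := by
        intro c c'
        refine Prod.ext ?_ ?_
        · funext i
          simp only [Pi.add_apply, Prod.mk_add_mk]
          rw [← Finset.sum_add_distrib]
          exact Finset.sum_congr rfl fun v _ => by ring
        · simp only [Pi.add_apply, Prod.mk_add_mk]
          rw [← Finset.sum_add_distrib]
      map_smul' := by
        intro r c
        refine Prod.ext ?_ ?_
        · funext i
          simp only [Pi.smul_apply, smul_eq_mul, RingHom.id_apply, Prod.smul_mk]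
          rw [Finset.mul_sum]
          exact Finset.sum_congr rfl fun v _ => by ring
        · simp only [Pi.smul_apply, smul_eq_mul, RingHom.id_apply, Prod.smul_mk]
          rw [Finset.mul_sum] }
  have hT1 : ∀ c i, (T c).1 i = ∑ v, c v * (w v i : ℚ) := fun _ _ => rfl
  have hT2 : ∀ c, (T c).2 = ∑ v, c v := fun _ => rfl
  have key : ∀ (c : κ → ℚ) (g : κ → ℚ), (∀ v, v ∉ F → c v = 0) →
      ∑ v, c v * g v = ∑ v : F, c v * g v := by
    intro c g hc
    rw [Finset.sum_coe_sort F (fun v => c v * g v)]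
    exact (Finset.sum_subset (Finset.subset_univ F) fun v _ hv => by
      rw [hc v hv, zero_mul]).symm
  have hinj : Function.Injective T := by
    rw [← LinearMap.ker_eq_bot, LinearMap.ker_eq_bot']
    intro c hc
    have h1 := h (fun v => if hv : v ∈ F then c ⟨v, hv⟩ else 0) (fun v hv => by
      rw [dif_neg hv]) (by
        have h2 := key (fun v => if hv : v ∈ F then c ⟨v, hv⟩ else 0) (fun _ => 1) (fun v hv => by
          simp only [dif_neg hv])
        simp only [mul_one] at h2
        rw [h2]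
        have h3 := congrArg Prod.snd hc
        rw [hT2] at h3
        rw [Prod.snd_zero] at h3
        rw [← h3]
        refine Finset.sum_congr rfl fun v _ => ?_
        rw [dif_pos v.2]) (by
        intro i
        have h2 := key (fun v => if hv : v ∈ F then c ⟨v, hv⟩ else 0) (fun v => (w v i : ℚ))
          (fun v hv => by simp only [dif_neg hv])
        rw [h2]
        have h3 := congrFun (congrArg Prod.fst hc) i
        rw [hT1] at h3
        rw [Prod.fst_zero, Pi.zero_apply] at h3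
        rw [← h3]
        refine Finset.sum_congr rfl fun v _ => ?_
        rw [dif_pos v.2])
    funext v
    have h2 := congrFun h1 v
    simp only [dif_pos v.2, Subtype.coe_eta] at h2
    exact h2
  have hsurj : Function.Surjective T := by
    rintro ⟨y, s⟩
    obtain ⟨c, hc1, hc2, hc3⟩ := span_lemma w F hF h' y s
    refine ⟨fun v => c v, ?_⟩
    refine Prod.ext ?_ ?_
    · funext i
      rw [hT1]
      have h2 := key c (fun v => (w v i : ℚ)) hc1
      rw [← h2]
      exact hc3 i
    · rw [hT2]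
      have h2 := key c (fun _ => 1) hc1
      simp only [mul_one] at h2
      rw [← h2]
      exact hc2
  have hfin := LinearEquiv.finrank_eq (LinearEquiv.ofBijective T ⟨hinj, hsurj⟩)
  rw [Module.finrank_fintype_fun_eq_card, Module.finrank_prod, Module.finrank_fintype_fun_eq_card,
    Module.finrank_self, Fintype.card_coe, Fintype.card_fin] at hfin
  exact hfin

/-- a convergent sequence `n c` -/
theorem zero_of_tendsto {U : Ultrafilter ℕ} (hU : (U : Filter ℕ) ≤ atTop) {c L : ℝ}
    (h : Tendsto (fun n : ℕ => (n : ℝ) * c) (U : Filter ℕ) (𝓝 L)) : c = 0 := by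
  have h1 : Tendsto (fun n : ℕ => ((n : ℝ))⁻¹) (U : Filter ℕ) (𝓝 0) :=
    (tendsto_inv_atTop_zero.comp tendsto_natCast_atTop_atTop).mono_left hU
  have h2 := h1.mul h
  rw [zero_mul] at h2
  have h3 : Tendsto (fun n : ℕ => ((n : ℝ))⁻¹ * ((n : ℝ) * c)) (U : Filter ℕ) (𝓝 c) := by
    refine Tendsto.congr' ?_ (tendsto_const_nhds (x := c))
    have h4 : ∀ᶠ n : ℕ in (U : Filter ℕ), 1 ≤ n := hU (eventually_ge_atTop 1)
    filter_upwards [h4] with n hn
    have h5 : (n : ℝ) ≠ 0 := by
      have : n ≠ 0 := by omega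
      exact_mod_cast this
    rw [← mul_assoc, inv_mul_cancel₀ h5, one_mul]
  exact tendsto_nhds_unique h3 h2

end

end KLM1Aux

open KLM2Aux KLM1Aux in
theorem stmt_KLM1 : Stmt_KLM1 := by
  classical
  intro κ _ _ d w h b U x hfull hdr hli hb hU hcr
  have hne : Nonempty κ := by
    by_contra hcon
    rw [not_nonempty_iff] at hcon
    have h1 := hfull (fun _ => 1) 0 (fun v => isEmptyElim v)
    have h2 := congrFun h1 0
    simp at h2
  have hx : ∀ᶠ n in (U : Filter ℕ), x n ∈ TT (d + 1) := hcr.mono fun n hn => hn.1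
  set A : ℕ → κ → ℂ := fun n v => b v * (Real.exp (-((n : ℝ) * h v)) : ℂ) with hA
  have hA0 : ∀ n v, A n v ≠ 0 := fun n v =>
    mul_ne_zero (hb v) (Complex.ofReal_ne_zero.2 (Real.exp_ne_zero _))
  set z : ℕ → κ → ℂ := fun n v => A n v * mn w (x n) v with hz
  have hz0 : ∀ n, x n ∈ TT (d + 1) → ∀ v, z n v ≠ 0 := fun n hn v =>
    mul_ne_zero (hA0 n v) (mn_ne_zero w hn v)
  have hlogz : ∀ n, x n ∈ TT (d + 1) → ∀ v, Real.log ‖z n v‖ =
      Real.log ‖b v‖ - n * h v + ∑ i, (w v i : ℝ) * Real.log ‖x n i‖ := by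
    intro n hn v
    rw [hz, hA]
    simp only
    rw [norm_mul, norm_mul, Real.log_mul (mul_ne_zero (norm_ne_zero_iff.2 (hb v))
      (norm_ne_zero_iff.2 (Complex.ofReal_ne_zero.2 (Real.exp_ne_zero _))))
      (norm_ne_zero_iff.2 (mn_ne_zero w hn v)), log_mn w hn,
      Real.log_mul (norm_ne_zero_iff.2 (hb v))
      (norm_ne_zero_iff.2 (Complex.ofReal_ne_zero.2 (Real.exp_ne_zero _))),
      Complex.norm_real, Real.norm_of_nonneg (Real.exp_pos _).le, Real.log_exp]
    ring
  -- a maximal term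
  obtain ⟨v0, hv0⟩ : ∃ v0, ∀ᶠ n in (U : Filter ℕ), ∀ v, ‖z n v‖ ≤ ‖z n v0‖ := by
    apply exists_of_ultra
    filter_upwards with n
    obtain ⟨v0, _, h⟩ := Finset.exists_max_image Finset.univ (fun v => ‖z n v‖)
      Finset.univ_nonempty
    exact ⟨v0, fun v => h v (Finset.mem_univ v)⟩
  have hle : ∀ᶠ n in (U : Filter ℕ), ∀ v, ‖z n v / z n v0‖ ≤ 1 := by
    filter_upwards [hx, hv0] with n hn h v
    rw [norm_div, div_le_one (norm_pos_iff.2 (hz0 n hn v0))]
    exact h v
  obtain ⟨y, hy⟩ := exists_lim hle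
  have hy' : ∀ v, Tendsto (fun n => z n v / z n v0) (U : Filter ℕ) (𝓝 (y v)) :=
    tendsto_pi_nhds.1 hy
  have hy0 : y v0 = 1 := by
    refine tendsto_nhds_unique (hy' v0) (Tendsto.congr' ?_ tendsto_const_nhds)
    filter_upwards [hx] with n hn
    rw [div_self (hz0 n hn v0)]
  -- the equations
  have hE1 : ∀ᶠ n in (U : Filter ℕ), ∑ v, z n v = 0 := by
    filter_upwards [hcr] with n hn
    exact hn.2.1
  have hE2 : ∀ i : Fin d, ∀ᶠ n in (U : Filter ℕ), ∑ v, (w v i.succ : ℂ) * z n v = 0 := by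
    intro i
    filter_upwards [hcr] with n hn
    have h1 := hn.2.2 i
    unfold sth at h1
    rw [← h1]
    refine Finset.sum_congr rfl fun v _ => ?_
    rw [hz, hA]
    ring
  have heq : ∀ c : κ → ℂ, (∀ᶠ n in (U : Filter ℕ), ∑ v, c v * z n v = 0) →
      ∑ v, c v * y v = 0 := by
    intro c hc
    have h1 : Tendsto (fun n => ∑ v, c v * (z n v / z n v0))
        (U : Filter ℕ) (𝓝 (∑ v, c v * y v)) :=
      tendsto_finsetSum _ fun v _ => tendsto_const_nhds.mul (hy' v)
    refine tendsto_nhds_unique h1 (Tendsto.congr' ?_ tendsto_const_nhds)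
    filter_upwards [hc] with n hn
    have h2 : ∑ v, c v * (z n v / z n v0) = (∑ v, c v * z n v) / z n v0 := by
      rw [Finset.sum_div]
      exact Finset.sum_congr rfl fun v _ => by ring
    rw [h2, hn, zero_div]
  have hs : ∑ v, y v = 0 := by
    have h1 := heq (fun _ => 1) (by
      filter_upwards [hE1] with n hn
      simpa using hn)
    simpa using h1
  have ht : ∀ i : Fin d, ∑ v, (w v i.succ : ℂ) * y v = 0 := fun i =>
    heq (fun v => (w v i.succ : ℂ)) (hE2 i)
  set F : Finset κ := Finset.univ.filter fun v => y v ≠ 0 with hF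
  have hmemF : ∀ v, v ∈ F ↔ y v ≠ 0 := by
    intro v
    rw [hF, Finset.mem_filter]
    exact ⟨fun h => h.2, fun h => ⟨Finset.mem_univ v, h⟩⟩
  have hyu : ∀ v, v ∉ F → y v = 0 := by
    intro v hv
    by_contra h
    exact hv ((hmemF v).2 h)
  have hFne : F.Nonempty := ⟨v0, (hmemF v0).2 (by rw [hy0]; exact one_ne_zero)⟩
  -- logarithms of the quotients
  have hlogF : ∀ m : κ → ℚ, (∀ v, v ∉ F → m v = 0) →
      Tendsto (fun n => ∑ v, (m v : ℝ) * Real.log ‖z n v / z n v0‖) (U : Filter ℕ)
        (𝓝 (∑ v, (m v : ℝ) * Real.log ‖y v‖)) := by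
    intro m hm
    refine tendsto_finsetSum _ fun v _ => ?_
    by_cases hv : v ∈ F
    · exact tendsto_const_nhds.mul ((hy' v).norm.log (norm_ne_zero_iff.2 ((hmemF v).1 hv)))
    · rw [hm v hv]
      simp only [Rat.cast_zero, zero_mul]
      exact tendsto_const_nhds
  have hlogid : ∀ (m : κ → ℚ) (r : Fin (d + 1) → ℚ), ∑ v, m v = 0 →
      (∀ i, ∑ v, m v * w v i = r i) → ∀ n, x n ∈ TT (d + 1) →
      ∑ v, (m v : ℝ) * Real.log ‖z n v / z n v0‖ =
        ∑ v, (m v : ℝ) * Real.log ‖b v‖ - n * ∑ v, (m v : ℝ) * h v +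
          ∑ i, (r i : ℝ) * Real.log ‖x n i‖ := by
    intro m r hm1 hm2 n hn
    have h1 : ∀ v, Real.log ‖z n v / z n v0‖ = Real.log ‖z n v‖ - Real.log ‖z n v0‖ := by
      intro v
      rw [norm_div, Real.log_div (norm_ne_zero_iff.2 (hz0 n hn v))
        (norm_ne_zero_iff.2 (hz0 n hn v0))]
    simp only [h1, mul_sub, Finset.sum_sub_distrib]
    rw [← Finset.sum_mul, ← Rat.cast_sum, hm1, Rat.cast_zero, zero_mul, sub_zero]
    simp only [hlogz n hn, mul_add, mul_sub, Finset.sum_add_distrib, Finset.sum_sub_distrib]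
    congr 1
    · congr 1
      rw [Finset.mul_sum]
      exact Finset.sum_congr rfl fun v _ => by ring
    · simp only [Finset.mul_sum]
      rw [Finset.sum_comm]
      refine Finset.sum_congr rfl fun i _ => ?_
      rw [← hm2 i, Rat.cast_sum, Finset.sum_mul]
      refine Finset.sum_congr rfl fun v _ => ?_
      rw [Rat.cast_mul, Rat.cast_natCast]
      ring
  -- (1) independence
  have hind : ∀ m : κ → ℚ, (∀ v, v ∉ F → m v = 0) → ∑ v, m v = 0 →
      (∀ i, ∑ v, m v * w v i = 0) → m = 0 := by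
    intro m hm0 hm1 hm2
    have h1 : Tendsto (fun n : ℕ => (n : ℝ) * ∑ v, (m v : ℝ) * h v) (U : Filter ℕ)
        (𝓝 (∑ v, (m v : ℝ) * Real.log ‖b v‖ - ∑ v, (m v : ℝ) * Real.log ‖y v‖)) := by
      refine Tendsto.congr' ?_ ((tendsto_const_nhds
        (x := ∑ v, (m v : ℝ) * Real.log ‖b v‖)).sub (hlogF m hm0))
      filter_upwards [hx] with n hn
      rw [hlogid m 0 hm1 hm2 n hn]
      simp
    have h2 := zero_of_tendsto hU h1
    rw [Fintype.linearIndependent_iff] at hli
    funext v
    refine hli m ?_ v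
    rw [← h2]
    refine Finset.sum_congr rfl fun v _ => ?_
    rw [Rat.smul_def]
  -- (2) only zero is constant on F
  have hconst : ∀ (ρ : Fin (d + 1) → ℚ) (s : ℚ), (∀ v ∈ F, ∑ i, ρ i * w v i = s) → ρ = 0 := by
    intro ρ s hρ
    by_contra hρ0
    obtain ⟨ρ', z', hρ'0, hρ'⟩ := hdr F ⟨ρ, s, hρ0, hρ⟩
    have h0 : ∑ v, (w v 0 : ℂ) * y v = 0 := by
      have h1 : ∑ v, ((∑ j, ρ' j * (w v j : ℚ) : ℚ) : ℂ) * y v = 0 := by
        have h2 : ∀ v, ((∑ j, ρ' j * (w v j : ℚ) : ℚ) : ℂ) * y v = (z' : ℂ) * y v := by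
          intro v
          by_cases hv : v ∈ F
          · rw [hρ' v hv]
          · rw [hyu v hv, mul_zero, mul_zero]
        rw [Finset.sum_congr rfl fun v _ => h2 v, ← Finset.mul_sum, hs, mul_zero]
      have h2 : ∑ v, ((∑ j, ρ' j * (w v j : ℚ) : ℚ) : ℂ) * y v =
          ∑ j, (ρ' j : ℂ) * ∑ v, (w v j : ℂ) * y v := by
        simp only [Rat.cast_sum, Rat.cast_mul, Rat.cast_natCast, Finset.mul_sum, Finset.sum_mul]
        rw [Finset.sum_comm]
        refine Finset.sum_congr rfl fun j _ => Finset.sum_congr rfl fun v _ => ?_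
        ring
      rw [h1, Fin.sum_univ_succ] at h2
      simp only [ht, mul_zero, Finset.sum_const_zero, add_zero] at h2
      rcases mul_eq_zero.1 h2.symm with h3 | h3
      · exact absurd (by exact_mod_cast h3) hρ'0
      · exact h3
    have h1 := indep_complex w F hind y hyu hs (fun i => Fin.cases h0 ht i)
    have h2 := congrFun h1 v0
    rw [hy0] at h2
    exact one_ne_zero h2
  have hcard : F.card = d + 2 := card_eq w F hFne hind hconst
  -- (3) the direction
  have hc : ∀ i : Fin (d + 1), ∃ c : κ → ℚ, (∀ v, v ∉ F → c v = 0) ∧ ∑ v, c v = 0 ∧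
      ∀ j, ∑ v, c v * w v j = (Pi.single i 1 : Fin (d + 1) → ℚ) j := fun i =>
    span_lemma w F hFne hconst (Pi.single i 1) 0
  choose c hc0 hc1 hc2 using hc
  set k : Fin (d + 1) → ℝ := fun i => -∑ v, (c i v : ℝ) * h v with hk
  set L : Fin (d + 1) → ℝ := fun i =>
    ∑ v, (c i v : ℝ) * Real.log ‖y v‖ - ∑ v, (c i v : ℝ) * Real.log ‖b v‖ with hL
  have hlim : ∀ i, Tendsto (fun n : ℕ => Real.log ‖x n i‖ + n * k i) (U : Filter ℕ)
      (𝓝 (L i)) := by
    intro i
    refine Tendsto.congr' ?_ ((hlogF (c i) (hc0 i)).sub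
      (tendsto_const_nhds (x := ∑ v, (c i v : ℝ) * Real.log ‖b v‖)))
    filter_upwards [hx] with n hn
    rw [hlogid (c i) _ (hc1 i) (hc2 i) n hn, Finset.sum_eq_single i]
    · rw [Pi.single_eq_same, Rat.cast_one, one_mul, hk]
      ring
    · intro j _ hj
      rw [Pi.single_eq_of_ne hj, Rat.cast_zero, zero_mul]
    · intro hi
      exact absurd (Finset.mem_univ i) hi
  -- the heights
  have hq : ∀ v, Tendsto (fun n : ℕ => Real.log ‖z n v / z n v0‖ +
      n * (hval w h k v - hval w h k v0)) (U : Filter ℕ)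
      (𝓝 (Real.log ‖b v‖ - Real.log ‖b v0‖ + ∑ i, ((w v i : ℝ) - w v0 i) * L i)) := by
    intro v
    refine Tendsto.congr' ?_ ((tendsto_const_nhds
      (x := Real.log ‖b v‖ - Real.log ‖b v0‖)).add
      (tendsto_finsetSum Finset.univ fun i _ => (tendsto_const_nhds
        (x := (w v i : ℝ) - w v0 i)).mul (hlim i)))
    filter_upwards [hx] with n hn
    rw [norm_div, Real.log_div (norm_ne_zero_iff.2 (hz0 n hn v))
        (norm_ne_zero_iff.2 (hz0 n hn v0)), hlogz n hn, hlogz n hn]
    unfold hval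
    simp only [mul_add, sub_mul, Finset.sum_add_distrib, Finset.sum_sub_distrib, mul_sub]
    have e1 : ∀ u, (n : ℝ) * ∑ i, k i * (w u i : ℝ) = ∑ i, (w u i : ℝ) * ((n : ℝ) * k i) := by
      intro u
      rw [Finset.mul_sum]
      exact Finset.sum_congr rfl fun i _ => by ring
    rw [e1, e1]
    ring
  have hFeq : ∀ v ∈ F, hval w h k v = hval w h k v0 := by
    intro v hv
    have h1 := (hq v).sub ((hy' v).norm.log (norm_ne_zero_iff.2 ((hmemF v).1 hv)))
    have h2 := zero_of_tendsto hU (c := hval w h k v - hval w h k v0) (by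
      refine Tendsto.congr ?_ h1
      intro n
      ring)
    linarith
  have hFlt : ∀ v, v ∉ F → hval w h k v0 < hval w h k v := by
    intro v hv
    by_contra hcon
    push Not at hcon
    have hbot : Tendsto (fun n => Real.log ‖z n v / z n v0‖) (U : Filter ℕ) atBot := by
      refine Real.tendsto_log_nhdsNE_zero.comp ?_
      rw [tendsto_nhdsWithin_iff]
      refine ⟨?_, ?_⟩
      · have := (hy' v).norm
        rw [hyu v hv, norm_zero] at this
        exact this
      · filter_upwards [hx] with n hn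
        exact norm_ne_zero_iff.2 (div_ne_zero (hz0 n hn v) (hz0 n hn v0))
    have h1 : Tendsto (fun n : ℕ => Real.log ‖z n v / z n v0‖ +
        n * (hval w h k v - hval w h k v0)) (U : Filter ℕ) atBot := by
      refine tendsto_atBot_mono ?_ hbot
      intro n
      have h2 : (n : ℝ) * (hval w h k v - hval w h k v0) ≤ 0 :=
        mul_nonpos_of_nonneg_of_nonpos (Nat.cast_nonneg n) (by linarith)
      linarith
    exact not_tendsto_nhds_of_tendsto_atBot h1 _ (hq v)
  have hge : ∀ v, hval w h k v0 ≤ hval w h k v := by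
    intro v
    by_cases hv : v ∈ F
    · exact (hFeq v hv).ge
    · exact (hFlt v hv).le
  have harg : ArgM w h F k := by
    intro v
    constructor
    · intro hv u
      rw [hFeq v hv]
      exact hge u
    · intro hv
      by_contra hvF
      exact absurd (hv v0) (not_le.2 (hFlt v hvF))
  -- (4) convergence
  obtain ⟨u, hu1, hu⟩ := exists_un hx
  have hu0 : ∀ i, u i ≠ 0 := by
    intro i hi
    have := hu1 i
    rw [hi, norm_zero] at this
    exact absurd this (by norm_num)
  have hconv : ∀ i, Tendsto (fun n : ℕ => (Real.exp ((n : ℝ) * k i) : ℂ) * x n i) (U : Filter ℕ)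
      (𝓝 (((Real.exp (L i) : ℝ) : ℂ) * u i)) := by
    intro i
    have h1 : Tendsto (fun n : ℕ => ((Real.exp (Real.log ‖x n i‖ + n * k i) : ℝ) : ℂ) *
        un (x n) i) (U : Filter ℕ) (𝓝 (((Real.exp (L i) : ℝ) : ℂ) * u i)) :=
      ((Complex.continuous_ofReal.tendsto _).comp
        ((Real.continuous_exp.tendsto _).comp (hlim i))).mul (hu i)
    refine Tendsto.congr' ?_ h1
    filter_upwards [hx] with n hn
    rw [Real.exp_add, Real.exp_log (norm_pos_iff.2 (hn i)), Complex.ofReal_mul]
    rw [mul_comm ((‖x n i‖ : ℝ) : ℂ), mul_assoc, un_mul hn i]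
  set Y : Fin (d + 1) → ℂ := fun i => ((Real.exp (L i) : ℝ) : ℂ) * u i with hY
  have hterm : ∀ v, Tendsto (fun n : ℕ => z n v / (Real.exp (-((n : ℝ) * hval w h k v0)) : ℂ))
      (U : Filter ℕ) (𝓝 (rc b F v * mn w Y v)) := by
    intro v
    have h1 : Tendsto (fun n : ℕ => (Real.exp (-((n : ℝ) *
        (hval w h k v - hval w h k v0))) : ℂ)) (U : Filter ℕ) (𝓝 (if v ∈ F then 1 else 0)) := by
      split
      · rename_i hv
        rw [hFeq v hv]
        simp only [sub_self, mul_zero, neg_zero, Real.exp_zero, Complex.ofReal_one]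
        exact tendsto_const_nhds
      · rename_i hv
        have h2 : Tendsto (fun n : ℕ => Real.exp (-((n : ℝ) *
            (hval w h k v - hval w h k v0)))) (U : Filter ℕ) (𝓝 0) := by
          refine Real.tendsto_exp_atBot.comp ?_
          refine tendsto_neg_atTop_atBot.comp ?_
          exact (tendsto_natCast_atTop_atTop.atTop_mul_const
            (sub_pos.2 (hFlt v hv))).mono_left hU
        have h3 := (Complex.continuous_ofReal.tendsto 0).comp h2
        rw [Complex.ofReal_zero] at h3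
        exact h3
    have h2 : Tendsto (fun n : ℕ => b v * (Real.exp (-((n : ℝ) *
        (hval w h k v - hval w h k v0))) : ℂ) *
        mn w (fun i => (Real.exp ((n : ℝ) * k i) : ℂ) * x n i) v) (U : Filter ℕ)
        (𝓝 (b v * (if v ∈ F then 1 else 0) * mn w Y v)) :=
      ((tendsto_const_nhds (x := b v)).mul h1).mul (tendsto_mn w hconv v)
    have h3 : rc b F v = b v * (if v ∈ F then 1 else 0) := by
      unfold rc
      split
      · rw [mul_one]
      · rw [mul_zero]
    rw [h3]
    refine Tendsto.congr' ?_ h2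
    filter_upwards [hx] with n hn
    rw [hz, hA]
    simp only
    rw [mn_mul, mn_exp w (fun i => (n : ℝ) * k i) v]
    have h4 : (Real.exp (-((n : ℝ) * hval w h k v0)) : ℂ) ≠ 0 :=
      Complex.ofReal_ne_zero.2 (Real.exp_ne_zero _)
    rw [eq_div_iff h4]
    have h5 : Real.exp (-((n : ℝ) * (hval w h k v - hval w h k v0))) *
        Real.exp (∑ i, (w v i : ℝ) * ((n : ℝ) * k i)) *
        Real.exp (-((n : ℝ) * hval w h k v0)) = Real.exp (-((n : ℝ) * h v)) := by
      rw [← Real.exp_add, ← Real.exp_add]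
      congr 1
      have e1 : ∑ i, (w v i : ℝ) * ((n : ℝ) * k i) = (n : ℝ) * ∑ i, k i * (w v i : ℝ) := by
        rw [Finset.mul_sum]
        exact Finset.sum_congr rfl fun i _ => by ring
      rw [e1]
      have e2 : hval w h k v = ∑ i, k i * (w v i : ℝ) + h v := rfl
      rw [e2]
      ring
    rw [← h5, Complex.ofReal_mul, Complex.ofReal_mul]
    ring
  have hlimeq : ∀ e : κ → ℂ, (∀ᶠ n in (U : Filter ℕ), ∑ v, e v * z n v = 0) →
      ∑ v, e v * (rc b F v * mn w Y v) = 0 := by
    intro e he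
    have h1 : Tendsto (fun n : ℕ => ∑ v, e v * (z n v /
        (Real.exp (-((n : ℝ) * hval w h k v0)) : ℂ)))
        (U : Filter ℕ) (𝓝 (∑ v, e v * (rc b F v * mn w Y v))) :=
      tendsto_finsetSum _ fun v _ => tendsto_const_nhds.mul (hterm v)
    refine tendsto_nhds_unique h1 (Tendsto.congr' ?_ tendsto_const_nhds)
    filter_upwards [he] with n hn
    have h2 : ∑ v, e v * (z n v / (Real.exp (-((n : ℝ) * hval w h k v0)) : ℂ)) =
        (∑ v, e v * z n v) / (Real.exp (-((n : ℝ) * hval w h k v0)) : ℂ) := by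
      rw [Finset.sum_div]
      exact Finset.sum_congr rfl fun v _ => by ring
    rw [h2, hn, zero_div]
  refine ⟨F, k, hcard, harg, Y, ⟨?_, ?_, ?_⟩, tendsto_pi_nhds.2 hconv⟩
  · intro i
    exact mul_ne_zero (Complex.ofReal_ne_zero.2 (Real.exp_ne_zero _)) (hu0 i)
  · have h1 := hlimeq (fun _ => 1) (by
      filter_upwards [hE1] with n hn
      simpa using hn)
    unfold sm
    simpa using h1
  · intro i
    have h1 := hlimeq (fun v => (w v i.succ : ℂ)) (hE2 i)
    unfold sth
    rw [← h1]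
    refine Finset.sum_congr rfl fun v _ => ?_
    ring

end Pool.Agent.Mono.NP
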