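import Pool.Agent.Work.Monodromy.Interface12K

/-!
# Phase 12, block KLM2: limits of solutions of a perturbed system (helper45)
-/

set_option autoImplicit false

namespace Pool.Agent.Mono.NP

open MvPolynomial Filter Topology

namespace KLM2Aux

section

variable {κ : Type} [Fintype κ] {d : ℕ}

/-- if only zero is constant on `F` then the vectors `(w_v, 1)` span -/
theorem span_lemma (w : κ → Fin d → ℕ) (F : Finset κ) (hF : F.Nonempty)
    (h : ∀ (ρ : Fin d → ℚ) (z : ℚ), (∀ v ∈ F, ∑ i, ρ i * w v i = z) → ρ = 0)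
    (y : Fin d → ℚ) (s : ℚ) :
    ∃ c : κ → ℚ, (∀ v, v ∉ F → c v = 0) ∧ ∑ v, c v = s ∧ ∀ i, ∑ v, c v * w v i = y i := by
  classical
  let e : κ → (Fin d → ℚ) × ℚ := fun v => (fun i => (w v i : ℚ), 1)
  have hspan : Submodule.span ℚ (e '' (F : Set κ)) = ⊤ := by
    by_contra hne
    obtain ⟨f, hf0, hf⟩ := Submodule.exists_le_ker_of_lt_top _ (lt_top_iff_ne_top.2 hne)
    have hrep : ∀ x : (Fin d → ℚ) × ℚ,
        f x = ∑ i, f (Pi.single i 1, 0) * x.1 i + f (0, 1) * x.2 := by
      intro x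
      have h1 : x = ∑ i, x.1 i • ((Pi.single i 1, 0) : (Fin d → ℚ) × ℚ) +
          x.2 • ((0, 1) : (Fin d → ℚ) × ℚ) := by
        apply Prod.ext
        · funext j
          simp [Prod.fst_sum, Finset.sum_apply, Pi.single_apply]
        · simp [Prod.snd_sum]
      conv_lhs => rw [h1]
      rw [map_add, map_sum, map_smul]
      simp only [map_smul, smul_eq_mul]
      congr 1
      · exact Finset.sum_congr rfl fun i _ => mul_comm _ _
      · exact mul_comm _ _
    have h1 : ∀ v ∈ F, ∑ i, f (Pi.single i 1, 0) * (w v i : ℚ) = -f (0, 1) := by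
      intro v hv
      have h2 : f (e v) = 0 := hf (Submodule.subset_span ⟨v, hv, rfl⟩)
      rw [hrep] at h2
      simp only [e, mul_one] at h2
      linarith
    have h2 := h _ _ h1
    obtain ⟨v, hv⟩ := hF
    have h3 := h1 v hv
    have h4 : ∀ i, f (Pi.single i 1, 0) = 0 := fun i => congrFun h2 i
    simp only [h4, zero_mul, Finset.sum_const_zero] at h3
    apply hf0
    apply LinearMap.ext
    intro x
    rw [hrep]
    simp only [h4, zero_mul, Finset.sum_const_zero, zero_add, LinearMap.zero_apply]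
    have h5 : f (0, 1) = 0 := by linarith
    rw [h5, zero_mul]
  have hy : (y, s) ∈ Submodule.span ℚ (e '' (F : Set κ)) := by
    rw [hspan]
    exact Submodule.mem_top
  rw [Finsupp.mem_span_image_iff_linearCombination] at hy
  obtain ⟨l, hl, hly⟩ := hy
  have hly2 : (l.sum fun i a => a • e i) = ∑ i, l i • e i :=
    Finsupp.sum_fintype _ _ (fun i => zero_smul _ _)
  rw [Finsupp.linearCombination_apply, hly2] at hly
  refine ⟨l, ?_, ?_, ?_⟩
  · intro v hv
    by_contra hcon
    exact hv ((Finsupp.mem_supported _ _).1 hl (Finsupp.mem_support_iff.2 hcon))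
  · have h1 := congrArg Prod.snd hly
    simpa [Prod.snd_sum, e] using h1
  · intro i
    have h1 := congrFun (congrArg Prod.fst hly) i
    simpa [Prod.fst_sum, e, Finset.sum_apply] using h1

theorem mn_ne_zero (w : κ → Fin d → ℕ) {x : Fin d → ℂ} (hx : x ∈ TT d) (v : κ) :
    mn w x v ≠ 0 :=
  Finset.prod_ne_zero_iff.2 fun i _ => pow_ne_zero _ (hx i)

theorem log_mn (w : κ → Fin d → ℕ) {x : Fin d → ℂ} (hx : x ∈ TT d) (v : κ) :
    Real.log ‖mn w x v‖ = ∑ i, (w v i : ℝ) * Real.log ‖x i‖ := by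
  unfold mn
  rw [norm_prod, Real.log_prod]
  · refine Finset.sum_congr rfl fun i _ => ?_
    rw [norm_pow, Real.log_pow]
  · intro i _
    rw [norm_pow]
    exact pow_ne_zero _ (norm_ne_zero_iff.2 (hx i))

theorem log_sum (w : κ → Fin d → ℕ) {x : Fin d → ℂ} (hx : x ∈ TT d) (v0 : κ) (c : κ → ℚ)
    (y : Fin d → ℚ) (hc : ∑ v, c v = 0) (hy : ∀ i, ∑ v, c v * w v i = y i) :
    ∑ v, (c v : ℝ) * Real.log ‖mn w x v / mn w x v0‖ = ∑ i, (y i : ℝ) * Real.log ‖x i‖ := by
  have h1 : ∀ v, Real.log ‖mn w x v / mn w x v0‖ =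
      Real.log ‖mn w x v‖ - Real.log ‖mn w x v0‖ := by
    intro v
    rw [norm_div, Real.log_div (norm_ne_zero_iff.2 (mn_ne_zero w hx v))
      (norm_ne_zero_iff.2 (mn_ne_zero w hx v0))]
  simp only [h1, mul_sub, Finset.sum_sub_distrib]
  rw [← Finset.sum_mul, ← Rat.cast_sum, hc, Rat.cast_zero, zero_mul, sub_zero]
  simp only [log_mn w hx, Finset.mul_sum]
  rw [Finset.sum_comm]
  refine Finset.sum_congr rfl fun i _ => ?_
  rw [← hy i, Rat.cast_sum, Finset.sum_mul]
  refine Finset.sum_congr rfl fun v _ => ?_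
  rw [Rat.cast_mul, Rat.cast_natCast]
  ring

theorem exists_of_ultra {U : Ultrafilter ℕ} {P : κ → ℕ → Prop}
    (h : ∀ᶠ n in (U : Filter ℕ), ∃ v, P v n) : ∃ v, ∀ᶠ n in (U : Filter ℕ), P v n := by
  have h1 : (⋃ v ∈ (Set.univ : Set κ), {n | P v n}) ∈ U := by
    have : (⋃ v ∈ (Set.univ : Set κ), {n | P v n}) = {n | ∃ v, P v n} := by
      ext n
      simp
    rw [this]
    exact h
  rw [Ultrafilter.finite_biUnion_mem_iff Set.finite_univ] at h1
  obtain ⟨v, _, hv⟩ := h1
  exact ⟨v, hv⟩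

/-- a bounded sequence of vectors converges along an ultrafilter -/
theorem exists_lim {α : Type} {U : Ultrafilter ℕ} {f : ℕ → α → ℂ}
    (h : ∀ᶠ n in (U : Filter ℕ), ∀ v, ‖f n v‖ ≤ 1) :
    ∃ y : α → ℂ, Tendsto f (U : Filter ℕ) (𝓝 y) := by
  have hc : IsCompact (Set.pi Set.univ fun _ : α => Metric.closedBall (0 : ℂ) 1) :=
    isCompact_univ_pi fun _ => isCompact_closedBall 0 1
  obtain ⟨y, _, hy⟩ := hc.ultrafilter_le_nhds (U.map f) (by
    rw [le_principal_iff]
    refine mem_map.2 ?_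
    filter_upwards [h] with n hn
    intro v _
    rw [mem_closedBall_zero_iff]
    exact hn v)
  exact ⟨y, hy⟩

theorem mn_mul (w : κ → Fin d → ℕ) (x y : Fin d → ℂ) (v : κ) :
    mn w (fun i => x i * y i) v = mn w x v * mn w y v := by
  unfold mn
  rw [← Finset.prod_mul_distrib]
  exact Finset.prod_congr rfl fun i _ => mul_pow _ _ _

theorem mn_norm (w : κ → Fin d → ℕ) (x : Fin d → ℂ) (v : κ) :
    mn w (fun i => ((‖x i‖ : ℝ) : ℂ)) v = ((‖mn w x v‖ : ℝ) : ℂ) := by
  unfold mn
  rw [norm_prod, Complex.ofReal_prod]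
  refine Finset.prod_congr rfl fun i _ => ?_
  rw [norm_pow, Complex.ofReal_pow]

theorem mn_exp (w : κ → Fin d → ℕ) (l : Fin d → ℝ) (v : κ) :
    mn w (fun i => ((Real.exp (l i) : ℝ) : ℂ)) v = ((Real.exp (∑ i, (w v i : ℝ) * l i) : ℝ) : ℂ) := by
  unfold mn
  rw [Real.exp_sum, Complex.ofReal_prod]
  refine Finset.prod_congr rfl fun i _ => ?_
  rw [← Complex.ofReal_pow, ← Real.exp_nat_mul]

theorem tendsto_mn (w : κ → Fin d → ℕ) {U : Filter ℕ} {x : ℕ → Fin d → ℂ} {y : Fin d → ℂ}
    (h : ∀ i, Tendsto (fun n => x n i) U (𝓝 (y i))) (v : κ) :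
    Tendsto (fun n => mn w (x n) v) U (𝓝 (mn w y v)) :=
  tendsto_finset_prod _ fun i _ => (h i).pow _

/-- the unit vectors -/
noncomputable def un (x : Fin d → ℂ) (i : Fin d) : ℂ := x i / ((‖x i‖ : ℝ) : ℂ)

theorem un_mul {x : Fin d → ℂ} (hx : x ∈ TT d) (i : Fin d) :
    ((‖x i‖ : ℝ) : ℂ) * un x i = x i := by
  unfold un
  rw [mul_div_cancel₀]
  exact Complex.ofReal_ne_zero.2 (norm_ne_zero_iff.2 (hx i))

theorem norm_un {x : Fin d → ℂ} (hx : x ∈ TT d) (i : Fin d) : ‖un x i‖ = 1 := by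
  unfold un
  rw [norm_div, Complex.norm_real, norm_norm, div_self (norm_ne_zero_iff.2 (hx i))]

theorem mn_un (w : κ → Fin d → ℕ) {x : Fin d → ℂ} (hx : x ∈ TT d) (v : κ) :
    mn w x v = ((‖mn w x v‖ : ℝ) : ℂ) * mn w (un x) v := by
  have h1 : x = fun i => ((‖x i‖ : ℝ) : ℂ) * un x i := by
    funext i
    exact (un_mul hx i).symm
  conv_lhs => rw [h1]
  rw [mn_mul, mn_norm]

/-- the unit vectors converge -/
theorem exists_un {U : Ultrafilter ℕ} {x : ℕ → Fin d → ℂ}
    (hx : ∀ᶠ n in (U : Filter ℕ), x n ∈ TT d) :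
    ∃ u : Fin d → ℂ, (∀ i, ‖u i‖ = 1) ∧
      ∀ i, Tendsto (fun n => un (x n) i) (U : Filter ℕ) (𝓝 (u i)) := by
  obtain ⟨u, hu⟩ := exists_lim (U := U) (f := fun n => un (x n)) (by
    filter_upwards [hx] with n hn
    intro i
    exact (norm_un hn i).le)
  have hu' : ∀ i, Tendsto (fun n => un (x n) i) (U : Filter ℕ) (𝓝 (u i)) := fun i =>
    tendsto_pi_nhds.1 hu i
  refine ⟨u, ?_, hu'⟩
  intro i
  have h1 : Tendsto (fun n => ‖un (x n) i‖) (U : Filter ℕ) (𝓝 ‖u i‖) := (hu' i).norm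
  have h2 : Tendsto (fun n => ‖un (x n) i‖) (U : Filter ℕ) (𝓝 1) := by
    refine Tendsto.congr' ?_ (tendsto_const_nhds (x := (1 : ℝ)))
    filter_upwards [hx] with n hn
    exact (norm_un hn i).symm
  exact tendsto_nhds_unique h1 h2

/-- (3): the limit of the quotients of the monomials comes from a point of the torus -/
theorem exists_pt (w : κ → Fin d → ℕ) {U : Ultrafilter ℕ} {x : ℕ → Fin d → ℂ}
    (hx : ∀ᶠ n in (U : Filter ℕ), x n ∈ TT d) (v0 : κ) {y : κ → ℂ}
    (hy : ∀ v, Tendsto (fun n => mn w (x n) v / mn w (x n) v0) (U : Filter ℕ) (𝓝 (y v))) :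
    ∃ z ∈ TT d, ∀ v, y v ≠ 0 → mn w z v = mn w z v0 * y v := by
  classical
  obtain ⟨u, hu1, hu⟩ := exists_un hx
  have hu0 : ∀ i, u i ≠ 0 := by
    intro i hi
    have := hu1 i
    rw [hi, norm_zero] at this
    exact absurd this (by norm_num)
  -- the absolute values
  let T : (Fin d → ℝ) →ₗ[ℝ] (κ → ℝ) :=
    { toFun := fun l v => if y v = 0 then 0 else ∑ i, ((w v i : ℝ) - w v0 i) * l i
      map_add' := by
        intro l l'
        funext v
        simp only [Pi.add_apply]
        split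
        · rw [add_zero]
        · rw [← Finset.sum_add_distrib]
          exact Finset.sum_congr rfl fun i _ => by ring
      map_smul' := by
        intro c l
        funext v
        simp only [Pi.smul_apply, smul_eq_mul, RingHom.id_apply]
        split
        · rw [mul_zero]
        · rw [Finset.mul_sum]
          exact Finset.sum_congr rfl fun i _ => by ring }
  have hT : ∀ l v, T l v = if y v = 0 then 0 else ∑ i, ((w v i : ℝ) - w v0 i) * l i :=
    fun _ _ => rfl
  have hlim : Tendsto (fun n => T fun i => Real.log ‖x n i‖) (U : Filter ℕ)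
      (𝓝 fun v => if y v = 0 then 0 else Real.log ‖y v‖) := by
    rw [tendsto_pi_nhds]
    intro v
    simp only [hT]
    split
    · exact tendsto_const_nhds
    · rename_i hv
      have h1 := ((hy v).norm).log (norm_ne_zero_iff.2 hv)
      refine Tendsto.congr' ?_ h1
      filter_upwards [hx] with n hn
      rw [norm_div, Real.log_div (norm_ne_zero_iff.2 (mn_ne_zero w hn v))
        (norm_ne_zero_iff.2 (mn_ne_zero w hn v0)), log_mn w hn, log_mn w hn,
        ← Finset.sum_sub_distrib]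
      exact Finset.sum_congr rfl fun i _ => by ring
  have hcl : IsClosed ((LinearMap.range T : Submodule ℝ (κ → ℝ)) : Set (κ → ℝ)) :=
    Submodule.closed_of_finiteDimensional _
  obtain ⟨l, hl⟩ := hcl.mem_of_tendsto hlim (Eventually.of_forall fun n => ⟨_, rfl⟩)
  refine ⟨fun i => ((Real.exp (l i) : ℝ) : ℂ) * u i, ?_, ?_⟩
  · intro i
    exact mul_ne_zero (Complex.ofReal_ne_zero.2 (Real.exp_ne_zero _)) (hu0 i)
  · intro v hv
    have hv0 : mn w u v0 ≠ 0 := mn_ne_zero w hu0 v0
    have h1 : y v * mn w u v0 = ((‖y v‖ : ℝ) : ℂ) * mn w u v := by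
      have h2 : Tendsto (fun n => mn w (x n) v / mn w (x n) v0 * mn w (un (x n)) v0)
          (U : Filter ℕ) (𝓝 (y v * mn w u v0)) := (hy v).mul (tendsto_mn w hu v0)
      have h3 : Tendsto (fun n => ((‖mn w (x n) v / mn w (x n) v0‖ : ℝ) : ℂ) *
          mn w (un (x n)) v) (U : Filter ℕ) (𝓝 (((‖y v‖ : ℝ) : ℂ) * mn w u v)) :=
        ((Complex.continuous_ofReal.tendsto _).comp (hy v).norm).mul (tendsto_mn w hu v)
      refine tendsto_nhds_unique h2 (Tendsto.congr' ?_ h3)
      filter_upwards [hx] with n hn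
      have h4 := mn_ne_zero w hn v0
      have h5 : ((‖mn w (x n) v0‖ : ℝ) : ℂ) ≠ 0 :=
        Complex.ofReal_ne_zero.2 (norm_ne_zero_iff.2 h4)
      rw [norm_div, Complex.ofReal_div]
      have e1 := mn_un w hn v
      have e2 := mn_un w hn v0
      rw [div_mul_eq_mul_div, ← e1]
      rw [div_mul_eq_mul_div, div_eq_div_iff h5 h4]
      conv_lhs => rw [e2]
      ring
    rw [mn_mul, mn_mul, mn_exp, mn_exp]
    have h2 := congrFun hl v
    rw [hT, if_neg hv] at h2
    simp only [if_neg hv] at h2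
    have h3 : Real.exp (∑ i, (w v i : ℝ) * l i) =
        Real.exp (∑ i, (w v0 i : ℝ) * l i) * ‖y v‖ := by
      rw [← Real.exp_log (norm_pos_iff.2 hv), ← h2, ← Real.exp_add]
      congr 1
      rw [← Finset.sum_add_distrib]
      exact Finset.sum_congr rfl fun i _ => by ring
    rw [h3, Complex.ofReal_mul, mul_assoc, mul_assoc, ← h1]
    ring

end

end KLM2Aux

open KLM2Aux in
theorem stmt_KLM2 : Stmt_KLM2 := by
  classical
  intro κ _ d w a A U x hfull hnd hdr hA hcr
  have hne : Nonempty κ := by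
    by_contra hcon
    rw [not_nonempty_iff] at hcon
    have h1 := hfull (fun _ => 1) 0 (fun v => isEmptyElim v)
    have h2 := congrFun h1 0
    simp at h2
  have hx : ∀ᶠ n in (U : Filter ℕ), x n ∈ TT (d + 1) := hcr.mono fun n hn => hn.1
  have hA' : ∀ v, Tendsto (fun n => A n v) (U : Filter ℕ) (𝓝 (a v)) := tendsto_pi_nhds.1 hA
  -- a maximal monomial
  obtain ⟨v0, hv0⟩ : ∃ v0, ∀ᶠ n in (U : Filter ℕ), ∀ v, ‖mn w (x n) v‖ ≤ ‖mn w (x n) v0‖ := by
    apply exists_of_ultra
    filter_upwards with n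
    obtain ⟨v0, _, h⟩ := Finset.exists_max_image Finset.univ (fun v => ‖mn w (x n) v‖)
      Finset.univ_nonempty
    exact ⟨v0, fun v => h v (Finset.mem_univ v)⟩
  have hle : ∀ᶠ n in (U : Filter ℕ), ∀ v, ‖mn w (x n) v / mn w (x n) v0‖ ≤ 1 := by
    filter_upwards [hx, hv0] with n hn h v
    rw [norm_div, div_le_one (norm_pos_iff.2 (mn_ne_zero w hn v0))]
    exact h v
  obtain ⟨y, hy⟩ := exists_lim hle
  have hy' : ∀ v, Tendsto (fun n => mn w (x n) v / mn w (x n) v0) (U : Filter ℕ) (𝓝 (y v)) :=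
    tendsto_pi_nhds.1 hy
  have hy0 : y v0 = 1 := by
    refine tendsto_nhds_unique (hy' v0) (Tendsto.congr' ?_ tendsto_const_nhds)
    filter_upwards [hx] with n hn
    rw [div_self (mn_ne_zero w hn v0)]
  -- (2) the equations in the limit
  have heq : ∀ c : κ → ℂ, (∀ᶠ n in (U : Filter ℕ), ∑ v, A n v * c v * mn w (x n) v = 0) →
      ∑ v, a v * c v * y v = 0 := by
    intro c hc
    have h1 : Tendsto (fun n => ∑ v, A n v * c v * (mn w (x n) v / mn w (x n) v0))
        (U : Filter ℕ) (𝓝 (∑ v, a v * c v * y v)) :=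
      tendsto_finset_sum _ fun v _ => ((hA' v).mul tendsto_const_nhds).mul (hy' v)
    refine tendsto_nhds_unique h1 (Tendsto.congr' ?_ tendsto_const_nhds)
    filter_upwards [hc] with n hn
    have h2 : ∑ v, A n v * c v * (mn w (x n) v / mn w (x n) v0) =
        (∑ v, A n v * c v * mn w (x n) v) / mn w (x n) v0 := by
      rw [Finset.sum_div]
      exact Finset.sum_congr rfl fun v _ => by ring
    rw [h2, hn, zero_div]
  have hs : ∑ v, a v * y v = 0 := by
    have h1 := heq (fun _ => 1) (by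
      filter_upwards [hcr] with n hn
      have := hn.2.1
      unfold sm at this
      simpa using this)
    simpa using h1
  have ht : ∀ i : Fin d, ∑ v, a v * (w v i.succ : ℂ) * y v = 0 := by
    intro i
    refine heq (fun v => (w v i.succ : ℂ)) ?_
    filter_upwards [hcr] with n hn
    exact hn.2.2 i
  set F : Finset κ := Finset.univ.filter fun v => y v ≠ 0 with hF
  have hmemF : ∀ v, v ∈ F ↔ y v ≠ 0 := by
    intro v
    rw [hF, Finset.mem_filter]
    exact ⟨fun h => h.2, fun h => ⟨Finset.mem_univ v, h⟩⟩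
  have hFne : F.Nonempty := ⟨v0, (hmemF v0).2 (by rw [hy0]; exact one_ne_zero)⟩
  -- (1) F is a face
  have hFc : Fc w F := by
    intro m hm1 hm2 hm3 v1 hv1
    by_contra hcon
    have hpos : 0 < m v1 := lt_of_le_of_ne (hm3 v1 hv1) (Ne.symm hcon)
    have hy1 : y v1 = 0 := by
      by_contra h
      exact hv1 ((hmemF v1).2 h)
    have hzero : ∀ᶠ n in (U : Filter ℕ),
        ∑ v, (m v : ℝ) * Real.log ‖mn w (x n) v / mn w (x n) v0‖ = 0 := by
      filter_upwards [hx] with n hn
      rw [log_sum w hn v0 m 0 hm1 hm2]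
      simp
    have hconv : Tendsto (fun n => ∑ v ∈ F, (m v : ℝ) *
        Real.log ‖mn w (x n) v / mn w (x n) v0‖) (U : Filter ℕ)
        (𝓝 (∑ v ∈ F, (m v : ℝ) * Real.log ‖y v‖)) := by
      refine tendsto_finset_sum _ fun v hv => ?_
      exact tendsto_const_nhds.mul ((hy' v).norm.log (norm_ne_zero_iff.2 ((hmemF v).1 hv)))
    have hbot : Tendsto (fun n => (m v1 : ℝ) * Real.log ‖mn w (x n) v1 / mn w (x n) v0‖)
        (U : Filter ℕ) atBot := by
      refine Tendsto.const_mul_atBot (by exact_mod_cast hpos) ?_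
      refine Real.tendsto_log_nhdsNE_zero.comp ?_
      rw [tendsto_nhdsWithin_iff]
      refine ⟨?_, ?_⟩
      · have := (hy' v1).norm
        rw [hy1, norm_zero] at this
        exact this
      · filter_upwards [hx] with n hn
        exact norm_ne_zero_iff.2 (div_ne_zero (mn_ne_zero w hn v1) (mn_ne_zero w hn v0))
    set c1 : ℝ := ∑ v ∈ F, (m v : ℝ) * Real.log ‖y v‖ with hc1
    have h1 := hconv.eventually (gt_mem_nhds (lt_add_one c1))
    have h2 := hbot.eventually (eventually_lt_atBot (-(c1 + 1)))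
    obtain ⟨n, h3, h4, h5, h6⟩ := (h1.and (h2.and (hzero.and hle))).exists
    have h7 : ∑ v ∈ Fᶜ, (m v : ℝ) * Real.log ‖mn w (x n) v / mn w (x n) v0‖ ≤
        (m v1 : ℝ) * Real.log ‖mn w (x n) v1 / mn w (x n) v0‖ := by
      rw [← Finset.sum_erase_add _ _ (Finset.mem_compl.2 hv1)]
      have h8 : ∑ v ∈ Fᶜ.erase v1, (m v : ℝ) * Real.log ‖mn w (x n) v / mn w (x n) v0‖ ≤ 0 := by
        refine Finset.sum_nonpos fun v hv => ?_
        have h9 : 0 ≤ m v := hm3 v (Finset.mem_compl.1 (Finset.mem_of_mem_erase hv))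
        exact mul_nonpos_of_nonneg_of_nonpos (by exact_mod_cast h9)
          (Real.log_nonpos (norm_nonneg _) (h6 v))
      linarith
    rw [← Finset.sum_add_sum_compl F] at h5
    linarith
  -- (3) a point of the torus
  obtain ⟨z, hz, hzy⟩ := exists_pt w hx v0 hy'
  -- (4) F is everything
  have hFuniv : F = Finset.univ := by
    by_contra hFu
    obtain ⟨u, hu⟩ : ∃ u, u ∉ F := by
      by_contra hcon
      push Not at hcon
      exact hFu (Finset.eq_univ_of_forall hcon)
    have hyu : ∀ v, v ∉ F → y v = 0 := by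
      intro v hv
      by_contra h
      exact hv ((hmemF v).2 h)
    obtain ⟨ρ, z0, hρ, hρ0⟩ : ∃ (ρ : Fin (d + 1) → ℚ) (z0 : ℚ),
        (∀ v ∈ F, ∑ i, ρ i * w v i = z0) ∧ ρ ≠ 0 := by
      by_contra hcon
      push Not at hcon
      obtain ⟨c, hc1, hc2, hc3⟩ := span_lemma w F hFne hcon (fun i => (w u i : ℚ)) 1
      have h1 := hFc (fun v => (if v = u then 1 else 0) - c v) (by
        rw [Finset.sum_sub_distrib, hc2, Finset.sum_ite_eq' Finset.univ u (fun _ => (1 : ℚ)),
          if_pos (Finset.mem_univ u), sub_self]) (by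
        intro i
        simp only [sub_mul, Finset.sum_sub_distrib, hc3 i, ite_mul, one_mul, zero_mul]
        rw [Finset.sum_ite_eq' Finset.univ u (fun v => (w v i : ℚ)),
          if_pos (Finset.mem_univ u), sub_self]) (by
        intro v hv
        simp only [hc1 v hv, sub_zero]
        split
        · exact zero_le_one
        · exact le_rfl) u hu
      simp only [if_true, hc1 u hu, sub_zero] at h1
      exact one_ne_zero h1
    obtain ⟨ρ', z', hρ'0, hρ'⟩ := hdr F ⟨ρ, z0, hρ0, hρ⟩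
    have hS : ∀ i : Fin (d + 1), ∑ v, a v * (w v i : ℂ) * y v = 0 := by
      intro i
      refine Fin.cases ?_ ht i
      have h1 : ∑ v, a v * ((∑ j, ρ' j * (w v j : ℚ) : ℚ) : ℂ) * y v = 0 := by
        have h2 : ∀ v, a v * ((∑ j, ρ' j * (w v j : ℚ) : ℚ) : ℂ) * y v =
            (z' : ℂ) * (a v * y v) := by
          intro v
          by_cases hv : v ∈ F
          · rw [hρ' v hv]
            ring
          · rw [hyu v hv]
            ring
        rw [Finset.sum_congr rfl fun v _ => h2 v, ← Finset.mul_sum, hs, mul_zero]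
      have h2 : ∑ v, a v * ((∑ j, ρ' j * (w v j : ℚ) : ℚ) : ℂ) * y v =
          ∑ j, (ρ' j : ℂ) * ∑ v, a v * (w v j : ℂ) * y v := by
        simp only [Rat.cast_sum, Rat.cast_mul, Rat.cast_natCast, Finset.mul_sum, Finset.sum_mul]
        rw [Finset.sum_comm]
        refine Finset.sum_congr rfl fun j _ => Finset.sum_congr rfl fun v _ => ?_
        ring
      rw [h1, Fin.sum_univ_succ] at h2
      simp only [ht, mul_zero, Finset.sum_const_zero, add_zero] at h2
      rcases mul_eq_zero.1 h2.symm with h3 | h3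
      · exact absurd (by exact_mod_cast h3) hρ'0
      · exact h3
    apply hnd F hFne hFu hFc z hz
    have key : ∀ c : κ → ℂ, ∑ v, a v * c v * y v = 0 → ∑ v ∈ F, a v * c v * mn w z v = 0 := by
      intro c hc
      have h1 : ∑ v ∈ F, a v * c v * mn w z v = mn w z v0 * ∑ v, a v * c v * y v := by
        rw [← Finset.sum_subset (Finset.subset_univ F) (fun v _ hv => by
          rw [hyu v hv, mul_zero]), Finset.mul_sum]
        refine Finset.sum_congr rfl fun v hv => ?_
        rw [hzy v ((hmemF v).1 hv)]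
        ring
      rw [h1, hc, mul_zero]
    refine ⟨?_, fun i => key _ (hS i)⟩
    have h1 := key (fun _ => 1) (by simpa using hs)
    simpa using h1
  -- (5) convergence
  have hyne : ∀ v, y v ≠ 0 := fun v => (hmemF v).1 (by rw [hFuniv]; exact Finset.mem_univ v)
  have hlog : ∀ i, ∃ L : ℝ, Tendsto (fun n => Real.log ‖x n i‖) (U : Filter ℕ) (𝓝 L) := by
    intro i
    obtain ⟨c, _, hc2, hc3⟩ := span_lemma w Finset.univ Finset.univ_nonempty
      (fun ρ z0 h => hfull ρ z0 fun v => h v (Finset.mem_univ v)) (Pi.single i 1) 0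
    refine ⟨∑ v, (c v : ℝ) * Real.log ‖y v‖, ?_⟩
    have h1 : Tendsto (fun n => ∑ v, (c v : ℝ) * Real.log ‖mn w (x n) v / mn w (x n) v0‖)
        (U : Filter ℕ) (𝓝 (∑ v, (c v : ℝ) * Real.log ‖y v‖)) :=
      tendsto_finset_sum _ fun v _ =>
        tendsto_const_nhds.mul ((hy' v).norm.log (norm_ne_zero_iff.2 (hyne v)))
    refine Tendsto.congr' ?_ h1
    filter_upwards [hx] with n hn
    rw [log_sum w hn v0 c _ hc2 hc3, Finset.sum_eq_single i]
    · rw [Pi.single_eq_same, Rat.cast_one, one_mul]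
    · intro j _ hj
      rw [Pi.single_eq_of_ne hj, Rat.cast_zero, zero_mul]
    · intro hi
      exact absurd (Finset.mem_univ i) hi
  choose L hL using hlog
  obtain ⟨u, hu1, hu⟩ := exists_un hx
  have hconv : ∀ i, Tendsto (fun n => x n i) (U : Filter ℕ)
      (𝓝 (((Real.exp (L i) : ℝ) : ℂ) * u i)) := by
    intro i
    have h1 : Tendsto (fun n => ((Real.exp (Real.log ‖x n i‖) : ℝ) : ℂ) * un (x n) i)
        (U : Filter ℕ) (𝓝 (((Real.exp (L i) : ℝ) : ℂ) * u i)) :=
      ((Complex.continuous_ofReal.tendsto _).comp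
        ((Real.continuous_exp.tendsto _).comp (hL i))).mul (hu i)
    refine Tendsto.congr' ?_ h1
    filter_upwards [hx] with n hn
    rw [Real.exp_log (norm_pos_iff.2 (hn i)), un_mul hn i]
  refine ⟨fun i => ((Real.exp (L i) : ℝ) : ℂ) * u i, ⟨?_, ?_, ?_⟩, tendsto_pi_nhds.2 hconv⟩
  · intro i
    refine mul_ne_zero (Complex.ofReal_ne_zero.2 (Real.exp_ne_zero _)) ?_
    intro hi
    have := hu1 i
    rw [hi, norm_zero] at this
    exact absurd this (by norm_num)
  · have h1 : Tendsto (fun n => sm w (A n) (x n)) (U : Filter ℕ)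
        (𝓝 (sm w a fun i => ((Real.exp (L i) : ℝ) : ℂ) * u i)) :=
      tendsto_finset_sum _ fun v _ => (hA' v).mul (tendsto_mn w hconv v)
    refine tendsto_nhds_unique h1 (Tendsto.congr' ?_ tendsto_const_nhds)
    filter_upwards [hcr] with n hn
    exact hn.2.1.symm
  · intro i
    have h1 : Tendsto (fun n => sth w (A n) (x n) i.succ) (U : Filter ℕ)
        (𝓝 (sth w a (fun i => ((Real.exp (L i) : ℝ) : ℂ) * u i) i.succ)) :=
      tendsto_finset_sum _ fun v _ =>
        ((hA' v).mul tendsto_const_nhds).mul (tendsto_mn w hconv v)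
    refine tendsto_nhds_unique h1 (Tendsto.congr' ?_ tendsto_const_nhds)
    filter_upwards [hcr] with n hn
    exact (hn.2.2 i).symm

end Pool.Agent.Mono.NP
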