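import Pool.Agent.Work.Monodromy.Interface12K

/-!
# KMON: the number of solutions of a system of monomial equations (helper27)
-/

set_option autoImplicit false

namespace Pool.Agent.Mono.NP

open Matrix

namespace KMONAux

variable {ι : Type} [Fintype ι] [DecidableEq ι]

/-- the logarithm of the solution with index `u` -/
noncomputable def wv (c : ι → ℂ) (u : ι → ℤ) : ι → ℂ :=
  fun j => Complex.log (c j) + (u j : ℂ) * (2 * Real.pi * Complex.I)

/-- the solution with index `u` -/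
noncomputable def sol (m : Matrix ι ι ℤ) (c : ι → ℂ) (u : ι → ℤ) : ι → ℂ :=
  fun i => Complex.exp (((m.map (Int.cast : ℤ → ℂ))⁻¹ *ᵥ wv c u) i)

theorem tpi : (2 * Real.pi * Complex.I : ℂ) ≠ 0 := Complex.two_pi_I_ne_zero

theorem det_cast (m : Matrix ι ι ℤ) : (m.map (Int.cast : ℤ → ℂ)).det = (m.det : ℂ) := by
  have := (RingHom.map_det (Int.castRingHom ℂ) m).symm
  simpa using this

theorem unit_det {m : Matrix ι ι ℤ} (h : m.det ≠ 0) :
    IsUnit (m.map (Int.cast : ℤ → ℂ)).det := by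
  rw [det_cast]
  exact (Int.cast_ne_zero.2 h).isUnit

omit [DecidableEq ι] in
theorem prod_exp (m : Matrix ι ι ℤ) (ζ : ι → ℂ) (j : ι) :
    ∏ i, Complex.exp (ζ i) ^ (m j i) = Complex.exp ((m.map (Int.cast : ℤ → ℂ) *ᵥ ζ) j) := by
  rw [Matrix.mulVec, dotProduct, Complex.exp_sum]
  refine Finset.prod_congr rfl fun i _ => ?_
  rw [← Complex.exp_int_mul]
  rfl

theorem sol_mem {m : Matrix ι ι ℤ} (h : m.det ≠ 0) {c : ι → ℂ} (hc : ∀ i, c i ≠ 0)
    (u : ι → ℤ) : (∀ i, sol m c u i ≠ 0) ∧ ∀ j, ∏ i, sol m c u i ^ (m j i) = c j := by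
  refine ⟨fun i => Complex.exp_ne_zero _, fun j => ?_⟩
  unfold sol
  rw [prod_exp, Matrix.mulVec_mulVec, Matrix.mul_nonsing_inv _ (unit_det h), Matrix.one_mulVec,
    wv, Complex.exp_add, Complex.exp_log (hc j), Complex.exp_int_mul_two_pi_mul_I, mul_one]

theorem sol_surj {m : Matrix ι ι ℤ} (h : m.det ≠ 0) {c : ι → ℂ} (hc : ∀ i, c i ≠ 0)
    {z : ι → ℂ} (hz : ∀ i, z i ≠ 0) (hz2 : ∀ j, ∏ i, z i ^ (m j i) = c j) :
    ∃ u, sol m c u = z := by
  have h1 : ∀ j, ∃ n : ℤ, (m.map (Int.cast : ℤ → ℂ) *ᵥ fun i => Complex.log (z i)) j =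
      Complex.log (c j) + n * (2 * Real.pi * Complex.I) := by
    intro j
    rw [← Complex.exp_eq_exp_iff_exists_int, ← prod_exp, Complex.exp_log (hc j), ← hz2 j]
    refine Finset.prod_congr rfl fun i _ => ?_
    rw [Complex.exp_log (hz i)]
  choose u hu using h1
  refine ⟨u, ?_⟩
  have h2 : wv c u = m.map (Int.cast : ℤ → ℂ) *ᵥ fun i => Complex.log (z i) := by
    ext j
    rw [hu]; rfl
  ext i
  unfold sol
  rw [h2, Matrix.mulVec_mulVec, Matrix.nonsing_inv_mul _ (unit_det h), Matrix.one_mulVec,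
    Complex.exp_log (hz i)]

theorem sol_eq {m : Matrix ι ι ℤ} (h : m.det ≠ 0) (c : ι → ℂ) (u u' : ι → ℤ) :
    sol m c u = sol m c u' ↔ ∃ n : ι → ℤ, m *ᵥ n = u' - u := by
  have hw : ∀ n : ι → ℤ, (m.map (Int.cast : ℤ → ℂ)) *ᵥ (fun i => (n i : ℂ)) =
      fun j => ((m *ᵥ n) j : ℂ) := by
    intro n
    ext j
    simp [Matrix.mulVec, dotProduct]
  constructor
  · intro he
    have h1 : ∀ i, ∃ n : ℤ, ((m.map (Int.cast : ℤ → ℂ))⁻¹ *ᵥ wv c u') i =
        ((m.map (Int.cast : ℤ → ℂ))⁻¹ *ᵥ wv c u) i + n * (2 * Real.pi * Complex.I) := by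
      intro i
      rw [← Complex.exp_eq_exp_iff_exists_int]
      exact (congrFun he i).symm
    choose n hn using h1
    refine ⟨n, ?_⟩
    have h2 : (m.map (Int.cast : ℤ → ℂ))⁻¹ *ᵥ wv c u' =
        (m.map (Int.cast : ℤ → ℂ))⁻¹ *ᵥ wv c u +
          (2 * Real.pi * Complex.I : ℂ) • fun i => (n i : ℂ) := by
      ext i
      rw [hn i, Pi.add_apply, Pi.smul_apply, smul_eq_mul, mul_comm]
    have h3 := congrArg (fun y => (m.map (Int.cast : ℤ → ℂ)) *ᵥ y) h2
    simp only [Matrix.mulVec_add, Matrix.mulVec_mulVec, Matrix.mulVec_smul,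
      Matrix.mul_nonsing_inv _ (unit_det h), Matrix.one_mulVec, hw] at h3
    ext j
    have h4 := congrFun h3 j
    simp only [wv, Pi.add_apply, Pi.smul_apply, smul_eq_mul] at h4
    have h5 : (2 * Real.pi * Complex.I : ℂ) * ((m *ᵥ n) j : ℂ) =
        (2 * Real.pi * Complex.I : ℂ) * ((u' j : ℂ) - u j) := by linear_combination -h4
    have h6 := mul_left_cancel₀ tpi h5
    rw [Pi.sub_apply]
    exact_mod_cast h6
  · rintro ⟨n, hn⟩
    have h1 : wv c u' = wv c u + (2 * Real.pi * Complex.I : ℂ) •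
        ((m.map (Int.cast : ℤ → ℂ)) *ᵥ fun i => (n i : ℂ)) := by
      rw [hw, hn]
      ext j
      simp only [wv, Pi.add_apply, Pi.smul_apply, smul_eq_mul, Pi.sub_apply, Int.cast_sub]
      ring
    ext i
    unfold sol
    rw [h1, Matrix.mulVec_add, Matrix.mulVec_smul, Matrix.mulVec_mulVec,
      Matrix.nonsing_inv_mul _ (unit_det h), Matrix.one_mulVec, Pi.add_apply, Pi.smul_apply,
      smul_eq_mul, Complex.exp_add, mul_comm (2 * Real.pi * Complex.I : ℂ),
      Complex.exp_int_mul_two_pi_mul_I, mul_one]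

theorem card_quot {m : Matrix ι ι ℤ} (h : m.det ≠ 0) :
    Nat.card ((ι → ℤ) ⧸ LinearMap.range m.mulVecLin) = m.det.natAbs := by
  have hinj : Function.Injective m.mulVecLin := by
    intro x y hxy
    have h1 : m.adjugate *ᵥ (m *ᵥ x) = m.adjugate *ᵥ (m *ᵥ y) := by
      rw [show m *ᵥ x = m *ᵥ y from hxy]
    rw [Matrix.mulVec_mulVec, Matrix.mulVec_mulVec, Matrix.adjugate_mul, Matrix.smul_mulVec,
      Matrix.smul_mulVec, Matrix.one_mulVec, Matrix.one_mulVec] at h1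
    ext i
    have h2 := congrFun h1 i
    simp only [Pi.smul_apply, smul_eq_mul] at h2
    exact mul_left_cancel₀ h h2
  let e : (ι → ℤ) ≃ₗ[ℤ] LinearMap.range m.mulVecLin := LinearEquiv.ofInjective m.mulVecLin hinj
  rw [← Submodule.natAbs_det_equiv _ e]
  congr 1
  have h1 : (LinearMap.range m.mulVecLin).subtype ∘ₗ (e : (ι → ℤ) →ₗ[ℤ] _) = m.mulVecLin := by
    ext x; rfl
  have h2 : m.mulVecLin = Matrix.toLin' m := rfl
  rw [← LinearMap.det_toLin' m, ← h2]
  exact congrArg LinearMap.det h1.symm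

end KMONAux

open KMONAux in
theorem stmt_KMON : Stmt_KMON := by
  intro ι _ _ m c hdet hc
  let S : Set (ι → ℂ) := {z : ι → ℂ | (∀ i, z i ≠ 0) ∧ ∀ j, ∏ i, z i ^ (m j i) = c j}
  let f : (ι → ℤ) → S := fun u => ⟨sol m c u, sol_mem hdet hc u⟩
  have hf : Function.Surjective f := by
    rintro ⟨z, hz1, hz2⟩
    obtain ⟨u, hu⟩ := sol_surj hdet hc hz1 hz2
    exact ⟨u, Subtype.ext hu⟩
  have h1 : Nat.card ((ι → ℤ) ⧸ LinearMap.range m.mulVecLin) = Nat.card S := by
    refine Nat.card_congr ((Quotient.congr (Equiv.refl _) ?_).trans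
      (Setoid.quotientKerEquivOfSurjective f hf))
    intro u u'
    have h2 : (Submodule.quotientRel (LinearMap.range m.mulVecLin)) u u' ↔
        ∃ n : ι → ℤ, m *ᵥ n = u - u' := by
      rw [Submodule.quotientRel_def]
      rfl
    have h3 : (Setoid.ker f) u u' ↔ ∃ n : ι → ℤ, m *ᵥ n = u' - u := by
      rw [← sol_eq hdet c u u', Setoid.ker_def]
      exact Subtype.ext_iff
    change (Submodule.quotientRel (LinearMap.range m.mulVecLin)) u u' ↔ (Setoid.ker f) u u'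
    rw [h2, h3]
    constructor
    · rintro ⟨n, hn⟩; exact ⟨-n, by rw [Matrix.mulVec_neg, hn, neg_sub]⟩
    · rintro ⟨n, hn⟩; exact ⟨-n, by rw [Matrix.mulVec_neg, hn, neg_sub]⟩
  rw [← card_quot hdet, h1]
  exact (Nat.card_coe_set_eq S).symm

end Pool.Agent.Mono.NP
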