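import Pool.Agent.Work.Monodromy12.MorseC

/-! MORSE (helper72): the node case, and the existence of an integral direction which is Morse at
all critical points including the nodes. -/

namespace Pool.Agent.Monodromy12.Morse

open Finset

theorem core_node {k E : Type*} [Field k] [Field E] [Algebra k E] [CharZero k] {d : ℕ} {K : Type*}
    [Fintype K] (a : K → k) (w : K → Fin (d + 1) → ℤ) (m : Fin d → E)
    (hm : AlgebraicIndependent k m) (x : Fin (d + 1) → E) (hx : ∀ i, x i ≠ 0) (mu : E)
    (xi : Fin (d + 1) → E)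
    (h1 : ∀ i, ∑ v, algebraMap k E (a v) * ((w v i : E) * mon x (w v)) = 0)
    (h2 : ∑ i, (Fin.cons 1 m : Fin (d + 1) → E) i * xi i = 0)
    (h3 : ∀ i, ∑ j, (∑ v, algebraMap k E (a v) * ((w v i : E) * (w v j : E) * mon x (w v))) * xi j
      = mu * (Fin.cons 1 m : Fin (d + 1) → E) i)
    (hH : (Matrix.of fun i j => ∑ v, algebraMap k E (a v) *
      ((w v i : E) * (w v j : E) * mon x (w v))).det ≠ 0) : xi = 0 := by
  classical
  haveI : CharZero E := charZero_of_injective_algebraMap (algebraMap k E).injective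
  set V : Fin (d + 1) → E := Fin.cons 1 m with hV
  set H : Matrix (Fin (d + 1)) (Fin (d + 1)) E := Matrix.of fun i j => ∑ v, algebraMap k E (a v) *
      ((w v i : E) * (w v j : E) * mon x (w v)) with hHdef
  have hinj : ∀ u : Fin (d + 1) → E, (∀ i, ∑ j, H i j * u j = 0) → u = 0 := by
    intro u hu
    exact Matrix.eq_zero_of_mulVec_eq_zero hH (funext fun i => hu i)
  have hsym : ∀ i j, H i j = H j i := by
    intro i j
    simp only [hHdef, Matrix.of_apply]
    exact Finset.sum_congr rfl fun v _ => by ring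
  have h3' : ∀ i, ∑ j, H i j * xi j = mu * V i := h3
  have hV0 : V 0 = 1 := rfl
  have hVs : ∀ i : Fin d, V i.succ = m i := fun i => rfl
  by_contra hxi
  have hmu : mu ≠ 0 := by
    intro h
    apply hxi
    apply hinj
    intro i
    rw [h3' i, h, zero_mul]
  -- normalise
  obtain ⟨ζ, z1, z2⟩ : ∃ ζ : Fin (d + 1) → E, (∀ i, ∑ j, H i j * ζ j = V i) ∧
      ∑ i, V i * ζ i = 0 := by
    refine ⟨fun i => mu⁻¹ * xi i, fun i => ?_, ?_⟩
    · have : ∀ j, H i j * (mu⁻¹ * xi j) = mu⁻¹ * (H i j * xi j) := fun j => by ring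
      simp_rw [this, ← Finset.mul_sum, h3' i]
      field_simp
    · have : ∀ j, V j * (mu⁻¹ * xi j) = mu⁻¹ * (V j * xi j) := fun j => by ring
      simp_rw [this, ← Finset.mul_sum, h2, mul_zero]
  have hpos : ∀ j : Fin d, ζ j.succ = 0 := by
    intro j
    obtain ⟨D, hD⟩ := exists_derivation m hm (fun i => if i = j then 1 else 0)
    have hDV : ∀ i, D (V i) = if i = j.succ then 1 else 0 := by
      intro i
      refine Fin.cases ?_ (fun i' => ?_) i
      · rw [hV0, D.map_one_eq_zero, if_neg (Fin.succ_ne_zero j).symm]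
      · rw [hVs, hD]; simp only [Fin.succ_inj]
    set A : Fin (d + 1) → E := fun l => D (x l) / x l with hA
    have hDc : ∀ (c : k) (y : E), D (algebraMap k E c * y) = algebraMap k E c * D y := by
      intro c y
      rw [D.leibniz, D.map_algebraMap]; simp
    have hDm : ∀ v, D (mon x (w v)) = (∑ l, (w v l : E) * A l) * mon x (w v) :=
      fun v => D_mon D x hx (w v)
    have hDi : ∀ (z : ℤ) (y : E), D ((z : E) * y) = (z : E) * D y := by
      intro z y
      rw [D.leibniz, D.map_intCast]; simp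
    have hA0 : A = 0 := by
      apply hinj
      intro i
      have h5 : D (∑ v, algebraMap k E (a v) * ((w v i : E) * mon x (w v))) = 0 := by
        rw [h1 i, map_zero]
      rw [map_sum] at h5
      rw [← h5]
      simp only [hHdef, Matrix.of_apply]
      simp_rw [hDc, hDi, hDm, Finset.sum_mul, Finset.mul_sum]
      rw [Finset.sum_comm]
      refine Finset.sum_congr rfl fun v _ => Finset.sum_congr rfl fun l _ => ?_
      ring
    have hDm0 : ∀ v, D (mon x (w v)) = 0 := by
      intro v
      rw [hDm v, hA0]; simp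
    have hDH : ∀ i l, D (H i l) = 0 := by
      intro i l
      simp only [hHdef, Matrix.of_apply]
      rw [map_sum]
      refine Finset.sum_eq_zero fun v _ => ?_
      rw [hDc, mul_assoc, hDi, hDi, hDm0 v]; simp
    -- H (Dζ) = e_j
    have y1 : ∀ i, ∑ l, H i l * D (ζ l) = if i = j.succ then 1 else 0 := by
      intro i
      rw [← hDV i, ← z1 i, map_sum]
      refine Finset.sum_congr rfl fun l _ => ?_
      rw [D.leibniz (H i l) (ζ l), hDH]; simp
    -- D of V·ζ
    have y2 : ζ j.succ + ∑ i, V i * D (ζ i) = 0 := by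
      have h5 : D (∑ i, V i * ζ i) = 0 := by rw [z2, map_zero]
      rw [map_sum] at h5
      rw [← h5]
      have : ∀ i, D (V i * ζ i) = V i * D (ζ i) + ζ i * D (V i) := by
        intro i; rw [D.leibniz]; simp only [smul_eq_mul]
      simp_rw [this, Finset.sum_add_distrib, hDV]
      simp
      ring
    have y3 : ∑ i, V i * D (ζ i) = ζ j.succ := by
      simp_rw [← z1, Finset.sum_mul]
      rw [Finset.sum_comm]
      have : ∀ l, ∑ i, H i l * ζ l * D (ζ i) = ζ l * (if l = j.succ then 1 else 0) := by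
        intro l
        rw [← y1 l, Finset.mul_sum]
        refine Finset.sum_congr rfl fun i _ => ?_
        rw [hsym l i]; ring
      simp_rw [this]
      simp
    rw [y3] at y2
    have : (2 : E) * ζ j.succ = 0 := by rw [two_mul]; exact y2
    exact (mul_eq_zero.mp this).resolve_left two_ne_zero
  have hζ0 : ζ 0 = 0 := by
    rw [Fin.sum_univ_succ] at z2
    have : ∑ i : Fin d, V i.succ * ζ i.succ = 0 :=
      Finset.sum_eq_zero fun j _ => by rw [hpos j, mul_zero]
    rw [this, add_zero, hV0, one_mul] at z2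
    exact z2
  have h6 := z1 0
  rw [hV0] at h6
  have : ∑ j, H 0 j * ζ j = 0 := by
    refine Finset.sum_eq_zero fun l _ => ?_
    refine Fin.cases ?_ (fun j => ?_) l
    · rw [hζ0, mul_zero]
    · rw [hpos j, mul_zero]
  rw [this] at h6
  exact zero_ne_one h6

theorem morse_exists2 {d : ℕ} {K : Type*} [Fintype K] (a : K → ℂ) (w : K → Fin (d + 1) → ℤ)
    (q : MvPolynomial (Fin d) ℂ) (hq : q ≠ 0) :
    ∃ m : Fin d → ℕ, MvPolynomial.eval (fun i => (m i : ℂ)) q ≠ 0 ∧
      ∀ x : Fin (d + 1) → ℂ, (∀ i, x i ≠ 0) → ∑ v, a v * mon x (w v) = 0 →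
      ∀ lam : ℂ, (lam ≠ 0 ∨ (Matrix.of fun i j => ∑ v, a v *
        ((w v i : ℂ) * (w v j : ℂ) * mon x (w v))).det ≠ 0) →
      (∀ i, ∑ v, a v * ((w v i : ℂ) * mon x (w v))
        = lam * (Fin.cons 1 (fun i => (m i : ℂ)) : Fin (d + 1) → ℂ) i) →
      ∀ (xi : Fin (d + 1) → ℂ) (mu : ℂ),
      ∑ i, (Fin.cons 1 (fun i => (m i : ℂ)) : Fin (d + 1) → ℂ) i * xi i = 0 →
      (∀ i, ∑ j, (∑ v, a v * ((w v i : ℂ) * (w v j : ℂ) * mon x (w v))) * xi j
        = mu * (Fin.cons 1 (fun i => (m i : ℂ)) : Fin (d + 1) → ℂ) i) → xi = 0 := by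
  classical
  by_contra hcon
  push Not at hcon
  -- choose a counterexample for every good m
  have hch : ∀ m : Fin d → ℕ, ∃ (x : Fin (d + 1) → ℂ) (lam : ℂ) (xi : Fin (d + 1) → ℂ) (mu : ℂ),
      MvPolynomial.eval (fun i => (m i : ℂ)) q ≠ 0 →
      ((∀ i, x i ≠ 0) ∧ ∑ v, a v * mon x (w v) = 0 ∧ (lam ≠ 0 ∨ (Matrix.of fun i j => ∑ v, a v *
        ((w v i : ℂ) * (w v j : ℂ) * mon x (w v))).det ≠ 0) ∧
      (∀ i, ∑ v, a v * ((w v i : ℂ) * mon x (w v))
        = lam * (Fin.cons 1 (fun i => (m i : ℂ)) : Fin (d + 1) → ℂ) i) ∧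
      ∑ i, (Fin.cons 1 (fun i => (m i : ℂ)) : Fin (d + 1) → ℂ) i * xi i = 0 ∧
      (∀ i, ∑ j, (∑ v, a v * ((w v i : ℂ) * (w v j : ℂ) * mon x (w v))) * xi j
        = mu * (Fin.cons 1 (fun i => (m i : ℂ)) : Fin (d + 1) → ℂ) i) ∧ xi ≠ 0) := by
    intro m
    by_cases hm : MvPolynomial.eval (fun i => (m i : ℂ)) q = 0
    · exact ⟨0, 0, 0, 0, fun h => absurd hm h⟩
    · obtain ⟨x, h1, h2, lam, h3, h4, xi, mu, h5, h6, h7⟩ := hcon m hm
      exact ⟨x, lam, xi, mu, fun _ => ⟨h1, h2, h3, h4, h5, h6, h7⟩⟩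
  choose X Lam Xi Mu H using hch
  let φ : Ultrafilter (Fin d → ℕ) := Ultrafilter.of (nvFilter d)
  have hφ : ∀ r : MvPolynomial (Fin d) ℂ, r ≠ 0 →
      ∀ᶠ m : Fin d → ℕ in (φ : Filter (Fin d → ℕ)), MvPolynomial.eval (fun i => (m i : ℂ)) r ≠ 0 := by
    intro r hr
    apply Ultrafilter.of_le (nvFilter d)
    exact ⟨r, hr, fun m hm => hm⟩
  let E := Filter.Germ (φ : Filter (Fin d → ℕ)) ℂ
  let G : ((Fin d → ℕ) → ℂ) →+* E := Filter.Germ.coeRingHom (φ : Filter (Fin d → ℕ))
  letI : Algebra ℂ E := (G.comp (Pi.constRingHom (Fin d → ℕ) ℂ)).toAlgebra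
  have hG : ∀ f g : (Fin d → ℕ) → ℂ, (∀ᶠ m in (φ : Filter (Fin d → ℕ)), f m = g m) → G f = G g := by
    intro f g h
    exact Filter.Germ.coe_eq.mpr h
  have hG0 : ∀ f : (Fin d → ℕ) → ℂ, (∀ᶠ m in (φ : Filter (Fin d → ℕ)), f m ≠ 0) → G f ≠ 0 := by
    intro f h h0
    have h1 : ∀ᶠ m in (φ : Filter (Fin d → ℕ)), f m = 0 := by
      have : (G f) = G 0 := by rw [h0, map_zero]
      exact Filter.Germ.coe_eq.mp this
    obtain ⟨m, hm1, hm2⟩ := (h.and h1).exists
    exact hm1 hm2
  have hC : ∀ c : ℂ, algebraMap ℂ E c = G (fun _ => c) := fun c => rfl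
  let mg : Fin d → E := fun i => G (fun m => (m i : ℂ))
  let xg : Fin (d + 1) → E := fun i => G (fun m => X m i)
  let xig : Fin (d + 1) → E := fun i => G (fun m => Xi m i)
  -- germs of monomials
  have hmon : ∀ z : Fin (d + 1) → ℤ, mon xg z = G (fun m => mon (X m) z) := by
    intro z
    have h1 : ∀ i, xg i ^ z i = G (fun m => X m i ^ z i) := fun i => rfl
    simp only [mon]
    simp_rw [h1]
    rw [← map_prod]
    congr 1
    funext m
    simp [Finset.prod_apply]
  have hV : ∀ i, (Fin.cons 1 mg : Fin (d + 1) → E) i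
      = G (fun m => (Fin.cons 1 (fun i => (m i : ℂ)) : Fin (d + 1) → ℂ) i) := by
    intro i
    refine Fin.cases ?_ (fun j => ?_) i
    · simp only [Fin.cons_zero]
      exact (map_one G).symm
    · simp only [Fin.cons_succ]
      rfl
  have hI : ∀ z : ℤ, (z : E) = G (fun _ => (z : ℂ)) := by
    intro z
    have : (fun _ : Fin d → ℕ => (z : ℂ)) = ((z : ℤ) : (Fin d → ℕ) → ℂ) := by
      funext m; simp
    rw [this, map_intCast]
  -- algebraic independence of the germ of m
  have hind : AlgebraicIndependent ℂ mg := by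
    rw [algebraicIndependent_iff]
    intro p hp
    by_contra hp0
    have h1 : MvPolynomial.aeval mg p
        = G (fun m => MvPolynomial.eval (fun i => (m i : ℂ)) p) := by
      let Ψ : MvPolynomial (Fin d) ℂ →+* ((Fin d → ℕ) → ℂ) :=
        Pi.ringHom (fun m => MvPolynomial.eval (fun i => (m i : ℂ)))
      have h2 : (MvPolynomial.aeval mg : MvPolynomial (Fin d) ℂ →ₐ[ℂ] E).toRingHom = G.comp Ψ := by
        apply MvPolynomial.ringHom_ext
        · intro c
          have : Ψ (MvPolynomial.C c) = fun _ => c := by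
            funext m
            show MvPolynomial.eval (fun i => (m i : ℂ)) (MvPolynomial.C c) = c
            simp
          simp only [RingHom.comp_apply, this, AlgHom.toRingHom_eq_coe, RingHom.coe_coe,
            MvPolynomial.aeval_C]
          exact hC c
        · intro i
          have : Ψ (MvPolynomial.X i) = fun m => (m i : ℂ) := by
            funext m
            show MvPolynomial.eval (fun i => (m i : ℂ)) (MvPolynomial.X i) = (m i : ℂ)
            simp
          simp only [RingHom.comp_apply, this, AlgHom.toRingHom_eq_coe, RingHom.coe_coe,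
            MvPolynomial.aeval_X]
          rfl
      exact congrArg (fun f => f p) h2
    rw [h1] at hp
    exact hG0 _ (hφ p hp0) hp
  have hev := hφ q hq
  have e0 : ∀ i, xg i ≠ 0 := fun i => hG0 _ (by filter_upwards [hev] with m hm using (H m hm).1 i)
  have e1 : ∑ v, algebraMap ℂ E (a v) * mon xg (w v) = 0 := by
    simp_rw [hC, hmon, ← map_mul, ← map_sum]
    rw [← map_zero G]
    apply hG
    filter_upwards [hev] with m hm
    simpa [Finset.sum_apply] using (H m hm).2.1
  have e4 : ∀ i, ∑ v, algebraMap ℂ E (a v) * ((w v i : E) * mon xg (w v))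
      = G Lam * (Fin.cons 1 mg : Fin (d + 1) → E) i := by
    intro i
    simp_rw [hC, hI, hmon, hV, ← map_mul, ← map_sum]
    apply hG
    filter_upwards [hev] with m hm
    have := (H m hm).2.2.2.1 i
    simpa [Finset.sum_apply] using this
  have e5 : ∑ i, (Fin.cons 1 mg : Fin (d + 1) → E) i * xig i = 0 := by
    simp only [xig]
    simp_rw [hV, ← map_mul, ← map_sum]
    rw [← map_zero G]
    apply hG
    filter_upwards [hev] with m hm
    have := (H m hm).2.2.2.2.1
    simpa [Finset.sum_apply] using this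
  have e6 : ∀ i, ∑ j, (∑ v, algebraMap ℂ E (a v) *
      ((w v i : E) * (w v j : E) * mon xg (w v))) * xig j
      = G Mu * (Fin.cons 1 mg : Fin (d + 1) → E) i := by
    intro i
    simp only [xig]
    simp_rw [hC, hI, hmon, hV, ← map_mul, ← map_sum, ← map_mul, ← map_sum]
    apply hG
    filter_upwards [hev] with m hm
    have := (H m hm).2.2.2.2.2.1 i
    simpa [Finset.sum_apply] using this
  have hxi : xig = 0 := by
    rcases (φ.em fun m => Lam m = 0) with hz | hnz
    · have hL0 : G Lam = 0 := by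
        have : G Lam = G 0 := hG _ _ (by filter_upwards [hz] with m hm using hm)
        rw [this, map_zero]
      have e4' : ∀ i, ∑ v, algebraMap ℂ E (a v) * ((w v i : E) * mon xg (w v)) = 0 := by
        intro i; rw [e4 i, hL0, zero_mul]
      have e7 : (Matrix.of fun i j => ∑ v, algebraMap ℂ E (a v) *
          ((w v i : E) * (w v j : E) * mon xg (w v))).det ≠ 0 := by
        have h8 : (Matrix.of fun i j => ∑ v, algebraMap ℂ E (a v) *
          ((w v i : E) * (w v j : E) * mon xg (w v))) = G.mapMatrix (Matrix.of fun i j m =>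
            ∑ v, a v * ((w v i : ℂ) * (w v j : ℂ) * mon (X m) (w v))) := by
          ext i j
          simp only [RingHom.mapMatrix_apply, Matrix.map_apply, Matrix.of_apply]
          simp_rw [hC, hI, hmon, ← map_mul, ← map_sum]
          congr 1
          funext m
          simp [Finset.sum_apply]
        rw [h8, ← RingHom.map_det]
        apply hG0
        filter_upwards [hev, hz] with m hm hm0
        have h9 := ((H m hm).2.2.1).resolve_left (fun h => h hm0)
        have h10 : ((Matrix.of fun i j m => ∑ v, a v * ((w v i : ℂ) * (w v j : ℂ) *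
            mon (X m) (w v)) : Matrix (Fin (d + 1)) (Fin (d + 1)) ((Fin d → ℕ) → ℂ)).det) m
            = (Matrix.of fun i j => ∑ v, a v *
              ((w v i : ℂ) * (w v j : ℂ) * mon (X m) (w v))).det := by
          exact RingHom.map_det (Pi.evalRingHom (fun _ : Fin d → ℕ => ℂ) m) _
        rw [h10]
        exact h9
      exact core_node a w mg hind xg e0 (G Mu) xig e4' e5 e6 e7
    · have e3 : G Lam ≠ 0 := hG0 _ hnz
      exact core a w mg hind xg e0 (G Lam) (G Mu) e3 xig e1 e4 e5 e6
  have hall : ∀ᶠ m in (φ : Filter (Fin d → ℕ)), ∀ i, Xi m i = 0 := by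
    rw [Filter.eventually_all]
    intro i
    have h1 : G (fun m => Xi m i) = G 0 := by
      rw [map_zero]; exact congrFun hxi i
    exact Filter.Germ.coe_eq.mp h1
  obtain ⟨m, hm1, hm2⟩ := (hev.and hall).exists
  exact (H m hm1).2.2.2.2.2.2 (funext hm2)

end Pool.Agent.Monodromy12.Morse
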