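import Pool.Agent.Work.Monodromy.Interface12K
import Pool.Agent.Work.Monodromy12.MorseD

/-!
# Phase 12, block KMOR (helper72): generic directions have nondegenerate critical points
-/

set_option autoImplicit false

namespace Pool.Agent.Mono.NP

open MvPolynomial

namespace KMORAux

open Pool.Agent.Monodromy12.Morse (mon)

variable {κ : Type} [Fintype κ] {d : ℕ}

/-- integral exponents -/
def zw (w : κ → Fin (d + 1) → ℕ) : κ → Fin (d + 1) → ℤ := fun v i => (w v i : ℤ)

theorem mon_eq (w : κ → Fin (d + 1) → ℕ) (x : Fin (d + 1) → ℂ) (v : κ) :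
    mon x (zw w v) = mn w x v := by
  simp only [mon, mn, zw, zpow_natCast]

/-- the product `∏ x_{i+1}^{m_i}` -/
def fac (m : Fin d → ℕ) (x : Fin (d + 1) → ℂ) : ℂ := ∏ i : Fin d, x i.succ ^ m i

/-- the point in the original coordinates -/
noncomputable def back (m : Fin d → ℕ) (x : Fin (d + 1) → ℂ) : Fin (d + 1) → ℂ :=
  Fin.cons (x 0 * (fac m x)⁻¹) fun i => x i.succ

theorem fac_ne (m : Fin d → ℕ) (x : Fin (d + 1) → ℂ) (hx : x ∈ TT (d + 1)) : fac m x ≠ 0 :=
  Finset.prod_ne_zero_iff.mpr fun i _ => pow_ne_zero _ (hx i.succ)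

theorem back_mem (m : Fin d → ℕ) (x : Fin (d + 1) → ℂ) (hx : x ∈ TT (d + 1)) :
    back m x ∈ TT (d + 1) := by
  intro i
  refine Fin.cases ?_ (fun j => ?_) i
  · exact mul_ne_zero (hx 0) (inv_ne_zero (fac_ne m x hx))
  · exact hx j.succ

theorem mn_chw (m : Fin d → ℕ) (W : ℕ) (w : κ → Fin (d + 1) → ℕ) (hW : ∀ v, w v 0 ≤ W)
    (x : Fin (d + 1) → ℂ) (hx : x ∈ TT (d + 1)) (v : κ) :
    mn (chw m W w) x v = fac m x ^ W * mn w (back m x) v := by
  have hf := fac_ne m x hx
  have h1 : mn (chw m W w) x v = x 0 ^ w v 0 * ((∏ i : Fin d, x i.succ ^ w v i.succ) *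
      fac m x ^ (W - w v 0)) := by
    simp only [mn, chw, Fin.prod_univ_succ, Fin.cons_zero, Fin.cons_succ, fac]
    rw [← Finset.prod_pow, ← Finset.prod_mul_distrib]
    congr 1
    refine Finset.prod_congr rfl fun i _ => ?_
    rw [pow_add, pow_mul]
  have h2 : mn w (back m x) v = (x 0 * (fac m x)⁻¹) ^ w v 0 * ∏ i : Fin d, x i.succ ^ w v i.succ := by
    simp only [mn, back, Fin.prod_univ_succ, Fin.cons_zero, Fin.cons_succ]
  have h3 : fac m x ^ W = fac m x ^ (W - w v 0) * fac m x ^ w v 0 := by
    rw [← pow_add, Nat.sub_add_cancel (hW v)]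
  rw [h1, h2, h3, mul_pow, inv_pow]
  field_simp

end KMORAux

open KMORAux in
theorem stmt_KMOR : Stmt_KMOR := by
  classical
  intro κ _ d w a W hW hNod P hP
  have hq : (MvPolynomial.map (algebraMap ℚ ℂ) P) ≠ 0 := by
    intro h
    apply hP
    exact (MvPolynomial.map_injective _ (algebraMap ℚ ℂ).injective) (by rw [h, map_zero])
  obtain ⟨m, hm1, hm2⟩ := Pool.Agent.Monodromy12.Morse.morse_exists2 a (zw w)
    (MvPolynomial.map (algebraMap ℚ ℂ) P) hq
  refine ⟨m, ?_, ?_⟩
  · intro h
    apply hm1
    rw [MvPolynomial.eval_map]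
    have : MvPolynomial.eval₂ (algebraMap ℚ ℂ) (fun i => (m i : ℂ)) P
        = algebraMap ℚ ℂ (MvPolynomial.eval (fun i => (m i : ℚ)) P) := by
      rw [← MvPolynomial.eval₂_id, MvPolynomial.hom_eval₂]
      simp only [RingHom.comp_id]
      congr 1
    rw [this, h, map_zero]
  · intro x hx
    obtain ⟨hxT, hx0, hxi⟩ := hx
    set y := back m x with hy
    have hyT : y ∈ TT (d + 1) := back_mem m x hxT
    have hM : fac m x ^ W ≠ 0 := pow_ne_zero _ (fac_ne m x hxT)
    set M := fac m x ^ W with hMdef
    have hmn : ∀ v, mn (chw m W w) x v = M * mn w y v := mn_chw m W w hW x hxT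
    -- the equations at y
    have f0 : ∑ v, a v * mn w y v = 0 := by
      have : sm (chw m W w) a x = M * ∑ v, a v * mn w y v := by
        simp only [sm]
        rw [Finset.mul_sum]
        refine Finset.sum_congr rfl fun v _ => ?_
        rw [hmn v]; ring
      rw [this] at hx0
      exact (mul_eq_zero.mp hx0).resolve_left hM
    have hcw : ∀ v (i : Fin d), ((chw m W w v i.succ : ℕ) : ℂ)
        = (w v i.succ : ℂ) - (m i : ℂ) * (w v 0 : ℂ) + (m i : ℂ) * (W : ℂ) := by
      intro v i
      simp only [chw, Fin.cons_succ]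
      push_cast [Nat.cast_sub (hW v)]
      ring
    have f1 : ∀ i : Fin d, sth w a y i.succ = (m i : ℂ) * sth w a y 0 := by
      intro i
      have h := hxi i
      have h2 : sth (chw m W w) a x i.succ = M * (sth w a y i.succ - (m i : ℂ) * sth w a y 0
          + (m i : ℂ) * W * ∑ v, a v * mn w y v) := by
        simp only [sth]
        rw [Finset.mul_sum, Finset.mul_sum, ← Finset.sum_sub_distrib, ← Finset.sum_add_distrib,
          Finset.mul_sum]
        refine Finset.sum_congr rfl fun v _ => ?_
        rw [hmn v, hcw v i]; ring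
      rw [h2, f0, mul_zero, add_zero] at h
      have h3 := (mul_eq_zero.mp h).resolve_left hM
      exact sub_eq_zero.mp h3
    set H : Fin (d + 1) → Fin (d + 1) → ℂ := shs w a y with hH
    have f2 : ∀ i j : Fin d, shs (chw m W w) a x i.succ j.succ
        = M * (H i.succ j.succ - (m i : ℂ) * H 0 j.succ - (m j : ℂ) * H i.succ 0
          + (m i : ℂ) * (m j : ℂ) * H 0 0) := by
      intro i j
      have g1 := f1 i
      have g2 := f1 j
      have h2 : shs (chw m W w) a x i.succ j.succ = M * ((H i.succ j.succ - (m i : ℂ) * H 0 j.succ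
          - (m j : ℂ) * H i.succ 0 + (m i : ℂ) * (m j : ℂ) * H 0 0)
          + (m i : ℂ) * W * (sth w a y j.succ - (m j : ℂ) * sth w a y 0)
          + (m j : ℂ) * W * (sth w a y i.succ - (m i : ℂ) * sth w a y 0)
          + (m i : ℂ) * W * ((m j : ℂ) * W) * ∑ v, a v * mn w y v) := by
        simp only [hH, shs, sth]
        simp only [Finset.mul_sum, ← Finset.sum_sub_distrib, ← Finset.sum_add_distrib]
        refine Finset.sum_congr rfl fun v _ => ?_
        rw [hmn v, hcw v i, hcw v j]; ring
      rw [h2, f0, g1, g2]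
      ring
    intro hdet
    obtain ⟨c, hc0, hc⟩ := Matrix.exists_mulVec_eq_zero_iff.mpr hdet
    -- the vector ζ
    set ζ : Fin (d + 1) → ℂ := Fin.cons (-∑ i, (m i : ℂ) * c i) c with hζ
    have hc' : ∀ i : Fin d, ∑ j : Fin d, (H i.succ j.succ - (m i : ℂ) * H 0 j.succ
        - (m j : ℂ) * H i.succ 0 + (m i : ℂ) * (m j : ℂ) * H 0 0) * c j = 0 := by
      intro i
      have h := congrFun hc i
      simp only [Matrix.mulVec, dotProduct, Matrix.of_apply, Pi.zero_apply] at h
      have h2 : ∑ j : Fin d, shs (chw m W w) a x i.succ j.succ * c j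
          = M * ∑ j : Fin d, (H i.succ j.succ - (m i : ℂ) * H 0 j.succ
        - (m j : ℂ) * H i.succ 0 + (m i : ℂ) * (m j : ℂ) * H 0 0) * c j := by
        rw [Finset.mul_sum]
        refine Finset.sum_congr rfl fun j _ => ?_
        rw [f2]; ring
      rw [h2] at h
      exact (mul_eq_zero.mp h).resolve_left hM
    have hHζ : ∀ i, ∑ j, H i j * ζ j
        = -H i 0 * (∑ j, (m j : ℂ) * c j) + ∑ j : Fin d, H i j.succ * c j := by
      intro i
      rw [Fin.sum_univ_succ]
      simp only [hζ, Fin.cons_zero, Fin.cons_succ]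
      ring
    set mu : ℂ := ∑ j, H 0 j * ζ j with hmu
    have key : ∀ i, ∑ j, H i j * ζ j = mu * (Fin.cons 1 (fun i => (m i : ℂ)) : Fin (d + 1) → ℂ) i := by
      intro i
      refine Fin.cases ?_ (fun i' => ?_) i
      · simp [hmu]
      · simp only [Fin.cons_succ]
        rw [hmu, hHζ, hHζ]
        have h := hc' i'
        have h2 : ∑ j : Fin d, (H i'.succ j.succ - (m i' : ℂ) * H 0 j.succ
            - (m j : ℂ) * H i'.succ 0 + (m i' : ℂ) * (m j : ℂ) * H 0 0) * c j
            = (∑ j : Fin d, H i'.succ j.succ * c j) - (m i' : ℂ) * (∑ j : Fin d, H 0 j.succ * c j)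
              - H i'.succ 0 * (∑ j, (m j : ℂ) * c j)
              + (m i' : ℂ) * H 0 0 * (∑ j, (m j : ℂ) * c j) := by
          simp only [Finset.mul_sum, ← Finset.sum_sub_distrib, ← Finset.sum_add_distrib]
          refine Finset.sum_congr rfl fun j _ => ?_
          ring
        rw [h2] at h
        linear_combination h
    have hzero := hm2 y hyT (by simpa only [mon_eq] using f0) (sth w a y 0) ?_ ?_ ζ mu ?_ ?_
    · apply hc0
      funext j
      have := congrFun hzero j.succ
      simpa [hζ] using this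
    · -- lam ≠ 0 or the Hessian is nondegenerate
      by_cases hl : sth w a y 0 = 0
      · right
        have hN : y ∈ Nds w a := by
          refine ⟨hyT, f0, fun i => ?_⟩
          refine Fin.cases hl (fun j => ?_) i
          rw [f1 j, hl, mul_zero]
        have := hNod y hN
        convert this using 2
        ext i j
        simp only [Matrix.of_apply, shs, mon_eq, zw]
        refine Finset.sum_congr rfl fun v _ => ?_
        push_cast
        ring
      · left; exact hl
    · intro i
      have h0 : ∑ v, a v * (((zw w v i : ℤ) : ℂ) * Pool.Agent.Monodromy12.Morse.mon y (zw w v)) = sth w a y i := by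
        simp only [sth, mon_eq, zw]
        refine Finset.sum_congr rfl fun v _ => ?_
        push_cast
        ring
      rw [h0]
      refine Fin.cases ?_ (fun j => ?_) i
      · simp
      · simp only [Fin.cons_succ]
        rw [f1 j]; ring
    · rw [Fin.sum_univ_succ]
      simp only [hζ, Fin.cons_zero, Fin.cons_succ]
      ring
    · intro i
      rw [← key i]
      refine Finset.sum_congr rfl fun j _ => ?_
      congr 1
      simp only [hH, shs, mon_eq, zw]
      refine Finset.sum_congr rfl fun v _ => ?_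
      push_cast
      ring

end Pool.Agent.Mono.NP
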