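import Pool.Agent.Work.Monodromy12.KDER12

/-! KNDG: generic coefficients are nondegenerate (apply a derivation dual to one coefficient). -/

set_option autoImplicit false

namespace Pool.Agent.Mono.NP

open Finset

namespace KNDGAux

/-- a derivation of a power -/
theorem der_pow (D : Derivation ℚ ℂ ℂ) {y : ℂ} (hy : y ≠ 0) (n : ℕ) :
    D (y ^ n) = y ^ n * ((n : ℂ) * (D y / y)) := by
  rw [Derivation.leibniz_pow]
  cases n with
  | zero => simp
  | succ n =>
    simp only [Nat.add_sub_cancel, smul_eq_mul, nsmul_eq_mul]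
    field_simp
    ring

/-- a derivation of a monomial -/
theorem der_prod (D : Derivation ℚ ℂ ℂ) {ι : Type} (x : ι → ℂ) (hx : ∀ i, x i ≠ 0) (n : ι → ℕ)
    (s : Finset ι) : D (∏ i ∈ s, x i ^ n i) =
      (∏ i ∈ s, x i ^ n i) * ∑ i ∈ s, (n i : ℂ) * (D (x i) / x i) := by
  classical
  induction s using Finset.induction_on with
  | empty => simp
  | insert j s hj ih =>
    rw [prod_insert hj, sum_insert hj, Derivation.leibniz, ih, der_pow D (hx j)]
    simp only [smul_eq_mul]
    ring

end KNDGAux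

theorem stmt_KNDG : Stmt_KNDG := by
  classical
  intro κ _ d w a ha F hF x hx ⟨h0, h1⟩
  obtain ⟨D, hD⟩ := stmt_KDER ℚ ℂ κ a ha
  obtain ⟨u, hu⟩ := hF
  have h2 : D u (∑ v ∈ F, a v * mn w x v) = 0 := by rw [h0, map_zero]
  have h3 : ∀ v ∈ F, D u (a v * mn w x v) =
      (∑ i, (D u (x i) / x i) * (a v * (w v i : ℂ) * mn w x v)) +
        if u = v then mn w x v else 0 := by
    intro v _
    rw [Derivation.leibniz, hD]
    have h4 : D u (mn w x v) = mn w x v * ∑ i, (w v i : ℂ) * (D u (x i) / x i) :=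
      KNDGAux.der_prod (D u) x hx (w v) univ
    rw [h4]
    simp only [smul_eq_mul, mul_ite, mul_one, mul_zero]
    congr 1
    rw [mul_sum, mul_sum]
    exact sum_congr rfl fun i _ => by ring
  rw [map_sum, sum_congr rfl h3, sum_add_distrib, sum_comm, sum_ite_eq F u, if_pos hu] at h2
  have h5 : ∑ i, ∑ v ∈ F, (D u (x i) / x i) * (a v * (w v i : ℂ) * mn w x v) = 0 := by
    refine sum_eq_zero fun i _ => ?_
    rw [← mul_sum, h1 i, mul_zero]
  rw [h5, zero_add] at h2
  have h6 : mn w x u ≠ 0 := prod_ne_zero_iff.mpr fun i _ => pow_ne_zero _ (hx i)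
  exact h6 h2

end Pool.Agent.Mono.NP
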