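import Mathlib

/-! PERT (helper72): perturbation of a simple solution, in sequence form. -/

namespace Pool.Agent.Monodromy12.Pert

open Filter Topology

theorem pert {P Z : Type*} [NormedAddCommGroup P] [NormedSpace ℂ P] [FiniteDimensional ℂ P]
    [NormedAddCommGroup Z] [NormedSpace ℂ Z] [FiniteDimensional ℂ Z]
    (F : P × Z → Z) (F' : P × Z →L[ℂ] Z) (e0 : P) (z0 : Z)
    (hF : HasStrictFDerivAt F F' (e0, z0)) (h0 : F (e0, z0) = 0)
    (hinj : ∀ ζ : Z, F' (0, ζ) = 0 → ζ = 0)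
    {α : Type*} (l : Filter α) (e : α → P) (he : Tendsto e l (𝓝 e0)) :
    (∃ z : α → Z, Tendsto z l (𝓝 z0) ∧ ∀ᶠ n in l, F (e n, z n) = 0) ∧
    (∀ z z' : α → Z, Tendsto z l (𝓝 z0) → Tendsto z' l (𝓝 z0) →
      (∀ᶠ n in l, F (e n, z n) = 0) → (∀ᶠ n in l, F (e n, z' n) = 0) → ∀ᶠ n in l, z n = z' n) := by
  classical
  haveI : CompleteSpace P := FiniteDimensional.complete ℂ P
  haveI : CompleteSpace Z := FiniteDimensional.complete ℂ Z
  let Ψ : P × Z → P × Z := fun p => (p.1, F p)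
  let L : P × Z →L[ℂ] P × Z := (ContinuousLinearMap.fst ℂ P Z).prod F'
  have hΨ : HasStrictFDerivAt Ψ L (e0, z0) := (hasStrictFDerivAt_fst).prodMk hF
  have hLinj : Function.Injective L := by
    rw [injective_iff_map_eq_zero]
    rintro ⟨p, ζ⟩ h
    have h1 : p = 0 := congrArg Prod.fst h
    have h2 : F' (p, ζ) = 0 := congrArg Prod.snd h
    subst h1
    rw [hinj ζ h2]
    rfl
  let Le : (P × Z) ≃L[ℂ] (P × Z) :=
    (LinearEquiv.ofInjectiveEndo (L : P × Z →ₗ[ℂ] P × Z) hLinj).toContinuousLinearEquiv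
  have hLe : (Le : P × Z →L[ℂ] P × Z) = L := by
    ext x <;> rfl
  have hΨ' : HasStrictFDerivAt Ψ (Le : P × Z →L[ℂ] P × Z) (e0, z0) := by rw [hLe]; exact hΨ
  have hΨ0 : Ψ (e0, z0) = (e0, 0) := by simp only [Ψ]; rw [h0]
  have hri := hΨ'.eventually_right_inverse
  have hli := hΨ'.eventually_left_inverse
  have hct := hΨ'.localInverse_continuousAt
  rw [hΨ0] at hri hct
  have himg : hΨ'.localInverse Ψ Le (e0, z0) (e0, 0) = (e0, z0) := by
    have := hΨ'.localInverse_apply_image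
    rwa [hΨ0] at this
  have het : Tendsto (fun n => (e n, (0 : Z))) l (𝓝 (e0, 0)) := he.prodMk_nhds tendsto_const_nhds
  refine ⟨⟨fun n => (hΨ'.localInverse Ψ Le (e0, z0) (e n, 0)).2, ?_, ?_⟩, ?_⟩
  · have h1 : Tendsto (fun n => hΨ'.localInverse Ψ Le (e0, z0) (e n, 0)) l (𝓝 (e0, z0)) := by
      have := hct.tendsto.comp het
      rw [himg] at this
      exact this
    exact (continuous_snd.tendsto (e0, z0)).comp h1
  · filter_upwards [het.eventually hri] with n hn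
    have h1 : (hΨ'.localInverse Ψ Le (e0, z0) (e n, 0)).1 = e n := congrArg Prod.fst hn
    have h2 : F (hΨ'.localInverse Ψ Le (e0, z0) (e n, 0)) = 0 := congrArg Prod.snd hn
    have h3 : (e n, (hΨ'.localInverse Ψ Le (e0, z0) (e n, 0)).2)
        = hΨ'.localInverse Ψ Le (e0, z0) (e n, 0) := Prod.ext h1.symm rfl
    show F (e n, (hΨ'.localInverse Ψ Le (e0, z0) (e n, 0)).2) = 0
    rw [h3]; exact h2
  · intro z z' hz hz' hs hs'
    have t1 : Tendsto (fun n => (e n, z n)) l (𝓝 (e0, z0)) := he.prodMk_nhds hz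
    have t2 : Tendsto (fun n => (e n, z' n)) l (𝓝 (e0, z0)) := he.prodMk_nhds hz'
    filter_upwards [t1.eventually hli, t2.eventually hli, hs, hs'] with n h1 h2 h3 h4
    have h5 : Ψ (e n, z n) = Ψ (e n, z' n) := by simp only [Ψ]; rw [h3, h4]
    rw [h5, h2] at h1
    exact (congrArg Prod.snd h1).symm

end Pool.Agent.Monodromy12.Pert
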