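import Pool.Agent.Work.Monodromy12.KISO12
import Pool.Agent.Work.Monodromy12.Pert

/-!
# Phase 12, part K, block KNODE: a node gives two solutions (helper67)
-/

set_option autoImplicit false

namespace Pool.Agent.Mono.NP

open MvPolynomial Filter Topology

namespace KNODEAux

open KISOAux

/-- `(e^t - 1) / t` -/
noncomputable def ph1 : ℂ → ℂ := dslope Complex.exp 0

/-- `(e^t - 1 - t) / t ^ 2` -/
noncomputable def ph2 : ℂ → ℂ := dslope ph1 0

theorem ph1_zero : ph1 0 = 1 := by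
  unfold ph1
  rw [dslope_same, Complex.deriv_exp, Complex.exp_zero]

theorem exp_ph1 (t : ℂ) : Complex.exp t = 1 + t * ph1 t := by
  have h := sub_smul_dslope Complex.exp 0 t
  rw [sub_zero, smul_eq_mul, Complex.exp_zero] at h
  unfold ph1
  rw [h]
  ring

theorem ph1_ph2 (t : ℂ) : ph1 t = 1 + t * ph2 t := by
  have h := sub_smul_dslope ph1 0 t
  rw [sub_zero, smul_eq_mul, ph1_zero] at h
  unfold ph2
  rw [h]
  ring

theorem exp_ph2 (t : ℂ) : Complex.exp t = 1 + t + t ^ 2 * ph2 t := by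
  rw [exp_ph1, ph1_ph2]
  ring

theorem ph1_diff : Differentiable ℂ ph1 := by
  have h := (Complex.differentiableOn_dslope (s := Set.univ) (c := (0 : ℂ)) (f := Complex.exp)
    univ_mem).2 Complex.differentiable_exp.differentiableOn
  exact differentiableOn_univ.1 h

theorem ph2_diff : Differentiable ℂ ph2 := by
  have h := (Complex.differentiableOn_dslope (s := Set.univ) (c := (0 : ℂ)) (f := ph1)
    univ_mem).2 ph1_diff.differentiableOn
  exact differentiableOn_univ.1 h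

theorem ph1_contDiff : ContDiff ℂ 1 ph1 := ph1_diff.contDiff

theorem ph2_contDiff : ContDiff ℂ 1 ph2 := ph2_diff.contDiff

theorem ph2_zero : ph2 0 = 1 / 2 := by
  have h1 : Tendsto (fun t : ℂ => ph2 t) (𝓝[≠] 0) (𝓝 (ph2 0)) :=
    (ph2_diff.continuous.tendsto 0).mono_left nhdsWithin_le_nhds
  have h2 : Tendsto (fun t : ℂ => (Complex.exp (t * 1) - 1 - t * 1) / t ^ 2) (𝓝[≠] 0)
      (𝓝 (1 ^ 2 / 2)) := by
    refine lim2 (tendsto_id.mono_left nhdsWithin_le_nhds) ?_ tendsto_const_nhds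
    exact self_mem_nhdsWithin
  have h3 : Tendsto (fun t : ℂ => ph2 t) (𝓝[≠] 0) (𝓝 (1 ^ 2 / 2)) := by
    refine h2.congr' ?_
    have : ∀ᶠ t : ℂ in 𝓝[≠] 0, t ≠ 0 := self_mem_nhdsWithin
    filter_upwards [this] with t ht
    rw [mul_one, exp_ph2]
    field_simp
    ring
  have h4 := tendsto_nhds_unique h1 h3
  rw [h4]
  norm_num

variable {κ : Type} {d : ℕ}

theorem lf_add (w : κ → Fin d → ℕ) (v : κ) (ζ ξ : Fin d → ℂ) :
    lf w v (ζ + ξ) = lf w v ζ + lf w v ξ := by
  unfold lf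
  rw [← Finset.sum_add_distrib]
  refine Finset.sum_congr rfl fun i _ => ?_
  simp only [Pi.add_apply]
  ring

theorem lf_contDiff (w : κ → Fin d → ℕ) (v : κ) :
    ContDiff ℂ 1 (fun p : ℂ × (Fin d → ℂ) => lf w v p.2) := by
  unfold lf
  fun_prop

variable [Fintype κ]

/-- the system in the coordinates `x e^{η z}` -/
noncomputable def Psi (w : κ → Fin (d + 1) → ℕ) (a g : κ → ℂ) (x : Fin (d + 1) → ℂ) :
    ℂ × (Fin (d + 1) → ℂ) → (Fin (d + 1) → ℂ) := fun p =>
  Fin.cons (∑ v, (a v * mn w x v * lf w v p.2 ^ 2 * ph2 (p.1 * lf w v p.2) +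
      g v * mn w x v * Complex.exp (p.1 * lf w v p.2)))
    fun i : Fin d => ∑ v, (a v * (w v i.succ : ℂ) * mn w x v * lf w v p.2 *
      ph1 (p.1 * lf w v p.2) +
      p.1 * (g v * (w v i.succ : ℂ) * mn w x v * Complex.exp (p.1 * lf w v p.2)))

theorem Psi_contDiff (w : κ → Fin (d + 1) → ℕ) (a g : κ → ℂ) (x : Fin (d + 1) → ℂ) :
    ContDiff ℂ 1 (Psi w a g x) := by
  have hl : ∀ v, ContDiff ℂ 1 (fun p : ℂ × (Fin (d + 1) → ℂ) => lf w v p.2) := lf_contDiff w
  have hp : ∀ v, ContDiff ℂ 1 (fun p : ℂ × (Fin (d + 1) → ℂ) => p.1 * lf w v p.2) :=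
    fun v => contDiff_fst.mul (hl v)
  rw [contDiff_pi]
  intro i
  refine Fin.cases ?_ (fun i => ?_) i
  · simp only [Psi, Fin.cons_zero]
    refine ContDiff.sum fun v _ => ?_
    exact ((contDiff_const.mul ((hl v).pow 2)).mul (ph2_contDiff.comp (hp v))).add
      (contDiff_const.mul (Complex.contDiff_exp.comp (hp v)))
  · simp only [Psi, Fin.cons_succ]
    refine ContDiff.sum fun v _ => ?_
    exact ((contDiff_const.mul (hl v)).mul (ph1_contDiff.comp (hp v))).add
      (contDiff_fst.mul (contDiff_const.mul (Complex.contDiff_exp.comp (hp v))))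

theorem Psi_zero_zero (w : κ → Fin (d + 1) → ℕ) (a g : κ → ℂ) (x z : Fin (d + 1) → ℂ) :
    Psi w a g x (0, z) 0 = (∑ v, a v * mn w x v * lf w v z ^ 2) / 2 + sm w g x := by
  simp only [Psi, Fin.cons_zero, zero_mul, Complex.exp_zero, mul_one, ph2_zero]
  rw [Finset.sum_add_distrib, Finset.sum_div]
  unfold sm
  congr 1
  exact Finset.sum_congr rfl fun v _ => by ring

theorem Psi_zero_succ (w : κ → Fin (d + 1) → ℕ) (a g : κ → ℂ) (x z : Fin (d + 1) → ℂ)
    (i : Fin d) :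
    Psi w a g x (0, z) i.succ = ∑ v, a v * (w v i.succ : ℂ) * mn w x v * lf w v z := by
  simp only [Psi, Fin.cons_succ, zero_mul, Complex.exp_zero, mul_one, ph1_zero, add_zero]

/-- the equations in the new coordinates -/
theorem Psi_iff (w : κ → Fin (d + 1) → ℕ) (a g : κ → ℂ) (x : Fin (d + 1) → ℂ)
    (hx : x ∈ Nds w a) (η : ℂ) (hη : η ≠ 0) (z : Fin (d + 1) → ℂ) :
    (fun i => x i * Complex.exp ((η • z) i)) ∈ Cr w (fun v => a v + η ^ 2 * g v) ↔
      Psi w a g x (η, z) = 0 := by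
  have hT : (fun i => x i * Complex.exp ((η • z) i)) ∈ TT (d + 1) := fun i =>
    mul_ne_zero (hx.1 i) (Complex.exp_ne_zero _)
  have s0 : ∑ v, a v * mn w x v = 0 := hx.2.1
  have s1 : ∑ v, a v * mn w x v * lf w v z = 0 := by
    rw [sum_lf]
    refine Finset.sum_eq_zero fun i _ => ?_
    rw [hx.2.2 i, mul_zero]
  have e0 : sm w (fun v => a v + η ^ 2 * g v) (fun i => x i * Complex.exp ((η • z) i)) =
      η ^ 2 * Psi w a g x (η, z) 0 := by
    rw [sm_exp]
    simp only [Psi, Fin.cons_zero]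
    have : ∀ v, (a v + η ^ 2 * g v) * mn w x v * Complex.exp (lf w v (η • z)) =
        a v * mn w x v + η * (a v * mn w x v * lf w v z) +
        η ^ 2 * (a v * mn w x v * lf w v z ^ 2 * ph2 (η * lf w v z) +
          g v * mn w x v * Complex.exp (η * lf w v z)) := by
      intro v
      rw [lf_smul]
      nth_rewrite 1 [add_mul, add_mul, exp_ph2]
      ring
    rw [Finset.sum_congr rfl fun v _ => this v, Finset.sum_add_distrib, Finset.sum_add_distrib,
      ← Finset.mul_sum, ← Finset.mul_sum, s0, s1]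
    ring
  have e1 : ∀ i : Fin d, sth w (fun v => a v + η ^ 2 * g v)
      (fun i => x i * Complex.exp ((η • z) i)) i.succ = η * Psi w a g x (η, z) i.succ := by
    intro i
    rw [sth_exp]
    simp only [Psi, Fin.cons_succ]
    have s2 : ∑ v, a v * (w v i.succ : ℂ) * mn w x v = 0 := hx.2.2 i.succ
    have : ∀ v, (a v + η ^ 2 * g v) * (w v i.succ : ℂ) * mn w x v *
        Complex.exp (lf w v (η • z)) =
        a v * (w v i.succ : ℂ) * mn w x v +
        η * (a v * (w v i.succ : ℂ) * mn w x v * lf w v z * ph1 (η * lf w v z) +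
          η * (g v * (w v i.succ : ℂ) * mn w x v * Complex.exp (η * lf w v z))) := by
      intro v
      rw [lf_smul]
      nth_rewrite 1 [add_mul, add_mul, add_mul, exp_ph1]
      ring
    rw [Finset.sum_congr rfl fun v _ => this v, Finset.sum_add_distrib,
      ← Finset.mul_sum, s2, zero_add]
  constructor
  · rintro ⟨-, h0, h1⟩
    funext i
    refine Fin.cases ?_ (fun i => ?_) i
    · rw [e0] at h0
      exact (mul_eq_zero.1 h0).resolve_left (pow_ne_zero 2 hη)
    · have h2 := h1 i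
      rw [e1] at h2
      exact (mul_eq_zero.1 h2).resolve_left hη
  · intro h
    refine ⟨hT, ?_, fun i => ?_⟩
    · rw [e0, h]
      simp
    · rw [e1, h]
      simp

theorem sum_lf_mul (w : κ → Fin d → ℕ) (a : κ → ℂ) (x z ζ : Fin d → ℂ) :
    ∑ v, a v * mn w x v * (lf w v z * lf w v ζ) = ∑ i, z i * ∑ j, shs w a x i j * ζ j := by
  have h : ∀ i, ∑ j, shs w a x i j * ζ j = ∑ v, a v * (w v i : ℂ) * mn w x v * lf w v ζ :=
    fun i => (sum_lf' w a x ζ i).symm
  simp only [h]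
  have h2 : ∀ v, a v * mn w x v * (lf w v z * lf w v ζ) =
      ∑ i, z i * (a v * (w v i : ℂ) * mn w x v * lf w v ζ) := by
    intro v
    nth_rewrite 1 [lf]
    rw [Finset.sum_mul, Finset.mul_sum]
    refine Finset.sum_congr rfl fun i _ => ?_
    ring
  simp only [h2, Finset.mul_sum]
  rw [Finset.sum_comm]

theorem curve (w : κ → Fin (d + 1) → ℕ) (a g : κ → ℂ) (x z0 ζ : Fin (d + 1) → ℂ) :
    HasDerivAt (fun t : ℂ => Psi w a g x (0, z0 + t • ζ))
      (fderiv ℂ (Psi w a g x) (0, z0) (0, ζ)) 0 := by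
  have h1 : HasFDerivAt (Psi w a g x) (fderiv ℂ (Psi w a g x) (0, z0))
      ((0 : ℂ), z0 + (0 : ℂ) • ζ) := by
    rw [zero_smul, add_zero]
    exact (((Psi_contDiff w a g x).differentiable one_ne_zero) _).hasFDerivAt
  have h2 : HasDerivAt (fun t : ℂ => ((0 : ℂ), z0 + t • ζ)) ((0 : ℂ), ζ) 0 := by
    refine HasDerivAt.prodMk (hasDerivAt_const _ _) ?_
    have := ((hasDerivAt_id (0 : ℂ)).smul_const ζ).const_add z0
    simpa using this
  exact h1.comp_hasDerivAt 0 h2

/-- the partial derivative at a zero is injective -/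
theorem inj (w : κ → Fin (d + 1) → ℕ) (a g : κ → ℂ) (x z0 : Fin (d + 1) → ℂ)
    (hH : (Matrix.of (shs w a x)).det ≠ 0) (hz : z0 0 ≠ 0)
    (hz1 : ∀ i : Fin d, ∑ j, shs w a x i.succ j * z0 j = 0) (ζ : Fin (d + 1) → ℂ)
    (h : fderiv ℂ (Psi w a g x) (0, z0) (0, ζ) = 0) : ζ = 0 := by
  have hc := curve w a g x z0 ζ
  rw [h, hasDerivAt_pi] at hc
  -- the last components
  have h1 : ∀ i : Fin d, ∑ j, shs w a x i.succ j * ζ j = 0 := by
    intro i
    have e1 := hc i.succ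
    have e2 : (fun t : ℂ => Psi w a g x (0, z0 + t • ζ) i.succ) = fun t =>
        (∑ v, a v * (w v i.succ : ℂ) * mn w x v * lf w v z0) +
          t * ∑ v, a v * (w v i.succ : ℂ) * mn w x v * lf w v ζ := by
      funext t
      rw [Psi_zero_succ, Finset.mul_sum, ← Finset.sum_add_distrib]
      refine Finset.sum_congr rfl fun v _ => ?_
      rw [lf_add, lf_smul]
      ring
    rw [e2] at e1
    have e3 : HasDerivAt (fun t : ℂ => (∑ v, a v * (w v i.succ : ℂ) * mn w x v * lf w v z0) +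
          t * ∑ v, a v * (w v i.succ : ℂ) * mn w x v * lf w v ζ)
        (1 * ∑ v, a v * (w v i.succ : ℂ) * mn w x v * lf w v ζ) 0 :=
      ((hasDerivAt_id (0 : ℂ)).mul_const _).const_add _
    have e4 := e3.unique e1
    rw [one_mul, sum_lf'] at e4
    exact e4
  have h0 : ∑ i, z0 i * ∑ j, shs w a x i j * ζ j = 0 := by
    have e1 := hc 0
    have e2 : (fun t : ℂ => Psi w a g x (0, z0 + t • ζ) 0) = fun t =>
        ((∑ v, a v * mn w x v * lf w v z0 ^ 2) / 2 + sm w g x) +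
          (t * (∑ v, a v * mn w x v * (lf w v z0 * lf w v ζ)) +
          t ^ 2 * ((∑ v, a v * mn w x v * lf w v ζ ^ 2) / 2)) := by
      funext t
      rw [Psi_zero_zero]
      have e3 : ∑ v, a v * mn w x v * lf w v (z0 + t • ζ) ^ 2 =
          (∑ v, a v * mn w x v * lf w v z0 ^ 2) +
          2 * t * (∑ v, a v * mn w x v * (lf w v z0 * lf w v ζ)) +
          t ^ 2 * (∑ v, a v * mn w x v * lf w v ζ ^ 2) := by
        rw [Finset.mul_sum, Finset.mul_sum, ← Finset.sum_add_distrib, ← Finset.sum_add_distrib]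
        refine Finset.sum_congr rfl fun v _ => ?_
        rw [lf_add, lf_smul]
        ring
      rw [e3]
      ring
    rw [e2] at e1
    have e3 : HasDerivAt (fun t : ℂ =>
        ((∑ v, a v * mn w x v * lf w v z0 ^ 2) / 2 + sm w g x) +
          (t * (∑ v, a v * mn w x v * (lf w v z0 * lf w v ζ)) +
          t ^ 2 * ((∑ v, a v * mn w x v * lf w v ζ ^ 2) / 2)))
        (1 * (∑ v, a v * mn w x v * (lf w v z0 * lf w v ζ)) +
          ((2 : ℕ) : ℂ) * (0 : ℂ) ^ (2 - 1) * ((∑ v, a v * mn w x v * lf w v ζ ^ 2) / 2)) 0 :=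
      (((hasDerivAt_id (0 : ℂ)).mul_const _).add ((hasDerivAt_pow 2 (0 : ℂ)).mul_const _)).const_add
        _
    have e4 := e3.unique e1
    rw [← sum_lf_mul]
    simpa using e4
  rw [Fin.sum_univ_succ] at h0
  have h5 : ∑ i : Fin d, z0 i.succ * ∑ j, shs w a x i.succ j * ζ j = 0 := by
    refine Finset.sum_eq_zero fun i _ => ?_
    rw [h1 i, mul_zero]
  rw [h5, add_zero] at h0
  have h6 := (mul_eq_zero.1 h0).resolve_left hz
  have h7 : Matrix.mulVec (Matrix.of (shs w a x)) ζ = 0 := by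
    funext i
    have h8 : ∑ j, shs w a x i j * ζ j = 0 := Fin.cases h6 h1 i
    simpa [Matrix.mulVec, dotProduct] using h8
  exact Matrix.eq_zero_of_mulVec_eq_zero hH h7

/-- the two zeros at `η = 0` -/
theorem zeros (w : κ → Fin (d + 1) → ℕ) (a g : κ → ℂ) (x : Fin (d + 1) → ℂ)
    (hdet : (Matrix.of fun i j : Fin d => shs w a x i.succ j.succ).det ≠ 0)
    (hH : (Matrix.of (shs w a x)).det ≠ 0) (hg : sm w g x ≠ 0) :
    ∃ z0 : Fin (d + 1) → ℂ, z0 0 ≠ 0 ∧ (∀ i : Fin d, ∑ j, shs w a x i.succ j * z0 j = 0) ∧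
      (∑ i, z0 i * ∑ j, shs w a x i j * z0 j) / 2 + sm w g x = 0 ∧
      ∀ z : Fin (d + 1) → ℂ, (∀ i : Fin d, ∑ j, shs w a x i.succ j * z j = 0) →
        (∑ i, z i * ∑ j, shs w a x i j * z j) / 2 + sm w g x = 0 → z = z0 ∨ z = -z0 := by
  set M := Matrix.of (shs w a x) with hM
  set u : Fin (d + 1) → ℂ := M⁻¹.mulVec (Pi.single 0 1) with hu
  have hMu : M.mulVec u = Pi.single 0 1 := by
    rw [hu, Matrix.mulVec_mulVec, Matrix.mul_nonsing_inv _ (isUnit_iff_ne_zero.2 hH),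
      Matrix.one_mulVec]
  have hMu' : ∀ i, ∑ j, shs w a x i j * u j = (Pi.single 0 1 : Fin (d + 1) → ℂ) i := by
    intro i
    have := congrFun hMu i
    simpa [Matrix.mulVec, dotProduct, hM] using this
  have hu1 : ∀ i : Fin d, ∑ j, shs w a x i.succ j * u j = 0 := by
    intro i
    rw [hMu']
    exact Pi.single_eq_of_ne (Fin.succ_ne_zero i) _
  have hu0 : u 0 ≠ 0 := by
    intro h
    have h1 := block_zero w a x u hdet h hu1
    have h2 := hMu' 0
    rw [h1, Pi.single_eq_same] at h2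
    simp at h2
  obtain ⟨t, ht⟩ := IsAlgClosed.exists_pow_nat_eq (-2 * sm w g x / u 0) (n := 2) (by norm_num)
  have ht0 : t ≠ 0 := by
    rintro rfl
    rw [zero_pow two_ne_zero] at ht
    have h3 : -2 * sm w g x / u 0 ≠ 0 :=
      div_ne_zero (mul_ne_zero (by norm_num) hg) hu0
    exact h3 ht.symm
  have ht2 : t ^ 2 * u 0 = -2 * sm w g x := by
    rw [ht]
    field_simp
  have hsum : ∀ (c : ℂ) (i : Fin (d + 1)), ∑ j, shs w a x i j * (c • u) j =
      c * (Pi.single 0 1 : Fin (d + 1) → ℂ) i := by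
    intro c i
    rw [← hMu', Finset.mul_sum]
    refine Finset.sum_congr rfl fun j _ => ?_
    simp only [Pi.smul_apply, smul_eq_mul]
    ring
  have hquad : ∀ c : ℂ, ∑ i, (c • u) i * ∑ j, shs w a x i j * (c • u) j = c ^ 2 * u 0 := by
    intro c
    rw [Fin.sum_univ_succ, hsum, Pi.single_eq_same]
    have h5 : ∑ i : Fin d, (c • u) i.succ * ∑ j, shs w a x i.succ j * (c • u) j = 0 := by
      refine Finset.sum_eq_zero fun i _ => ?_
      rw [hsum, Pi.single_eq_of_ne (Fin.succ_ne_zero i), mul_zero, mul_zero]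
    rw [h5]
    simp only [Pi.smul_apply, smul_eq_mul]
    ring
  refine ⟨t • u, ?_, ?_, ?_, ?_⟩
  · simp only [Pi.smul_apply, smul_eq_mul]
    exact mul_ne_zero ht0 hu0
  · intro i
    rw [hsum, Pi.single_eq_of_ne (Fin.succ_ne_zero i), mul_zero]
  · rw [hquad, ht2]
    ring
  · intro z hz1 hz2
    set c : ℂ := ∑ j, shs w a x 0 j * z j with hc
    have h3 : z = c • u := by
      have h4 : M.mulVec (z - c • u) = 0 := by
        funext i
        rw [Matrix.mulVec_sub, Matrix.mulVec_smul, hMu]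
        have h5 : M.mulVec z i = ∑ j, shs w a x i j * z j := by
          simp [Matrix.mulVec, dotProduct, hM]
        simp only [Pi.sub_apply, Pi.smul_apply, smul_eq_mul, Pi.zero_apply]
        rw [h5]
        refine Fin.cases ?_ (fun i => ?_) i
        · rw [Pi.single_eq_same, mul_one, ← hc, sub_self]
        · rw [hz1 i, Pi.single_eq_of_ne (Fin.succ_ne_zero i), mul_zero, sub_zero]
      exact sub_eq_zero.1 (Matrix.eq_zero_of_mulVec_eq_zero hH h4)
    rw [h3, hquad] at hz2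
    have h6 : c ^ 2 = t ^ 2 := by
      have h7 : c ^ 2 * u 0 = t ^ 2 * u 0 := by
        rw [ht2]
        linear_combination 2 * hz2
      exact mul_right_cancel₀ hu0 h7
    rcases sq_eq_sq_iff_eq_or_eq_neg.1 h6 with h7 | h7
    · left
      rw [h3, h7]
    · right
      rw [h3, h7, neg_smul]

/-- limits of solutions near the node -/
theorem lim_eq {α : Type*} {l : Filter α} [l.NeBot] (w : κ → Fin (d + 1) → ℕ) (a g : κ → ℂ)
    (x : Fin (d + 1) → ℂ) (hx : x ∈ Nds w a) (s c : α → ℂ) (c₀ : ℂ)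
    (ζ : α → Fin (d + 1) → ℂ) (ζ₀ : Fin (d + 1) → ℂ) (hs : Tendsto s l (𝓝 0))
    (hs0 : ∀ᶠ n in l, s n ≠ 0) (hc : Tendsto c l (𝓝 c₀)) (hζ : Tendsto ζ l (𝓝 ζ₀))
    (hCr : ∀ᶠ n in l, (fun i => x i * Complex.exp ((s n • ζ n) i)) ∈
      Cr w (fun v => a v + (c n * s n) ^ 2 * g v)) :
    (∀ i : Fin d, ∑ j, shs w a x i.succ j * ζ₀ j = 0) ∧
      (∑ i, ζ₀ i * ∑ j, shs w a x i j * ζ₀ j) / 2 + c₀ ^ 2 * sm w g x = 0 := by
  have hL : ∀ v, Tendsto (fun n => lf w v (ζ n)) l (𝓝 (lf w v ζ₀)) := fun v =>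
    ((continuous_lf w v).tendsto ζ₀).comp hζ
  have hE : ∀ v, Tendsto (fun n => Complex.exp (s n * lf w v (ζ n))) l (𝓝 1) := by
    intro v
    have h1 : Tendsto (fun n => s n * lf w v (ζ n)) l (𝓝 0) := by
      have := hs.mul (hL v)
      simpa using this
    have h2 := (Complex.continuous_exp.tendsto 0).comp h1
    rw [Complex.exp_zero] at h2
    exact h2
  refine ⟨fun i => ?_, ?_⟩
  · rw [← sum_lf']
    have h1 : Tendsto (fun n => (∑ v, a v * (w v i.succ : ℂ) * mn w x v *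
        ((Complex.exp (s n * lf w v (ζ n)) - 1) / s n)) +
        c n ^ 2 * s n * ∑ v, g v * (w v i.succ : ℂ) * mn w x v *
          Complex.exp (s n * lf w v (ζ n))) l
        (𝓝 ((∑ v, a v * (w v i.succ : ℂ) * mn w x v * lf w v ζ₀) +
          c₀ ^ 2 * 0 * ∑ v, g v * (w v i.succ : ℂ) * mn w x v * 1)) :=
      (tendsto_finsetSum _ fun v _ => (lim1 hs hs0 (hL v)).const_mul _).add
        (((hc.pow 2).mul hs).mul (tendsto_finsetSum _ fun v _ => (hE v).const_mul _))
    rw [mul_zero, zero_mul, add_zero] at h1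
    refine tendsto_nhds_unique (h1.congr' ?_) tendsto_const_nhds |>.symm ▸ rfl
    filter_upwards [hs0, hCr] with n hn hcr
    have h3 : ∑ v, a v * (w v i.succ : ℂ) * mn w x v = 0 := hx.2.2 i.succ
    have h4 := hcr.2.2 i
    rw [sth_exp] at h4
    have h2 : (∑ v, a v * (w v i.succ : ℂ) * mn w x v *
        ((Complex.exp (s n * lf w v (ζ n)) - 1) / s n)) +
        c n ^ 2 * s n * ∑ v, g v * (w v i.succ : ℂ) * mn w x v *
          Complex.exp (s n * lf w v (ζ n)) =
        ((∑ v, (a v + (c n * s n) ^ 2 * g v) * (w v i.succ : ℂ) * mn w x v *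
          Complex.exp (lf w v (s n • ζ n))) -
          ∑ v, a v * (w v i.succ : ℂ) * mn w x v) / s n := by
      rw [Finset.mul_sum, ← Finset.sum_add_distrib, ← Finset.sum_sub_distrib, Finset.sum_div]
      refine Finset.sum_congr rfl fun v _ => ?_
      rw [lf_smul]
      field_simp
      ring
    rw [h2, h4, h3]
    simp
  · rw [← sum_lf_sq]
    have h1 : Tendsto (fun n => (∑ v, a v * mn w x v *
        ((Complex.exp (s n * lf w v (ζ n)) - 1 - s n * lf w v (ζ n)) / s n ^ 2)) +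
        c n ^ 2 * ∑ v, g v * mn w x v * Complex.exp (s n * lf w v (ζ n))) l
        (𝓝 ((∑ v, a v * mn w x v * (lf w v ζ₀ ^ 2 / 2)) +
          c₀ ^ 2 * ∑ v, g v * mn w x v * 1)) :=
      (tendsto_finsetSum _ fun v _ => (lim2 hs hs0 (hL v)).const_mul _).add
        ((hc.pow 2).mul (tendsto_finsetSum _ fun v _ => (hE v).const_mul _))
    have h4 : (∑ v, a v * mn w x v * (lf w v ζ₀ ^ 2 / 2)) +
          c₀ ^ 2 * ∑ v, g v * mn w x v * 1 = 0 := by
      refine tendsto_nhds_unique (h1.congr' ?_) tendsto_const_nhds |>.symm ▸ rfl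
      filter_upwards [hs0, hCr] with n hn hcr
      have h3 : ∑ v, a v * mn w x v = 0 := hx.2.1
      have h5 : ∑ v, a v * mn w x v * lf w v (ζ n) = 0 := by
        rw [sum_lf]
        refine Finset.sum_eq_zero fun i _ => ?_
        rw [hx.2.2 i, mul_zero]
      have h6 := hcr.2.1
      rw [sm_exp] at h6
      have h2 : (∑ v, a v * mn w x v *
          ((Complex.exp (s n * lf w v (ζ n)) - 1 - s n * lf w v (ζ n)) / s n ^ 2)) +
          c n ^ 2 * ∑ v, g v * mn w x v * Complex.exp (s n * lf w v (ζ n)) =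
          ((∑ v, (a v + (c n * s n) ^ 2 * g v) * mn w x v *
            Complex.exp (lf w v (s n • ζ n))) - (∑ v, a v * mn w x v) -
            s n * ∑ v, a v * mn w x v * lf w v (ζ n)) / s n ^ 2 := by
        rw [Finset.mul_sum, Finset.mul_sum, ← Finset.sum_add_distrib, ← Finset.sum_sub_distrib,
          ← Finset.sum_sub_distrib, Finset.sum_div]
        refine Finset.sum_congr rfl fun v _ => ?_
        rw [lf_smul]
        field_simp
        ring
      rw [h2, h6, h3, h5]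
      simp
    have h6 : ∑ v, a v * mn w x v * (lf w v ζ₀ ^ 2 / 2) =
        (∑ v, a v * mn w x v * lf w v ζ₀ ^ 2) / 2 := by
      rw [Finset.sum_div]
      refine Finset.sum_congr rfl fun v _ => ?_
      ring
    rw [h6] at h4
    have h7 : sm w g x = ∑ v, g v * mn w x v * 1 := by
      unfold sm
      refine Finset.sum_congr rfl fun v _ => ?_
      ring
    rw [h7]
    exact h4

theorem pertPsi (w : κ → Fin (d + 1) → ℕ) (a g : κ → ℂ) (x z0 : Fin (d + 1) → ℂ)
    (hH : (Matrix.of (shs w a x)).det ≠ 0) (hz : z0 0 ≠ 0)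
    (hz1 : ∀ i : Fin d, ∑ j, shs w a x i.succ j * z0 j = 0)
    (hz2 : (∑ i, z0 i * ∑ j, shs w a x i j * z0 j) / 2 + sm w g x = 0)
    {α : Type*} (l : Filter α) (e : α → ℂ) (he : Tendsto e l (𝓝 0)) :
    (∃ z : α → Fin (d + 1) → ℂ, Tendsto z l (𝓝 z0) ∧
      ∀ᶠ n in l, Psi w a g x (e n, z n) = 0) ∧
    (∀ z z' : α → Fin (d + 1) → ℂ, Tendsto z l (𝓝 z0) → Tendsto z' l (𝓝 z0) →
      (∀ᶠ n in l, Psi w a g x (e n, z n) = 0) →
      (∀ᶠ n in l, Psi w a g x (e n, z' n) = 0) → ∀ᶠ n in l, z n = z' n) := by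
  have h0 : Psi w a g x (0, z0) = 0 := by
    funext i
    refine Fin.cases ?_ (fun i => ?_) i
    · rw [Psi_zero_zero, sum_lf_sq]
      exact hz2
    · rw [Psi_zero_succ, sum_lf']
      exact hz1 i
  exact Pool.Agent.Monodromy12.Pert.pert (Psi w a g x) (fderiv ℂ (Psi w a g x) (0, z0)) 0 z0
    ((Psi_contDiff w a g x).contDiffAt.hasStrictFDerivAt one_ne_zero) h0
    (fun ζ h => inj w a g x z0 hH hz hz1 ζ h) l e he

/-- the point `x e^{c z}` -/
noncomputable def pe (x : Fin (d + 1) → ℂ) (c : ℂ) (z : Fin (d + 1) → ℂ) : Fin (d + 1) → ℂ :=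
  fun i => x i * Complex.exp ((c • z) i)

/-- solutions close to the node -/
theorem near (w : κ → Fin (d + 1) → ℕ) (a g : κ → ℂ) (x z0 : Fin (d + 1) → ℂ)
    (hx : x ∈ Nds w a)
    (hdet : (Matrix.of fun i j : Fin d => shs w a x i.succ j.succ).det ≠ 0)
    (hH : (Matrix.of (shs w a x)).det ≠ 0) (hg : sm w g x ≠ 0)
    (hz : z0 0 ≠ 0) (hz1 : ∀ i : Fin d, ∑ j, shs w a x i.succ j * z0 j = 0)
    (hz2 : (∑ i, z0 i * ∑ j, shs w a x i j * z0 j) / 2 + sm w g x = 0)
    (huniq : ∀ z : Fin (d + 1) → ℂ, (∀ i : Fin d, ∑ j, shs w a x i.succ j * z j = 0) →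
        (∑ i, z i * ∑ j, shs w a x i j * z j) / 2 + sm w g x = 0 → z = z0 ∨ z = -z0)
    (η : ℕ → ℂ) (U : Ultrafilter ℕ) (hη : Tendsto η U (𝓝 0)) (hη0 : ∀ n, η n ≠ 0)
    (zp zm : ℕ → Fin (d + 1) → ℂ) (hzp : Tendsto zp U (𝓝 z0)) (hzm : Tendsto zm U (𝓝 (-z0)))
    (hFp : ∀ᶠ n in (U : Filter ℕ), Psi w a g x (η n, zp n) = 0)
    (hFm : ∀ᶠ n in (U : Filter ℕ), Psi w a g x (η n, zm n) = 0)
    (y : ℕ → Fin (d + 1) → ℂ) (hy : Tendsto y U (𝓝 x))
    (hyC : ∀ᶠ n in (U : Filter ℕ), y n ∈ Cr w (fun v => a v + η n ^ 2 * g v)) :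
    ∀ᶠ n in (U : Filter ℕ), y n = pe x (η n) (zp n) ∨ y n = pe x (η n) (zm n) := by
  have hlg : Tendsto (fun n => lg x (y n)) (U : Filter ℕ) (𝓝 0) := (tendsto_lg hx.1).comp hy
  have hne : ∀ᶠ n in (U : Filter ℕ), lg x (y n) ≠ 0 := by
    filter_upwards [hyC] with n hn h0
    have h1 := exp_lg hx.1 hn.1
    rw [h0] at h1
    have h2 : y n = x := by
      rw [← h1]
      funext i
      simp
    have h3 := hn.2.1
    rw [h2] at h3
    have h4 : sm w (fun v => a v + η n ^ 2 * g v) x = sm w a x + η n ^ 2 * sm w g x := by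
      unfold sm
      rw [Finset.mul_sum, ← Finset.sum_add_distrib]
      refine Finset.sum_congr rfl fun v _ => ?_
      ring
    rw [h4, hx.2.1, zero_add] at h3
    exact (mul_ne_zero (pow_ne_zero 2 (hη0 n)) hg) h3
  by_cases hR : ∃ R : ℝ, ∀ᶠ n in (U : Filter ℕ), ‖lg x (y n)‖ ≤ R * ‖η n‖
  · obtain ⟨R, hR⟩ := hR
    set z : ℕ → Fin (d + 1) → ℂ := fun n => (η n)⁻¹ • lg x (y n) with hzdef
    have hball : ∀ᶠ n in (U : Filter ℕ), z n ∈ Metric.closedBall (0 : Fin (d + 1) → ℂ) R := by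
      filter_upwards [hR] with n hn
      rw [mem_closedBall_zero_iff, hzdef]
      simp only
      rw [norm_smul, norm_inv]
      have h1 : 0 < ‖η n‖ := norm_pos_iff.2 (hη0 n)
      rw [inv_mul_le_iff₀ h1, mul_comm]
      exact hn
    obtain ⟨z₁, -, hlim⟩ := (isCompact_closedBall (0 : Fin (d + 1) → ℂ) R).ultrafilter_le_nhds
      (U.map z) (le_principal_iff.2 hball)
    have hzt : Tendsto z (U : Filter ℕ) (𝓝 z₁) := hlim
    have hz' : ∀ n, η n • z n = lg x (y n) := by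
      intro n
      rw [hzdef]
      simp only
      rw [smul_smul, mul_inv_cancel₀ (hη0 n), one_smul]
    have hpe : ∀ᶠ n in (U : Filter ℕ), pe x (η n) (z n) = y n := by
      filter_upwards [hyC] with n hn
      unfold pe
      rw [hz' n]
      exact exp_lg hx.1 hn.1
    have hCr : ∀ᶠ n in (U : Filter ℕ), (fun i => x i * Complex.exp ((η n • z n) i)) ∈
        Cr w (fun v => a v + ((1 : ℂ) * η n) ^ 2 * g v) := by
      filter_upwards [hyC, hpe] with n hn hn'
      unfold pe at hn'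
      rw [hn', one_mul]
      exact hn
    obtain ⟨e1, e2⟩ := lim_eq w a g x hx η (fun _ => (1 : ℂ)) 1 z z₁ hη
      (Eventually.of_forall hη0) tendsto_const_nhds hzt hCr
    rw [one_pow, one_mul] at e2
    have hPsi : ∀ᶠ n in (U : Filter ℕ), Psi w a g x (η n, z n) = 0 := by
      filter_upwards [hyC, hpe] with n hn hn'
      rw [← Psi_iff w a g x hx (η n) (hη0 n) (z n)]
      unfold pe at hn'
      rw [hn']
      exact hn
    rcases huniq z₁ e1 e2 with h | h
    · have h1 := (pertPsi w a g x z0 hH hz hz1 hz2 (U : Filter ℕ) η hη).2 z zp (h ▸ hzt) hzp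
        hPsi hFp
      filter_upwards [h1, hpe] with n hn hn'
      left
      rw [← hn, hn']
    · have h1 := (pertPsi w a g x (-z0) hH (by simpa using hz)
        (fun i => by
          have := hz1 i
          simp only [Pi.neg_apply, mul_neg, Finset.sum_neg_distrib, this, neg_zero])
        (by
          simp only [Pi.neg_apply, mul_neg, neg_mul, Finset.sum_neg_distrib, neg_neg]
          exact hz2) (U : Filter ℕ) η hη).2 z zm (h ▸ hzt) hzm hPsi hFm
      filter_upwards [h1, hpe] with n hn hn'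
      right
      rw [← hn, hn']
  · exfalso
    push Not at hR
    have hR' : ∀ R : ℝ, ∀ᶠ n in (U : Filter ℕ), R * ‖η n‖ < ‖lg x (y n)‖ := by
      intro R
      exact hR R
    set s : ℕ → ℂ := fun n => (‖lg x (y n)‖ : ℂ) with hs
    set ζ : ℕ → Fin (d + 1) → ℂ := fun n => (s n)⁻¹ • lg x (y n) with hζ
    have hs_t : Tendsto s (U : Filter ℕ) (𝓝 0) := by
      have h1 := hlg.norm
      rw [norm_zero] at h1
      have h2 := (Complex.continuous_ofReal.tendsto 0).comp h1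
      rw [Complex.ofReal_zero] at h2
      exact h2
    have hs0 : ∀ᶠ n in (U : Filter ℕ), s n ≠ 0 := by
      filter_upwards [hne] with n hn
      exact Complex.ofReal_ne_zero.2 (norm_ne_zero_iff.2 hn)
    have hsph : ∀ᶠ n in (U : Filter ℕ), ζ n ∈ Metric.sphere (0 : Fin (d + 1) → ℂ) 1 := by
      filter_upwards [hne] with n hn
      have h1 : ‖lg x (y n)‖ ≠ 0 := norm_ne_zero_iff.2 hn
      rw [mem_sphere_zero_iff_norm, hζ, hs]
      simp only
      rw [norm_smul, norm_inv, Complex.norm_real, norm_norm, inv_mul_cancel₀ h1]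
    obtain ⟨ζ₀, hζ₀, hlim⟩ := (isCompact_sphere (0 : Fin (d + 1) → ℂ) 1).ultrafilter_le_nhds
      (U.map ζ) (le_principal_iff.2 hsph)
    have hζt : Tendsto ζ (U : Filter ℕ) (𝓝 ζ₀) := hlim
    set c : ℕ → ℂ := fun n => η n / s n with hc
    have hc0 : Tendsto c (U : Filter ℕ) (𝓝 0) := by
      rw [Metric.tendsto_nhds]
      intro ε hε
      filter_upwards [hR' (1 / ε), hne] with n hn hn0
      rw [dist_zero_right, hc]
      simp only
      have h1 : 0 < ‖lg x (y n)‖ := norm_pos_iff.2 hn0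
      rw [norm_div, hs]
      simp only
      rw [Complex.norm_real, norm_norm, div_lt_iff₀ h1]
      have h2 := mul_lt_mul_of_pos_left hn hε
      rw [← mul_assoc, mul_one_div_cancel hε.ne', one_mul] at h2
      exact h2
    have hCr : ∀ᶠ n in (U : Filter ℕ), (fun i => x i * Complex.exp ((s n • ζ n) i)) ∈
        Cr w (fun v => a v + (c n * s n) ^ 2 * g v) := by
      filter_upwards [hyC, hs0] with n hn hn0
      have h1 : s n • ζ n = lg x (y n) := by
        rw [hζ]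
        simp only
        rw [smul_smul, mul_inv_cancel₀ hn0, one_smul]
      have h2 : c n * s n = η n := by
        rw [hc]
        simp only
        rw [div_mul_cancel₀ _ hn0]
      rw [h1, h2, exp_lg hx.1 hn.1]
      exact hn
    obtain ⟨e1, e2⟩ := lim_eq w a g x hx s c 0 ζ ζ₀ hs_t hs0 hc0 hζt hCr
    have hCx : x ∈ Cr w a := ⟨hx.1, hx.2.1, fun i => hx.2.2 i.succ⟩
    have h3 : ζ₀ = 0 := by
      refine dir_zero w a x ζ₀ hCx hdet (fun _ => hH) ?_ e1 (fun _ => ?_)
      · refine Finset.sum_eq_zero fun i _ => ?_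
        rw [hx.2.2 i, mul_zero]
      · rw [zero_pow two_ne_zero, zero_mul, add_zero] at e2
        exact (div_eq_zero_iff.1 e2).resolve_right two_ne_zero
    rw [h3] at hζ₀
    simp at hζ₀

theorem pe_tendsto {α : Type*} {l : Filter α} (x z0 : Fin (d + 1) → ℂ) (e : α → ℂ)
    (z : α → Fin (d + 1) → ℂ) (he : Tendsto e l (𝓝 0)) (hz : Tendsto z l (𝓝 z0)) :
    Tendsto (fun n => pe x (e n) (z n)) l (𝓝 x) := by
  rw [tendsto_pi_nhds]
  intro i
  unfold pe
  simp only [Pi.smul_apply, smul_eq_mul]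
  have h1 : Tendsto (fun n => e n * z n i) l (𝓝 (0 * z0 i)) :=
    he.mul ((tendsto_pi_nhds.1 hz) i)
  rw [zero_mul] at h1
  have h2 := ((Complex.continuous_exp.tendsto 0).comp h1).const_mul (x i)
  rw [Complex.exp_zero, mul_one] at h2
  exact h2

theorem pe_ne (x z0 : Fin (d + 1) → ℂ) (hx : x 0 ≠ 0) (hz0 : z0 0 ≠ 0) (η : ℕ → ℂ)
    (hη : Tendsto η atTop (𝓝 0)) (hη0 : ∀ n, η n ≠ 0)
    (zp zm : ℕ → Fin (d + 1) → ℂ) (hzp : Tendsto zp atTop (𝓝 z0))
    (hzm : Tendsto zm atTop (𝓝 (-z0))) :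
    ∀ᶠ n in atTop, pe x (η n) (zp n) ≠ pe x (η n) (zm n) := by
  have h1 := lim1 hη (Eventually.of_forall hη0) ((tendsto_pi_nhds.1 hzp) 0)
  have h2 := lim1 hη (Eventually.of_forall hη0) ((tendsto_pi_nhds.1 hzm) 0)
  have h3 := h1.sub h2
  have h4 : z0 0 - (-z0) 0 ≠ 0 := by
    rw [Pi.neg_apply, sub_neg_eq_add, ← two_mul]
    exact mul_ne_zero two_ne_zero hz0
  have h5 := h3.eventually_ne h4
  filter_upwards [h5] with n hn heq
  apply hn
  have h6 := congrFun heq 0
  unfold pe at h6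
  simp only [Pi.smul_apply, smul_eq_mul] at h6
  rw [mul_left_cancel₀ hx h6, sub_self]

theorem Cr_lim (w : κ → Fin (d + 1) → ℕ) (a g : κ → ℂ) (η : ℕ → ℂ) (U : Ultrafilter ℕ)
    (hη : Tendsto η U (𝓝 0)) (y : ℕ → Fin (d + 1) → ℂ) (y₁ : Fin (d + 1) → ℂ)
    (hy₁ : y₁ ∈ TT (d + 1)) (hy : Tendsto y U (𝓝 y₁))
    (hyC : ∀ᶠ n in (U : Filter ℕ), y n ∈ Cr w (fun v => a v + η n ^ 2 * g v)) :
    y₁ ∈ Cr w a := by
  have hp : Tendsto (fun n => (η n, y n)) (U : Filter ℕ) (𝓝 ((0 : ℂ), y₁)) :=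
    hη.prodMk_nhds hy
  have ha : (fun v => a v + (0 : ℂ) ^ 2 * g v) = a := by
    funext v
    rw [zero_pow two_ne_zero, zero_mul, add_zero]
  refine ⟨hy₁, ?_, fun i => ?_⟩
  · have hc : Continuous (fun p : ℂ × (Fin (d + 1) → ℂ) =>
        sm w (fun v => a v + p.1 ^ 2 * g v) p.2) := by
      unfold sm mn
      fun_prop
    have h1 := (hc.tendsto ((0 : ℂ), y₁)).comp hp
    simp only at h1
    rw [ha] at h1
    refine tendsto_nhds_unique (h1.congr' ?_) tendsto_const_nhds |>.symm ▸ rfl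
    filter_upwards [hyC] with n hn
    exact hn.2.1
  · have hc : Continuous (fun p : ℂ × (Fin (d + 1) → ℂ) =>
        sth w (fun v => a v + p.1 ^ 2 * g v) p.2 i.succ) := by
      unfold sth mn
      fun_prop
    have h1 := (hc.tendsto ((0 : ℂ), y₁)).comp hp
    simp only at h1
    rw [ha] at h1
    refine tendsto_nhds_unique (h1.congr' ?_) tendsto_const_nhds |>.symm ▸ rfl
    filter_upwards [hyC] with n hn
    exact hn.2.2 i

end KNODEAux

open KISOAux KNODEAux

theorem stmt_KNODE : Stmt_KNODE := by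
  intro κ _ d w a g x η hx hdet hH hg hη hη0 B₀ hB₀
  have hCx : x ∈ Cr w a := ⟨hx.1, hx.2.1, fun i => hx.2.2 i.succ⟩
  obtain ⟨B₁, hB₁, hiso⟩ := stmt_KISO κ d w a x hCx hdet (fun _ => hH)
  have hT : TT (d + 1) ∈ 𝓝 x := by
    have h1 : ∀ᶠ y in 𝓝 x, ∀ i, y i ≠ 0 :=
      eventually_all.2 fun i => (continuous_apply i).continuousAt.eventually_ne (hx.1 i)
    exact h1
  obtain ⟨r, hr, hrB⟩ := Metric.nhds_basis_closedBall.mem_iff.1
    (inter_mem hB₀ (inter_mem hB₁ hT))
  have hB : Metric.closedBall x r ∈ 𝓝 x := Metric.closedBall_mem_nhds x hr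
  refine ⟨Metric.closedBall x r, hB, fun y hy => (hrB hy).1, ?_⟩
  obtain ⟨z0, hz, hz1, hz2, huniq⟩ := zeros w a g x hdet hH hg
  obtain ⟨⟨zp, hzp, hFp⟩, -⟩ := pertPsi w a g x z0 hH hz hz1 hz2 atTop η hη
  obtain ⟨⟨zm, hzm, hFm⟩, -⟩ := pertPsi w a g x (-z0) hH (by simpa using hz)
    (fun i => by
      have := hz1 i
      simp only [Pi.neg_apply, mul_neg, Finset.sum_neg_distrib, this, neg_zero])
    (by
      simp only [Pi.neg_apply, mul_neg, neg_mul, Finset.sum_neg_distrib, neg_neg]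
      exact hz2) atTop η hη
  have hmain : ∀ᶠ n in atTop, ∀ y, y ∈ Metric.closedBall x r →
      y ∈ Cr w (fun v => a v + η n ^ 2 * g v) →
      y = pe x (η n) (zp n) ∨ y = pe x (η n) (zm n) := by
    by_contra hcon
    set S : Set ℕ := {n | ∃ y, y ∈ Metric.closedBall x r ∧
      y ∈ Cr w (fun v => a v + η n ^ 2 * g v) ∧
      ¬ (y = pe x (η n) (zp n) ∨ y = pe x (η n) (zm n))} with hS
    have hfr : ∃ᶠ n in atTop, n ∈ S := by
      intro h
      apply hcon
      filter_upwards [h] with n hn y hy1 hy2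
      by_contra h3
      exact hn ⟨y, hy1, hy2, h3⟩
    have hne : (atTop ⊓ 𝓟 S : Filter ℕ).NeBot := by
      rwa [frequently_mem_iff_neBot] at hfr
    set U : Ultrafilter ℕ := Ultrafilter.of (atTop ⊓ 𝓟 S) with hU
    have hUle : (U : Filter ℕ) ≤ atTop ⊓ 𝓟 S := Ultrafilter.of_le _
    have hUt : (U : Filter ℕ) ≤ atTop := hUle.trans inf_le_left
    have hUS : ∀ᶠ n in (U : Filter ℕ), n ∈ S :=
      (hUle.trans inf_le_right) (mem_principal_self S)
    classical
    set y : ℕ → Fin (d + 1) → ℂ := fun n => if h : n ∈ S then h.choose else x with hydef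
    have hyS : ∀ n ∈ S, y n ∈ Metric.closedBall x r ∧
        y n ∈ Cr w (fun v => a v + η n ^ 2 * g v) ∧
        ¬ (y n = pe x (η n) (zp n) ∨ y n = pe x (η n) (zm n)) := by
      intro n hn
      have h1 : y n = hn.choose := by
        rw [hydef]
        simp only
        rw [dif_pos hn]
      rw [h1]
      exact hn.choose_spec
    have hyB : ∀ᶠ n in (U : Filter ℕ), y n ∈ Metric.closedBall x r := by
      filter_upwards [hUS] with n hn
      exact (hyS n hn).1
    have hyC : ∀ᶠ n in (U : Filter ℕ), y n ∈ Cr w (fun v => a v + η n ^ 2 * g v) := by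
      filter_upwards [hUS] with n hn
      exact (hyS n hn).2.1
    obtain ⟨y₁, hy₁, hlim⟩ := (isCompact_closedBall x r).ultrafilter_le_nhds
      (U.map y) (le_principal_iff.2 hyB)
    have hyt : Tendsto y (U : Filter ℕ) (𝓝 y₁) := hlim
    have hηU : Tendsto η (U : Filter ℕ) (𝓝 0) := hη.mono_left hUt
    have h1 : y₁ ∈ Cr w a := Cr_lim w a g η U hηU y y₁ (hrB hy₁).2.2 hyt hyC
    have h2 : y₁ = x := hiso y₁ (hrB hy₁).2.1 h1
    rw [h2] at hyt
    have h3 := near w a g x z0 hx hdet hH hg hz hz1 hz2 huniq η U hηU hη0 zp zm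
      (hzp.mono_left hUt) (hzm.mono_left hUt) (hUt hFp) (hUt hFm) y hyt hyC
    have h4 : ∀ᶠ n in (U : Filter ℕ), False := by
      filter_upwards [h3, hUS] with n hn hnS
      exact (hyS n hnS).2.2 hn
    exact h4.exists.choose_spec
  have hP : ∀ᶠ n in atTop, pe x (η n) (zp n) ∈ Metric.closedBall x r :=
    (pe_tendsto x z0 η zp hη hzp).eventually hB
  have hM : ∀ᶠ n in atTop, pe x (η n) (zm n) ∈ Metric.closedBall x r :=
    (pe_tendsto x (-z0) η zm hη hzm).eventually hB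
  filter_upwards [hmain, hP, hM, hFp, hFm,
    pe_ne x z0 (hx.1 0) hz η hη hη0 zp zm hzp hzm] with n h1 h2 h3 h4 h5 h6
  have h7 : {y | y ∈ Metric.closedBall x r ∧ y ∈ Cr w fun v => a v + η n ^ 2 * g v} =
      {pe x (η n) (zp n), pe x (η n) (zm n)} := by
    ext y
    simp only [Set.mem_setOf_eq, Set.mem_insert_iff, Set.mem_singleton_iff]
    constructor
    · rintro ⟨h8, h9⟩
      exact h1 y h8 h9
    · rintro (h8 | h8)
      · rw [h8]
        exact ⟨h2, (Psi_iff w a g x hx (η n) (hη0 n) (zp n)).2 h4⟩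
      · rw [h8]
        exact ⟨h3, (Psi_iff w a g x hx (η n) (hη0 n) (zm n)).2 h5⟩
  rw [h7, Set.ncard_pair h6]

end Pool.Agent.Mono.NP
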