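import Pool.Agent.Work.Monodromy.Interface12K

/-!
# KSIM: the system of a simplex (helper27)
-/

set_option autoImplicit false

namespace Pool.Agent.Mono.NP

open Matrix

namespace KSIMAux

variable {κ : Type} {d : ℕ}

/-- the matrix of the vectors `(w_v, 1)` -/
def MM (K : Type) [Ring K] (w : κ → Fin (d + 1) → ℕ) (vv : Fin (d + 1) ⊕ Unit → κ) :
    Matrix (Fin (d + 1) ⊕ Unit) (Fin (d + 1) ⊕ Unit) K :=
  fun a b => Sum.elim (fun i => (w (vv a) i : K)) (fun _ => 1) b

theorem exists_enum [Fintype κ] [DecidableEq κ] (w : κ → Fin (d + 1) → ℕ) (C : Finset κ)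
    (hC : C.card = d + 2) :
    ∃ vv : Fin (d + 1) ⊕ Unit → κ, Function.Injective vv ∧ (∀ v, v ∈ C ↔ ∃ a, vv a = v) ∧
      adet w (inl C) = |(MM ℚ w vv).det| := by
  classical
  have hc : Fintype.card ↥(inl (ι := Fin (d + 1)) C) = Fintype.card (Fin (d + 1) ⊕ Unit) := by
    rw [Fintype.card_coe, inl, Finset.card_map, hC]; simp
  have h1 : ∀ a : Fin (d + 1) ⊕ Unit, ∃ v, v ∈ C ∧
      (Sum.inl v : κ ⊕ Fin (d + 1)) = ((Fintype.equivOfCardEq hc).symm a).1 := by
    intro a
    obtain ⟨v, hv, hv2⟩ := Finset.mem_map.1 ((Fintype.equivOfCardEq hc).symm a).2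
    exact ⟨v, hv, hv2⟩
  choose vv hvC hvv using h1
  refine ⟨vv, ?_, ?_, ?_⟩
  · intro a b hab
    have h2 : ((Fintype.equivOfCardEq hc).symm a).1 = ((Fintype.equivOfCardEq hc).symm b).1 := by
      rw [← hvv, ← hvv, hab]
    exact (Fintype.equivOfCardEq hc).symm.injective (Subtype.ext h2)
  · intro v
    constructor
    · intro hv
      have hv2 : (Sum.inl v : κ ⊕ Fin (d + 1)) ∈ inl (ι := Fin (d + 1)) C := by
        rw [inl, Finset.mem_map]; exact ⟨v, hv, rfl⟩
      refine ⟨(Fintype.equivOfCardEq hc) ⟨_, hv2⟩, ?_⟩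
      have := hvv ((Fintype.equivOfCardEq hc) ⟨_, hv2⟩)
      rw [Equiv.symm_apply_apply] at this
      exact Sum.inl_injective this
    · rintro ⟨a, rfl⟩; exact hvC a
  · unfold adet
    rw [dif_pos hc]
    congr 1
    have h3 : (Matrix.of fun a b => hat w ((Fintype.equivOfCardEq hc).symm a).1 b) =
        MM ℚ w vv := by
      ext a b
      rw [Matrix.of_apply, ← hvv a]
      rcases b with b | b <;> simp [hat, MM]
    rw [h3]

theorem det_cast (w : κ → Fin (d + 1) → ℕ) (vv : Fin (d + 1) ⊕ Unit → κ) (K : Type)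
    [CommRing K] : (MM K w vv).det = ((MM ℤ w vv).det : K) := by
  have h := (RingHom.map_det (Int.castRingHom K) (MM ℤ w vv)).symm
  have h2 : (Int.castRingHom K).mapMatrix (MM ℤ w vv) = MM K w vv := by
    ext a b
    rcases b with b | b <;> simp [MM]
  rw [h2] at h
  simpa using h

section
variable [Fintype κ] [DecidableEq κ] {w : κ → Fin (d + 1) → ℕ} {C : Finset κ}
  {vv : Fin (d + 1) ⊕ Unit → κ}

/-- pushing a vector on the index set forward to `κ` -/
theorem sum_push {K : Type} [CommRing K] (x : Fin (d + 1) ⊕ Unit → K) (g : κ → K) :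
    ∑ v, (∑ a, if vv a = v then x a else 0) * g v = ∑ a, x a * g (vv a) := by
  have h1 : ∀ v, (∑ a, if vv a = v then x a else 0) * g v =
      ∑ a, if vv a = v then x a * g v else 0 := by
    intro v
    rw [Finset.sum_mul]
    refine Finset.sum_congr rfl fun a _ => ?_
    split_ifs <;> simp
  simp only [h1]
  rw [Finset.sum_comm]
  refine Finset.sum_congr rfl fun a _ => ?_
  simp

theorem sum_rc (hi : Function.Injective vv) (hC : ∀ v, v ∈ C ↔ ∃ a, vv a = v) (b : κ → ℂ)
    (g : κ → ℂ) : ∑ v, rc b C v * g v = ∑ a, b (vv a) * g (vv a) := by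
  rw [← sum_push (vv := vv) (fun a => b (vv a)) g]
  refine Finset.sum_congr rfl fun v _ => ?_
  congr 1
  unfold rc
  split_ifs with hv
  · obtain ⟨a, rfl⟩ := (hC v).1 hv
    have : ∀ a', (if vv a' = vv a then b (vv a') else 0) = if a' = a then b (vv a) else 0 := by
      intro a'
      by_cases h : a' = a
      · simp [h]
      · rw [if_neg h, if_neg fun h2 => h (hi h2)]
    simp [this]
  · symm
    refine Finset.sum_eq_zero fun a _ => ?_
    rw [if_neg]
    intro h
    exact hv ((hC v).2 ⟨a, h⟩)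

theorem det_ne (hi : Function.Injective vv) (hC : ∀ v, v ∈ C ↔ ∃ a, vv a = v)
    (hI : ∀ m : κ → ℚ, (∀ v, v ∉ C → m v = 0) → ∑ v, m v = 0 →
      (∀ i, ∑ v, m v * w v i = 0) → m = 0) : (MM ℚ w vv).det ≠ 0 := by
  intro h0
  obtain ⟨x, hx0, hx⟩ := Matrix.exists_vecMul_eq_zero_iff.2 h0
  apply hx0
  have h1 := hI (fun v => ∑ a, if vv a = v then x a else 0) ?_ ?_ ?_
  · ext a
    have h2 := congrFun h1 (vv a)
    have : ∀ a', (if vv a' = vv a then x a' else 0) = if a' = a then x a else 0 := by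
      intro a'
      by_cases h : a' = a
      · simp [h]
      · rw [if_neg h, if_neg fun h2 => h (hi h2)]
    simpa [this] using h2
  · intro v hv
    refine Finset.sum_eq_zero fun a _ => ?_
    rw [if_neg]
    intro h
    exact hv ((hC v).2 ⟨a, h⟩)
  · have h2 := sum_push (vv := vv) x (fun _ => (1 : ℚ))
    simp only [mul_one] at h2
    rw [h2]
    have h3 := congrFun hx (Sum.inr ())
    simpa [Matrix.vecMul, dotProduct, MM] using h3
  · intro i
    rw [sum_push (vv := vv) x (fun v => (w v i : ℚ))]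
    have h3 := congrFun hx (Sum.inl i)
    simpa [Matrix.vecMul, dotProduct, MM] using h3

omit [Fintype κ] in
/-- the relation has no zero coefficient -/
theorem inv_ne (hi : Function.Injective vv) (hC : ∀ v, v ∈ C ↔ ∃ a, vv a = v) (hD : Dr w)
    (hdet : (MM ℚ w vv).det ≠ 0) (a : Fin (d + 1) ⊕ Unit) :
    (MM ℚ w vv)⁻¹ (Sum.inl 0) a ≠ 0 := by
  classical
  have hu : IsUnit (MM ℚ w vv).det := hdet.isUnit
  have key : ∀ (ρ : Fin (d + 1) → ℚ) (z : ℚ),
      (∀ v ∈ C.erase (vv a), ∑ i, ρ i * w v i = z) →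
      (Sum.elim ρ (fun _ => -z) : Fin (d + 1) ⊕ Unit → ℚ) =
        (∑ i, ρ i * w (vv a) i - z) • fun b => (MM ℚ w vv)⁻¹ b a := by
    intro ρ z h
    have h1 : MM ℚ w vv *ᵥ (Sum.elim ρ (fun _ => -z)) =
        Pi.single a (∑ i, ρ i * w (vv a) i - z) := by
      ext a'
      have h2 : (MM ℚ w vv *ᵥ (Sum.elim ρ (fun _ => -z))) a' =
          ∑ i, ρ i * w (vv a') i - z := by
        simp [Matrix.mulVec, dotProduct, MM, sub_eq_add_neg, mul_comm]
      rw [h2]
      by_cases haa : a' = a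
      · subst haa; simp
      · rw [Pi.single_eq_of_ne haa, h (vv a'), sub_self]
        rw [Finset.mem_erase]
        exact ⟨fun h3 => haa (hi h3), (hC _).2 ⟨a', rfl⟩⟩
    have h3 := congrArg (fun y => (MM ℚ w vv)⁻¹ *ᵥ y) h1
    simp only [Matrix.mulVec_mulVec, Matrix.nonsing_inv_mul _ hu, Matrix.one_mulVec] at h3
    rw [h3]
    ext b
    rw [Matrix.mulVec_single]
    simp [mul_comm]
  -- the covector of column `a`
  set x : Fin (d + 1) ⊕ Unit → ℚ := fun b => (MM ℚ w vv)⁻¹ b a with hx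
  have hMx : MM ℚ w vv *ᵥ x = Pi.single a 1 := by
    have h1 : x = (MM ℚ w vv)⁻¹ *ᵥ (Pi.single a 1) := by
      ext b; rw [Matrix.mulVec_single]; simp [hx]
    rw [h1, Matrix.mulVec_mulVec, Matrix.mul_nonsing_inv _ hu, Matrix.one_mulVec]
  have hconst : ∀ v ∈ C.erase (vv a), ∑ i, x (Sum.inl i) * w v i = -x (Sum.inr ()) := by
    intro v hv
    rw [Finset.mem_erase] at hv
    obtain ⟨a', rfl⟩ := (hC v).1 hv.2
    have h2 := congrFun hMx a'
    have hne : a' ≠ a := fun h => hv.1 (by rw [h])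
    rw [Pi.single_eq_of_ne hne] at h2
    have h3 : (MM ℚ w vv *ᵥ x) a' = ∑ i, x (Sum.inl i) * w (vv a') i + x (Sum.inr ()) := by
      simp [Matrix.mulVec, dotProduct, MM, mul_comm]
    rw [h3] at h2
    linarith
  have hρ : (fun i => x (Sum.inl i)) ≠ 0 := by
    intro h0
    have h0' : ∀ i, x (Sum.inl i) = 0 := fun i => congrFun h0 i
    -- there is another element
    obtain ⟨a', ha'⟩ : ∃ a' : Fin (d + 1) ⊕ Unit, a' ≠ a := by
      rcases a with a | a
      · exact ⟨Sum.inr (), by simp⟩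
      · exact ⟨Sum.inl 0, by simp⟩
    have h1 := hconst (vv a') (by
      rw [Finset.mem_erase]
      exact ⟨fun h3 => ha' (hi h3), (hC _).2 ⟨a', rfl⟩⟩)
    simp only [h0', zero_mul, Finset.sum_const_zero] at h1
    have h2 : x = 0 := by
      ext b
      rcases b with b | b
      · exact h0' b
      · rw [Pi.zero_apply]; linarith
    rw [h2, Matrix.mulVec_zero] at hMx
    have := congrFun hMx a
    simp at this
  obtain ⟨ρ, z, hρ0, hρz⟩ := hD (C.erase (vv a)) ⟨_, _, hρ, hconst⟩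
  have h1 := congrFun (key ρ z hρz) (Sum.inl 0)
  simp only [Sum.elim_inl, Pi.smul_apply, smul_eq_mul] at h1
  intro h2
  apply hρ0
  rw [h1]
  change _ * (MM ℚ w vv)⁻¹ (Sum.inl 0) a = 0
  rw [h2, mul_zero]

/-- the coefficients of the relation -/
noncomputable def rr (w : κ → Fin (d + 1) → ℕ) (vv : Fin (d + 1) ⊕ Unit → κ)
    (a : Fin (d + 1) ⊕ Unit) : ℂ := (((MM ℚ w vv)⁻¹ (Sum.inl 0) a : ℚ) : ℂ)

omit [Fintype κ] [DecidableEq κ] in
theorem map_MM (w : κ → Fin (d + 1) → ℕ) (vv : Fin (d + 1) ⊕ Unit → κ) :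
    (MM ℚ w vv).map (algebraMap ℚ ℂ) = MM ℂ w vv := by
  ext a b
  rcases b with b | b <;> simp [MM]

omit [Fintype κ] [DecidableEq κ] in
theorem inv_mul (hdet : (MM ℚ w vv).det ≠ 0) :
    ((MM ℚ w vv)⁻¹).map (algebraMap ℚ ℂ) * MM ℂ w vv = 1 := by
  rw [← map_MM, ← Matrix.map_mul, Matrix.nonsing_inv_mul _ hdet.isUnit, Matrix.map_one _
    (map_zero _) (map_one _)]

omit [Fintype κ] [DecidableEq κ] in
theorem mul_inv (hdet : (MM ℚ w vv).det ≠ 0) :
    MM ℂ w vv * ((MM ℚ w vv)⁻¹).map (algebraMap ℚ ℂ) = 1 := by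
  rw [← map_MM, ← Matrix.map_mul, Matrix.mul_nonsing_inv _ hdet.isUnit, Matrix.map_one _
    (map_zero _) (map_one _)]

omit [Fintype κ] [DecidableEq κ] in
/-- the relations form a line -/
theorem system_iff (hdet : (MM ℚ w vv).det ≠ 0) (s : Fin (d + 1) ⊕ Unit → ℂ) :
    (∑ a, s a = 0 ∧ ∀ i : Fin d, ∑ a, s a * (w (vv a) i.succ : ℂ) = 0) ↔
      ∃ t : ℂ, ∀ a, s a = t * rr w vv a := by
  constructor
  · rintro ⟨h1, h2⟩
    refine ⟨∑ a, s a * (w (vv a) 0 : ℂ), ?_⟩
    have h3 : s ᵥ* MM ℂ w vv = Pi.single (Sum.inl 0) (∑ a, s a * (w (vv a) 0 : ℂ)) := by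
      ext b
      rcases b with b | b
      · refine Fin.cases ?_ (fun i => ?_) b
        · simp [Matrix.vecMul, dotProduct, MM]
        · rw [Pi.single_eq_of_ne (by simp)]
          simpa [Matrix.vecMul, dotProduct, MM] using h2 i
      · rw [Pi.single_eq_of_ne (by simp)]
        simpa [Matrix.vecMul, dotProduct, MM] using h1
    have h4 := congrArg (fun y => y ᵥ* ((MM ℚ w vv)⁻¹).map (algebraMap ℚ ℂ)) h3
    simp only [Matrix.vecMul_vecMul, mul_inv hdet, Matrix.vecMul_one] at h4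
    intro a
    have h5 := congrFun h4 a
    rw [Matrix.single_vecMul] at h5
    exact h5
  · rintro ⟨t, ht⟩
    have h3 : (fun a => rr w vv a) ᵥ* MM ℂ w vv = Pi.single (Sum.inl 0) 1 := by
      have h5 : (fun a => rr w vv a) =
          Pi.single (Sum.inl 0) (1 : ℂ) ᵥ* ((MM ℚ w vv)⁻¹).map (algebraMap ℚ ℂ) := by
        ext a
        rw [Matrix.single_vecMul]
        simp [rr]
      rw [h5, Matrix.vecMul_vecMul, inv_mul hdet, Matrix.vecMul_one]
    constructor
    · have h4 := congrFun h3 (Sum.inr ())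
      rw [Pi.single_eq_of_ne (by simp)] at h4
      simp only [Matrix.vecMul, dotProduct, MM, Sum.elim_inr, mul_one] at h4
      simp only [ht]
      rw [← Finset.mul_sum, h4, mul_zero]
    · intro i
      have h4 := congrFun h3 (Sum.inl i.succ)
      rw [Pi.single_eq_of_ne (by simp)] at h4
      simp only [Matrix.vecMul, dotProduct, MM, Sum.elim_inl] at h4
      simp only [ht, mul_assoc]
      rw [← Finset.mul_sum, h4, mul_zero]

omit [Fintype κ] [DecidableEq κ] in
theorem mn_ne (w : κ → Fin (d + 1) → ℕ) {y : Fin (d + 1) → ℂ} (hy : y ∈ TT (d + 1)) (v : κ) :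
    mn w y v ≠ 0 := Finset.prod_ne_zero_iff.2 fun i _ => pow_ne_zero _ (hy i)

theorem mem_Cr (hi : Function.Injective vv) (hC : ∀ v, v ∈ C ↔ ∃ a, vv a = v)
    (hdet : (MM ℚ w vv).det ≠ 0) (b : κ → ℂ) (y : Fin (d + 1) → ℂ) :
    y ∈ Cr w (rc b C) ↔ y ∈ TT (d + 1) ∧
      ∃ t : ℂ, ∀ a, b (vv a) * mn w y (vv a) = t * rr w vv a := by
  rw [← system_iff hdet (fun a => b (vv a) * mn w y (vv a))]
  change (_ ∧ _ ∧ _) ↔ _
  have h1 : sm w (rc b C) y = ∑ a, b (vv a) * mn w y (vv a) := sum_rc hi hC b _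
  have h2 : ∀ i : Fin d, sth w (rc b C) y i.succ =
      ∑ a, b (vv a) * mn w y (vv a) * (w (vv a) i.succ : ℂ) := by
    intro i
    have h3 := sum_rc hi hC b fun v => (w v i.succ : ℂ) * mn w y v
    simp only [sth, mul_assoc]
    rw [h3]
    refine Finset.sum_congr rfl fun a _ => by ring
  rw [h1]
  simp only [h2]

end

end KSIMAux

open KSIMAux in
theorem stmt_KSIM (hMON : Stmt_KMON) : Stmt_KSIM := by
  intro κ _ _ d w b C hCc hb hD hI
  obtain ⟨vv, hi, hC, hadet⟩ := exists_enum w C hCc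
  have hdet := det_ne hi hC hI
  have hr : ∀ a, rr w vv a ≠ 0 := by
    intro a
    rw [rr, Rat.cast_ne_zero]
    exact inv_ne hi hC hD hdet a
  have hdetZ : (MM ℤ w vv).det ≠ 0 := by
    intro h
    apply hdet
    rw [det_cast, h, Int.cast_zero]
  set Sol : Set (Fin (d + 1) ⊕ Unit → ℂ) := {z | (∀ i, z i ≠ 0) ∧
    ∀ j, ∏ i, z i ^ (MM ℤ w vv j i) = rr w vv j / b (vv j)} with hSol
  have hcard : Sol.ncard = (MM ℤ w vv).det.natAbs :=
    hMON _ (MM ℤ w vv) (fun j => rr w vv j / b (vv j)) hdetZ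
      fun j => div_ne_zero (hr j) (hb _)
  have hfin : Sol.Finite := by
    refine Set.finite_of_ncard_ne_zero ?_
    rw [hcard]
    exact Int.natAbs_ne_zero.2 hdetZ
  have hprod : ∀ (z : Fin (d + 1) ⊕ Unit → ℂ) (j : Fin (d + 1) ⊕ Unit),
      ∏ i, z i ^ (MM ℤ w vv j i) = mn w (fun i => z (Sum.inl i)) (vv j) * z (Sum.inr ()) := by
    intro z j
    rw [Fintype.prod_sum_type]
    simp [MM, mn]
  have himg : Cr w (rc b C) = (fun z i => z (Sum.inl i)) '' Sol := by
    ext y
    rw [mem_Cr hi hC hdet b y, Set.mem_image]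
    constructor
    · rintro ⟨hy, t, ht⟩
      have ht0 : t ≠ 0 := by
        intro h0
        have := ht (Sum.inr ())
        rw [h0, zero_mul] at this
        exact mul_ne_zero (hb _) (mn_ne w hy _) this
      refine ⟨Sum.elim y fun _ => t⁻¹, ⟨?_, ?_⟩, rfl⟩
      · rintro (i | i)
        · exact hy i
        · exact inv_ne_zero ht0
      · intro j
        rw [hprod]
        simp only [Sum.elim_inl, Sum.elim_inr]
        have hbj := hb (vv j)
        have := ht j
        field_simp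
        linear_combination this
    · rintro ⟨z, ⟨hz, hz2⟩, rfl⟩
      refine ⟨fun i => hz _, (z (Sum.inr ()))⁻¹, fun a => ?_⟩
      have h1 := hz2 a
      rw [hprod] at h1
      have hba := hb (vv a)
      have hzr := hz (Sum.inr ())
      field_simp
      field_simp at h1
      linear_combination h1
  have hinj : Set.InjOn (fun (z : Fin (d + 1) ⊕ Unit → ℂ) i => z (Sum.inl i)) Sol := by
    rintro z ⟨hz, hz2⟩ z' ⟨hz', hz2'⟩ he
    have he' : (fun i => z (Sum.inl i)) = fun i => z' (Sum.inl i) := he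
    have h1 := hz2 (Sum.inr ())
    rw [← hz2' (Sum.inr ()), hprod, hprod, he'] at h1
    have h2 := mul_left_cancel₀ (mn_ne w (y := fun i => z' (Sum.inl i)) (fun i => hz' _) _) h1
    ext i
    rcases i with i | i
    · exact congrFun he' i
    · exact h2
  refine ⟨himg ▸ hfin.image _, ?_, ?_⟩
  · rw [himg, hinj.ncard_image, hcard, hadet, det_cast w vv ℚ, Nat.cast_natAbs,
      Int.cast_abs]
  · intro y hy
    rw [mem_Cr hi hC hdet b y] at hy
    obtain ⟨hyT, t, ht⟩ := hy
    have ht0 : t ≠ 0 := by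
      intro h0
      have := ht (Sum.inr ())
      rw [h0, zero_mul] at this
      exact mul_ne_zero (hb _) (mn_ne w hyT _) this
    intro ξ h1 h2
    -- the pairing with `ξ`
    have h3 : ∑ a, (b (vv a) * mn w y (vv a)) * (∑ j, ξ j * (w (vv a) j : ℂ)) = 0 := by
      have h4 : ∀ j, sth w (rc b C) y j = ∑ a, b (vv a) * ((w (vv a) j : ℂ) * mn w y (vv a)) := by
        intro j
        have h5 := sum_rc hi hC b fun v => (w v j : ℂ) * mn w y v
        simp only [sth, mul_assoc]
        exact h5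
      rw [← h1]
      simp only [h4, Finset.mul_sum]
      rw [Finset.sum_comm]
      refine Finset.sum_congr rfl fun j _ => Finset.sum_congr rfl fun a _ => by ring
    have h3' : ∀ i : Fin d, ∑ a, (b (vv a) * mn w y (vv a)) * (∑ j, ξ j * (w (vv a) j : ℂ)) *
        (w (vv a) i.succ : ℂ) = 0 := by
      intro i
      have h4 : ∀ j, shs w (rc b C) y i.succ j =
          ∑ a, b (vv a) * ((w (vv a) i.succ : ℂ) * ((w (vv a) j : ℂ) * mn w y (vv a))) := by
        intro j
        have h5 := sum_rc hi hC b fun v => (w v i.succ : ℂ) * ((w v j : ℂ) * mn w y v)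
        simp only [shs, mul_assoc]
        exact h5
      rw [← h2 i]
      simp only [h4, Finset.mul_sum, Finset.sum_mul]
      rw [Finset.sum_comm]
      refine Finset.sum_congr rfl fun j _ => Finset.sum_congr rfl fun a _ => by ring
    obtain ⟨t', ht'⟩ := (system_iff hdet (fun a => (b (vv a) * mn w y (vv a)) *
      (∑ j, ξ j * (w (vv a) j : ℂ)))).1 ⟨h3, h3'⟩
    have h5 : ∀ a, ∑ j, ξ j * (w (vv a) j : ℂ) = t' / t := by
      intro a
      have h6 := ht' a
      rw [ht a] at h6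
      have h7 := hr a
      field_simp
      have h8 : rr w vv a * (t * ∑ j, ξ j * (w (vv a) j : ℂ)) = rr w vv a * t' := by
        linear_combination h6
      have h9 := mul_left_cancel₀ h7 h8
      linear_combination h9
    have h6 : MM ℂ w vv *ᵥ (Sum.elim ξ fun _ => -(t' / t)) = 0 := by
      ext a
      have h7 : (MM ℂ w vv *ᵥ (Sum.elim ξ fun _ => -(t' / t))) a =
          ∑ j, ξ j * (w (vv a) j : ℂ) - t' / t := by
        simp [Matrix.mulVec, dotProduct, MM, sub_eq_add_neg, mul_comm]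
      rw [h7, h5 a, sub_self, Pi.zero_apply]
    have h7 := congrArg (fun z => ((MM ℚ w vv)⁻¹).map (algebraMap ℚ ℂ) *ᵥ z) h6
    simp only [Matrix.mulVec_mulVec, inv_mul hdet, Matrix.one_mulVec, Matrix.mulVec_zero] at h7
    ext j
    exact congrFun h7 (Sum.inl j)

end Pool.Agent.Mono.NP
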