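import Pool.Agent.Work.Monodromy.Interface12K

/-!
# Phase 12, KSLC: the slices are in the class (helper84)
-/

set_option autoImplicit false

namespace Pool.Agent.Mono.NP

namespace KSLCAux

variable {κ : Type} [Fintype κ] {d : ℕ}

theorem mn_cons (w : κ → Fin (d + 1) → ℕ) (c : ℂ) (y : Fin d → ℂ) (v : κ) :
    mn w (Fin.cons c y) v = c ^ w v 0 * mn (slw w) y v := by
  unfold mn slw
  rw [Fin.prod_univ_succ]
  simp only [Fin.cons_zero, Fin.cons_succ]

theorem sl_mn (w : κ → Fin (d + 1) → ℕ) (a : κ → ℂ) (c : ℂ) (y : Fin d → ℂ) (v : κ) :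
    sla w a c v * mn (slw w) y v = a v * mn w (Fin.cons c y) v := by
  rw [mn_cons]
  unfold sla
  ring

theorem sm_cons (w : κ → Fin (d + 1) → ℕ) (a : κ → ℂ) (c : ℂ) (y : Fin d → ℂ) :
    sm (slw w) (sla w a c) y = sm w a (Fin.cons c y) := by
  unfold sm
  exact Finset.sum_congr rfl fun v _ => sl_mn w a c y v

theorem sth_cons (w : κ → Fin (d + 1) → ℕ) (a : κ → ℂ) (c : ℂ) (y : Fin d → ℂ) (i : Fin d) :
    sth (slw w) (sla w a c) y i = sth w a (Fin.cons c y) i.succ := by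
  unfold sth
  refine Finset.sum_congr rfl fun v _ => ?_
  have h := sl_mn w a c y v
  have e : (slw w v i : ℂ) = (w v i.succ : ℂ) := rfl
  calc sla w a c v * (slw w v i : ℂ) * mn (slw w) y v
      = (slw w v i : ℂ) * (sla w a c v * mn (slw w) y v) := by ring
    _ = (w v i.succ : ℂ) * (a v * mn w (Fin.cons c y) v) := by rw [h, e]
    _ = _ := by ring

theorem shs_cons (w : κ → Fin (d + 1) → ℕ) (a : κ → ℂ) (c : ℂ) (y : Fin d → ℂ) (i j : Fin d) :
    shs (slw w) (sla w a c) y i j = shs w a (Fin.cons c y) i.succ j.succ := by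
  unfold shs
  refine Finset.sum_congr rfl fun v _ => ?_
  have h := sl_mn w a c y v
  have e : ∀ i, (slw w v i : ℂ) = (w v i.succ : ℂ) := fun _ => rfl
  calc sla w a c v * (slw w v i : ℂ) * (slw w v j : ℂ) * mn (slw w) y v
      = (slw w v i : ℂ) * (slw w v j : ℂ) * (sla w a c v * mn (slw w) y v) := by ring
    _ = (w v i.succ : ℂ) * (w v j.succ : ℂ) * (a v * mn w (Fin.cons c y) v) := by
        rw [h, e, e]
    _ = _ := by ring

theorem TT_cons {c : ℂ} (hc : c ≠ 0) {y : Fin d → ℂ} :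
    (Fin.cons c y : Fin (d + 1) → ℂ) ∈ TT (d + 1) ↔ y ∈ TT d := by
  unfold TT
  simp only [Set.mem_setOf_eq]
  constructor
  · intro h i
    have := h i.succ
    rwa [Fin.cons_succ] at this
  · intro h i
    refine Fin.cases ?_ (fun i => ?_) i
    · rwa [Fin.cons_zero]
    · rw [Fin.cons_succ]
      exact h i

theorem Hyp_cons {w : κ → Fin (d + 1) → ℕ} {a : κ → ℂ} {c : ℂ} (hc : c ≠ 0) :
    Hyp (slw w) (sla w a c) = {y | (Fin.cons c y : Fin (d + 1) → ℂ) ∈ Hyp w a} := by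
  ext y
  unfold Hyp
  simp only [Set.mem_setOf_eq]
  rw [TT_cons hc, sm_cons]

theorem Nds_cons {w : κ → Fin (d + 1) → ℕ} {a : κ → ℂ} {c : ℂ} (hc : c ≠ 0) :
    Nds (slw w) (sla w a c) = {y | (Fin.cons c y : Fin (d + 1) → ℂ) ∈ Cr w a} := by
  ext y
  unfold Nds Cr
  simp only [Set.mem_setOf_eq]
  rw [TT_cons hc, sm_cons]
  simp only [sth_cons]

theorem fullDim_sl {w : κ → Fin (d + 1) → ℕ} (h : FullDim w) : FullDim (slw w) := by
  intro ρ z hz
  have h1 := h (Fin.cons 0 ρ) z (fun v => by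
    rw [Fin.sum_univ_succ, Fin.cons_zero, zero_mul, zero_add, ← hz v]
    simp only [Fin.cons_succ]
    rfl)
  ext i
  have := congrFun h1 i.succ
  rwa [Fin.cons_succ] at this

theorem Fc_sl {w : κ → Fin (d + 1) → ℕ} {F : Finset κ} (h : Fc (slw w) F) : Fc w F :=
  fun m h0 h1 h2 => h m h0 (fun i => h1 i.succ) h2

/-- a proper face lies in a hyperplane -/
theorem hyperplane {e : ℕ} {w : κ → Fin e → ℕ} {F : Finset κ} (hF : Fc w F)
    (hne : F.Nonempty) (hu : F ≠ Finset.univ) :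
    ∃ (ρ : Fin e → ℚ) (z : ℚ), ρ ≠ 0 ∧ ∀ v ∈ F, ∑ i, ρ i * w v i = z := by
  classical
  obtain ⟨v0, hv0⟩ : ∃ v0, v0 ∉ F := by
    by_contra hcon
    push Not at hcon
    exact hu (Finset.eq_univ_iff_forall.mpr hcon)
  -- the vectors `(w_v, 1)`
  obtain ⟨q, hq⟩ : ∃ q : κ → (Fin e → ℚ) × ℚ, ∀ v, q v = (fun i => (w v i : ℚ), 1) :=
    ⟨fun v => (fun i => (w v i : ℚ), 1), fun _ => rfl⟩
  have hnot : q v0 ∉ Submodule.span ℚ (q '' (F : Set κ)) := by
    intro hmem
    rw [Submodule.mem_span_image_finset_iff_exists_fun'] at hmem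
    obtain ⟨c, hc⟩ := hmem
    obtain ⟨m, hm⟩ : ∃ m : κ → ℚ, ∀ v, m v = (if v = v0 then 1 else 0) -
        (if v ∈ F then c v else 0) := ⟨fun v => _, fun _ => rfl⟩
    have key : ∑ v, m v • q v = 0 := by
      simp only [hm, sub_smul, ite_smul, one_smul, zero_smul, Finset.sum_sub_distrib,
        Finset.sum_ite_eq', Finset.mem_univ, if_true]
      rw [← Finset.sum_filter, Finset.filter_mem_eq_inter, Finset.univ_inter, hc, sub_self]
    have k1 : ∑ v, m v = 0 := by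
      have h := congrArg Prod.snd key
      rw [Prod.snd_sum] at h
      simpa [hq] using h
    have k2 : ∀ i, ∑ v, m v * w v i = 0 := by
      intro i
      have h := congrFun (congrArg Prod.fst key) i
      rw [Prod.fst_sum, Finset.sum_apply] at h
      simpa [hq] using h
    have k3 : ∀ v, v ∉ F → 0 ≤ m v := by
      intro v hv
      rw [hm, if_neg hv, sub_zero]
      split_ifs <;> norm_num
    have k4 := hF m k1 k2 k3 v0 hv0
    rw [hm, if_neg hv0, if_pos rfl, sub_zero] at k4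
    exact one_ne_zero k4
  obtain ⟨f, hf1, hf2⟩ := Submodule.exists_dual_map_eq_bot_of_notMem hnot inferInstance
  obtain ⟨ρ, hρ⟩ : ∃ ρ : Fin e → ℚ, ∀ i, ρ i = f (Pi.single i 1, 0) := ⟨fun i => _, fun _ => rfl⟩
  have hf : ∀ (x : Fin e → ℚ) (t : ℚ), f (x, t) = ∑ i, ρ i * x i + t * f (0, 1) := by
    intro x t
    have h1 : ((x, t) : (Fin e → ℚ) × ℚ) =
        ∑ i, x i • ((Pi.single i 1, 0) : (Fin e → ℚ) × ℚ) + t • ((0, 1) : (Fin e → ℚ) × ℚ) := by
      refine Prod.ext ?_ ?_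
      · rw [Prod.fst_add, Prod.fst_sum]
        simp only [Prod.smul_fst, smul_zero, add_zero]
        ext j
        rw [Finset.sum_apply]
        simp [Pi.single_apply]
      · rw [Prod.snd_add, Prod.snd_sum]
        simp
    rw [h1, map_add, map_sum, map_smul]
    simp only [map_smul, smul_eq_mul, hρ]
    congr 1
    exact Finset.sum_congr rfl fun i _ => mul_comm _ _
  have hF0 : ∀ v ∈ F, ∑ i, ρ i * w v i = -f (0, 1) := by
    intro v hv
    have h1 : f (q v) = 0 := by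
      have h2 : f (q v) ∈ (Submodule.span ℚ (q '' (F : Set κ))).map f :=
        Submodule.mem_map_of_mem (Submodule.subset_span (Set.mem_image_of_mem q hv))
      rw [hf2] at h2
      exact (Submodule.mem_bot ℚ).mp h2
    rw [hq, hf] at h1
    linarith
  refine ⟨ρ, -f (0, 1), ?_, hF0⟩
  intro h0
  obtain ⟨v, hv⟩ := hne
  have h1 := hF0 v hv
  rw [h0] at h1
  simp only [Pi.zero_apply, zero_mul, Finset.sum_const_zero] at h1
  apply hf1
  rw [hq, hf, h0]
  simp only [Pi.zero_apply, zero_mul, Finset.sum_const_zero]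
  linarith

theorem NdI_sl {w : κ → Fin (d + 1) → ℕ} {a : κ → ℂ} {c : ℂ} (hc : c ≠ 0) (hN : NdI w a)
    (hD : Dr w) : NdI (slw w) (sla w a c) := by
  intro F hne hu hF y hy hcon
  obtain ⟨h0, h1⟩ := hcon
  have hF' := Fc_sl hF
  obtain ⟨ρ', z', hρ', hz'⟩ := hyperplane hF' hne hu
  obtain ⟨ρ, z, hρ0, hz⟩ := hD F ⟨ρ', z', hρ', hz'⟩
  refine hN F hne hu hF' (Fin.cons c y) ((TT_cons hc).mpr hy) ?_
  have g0 : ∑ v ∈ F, a v * mn w (Fin.cons c y) v = 0 := by
    rw [← h0]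
    exact Finset.sum_congr rfl fun v _ => (sl_mn w a c y v).symm
  have g1 : ∀ i : Fin d, ∑ v ∈ F, a v * (w v i.succ : ℂ) * mn w (Fin.cons c y) v = 0 := by
    intro i
    rw [← h1 i]
    refine Finset.sum_congr rfl fun v _ => ?_
    have h := sl_mn w a c y v
    have e : (slw w v i : ℂ) = (w v i.succ : ℂ) := rfl
    calc a v * (w v i.succ : ℂ) * mn w (Fin.cons c y) v
        = (w v i.succ : ℂ) * (a v * mn w (Fin.cons c y) v) := by ring
      _ = (slw w v i : ℂ) * (sla w a c v * mn (slw w) y v) := by rw [h, e]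
      _ = _ := by ring
  refine ⟨g0, ?_⟩
  have key : (ρ 0 : ℂ) * ∑ v ∈ F, a v * (w v 0 : ℂ) * mn w (Fin.cons c y) v = 0 := by
    have h2 : ∀ v ∈ F, (ρ 0 : ℂ) * (w v 0 : ℂ) + ∑ i : Fin d, (ρ i.succ : ℂ) * (w v i.succ : ℂ) =
        (z : ℂ) := by
      intro v hv
      have h3 := hz v hv
      rw [Fin.sum_univ_succ] at h3
      exact_mod_cast congrArg (fun q : ℚ => (q : ℂ)) h3
    have h4 : ∑ v ∈ F, ((ρ 0 : ℂ) * (w v 0 : ℂ) +
        ∑ i : Fin d, (ρ i.succ : ℂ) * (w v i.succ : ℂ)) * (a v * mn w (Fin.cons c y) v) = 0 := by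
      rw [Finset.sum_congr rfl (fun v hv => by rw [h2 v hv]), ← Finset.mul_sum, g0, mul_zero]
    simp only [add_mul, Finset.sum_add_distrib, Finset.sum_mul] at h4
    rw [Finset.sum_comm (s := F)] at h4
    have h5 : ∑ i : Fin d, ∑ v ∈ F, (ρ i.succ : ℂ) * (w v i.succ : ℂ) *
        (a v * mn w (Fin.cons c y) v) = 0 := by
      refine Finset.sum_eq_zero fun i _ => ?_
      have h6 : ∑ v ∈ F, (ρ i.succ : ℂ) * (w v i.succ : ℂ) * (a v * mn w (Fin.cons c y) v) =
          (ρ i.succ : ℂ) * ∑ v ∈ F, a v * (w v i.succ : ℂ) * mn w (Fin.cons c y) v := by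
        rw [Finset.mul_sum]
        exact Finset.sum_congr rfl fun v _ => by ring
      rw [h6, g1 i, mul_zero]
    rw [h5, add_zero] at h4
    rw [Finset.mul_sum, ← h4]
    exact Finset.sum_congr rfl fun v _ => by ring
  have hρ0' : (ρ 0 : ℂ) ≠ 0 := by exact_mod_cast hρ0
  intro i
  refine Fin.cases ?_ (fun i => ?_) i
  · exact (mul_eq_zero.mp key).resolve_left hρ0'
  · exact g1 i

end KSLCAux

open KSLCAux in
theorem stmt_KSLC : Stmt_KSLC := by
  intro κ _ d w a c hc hFD hN hD hH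
  refine ⟨fullDim_sl hFD, NdI_sl hc hN hD, ?_, Nds_cons hc, Hyp_cons hc⟩
  intro y hy
  rw [Nds_cons hc] at hy
  have h := hH (Fin.cons c y) hy
  have e : (Matrix.of (shs (slw w) (sla w a c) y)) =
      Matrix.of fun i j : Fin d => shs w a (Fin.cons c y) i.succ j.succ := by
    ext i j
    exact shs_cons w a c y i j
  rw [e]
  exact h

end Pool.Agent.Mono.NP
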