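import Pool.Agent.Work.Monodromy.Interface12C
import Pool.Agent.Work.Monodromy.X0

/-!
# Phase 12, part I, block KW: the class of the cover of the complement (helper99)
-/

set_option autoImplicit false

namespace Pool.Agent.Mono.NP

open MvPolynomial Filter Topology

namespace KWAux

/-- one more generic number -/
theorem exists_num {κ : Type} [Fintype κ] (a : κ → ℂ) (ha : AlgebraicIndependent ℚ a) :
    ∃ g : ℂ, AlgebraicIndependent ℚ (Sum.elim a fun _ : Unit => g) := by
  classical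
  obtain ⟨B, hB1, hB2⟩ := exists_isTranscendenceBasis_superset (R := ℚ) (s := Set.range a)
    ha.coe_range
  have hcB : Cardinal.mk B = Cardinal.continuum := by
    have h1 := IsAlgClosed.cardinal_eq_cardinal_transcendence_basis_of_aleph0_lt' (R := ℚ)
      (fun x : B => (x : ℂ)) hB2 Cardinal.mk_le_aleph0
      (by rw [Cardinal.mk_complex]; exact Cardinal.aleph0_lt_continuum)
    rw [← h1, Cardinal.mk_complex]
  have h2 : ∃ t ∈ B, t ∉ Set.range a := by
    by_contra hc
    push Not at hc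
    have h3 : B.Finite := (Set.finite_range a).subset hc
    have h4 : Cardinal.mk B < Cardinal.continuum := by
      have : Finite B := h3
      exact (Cardinal.lt_aleph0_of_finite B).trans Cardinal.aleph0_lt_continuum
    rw [hcB] at h4
    exact lt_irrefl _ h4
  obtain ⟨t, htB, ht⟩ := h2
  refine ⟨t, ?_⟩
  let f : κ ⊕ Unit → B := Sum.elim (fun v => ⟨a v, hB1 ⟨v, rfl⟩⟩) fun _ => ⟨t, htB⟩
  have hf : Function.Injective f := by
    rintro (v | ⟨⟩) (v' | ⟨⟩) hv
    · have h3 : a v = a v' := congrArg Subtype.val hv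
      rw [ha.injective h3]
    · exact absurd ⟨v, congrArg Subtype.val hv⟩ ht
    · exact absurd ⟨v', (congrArg Subtype.val hv).symm⟩ ht
    · rfl
  have h5 := hB2.1.comp f hf
  have h6 : (fun x : B => (x : ℂ)) ∘ f = Sum.elim a fun _ : Unit => t := by
    funext v
    rcases v with v | v
    · rfl
    · rfl
  rw [← h6]
  exact h5

/-- one more height -/
theorem exists_height {κ : Type} [Fintype κ] (h : κ → ℝ) (hh : LinearIndependent ℚ h) :
    ∃ h₀ : ℝ, LinearIndependent ℚ (Sum.elim h fun _ : Unit => h₀) := by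
  classical
  have hcount : (Set.range fun q : κ → ℚ => ∑ v, q v • h v).Countable := Set.countable_range _
  have h1 : ∃ h₀ : ℝ, h₀ ∉ Set.range fun q : κ → ℚ => ∑ v, q v • h v := by
    by_contra hc
    push Not at hc
    have h2 : (Set.range fun q : κ → ℚ => ∑ v, q v • h v) = Set.univ :=
      Set.eq_univ_of_forall hc
    rw [h2] at hcount
    exact Set.not_countable_univ hcount
  obtain ⟨h₀, h2⟩ := h1
  refine ⟨h₀, ?_⟩
  rw [Fintype.linearIndependent_iff] at hh ⊢
  intro g hg
  rw [Fintype.sum_sum_type] at hg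
  simp only [Sum.elim_inl, Sum.elim_inr, Finset.univ_unique, Finset.sum_singleton,
    PUnit.default_eq_unit] at hg
  have h3 : g (Sum.inr ()) = 0 := by
    by_contra hne
    apply h2
    refine ⟨fun v => -(g (Sum.inr ()))⁻¹ * g (Sum.inl v), ?_⟩
    have h4 : ∑ v, (-(g (Sum.inr ()))⁻¹ * g (Sum.inl v)) • h v =
        (-(g (Sum.inr ()))⁻¹) • ∑ v, g (Sum.inl v) • h v := by
      rw [Finset.smul_sum]
      apply Finset.sum_congr rfl
      intro v _
      rw [mul_smul]
    show ∑ v, (-(g (Sum.inr ()))⁻¹ * g (Sum.inl v)) • h v = h₀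
    rw [h4]
    have h5 : ∑ v, g (Sum.inl v) • h v = -(g (Sum.inr ()) • h₀) := by
      linear_combination hg
    rw [h5, smul_neg, neg_smul, neg_neg, smul_smul, inv_mul_cancel₀ hne, one_smul]
  have h6 := hh (fun v => g (Sum.inl v)) (by
    rw [h3, zero_smul, add_zero] at hg
    exact hg)
  rintro (v | ⟨⟩)
  · exact h6 v
  · exact h3

section

variable {ι κ : Type} [Fintype ι] [DecidableEq ι] [Fintype κ] [DecidableEq κ]

set_option linter.unusedSectionVars false

theorem con_VF (w : κ → ι → ℕ) (a : κ → ℂ) (F : Finset κ) : Constructible (VF w a F) := by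
  have h1 : VF w a F = {x : ι → ℂ | eval x (∏ i, X i : MvPolynomial ι ℂ) = 0}ᶜ ∩
      {x | eval x (∑ v ∈ F, C (a v) * ∏ i, X i ^ w v i : MvPolynomial ι ℂ) = 0} := by
    ext x
    simp only [VF, Set.mem_ofPred_eq, Set.mem_inter_iff, Set.mem_compl_iff, map_prod, eval_X,
      map_sum, map_mul, eval_C, map_pow]
    rw [← ne_eq, Finset.prod_ne_zero_iff]
    simp
  rw [h1]
  exact (Constructible.zero _).compl.inter (Constructible.zero _)

theorem con_WF (w : κ → ι → ℕ) (a : κ → ℂ) (d : ℕ) (F : Finset κ) :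
    Constructible (WF w a d F) := by
  have h1 : WF w a d F =
      ({x : ι ⊕ Unit → ℂ | eval x (∏ i, X (Sum.inl i) : MvPolynomial (ι ⊕ Unit) ℂ) = 0}ᶜ ∩
      {x : ι ⊕ Unit → ℂ | eval x (X (Sum.inr ()) : MvPolynomial (ι ⊕ Unit) ℂ) = 0}ᶜ) ∩
      {x | eval x (X (Sum.inr ()) ^ d : MvPolynomial (ι ⊕ Unit) ℂ) =
        eval x (∑ v ∈ F, C (a v) * ∏ i, X (Sum.inl i) ^ w v i : MvPolynomial (ι ⊕ Unit) ℂ)} := by
    ext x
    simp only [WF, Set.mem_ofPred_eq, Set.mem_inter_iff, Set.mem_compl_iff, map_prod, eval_X,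
      map_sum, map_mul, eval_C, map_pow]
    rw [← ne_eq, ← ne_eq, Finset.prod_ne_zero_iff]
    simp [and_assoc]
  rw [h1]
  exact ((Constructible.zero _).compl.inter (Constructible.zero _).compl).inter (X0.eqSet _ _)

/-- the face of the pyramid -/
theorem sum_pyr (w : κ → ι → ℕ) (d : ℕ) (a : κ → ℂ) (g : ℂ) (F : Finset κ) (x : ι ⊕ Unit → ℂ) :
    ∑ v ∈ F.map Function.Embedding.inl ∪ {Sum.inr ()}, (Sum.elim a fun _ : Unit => g) v *
      ∏ i, x i ^ pyr w d v i =
    ∑ v ∈ F, a v * ∏ i, x (Sum.inl i) ^ w v i + g * x (Sum.inr ()) ^ d := by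
  have hdisj : Disjoint (F.map Function.Embedding.inl) ({Sum.inr ()} : Finset (κ ⊕ Unit)) := by
    rw [Finset.disjoint_singleton_right]
    simp
  rw [Finset.sum_union hdisj, Finset.sum_map, Finset.sum_singleton]
  congr 1
  · apply Finset.sum_congr rfl
    intro v _
    rw [Fintype.prod_sum_type]
    simp [pyr]
  · rw [Fintype.prod_sum_type]
    simp [pyr]

theorem rk_pos (w : κ → ι → ℕ) (F : Finset κ) (hF : F.Nonempty) : 1 ≤ rk w F := by
  obtain ⟨a, ha⟩ := hF
  rw [Nat.one_le_iff_ne_zero]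
  intro hc
  unfold rk at hc
  have h1 : Submodule.span ℚ ((fun a => hat w (Sum.inl a)) '' (F : Set κ)) = ⊥ :=
    Submodule.finrank_eq_zero.1 hc
  have h2 : hat w (Sum.inl a) ∈ Submodule.span ℚ ((fun a => hat w (Sum.inl a)) '' (F : Set κ)) :=
    Submodule.subset_span ⟨a, ha, rfl⟩
  rw [h1, Submodule.mem_bot] at h2
  have h3 := congrFun h2 (Sum.inr ())
  exact one_ne_zero (α := ℚ) h3

end

end KWAux

/-- block KW -/
theorem stmt_KW (hKF : Stmt_KF) (hPYRC : Stmt_PYRC) : Stmt_KW := by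
  classical
  intro E ι κ _ _ _ _ w a h F d hF hd hw ha hh
  obtain ⟨g, hg⟩ := KWAux.exists_num a ha
  obtain ⟨h₀, hh₀⟩ := KWAux.exists_height h hh
  have hg0 : g ≠ 0 := hg.ne_zero (Sum.inr ())
  obtain ⟨l, hl⟩ : ∃ l : ℂ, l ^ d = -g := IsAlgClosed.exists_pow_nat_eq (-g) (by omega)
  have hl0 : l ≠ 0 := by
    intro hc
    rw [hc, zero_pow (by omega)] at hl
    exact hg0 (neg_eq_zero.1 hl.symm)
  -- the pyramid
  have hinj : Function.Injective (pyr w d) := by
    rintro (v | ⟨⟩) (v' | ⟨⟩) hv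
    · have h1 : w v = w v' := by
        funext i
        exact congrFun hv (Sum.inl i)
      rw [hw h1]
    · have h1 := congrFun hv (Sum.inr ())
      simp only [pyr, Sum.elim_inl, Sum.elim_inr] at h1
      omega
    · have h1 := congrFun hv (Sum.inr ())
      simp only [pyr, Sum.elim_inl, Sum.elim_inr] at h1
      omega
    · rfl
  obtain ⟨hrk, hsum⟩ := hPYRC ι κ w h h₀ F d hF hd hh₀
  obtain ⟨q, hq1, -, hq3⟩ := hKF E (ι ⊕ Unit) (κ ⊕ Unit) (pyr w d) (Sum.elim a fun _ : Unit => g)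
    (Sum.elim h fun _ : Unit => h₀) (F.map Function.Embedding.inl ∪ {Sum.inr ()})
    ⟨Sum.inr (), Finset.mem_union_right _ (Finset.mem_singleton_self _)⟩ hinj hg hh₀
  have hmap : E.val (WF w a d F) = E.val (VF (pyr w d) (Sum.elim a fun _ : Unit => g)
      (F.map Function.Embedding.inl ∪ {Sum.inr ()})) := by
    refine E.map _ _ (Sum.elim (fun i => X (Sum.inl i)) fun _ => C l⁻¹ * X (Sum.inr ()))
      (KWAux.con_WF w a d F) (KWAux.con_VF _ _ _) ?_
    have hφ : (fun (x : ι ⊕ Unit → ℂ) (j : ι ⊕ Unit) => eval x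
        ((Sum.elim (fun i => X (Sum.inl i)) fun _ => C l⁻¹ * X (Sum.inr ()) :
          ι ⊕ Unit → MvPolynomial (ι ⊕ Unit) ℂ) j)) =
        fun x => Sum.elim (fun i => x (Sum.inl i)) fun _ => l⁻¹ * x (Sum.inr ()) := by
      funext x j
      rcases j with j | j
      · simp
      · simp
    rw [hφ]
    refine ⟨?_, ?_, ?_⟩
    · rintro z ⟨hz1, hz2, hz3⟩
      refine ⟨?_, ?_⟩
      · rintro (i | ⟨⟩)
        · exact hz1 i
        · exact mul_ne_zero (inv_ne_zero hl0) hz2
      · rw [KWAux.sum_pyr]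
        simp only [Sum.elim_inl, Sum.elim_inr]
        rw [← hz3, mul_pow, inv_pow, hl]
        field_simp
        ring
    · intro z _ z' _ hzz
      funext j
      rcases j with j | ⟨⟩
      · exact congrFun hzz (Sum.inl j)
      · have h1 := congrFun hzz (Sum.inr ())
        simp only [Sum.elim_inr] at h1
        exact mul_left_cancel₀ (inv_ne_zero hl0) h1
    · rintro x ⟨hx1, hx2⟩
      rw [KWAux.sum_pyr] at hx2
      refine ⟨Sum.elim (fun i => x (Sum.inl i)) fun _ => l * x (Sum.inr ()), ⟨?_, ?_, ?_⟩, ?_⟩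
      · intro i
        exact hx1 (Sum.inl i)
      · exact mul_ne_zero hl0 (hx1 (Sum.inr ()))
      · simp only [Sum.elim_inl, Sum.elim_inr]
        rw [mul_pow, hl]
        linear_combination -hx2
      · funext j
        rcases j with j | ⟨⟩
        · rfl
        · simp only [Sum.elim_inr]
          rw [← mul_assoc, inv_mul_cancel₀ hl0, one_mul]
  have hpos := KWAux.rk_pos w F hF
  refine ⟨q, ?_, ?_⟩
  · rw [hmap, hq1, hrk]
    congr 2
    rw [Fintype.card_sum, Fintype.card_unit]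
    omega
  · rw [hq3 (by omega), hrk, hsum]

end Pool.Agent.Mono.NP
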