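import Pool.Agent.Work.Monodromy.Interface12A

/-!
# Phase 12, block LF (helper49)
-/

set_option autoImplicit false

namespace Pool.Agent.Mono.NP

open MvPolynomial

namespace LFAux

section

variable {ι κ : Type} [Fintype ι] [DecidableEq ι] [Fintype κ] [DecidableEq κ]

theorem algebraMap_laurent (c : ℚ) : algebraMap ℚ (LaurentSeries ℚ) c = HahnSeries.C c := by
  exact (map_ratCast (algebraMap ℚ (LaurentSeries ℚ)) c).trans
    (map_ratCast (HahnSeries.C : ℚ →+* LaurentSeries ℚ) c).symm

theorem cf_smul {F : Type} [Field F] [Algebra ℚ F] (w : κ → ι → ℕ) (Δ : Finset (κ ⊕ ι))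
    (t : F) (y : ι ⊕ Unit → F) (v : κ ⊕ ι) :
    cf w Δ (fun e => t * y e) v = t * cf w Δ y v := by
  unfold cf
  by_cases hv : v ∈ Δ
  · rw [if_pos hv, if_pos hv]
    unfold ev
    rw [Finset.mul_sum]
    refine Finset.sum_congr rfl fun e _ => ?_
    ring
  · rw [if_neg hv, if_neg hv, mul_zero]

theorem gen_smul {F : Type} [Field F] [Algebra ℚ F] {w : κ → ι → ℕ} {h : κ → ℝ}
    {t : F} (ht : t ≠ 0) {y : ι ⊕ Unit → F} (hy : Gen w h y) :
    Gen w h (fun e => t * y e) := by
  intro Δ hΔ v hv
  rw [cf_smul]
  exact mul_ne_zero ht (hy Δ hΔ v hv)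

/-- absorption of variables -/
theorem itg_prod (hREL : Stmt_REL) {w : κ → ι → ℕ} {h : κ → ℝ} (hh : LinearIndependent ℚ h)
    {F : Type} [Field F] [Algebra ℚ F] {y : ι ⊕ Unit → F} (hy : Gen w h y)
    (S : Finset (κ ⊕ ι)) : ∀ (σ : Finset (κ ⊕ ι)) (g : MvPolynomial (κ ⊕ ι) ℚ),
      Disjoint S σ → Itg w h σ ((∏ v ∈ S, X v) * g) y = Itg w h (σ ∪ S) g y := by
  induction S using Finset.induction_on with
  | empty =>
    intro σ g _
    rw [Finset.prod_empty, one_mul, Finset.union_empty]
  | insert v S hv ih =>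
    intro σ g hd
    rw [Finset.disjoint_insert_left] at hd
    rw [Finset.prod_insert hv, mul_assoc,
      (hREL ι κ w h hh F y hy σ ((∏ v ∈ S, X v) * g) 0).2.2.2.1 v hd.1, ih]
    · congr 1
      rw [Finset.insert_union, Finset.union_insert]
    · rw [Finset.disjoint_insert_right]
      exact ⟨hv, hd.2⟩

/-- scaling kills polynomial integrals of small degree -/
theorem zero_of_scaling (y : ι ⊕ Unit → LaurentSeries ℚ) (P : MvPolynomial (ι ⊕ Unit) ℚ) (r : ℕ)
    (hr : 0 < r)
    (hP : ∀ t : ℚ, t ≠ 0 → aeval (fun e => HahnSeries.C t * y e) P *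
      (HahnSeries.C t : LaurentSeries ℚ) ^ r = aeval y P) : aeval y P = 0 := by
  let Q : Polynomial (LaurentSeries ℚ) :=
    aeval (fun e => Polynomial.C (y e) * Polynomial.X) P
  have hQ : ∀ x : LaurentSeries ℚ, Q.eval x = aeval (fun e => x * y e) P := by
    intro x
    have h1 : ((Polynomial.aeval x).restrictScalars ℚ :
        Polynomial (LaurentSeries ℚ) →ₐ[ℚ] LaurentSeries ℚ).comp
        (aeval (fun e => Polynomial.C (y e) * Polynomial.X)) =
        (aeval (fun e => x * y e) : MvPolynomial (ι ⊕ Unit) ℚ →ₐ[ℚ] LaurentSeries ℚ) := by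
      refine MvPolynomial.algHom_ext fun e => ?_
      rw [AlgHom.comp_apply, aeval_X, aeval_X, AlgHom.restrictScalars_apply, map_mul,
        Polynomial.aeval_C, Polynomial.aeval_X, mul_comm]
      rfl
    have h2 := congrArg (fun φ => φ P) h1
    simp only [AlgHom.comp_apply, AlgHom.restrictScalars_apply] at h2
    rw [← h2, Polynomial.coe_aeval_eq_eval]
  have h0 : Q * Polynomial.X ^ r - Polynomial.C (aeval y P) = 0 := by
    apply Polynomial.eq_zero_of_infinite_isRoot
    have hinf : Set.Infinite {t : ℚ | t ≠ 0} := Set.Infinite.sdiff Set.infinite_univ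
      (Set.finite_singleton (0 : ℚ)) |>.mono (by intro t ht; exact ht.2)
    refine (hinf.image (f := fun t => (HahnSeries.C t : LaurentSeries ℚ)) ?_).mono ?_
    · intro a _ b _ hab
      exact HahnSeries.C_injective hab
    · rintro _ ⟨t, ht, rfl⟩
      change Polynomial.IsRoot _ _
      rw [Polynomial.IsRoot.def]
      simp only [Polynomial.eval_sub, Polynomial.eval_mul, Polynomial.eval_pow,
        Polynomial.eval_X, Polynomial.eval_C, hQ]
      rw [hP t ht, sub_self]
  have h1 := congrArg (Polynomial.eval 0) h0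
  simp only [Polynomial.eval_sub, Polynomial.eval_mul, Polynomial.eval_pow,
    Polynomial.eval_X, Polynomial.eval_C, Polynomial.eval_zero, zero_pow hr.ne', mul_zero,
    zero_sub] at h1
  exact neg_eq_zero.1 h1

end

end LFAux

open LFAux in
theorem stmt_LF (hREG : Stmt_REG) (hREL : Stmt_REL) (hLIM : Stmt_LIM) : Stmt_LF := by
  intro ι κ _ _ _ _ _ w h p hh hp hgen σ hσ g g'
  set y : ι ⊕ Unit → LaurentSeries ℚ := yv p 1 with hy
  have hgy : Gen w h y := hgen 1 le_rfl
  have hR := hREL ι κ w h hh (LaurentSeries ℚ) y hgy σ g g'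
  refine ⟨?_, ?_, ?_, ?_, ?_, ?_⟩
  · unfold Lf
    rw [← hy, hR.1, HahnSeries.coeff_add]
  · intro c
    unfold Lf
    rw [← hy, hR.2.1 c, algebraMap_laurent, HahnSeries.C_mul_eq_smul, HahnSeries.coeff_smul,
      smul_eq_mul]
  · intro i
    unfold Lf
    rw [← hy, hR.2.2.1 (Sum.inl i)]
    have h1 : y (Sum.inl i) = HahnSeries.C (p i) * HahnSeries.single 1 1 := by
      simp [hy, yv, tau]
    rw [h1, mul_assoc, HahnSeries.C_mul_eq_smul, HahnSeries.coeff_smul, smul_eq_mul,
      HahnSeries.coeff_single_mul, one_mul]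
    have h2 := hLIM ι κ w h p hh hp hgen σ g hσ 1 le_rfl (0 - 1) (by norm_num)
    rw [← hy, HahnSeries.coeff_sub] at h2
    have h3 : (HahnSeries.C (Lf w h p σ g) : LaurentSeries ℚ).coeff (0 - 1) = 0 := by
      rw [HahnSeries.C_apply, HahnSeries.coeff_single_of_ne (by norm_num)]
    rw [h3, sub_zero] at h2
    rw [h2, mul_zero]
  · unfold Lf
    rw [← hy, hR.2.2.1 (Sum.inr ())]
    have h1 : y (Sum.inr ()) = -1 := rfl
    rw [h1, neg_mul, one_mul, HahnSeries.coeff_neg]
  · intro v hv
    unfold Lf
    rw [← hy, hR.2.2.2.1 v hv]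
  · intro m hdeg hne
    have hI : Itg w h σ (monomial m 1) y ≠ 0 := by
      intro h0
      apply hne
      unfold Lf
      rw [← hy, h0, HahnSeries.coeff_zero]
    -- the maximal cell
    refine ⟨?_, ?_⟩
    · unfold Itg at hI
      obtain ⟨Δ, hΔ, hterm⟩ := Finset.exists_ne_zero_of_sum_ne_zero hI
      rw [Finset.mem_filter] at hΔ
      refine ⟨Δ, hΔ.1, Finset.union_subset hΔ.2 ?_⟩
      intro v hv
      by_contra hcon
      apply hterm
      have h1 : aeval (cf w Δ y) (monomial m (1 : ℚ)) = 0 := by
        rw [aeval_monomial, map_one, one_mul, Finsupp.prod]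
        apply Finset.prod_eq_zero hv
        have h2 : cf w Δ y v = 0 := by
          unfold cf
          rw [if_neg hcon]
        rw [h2]
        exact zero_pow (Finsupp.mem_support_iff.1 hv)
      rw [h1, zero_div]
    · by_contra hcon
      push Not at hcon
      -- absorb the support
      set S : Finset (κ ⊕ ι) := m.support \ σ with hS
      set q : (κ ⊕ ι) →₀ ℕ := ∑ v ∈ S, Finsupp.single v 1 with hq
      have hqv : ∀ v, q v = if v ∈ S then 1 else 0 := by
        intro v
        rw [hq, Finsupp.finsetSum_apply]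
        simp [Finsupp.single_apply]
      have hqm : q ≤ m := by
        intro v
        rw [hqv]
        by_cases hv : v ∈ S
        · rw [if_pos hv]
          rw [hS, Finset.mem_sdiff, Finsupp.mem_support_iff] at hv
          omega
        · rw [if_neg hv]
          exact Nat.zero_le _
      have hmq : m = q + (m - q) := (add_tsub_cancel_of_le hqm).symm
      have hprod : (monomial m (1 : ℚ) : MvPolynomial (κ ⊕ ι) ℚ) =
          (∏ v ∈ S, X v) * monomial (m - q) 1 := by
        have h1 : (∏ v ∈ S, X v : MvPolynomial (κ ⊕ ι) ℚ) = monomial q 1 := by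
          rw [hq, monomial_sum_one]
          rfl
        rw [h1, monomial_mul, one_mul, ← hmq]
      have hqdeg : q.degree = S.card := by
        rw [hq, map_sum]
        simp
      have hdegq : m.degree = S.card + (m - q).degree := by
        have h1 := congrArg Finsupp.degree hmq
        rw [map_add, hqdeg] at h1
        exact h1
      have hcard : (σ ∪ m.support).card = σ.card + S.card := by
        rw [hS, ← Finset.union_sdiff_self_eq_union, Finset.card_union_of_disjoint
          Finset.disjoint_sdiff]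
      have hun : σ ∪ S = σ ∪ m.support := by
        rw [hS, Finset.union_sdiff_self_eq_union]
      have habs : ∀ (y' : ι ⊕ Unit → LaurentSeries ℚ), Gen w h y' →
          Itg w h σ (monomial m 1) y' = Itg w h (σ ∪ m.support) (monomial (m - q) 1) y' := by
        intro y' hy'
        rw [hprod, itg_prod hREL hh hy' S σ _ Finset.sdiff_disjoint, hun]
      obtain ⟨B, P, hB, hP⟩ := hREG ι κ w h hh (σ ∪ m.support) (monomial (m - q) 1)
      have hBnil : B = [] := by
        rw [List.eq_nil_iff_forall_not_mem]
        intro x hx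
        exact hcon x (hB x hx)
      subst hBnil
      have hP' : ∀ y' : ι ⊕ Unit → LaurentSeries ℚ, Gen w h y' →
          Itg w h (σ ∪ m.support) (monomial (m - q) 1) y' = aeval y' P := by
        intro y' hy'
        have := hP (LaurentSeries ℚ) y' hy'
        simpa using this
      apply hI
      rw [habs y hgy, hP' y hgy]
      set d' := (m - q).degree with hd'
      have hlt : d' + (σ ∪ m.support).card < Fintype.card ι + 1 := by
        rw [hcard]
        omega
      refine zero_of_scaling y P (Fintype.card ι + 1 - (d' + (σ ∪ m.support).card)) (by omega) ?_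
      intro t ht
      have htC : (HahnSeries.C t : LaurentSeries ℚ) ≠ 0 := by
        intro h0
        apply ht
        apply HahnSeries.C_injective (Γ := ℤ)
        rw [h0, map_zero]
      have h5 := (hREL ι κ w h hh (LaurentSeries ℚ) y hgy (σ ∪ m.support)
        (monomial (m - q) 1) 0).2.2.2.2.1 d' (HahnSeries.C t)
        (isHomogeneous_monomial _ hd'.symm) htC
      rw [hP' _ (gen_smul htC hgy), hP' y hgy] at h5
      have h6 : (HahnSeries.C t : LaurentSeries ℚ) ^ (Fintype.card ι + 1) =
          (HahnSeries.C t : LaurentSeries ℚ) ^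
            (Fintype.card ι + 1 - (d' + (σ ∪ m.support).card)) *
          (HahnSeries.C t : LaurentSeries ℚ) ^ (d' + (σ ∪ m.support).card) := by
        rw [← pow_add]
        congr 1
        omega
      rw [h6] at h5
      have h7 : (HahnSeries.C t : LaurentSeries ℚ) ^ (d' + (σ ∪ m.support).card) ≠ 0 :=
        pow_ne_zero _ htC
      apply mul_right_cancel₀ h7
      rw [mul_assoc, h5]
      ring

end Pool.Agent.Mono.NP
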