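import Pool.Agent.Work.Monodromy.Interface12A

/-! # Phase 12, block LIM: regularity at `(0, …, 0, -1)` (helper32) -/

set_option autoImplicit false

namespace Pool.Agent.Mono.NP

open MvPolynomial

namespace LIMAux

variable {i j : ℤ} {x y : LaurentSeries ℚ}

theorem ord_iff : Ord j x ↔ (j : WithTop ℤ) ≤ x.orderTop := by
  unfold Ord
  rw [HahnSeries.le_orderTop_iff_forall]
  constructor
  · intro h b hb
    exact h b (by exact_mod_cast hb)
  · intro h b hb
    exact h b (by exact_mod_cast hb)

theorem ord_zero : Ord j (0 : LaurentSeries ℚ) := fun _ _ => rfl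

theorem ord_mono (hij : i ≤ j) (hx : Ord j x) : Ord i x := fun k hk => hx k (by omega)

theorem ord_add (hx : Ord j x) (hy : Ord j y) : Ord j (x + y) := fun k hk => by
  rw [HahnSeries.coeff_add, hx k hk, hy k hk, add_zero]

theorem ord_mul (hx : Ord i x) (hy : Ord j y) : Ord (i + j) (x * y) := by
  rw [ord_iff] at *
  calc ((i + j : ℤ) : WithTop ℤ) = (i : WithTop ℤ) + (j : WithTop ℤ) := by push_cast; rfl
    _ ≤ x.orderTop + y.orderTop := add_le_add hx hy
    _ ≤ _ := HahnSeries.orderTop_add_le_mul

theorem ord_C (a : ℚ) : Ord 0 (HahnSeries.C a : LaurentSeries ℚ) := by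
  intro k hk
  rw [HahnSeries.C_apply, HahnSeries.coeff_single_of_ne (by omega)]

theorem ord_tau : Ord 1 tau := by
  intro k hk
  unfold tau
  rw [HahnSeries.coeff_single_of_ne (by omega)]

theorem ord_tau_pow (n : ℕ) : Ord n (tau ^ n) := by
  induction n with
  | zero =>
    have := ord_C 1
    rw [map_one] at this
    simpa using this
  | succ n ih =>
    rw [pow_succ]
    have := ord_mul ih ord_tau
    push_cast
    exact this

/-- `x` is congruent to `a` modulo `τ^j` -/
def Cong (j : ℤ) (x : LaurentSeries ℚ) (a : ℚ) : Prop := Ord j (x - HahnSeries.C a)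

variable {a b : ℚ}

theorem Cong.ord (h : Cong j x a) (hj : 0 ≤ j) : Ord 0 x := by
  have h1 := ord_add (ord_mono hj h) (ord_C a)
  simpa using h1

theorem Cong.add (hx : Cong j x a) (hy : Cong j y b) : Cong j (x + y) (a + b) := by
  have h1 := ord_add hx hy
  have h2 : x - HahnSeries.C a + (y - HahnSeries.C b) = x + y - HahnSeries.C (a + b) := by
    rw [map_add]
    ring
  rw [h2] at h1
  exact h1

theorem Cong.mul (hj : 0 ≤ j) (hx : Cong j x a) (hy : Cong j y b) : Cong j (x * y) (a * b) := by
  have h1 := ord_mul hx (hy.ord hj)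
  have h2 := ord_mul (ord_C a) hy
  rw [add_zero] at h1
  rw [zero_add] at h2
  have h3 := ord_add h1 h2
  have h4 : (x - HahnSeries.C a) * y + HahnSeries.C a * (y - HahnSeries.C b) =
      x * y - HahnSeries.C (a * b) := by
    rw [map_mul]
    ring
  rw [h4] at h3
  exact h3

theorem Cong.const (j : ℤ) (a : ℚ) : Cong j (HahnSeries.C a) a := by
  unfold Cong
  rw [sub_self]
  exact ord_zero

theorem Cong.list_prod {α : Type} (hj : 0 ≤ j) (B : List α) (f : α → LaurentSeries ℚ)
    (u : α → ℚ) (h : ∀ x ∈ B, Cong j (f x) (u x)) : Cong j (B.map f).prod (B.map u).prod := by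
  induction B with
  | nil =>
    simp only [List.map_nil, List.prod_nil]
    have := Cong.const j 1
    rw [map_one] at this
    exact this
  | cons b B ih =>
    simp only [List.map_cons, List.prod_cons]
    exact Cong.mul hj (h b (List.mem_cons_self ..)) (ih fun x hx => h x (List.mem_cons_of_mem _ hx))

theorem Cong.finset_sum {α : Type} (s : Finset α) (f : α → LaurentSeries ℚ)
    (u : α → ℚ) (h : ∀ x ∈ s, Cong j (f x) (u x)) : Cong j (∑ x ∈ s, f x) (∑ x ∈ s, u x) := by
  classical
  induction s using Finset.induction_on with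
  | empty =>
    simp only [Finset.sum_empty]
    have := Cong.const j 0
    rw [map_zero] at this
    exact this
  | insert b s hb ih =>
    rw [Finset.sum_insert hb, Finset.sum_insert hb]
    exact Cong.add (h b (Finset.mem_insert_self ..))
      (ih fun x hx => h x (Finset.mem_insert_of_mem hx))

theorem algebraMap_eq (a : ℚ) : algebraMap ℚ (LaurentSeries ℚ) a = HahnSeries.C a :=
  RingHom.congr_fun (Subsingleton.elim (algebraMap ℚ (LaurentSeries ℚ))
    (HahnSeries.C : ℚ →+* LaurentSeries ℚ)) a

theorem Cong.aeval {σ : Type} (hj : 0 ≤ j) (P : MvPolynomial σ ℚ) (f : σ → LaurentSeries ℚ)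
    (u : σ → ℚ) (h : ∀ e, Cong j (f e) (u e)) :
    Cong j (MvPolynomial.aeval f P) (MvPolynomial.eval u P) := by
  induction P using MvPolynomial.induction_on with
  | C a =>
    rw [MvPolynomial.aeval_C, MvPolynomial.eval_C, algebraMap_eq]
    exact Cong.const j a
  | add P Q hP hQ =>
    rw [map_add, map_add]
    exact Cong.add hP hQ
  | mul_X P e hP =>
    rw [map_mul, map_mul, MvPolynomial.aeval_X, MvPolynomial.eval_X]
    exact Cong.mul hj hP (h e)

theorem orderTop_eq_zero (hj : 1 ≤ j) (ha : a ≠ 0) (h : Cong j x a) : x.orderTop = (0 : ℤ) := by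
  have h0 : x.coeff 0 = a := by
    have h1 := h 0 (by omega)
    rw [HahnSeries.coeff_sub, HahnSeries.C_apply, HahnSeries.coeff_single_same] at h1
    linarith
  apply HahnSeries.orderTop_eq_of_le
  · rw [HahnSeries.mem_support, h0]
    exact ha
  · intro g hg
    by_contra hlt
    push Not at hlt
    exact hg (h.ord (by omega) g hlt)

theorem ord_of_mul (hi : 1 ≤ i) (ha : a ≠ 0) (hy : Cong i y a) (hxy : Ord j (x * y)) :
    Ord j x := by
  rw [ord_iff] at *
  rw [HahnSeries.orderTop_mul, orderTop_eq_zero hi ha hy] at hxy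
  simpa using hxy

/-- the value of the pairing at `yv p j` -/
theorem cong_ev {ι : Type} [Fintype ι] (x : ι ⊕ Unit → ℚ) (p : ι → ℚ) (j : ℕ) :
    Cong j (ev x (yv p j)) (-x (Sum.inr ())) := by
  unfold ev
  have h1 : ∀ e ∈ (Finset.univ : Finset (ι ⊕ Unit)),
      Cong j (algebraMap ℚ (LaurentSeries ℚ) (x e) * yv p j e)
        (x e * Sum.elim (fun _ : ι => (0 : ℚ)) (fun _ => -1) e) := by
    intro e _
    apply Cong.mul (by omega)
    · rw [algebraMap_eq]
      exact Cong.const _ _
    · rcases e with e | e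
      · unfold Cong yv
        simp only [Sum.elim_inl, map_zero, sub_zero]
        have := ord_mul (ord_C (p e)) (ord_tau_pow j)
        rw [zero_add] at this
        exact this
      · unfold Cong yv
        simp only [Sum.elim_inr, map_neg, map_one, sub_self]
        exact ord_zero
  have h2 := Cong.finset_sum Finset.univ _ _ h1
  have h3 : ∑ e : ι ⊕ Unit, x e * Sum.elim (fun _ : ι => (0 : ℚ)) (fun _ => -1) e =
      -x (Sum.inr ()) := by
    rw [Fintype.sum_sum_type]
    simp
  rw [h3] at h2
  exact h2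

end LIMAux

open LIMAux in
theorem stmt_LIM (hREG : Stmt_REG) : Stmt_LIM := by
  intro ι κ _ _ _ _ _ w h p hh hGp hGen σ g hGood j hj
  obtain ⟨B, P, hB, hP⟩ := hREG ι κ w h hh σ g
  obtain ⟨u0, hu0⟩ : ∃ u0 : ℚ, u0 = (B.map fun x => -x (Sum.inr ())).prod := ⟨_, rfl⟩
  obtain ⟨P0, hP0⟩ : ∃ P0 : ℚ, P0 = MvPolynomial.eval
    (Sum.elim (fun _ : ι => (0 : ℚ)) (fun _ : Unit => -1)) P := ⟨_, rfl⟩
  have hu0ne : u0 ≠ 0 := by
    rw [hu0]
    apply List.prod_ne_zero
    intro h0
    rw [List.mem_map] at h0
    obtain ⟨x, hx, hx0⟩ := h0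
    exact hGood x (hB x hx) (by linarith [neg_eq_zero.1 hx0])
  have key : ∀ j : ℕ, 1 ≤ j → Cong j (Itg w h σ g (yv p j)) (P0 / u0) := by
    intro j hj
    have h1 := hP (LaurentSeries ℚ) (yv p j) (hGen j hj)
    have hU : Cong j (B.map fun x => ev x (yv p j)).prod u0 := by
      rw [hu0]
      exact Cong.list_prod (by omega) B _ _ fun x _ => cong_ev x p j
    have hPj : Cong j (MvPolynomial.aeval (yv p j) P) P0 := by
      rw [hP0]
      apply Cong.aeval (by omega)
      intro e
      rcases e with e | e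
      · unfold Cong yv
        simp only [Sum.elim_inl, map_zero, sub_zero]
        have := ord_mul (ord_C (p e)) (ord_tau_pow j)
        rw [zero_add] at this
        exact this
      · unfold Cong yv
        simp only [Sum.elim_inr, map_neg, map_one, sub_self]
        exact ord_zero
    unfold Cong
    apply ord_of_mul (i := j) (by omega) hu0ne hU
    have hc := Cong.mul (j := j) (by omega) (Cong.const j (P0 / u0)) hU
    rw [div_mul_cancel₀ _ hu0ne] at hc
    rw [sub_mul, h1]
    have h5 : MvPolynomial.aeval (yv p j) P - HahnSeries.C (P0 / u0) *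
        (B.map fun x => ev x (yv p j)).prod =
        (MvPolynomial.aeval (yv p j) P - HahnSeries.C P0) + -(HahnSeries.C (P0 / u0) *
        (B.map fun x => ev x (yv p j)).prod - HahnSeries.C P0) := by ring
    rw [h5]
    apply ord_add hPj
    intro k hk
    rw [HahnSeries.coeff_neg, hc k hk, neg_zero]
  have hL : Lf w h p σ g = P0 / u0 := by
    unfold Lf
    have h1 := key 1 le_rfl 0 (by norm_num)
    rw [HahnSeries.coeff_sub, HahnSeries.C_apply, HahnSeries.coeff_single_same] at h1
    linarith
  rw [hL]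
  exact key j hj

end Pool.Agent.Mono.NP
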