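import Pool.Agent.Work.Monodromy12.LIMAA12

/-!
# Phase 12, block LIMA (helper2): the values of the zeta function as limits
-/

set_option autoImplicit false

namespace Pool.Agent.Mono.NP

open MvPolynomial Filter Topology

namespace LIMAAux

variable {ι κ : Type} [Fintype ι] [DecidableEq ι] [Fintype κ] [DecidableEq κ]

/-! ### Limits of the sums over faces -/

theorem ev_Ioc : ∀ᶠ ε in 𝓝[>] (0 : ℝ), 0 < ε ∧ ε ≤ 1 := by
  have h : Set.Ioc (0 : ℝ) 1 ∈ 𝓝[>] (0 : ℝ) := Ioc_mem_nhdsGT one_pos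
  exact h

theorem tendsto_eps : Tendsto (fun ε : ℝ => ε) (𝓝[>] 0) (𝓝 0) :=
  tendsto_nhdsWithin_of_tendsto_nhds tendsto_id

/-- a bounded function times a power of `ε` -/
theorem tendsto_small (f : ℝ → ℝ) (A : ℝ) (m : ℕ) (hm : 0 < m)
    (hf : ∀ ε : ℝ, 0 < ε → ε ≤ 1 → |f ε| ≤ A) :
    Tendsto (fun ε : ℝ => ε ^ m * f ε) (𝓝[>] 0) (𝓝 0) := by
  have h1 : Tendsto (fun ε : ℝ => ε ^ m * A) (𝓝[>] 0) (𝓝 0) := by
    have h2 := (tendsto_eps.pow m).mul_const A
    rwa [zero_pow hm.ne', zero_mul] at h2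
  refine squeeze_zero_norm' ?_ h1
  filter_upwards [ev_Ioc] with ε hε
  rw [Real.norm_eq_abs, abs_mul, abs_of_nonneg (pow_nonneg hε.1.le m)]
  exact mul_le_mul_of_nonneg_left (hf ε hε.1 hε.2) (pow_nonneg hε.1.le m)

theorem SF_small [Nonempty κ] (hG : Stmt_GRK) (w : κ → ι → ℕ) (s : ℕ) (F : Finset κ) (m : ℕ)
    (hF : F.Nonempty) (hm : m < rk w F) :
    Tendsto (fun ε : ℝ => ε ^ (Fintype.card ι + 1 - m) * SF w s F ε) (𝓝[>] 0) (𝓝 0) := by
  obtain ⟨A, hA⟩ := SF_bound hG w s F hF
  have h1 := tendsto_small _ A (rk w F - m) (by omega) hA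
  refine h1.congr fun ε => ?_
  rw [← mul_assoc, ← pow_add]
  congr 2
  have := rk_le w F
  omega

open Classical in
/-- the difference between the sum over the closed face and the sum over its interior -/
theorem face_split [Nonempty κ] (hG : Stmt_GRK) (hCE : Stmt_CELI) (w : κ → ι → ℕ) (h : κ → ℝ)
    (hh : LinearIndependent ℚ h) (s : ℕ) (C : Finset κ) (hC : C ∈ cls0 w h)
    (F₀ : Finset κ) (hF₀ : ∀ k, C ⊆ fc w k → rk w (fc w k) = C.card → fc w k = F₀) :
    Tendsto (fun ε : ℝ => ∑ F ∈ ((Finset.univ : Finset (Finset κ)).filter (C ⊆ ·)).erase F₀,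
      ε ^ (Fintype.card ι + 1 - C.card) * SF w s F ε) (𝓝[>] 0) (𝓝 0) := by
  have hi := cls0_indep hCE w h hh C hC
  have hne : C.Nonempty := (Finset.mem_filter.1 hC).2.1
  have hz : Tendsto (fun ε : ℝ => ∑ F ∈ ((Finset.univ : Finset (Finset κ)).filter (C ⊆ ·)).erase F₀,
      ε ^ (Fintype.card ι + 1 - C.card) * SF w s F ε) (𝓝[>] 0)
      (𝓝 (∑ F ∈ ((Finset.univ : Finset (Finset κ)).filter (C ⊆ ·)).erase F₀, (0 : ℝ))) := ?_
  · rwa [Finset.sum_const_zero] at hz
  refine tendsto_finset_sum _ fun F hF => ?_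
  rw [Finset.mem_erase, Finset.mem_filter] at hF
  obtain ⟨hFne, -, hCF⟩ := hF
  by_cases hk : ∃ k, fc w k = F
  · obtain ⟨k, rfl⟩ := hk
    have hlt : C.card < rk w (fc w k) := by
      refine lt_of_le_of_ne (rk_ge w _ C hi hCF) fun he => hFne (hF₀ k hCF he.symm)
    exact SF_small hG w s _ C.card (fc_nonempty w k) hlt
  · push Not at hk
    have : (fun ε : ℝ => ε ^ (Fintype.card ι + 1 - C.card) * SF w s F ε) = fun _ => 0 := by
      funext ε
      rw [SF_zero w s F ε hk, mul_zero]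
    rw [this]
    exact tendsto_const_nhds

open Classical in
theorem lim_face [Nonempty κ] (hG : Stmt_GRK) (hCE : Stmt_CELI) (w : κ → ι → ℕ) (h : κ → ℝ)
    (hh : LinearIndependent ℚ h) (s : ℕ) (C : Finset κ) (hC : C ∈ cls0 w h) (k : ι → ℕ)
    (hCk : C ⊆ fc w k) (hr : rk w (fc w k) = C.card) (J : ℝ)
    (hJ : Tendsto (fun ε : ℝ => ε ^ (Fintype.card ι + 1 - C.card) *
      Fs w C (pz (fun _ : ι => 0) s 0) ε) (𝓝[>] 0) (𝓝 J)) :
    Tendsto (fun ε : ℝ => ε ^ (Fintype.card ι + 1 - rk w (fc w k)) * SF w s (fc w k) ε) (𝓝[>] 0)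
      (𝓝 J) := by
  have hi := cls0_indep hCE w h hh C hC
  have h1 := face_split hG hCE w h hh s C hC (fc w k) (by
    intro k' hk' hr'
    exact Finset.Subset.antisymm (face_unique w k' k C hi hk' hCk hr')
      (face_unique w k k' C hi hCk hk' hr))
  have h2 := hJ.sub h1
  rw [sub_zero] at h2
  refine h2.congr' ?_
  filter_upwards [ev_Ioc] with ε hε
  rw [Fs_eq hG w s C ε hε.1, Finset.mul_sum, hr,
    ← Finset.add_sum_erase _ _ (Finset.mem_filter.2 ⟨Finset.mem_univ (fc w k), hCk⟩)]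
  ring

theorem lim_zero [Nonempty κ] (hG : Stmt_GRK) (hCE : Stmt_CELI) (w : κ → ι → ℕ) (h : κ → ℝ)
    (hh : LinearIndependent ℚ h) (s : ℕ) (C : Finset κ) (hC : C ∈ cls0 w h)
    (hno : ∀ k, C ⊆ fc w k → rk w (fc w k) ≠ C.card) (J : ℝ)
    (hJ : Tendsto (fun ε : ℝ => ε ^ (Fintype.card ι + 1 - C.card) *
      Fs w C (pz (fun _ : ι => 0) s 0) ε) (𝓝[>] 0) (𝓝 J)) : J = 0 := by
  classical
  have hne : C.Nonempty := (Finset.mem_filter.1 hC).2.1
  have h1 := face_split hG hCE w h hh s C hC ∅ (by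
    intro k' hk' hr'
    exact absurd hr' (hno k' hk'))
  refine tendsto_nhds_unique hJ (h1.congr' ?_)
  filter_upwards [ev_Ioc] with ε hε
  rw [Fs_eq hG w s C ε hε.1, Finset.mul_sum, Finset.erase_eq_of_notMem]
  rw [Finset.mem_filter]
  rintro ⟨-, h⟩
  exact hne.ne_empty (Finset.subset_empty.1 h)

/-! ### Möbius inversion -/

theorem moebius_sum (e : ℕ) (he : 1 ≤ e) (f : ℕ → ℤ) :
    ∑ d ∈ e.divisors, ArithmeticFunction.moebius (e / d) * ∑ i ∈ d.divisors, f i = f e := by
  have h := (ArithmeticFunction.sum_eq_iff_sum_mul_moebius_eq (R := ℤ) (f := f)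
    (g := fun n => ∑ i ∈ n.divisors, f i)).1 (fun n _ => rfl) e he
  simp only [Int.cast_id] at h
  rw [Nat.sum_divisorsAntidiagonal'
    (f := fun x y => ArithmeticFunction.moebius x * ∑ i ∈ y.divisors, f i)] at h
  exact h

theorem moebius_one (e : ℕ) (he : 1 ≤ e) :
    ∑ d ∈ e.divisors, ArithmeticFunction.moebius (e / d) = if e = 1 then 1 else 0 := by
  have h := moebius_sum e he fun i => if i = 1 then 1 else 0
  rw [← h]
  refine Finset.sum_congr rfl fun d hd => ?_
  have h1 : 1 ∈ d.divisors := Nat.one_mem_divisors.2 (Nat.pos_of_mem_divisors hd).ne'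
  rw [Finset.sum_ite_eq' d.divisors 1 (fun _ => (1 : ℤ)), if_pos h1, mul_one]

/-! ### The bracket -/

theorem tendsto_exp_one : Tendsto (fun ε : ℝ => Real.exp ε) (𝓝[>] 0) (𝓝 1) := by
  have h := (Real.continuous_exp.tendsto 0)
  rw [Real.exp_zero] at h
  exact tendsto_nhdsWithin_of_tendsto_nhds h

theorem tendsto_quot : Tendsto (fun ε : ℝ => (Real.exp ε - 1) / ε) (𝓝[>] 0) (𝓝 1) := by
  have h := Real.hasDerivAt_exp 0
  rw [Real.exp_zero] at h
  have h2 := h.tendsto_slope_zero_right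
  refine h2.congr fun ε => ?_
  rw [zero_add, Real.exp_zero, smul_eq_mul]
  ring

theorem tendsto_quot2 (s : ℕ) :
    Tendsto (fun ε : ℝ => (Real.exp ε - 1) / (Real.exp ε ^ (s + 1) - 1)) (𝓝[>] 0)
      (𝓝 (1 / (1 + (s : ℝ)))) := by
  have h1 : Tendsto (fun ε : ℝ => 1 / ∑ i ∈ Finset.range (s + 1), Real.exp ε ^ i) (𝓝[>] 0)
      (𝓝 (1 / (1 + (s : ℝ)))) := by
    have h2 : Tendsto (fun ε : ℝ => ∑ i ∈ Finset.range (s + 1), Real.exp ε ^ i) (𝓝[>] 0)
        (𝓝 (∑ i ∈ Finset.range (s + 1), (1 : ℝ) ^ i)) :=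
      tendsto_finset_sum _ fun i _ => tendsto_exp_one.pow i
    have h3 : (∑ i ∈ Finset.range (s + 1), (1 : ℝ) ^ i) = 1 + s := by
      simp
      ring
    rw [h3] at h2
    exact tendsto_const_nhds.div h2 (by positivity)
  refine h1.congr' ?_
  filter_upwards [ev_Ioc] with ε hε
  have hne : Real.exp ε - 1 ≠ 0 := by
    have := Real.add_one_lt_exp hε.1.ne'
    have h0 := hε.1
    intro h
    linarith
  have hg := geom_sum_mul (Real.exp ε) (s + 1)
  rw [← hg, mul_comm, ← div_div, div_self hne]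

theorem tendsto_aeval (q : Polynomial ℤ) :
    Tendsto (fun ε : ℝ => Polynomial.aeval (Real.exp ε) q) (𝓝[>] 0) (𝓝 ((q.eval 1 : ℤ) : ℝ)) := by
  have h1 : Tendsto (fun u : ℝ => Polynomial.aeval u q) (𝓝 1) (𝓝 (Polynomial.aeval (1 : ℝ) q)) :=
    (Polynomial.continuous_aeval q).tendsto 1
  have h2 : Polynomial.aeval (1 : ℝ) q = ((q.eval 1 : ℤ) : ℝ) := by
    rw [Polynomial.aeval_def, Polynomial.eval₂_at_one]
    simp
  rw [h2] at h1
  exact h1.comp tendsto_exp_one

end LIMAAux

open LIMAAux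

theorem stmt_LIMA (hNDG : Stmt_NDG) (hLIMB : Stmt_LIMB) (hKF : Stmt_KF) (hKW : Stmt_KW)
    (hSMPF : Stmt_SMPF) (hGRK : Stmt_GRK) (hCELI : Stmt_CELI) : Stmt_LIMA := by
  classical
  intro E ι κ _ _ _ _ _ w a h e R hinj ha hh hfull he hR
  obtain ⟨c, hc⟩ := hLIMB E ι κ w a e R (hNDG ι κ w a ha) he hR
  refine ⟨c, fun s J hs hRs hJ => ?_⟩
  -- the coefficients
  set x : Finset κ → ℝ := fun C => (-1) ^ (C.card + 1) * ((nuE w e C : ℝ) -
    (if e = 1 ∧ 2 ≤ C.card then (nuE w 1 C : ℝ) / (1 + s) else 0)) with hx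
  -- the limit of the contribution of a face
  have key : ∀ F : Finset κ, Tendsto (fun ε : ℝ => SF w s F ε * ∑ d ∈ e.divisors,
      ((ArithmeticFunction.moebius (e / d) : ℤ) : ℝ) *
        (Polynomial.aeval (Real.exp ε) (E.val (WF w a d F)) +
          Polynomial.aeval (Real.exp ε) (E.val (VF w a F)) *
            ((Real.exp ε - 1) / (Real.exp ε ^ (s + 1) - 1)))) (𝓝[>] 0)
      (𝓝 (if (∃ k, fc w k = F) then ∑ C ∈ smp w h F, x C * J C else 0)) := by
    intro F
    by_cases hF : ∃ k, fc w k = F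
    swap
    · rw [if_neg hF]
      push Not at hF
      have : (fun ε : ℝ => SF w s F ε * ∑ d ∈ e.divisors,
          ((ArithmeticFunction.moebius (e / d) : ℤ) : ℝ) *
            (Polynomial.aeval (Real.exp ε) (E.val (WF w a d F)) +
              Polynomial.aeval (Real.exp ε) (E.val (VF w a F)) *
                ((Real.exp ε - 1) / (Real.exp ε ^ (s + 1) - 1)))) = fun _ => 0 := by
        funext ε
        rw [SF_zero w s F ε hF, zero_mul]
      rw [this]
      exact tendsto_const_nhds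
    rw [if_pos hF]
    obtain ⟨k, rfl⟩ := hF
    have hne := fc_nonempty w k
    obtain ⟨q, hq1, hq2, hq3⟩ := hKF E ι κ w a h (fc w k) hne hinj ha hh
    have hW : ∀ d : ℕ, ∃ q : Polynomial ℤ, 1 ≤ d → (E.val (WF w a d (fc w k)) =
        (Polynomial.X - 1) ^ (Fintype.card ι + 1 - rk w (fc w k)) * q ∧
      q.eval 1 = (-1) ^ (rk w (fc w k) + 1) *
        ∑ C ∈ smp w h (fc w k), ∑ e ∈ d.divisors, (nuE w e C : ℤ)) := by
      intro d
      by_cases hd : 1 ≤ d
      · obtain ⟨q, hq⟩ := hKW E ι κ w a h (fc w k) d hne hd hinj ha hh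
        exact ⟨q, fun _ => hq⟩
      · exact ⟨0, fun h => absurd h hd⟩
    choose qd hqd using hW
    set m := Fintype.card ι + 1 - rk w (fc w k) with hm
    -- the limit of the bracket
    have hG : Tendsto (fun ε : ℝ => ∑ d ∈ e.divisors,
        ((ArithmeticFunction.moebius (e / d) : ℤ) : ℝ) *
          (Polynomial.aeval (Real.exp ε) (qd d) + Polynomial.aeval (Real.exp ε) q *
            ((Real.exp ε - 1) / (Real.exp ε ^ (s + 1) - 1)))) (𝓝[>] 0)
        (𝓝 (∑ C ∈ smp w h (fc w k), x C)) := by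
      have h1 : Tendsto (fun ε : ℝ => ∑ d ∈ e.divisors,
        ((ArithmeticFunction.moebius (e / d) : ℤ) : ℝ) *
          (Polynomial.aeval (Real.exp ε) (qd d) + Polynomial.aeval (Real.exp ε) q *
            ((Real.exp ε - 1) / (Real.exp ε ^ (s + 1) - 1)))) (𝓝[>] 0)
        (𝓝 (∑ d ∈ e.divisors, ((ArithmeticFunction.moebius (e / d) : ℤ) : ℝ) *
          ((((qd d).eval 1 : ℤ) : ℝ) + ((q.eval 1 : ℤ) : ℝ) * (1 / (1 + (s : ℝ)))))) :=
        tendsto_finset_sum _ fun d _ =>
          ((tendsto_aeval _).add ((tendsto_aeval _).mul (tendsto_quot2 s))).const_mul _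
      have h2 : (∑ d ∈ e.divisors, ((ArithmeticFunction.moebius (e / d) : ℤ) : ℝ) *
          ((((qd d).eval 1 : ℤ) : ℝ) + ((q.eval 1 : ℤ) : ℝ) * (1 / (1 + (s : ℝ))))) =
          ∑ C ∈ smp w h (fc w k), x C := by
        have h3 : ∑ d ∈ e.divisors, ArithmeticFunction.moebius (e / d) * (qd d).eval 1 =
            (-1) ^ (rk w (fc w k) + 1) * ∑ C ∈ smp w h (fc w k), (nuE w e C : ℤ) := by
          have h4 : ∀ C, (nuE w e C : ℤ) = ∑ d ∈ e.divisors,
              ArithmeticFunction.moebius (e / d) * ∑ i ∈ d.divisors, (nuE w i C : ℤ) :=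
            fun C => (moebius_sum e he fun i => (nuE w i C : ℤ)).symm
          simp only [h4]
          rw [Finset.sum_comm, Finset.mul_sum]
          refine Finset.sum_congr rfl fun d hd => ?_
          rw [(hqd d (Nat.pos_of_mem_divisors hd)).2, ← Finset.mul_sum]
          ring
        have h5 : (∑ d ∈ e.divisors, ((ArithmeticFunction.moebius (e / d) : ℤ) : ℝ) *
            ((((qd d).eval 1 : ℤ) : ℝ) + ((q.eval 1 : ℤ) : ℝ) * (1 / (1 + (s : ℝ))))) =
            ((∑ d ∈ e.divisors, ArithmeticFunction.moebius (e / d) * (qd d).eval 1 : ℤ) : ℝ) +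
              ((∑ d ∈ e.divisors, ArithmeticFunction.moebius (e / d) : ℤ) : ℝ) *
                ((q.eval 1 : ℤ) : ℝ) * (1 / (1 + (s : ℝ))) := by
          push_cast
          rw [Finset.sum_mul, Finset.sum_mul, ← Finset.sum_add_distrib]
          exact Finset.sum_congr rfl fun d _ => by ring
        rw [h5, h3, moebius_one e he]
        have hcard : ∀ C ∈ smp w h (fc w k), C.card = rk w (fc w k) := fun C hC =>
          (Finset.mem_filter.1 hC).2.1
        by_cases he1 : e = 1
        · by_cases hr2 : 2 ≤ rk w (fc w k)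
          · rw [if_pos he1, hq3 hr2]
            push_cast
            rw [Finset.mul_sum, Finset.mul_sum, Finset.mul_sum, Finset.sum_mul,
              ← Finset.sum_add_distrib]
            refine Finset.sum_congr rfl fun C hC => ?_
            rw [hx]
            simp only
            rw [hcard C hC, if_pos ⟨he1, hr2⟩]
            ring
          · have hr1 : rk w (fc w k) = 1 ∨ rk w (fc w k) = 0 := by omega
            rcases hr1 with hr1 | hr1
            · rw [if_pos he1, hq2 hr1]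
              push_cast
              rw [Finset.mul_sum]
              simp only [Polynomial.eval_zero, Int.cast_zero, mul_zero, zero_mul, add_zero]
              refine Finset.sum_congr rfl fun C hC => ?_
              rw [hx]
              simp only
              rw [hcard C hC, if_neg (fun hh => hr2 hh.2), sub_zero]
            · exfalso
              obtain ⟨b, hb⟩ := hne
              have h6 := rk_ge w (fc w k) {b} (by
                refine LinearIndependent.of_subsingleton (v := fun a : ({b} : Finset κ) =>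
                  hat w (Sum.inl (a : κ))) ⟨b, Finset.mem_singleton_self b⟩ ?_
                intro h0
                have := congrFun h0 (Sum.inr ())
                simp [hat] at this) (by simpa using hb)
              rw [Finset.card_singleton] at h6
              omega
        · rw [if_neg he1]
          push_cast
          rw [zero_mul, zero_mul, add_zero, Finset.mul_sum]
          refine Finset.sum_congr rfl fun C hC => ?_
          rw [hx]
          simp only
          rw [hcard C hC, if_neg (fun hh => he1 hh.1), sub_zero]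
      rw [h2] at h1
      exact h1
    -- the limit of the product
    have hprod : Tendsto (fun ε : ℝ => (ε ^ m * SF w s (fc w k) ε) *
        (((Real.exp ε - 1) / ε) ^ m * ∑ d ∈ e.divisors,
        ((ArithmeticFunction.moebius (e / d) : ℤ) : ℝ) *
          (Polynomial.aeval (Real.exp ε) (qd d) + Polynomial.aeval (Real.exp ε) q *
            ((Real.exp ε - 1) / (Real.exp ε ^ (s + 1) - 1))))) (𝓝[>] 0)
        (𝓝 (∑ C ∈ smp w h (fc w k), x C * J C)) := by
      have hbr : Tendsto (fun ε : ℝ => (((Real.exp ε - 1) / ε) ^ m * ∑ d ∈ e.divisors,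
        ((ArithmeticFunction.moebius (e / d) : ℤ) : ℝ) *
          (Polynomial.aeval (Real.exp ε) (qd d) + Polynomial.aeval (Real.exp ε) q *
            ((Real.exp ε - 1) / (Real.exp ε ^ (s + 1) - 1))))) (𝓝[>] 0)
          (𝓝 (∑ C ∈ smp w h (fc w k), x C)) := by
        have := (tendsto_quot.pow m).mul hG
        rwa [one_pow, one_mul] at this
      rcases (smp w h (fc w k)).eq_empty_or_nonempty with hemp | ⟨C₀, hC₀⟩
      · rw [hemp] at hbr ⊢
        rw [Finset.sum_empty] at hbr ⊢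
        obtain ⟨A, hA⟩ := SF_bound hGRK w s (fc w k) hne
        have hb : ∀ᶠ ε in 𝓝[>] (0 : ℝ), ‖ε ^ m * SF w s (fc w k) ε‖ ≤ A := by
          filter_upwards [ev_Ioc] with ε hε
          exact hA ε hε.1 hε.2
        exact bdd_le_mul_tendsto_zero' A hb hbr
      · have hS := (hSMPF ι κ w h hh hfull k C₀).1 hC₀
        have hl := lim_face hGRK hCELI w h hh s C₀ hS.1 k hS.2.1 hS.2.2.symm (J C₀) (hJ C₀ hS.1)
        have h1 := hl.mul hbr
        rw [Finset.mul_sum] at h1
        have h2 : ∑ C ∈ smp w h (fc w k), J C₀ * x C = ∑ C ∈ smp w h (fc w k), x C * J C := by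
          refine Finset.sum_congr rfl fun C hC => ?_
          have hS' := (hSMPF ι κ w h hh hfull k C).1 hC
          have hl' := lim_face hGRK hCELI w h hh s C hS'.1 k hS'.2.1 hS'.2.2.symm (J C)
            (hJ C hS'.1)
          rw [tendsto_nhds_unique hl hl', mul_comm]
        rw [h2] at h1
        exact h1
    refine hprod.congr' ?_
    filter_upwards [ev_Ioc] with ε hε
    have hε0 : ε ≠ 0 := hε.1.ne'
    have h1 : ∀ d ∈ e.divisors, ((ArithmeticFunction.moebius (e / d) : ℤ) : ℝ) *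
        (Polynomial.aeval (Real.exp ε) (E.val (WF w a d (fc w k))) +
          Polynomial.aeval (Real.exp ε) (E.val (VF w a (fc w k))) *
            ((Real.exp ε - 1) / (Real.exp ε ^ (s + 1) - 1))) =
        (Real.exp ε - 1) ^ m * (((ArithmeticFunction.moebius (e / d) : ℤ) : ℝ) *
          (Polynomial.aeval (Real.exp ε) (qd d) + Polynomial.aeval (Real.exp ε) q *
            ((Real.exp ε - 1) / (Real.exp ε ^ (s + 1) - 1)))) := by
      intro d hd
      rw [(hqd d (Nat.pos_of_mem_divisors hd)).1, hq1]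
      simp only [map_mul, map_pow, map_sub, Polynomial.aeval_X, map_one]
      ring
    rw [Finset.sum_congr rfl h1, ← Finset.mul_sum, div_pow]
    field_simp
  -- the sum over all faces
  have hlim := tendsto_nhds_unique (hc s hRs)
    (tendsto_finset_sum (Finset.univ : Finset (Finset κ)) fun F _ => key F)
  rw [hlim, ← Finset.sum_filter]
  -- exchange of the sums
  have h1 : ∀ F ∈ (Finset.univ : Finset (Finset κ)).filter (fun F => ∃ k, fc w k = F),
      ∑ C ∈ smp w h F, x C * J C =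
        ∑ C ∈ cls0 w h, if C ∈ smp w h F then x C * J C else 0 := by
    intro F hF
    obtain ⟨k, rfl⟩ := (Finset.mem_filter.1 hF).2
    rw [← Finset.sum_filter]
    refine Finset.sum_congr ?_ fun _ _ => rfl
    ext C
    rw [Finset.mem_filter]
    exact ⟨fun hC => ⟨((hSMPF ι κ w h hh hfull k C).1 hC).1, hC⟩, fun hC => hC.2⟩
  rw [Finset.sum_congr rfl h1, Finset.sum_comm]
  refine Finset.sum_congr rfl fun C hC => ?_
  have hi := cls0_indep hCELI w h hh C hC
  by_cases hk : ∃ k, C ⊆ fc w k ∧ rk w (fc w k) = C.card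
  · obtain ⟨k, hk1, hk2⟩ := hk
    rw [Finset.sum_eq_single (fc w k)]
    · rw [if_pos ((hSMPF ι κ w h hh hfull k C).2 ⟨hC, hk1, hk2.symm⟩)]
    · intro F hF hFne
      obtain ⟨k', rfl⟩ := (Finset.mem_filter.1 hF).2
      rw [if_neg]
      intro hCk'
      have hS := (hSMPF ι κ w h hh hfull k' C).1 hCk'
      exact hFne (Finset.Subset.antisymm (face_unique w k' k C hi hS.2.1 hk1 hS.2.2.symm)
        (face_unique w k k' C hi hk1 hS.2.1 hk2))
    · intro hno
      exact absurd (Finset.mem_filter.2 ⟨Finset.mem_univ _, k, rfl⟩) hno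
  · have hJ0 : J C = 0 := lim_zero hGRK hCELI w h hh s C hC
      (fun k h1 h2 => hk ⟨k, h1, h2⟩) (J C) (hJ C hC)
    rw [hJ0, mul_zero]
    refine Finset.sum_eq_zero fun F _ => ?_
    rw [ite_self]

end Pool.Agent.Mono.NP
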