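import Pool.Agent.Work.Monodromy.Interface12C
import Pool.Agent.Work.Monodromy.Lin

/-!
# Phase 12, block LIMA (helper2): the values of the zeta function as limits
-/

set_option autoImplicit false

namespace Pool.Agent.Mono.NP

open MvPolynomial Filter Topology

namespace LIMAAux

variable {ι κ : Type} [Fintype ι] [DecidableEq ι] [Fintype κ] [DecidableEq κ]

/-- the exponential -/
noncomputable def ex (w : κ → ι → ℕ) (s : ℕ) (ε : ℝ) (k : ι → ℕ) : ℝ :=
  Real.exp (-ε * (∑ i, (k i : ℝ) + (s : ℝ) * (mnk w k : ℝ)))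

theorem ex_pos (w : κ → ι → ℕ) (s : ℕ) (ε : ℝ) (k : ι → ℕ) : 0 < ex w s ε k := Real.exp_pos _

open Classical in
/-- the sum over the `k` with face `F` -/
noncomputable def SF (w : κ → ι → ℕ) (s : ℕ) (F : Finset κ) (ε : ℝ) : ℝ :=
  ∑' k : ι → ℕ, if fc w k = F then ex w s ε k else 0

theorem fc_nonempty [Nonempty κ] (w : κ → ι → ℕ) (k : ι → ℕ) : (fc w k).Nonempty := by
  obtain ⟨a, -, ha⟩ := Finset.exists_min_image Finset.univ (kw w k) Finset.univ_nonempty
  refine ⟨a, ?_⟩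
  rw [fc, Finset.mem_filter]
  exact ⟨Finset.mem_univ _, fun b => ha b (Finset.mem_univ _)⟩

theorem mem_fc [Nonempty κ] (w : κ → ι → ℕ) (k : ι → ℕ) (a : κ) :
    a ∈ fc w k ↔ kw w k a = mnk w k := by
  have hle : ∀ b, mnk w k ≤ kw w k b := fun b => ciInf_le (OrderBot.bddBelow _) b
  rw [fc, Finset.mem_filter]
  constructor
  · rintro ⟨-, h⟩
    exact le_antisymm (le_ciInf h) (hle a)
  · intro h
    exact ⟨Finset.mem_univ _, fun b => h ▸ hle b⟩

open Classical in
theorem summ_ind [Nonempty κ] (hG : Stmt_GRK) (w : κ → ι → ℕ) (s : ℕ) (C : Finset κ)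
    (hC : C.Nonempty) (ε : ℝ) (hε : 0 < ε) :
    Summable fun k : ι → ℕ => if C ⊆ fc w k then ex w s ε k else 0 := by
  have h := (hG ι κ w C s hC (Nat.cast_nonneg s)).1 ε hε
  have h2 : Summable ((fun k : ι → ℕ => ex w s ε k) ∘ ((↑) : {k : ι → ℕ | C ⊆ fc w k} → (ι → ℕ))) := h
  rw [summable_subtype_iff_indicator] at h2
  refine h2.congr fun k => ?_
  simp only [Set.indicator_apply, Set.mem_ofPred_eq]

open Classical in
theorem summ_eq [Nonempty κ] (hG : Stmt_GRK) (w : κ → ι → ℕ) (s : ℕ) (F : Finset κ)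
    (ε : ℝ) (hε : 0 < ε) :
    Summable fun k : ι → ℕ => if fc w k = F then ex w s ε k else 0 := by
  rcases F.eq_empty_or_nonempty with rfl | hF
  · have : (fun k : ι → ℕ => if fc w k = ∅ then ex w s ε k else 0) = fun _ => 0 := by
      funext k
      rw [if_neg]
      exact (fc_nonempty w k).ne_empty
    rw [this]
    exact summable_zero
  · refine Summable.of_nonneg_of_le (fun k => ?_) (fun k => ?_) (summ_ind hG w s F hF ε hε)
    · split_ifs
      · exact (ex_pos _ _ _ _).le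
      · exact le_rfl
    · by_cases h : fc w k = F
      · rw [if_pos h, if_pos h.ge]
      · rw [if_neg h]
        split_ifs
        · exact (ex_pos _ _ _ _).le
        · exact le_rfl

theorem SF_nonneg (w : κ → ι → ℕ) (s : ℕ) (F : Finset κ) (ε : ℝ) : 0 ≤ SF w s F ε := by
  classical
  refine tsum_nonneg fun k => ?_
  split_ifs
  · exact (ex_pos _ _ _ _).le
  · exact le_rfl

theorem SF_zero (w : κ → ι → ℕ) (s : ℕ) (F : Finset κ) (ε : ℝ) (h : ∀ k, fc w k ≠ F) :
    SF w s F ε = 0 := by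
  classical
  rw [SF]
  have : (fun k : ι → ℕ => if fc w k = F then ex w s ε k else 0) = fun _ => 0 := by
    funext k
    rw [if_neg (h k)]
  rw [this, tsum_zero]

/-- growth -/
theorem SF_bound [Nonempty κ] (hG : Stmt_GRK) (w : κ → ι → ℕ) (s : ℕ) (F : Finset κ)
    (hF : F.Nonempty) : ∃ A : ℝ, ∀ ε : ℝ, 0 < ε → ε ≤ 1 →
      |ε ^ (Fintype.card ι + 1 - rk w F) * SF w s F ε| ≤ A := by
  classical
  obtain ⟨A, hA⟩ := (hG ι κ w F s hF (Nat.cast_nonneg s)).2
  refine ⟨A, fun ε h0 h1 => ?_⟩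
  rw [abs_of_nonneg (mul_nonneg (pow_nonneg h0.le _) (SF_nonneg _ _ _ _))]
  refine le_trans (mul_le_mul_of_nonneg_left ?_ (pow_nonneg h0.le _)) (hA ε h0 h1)
  have h2 : ∑' k : {k : ι → ℕ // F ⊆ fc w k},
      Real.exp (-ε * (∑ i, ((k : ι → ℕ) i : ℝ) + s * (mnk w k : ℝ))) =
      ∑' k : ι → ℕ, if F ⊆ fc w k then ex w s ε k else 0 := by
    have := tsum_subtype {k : ι → ℕ | F ⊆ fc w k} (fun k : ι → ℕ => ex w s ε k)
    rw [show (∑' k : {k : ι → ℕ // F ⊆ fc w k},
      Real.exp (-ε * (∑ i, ((k : ι → ℕ) i : ℝ) + s * (mnk w k : ℝ)))) =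
      ∑' k : {k : ι → ℕ | F ⊆ fc w k}, ex w s ε k from rfl, this]
    refine tsum_congr fun k => ?_
    simp only [Set.indicator_apply, Set.mem_ofPred_eq]
  rw [h2, SF]
  refine Summable.tsum_le_tsum (fun k => ?_) (summ_eq hG w s F ε h0) (summ_ind hG w s F hF ε h0)
  by_cases h : fc w k = F
  · rw [if_pos h, if_pos h.ge]
  · rw [if_neg h]
    split_ifs
    · exact (ex_pos _ _ _ _).le
    · exact le_rfl

open Classical in
/-- the sum over a face of the fan as a sum over faces -/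
theorem Fs_eq [Nonempty κ] (hG : Stmt_GRK) (w : κ → ι → ℕ) (s : ℕ) (C : Finset κ)
    (ε : ℝ) (hε : 0 < ε) :
    Fs w C (pz (fun _ : ι => 0) s 0) ε =
      ∑ F ∈ (Finset.univ : Finset (Finset κ)).filter (C ⊆ ·), SF w s F ε := by
  have h1 : Fs w C (pz (fun _ : ι => 0) s 0) ε =
      ∑' k : ι → ℕ, if C ⊆ fc w k then ex w s ε k else 0 := by
    have h2 : Fs w C (pz (fun _ : ι => 0) s 0) ε =
        ∑' k : {k : ι → ℕ | C ⊆ fc w k}, ex w s ε k := by
      rw [Fs]
      refine tsum_congr fun k => ?_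
      rw [ex]
      congr 1
      simp only [pz, Sum.elim_inl, Sum.elim_inr, mul_zero, add_zero, one_mul]
      ring
    rw [h2, tsum_subtype {k : ι → ℕ | C ⊆ fc w k} (fun k : ι → ℕ => ex w s ε k)]
    refine tsum_congr fun k => ?_
    simp only [Set.indicator_apply, Set.mem_ofPred_eq]
  rw [h1]
  simp only [SF]
  rw [← Summable.tsum_finsetSum fun F _ => summ_eq hG w s F ε hε]
  refine tsum_congr fun k => ?_
  by_cases h : C ⊆ fc w k
  · rw [if_pos h, Finset.sum_eq_single (fc w k)]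
    · rw [if_pos rfl]
    · intro F _ hF
      rw [if_neg (Ne.symm hF)]
    · intro h'
      exact absurd (Finset.mem_filter.2 ⟨Finset.mem_univ _, h⟩) h'
  · rw [if_neg h]
    symm
    refine Finset.sum_eq_zero fun F hF => ?_
    rw [if_neg]
    rintro rfl
    exact h (Finset.mem_filter.1 hF).2

/-! ### Faces -/

/-- the pairing with `(k, -mnk k)` -/
theorem face_unique [Nonempty κ] (w : κ → ι → ℕ) (k k' : ι → ℕ) (C : Finset κ)
    (hC : LinearIndependent ℚ fun a : C => hat w (Sum.inl (a : κ))) (h : C ⊆ fc w k)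
    (h' : C ⊆ fc w k') (hr : rk w (fc w k) = C.card) : fc w k ⊆ fc w k' := by
  classical
  have hsub : Submodule.span ℚ ((fun a => hat w (Sum.inl a)) '' (C : Set κ)) ≤
      Submodule.span ℚ ((fun a => hat w (Sum.inl a)) '' (fc w k : Set κ)) :=
    Submodule.span_mono (Set.image_mono (by exact_mod_cast h))
  have hcard : Module.finrank ℚ
      (Submodule.span ℚ ((fun a => hat w (Sum.inl a)) '' (C : Set κ))) = C.card := by
    have h1 := finrank_span_eq_card hC
    rw [Fintype.card_coe] at h1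
    have h2 : (fun a => hat w (Sum.inl a)) '' (C : Set κ) =
        Set.range fun a : C => hat w (Sum.inl (a : κ)) := by
      ext x
      constructor
      · rintro ⟨a, ha, rfl⟩
        exact ⟨⟨a, ha⟩, rfl⟩
      · rintro ⟨a, rfl⟩
        exact ⟨a, a.2, rfl⟩
    rw [h2]
    exact h1
  have heq := Submodule.eq_of_le_of_finrank_eq hsub (by rw [hcard]; exact hr.symm)
  intro v hv
  have hvs : hat w (Sum.inl v) ∈
      Submodule.span ℚ ((fun a => hat w (Sum.inl a)) '' (C : Set κ)) := by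
    rw [heq]
    exact Submodule.subset_span ⟨v, by exact_mod_cast hv, rfl⟩
  -- the functional
  let φ : (ι ⊕ Unit → ℚ) →ₗ[ℚ] ℚ :=
    { toFun := fun x => ∑ i, (k' i : ℚ) * x (Sum.inl i) - (mnk w k' : ℚ) * x (Sum.inr ())
      map_add' := fun x y => by
        simp only [Pi.add_apply, mul_add, Finset.sum_add_distrib]
        ring
      map_smul' := fun c x => by
        simp only [Pi.smul_apply, smul_eq_mul, RingHom.id_apply, mul_sub, Finset.mul_sum]
        congr 1
        · exact Finset.sum_congr rfl fun i _ => by ring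
        · ring }
  have hφ : ∀ a, φ (hat w (Sum.inl a)) = (kw w k' a : ℚ) - (mnk w k' : ℚ) := by
    intro a
    change ∑ i, (k' i : ℚ) * hat w (Sum.inl a) (Sum.inl i) -
      (mnk w k' : ℚ) * hat w (Sum.inl a) (Sum.inr ()) = _
    simp only [hat, Sum.elim_inl, Sum.elim_inr, mul_one, kw, Nat.cast_sum, Nat.cast_mul]
  have hker : Submodule.span ℚ ((fun a => hat w (Sum.inl a)) '' (C : Set κ)) ≤
      LinearMap.ker φ := by
    rw [Submodule.span_le]
    rintro _ ⟨a, ha, rfl⟩
    have := (mem_fc w k' a).1 (h' (by exact_mod_cast ha))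
    change φ (hat w (Sum.inl a)) = 0
    rw [hφ, this, sub_self]
  have hz : φ (hat w (Sum.inl v)) = 0 := hker hvs
  rw [hφ, sub_eq_zero] at hz
  rw [mem_fc]
  exact_mod_cast hz

theorem rk_ge (w : κ → ι → ℕ) (F C : Finset κ)
    (hC : LinearIndependent ℚ fun a : C => hat w (Sum.inl (a : κ))) (h : C ⊆ F) :
    C.card ≤ rk w F := by
  classical
  have h1 := finrank_span_eq_card hC
  rw [Fintype.card_coe] at h1
  rw [← h1, rk]
  refine Submodule.finrank_mono (Submodule.span_mono ?_)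
  rintro _ ⟨a, rfl⟩
  exact ⟨a, by exact_mod_cast h a.2, rfl⟩

theorem rk_le (w : κ → ι → ℕ) (F : Finset κ) : rk w F ≤ Fintype.card ι + 1 := by
  rw [rk]
  refine (Submodule.finrank_le _).trans ?_
  rw [Module.finrank_fintype_fun_eq_card, Fintype.card_sum, Fintype.card_unit]

/-- the cells are independent -/
theorem cls0_indep [Nonempty κ] (hCE : Stmt_CELI) (w : κ → ι → ℕ) (h : κ → ℝ)
    (hh : LinearIndependent ℚ h) (C : Finset κ) (hC : C ∈ cls0 w h) :
    LinearIndependent ℚ fun a : C => hat w (Sum.inl (a : κ)) := by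
  classical
  rw [cls0, Finset.mem_filter] at hC
  obtain ⟨-, -, Δ, hΔ, hCΔ⟩ := hC
  rw [maxCells, Finset.mem_filter] at hΔ
  obtain ⟨-, -, k, -, rfl⟩ := hΔ
  refine hCE ι κ w h hh k C fun a ha b hb => ?_
  have h1 : ∀ c ∈ C, ∀ b, hval w h k c ≤ hval w h k b := by
    intro c hc
    have h2 : Sum.inl c ∈ cell w h k := hCΔ (by
      rw [inl, Finset.mem_map]
      exact ⟨c, hc, rfl⟩)
    rw [cell, Finset.mem_filter] at h2
    exact h2.2
  exact le_antisymm (h1 a ha b) (h1 b hb a)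

/-- LIMB: the zeta function as a limit of a finite sum over faces -/
def Stmt_LIMB : Prop :=
  ∀ (E : EulerMeasure) (ι κ : Type) [Fintype ι] [DecidableEq ι] [Fintype κ] [DecidableEq κ]
    [Nonempty κ] (w : κ → ι → ℕ) (a : κ → ℂ) (e : ℕ) (R : RatFunc ℚ), Nd w a → 1 ≤ e →
    IsTwTopZeta E.toHodgeMeasure (poly w a) e R →
    ∃ c : ℚ, ∀ s : ℕ, R.denom.eval (s : ℚ) ≠ 0 →
      Tendsto (fun ε : ℝ => ∑ F : Finset κ, SF w s F ε * ∑ d ∈ e.divisors,
        ((ArithmeticFunction.moebius (e / d) : ℤ) : ℝ) *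
          (Polynomial.aeval (Real.exp ε) (E.val (WF w a d F)) +
            Polynomial.aeval (Real.exp ε) (E.val (VF w a F)) *
              ((Real.exp ε - 1) / (Real.exp ε ^ (s + 1) - 1)))) (𝓝[>] 0)
        (𝓝 ((e.totient : ℝ) * ((R.eval (RingHom.id ℚ) (s : ℚ) : ℚ) : ℝ) + (c : ℝ)))

end LIMAAux

end Pool.Agent.Mono.NP
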