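import Pool.Agent.Work.Monodromy12.LIMAA12

/-!
# Phase 12, block LIMB (half of LIMA; helper52): the zeta function as a limit of sums over faces
-/

set_option autoImplicit false

namespace Pool.Agent.Mono.NP

open MvPolynomial Filter Topology

namespace LIMBAux

open LIMAAux

/-- evaluation of finite sums of rational functions -/
theorem eval_sum (S : Finset ℕ) (c : ℕ → ℚ) (r : ℕ → RatFunc ℚ) (s : ℚ)
    (h : ∀ d ∈ S, (r d).denom.eval s ≠ 0) :
    (∑ d ∈ S, RatFunc.C (c d) * r d).denom.eval s ≠ 0 ∧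
      (∑ d ∈ S, RatFunc.C (c d) * r d).eval (RingHom.id ℚ) s =
        ∑ d ∈ S, c d * (r d).eval (RingHom.id ℚ) s := by
  classical
  induction S using Finset.induction_on with
  | empty => simp
  | insert a S ha ih =>
    have h1 : (r a).denom.eval s ≠ 0 := h a (Finset.mem_insert_self a S)
    obtain ⟨h2, h3⟩ := ih fun d hd => h d (Finset.mem_insert_of_mem hd)
    have h4 : (RatFunc.C (c a)).denom.eval s ≠ 0 := by rw [RatFunc.denom_C]; simp
    have h5 := denom_mul_ne h4 h1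
    rw [Finset.sum_insert ha, Finset.sum_insert ha]
    refine ⟨denom_add_ne h5 h2, ?_⟩
    rw [RatFunc.eval_add _ _ (by simpa [Polynomial.eval₂_id] using h5)
      (by simpa [Polynomial.eval₂_id] using h2), h3,
      RatFunc.eval_mul _ _ (by simpa [Polynomial.eval₂_id] using h4)
        (by simpa [Polynomial.eval₂_id] using h1), RatFunc.eval_C]
    rfl

theorem aeval_one (p : Polynomial ℤ) :
    Polynomial.aeval (1 : ℝ) p = ((p.eval 1 : ℤ) : ℝ) := by
  rw [Polynomial.aeval_def, Polynomial.eval₂_at_one]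
  simp

/-- the limit of the full series -/
theorem full_lim (hRA : Stmt_RA) (n : ℕ) (Q : ℕ → Polynomial ℤ) (R : RatFunc ℚ)
    (hR : IsLim (PowerSeries.mk fun k =>
      if k = 0 then 0 else toRat (Q k) * (RatFunc.X)⁻¹ ^ (k * n)) R)
    (hs : ∀ u : ℝ, 1 < u → Summable fun k : ℕ =>
      |Polynomial.aeval u (Q k)| * u⁻¹ ^ (k * n)) (s : ℕ) :
    Tendsto (fun u : ℝ => ∑' k : ℕ, Polynomial.aeval u (Q k) * u⁻¹ ^ (k * n) *
      u⁻¹ ^ (k * s)) (𝓝[>] 1)
      (𝓝 (((R.eval (RingHom.id ℚ) (s : ℚ) : ℚ) : ℝ) + (((Q 0).eval 1 : ℤ) : ℝ))) := by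
  classical
  set P : ℕ → Polynomial ℤ := fun k => if k = 0 then 0 else Q k with hP
  have hser : (PowerSeries.mk fun k => toRat (P k) * (RatFunc.X)⁻¹ ^ (k * n)) =
      (PowerSeries.mk fun k => if k = 0 then 0 else toRat (Q k) * (RatFunc.X)⁻¹ ^ (k * n)) := by
    congr 1
    funext k
    simp only [hP]
    split_ifs
    · rw [map_zero, zero_mul]
    · rfl
  have hsP : ∀ u : ℝ, 1 < u → Summable fun k : ℕ =>
      |Polynomial.aeval u (P k)| * u⁻¹ ^ (k * n) := by
    intro u hu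
    have hu0 : 0 ≤ u⁻¹ := inv_nonneg.2 (by linarith)
    refine Summable.of_nonneg_of_le (fun k => mul_nonneg (abs_nonneg _) (pow_nonneg hu0 _))
      (fun k => ?_) (hs u hu)
    simp only [hP]
    split_ifs
    · rw [map_zero, abs_zero, zero_mul]
      exact mul_nonneg (abs_nonneg _) (pow_nonneg hu0 _)
    · exact le_rfl
  have h1 := hRA n P R (by rw [hser]; exact hR) hsP s
  have h2 : Tendsto (fun u : ℝ => Polynomial.aeval u (Q 0)) (𝓝[>] 1)
      (𝓝 (((Q 0).eval 1 : ℤ) : ℝ)) := by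
    rw [← aeval_one]
    exact ((Polynomial.continuous_aeval (Q 0)).tendsto 1).mono_left nhdsWithin_le_nhds
  refine (h1.add h2).congr' ?_
  filter_upwards [self_mem_nhdsWithin] with u hu
  have hu1 : 1 < u := hu
  have hu0 : 0 ≤ u⁻¹ := inv_nonneg.2 (by linarith)
  have hu2 : u⁻¹ ≤ 1 := inv_le_one_of_one_le₀ hu1.le
  have hsum : Summable fun k : ℕ => Polynomial.aeval u (P k) * u⁻¹ ^ (k * n) *
      u⁻¹ ^ (k * s) := by
    refine Summable.of_norm_bounded (hsP u hu1) fun k => ?_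
    rw [Real.norm_eq_abs, abs_mul, abs_mul, abs_of_nonneg (pow_nonneg hu0 (k * n)),
      abs_of_nonneg (pow_nonneg hu0 (k * s))]
    exact mul_le_of_le_one_right (mul_nonneg (abs_nonneg _) (pow_nonneg hu0 _))
      (pow_le_one₀ hu0 hu2)
  have h3 : HasSum (fun k : ℕ => if k = 0 then Polynomial.aeval u (Q 0) else 0)
      (Polynomial.aeval u (Q 0)) := hasSum_ite_eq 0 _
  have h4 := hsum.hasSum.add h3
  rw [← h4.tsum_eq]
  refine tsum_congr fun k => ?_
  simp only [hP]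
  by_cases hk : k = 0
  · rw [if_pos hk, if_pos hk, hk]
    simp
  · rw [if_neg hk, if_neg hk, add_zero]

theorem exp_tendsto : Tendsto (fun ε : ℝ => Real.exp ε) (𝓝[>] 0) (𝓝[>] 1) := by
  refine tendsto_nhdsWithin_iff.2 ⟨?_, ?_⟩
  · have h := (Real.continuous_exp.tendsto 0).mono_left (nhdsWithin_le_nhds (s := Set.Ioi (0 : ℝ)))
    rwa [Real.exp_zero] at h
  · filter_upwards [self_mem_nhdsWithin] with ε hε
    exact Real.one_lt_exp_iff.2 hε

variable {ι κ : Type} [Fintype ι] [DecidableEq ι] [Fintype κ] [DecidableEq κ]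

theorem ex_eq (w : κ → ι → ℕ) (s : ℕ) (ε : ℝ) (k : ι → ℕ) :
    (Real.exp ε)⁻¹ ^ (∑ i, k i + s * mnk w k) = ex w s ε k := by
  rw [ex, ← Real.exp_neg, ← Real.exp_nat_mul]
  congr 1
  push_cast
  ring

/-- the sum over `k` as a sum over the faces -/
theorem sum_faces [Nonempty κ] (hG : Stmt_GRK) (w : κ → ι → ℕ) (s : ℕ) (ε : ℝ) (hε : 0 < ε)
    (c : Finset κ → ℝ) (z : ℝ) (h : HasSum (fun k : ι → ℕ => ex w s ε k * c (fc w k)) z) :
    z = ∑ F : Finset κ, SF w s F ε * c F := by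
  classical
  have h1 : ∀ F : Finset κ, HasSum (fun k : ι → ℕ => (if fc w k = F then ex w s ε k else 0) * c F)
      (SF w s F ε * c F) := fun F => (summ_eq hG w s F ε hε).hasSum.mul_right (c F)
  have h2 : HasSum (fun k : ι → ℕ => ∑ F : Finset κ,
      (if fc w k = F then ex w s ε k else 0) * c F) (∑ F : Finset κ, SF w s F ε * c F) :=
    hasSum_sum fun F _ => h1 F
  refine h.unique ?_
  have h3 : (fun k : ι → ℕ => ex w s ε k * c (fc w k)) = fun k : ι → ℕ => ∑ F : Finset κ,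
      (if fc w k = F then ex w s ε k else 0) * c F := by
    funext k
    rw [Finset.sum_eq_single (fc w k)]
    · rw [if_pos rfl]
    · intro F _ hF
      rw [if_neg (Ne.symm hF), zero_mul]
    · intro h'
      exact absurd (Finset.mem_univ _) h'
  rw [h3]
  exact h2

end LIMBAux

open LIMAAux LIMBAux in
theorem stmt_LIMB (hRA : Stmt_RA) (hEXCH : Stmt_EXCH) (hGRK : Stmt_GRK) : LIMAAux.Stmt_LIMB := by
  intro E ι κ _ _ _ _ _ w a e R hNd he hZ
  obtain ⟨r, hr, hR⟩ := hZ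
  set n : ℕ := Fintype.card ι with hn
  set c : ℚ := ∑ d ∈ e.divisors, ((ArithmeticFunction.moebius (e / d) : ℤ) : ℚ) *
    (((E.val (jetSet (poly w a) d 0)).eval 1 : ℤ) : ℚ) with hc
  refine ⟨c, fun s hs => ?_⟩
  -- the limits of the series
  have hd1 : ∀ d ∈ e.divisors, 1 ≤ d := fun d hd => Nat.pos_of_mem_divisors hd
  have hlim : ∀ d ∈ e.divisors, Tendsto (fun u : ℝ => ∑' K : ℕ,
      Polynomial.aeval u (E.val (jetSet (poly w a) d K)) * u⁻¹ ^ (K * n) * u⁻¹ ^ (K * s)) (𝓝[>] 1)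
      (𝓝 ((((r d).eval (RingHom.id ℚ) (s : ℚ) : ℚ) : ℝ) +
        (((E.val (jetSet (poly w a) d 0)).eval 1 : ℤ) : ℝ))) := by
    intro d hd
    exact full_lim hRA n (fun K => E.val (jetSet (poly w a) d K)) (r d) (hr d hd)
      (fun u hu => (hEXCH ι κ w a E.toHodgeMeasure d u 0 hNd (hd1 d hd) hu).1) s
  -- the series as sums over the faces
  have hface : ∀ d ∈ e.divisors, ∀ ε : ℝ, 0 < ε → (∑' K : ℕ,
      Polynomial.aeval (Real.exp ε) (E.val (jetSet (poly w a) d K)) *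
        (Real.exp ε)⁻¹ ^ (K * n) * (Real.exp ε)⁻¹ ^ (K * s)) =
      ∑ F : Finset κ, SF w s F ε * (Polynomial.aeval (Real.exp ε) (E.val (WF w a d F)) +
            Polynomial.aeval (Real.exp ε) (E.val (VF w a F)) *
              ((Real.exp ε - 1) / (Real.exp ε ^ (s + 1) - 1))) := by
    intro d hd ε hε
    have h1 := (hEXCH ι κ w a E.toHodgeMeasure d (Real.exp ε) s hNd (hd1 d hd)
      (Real.one_lt_exp_iff.2 hε)).2
    refine sum_faces hGRK w s ε hε (fun F => Polynomial.aeval (Real.exp ε) (E.val (WF w a d F)) +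
            Polynomial.aeval (Real.exp ε) (E.val (VF w a F)) *
              ((Real.exp ε - 1) / (Real.exp ε ^ (s + 1) - 1))) _ ?_
    refine h1.congr_fun ?_
    intro k
    rw [ex_eq]
  -- the combination
  have hcomb : Tendsto (fun ε : ℝ => ∑ d ∈ e.divisors,
      ((ArithmeticFunction.moebius (e / d) : ℤ) : ℝ) * ∑' K : ℕ,
      Polynomial.aeval (Real.exp ε) (E.val (jetSet (poly w a) d K)) *
        (Real.exp ε)⁻¹ ^ (K * n) * (Real.exp ε)⁻¹ ^ (K * s)) (𝓝[>] 0)
      (𝓝 (∑ d ∈ e.divisors, ((ArithmeticFunction.moebius (e / d) : ℤ) : ℝ) *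
        ((((r d).eval (RingHom.id ℚ) (s : ℚ) : ℚ) : ℝ) +
        (((E.val (jetSet (poly w a) d 0)).eval 1 : ℤ) : ℝ)))) := by
    refine tendsto_finsetSum _ fun d hd => ?_
    exact ((hlim d hd).comp exp_tendsto).const_mul _
  have hval : ∑ d ∈ e.divisors, ((ArithmeticFunction.moebius (e / d) : ℤ) : ℝ) *
        ((((r d).eval (RingHom.id ℚ) (s : ℚ) : ℚ) : ℝ) +
        (((E.val (jetSet (poly w a) d 0)).eval 1 : ℤ) : ℝ)) =
      (e.totient : ℝ) * ((R.eval (RingHom.id ℚ) (s : ℚ) : ℚ) : ℝ) + (c : ℝ) := by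
    have hden : ∀ d ∈ e.divisors, (r d).denom.eval (s : ℚ) ≠ 0 := by
      intro d hd
      obtain ⟨num, den, -, -, h3⟩ := hr d hd
      exact (h3 s).2.1
    have h1 := (eval_sum e.divisors (fun d => ((ArithmeticFunction.moebius (e / d) : ℤ) : ℚ)) r
      (s : ℚ) hden).2
    rw [← hR, RatFunc.eval_mul _ _ (by rw [RatFunc.denom_C]; simp)
      (by simpa [Polynomial.eval₂_id] using hs), RatFunc.eval_C, RingHom.id_apply] at h1
    have h2 := congrArg (fun q : ℚ => (q : ℝ)) h1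
    simp only [Rat.cast_mul, Rat.cast_natCast, Rat.cast_sum, Rat.cast_intCast] at h2
    rw [h2, hc]
    push_cast
    rw [← Finset.sum_add_distrib]
    refine Finset.sum_congr rfl fun d _ => ?_
    ring
  rw [← hval]
  refine hcomb.congr' ?_
  filter_upwards [self_mem_nhdsWithin] with ε hε
  have hε' : 0 < ε := hε
  rw [Finset.sum_congr rfl fun d hd => by rw [hface d hd ε hε']]
  simp only [Finset.mul_sum]
  rw [Finset.sum_comm]
  refine Finset.sum_congr rfl fun F _ => ?_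
  refine Finset.sum_congr rfl fun d _ => ?_
  ring

end Pool.Agent.Mono.NP
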