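import Pool.Agent.Work.Monodromy.Interface12C

/-!
# Phase 12, block MAXC: every cell is contained in a maximal cell (helper9)
-/

set_option autoImplicit false

namespace Pool.Agent.Mono.NP

namespace MAXCAux

set_option linter.unusedSectionVars false

variable {ι κ : Type} [Fintype ι] [DecidableEq ι] [Fintype κ] [DecidableEq κ]

/-- the slack -/
theorem slack_inl (w : κ → ι → ℕ) (h : κ → ℝ) (y : ι ⊕ Unit → ℝ) (a : κ) :
    ∑ e, (hat w (Sum.inl a) e : ℝ) * y e + (Sum.elim h (fun _ : ι => (0 : ℝ)) (Sum.inl a)) =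
      hval w h (fun i => y (Sum.inl i)) a + y (Sum.inr ()) := by
  simp only [hat, Fintype.sum_sum_type, Sum.elim_inl, Sum.elim_inr, hval, Rat.cast_natCast,
    Rat.cast_one, one_mul, Finset.univ_unique, Finset.sum_singleton, PUnit.default_eq_unit]
  have : ∑ x, (w a x : ℝ) * y (Sum.inl x) = ∑ x, y (Sum.inl x) * (w a x : ℝ) :=
    Finset.sum_congr rfl fun i _ => mul_comm _ _
  rw [this]; ring

theorem slack_inr (w : κ → ι → ℕ) (h : κ → ℝ) (y : ι ⊕ Unit → ℝ) (j : ι) :
    ∑ e, (hat w (Sum.inr j) e : ℝ) * y e + (Sum.elim h (fun _ : ι => (0 : ℝ)) (Sum.inr j)) =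
      y (Sum.inl j) := by
  have h1 : ∀ i : ι, (hat w (Sum.inr j) (Sum.inl i) : ℝ) * y (Sum.inl i) =
      if i = j then y (Sum.inl i) else 0 := by
    intro i
    simp only [hat, Sum.elim_inr, Sum.elim_inl, Pi.single_apply]
    split_ifs <;> simp
  simp only [Fintype.sum_sum_type, Sum.elim_inr, h1, Finset.univ_unique, Finset.sum_singleton,
    PUnit.default_eq_unit]
  simp [hat]

theorem span_top [Nonempty κ] (w : κ → ι → ℕ) :
    Submodule.span ℝ (Set.range fun (v : κ ⊕ ι) (e : ι ⊕ Unit) => (hat w v e : ℝ)) = ⊤ := by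
  rw [eq_top_iff]
  intro x _
  obtain ⟨a⟩ := ‹Nonempty κ›
  have hL : ∀ v : κ ⊕ ι, (fun e : ι ⊕ Unit => (hat w v e : ℝ)) ∈
      Submodule.span ℝ (Set.range fun (v : κ ⊕ ι) (e : ι ⊕ Unit) => (hat w v e : ℝ)) :=
    fun v => Submodule.subset_span ⟨v, rfl⟩
  have hx : x = x (Sum.inr ()) • (fun e : ι ⊕ Unit => (hat w (Sum.inl a) e : ℝ)) +
      ∑ i : ι, (x (Sum.inl i) - x (Sum.inr ()) * w a i) •
        (fun e : ι ⊕ Unit => (hat w (Sum.inr i) e : ℝ)) := by
    funext e
    rw [Pi.add_apply, Finset.sum_apply]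
    rcases e with i | u
    · have h1 : ∀ j : ι, ((x (Sum.inl j) - x (Sum.inr ()) * w a j) •
          (fun e : ι ⊕ Unit => (hat w (Sum.inr j) e : ℝ))) (Sum.inl i) =
          if j = i then (x (Sum.inl i) - x (Sum.inr ()) * w a i) else 0 := by
        intro j
        simp only [hat, Pi.smul_apply, Sum.elim_inr, Sum.elim_inl, Pi.single_apply, smul_eq_mul]
        by_cases hji : j = i
        · subst hji; simp
        · rw [if_neg hji, if_neg (fun hh => hji hh.symm)]; simp
      rw [Finset.sum_congr rfl fun j _ => h1 j]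
      simp [hat]
    · simp [hat]
  rw [hx]
  exact Submodule.add_mem _ (Submodule.smul_mem _ _ (hL _))
    (Submodule.sum_mem _ fun i _ => Submodule.smul_mem _ _ (hL _))

end MAXCAux

open MAXCAux

theorem stmt_MAXC (hV : Stmt_VERT) (hT : Stmt_TRI1) : Stmt_MAXC := by
  classical
  intro ι κ _ _ _ _ _ w h hh k hk
  obtain ⟨a₀, ha₀⟩ : ∃ a₀ : κ, ∀ b, hval w h k a₀ ≤ hval w h k b := by
    obtain ⟨a, -, ha⟩ := Finset.exists_min_image (Finset.univ : Finset κ) (hval w h k)
      Finset.univ_nonempty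
    exact ⟨a, fun b => ha b (Finset.mem_univ b)⟩
  have hy0l : ∀ a : κ, ∑ e, (hat w (Sum.inl a) e : ℝ) *
      (Sum.elim k (fun _ : Unit => -hval w h k a₀)) e +
      (Sum.elim h (fun _ : ι => (0 : ℝ)) (Sum.inl a)) = hval w h k a - hval w h k a₀ := by
    intro a; rw [slack_inl]; simp [sub_eq_add_neg]
  have hy0r : ∀ j : ι, ∑ e, (hat w (Sum.inr j) e : ℝ) *
      (Sum.elim k (fun _ : Unit => -hval w h k a₀)) e +
      (Sum.elim h (fun _ : ι => (0 : ℝ)) (Sum.inr j)) = k j := by
    intro j; rw [slack_inr]; simp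
  obtain ⟨y, hy1, hy2, hy3⟩ := hV (ι ⊕ Unit) (κ ⊕ ι) (fun v e => (hat w v e : ℝ))
    (Sum.elim h (fun _ : ι => (0 : ℝ))) (Sum.elim k (fun _ : Unit => -hval w h k a₀))
    (span_top w) (by
      rintro (a | j)
      · rw [hy0l]; exact sub_nonneg.mpr (ha₀ a)
      · rw [hy0r]; exact hk j)
  have hk' : ∀ i, 0 ≤ y (Sum.inl i) := by
    intro i
    have := hy1 (Sum.inr i)
    rwa [slack_inr] at this
  have hmin : ∀ b, 0 ≤ hval w h (fun i => y (Sum.inl i)) b + y (Sum.inr ()) := by
    intro b
    have := hy1 (Sum.inl b)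
    rwa [slack_inl] at this
  have ht0 : hval w h (fun i => y (Sum.inl i)) a₀ + y (Sum.inr ()) = 0 := by
    have := hy2 (Sum.inl a₀) (by rw [hy0l]; exact sub_self _)
    rwa [slack_inl] at this
  have hcell : ∀ v : κ ⊕ ι, v ∈ cell w h (fun i => y (Sum.inl i)) ↔
      ∑ e, (hat w v e : ℝ) * y e + (Sum.elim h (fun _ : ι => (0 : ℝ)) v) = 0 := by
    rintro (a | j)
    · rw [slack_inl]
      simp only [cell, Finset.mem_filter, Finset.mem_univ, true_and, Sum.elim_inl]
      constructor
      · intro hb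
        have h1 := hb a₀
        have h2 := hmin a
        linarith
      · intro hb b
        have h2 := hmin b
        linarith
    · rw [slack_inr]
      simp only [cell, Finset.mem_filter, Finset.mem_univ, true_and, Sum.elim_inr]
  refine ⟨cell w h (fun i => y (Sum.inl i)), ?_, ?_⟩
  · simp only [maxCells, Finset.mem_filter, Finset.mem_univ, true_and]
    refine ⟨le_antisymm ?_ ?_, fun i => y (Sum.inl i), hk', rfl⟩
    · -- independent over ℚ
      have hli : LinearIndependent ℚ
          fun v : cell w h (fun i => y (Sum.inl i)) => hat w (v : κ ⊕ ι) := by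
        rw [Fintype.linearIndependent_iff]
        intro g hg v
        have key := hT ι κ w h (fun i => y (Sum.inl i))
          (fun v => if hv : v ∈ cell w h (fun i => y (Sum.inl i)) then g ⟨v, hv⟩ else 0) hh
          (fun v hv => by simp [hv]) (fun e => by
            have h1 := congrFun hg e
            simp only [Finset.sum_apply, Pi.smul_apply, smul_eq_mul, Pi.zero_apply] at h1
            rw [← Finset.sum_subset
              (Finset.subset_univ (cell w h (fun i => y (Sum.inl i))))
              (fun x _ hx => by rw [dif_neg hx, zero_mul]), ← Finset.sum_attach, ← h1]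
            refine Finset.sum_congr rfl fun x _ => ?_
            simp [x.2]) (v : κ ⊕ ι)
        simpa [v.2] using key
      have h1 := hli.fintype_card_le_finrank
      simpa using h1
    · have h1 : Set.finrank ℝ ((fun (v : κ ⊕ ι) (e : ι ⊕ Unit) => (hat w v e : ℝ)) ''
          {t | ∑ e, (hat w t e : ℝ) * y e + (Sum.elim h (fun _ : ι => (0 : ℝ)) t) = 0}) =
          Fintype.card ι + 1 := by
        rw [Set.finrank, hy3, finrank_top]
        simp
      rw [← h1]
      have h2 : ((fun (v : κ ⊕ ι) (e : ι ⊕ Unit) => (hat w v e : ℝ)) ''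
          {t | ∑ e, (hat w t e : ℝ) * y e + (Sum.elim h (fun _ : ι => (0 : ℝ)) t) = 0}) =
          (((cell w h (fun i => y (Sum.inl i))).image
            (fun (v : κ ⊕ ι) (e : ι ⊕ Unit) => (hat w v e : ℝ)) : Finset _) : Set _) := by
        rw [Finset.coe_image]
        congr 1
        ext v
        exact (hcell v).symm
      rw [h2]
      exact (finrank_span_finset_le_card _).trans Finset.card_image_le
  · rintro (a | j) hv
    · rw [hcell]
      apply hy2
      rw [hy0l]
      simp only [cell, Finset.mem_filter, Finset.mem_univ, true_and, Sum.elim_inl] at hv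
      exact sub_eq_zero.mpr (le_antisymm (hv a₀) (ha₀ a))
    · rw [hcell]
      apply hy2
      rw [hy0r]
      simpa only [cell, Finset.mem_filter, Finset.mem_univ, true_and, Sum.elim_inr] using hv

end Pool.Agent.Mono.NP
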