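import Mathlib

/-! MORSE (helper72): derivations with prescribed values on an algebraically independent family. -/

namespace Pool.Agent.Monodromy12.Morse

open scoped IntermediateField.algebraAdjoinAdjoin in
theorem exists_derivation_aux {k E : Type*} [Field k] [Field E] [Algebra k E] [CharZero k]
    {ι : Type*} (v : ι → E) (hv : IsTranscendenceBasis k v) (c : ι → E) :
    ∃ D : Derivation k E E, ∀ i, D (v i) = c i := by
  classical
  haveI : CharZero E := charZero_of_injective_algebraMap (algebraMap k E).injective
  have hb := hv.1
  haveI e1 : Algebra.FormallyEtale (Algebra.adjoin k (Set.range v))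
      (IntermediateField.adjoin k (Set.range v)) :=
    .of_isLocalization (nonZeroDivisors _)
  haveI : Algebra.IsAlgebraic (IntermediateField.adjoin k (Set.range v)) E := by
    exact hv.isAlgebraic_field
  haveI : CharZero (IntermediateField.adjoin k (Set.range v)) :=
    charZero_of_injective_algebraMap
      (algebraMap k (IntermediateField.adjoin k (Set.range v))).injective
  haveI : Algebra.IsSeparable (IntermediateField.adjoin k (Set.range v)) E := inferInstance
  haveI e2 : Algebra.FormallyEtale (IntermediateField.adjoin k (Set.range v)) E :=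
    Algebra.FormallyEtale.of_isSeparable _ E
  haveI e3 : Algebra.FormallyEtale (Algebra.adjoin k (Set.range v)) E :=
    .comp _ (IntermediateField.adjoin k (Set.range v)) _
  letI : Module (MvPolynomial ι k) E := Module.compHom E (MvPolynomial.aeval v : MvPolynomial ι k →ₐ[k] E).toRingHom
  have hsm : ∀ (p : MvPolynomial ι k) (x : E), p • x = MvPolynomial.aeval v p * x := fun p x => rfl
  haveI : IsScalarTower k (MvPolynomial ι k) E := ⟨fun a p x => by
    rw [hsm, hsm, map_smul, smul_mul_assoc]⟩
  let d0 : Derivation k (MvPolynomial ι k) E := MvPolynomial.mkDerivation k c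
  let D0 : Derivation k (Algebra.adjoin k (Set.range v)) E :=
    Derivation.mk' (d0.toLinearMap.comp hb.aevalEquiv.symm.toLinearMap) (by
      intro a b
      obtain ⟨p, rfl⟩ := hb.aevalEquiv.surjective a
      obtain ⟨q, rfl⟩ := hb.aevalEquiv.surjective b
      have h1 : ∀ p : MvPolynomial ι k, ((hb.aevalEquiv p : Algebra.adjoin k (Set.range v)) : E)
          = MvPolynomial.aeval v p := fun p => by simp
      rw [← map_mul]
      simp only [LinearMap.comp_apply, AlgEquiv.toLinearMap_apply, AlgEquiv.symm_apply_apply]
      rw [show d0.toLinearMap (p * q) = p • d0 q + q • d0 p from d0.leibniz p q, hsm, hsm]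
      rw [Subalgebra.smul_def, Subalgebra.smul_def, h1, h1]
      rfl)
  have hbc := KaehlerDifferential.isBaseChange_of_formallyEtale k (Algebra.adjoin k (Set.range v)) E
  let L := hbc.lift D0.liftKaehlerDifferential
  refine ⟨L.compDer (KaehlerDifferential.D k E), fun i => ?_⟩
  have h2 : (v i) = algebraMap (Algebra.adjoin k (Set.range v)) E
      (hb.aevalEquiv (MvPolynomial.X i)) := by
    simp
  show L (KaehlerDifferential.D k E (v i)) = c i
  rw [h2, ← KaehlerDifferential.map_D k k, hbc.lift_eq]
  rw [Derivation.liftKaehlerDifferential_comp_D]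
  show d0 (hb.aevalEquiv.symm (hb.aevalEquiv (MvPolynomial.X i))) = c i
  rw [AlgEquiv.symm_apply_apply]
  exact MvPolynomial.mkDerivation_X k c i

theorem exists_derivation {k E : Type*} [Field k] [Field E] [Algebra k E] [CharZero k]
    {ι : Type*} (m : ι → E) (hm : AlgebraicIndependent k m) (c : ι → E) :
    ∃ D : Derivation k E E, ∀ i, D (m i) = c i := by
  classical
  obtain ⟨s, hs, hsb⟩ := exists_isTranscendenceBasis_superset (R := k) (s := Set.range m) hm.to_subtype_range
  have hinj : Function.Injective m := hm.injective
  let c' : s → E := fun y => if h : (y : E) ∈ Set.range m then c h.choose else 0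
  obtain ⟨D, hD⟩ := exists_derivation_aux (fun y : s => (y : E)) hsb c'
  refine ⟨D, fun i => ?_⟩
  have hmem : m i ∈ Set.range m := ⟨i, rfl⟩
  have h := hD ⟨m i, hs hmem⟩
  simp only at h
  rw [h]
  have : c' ⟨m i, hs hmem⟩ = c hmem.choose := by
    simp only [c']; rw [dif_pos hmem]
  rw [this]
  exact congrArg c (hinj hmem.choose_spec)

end Pool.Agent.Monodromy12.Morse
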