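import Pool.Agent.Work.Monodromy12.MorseA

/-! MORSE (helper72): the field-theoretic core and the existence of a Morse direction. -/

namespace Pool.Agent.Monodromy12.Morse

open Finset

/-- Laurent monomial -/
def mon {E : Type*} [Field E] {n : ℕ} (x : Fin n → E) (w : Fin n → ℤ) : E := ∏ i, x i ^ w i

theorem D_mon {k E : Type*} [Field k] [Field E] [Algebra k E] {n : ℕ}
    (D : Derivation k E E) (x : Fin n → E) (hx : ∀ i, x i ≠ 0) (w : Fin n → ℤ) :
    D (mon x w) = (∑ l, (w l : E) * (D (x l) / x l)) * mon x w := by
  classical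
  have key : ∀ s : Finset (Fin n), D (∏ i ∈ s, x i ^ w i)
      = (∑ l ∈ s, (w l : E) * (D (x l) / x l)) * ∏ i ∈ s, x i ^ w i := by
    intro s
    induction s using Finset.induction_on with
    | empty => simp
    | insert i s hi ih =>
      rw [Finset.prod_insert hi, Finset.sum_insert hi, D.leibniz, ih, D.leibniz_zpow]
      have h1 : x i ^ w i = x i ^ (w i - 1) * x i := by
        rw [zpow_sub_one₀ (hx i), inv_mul_cancel_right₀ (hx i)]
      simp only [smul_eq_mul, zsmul_eq_mul]
      rw [h1]
      have := hx i
      field_simp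
      ring
  exact key univ

theorem core {k E : Type*} [Field k] [Field E] [Algebra k E] [CharZero k] {d : ℕ} {K : Type*}
    [Fintype K] (a : K → k) (w : K → Fin (d + 1) → ℤ) (m : Fin d → E)
    (hm : AlgebraicIndependent k m) (x : Fin (d + 1) → E) (hx : ∀ i, x i ≠ 0) (lam mu : E)
    (hlam : lam ≠ 0) (xi : Fin (d + 1) → E)
    (h0 : ∑ v, algebraMap k E (a v) * mon x (w v) = 0)
    (h1 : ∀ i, ∑ v, algebraMap k E (a v) * ((w v i : E) * mon x (w v))
      = lam * (Fin.cons 1 m : Fin (d + 1) → E) i)
    (h2 : ∑ i, (Fin.cons 1 m : Fin (d + 1) → E) i * xi i = 0)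
    (h3 : ∀ i, ∑ j, (∑ v, algebraMap k E (a v) * ((w v i : E) * (w v j : E) * mon x (w v))) * xi j
      = mu * (Fin.cons 1 m : Fin (d + 1) → E) i) : xi = 0 := by
  classical
  set V : Fin (d + 1) → E := Fin.cons 1 m with hV
  have hpos : ∀ j : Fin d, xi j.succ = 0 := by
    intro j
    obtain ⟨D, hD⟩ := exists_derivation m hm (fun i => if i = j then 1 else 0)
    set A : Fin (d + 1) → E := fun l => D (x l) / x l with hA
    have hDc : ∀ (c : k) (y : E), D (algebraMap k E c * y) = algebraMap k E c * D y := by
      intro c y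
      rw [D.leibniz, D.map_algebraMap]; simp
    have hDm : ∀ v, D (mon x (w v)) = (∑ l, (w v l : E) * A l) * mon x (w v) :=
      fun v => D_mon D x hx (w v)
    have hDi : ∀ (z : ℤ) (y : E), D ((z : E) * y) = (z : E) * D y := by
      intro z y
      rw [D.leibniz, D.map_intCast]; simp
    -- the first relation
    have r1 : ∑ l, A l * (lam * V l) = 0 := by
      have : D (∑ v, algebraMap k E (a v) * mon x (w v)) = 0 := by rw [h0, map_zero]
      rw [map_sum] at this
      rw [← this]
      simp_rw [← h1, hDc, hDm, Finset.mul_sum, Finset.sum_mul]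
      rw [Finset.sum_comm]
      simp_rw [Finset.mul_sum]
      refine Finset.sum_congr rfl fun v _ => Finset.sum_congr rfl fun l _ => ?_
      ring
    -- the second relation
    have r2 : ∀ i, D (lam * V i)
        = ∑ l, (∑ v, algebraMap k E (a v) * ((w v i : E) * (w v l : E) * mon x (w v))) * A l := by
      intro i
      rw [← h1 i, map_sum]
      simp_rw [hDc, hDi, hDm, Finset.sum_mul, Finset.mul_sum]
      rw [Finset.sum_comm]
      refine Finset.sum_congr rfl fun l _ => Finset.sum_congr rfl fun v _ => ?_
      ring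
    have r3 : ∑ i, xi i * D (lam * V i) = 0 := by
      simp_rw [r2, Finset.mul_sum]
      rw [Finset.sum_comm]
      have : ∀ l, ∑ i, xi i * ((∑ v, algebraMap k E (a v) *
          ((w v i : E) * (w v l : E) * mon x (w v))) * A l) = mu * V l * A l := by
        intro l
        rw [← h3 l, Finset.sum_mul]
        refine Finset.sum_congr rfl fun i _ => ?_
        have hs : (∑ v, algebraMap k E (a v) * ((w v i : E) * (w v l : E) * mon x (w v)))
            = ∑ v, algebraMap k E (a v) * ((w v l : E) * (w v i : E) * mon x (w v)) :=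
          Finset.sum_congr rfl fun v _ => by ring
        rw [hs]; ring
      simp_rw [this]
      have h5 : lam * ∑ l, mu * V l * A l = 0 := by
        rw [Finset.mul_sum]
        have : ∀ l, lam * (mu * V l * A l) = mu * (A l * (lam * V l)) := fun l => by ring
        simp_rw [this, ← Finset.mul_sum, r1, mul_zero]
      exact (mul_eq_zero.mp h5).resolve_left hlam
    -- direct computation
    have hV0 : V 0 = 1 := rfl
    have hVs : ∀ i : Fin d, V i.succ = m i := fun i => rfl
    have r4 : ∑ i, xi i * D (lam * V i) = D lam * (∑ i, V i * xi i) + lam * xi j.succ := by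
      have : ∀ i, xi i * D (lam * V i) = D lam * (V i * xi i) + lam * (xi i * D (V i)) := by
        intro i
        rw [D.leibniz]; simp only [smul_eq_mul]; ring
      simp_rw [this, Finset.sum_add_distrib, ← Finset.mul_sum]
      congr 2
      rw [Fin.sum_univ_succ, hV0, D.map_one_eq_zero, mul_zero, zero_add]
      simp_rw [hVs, hD]
      simp
    rw [r3, h2, mul_zero, zero_add] at r4
    exact (mul_eq_zero.mp r4.symm).resolve_left hlam
  funext i
  refine Fin.cases ?_ (fun j => ?_) i
  · rw [Fin.sum_univ_succ] at h2
    have : ∑ i : Fin d, V i.succ * xi i.succ = 0 :=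
      Finset.sum_eq_zero fun j _ => by rw [hpos j, mul_zero]
    rw [this, add_zero] at h2
    simpa [hV] using h2
  · exact hpos j

end Pool.Agent.Monodromy12.Morse
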