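import Pool.Agent.Work.Monodromy12.MorseB

/-! MORSE (helper72): existence of an integral Morse direction, by germs along an ultrafilter. -/

namespace Pool.Agent.Monodromy12.Morse

open Finset

/-- the filter on `Fin d → ℕ` generated by the non-vanishing sets of nonzero polynomials -/
def nvFilter (d : ℕ) : Filter (Fin d → ℕ) where
  sets := {S | ∃ r : MvPolynomial (Fin d) ℂ, r ≠ 0 ∧
    ∀ m : Fin d → ℕ, MvPolynomial.eval (fun i => (m i : ℂ)) r ≠ 0 → m ∈ S}
  univ_sets := ⟨1, one_ne_zero, fun _ _ => trivial⟩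
  sets_of_superset := by
    rintro S T ⟨r, hr, h⟩ hST
    exact ⟨r, hr, fun m hm => hST (h m hm)⟩
  inter_sets := by
    rintro S T ⟨r, hr, h⟩ ⟨r', hr', h'⟩
    refine ⟨r * r', mul_ne_zero hr hr', fun m hm => ?_⟩
    rw [map_mul] at hm
    exact ⟨h m (left_ne_zero_of_mul hm), h' m (right_ne_zero_of_mul hm)⟩

instance (d : ℕ) : (nvFilter d).NeBot := by
  refine Filter.neBot_iff.mpr fun h => ?_
  have h1 : (∅ : Set (Fin d → ℕ)) ∈ nvFilter d := by rw [h]; trivial
  obtain ⟨r, hr, h2⟩ := h1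
  apply hr
  refine MvPolynomial.funext_set (fun _ => Set.range (fun n : ℕ => (n : ℂ)))
    (fun _ => Set.infinite_range_of_injective Nat.cast_injective) fun x hx => ?_
  rw [map_zero]
  by_contra h3
  have : ∀ i, ∃ n : ℕ, (n : ℂ) = x i := fun i => by
    simpa using hx i (Set.mem_univ i)
  choose m hm using this
  have hxm : x = fun i => (m i : ℂ) := funext fun i => (hm i).symm
  rw [hxm] at h3
  exact h2 m h3

theorem morse_exists {d : ℕ} {K : Type*} [Fintype K] (a : K → ℂ) (w : K → Fin (d + 1) → ℤ)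
    (q : MvPolynomial (Fin d) ℂ) (hq : q ≠ 0) :
    ∃ m : Fin d → ℕ, MvPolynomial.eval (fun i => (m i : ℂ)) q ≠ 0 ∧
      ∀ x : Fin (d + 1) → ℂ, (∀ i, x i ≠ 0) → ∑ v, a v * mon x (w v) = 0 →
      ∀ lam : ℂ, lam ≠ 0 →
      (∀ i, ∑ v, a v * ((w v i : ℂ) * mon x (w v))
        = lam * (Fin.cons 1 (fun i => (m i : ℂ)) : Fin (d + 1) → ℂ) i) →
      ∀ (xi : Fin (d + 1) → ℂ) (mu : ℂ),
      ∑ i, (Fin.cons 1 (fun i => (m i : ℂ)) : Fin (d + 1) → ℂ) i * xi i = 0 →
      (∀ i, ∑ j, (∑ v, a v * ((w v i : ℂ) * (w v j : ℂ) * mon x (w v))) * xi j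
        = mu * (Fin.cons 1 (fun i => (m i : ℂ)) : Fin (d + 1) → ℂ) i) → xi = 0 := by
  classical
  by_contra hcon
  push Not at hcon
  -- choose a counterexample for every good m
  have hch : ∀ m : Fin d → ℕ, ∃ (x : Fin (d + 1) → ℂ) (lam : ℂ) (xi : Fin (d + 1) → ℂ) (mu : ℂ),
      MvPolynomial.eval (fun i => (m i : ℂ)) q ≠ 0 →
      ((∀ i, x i ≠ 0) ∧ ∑ v, a v * mon x (w v) = 0 ∧ lam ≠ 0 ∧
      (∀ i, ∑ v, a v * ((w v i : ℂ) * mon x (w v))
        = lam * (Fin.cons 1 (fun i => (m i : ℂ)) : Fin (d + 1) → ℂ) i) ∧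
      ∑ i, (Fin.cons 1 (fun i => (m i : ℂ)) : Fin (d + 1) → ℂ) i * xi i = 0 ∧
      (∀ i, ∑ j, (∑ v, a v * ((w v i : ℂ) * (w v j : ℂ) * mon x (w v))) * xi j
        = mu * (Fin.cons 1 (fun i => (m i : ℂ)) : Fin (d + 1) → ℂ) i) ∧ xi ≠ 0) := by
    intro m
    by_cases hm : MvPolynomial.eval (fun i => (m i : ℂ)) q = 0
    · exact ⟨0, 0, 0, 0, fun h => absurd hm h⟩
    · obtain ⟨x, h1, h2, lam, h3, h4, xi, mu, h5, h6, h7⟩ := hcon m hm
      exact ⟨x, lam, xi, mu, fun _ => ⟨h1, h2, h3, h4, h5, h6, h7⟩⟩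
  choose X Lam Xi Mu H using hch
  let φ : Ultrafilter (Fin d → ℕ) := Ultrafilter.of (nvFilter d)
  have hφ : ∀ r : MvPolynomial (Fin d) ℂ, r ≠ 0 →
      ∀ᶠ m : Fin d → ℕ in (φ : Filter (Fin d → ℕ)), MvPolynomial.eval (fun i => (m i : ℂ)) r ≠ 0 := by
    intro r hr
    apply Ultrafilter.of_le (nvFilter d)
    exact ⟨r, hr, fun m hm => hm⟩
  let E := Filter.Germ (φ : Filter (Fin d → ℕ)) ℂ
  let G : ((Fin d → ℕ) → ℂ) →+* E := Filter.Germ.coeRingHom (φ : Filter (Fin d → ℕ))
  letI : Algebra ℂ E := (G.comp (Pi.constRingHom (Fin d → ℕ) ℂ)).toAlgebra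
  have hG : ∀ f g : (Fin d → ℕ) → ℂ, (∀ᶠ m in (φ : Filter (Fin d → ℕ)), f m = g m) → G f = G g := by
    intro f g h
    exact Filter.Germ.coe_eq.mpr h
  have hG0 : ∀ f : (Fin d → ℕ) → ℂ, (∀ᶠ m in (φ : Filter (Fin d → ℕ)), f m ≠ 0) → G f ≠ 0 := by
    intro f h h0
    have h1 : ∀ᶠ m in (φ : Filter (Fin d → ℕ)), f m = 0 := by
      have : (G f) = G 0 := by rw [h0, map_zero]
      exact Filter.Germ.coe_eq.mp this
    obtain ⟨m, hm1, hm2⟩ := (h.and h1).exists
    exact hm1 hm2
  have hC : ∀ c : ℂ, algebraMap ℂ E c = G (fun _ => c) := fun c => rfl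
  let mg : Fin d → E := fun i => G (fun m => (m i : ℂ))
  let xg : Fin (d + 1) → E := fun i => G (fun m => X m i)
  let xig : Fin (d + 1) → E := fun i => G (fun m => Xi m i)
  -- germs of monomials
  have hmon : ∀ z : Fin (d + 1) → ℤ, mon xg z = G (fun m => mon (X m) z) := by
    intro z
    have h1 : ∀ i, xg i ^ z i = G (fun m => X m i ^ z i) := fun i => rfl
    simp only [mon]
    simp_rw [h1]
    rw [← map_prod]
    congr 1
    funext m
    simp [Finset.prod_apply]
  have hV : ∀ i, (Fin.cons 1 mg : Fin (d + 1) → E) i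
      = G (fun m => (Fin.cons 1 (fun i => (m i : ℂ)) : Fin (d + 1) → ℂ) i) := by
    intro i
    refine Fin.cases ?_ (fun j => ?_) i
    · simp only [Fin.cons_zero]
      exact (map_one G).symm
    · simp only [Fin.cons_succ]
      rfl
  have hI : ∀ z : ℤ, (z : E) = G (fun _ => (z : ℂ)) := by
    intro z
    have : (fun _ : Fin d → ℕ => (z : ℂ)) = ((z : ℤ) : (Fin d → ℕ) → ℂ) := by
      funext m; simp
    rw [this, map_intCast]
  -- algebraic independence of the germ of m
  have hind : AlgebraicIndependent ℂ mg := by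
    rw [algebraicIndependent_iff]
    intro p hp
    by_contra hp0
    have h1 : MvPolynomial.aeval mg p
        = G (fun m => MvPolynomial.eval (fun i => (m i : ℂ)) p) := by
      let Ψ : MvPolynomial (Fin d) ℂ →+* ((Fin d → ℕ) → ℂ) :=
        Pi.ringHom (fun m => MvPolynomial.eval (fun i => (m i : ℂ)))
      have h2 : (MvPolynomial.aeval mg : MvPolynomial (Fin d) ℂ →ₐ[ℂ] E).toRingHom = G.comp Ψ := by
        apply MvPolynomial.ringHom_ext
        · intro c
          have : Ψ (MvPolynomial.C c) = fun _ => c := by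
            funext m
            show MvPolynomial.eval (fun i => (m i : ℂ)) (MvPolynomial.C c) = c
            simp
          simp only [RingHom.comp_apply, this, AlgHom.toRingHom_eq_coe, RingHom.coe_coe,
            MvPolynomial.aeval_C]
          exact hC c
        · intro i
          have : Ψ (MvPolynomial.X i) = fun m => (m i : ℂ) := by
            funext m
            show MvPolynomial.eval (fun i => (m i : ℂ)) (MvPolynomial.X i) = (m i : ℂ)
            simp
          simp only [RingHom.comp_apply, this, AlgHom.toRingHom_eq_coe, RingHom.coe_coe,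
            MvPolynomial.aeval_X]
          rfl
      exact congrArg (fun f => f p) h2
    rw [h1] at hp
    exact hG0 _ (hφ p hp0) hp
  have hev := hφ q hq
  have e0 : ∀ i, xg i ≠ 0 := fun i => hG0 _ (by filter_upwards [hev] with m hm using (H m hm).1 i)
  have e3 : G Lam ≠ 0 := hG0 _ (by filter_upwards [hev] with m hm using (H m hm).2.2.1)
  have e1 : ∑ v, algebraMap ℂ E (a v) * mon xg (w v) = 0 := by
    simp_rw [hC, hmon, ← map_mul, ← map_sum]
    rw [← map_zero G]
    apply hG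
    filter_upwards [hev] with m hm
    simpa [Finset.sum_apply] using (H m hm).2.1
  have e4 : ∀ i, ∑ v, algebraMap ℂ E (a v) * ((w v i : E) * mon xg (w v))
      = G Lam * (Fin.cons 1 mg : Fin (d + 1) → E) i := by
    intro i
    simp_rw [hC, hI, hmon, hV, ← map_mul, ← map_sum]
    apply hG
    filter_upwards [hev] with m hm
    have := (H m hm).2.2.2.1 i
    simpa [Finset.sum_apply] using this
  have e5 : ∑ i, (Fin.cons 1 mg : Fin (d + 1) → E) i * xig i = 0 := by
    simp only [xig]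
    simp_rw [hV, ← map_mul, ← map_sum]
    rw [← map_zero G]
    apply hG
    filter_upwards [hev] with m hm
    have := (H m hm).2.2.2.2.1
    simpa [Finset.sum_apply] using this
  have e6 : ∀ i, ∑ j, (∑ v, algebraMap ℂ E (a v) *
      ((w v i : E) * (w v j : E) * mon xg (w v))) * xig j
      = G Mu * (Fin.cons 1 mg : Fin (d + 1) → E) i := by
    intro i
    simp only [xig]
    simp_rw [hC, hI, hmon, hV, ← map_mul, ← map_sum, ← map_mul, ← map_sum]
    apply hG
    filter_upwards [hev] with m hm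
    have := (H m hm).2.2.2.2.2.1 i
    simpa [Finset.sum_apply] using this
  have hxi := core a w mg hind xg e0 (G Lam) (G Mu) e3 xig e1 e4 e5 e6
  have hall : ∀ᶠ m in (φ : Filter (Fin d → ℕ)), ∀ i, Xi m i = 0 := by
    rw [Filter.eventually_all]
    intro i
    have h1 : G (fun m => Xi m i) = G 0 := by
      rw [map_zero]; exact congrFun hxi i
    exact Filter.Germ.coe_eq.mp h1
  obtain ⟨m, hm1, hm2⟩ := (hev.and hall).exists
  exact (H m hm1).2.2.2.2.2.2 (funext hm2)

end Pool.Agent.Monodromy12.Morse
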