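import Pool.Agent.Work.Monodromy.Interface12C
import Pool.Agent.Work.Monodromy12.KNDG12

/-!
# Phase 12, NDG: generic polynomials are nondegenerate (helper84), from KNDG
-/

set_option autoImplicit false

namespace Pool.Agent.Mono.NP

theorem stmt_NDG : Stmt_NDG := by
  intro ι κ _ _ _ _ w a ha F hF _ x hx h0
  by_contra hcon
  push Not at hcon
  obtain ⟨e, -⟩ : ∃ e : ι ≃ Fin (Fintype.card ι), True := ⟨Fintype.equivFin ι, trivial⟩
  have hm : ∀ v, mn (fun v j => w v (e.symm j)) (fun j => x (e.symm j)) v =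
      ∏ i, x i ^ w v i := by
    intro v
    unfold mn
    exact Equiv.prod_comp e.symm fun i => x i ^ w v i
  refine stmt_KNDG κ (Fintype.card ι) (fun v j => w v (e.symm j)) a ha F hF
    (fun j => x (e.symm j)) (fun j => hx (e.symm j)) ⟨?_, ?_⟩
  · rw [← h0]
    exact Finset.sum_congr rfl fun v _ => by rw [hm]
  · intro j
    rw [← hcon (e.symm j)]
    refine Finset.sum_congr rfl fun v _ => ?_
    rw [hm]
    ring

end Pool.Agent.Mono.NP
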