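import Pool.Agent.Work.Monodromy.Interface12A

/-!
# Phase 12, block NUM (helper22)
-/

set_option autoImplicit false
set_option linter.unusedSectionVars false

namespace Pool.Agent.Mono.NP

open MvPolynomial

namespace NUMAux

variable {ι : Type} [Fintype ι] [DecidableEq ι]

/-- the line as polynomials -/
noncomputable def lineP (ι : Type) : ι ⊕ Unit → Polynomial ℚ :=
  Sum.elim (fun _ => 1) fun _ => -Polynomial.X

/-- the curve as power series -/
noncomputable def crvP (p : ι → ℚ) (s₀ : ℚ) (N : ℕ) : ι ⊕ Unit → PowerSeries ℚ :=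
  Sum.elim (fun i => 1 + PowerSeries.C (p i) * PowerSeries.X ^ N)
    fun _ => -PowerSeries.C s₀ - PowerSeries.X

theorem aeval_line (P : MvPolynomial (ι ⊕ Unit) ℚ) :
    aeval (line ι) P = algebraMap (Polynomial ℚ) (RatFunc ℚ) (aeval (lineP ι) P) := by
  have h1 : line ι = fun e => algebraMap (Polynomial ℚ) (RatFunc ℚ) (lineP ι e) := by
    funext e
    rcases e with i | u
    · simp [line, lineP]
    · simp [line, lineP, RatFunc.algebraMap_X]
  rw [h1]
  exact (MvPolynomial.aeval_algebraMap_apply (RatFunc ℚ) (lineP ι) P)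

theorem crv_eq (p : ι → ℚ) (s₀ : ℚ) (N : ℕ) :
    crv p s₀ N = fun e => HahnSeries.ofPowerSeries ℤ ℚ (crvP p s₀ N e) := by
  funext e
  rcases e with i | u
  · simp [crv, crvP, tau, HahnSeries.ofPowerSeries_C, HahnSeries.ofPowerSeries_X]
  · simp [crv, crvP, tau, HahnSeries.ofPowerSeries_C, HahnSeries.ofPowerSeries_X]

theorem aeval_crv (p : ι → ℚ) (s₀ : ℚ) (N : ℕ) (P : MvPolynomial (ι ⊕ Unit) ℚ) :
    aeval (crv p s₀ N) P = HahnSeries.ofPowerSeries ℤ ℚ (aeval (crvP p s₀ N) P) := by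
  rw [crv_eq]
  induction P using MvPolynomial.induction_on with
  | C a =>
    rw [aeval_C, aeval_C]
    have h1 : (algebraMap ℚ (PowerSeries ℚ)) a = PowerSeries.C a := rfl
    rw [h1, HahnSeries.ofPowerSeries_C]
    rw [eq_ratCast, eq_ratCast]
  | add P Q hP hQ => rw [map_add, map_add, map_add, hP, hQ]
  | mul_X P e hP => rw [map_mul, map_mul, map_mul, aeval_X, aeval_X, hP]

/-- modulo `X ^ N` the curve is the line -/
theorem dvd_taylor (p : ι → ℚ) (s₀ : ℚ) (N : ℕ) (P : MvPolynomial (ι ⊕ Unit) ℚ) :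
    (PowerSeries.X : PowerSeries ℚ) ^ N ∣
      aeval (crvP p s₀ N) P - ((Polynomial.taylor s₀ (aeval (lineP ι) P) : Polynomial ℚ) :
        PowerSeries ℚ) := by
  induction P using MvPolynomial.induction_on with
  | C a =>
    rw [aeval_C, aeval_C]
    have h1 : (algebraMap ℚ (PowerSeries ℚ)) a = PowerSeries.C a := rfl
    have h2 : (algebraMap ℚ (Polynomial ℚ)) a = Polynomial.C a := rfl
    rw [h1, h2, Polynomial.taylor_C, Polynomial.coe_C, sub_self]
    exact dvd_zero _
  | add P Q hP hQ =>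
    rw [map_add, map_add, map_add, Polynomial.coe_add]
    have := dvd_add hP hQ
    rwa [← add_sub_add_comm] at this
  | mul_X P e hP =>
    rw [map_mul, map_mul, aeval_X, aeval_X, Polynomial.taylor_mul, Polynomial.coe_mul]
    have h1 : (PowerSeries.X : PowerSeries ℚ) ^ N ∣ crvP p s₀ N e -
        ((Polynomial.taylor s₀ (lineP ι e) : Polynomial ℚ) : PowerSeries ℚ) := by
      rcases e with i | u
      · simp only [crvP, lineP, Sum.elim_inl, Polynomial.taylor_one, map_one]
        refine ⟨PowerSeries.C (p i), ?_⟩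
        simp
        ring
      · simp only [crvP, lineP, Sum.elim_inr, map_neg, Polynomial.taylor_X]
        refine ⟨0, ?_⟩
        simp
        ring
    have h2 : aeval (crvP p s₀ N) P * crvP p s₀ N e -
        ((Polynomial.taylor s₀ (aeval (lineP ι) P) : Polynomial ℚ) : PowerSeries ℚ) *
        ((Polynomial.taylor s₀ (lineP ι e) : Polynomial ℚ) : PowerSeries ℚ) =
        (aeval (crvP p s₀ N) P - ((Polynomial.taylor s₀ (aeval (lineP ι) P) : Polynomial ℚ) :
        PowerSeries ℚ)) * crvP p s₀ N e +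
        ((Polynomial.taylor s₀ (aeval (lineP ι) P) : Polynomial ℚ) : PowerSeries ℚ) *
        (crvP p s₀ N e -
        ((Polynomial.taylor s₀ (lineP ι e) : Polynomial ℚ) : PowerSeries ℚ)) := by ring
    rw [h2]
    exact dvd_add (Dvd.dvd.mul_right hP _) (Dvd.dvd.mul_left h1 _)

/-- divisibility of the Taylor polynomial as a power series -/
theorem dvd_of_taylor (s₀ : ℚ) (a : ℕ) (Q : Polynomial ℚ)
    (h : (PowerSeries.X : PowerSeries ℚ) ^ a ∣ ((Polynomial.taylor s₀ Q : Polynomial ℚ) :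
      PowerSeries ℚ)) : (Polynomial.X - Polynomial.C s₀) ^ a ∣ Q := by
  rw [PowerSeries.X_pow_dvd_iff] at h
  have h1 : (Polynomial.X : Polynomial ℚ) ^ a ∣ Polynomial.taylor s₀ Q := by
    rw [Polynomial.X_pow_dvd_iff]
    intro d hd
    have := h d hd
    rwa [Polynomial.coeff_coe] at this
  obtain ⟨R, hR⟩ := h1
  refine ⟨Polynomial.taylor (-s₀) R, ?_⟩
  have h2 : Polynomial.taylor (-s₀) (Polynomial.taylor s₀ Q) = Q := by
    rw [Polynomial.taylor_taylor]
    simp
  rw [← h2, hR, Polynomial.taylor_mul]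
  congr 1
  rw [Polynomial.taylor_apply]
  simp
  ring

theorem taylor_of_dvd (s₀ : ℚ) (a : ℕ) (Q : Polynomial ℚ)
    (h : (Polynomial.X - Polynomial.C s₀) ^ a ∣ Q) :
    (PowerSeries.X : PowerSeries ℚ) ^ a ∣ ((Polynomial.taylor s₀ Q : Polynomial ℚ) :
      PowerSeries ℚ) := by
  obtain ⟨R, hR⟩ := h
  refine ⟨((Polynomial.taylor s₀ R : Polynomial ℚ) : PowerSeries ℚ), ?_⟩
  rw [hR, Polynomial.taylor_mul, Polynomial.coe_mul]
  congr 1
  rw [Polynomial.taylor_apply]
  simp

/-- Laurent series of order at least zero are power series -/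
theorem exists_ps (T : LaurentSeries ℚ) (hT : Ord 0 T) :
    ∃ T' : PowerSeries ℚ, HahnSeries.ofPowerSeries ℤ ℚ T' = T := by
  refine ⟨PowerSeries.mk fun n => T.coeff n, ?_⟩
  ext n
  rcases lt_or_ge n 0 with hn | hn
  · rw [hT n hn]
    rw [HahnSeries.ofPowerSeries_apply]
    apply HahnSeries.embDomain_of_notMem_range
    rintro ⟨k, hk⟩
    simp at hk
    omega
  · obtain ⟨k, rfl⟩ := Int.eq_ofNat_of_zero_le hn
    have := HahnSeries.ofPowerSeries_apply_coeff (Γ := ℤ) (PowerSeries.mk fun n => T.coeff n) k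
    simpa using this

/-- the linear form on the line -/
theorem aeval_form (x : ι ⊕ Unit → ℚ) : aeval (lineP ι) (∑ e, C (x e) * X e) =
    Polynomial.C (∑ i, x (Sum.inl i)) - Polynomial.C (x (Sum.inr ())) * Polynomial.X := by
  rw [map_sum, Fintype.sum_sum_type]
  simp [lineP, Polynomial.C_eq_algebraMap]
  ring

theorem aeval_lprod (B : List (ι ⊕ Unit → ℚ)) :
    aeval (lineP ι) (B.map fun x => ∑ e, C (x e) * X e).prod =
    (B.map fun x => Polynomial.C (∑ i, x (Sum.inl i)) -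
      Polynomial.C (x (Sum.inr ())) * Polynomial.X).prod := by
  rw [map_list_prod, List.map_map]
  congr 1
  apply List.map_congr_left
  intro x _
  exact aeval_form x

theorem ev_prod {F : Type} [Field F] [Algebra ℚ F] (B : List (ι ⊕ Unit → ℚ)) (y : ι ⊕ Unit → F) :
    (B.map fun x => ev x y).prod =
      aeval y (B.map fun x => ∑ e, C (x e) * X e).prod := by
  rw [map_list_prod, List.map_map]
  congr 1
  apply List.map_congr_left
  intro x _
  simp only [Function.comp_apply, ev, map_sum, map_mul, aeval_C, aeval_X]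

variable {κ : Type} [Fintype κ] [DecidableEq κ]

theorem Bd_ne (w : κ → ι → ℕ) (x : ι ⊕ Unit → ℚ) (hx : Bd w ∅ x) :
    (∑ i, x (Sum.inl i)) ≠ 0 ∨ x (Sum.inr ()) ≠ 0 := by
  obtain ⟨hx0, hx1, -⟩ := hx
  by_contra hcon
  push Not at hcon
  apply hx0
  have h1 : ∀ i, 0 ≤ x (Sum.inl i) := by
    intro i
    have := hx1 (Sum.inr i)
    rw [pr, Fintype.sum_sum_type] at this
    simpa [hat, Pi.single_apply] using this
  have h2 := (Finset.sum_eq_zero_iff_of_nonneg fun i _ => h1 i).mp hcon.1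
  funext e
  rcases e with i | u
  · exact h2 i (Finset.mem_univ i)
  · exact hcon.2

theorem form_ne (w : κ → ι → ℕ) (x : ι ⊕ Unit → ℚ) (hx : Bd w ∅ x) :
    Polynomial.C (∑ i, x (Sum.inl i)) - Polynomial.C (x (Sum.inr ())) * Polynomial.X ≠ 0 := by
  intro h0
  have h1 := congrArg (fun q => Polynomial.coeff q 0) h0
  have h2 := congrArg (fun q => Polynomial.coeff q 1) h0
  simp only [Polynomial.coeff_sub, Polynomial.coeff_C_mul, Polynomial.coeff_X,
    Polynomial.coeff_C, Polynomial.coeff_zero] at h1 h2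
  simp at h1 h2
  rcases Bd_ne w x hx with h | h
  · exact h h1
  · exact h h2

end NUMAux

open NUMAux

theorem stmt_NUM : Stmt_NUM := by
  intro ι κ _ _ _ _ w p B P hB
  set Dp : Polynomial ℚ := aeval (lineP ι) (B.map fun x => ∑ e, C (x e) * X e).prod with hDp
  set Pp : Polynomial ℚ := aeval (lineP ι) P with hPp
  have hD0 : Dp ≠ 0 := by
    rw [hDp, aeval_lprod]
    apply List.prod_ne_zero
    intro h0
    rw [List.mem_map] at h0
    obtain ⟨x, hx, hx0⟩ := h0
    exact form_ne w x (hB x hx) hx0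
  refine ⟨?_, ?_⟩
  · rw [aeval_line, ← hDp]
    intro h0
    apply hD0
    apply RatFunc.algebraMap_injective ℚ
    rw [h0, map_zero]
  intro s _ hs
  rw [aeval_line, aeval_line, ← hDp, ← hPp] at hs
  -- `s` is rational
  have hsD : Polynomial.aeval s Dp = 0 := by
    obtain ⟨Q, hQ⟩ := RatFunc.denom_div_dvd Pp Dp
    rw [hQ, map_mul, hs, zero_mul]
  have hs0 : ∃ s₀ : ℚ, (s₀ : ℂ) = s := by
    rw [hDp, aeval_lprod, map_list_prod, List.prod_eq_zero_iff, List.mem_map] at hsD
    obtain ⟨q, hq, hq0⟩ := hsD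
    rw [List.mem_map] at hq
    obtain ⟨x, hx, rfl⟩ := hq
    simp only [map_sub, map_mul, Polynomial.aeval_C, Polynomial.aeval_X, eq_ratCast] at hq0
    have hne : x (Sum.inr ()) ≠ 0 := by
      intro h0
      rw [h0] at hq0
      rcases Bd_ne w x (hB x hx) with h | h
      · apply h
        have : ((∑ i, x (Sum.inl i) : ℚ) : ℂ) = 0 := by simpa using hq0
        exact_mod_cast this
      · exact h h0
    refine ⟨(∑ i, x (Sum.inl i)) / x (Sum.inr ()), ?_⟩
    have hne' : (x (Sum.inr ()) : ℂ) ≠ 0 := by exact_mod_cast hne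
    rw [Rat.cast_div, div_eq_iff hne']
    have := sub_eq_zero.mp hq0
    rw [this]
    ring
  obtain ⟨s₀, hs₀⟩ := hs0
  refine ⟨s₀, hs₀, ?_⟩
  obtain ⟨D', hD', hnd⟩ := Polynomial.exists_eq_pow_rootMultiplicity_mul_and_not_dvd Dp hD0 s₀
  set a : ℕ := Dp.rootMultiplicity s₀ with ha
  refine ⟨a, ?_⟩
  intro N T hN hT hord
  obtain ⟨T', hT'⟩ := exists_ps T hord
  have h1 : T' * aeval (crvP p s₀ N) (B.map fun x => ∑ e, C (x e) * X e).prod =
      aeval (crvP p s₀ N) P := by
    apply HahnSeries.ofPowerSeries_injective (Γ := ℤ) (R := ℚ)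
    rw [map_mul, ← aeval_crv, ← aeval_crv, hT', ← ev_prod, hT]
  have hXN : (PowerSeries.X : PowerSeries ℚ) ^ a ∣ PowerSeries.X ^ N := pow_dvd_pow _ hN
  have h2 : (PowerSeries.X : PowerSeries ℚ) ^ a ∣
      aeval (crvP p s₀ N) (B.map fun x => ∑ e, C (x e) * X e).prod := by
    have h3 := dvd_trans hXN (dvd_taylor p s₀ N (B.map fun x => ∑ e, C (x e) * X e).prod)
    have h4 := taylor_of_dvd s₀ a Dp ⟨D', hD'⟩
    have := dvd_add h3 h4
    rwa [← hDp, sub_add_cancel] at this
  have h3 : (PowerSeries.X : PowerSeries ℚ) ^ a ∣ aeval (crvP p s₀ N) P := by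
    rw [← h1]
    exact Dvd.dvd.mul_left h2 _
  have h4 : (PowerSeries.X : PowerSeries ℚ) ^ a ∣
      ((Polynomial.taylor s₀ Pp : Polynomial ℚ) : PowerSeries ℚ) := by
    have h5 := dvd_trans hXN (dvd_taylor p s₀ N P)
    have := dvd_sub h3 h5
    rwa [← hPp, sub_sub_cancel] at this
  obtain ⟨P', hP'⟩ := dvd_of_taylor s₀ a Pp h4
  have hne : algebraMap (Polynomial ℚ) (RatFunc ℚ) ((Polynomial.X - Polynomial.C s₀) ^ a) ≠ 0 := by
    intro h0
    have h5 : (Polynomial.X - Polynomial.C s₀) ^ a = 0 := by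
      apply RatFunc.algebraMap_injective ℚ
      rw [h0, map_zero]
    exact pow_ne_zero _ (Polynomial.X_sub_C_ne_zero s₀) h5
  have h5 : algebraMap (Polynomial ℚ) (RatFunc ℚ) Pp / algebraMap (Polynomial ℚ) (RatFunc ℚ) Dp =
      algebraMap (Polynomial ℚ) (RatFunc ℚ) P' / algebraMap (Polynomial ℚ) (RatFunc ℚ) D' := by
    rw [hP', hD', map_mul, map_mul, mul_div_mul_left _ _ hne]
  rw [h5] at hs
  obtain ⟨Q, hQ⟩ := RatFunc.denom_div_dvd P' D'
  have h6 : Polynomial.aeval s D' = 0 := by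
    rw [hQ, map_mul, hs, zero_mul]
  apply hnd
  rw [Polynomial.dvd_iff_isRoot]
  rw [← hs₀] at h6
  have h7 : ((Polynomial.eval s₀ D' : ℚ) : ℂ) = 0 := by
    rw [← h6]
    have := Polynomial.aeval_algebraMap_apply ℂ s₀ D'
    rw [eq_ratCast, eq_ratCast] at this
    rw [this]
    simp
  exact_mod_cast h7

end Pool.Agent.Mono.NP
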