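import Pool.Agent.Work.Monodromy.Interface12A

/-!
# Phase 12, block PAIR: the zeta function as a sum over pairs of box points (helper45)
-/

set_option autoImplicit false

namespace Pool.Agent.Mono.NP

open MvPolynomial

namespace PAIRAux

variable {ι κ : Type} [Fintype ι] [DecidableEq ι] [Fintype κ] [DecidableEq κ]

/-- box points supported on a cell, with given denominator -/
def SS (w : κ → ι → ℕ) (Δ : Finset (κ ⊕ ι)) (e : ℕ) : Set (κ → ℚ) :=
  {b | b ∈ Bx w Finset.univ ∧ (∑ a, b a).den = e ∧ ∀ a, b a ≠ 0 → Sum.inl a ∈ Δ}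

theorem SS_finite (h1 : Stmt_TRI1) {w : κ → ι → ℕ} {h : κ → ℝ} (hh : LinearIndependent ℚ h)
    {Δ : Finset (κ ⊕ ι)} (hΔ : Δ ∈ maxCells w h) {e : ℕ} (he : 1 ≤ e) : (SS w Δ e).Finite := by
  classical
  obtain ⟨_, k, _, hk⟩ : Δ.card = Fintype.card ι + 1 ∧
      ∃ k : ι → ℝ, (∀ i, 0 ≤ k i) ∧ Δ = cell w h k := by
    unfold maxCells at hΔ
    rw [Finset.mem_filter] at hΔ
    exact hΔ.2
  let f : (κ → ℚ) → (ι → ℚ) × ℚ := fun b => (fun i => ∑ a, b a * w a i, ∑ a, b a)
  let t : Set ((ι → ℚ) × ℚ) :=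
    (Set.pi Set.univ fun i => (fun z : ℤ => (z : ℚ)) '' Set.Icc 0 (∑ a, (w a i : ℤ))) ×ˢ
      ((fun z : ℤ => (z : ℚ) / (e : ℚ)) '' Set.Icc 0 ((e : ℤ) * Fintype.card κ))
  have ht : t.Finite := by
    refine Set.Finite.prod (Set.Finite.pi fun i => (Set.finite_Icc _ _).image _) ?_
    exact (Set.finite_Icc _ _).image _
  refine Set.Finite.of_injOn (f := f) (t := t) ?_ ?_ ht
  · intro b hb
    obtain ⟨⟨h2, _, h3⟩, h4, _⟩ := hb
    have hsum : (0 : ℚ) ≤ ∑ a, b a ∧ ∑ a, b a ≤ Fintype.card κ := by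
      refine ⟨Finset.sum_nonneg fun a _ => (h2 a).1, ?_⟩
      have := Finset.sum_le_sum (s := (Finset.univ : Finset κ)) (f := b) (g := fun _ => (1 : ℚ))
        fun a _ => (h2 a).2.le
      rw [Finset.sum_const, Finset.card_univ, nsmul_eq_mul, mul_one] at this
      exact this
    have he' : (0 : ℚ) < e := by exact_mod_cast he
    refine ⟨?_, ?_⟩
    · intro i _
      obtain ⟨z, hz⟩ := h3 i
      refine ⟨z, ⟨?_, ?_⟩, hz.symm⟩
      · have : (0 : ℚ) ≤ z := by
          rw [← hz]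
          exact Finset.sum_nonneg fun a _ => mul_nonneg (h2 a).1 (Nat.cast_nonneg _)
        exact_mod_cast this
      · have : (z : ℚ) ≤ ((∑ a, (w a i : ℤ) : ℤ) : ℚ) := by
          rw [← hz]
          push_cast
          refine Finset.sum_le_sum fun a _ => ?_
          have h5 := mul_le_mul_of_nonneg_right (h2 a).2.le (Nat.cast_nonneg (α := ℚ) (w a i))
          rw [one_mul] at h5
          exact h5
        exact_mod_cast this
    · have hq : ∑ a, b a = ((∑ a, b a).num : ℚ) / (e : ℚ) := by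
        conv_lhs => rw [← Rat.num_div_den (∑ a, b a)]
        rw [h4]
      refine ⟨(∑ a, b a).num, ⟨?_, ?_⟩, hq.symm⟩
      · exact Rat.num_nonneg.2 hsum.1
      · have h5 : ((∑ a, b a).num : ℚ) = e * ∑ a, b a := by
          conv_rhs => rw [hq]
          field_simp
        have h6 : ((∑ a, b a).num : ℚ) ≤ ((e : ℤ) * Fintype.card κ : ℤ) := by
          rw [h5]
          push_cast
          exact mul_le_mul_of_nonneg_left hsum.2 he'.le
        exact_mod_cast h6
  · intro b hb b' hb' hbb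
    have e1 : ∀ i, ∑ a, b a * w a i = ∑ a, b' a * w a i := fun i =>
      congrFun (congrArg Prod.fst hbb) i
    have e2 : ∑ a, b a = ∑ a, b' a := congrArg Prod.snd hbb
    have h2 := h1 ι κ w h k (Sum.elim (fun a => b a - b' a) fun _ => 0) hh (by
      rintro (a | j) hv
      · rw [← hk] at hv
        have h3 : b a = 0 := by
          by_contra hcon
          exact hv (hb.2.2 a hcon)
        have h4 : b' a = 0 := by
          by_contra hcon
          exact hv (hb'.2.2 a hcon)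
        rw [Sum.elim_inl, h3, h4, sub_zero]
      · rfl) (by
      intro v
      rw [Fintype.sum_sum_type]
      simp only [Sum.elim_inl, Sum.elim_inr, zero_mul, Finset.sum_const_zero, add_zero]
      rcases v with i | u
      · simp only [hat, Sum.elim_inl, sub_mul, Finset.sum_sub_distrib]
        rw [e1 i, sub_self]
      · simp only [hat, Sum.elim_inl, Sum.elim_inr, mul_one, Finset.sum_sub_distrib]
        rw [e2, sub_self])
    funext a
    have h3 := h2 (Sum.inl a)
    rw [Sum.elim_inl] at h3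
    exact sub_eq_zero.1 h3

theorem BP_finite (h1 : Stmt_TRI1) {w : κ → ι → ℕ} {h : κ → ℝ} (hh : LinearIndependent ℚ h)
    {e : ℕ} (he : 1 ≤ e) : (BP w h e).Finite := by
  have h2 : (⋃ Δ ∈ (maxCells w h : Set (Finset (κ ⊕ ι))), SS w Δ e ×ˢ SS w Δ 1).Finite := by
    refine Set.Finite.biUnion (Finset.finite_toSet _) ?_
    intro Δ hΔ
    exact (SS_finite h1 hh hΔ he).prod (SS_finite h1 hh hΔ le_rfl)
  refine h2.subset ?_
  rintro b ⟨⟨b1, b2⟩, ⟨b3, b4⟩, Δ, hΔ, b5⟩
  rw [Set.mem_iUnion₂]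
  exact ⟨Δ, hΔ, ⟨b1, b2, fun a ha => b5 a (Or.inl ha)⟩, ⟨b3, b4, fun a ha => b5 a (Or.inr ha)⟩⟩

theorem mem_inl {C : Finset κ} {a : κ} : (Sum.inl a : κ ⊕ ι) ∈ inl C ↔ a ∈ C := by
  unfold inl
  rw [Finset.mem_map]
  constructor
  · rintro ⟨b, hb, hba⟩
    have : b = a := Sum.inl_injective hba
    rw [← this]
    exact hb
  · intro ha
    exact ⟨a, ha, rfl⟩

open Classical in
/-- the number of pairs in a cell -/
theorem mu_eq {w : κ → ι → ℕ} {h : κ → ℝ} {e : ℕ} (hf : (BP w h e).Finite) {C : Finset κ}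
    {Δ : Finset (κ ⊕ ι)} (hΔ : Δ ∈ maxCells w h) (hC : inl C ⊆ Δ) :
    mu w e C = (hf.toFinset.filter fun b => spp b ⊆ C).card := by
  unfold mu
  rw [← Nat.card_prod, ← Fintype.card_coe, ← Nat.card_eq_fintype_card]
  have key : ∀ b : (κ → ℚ) × (κ → ℚ), b ∈ hf.toFinset.filter (fun b => spp b ⊆ C) ↔
      (b.1 ∈ Bx w C ∧ (∑ a, b.1 a).den = e) ∧ (b.2 ∈ Bx w C ∧ (∑ a, b.2 a).den = 1) := by
    intro b
    rw [Finset.mem_filter, Set.Finite.mem_toFinset]
    have hs : spp b ⊆ C ↔ ∀ a, a ∉ C → b.1 a = 0 ∧ b.2 a = 0 := by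
      constructor
      · intro hs a ha
        by_contra hcon
        apply ha
        apply hs
        unfold spp
        rw [Finset.mem_filter]
        refine ⟨Finset.mem_univ a, ?_⟩
        by_contra hcon2
        push Not at hcon2
        exact hcon hcon2
      · intro hs a ha
        unfold spp at ha
        rw [Finset.mem_filter] at ha
        by_contra hcon
        obtain ⟨h2, h3⟩ := hs a hcon
        rcases ha.2 with h4 | h4
        · exact h4 h2
        · exact h4 h3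
    rw [hs]
    constructor
    · rintro ⟨⟨⟨⟨a1, _, a2⟩, a3⟩, ⟨⟨a4, _, a5⟩, a6⟩, _⟩, a7⟩
      exact ⟨⟨⟨a1, fun a ha => (a7 a ha).1, a2⟩, a3⟩, ⟨⟨a4, fun a ha => (a7 a ha).2, a5⟩, a6⟩⟩
    · rintro ⟨⟨⟨a1, a2, a3⟩, a4⟩, ⟨⟨a5, a6, a7⟩, a8⟩⟩
      refine ⟨⟨⟨⟨a1, fun a ha => absurd (Finset.mem_univ a) ha, a3⟩, a4⟩,
        ⟨⟨a5, fun a ha => absurd (Finset.mem_univ a) ha, a7⟩, a8⟩, Δ, hΔ, ?_⟩,
        fun a ha => ⟨a2 a ha, a6 a ha⟩⟩
      intro a ha
      apply hC
      rw [mem_inl]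
      by_contra hcon
      rcases ha with ha | ha
      · exact ha (a2 a hcon)
      · exact ha (a6 a hcon)
  refine Nat.card_congr ?_
  exact
    { toFun := fun b => ⟨(b.1.1, b.2.1), (key _).2 ⟨b.1.2, b.2.2⟩⟩
      invFun := fun b => (⟨b.1.1, ((key _).1 b.2).1⟩, ⟨b.1.2, ((key _).1 b.2).2⟩)
      left_inv := fun b => rfl
      right_inv := fun b => rfl }

section

variable {F : Type} [Field F] [Algebra ℚ F] {w : κ → ι → ℕ} {h : κ → ℝ} {y : ι ⊕ Unit → F}

theorem Itg_sum (h2 : Stmt_REL) (hh : LinearIndependent ℚ h) (hy : Gen w h y)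
    (σ : Finset (κ ⊕ ι)) {α : Type} (s : Finset α) (c : α → ℚ)
    (g : α → MvPolynomial (κ ⊕ ι) ℚ) :
    Itg w h σ (∑ i ∈ s, C (c i) * g i) y = ∑ i ∈ s, algebraMap ℚ F (c i) * Itg w h σ (g i) y := by
  classical
  induction s using Finset.induction_on with
  | empty =>
    rw [Finset.sum_empty, Finset.sum_empty]
    have := (h2 ι κ w h hh F y hy σ 0 0).2.1 0
    rw [C_0, zero_mul, map_zero, zero_mul] at this
    exact this
  | insert a s ha ih =>
    rw [Finset.sum_insert ha, Finset.sum_insert ha, (h2 ι κ w h hh F y hy σ _ _).1, ih,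
      (h2 ι κ w h hh F y hy σ (g a) 0).2.1]

theorem Itg_prod (h2 : Stmt_REL) (hh : LinearIndependent ℚ h) (hy : Gen w h y)
    (S : Finset κ) (D : Finset κ) : Disjoint S D →
    Itg w h (inl S) (∏ a ∈ D, X (Sum.inl a)) y = Itg w h (inl (S ∪ D)) 1 y := by
  classical
  induction D using Finset.induction_on generalizing S with
  | empty =>
    intro _
    rw [Finset.prod_empty, Finset.union_empty]
  | insert a D ha ih =>
    intro hd
    have haS : a ∉ S := fun hcon =>
      Finset.disjoint_left.1 hd hcon (Finset.mem_insert_self a D)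
    rw [Finset.prod_insert ha, (h2 ι κ w h hh F y hy (inl S) _ 0).2.2.2.1 (Sum.inl a)
      (fun hcon => haS (mem_inl.1 hcon))]
    have e1 : insert (Sum.inl a) (inl S) = (inl (insert a S) : Finset (κ ⊕ ι)) := by
      unfold inl
      rw [Finset.map_insert]
      rfl
    rw [e1, ih (insert a S) ?_]
    · congr 2
      ext x
      simp only [Finset.mem_union, Finset.mem_insert]
      tauto
    · rw [Finset.disjoint_left]
      intro x hx hxD
      rcases Finset.mem_insert.1 hx with rfl | hx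
      · exact ha hxD
      · exact Finset.disjoint_left.1 hd hx (Finset.mem_insert_of_mem hxD)

open Classical in
theorem sum_supersets (h2 : Stmt_REL) (hh : LinearIndependent ℚ h) (hy : Gen w h y)
    (S : Finset κ) :
    ∑ C ∈ (Finset.univ : Finset (Finset κ)).filter (S ⊆ ·), (-1) ^ C.card * Itg w h (inl C) 1 y =
      (-1) ^ S.card * Itg w h (inl S) (∏ a ∈ Sᶜ, (1 - X (Sum.inl a))) y := by
  have e1 : (∏ a ∈ Sᶜ, (1 - X (Sum.inl a)) : MvPolynomial (κ ⊕ ι) ℚ) =
      ∑ D ∈ Sᶜ.powerset, C ((-1) ^ D.card) * ∏ a ∈ D, X (Sum.inl a) := by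
    have e2 : (∏ a ∈ Sᶜ, (1 - X (Sum.inl a)) : MvPolynomial (κ ⊕ ι) ℚ) =
        ∏ a ∈ Sᶜ, (-X (Sum.inl a) + 1) := Finset.prod_congr rfl fun a _ => by ring
    rw [e2, Finset.prod_add]
    refine Finset.sum_congr rfl fun D _ => ?_
    rw [Finset.prod_const_one, mul_one, Finset.prod_neg, C_pow, C_neg, C_1]
  rw [e1, Itg_sum h2 hh hy, Finset.mul_sum]
  refine Finset.sum_nbij' (fun C => C \ S) (fun D => S ∪ D) ?_ ?_ ?_ ?_ ?_
  · intro C _
    rw [Finset.mem_powerset]
    intro a ha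
    rw [Finset.mem_compl]
    exact (Finset.mem_sdiff.1 ha).2
  · intro D _
    rw [Finset.mem_filter]
    exact ⟨Finset.mem_univ _, Finset.subset_union_left⟩
  · intro C hC
    exact Finset.union_sdiff_of_subset (Finset.mem_filter.1 hC).2
  · intro D hD
    rw [Finset.mem_powerset] at hD
    ext a
    rw [Finset.mem_sdiff, Finset.mem_union]
    constructor
    · rintro ⟨h3 | h3, h4⟩
      · exact absurd h3 h4
      · exact h3
    · intro h3
      exact ⟨Or.inr h3, Finset.mem_compl.1 (hD h3)⟩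
  · intro C hC
    have hSC := (Finset.mem_filter.1 hC).2
    have hd : Disjoint S (C \ S) := Finset.disjoint_sdiff
    rw [Itg_prod h2 hh hy S (C \ S) hd, Finset.union_sdiff_of_subset hSC, map_pow, map_neg,
      map_one, ← mul_assoc, ← pow_add]
    congr 2
    rw [Finset.card_sdiff_of_subset hSC]
    have := Finset.card_le_card hSC
    omega

end

end PAIRAux

open PAIRAux in
theorem stmt_PAIR (h1 : Stmt_TRI1) (h2 : Stmt_REL) : Stmt_PAIR := by
  classical
  intro ι κ _ _ _ _ w h e hh he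
  refine ⟨BP_finite h1 hh he, ?_⟩
  intro F _ _ y hy
  set hf := BP_finite h1 hh (w := w) he with hfdef
  have hterm : ∀ C : Finset κ, (-1) ^ C.card * (mu w e C : F) * Itg w h (inl C) 1 y =
      ∑ b ∈ hf.toFinset, if spp b ⊆ C then (-1) ^ C.card * Itg w h (inl C) 1 y else 0 := by
    intro C
    by_cases hC : ∃ Δ ∈ maxCells w h, inl C ⊆ Δ
    · obtain ⟨Δ, hΔ, hCΔ⟩ := hC
      rw [mu_eq hf hΔ hCΔ, ← Finset.sum_filter, Finset.sum_const, nsmul_eq_mul]
      ring
    · have h3 : Itg w h (inl C) 1 y = 0 := by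
        refine (h2 ι κ w h hh F y hy (inl C) 1 0).2.2.2.2.2 ?_
        intro Δ hΔ hcon
        exact hC ⟨Δ, hΔ, hcon⟩
      rw [h3, mul_zero, mul_zero]
      symm
      apply Finset.sum_eq_zero
      intro b _
      split <;> rfl
  unfold Tf
  rw [Finset.sum_congr rfl fun C _ => hterm C, Finset.sum_comm]
  refine Finset.sum_congr rfl fun b _ => ?_
  rw [← Finset.sum_filter]
  exact sum_supersets h2 hh hy (spp b)

end Pool.Agent.Mono.NP
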