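import Pool.Agent.Work.Monodromy.Interface12A

/-!
# POLE: if the values of the functionals vanish then the zeta function has no pole (helper11)
-/

set_option autoImplicit false
set_option linter.unusedSectionVars false

namespace Pool.Agent.Mono.NP

open MvPolynomial

namespace POLEAux

/-! ### Orders of Laurent series -/

abbrev LS : Type := LaurentSeries ℚ

theorem ord_mono {i j : ℤ} {x : LS} (h : i ≤ j) (hx : Ord j x) : Ord i x :=
  fun k hk => hx k (lt_of_lt_of_le hk h)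

theorem ord_add {j : ℤ} {x y : LS} (hx : Ord j x) (hy : Ord j y) : Ord j (x + y) := by
  intro k hk
  rw [HahnSeries.coeff_add, hx k hk, hy k hk, add_zero]

theorem ord_neg {j : ℤ} {x : LS} (hx : Ord j x) : Ord j (-x) := by
  intro k hk
  rw [HahnSeries.coeff_neg, hx k hk, neg_zero]

theorem ord_sub {j : ℤ} {x y : LS} (hx : Ord j x) (hy : Ord j y) : Ord j (x - y) := by
  rw [sub_eq_add_neg]
  exact ord_add hx (ord_neg hy)

theorem ord_zero (j : ℤ) : Ord j (0 : LS) := fun _ _ => HahnSeries.coeff_zero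

theorem ord_sum {j : ℤ} {α : Type} (s : Finset α) (f : α → LS) (h : ∀ a ∈ s, Ord j (f a)) :
    Ord j (∑ a ∈ s, f a) := by
  classical
  induction s using Finset.induction_on with
  | empty => simpa using ord_zero j
  | insert a s ha ih =>
    rw [Finset.sum_insert ha]
    exact ord_add (h a (Finset.mem_insert_self _ _))
      (ih fun b hb => h b (Finset.mem_insert_of_mem hb))

theorem ord_mul {i j : ℤ} {x y : LS} (hx : Ord i x) (hy : Ord j y) : Ord (i + j) (x * y) := by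
  intro k hk
  rw [HahnSeries.coeff_mul]
  apply Finset.sum_eq_zero
  rintro ⟨a, b⟩ hab
  have hab' : a + b = k := by
    simpa using (Finset.mem_antidiagonal.mp hab).2.2
  by_cases ha : a < i
  · rw [hx a ha, zero_mul]
  · have hb : b < j := by omega
    rw [hy b hb, mul_zero]

theorem alg_eq (c : ℚ) : algebraMap ℚ LS c = HahnSeries.C c := by
  have : (algebraMap ℚ LS) = (HahnSeries.C : ℚ →+* HahnSeries ℤ ℚ) := RingHom.ext_rat _ _
  exact congrArg (fun f : ℚ →+* LS => f c) this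

theorem ord_C (c : ℚ) : Ord 0 (HahnSeries.C c : LS) := by
  intro k hk
  rw [HahnSeries.C_apply]
  exact HahnSeries.coeff_single_of_ne (ne_of_lt hk)

theorem ord_alg (c : ℚ) : Ord 0 (algebraMap ℚ LS c) := by
  rw [alg_eq]
  exact ord_C c

theorem ord_one : Ord 0 (1 : LS) := by
  have := ord_C 1
  rwa [map_one] at this

theorem ord_mul0 {j : ℤ} {x y : LS} (hx : Ord 0 x) (hy : Ord j y) : Ord j (x * y) := by
  have := ord_mul hx hy
  rwa [zero_add] at this

theorem ord_pow {j : ℤ} {x : LS} (hx : Ord j x) (n : ℕ) : Ord (n * j) (x ^ n) := by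
  induction n with
  | zero => simpa using ord_one
  | succ n ih =>
    rw [pow_succ]
    exact ord_mono (le_of_eq (by push_cast; ring)) (ord_mul ih hx)

theorem ord_prod {j : ℤ} {α : Type} (s : Finset α) (f : α → LS) (h : ∀ a ∈ s, Ord j (f a)) :
    Ord (s.card * j) (∏ a ∈ s, f a) := by
  classical
  induction s using Finset.induction_on with
  | empty => simpa using ord_one
  | insert a s ha ih =>
    rw [Finset.prod_insert ha, Finset.card_insert_of_notMem ha]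
    exact ord_mono (le_of_eq (by push_cast; ring))
      (ord_mul (h a (Finset.mem_insert_self _ _))
        (ih fun b hb => h b (Finset.mem_insert_of_mem hb)))

theorem ord_inv {x : LS} {i : ℤ} (hx : x.coeff i ≠ 0) : Ord (-i) x⁻¹ := by
  have hx0 : x ≠ 0 := by
    rintro rfl
    exact hx HahnSeries.coeff_zero
  have hinv : x⁻¹ ≠ 0 := inv_ne_zero hx0
  have h1 : x.order ≤ i := HahnSeries.order_le_of_coeff_ne_zero hx
  have h2 : (x * x⁻¹).order = x.order + x⁻¹.order := HahnSeries.order_mul hx0 hinv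
  rw [mul_inv_cancel₀ hx0, HahnSeries.order_one] at h2
  intro k hk
  apply HahnSeries.coeff_eq_zero_of_lt_order
  omega

theorem tau_ne_zero : (tau : LS) ≠ 0 := by
  intro h
  have : (tau : LS).coeff 1 = 1 := by
    rw [tau]
    exact HahnSeries.coeff_single_same 1 1
  rw [h] at this
  exact zero_ne_one this

theorem tau_pow_eq (k : ℕ) : (tau : LS) ^ k = HahnSeries.single (k : ℤ) 1 := by
  rw [tau, HahnSeries.single_pow]
  simp

theorem ord_tau_pow (k : ℕ) : Ord k ((tau : LS) ^ k) := by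
  intro i hi
  rw [tau_pow_eq]
  exact HahnSeries.coeff_single_of_ne (ne_of_lt hi)

theorem coeff_C_mul_tau_pow (c : ℚ) (k : ℕ) (i : ℤ) :
    (HahnSeries.C c * (tau : LS) ^ k).coeff i = if i = k then c else 0 := by
  rw [tau_pow_eq, HahnSeries.C_mul_eq_smul, HahnSeries.coeff_smul]
  by_cases h : i = k
  · subst h
    rw [if_pos rfl, HahnSeries.coeff_single_same, smul_eq_mul, mul_one]
  · rw [if_neg h, HahnSeries.coeff_single_of_ne h, smul_zero]

/-! ### Differences of products -/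

theorem ord_prod0 {α : Type} (s : Finset α) (f : α → LS) (h : ∀ a ∈ s, Ord 0 (f a)) :
    Ord 0 (∏ a ∈ s, f a) := by
  have := ord_prod s f h
  rwa [mul_zero] at this

theorem ord_prod_sub {K : ℤ} {α : Type} (s : Finset α) (f g : α → LS)
    (hf : ∀ a ∈ s, Ord 0 (f a)) (hg : ∀ a ∈ s, Ord 0 (g a)) (h : ∀ a ∈ s, Ord K (f a - g a)) :
    Ord K (∏ a ∈ s, f a - ∏ a ∈ s, g a) := by
  classical
  induction s using Finset.induction_on with
  | empty => simpa using ord_zero K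
  | insert a s ha ih =>
    rw [Finset.prod_insert ha, Finset.prod_insert ha]
    have e : f a * ∏ b ∈ s, f b - g a * ∏ b ∈ s, g b =
        f a * (∏ b ∈ s, f b - ∏ b ∈ s, g b) + (∏ b ∈ s, g b) * (f a - g a) := by ring
    rw [e]
    apply ord_add
    · exact ord_mul0 (hf a (Finset.mem_insert_self _ _))
        (ih (fun b hb => hf b (Finset.mem_insert_of_mem hb))
          (fun b hb => hg b (Finset.mem_insert_of_mem hb))
          (fun b hb => h b (Finset.mem_insert_of_mem hb)))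
    · exact ord_mul0 (ord_prod0 _ _ fun b hb => hg b (Finset.mem_insert_of_mem hb))
        (h a (Finset.mem_insert_self _ _))

/-- the truncated geometric series -/
noncomputable def tr {α : Type} (K : ℕ) (c : ℚ) (v : α) : MvPolynomial α ℚ :=
  ∑ j ∈ Finset.range K, C ((-1) ^ j / c ^ (j + 1)) * X v ^ j

theorem aeval_tr {α : Type} (K : ℕ) {c : ℚ} (hc : c ≠ 0) (v : α) (z : α → LS) :
    aeval z (tr K c v) * (algebraMap ℚ LS c + z v) =
      1 - (-z v) ^ K * algebraMap ℚ LS (1 / c ^ K) := by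
  have hcc : algebraMap ℚ LS c ≠ 0 := (map_ne_zero _).mpr hc
  rw [tr, map_sum, Finset.sum_mul]
  induction K with
  | zero => simp
  | succ K ih =>
    rw [Finset.sum_range_succ, ih, map_mul, map_pow, MvPolynomial.aeval_C, MvPolynomial.aeval_X]
    have e1 : algebraMap ℚ LS ((-1) ^ K / c ^ (K + 1)) =
        (-1) ^ K * algebraMap ℚ LS (1 / c ^ (K + 1)) := by
      rw [← mul_one_div, map_mul, map_pow, map_neg, map_one]
    have e2 : algebraMap ℚ LS (1 / c ^ K) =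
        algebraMap ℚ LS (1 / c ^ (K + 1)) * algebraMap ℚ LS c := by
      rw [← map_mul]
      have e3 : 1 / c ^ K = 1 / c ^ (K + 1) * c := by
        rw [pow_succ]
        field_simp
      rw [e3]
    rw [e1, e2, neg_pow (z v) K, neg_pow (z v) (K + 1), pow_succ (-1 : LS) K]
    ring

theorem ord_aeval {α : Type} (z : α → LS) (hz : ∀ v, Ord 0 (z v)) (g : MvPolynomial α ℚ) :
    Ord 0 (aeval z g) := by
  rw [MvPolynomial.aeval_def, MvPolynomial.eval₂_eq]
  apply ord_sum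
  intro d _
  apply ord_mul0 (ord_alg _)
  apply ord_prod0
  intro i _
  have := ord_pow (hz i) (d i)
  rwa [mul_zero] at this

theorem ord_tr_sub {α : Type} (K : ℕ) {c : ℚ} (hc : c ≠ 0) (v : α) (z : α → LS)
    (hz : Ord 1 (z v)) :
    Ord 0 (algebraMap ℚ LS c + z v)⁻¹ ∧
    Ord K ((algebraMap ℚ LS c + z v)⁻¹ - aeval z (tr K c v)) := by
  have h0 : (algebraMap ℚ LS c + z v).coeff 0 ≠ 0 := by
    rw [HahnSeries.coeff_add, hz 0 one_pos, add_zero, alg_eq, HahnSeries.C_apply,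
      HahnSeries.coeff_single_same]
    exact hc
  have hne : algebraMap ℚ LS c + z v ≠ 0 := by
    intro h
    rw [h] at h0
    exact h0 HahnSeries.coeff_zero
  have h1 : Ord 0 (algebraMap ℚ LS c + z v)⁻¹ := by
    have := ord_inv h0
    rwa [neg_zero] at this
  refine ⟨h1, ?_⟩
  have e : (algebraMap ℚ LS c + z v)⁻¹ - aeval z (tr K c v) =
      ((algebraMap ℚ LS c + z v)⁻¹ * algebraMap ℚ LS (1 / c ^ K)) * (-z v) ^ K := by
    have h2 := aeval_tr K hc v z
    rw [sub_eq_iff_eq_add, inv_eq_one_div, div_eq_iff hne, add_mul, h2]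
    field_simp
    ring
  rw [e]
  have h3 := ord_pow (ord_neg hz) K
  rw [mul_one] at h3
  exact ord_mul0 (ord_mul0 h1 (ord_alg _)) h3

/-! ### The curve -/

section main

variable {ι κ : Type} [Fintype ι] [DecidableEq ι] [Fintype κ] [DecidableEq κ]
  (w : κ → ι → ℕ) (h : κ → ℝ) (p : ι → ℚ) (s₀ : ℚ) (N : ℕ)

/-- the moving part of the curve -/
noncomputable def eta : ι ⊕ Unit → LS := fun e => tau * yv p (N - 1) e

theorem crv_eq (hN : 1 ≤ N) (e : ι ⊕ Unit) :
    crv p s₀ N e = algebraMap ℚ LS (q0 ι s₀ e) + eta p N e := by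
  rcases e with i | u
  · simp only [crv, q0, eta, yv, Sum.elim_inl, map_one]
    obtain ⟨k, rfl⟩ : ∃ k, N = k + 1 := ⟨N - 1, by omega⟩
    rw [Nat.add_sub_cancel, pow_succ]
    ring
  · simp only [crv, q0, eta, yv, Sum.elim_inr, map_neg, alg_eq]
    ring

theorem cf_crv (hN : 1 ≤ N) (Δ : Finset (κ ⊕ ι)) (v : κ ⊕ ι) :
    cf w Δ (crv p s₀ N) v = algebraMap ℚ LS (cf w Δ (q0 ι s₀) v) + cf w Δ (eta p N) v := by
  unfold cf
  split
  · unfold ev
    rw [map_sum, ← Finset.sum_add_distrib]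
    apply Finset.sum_congr rfl
    intro e _
    rw [crv_eq p s₀ N hN, map_mul, mul_add]
    rfl
  · rw [map_zero, add_zero]

theorem cf_eta (Δ : Finset (κ ⊕ ι)) (v : κ ⊕ ι) :
    cf w Δ (eta p N) v = tau * cf w Δ (yv p (N - 1)) v := by
  unfold cf
  split
  · unfold ev
    rw [Finset.mul_sum]
    apply Finset.sum_congr rfl
    intro e _
    rw [eta]
    ring
  · rw [mul_zero]

theorem cf_yv (k : ℕ) {Δ : Finset (κ ⊕ ι)} {v : κ ⊕ ι} (hv : v ∈ Δ) :
    cf w Δ (yv p k) v = HahnSeries.C (∑ i, dual w Δ v (Sum.inl i) * p i) * tau ^ k -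
      HahnSeries.C (dual w Δ v (Sum.inr ())) := by
  unfold cf
  rw [if_pos hv]
  unfold ev
  rw [Fintype.sum_sum_type, map_sum, Finset.sum_mul, sub_eq_add_neg]
  congr 1
  · apply Finset.sum_congr rfl
    intro i _
    rw [yv, Sum.elim_inl, alg_eq, map_mul, mul_assoc]
  · rw [Fintype.sum_unique]
    rw [yv, Sum.elim_inr, alg_eq, mul_neg, mul_one]

theorem ord_cf_yv (k : ℕ) (Δ : Finset (κ ⊕ ι)) (v : κ ⊕ ι) : Ord 0 (cf w Δ (yv p k) v) := by
  by_cases hv : v ∈ Δ
  · rw [cf_yv w p k hv]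
    apply ord_sub _ (ord_C _)
    apply ord_mul0 (ord_C _)
    exact ord_mono (Int.natCast_nonneg k) (ord_tau_pow k)
  · rw [cf, if_neg hv]
    exact ord_zero 0

theorem ord_cf_eta (Δ : Finset (κ ⊕ ι)) (v : κ ⊕ ι) : Ord 1 (cf w Δ (eta p N) v) := by
  rw [cf_eta]
  have h1 : Ord 1 (tau : LS) := by simpa using ord_tau_pow 1
  have := ord_mul h1 (ord_cf_yv w p (N - 1) Δ v)
  rwa [add_zero] at this

theorem ord_cf_yv_inv (k : ℕ) (hk : 1 ≤ k) (hG : Gen w h (yv p k)) {Δ : Finset (κ ⊕ ι)}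
    (hΔ : Δ ∈ maxCells w h) {v : κ ⊕ ι} (hv : v ∈ Δ) :
    Ord (-(k : ℤ)) (cf w Δ (yv p k) v)⁻¹ := by
  have hne := hG Δ hΔ v hv
  rw [cf_yv w p k hv] at hne ⊢
  set a := ∑ i, dual w Δ v (Sum.inl i) * p i
  set b := dual w Δ v (Sum.inr ())
  by_cases hb : b = 0
  · rw [hb, map_zero, sub_zero] at hne ⊢
    apply ord_inv
    rw [coeff_C_mul_tau_pow, if_pos rfl]
    intro ha
    rw [ha, map_zero, zero_mul] at hne
    exact hne rfl
  · have h1 : (HahnSeries.C a * (tau : LS) ^ k - HahnSeries.C b).coeff 0 ≠ 0 := by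
      rw [HahnSeries.coeff_sub, coeff_C_mul_tau_pow, if_neg (by omega), zero_sub,
        HahnSeries.C_apply, HahnSeries.coeff_single_same]
      exact neg_ne_zero.mpr hb
    have h2 := ord_inv h1
    exact ord_mono (by omega) h2

theorem ord_cf_eta_inv (hN : 2 ≤ N) (hG : Gen w h (yv p (N - 1))) {Δ : Finset (κ ⊕ ι)}
    (hΔ : Δ ∈ maxCells w h) {v : κ ⊕ ι} (hv : v ∈ Δ) :
    Ord (-(N : ℤ)) (cf w Δ (eta p N) v)⁻¹ ∧ cf w Δ (eta p N) v ≠ 0 := by
  rw [cf_eta]
  constructor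
  · rw [mul_inv]
    have h1 : Ord (-1) (tau : LS)⁻¹ := by
      apply ord_inv
      rw [tau, HahnSeries.coeff_single_same]
      exact one_ne_zero
    have h2 := ord_mul h1 (ord_cf_yv_inv w h p (N - 1) (by omega) hG hΔ hv)
    exact ord_mono (by omega) h2
  · exact mul_ne_zero tau_ne_zero (hG Δ hΔ v hv)

/-! ### The terms -/

/-- the term of `Δ` -/
noncomputable def term (σ : Finset (κ ⊕ ι)) (g : MvPolynomial (κ ⊕ ι) ℚ) (y : ι ⊕ Unit → LS)
    (Δ : Finset (κ ⊕ ι)) : LS :=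
  aeval (cf w Δ y) g / (algebraMap ℚ LS (adet w Δ) * ∏ v ∈ Δ \ σ, cf w Δ y v)

open Classical in
theorem Itg_eq (σ : Finset (κ ⊕ ι)) (g : MvPolynomial (κ ⊕ ι) ℚ) (y : ι ⊕ Unit → LS) :
    Itg w h σ g y = ∑ Δ ∈ (maxCells w h).filter (σ ⊆ ·), term w σ g y Δ := by
  unfold Itg term
  apply Finset.sum_congr
  · ext Δ
    simp only [Finset.mem_filter]
  · intro Δ _
    rfl

/-- the integrand for a pair -/
noncomputable def gb (S : Finset κ) : MvPolynomial (κ ⊕ ι) ℚ := ∏ a ∈ Sᶜ, (1 - X (Sum.inl a))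

/-- the integrand after the expansion at `c` -/
noncomputable def Gc (K : ℕ) (S : Finset κ) (c : κ ⊕ ι → ℚ) (M : Finset (κ ⊕ ι)) :
    MvPolynomial (κ ⊕ ι) ℚ :=
  (∏ a ∈ Sᶜ, (C (1 - c (Sum.inl a)) - X (Sum.inl a))) * ∏ v ∈ M \ inl S, tr K (c v) v

theorem term_sub (hN : 2 ≤ N) (hG : Gen w h (yv p (N - 1))) {Δ : Finset (κ ⊕ ι)}
    (hΔ : Δ ∈ maxCells w h) (S : Finset κ) (K : ℕ)
    (hK : N * (Fintype.card ι + 1) ≤ K) :
    Ord 0 (term w (inl S) (gb S) (crv p s₀ N) Δ -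
      term w (MM w s₀ Δ ∪ inl S) (Gc K S (cf w Δ (q0 ι s₀)) (MM w s₀ Δ)) (eta p N) Δ) := by
  classical
  set c := cf w Δ (q0 ι s₀) with hc
  set M := MM w s₀ Δ with hM
  set z := cf w Δ (eta p N) with hz
  have hMΔ : M ⊆ Δ := by
    rw [hM, MM]
    exact Finset.filter_subset _ _
  have hcard : Δ.card = Fintype.card ι + 1 := by
    rw [maxCells, Finset.mem_filter] at hΔ
    exact hΔ.2.1
  have hMc : ∀ v ∈ M, c v ≠ 0 := by
    intro v hv
    rw [hM, MM, Finset.mem_filter] at hv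
    exact hv.2
  have hMc' : ∀ v ∈ Δ, v ∉ M → c v = 0 := by
    intro v hv hv'
    by_contra h0
    apply hv'
    rw [hM, MM, Finset.mem_filter]
    exact ⟨hv, h0⟩
  have hz1 : ∀ v, Ord 1 (z v) := fun v => ord_cf_eta w p N Δ v
  have hz0 : ∀ v, Ord 0 (z v) := fun v => ord_mono (by omega) (hz1 v)
  have hcrv : ∀ v, cf w Δ (crv p s₀ N) v = algebraMap ℚ LS (c v) + z v :=
    fun v => cf_crv w p s₀ N (by omega) Δ v
  -- numerators
  set A1 : LS := ∏ a ∈ Sᶜ, (1 - (algebraMap ℚ LS (c (Sum.inl a)) + z (Sum.inl a))) with hA1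
  set A2 : LS := ∏ v ∈ M \ inl S, aeval z (tr K (c v) v) with hA2
  set P1 : LS := ∏ v ∈ M \ inl S, (algebraMap ℚ LS (c v) + z v)⁻¹ with hP1
  set P2 : LS := ∏ v ∈ Δ \ (M ∪ inl S), z v with hP2
  have e1 : aeval (cf w Δ (crv p s₀ N)) (gb S : MvPolynomial (κ ⊕ ι) ℚ) = A1 := by
    rw [gb, map_prod, hA1]
    apply Finset.prod_congr rfl
    intro a _
    rw [map_sub, map_one, MvPolynomial.aeval_X, hcrv]
  have e2 : aeval z (Gc K S c M) = A1 * A2 := by
    rw [Gc, map_mul, map_prod, map_prod, hA1, hA2]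
    congr 1
    apply Finset.prod_congr rfl
    intro a _
    rw [map_sub, MvPolynomial.aeval_C, MvPolynomial.aeval_X, map_sub, map_one]
    ring
  have hdis : Disjoint (M \ inl S) (Δ \ (M ∪ inl S)) := by
    rw [Finset.disjoint_left]
    intro v hv hv'
    rw [Finset.mem_sdiff] at hv hv'
    exact hv'.2 (Finset.mem_union_left _ hv.1)
  have hun : Δ \ inl S = (M \ inl S) ∪ (Δ \ (M ∪ inl S)) := by
    ext v
    simp only [Finset.mem_sdiff, Finset.mem_union]
    constructor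
    · rintro ⟨h1, h2⟩
      by_cases h3 : v ∈ M
      · exact Or.inl ⟨h3, h2⟩
      · refine Or.inr ⟨h1, fun h4 => ?_⟩
        rcases h4 with h4 | h4
        · exact h3 h4
        · exact h2 h4
    · rintro (⟨h1, h2⟩ | ⟨h1, h2⟩)
      · exact ⟨hMΔ h1, h2⟩
      · exact ⟨h1, fun h4 => h2 (Or.inr h4)⟩
  have e3 : ∏ v ∈ Δ \ inl S, cf w Δ (crv p s₀ N) v = P1⁻¹ * P2 := by
    rw [hun, Finset.prod_union hdis, hP1, hP2]
    congr 1
    · rw [← Finset.prod_inv_distrib]
      apply Finset.prod_congr rfl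
      intro v _
      rw [hcrv, inv_inv]
    · apply Finset.prod_congr rfl
      intro v hv
      rw [Finset.mem_sdiff] at hv
      rw [hcrv, hMc' v hv.1 (fun h4 => hv.2 (Finset.mem_union_left _ h4)), map_zero, zero_add]
  have e4 : term w (inl S) (gb S) (crv p s₀ N) Δ - term w (M ∪ inl S) (Gc K S c M) (eta p N) Δ =
      (A1 * algebraMap ℚ LS (adet w Δ)⁻¹) * ((P1 - A2) * P2⁻¹) := by
    rw [term, term, e1, e3, ← hz, e2, map_inv₀, ← hP2]
    rw [div_eq_mul_inv, div_eq_mul_inv, mul_inv, mul_inv, mul_inv, inv_inv]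
    ring
  rw [e4]
  have o1 : Ord 0 (A1 * algebraMap ℚ LS (adet w Δ)⁻¹) := by
    apply ord_mul0 _ (ord_alg _)
    rw [hA1]
    apply ord_prod0
    intro a _
    exact ord_sub ord_one (ord_add (ord_alg _) (hz0 _))
  have o2 : Ord K (P1 - A2) := by
    rw [hP1, hA2]
    apply ord_prod_sub
    · intro v hv
      exact (ord_tr_sub K (hMc v (Finset.mem_sdiff.mp hv).1) v z (hz1 v)).1
    · intro v hv
      exact ord_aeval z hz0 _
    · intro v hv
      exact (ord_tr_sub K (hMc v (Finset.mem_sdiff.mp hv).1) v z (hz1 v)).2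
  have o3 : Ord (-(N * (Fintype.card ι + 1) : ℕ) : ℤ) P2⁻¹ := by
    rw [hP2, ← Finset.prod_inv_distrib]
    have h5 := ord_prod (Δ \ (M ∪ inl S)) (fun v => (z v)⁻¹) (j := -(N : ℤ)) (by
      intro v hv
      exact (ord_cf_eta_inv w h p N hN hG hΔ (Finset.mem_sdiff.mp hv).1).1)
    refine ord_mono ?_ h5
    have h6 : (Δ \ (M ∪ inl S)).card ≤ Fintype.card ι + 1 := by
      rw [← hcard]
      exact Finset.card_le_card Finset.sdiff_subset
    push_cast
    have h7 : ((Δ \ (M ∪ inl S)).card : ℤ) ≤ (Fintype.card ι : ℤ) + 1 := by exact_mod_cast h6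
    nlinarith [Int.natCast_nonneg N]
  have o4 := ord_mul o2 o3
  have o5 : Ord 0 ((P1 - A2) * P2⁻¹) := by
    refine ord_mono ?_ o4
    have : ((N * (Fintype.card ι + 1) : ℕ) : ℤ) ≤ K := by exact_mod_cast hK
    linarith
  exact ord_mul0 o1 o5

theorem Itg_sum {α : Type} (s : Finset α) (g : α → MvPolynomial (κ ⊕ ι) ℚ)
    (σ : Finset (κ ⊕ ι)) (y : ι ⊕ Unit → LS) :
    Itg w h σ (∑ i ∈ s, g i) y = ∑ i ∈ s, Itg w h σ (g i) y := by
  classical
  rw [Itg_eq]
  have : ∀ i ∈ s, Itg w h σ (g i) y =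
      ∑ Δ ∈ (maxCells w h).filter (σ ⊆ ·), term w σ (g i) y Δ := fun i _ => Itg_eq w h σ (g i) y
  rw [Finset.sum_congr rfl this, Finset.sum_comm]
  apply Finset.sum_congr rfl
  intro Δ _
  simp only [term]
  rw [map_sum, Finset.sum_div]

theorem ord_hom (hREL : Stmt_REL) (hLIM : Stmt_LIM) [Nonempty κ] (hlin : LinearIndependent ℚ h)
    (hGp : Gp w h p) (hG : ∀ j : ℕ, 1 ≤ j → Gen w h (yv p j)) (hN : Fintype.card ι + 3 ≤ N)
    (σ : Finset (κ ⊕ ι)) (hσ : Good w σ) (g : MvPolynomial (κ ⊕ ι) ℚ) (D : ℕ)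
    (hg : g.IsHomogeneous D) (hL : D + σ.card < Fintype.card ι + 1 → Lf w h p σ g = 0) :
    Ord 0 (Itg w h σ g (eta p N)) := by
  have h1 := (hREL ι κ w h hlin LS (yv p (N - 1)) (hG (N - 1) (by omega)) σ g g).2.2.2.2.1
    D tau hg tau_ne_zero
  have h2 := hLIM ι κ w h p hlin hGp hG σ g hσ (N - 1) (by omega)
  set I := Itg w h σ g (yv p (N - 1)) with hI
  set n := Fintype.card ι with hn
  have ht : (tau : LS) ^ (n + 1) ≠ 0 := pow_ne_zero _ tau_ne_zero
  have h3 : Itg w h σ g (eta p N) = I * (tau ^ (D + σ.card)) * ((tau : LS) ^ (n + 1))⁻¹ := by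
    have h4 : Itg w h σ g (eta p N) * tau ^ (n + 1) = tau ^ (D + σ.card) * I := h1
    rw [eq_mul_inv_iff_mul_eq₀ ht, h4, mul_comm]
  have h5 : Ord (-((n + 1 : ℕ) : ℤ)) ((tau : LS) ^ (n + 1))⁻¹ := by
    apply ord_inv
    rw [tau_pow_eq, HahnSeries.coeff_single_same]
    exact one_ne_zero
  rw [h3]
  by_cases hc : D + σ.card < n + 1
  · rw [hL hc, map_zero, sub_zero] at h2
    have h6 := ord_mul (ord_mul h2 (ord_tau_pow (D + σ.card))) h5
    refine ord_mono ?_ h6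
    push_cast
    omega
  · have h7 : Ord 0 I := by
      have : I = (I - HahnSeries.C (Lf w h p σ g)) + HahnSeries.C (Lf w h p σ g) := by ring
      rw [this]
      exact ord_add (ord_mono (by omega) h2) (ord_C _)
    have h6 := ord_mul (ord_mul h7 (ord_tau_pow (D + σ.card))) h5
    refine ord_mono ?_ h6
    push_cast
    omega

/-- the group of a cell has no pole -/
theorem ord_group (hREL : Stmt_REL) (hLIM : Stmt_LIM) [Nonempty κ]
    (hlin : LinearIndependent ℚ h)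
    (hGp : Gp w h p) (hG : ∀ j : ℕ, 1 ≤ j → Gen w h (yv p j)) (hN : Fintype.card ι + 3 ≤ N)
    (b : (κ → ℚ) × (κ → ℚ)) (Δ : Finset (κ ⊕ ι)) (hgood : Good w (BB w s₀ Δ b))
    (hL : ∀ (g : MvPolynomial (κ ⊕ ι) ℚ) (d : ℕ), g.IsHomogeneous d →
        (QQ w s₀ Δ b).card + d + (BB w s₀ Δ b).card < Fintype.card ι + 1 →
        Lf w h p (BB w s₀ Δ b) (xprod (QQ w s₀ Δ b) * g) = 0) (K : ℕ) :
    Ord 0 (Itg w h (BB w s₀ Δ b) (Gc K (spp b) (cf w Δ (q0 ι s₀)) (MM w s₀ Δ)) (eta p N)) := by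
  classical
  set Q := QQ w s₀ Δ b with hQ
  set c := cf w Δ (q0 ι s₀) with hc
  set M := MM w s₀ Δ with hM
  have hQS : Q ⊆ (spp b)ᶜ := by
    intro a ha
    rw [hQ, QQ, Finset.mem_filter] at ha
    rw [Finset.mem_compl]
    exact ha.2.2.1
  have hQc : ∀ a ∈ Q, c (Sum.inl a) = 1 := by
    intro a ha
    rw [hQ, QQ, Finset.mem_filter] at ha
    exact ha.2.2.2
  obtain ⟨G', hG'⟩ : ∃ G' : MvPolynomial (κ ⊕ ι) ℚ, Gc K (spp b) c M = xprod Q * G' := by
    refine ⟨(-1) ^ Q.card * (∏ a ∈ (spp b)ᶜ \ Q, (C (1 - c (Sum.inl a)) - X (Sum.inl a))) *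
      ∏ v ∈ M \ inl (spp b), tr K (c v) v, ?_⟩
    rw [Gc, ← Finset.prod_sdiff hQS]
    have : ∏ a ∈ Q, (C (1 - c (Sum.inl a)) - X (Sum.inl a) : MvPolynomial (κ ⊕ ι) ℚ) =
        (-1) ^ Q.card * xprod Q := by
      rw [xprod, ← Finset.prod_const, ← Finset.prod_mul_distrib]
      apply Finset.prod_congr rfl
      intro a ha
      rw [hQc a ha, sub_self, C_0]
      ring
    rw [this]
    ring
  rw [hG']
  have hsum : xprod Q * G' =
      ∑ d ∈ Finset.range (G'.totalDegree + 1), xprod Q * homogeneousComponent d G' := by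
    rw [← Finset.mul_sum, sum_homogeneousComponent]
  rw [hsum, Itg_sum]
  apply ord_sum
  intro d _
  have hx : (xprod Q : MvPolynomial (κ ⊕ ι) ℚ).IsHomogeneous Q.card := by
    rw [xprod]
    have := IsHomogeneous.prod Q (fun a => (X (Sum.inl a) : MvPolynomial (κ ⊕ ι) ℚ))
      (fun _ => 1) (fun a _ => isHomogeneous_X ℚ _)
    simpa using this
  apply ord_hom w h p N hREL hLIM hlin hGp hG hN _ hgood _ (Q.card + d)
    (hx.mul (homogeneousComponent_isHomogeneous d G'))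
  intro hlt
  exact hL _ d (homogeneousComponent_isHomogeneous d G') hlt

end main

end POLEAux

open POLEAux in
open Classical in
theorem stmt_POLE (hREL : Stmt_REL) (hLIM : Stmt_LIM) (hPAIR : Stmt_PAIR) (hQC : Stmt_QC) :
    Stmt_POLE := by
  intro ι κ _ _ _ _ _ w h p s₀ e hlin he hGp hG hGc hyp N hN
  obtain ⟨hf, hT⟩ := hPAIR ι κ w h e hlin he
  rw [hT (LaurentSeries ℚ) (crv p s₀ N) (hGc N (by omega))]
  apply ord_sum
  intro b hb
  rw [Set.Finite.mem_toFinset] at hb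
  have hsign : Ord 0 ((-1 : LaurentSeries ℚ) ^ (spp b).card) := by
    have := ord_pow (ord_neg ord_one) (spp b).card
    rwa [mul_zero] at this
  apply ord_mul0 hsign
  change Ord 0 (Itg w h (inl (spp b)) (gb (spp b)) (crv p s₀ N))
  rw [Itg_eq]
  set T := (maxCells w h).filter ((inl (spp b) : Finset (κ ⊕ ι)) ⊆ ·) with hTdef
  rw [← Finset.sum_fiberwise_of_maps_to (t := T.image (MM w s₀)) (g := MM w s₀)
    (fun x hx => Finset.mem_image_of_mem _ hx)]
  apply ord_sum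
  intro M hM
  obtain ⟨Δ0, hΔ0, rfl⟩ := Finset.mem_image.mp hM
  rw [hTdef, Finset.mem_filter] at hΔ0
  have hset : T.filter (fun Δ => MM w s₀ Δ = MM w s₀ Δ0) =
      (maxCells w h).filter (BB w s₀ Δ0 b ⊆ ·) := by
    ext Δ
    rw [Finset.mem_filter, hTdef, Finset.mem_filter, Finset.mem_filter]
    constructor
    · rintro ⟨⟨h1, h2⟩, h3⟩
      refine ⟨h1, ?_⟩
      rw [BB, ← h3]
      apply Finset.union_subset _ h2
      rw [MM]
      exact Finset.filter_subset _ _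
    · rintro ⟨h1, h2⟩
      rw [BB] at h2
      exact ⟨⟨h1, (Finset.union_subset_iff.mp h2).2⟩,
        (hQC ι κ w h s₀ hlin Δ0 hΔ0.1 Δ h1 (Finset.union_subset_iff.mp h2).1).1⟩
  rw [hset]
  set K := N * (Fintype.card ι + 1) with hK
  obtain ⟨hgood, hLf⟩ := hyp b hb Δ0 hΔ0.1 hΔ0.2
  have hgr := ord_group w h p s₀ N hREL hLIM hlin hGp hG hN b Δ0 hgood hLf K
  rw [Itg_eq] at hgr
  have hsplit : ∑ Δ ∈ (maxCells w h).filter (BB w s₀ Δ0 b ⊆ ·),
      term w (inl (spp b)) (gb (spp b)) (crv p s₀ N) Δ =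
      ∑ Δ ∈ (maxCells w h).filter (BB w s₀ Δ0 b ⊆ ·),
        (term w (inl (spp b)) (gb (spp b)) (crv p s₀ N) Δ -
          term w (BB w s₀ Δ0 b) (Gc K (spp b) (cf w Δ0 (q0 ι s₀)) (MM w s₀ Δ0)) (eta p N) Δ) +
      ∑ Δ ∈ (maxCells w h).filter (BB w s₀ Δ0 b ⊆ ·),
        term w (BB w s₀ Δ0 b) (Gc K (spp b) (cf w Δ0 (q0 ι s₀)) (MM w s₀ Δ0)) (eta p N) Δ := by
    rw [← Finset.sum_add_distrib]
    apply Finset.sum_congr rfl
    intro Δ _
    ring
  rw [hsplit]
  apply ord_add _ hgr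
  apply ord_sum
  intro Δ hΔ
  rw [Finset.mem_filter] at hΔ
  obtain ⟨hΔ1, hΔ2⟩ := hΔ
  have hq := hQC ι κ w h s₀ hlin Δ0 hΔ0.1 Δ hΔ1 (by
    rw [BB] at hΔ2
    exact (Finset.union_subset_iff.mp hΔ2).1)
  have hts := term_sub w h p s₀ N (by omega) (hG (N - 1) (by omega)) hΔ1 (spp b) K le_rfl
  rw [hq.1, hq.2] at hts
  exact hts

end Pool.Agent.Mono.NP

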