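import Pool.Agent.Work.Monodromy.Interface12C

/-!
# Phase 12, block PYRC: simplices and box points of a pyramid (helper30)
-/

set_option autoImplicit false
set_option linter.unusedSectionVars false

namespace Pool.Agent.Mono.NP

open Finset

namespace PYRCAux

variable {ι κ : Type} [Fintype ι] [DecidableEq ι] [Fintype κ] [DecidableEq κ]

/-- the embedding of the vectors of the base -/
def T (ι : Type) : (ι ⊕ Unit → ℚ) →ₗ[ℚ] ((ι ⊕ Unit) ⊕ Unit → ℚ) where
  toFun x := Sum.elim (Sum.elim (fun i => x (Sum.inl i)) fun _ => 0) fun _ => x (Sum.inr ())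
  map_add' x y := by
    funext e
    rcases e with (i | u) | u <;> simp
  map_smul' c x := by
    funext e
    rcases e with (i | u) | u <;> simp

theorem T_inj : Function.Injective (T ι) := by
  intro x y hxy
  funext e
  rcases e with i | u
  · exact congrFun hxy (Sum.inl (Sum.inl i))
  · exact congrFun hxy (Sum.inr ())

theorem hat_inl (w : κ → ι → ℕ) (d : ℕ) (a : κ) :
    hat (pyr w d) (Sum.inl (Sum.inl a)) = T ι (hat w (Sum.inl a)) := by
  funext e
  rcases e with (i | u) | u <;> simp [hat, pyr, T]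

theorem hat_apex (w : κ → ι → ℕ) (d : ℕ) :
    hat (pyr w d) (Sum.inl (Sum.inr ())) (Sum.inl (Sum.inr ())) = d := by
  simp [hat, pyr]

/-- the set of the pyramid -/
def pF (F : Finset κ) : Finset (κ ⊕ Unit) := F.map Function.Embedding.inl ∪ {Sum.inr ()}

theorem mem_pF_inl {F : Finset κ} {a : κ} : (Sum.inl a : κ ⊕ Unit) ∈ pF F ↔ a ∈ F := by
  simp [pF]

theorem mem_pF_inr {F : Finset κ} : (Sum.inr () : κ ⊕ Unit) ∈ pF F := by
  simp [pF]

theorem card_pF {F : Finset κ} : (pF F).card = F.card + 1 := by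
  unfold pF
  rw [card_union_of_disjoint, card_map, card_singleton]
  simp

theorem pF_inj : Function.Injective (pF : Finset κ → Finset (κ ⊕ Unit)) := by
  intro F G h
  ext a
  rw [← mem_pF_inl, h, mem_pF_inl]

theorem rk_pyr (w : κ → ι → ℕ) (d : ℕ) (hd : 1 ≤ d) (F : Finset κ) :
    rk (pyr w d) (pF F) = rk w F + 1 := by
  classical
  have himg : (fun a => hat (pyr w d) (Sum.inl a)) '' (pF F : Set (κ ⊕ Unit)) =
      (T ι '' ((fun a => hat w (Sum.inl a)) '' (F : Set κ))) ∪
        {hat (pyr w d) (Sum.inl (Sum.inr ()))} := by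
    ext x
    constructor
    · rintro ⟨v, hv, rfl⟩
      rcases v with a | u
      · left
        exact ⟨_, ⟨a, mem_coe.2 (mem_pF_inl.1 (mem_coe.1 hv)), rfl⟩, (hat_inl w d a).symm⟩
      · right; rfl
    · rintro (⟨_, ⟨a, ha, rfl⟩, rfl⟩ | hx)
      · exact ⟨Sum.inl a, mem_coe.2 (mem_pF_inl.2 (mem_coe.1 ha)), hat_inl w d a⟩
      · exact ⟨Sum.inr (), mem_coe.2 mem_pF_inr, hx.symm⟩
  unfold rk
  rw [himg, Submodule.span_union, Submodule.span_image]
  have hne : hat (pyr w d) (Sum.inl (Sum.inr ())) ≠ 0 := by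
    intro h0
    have h1 := congrFun h0 (Sum.inl (Sum.inr ()))
    rw [hat_apex] at h1
    have h2 : (d : ℚ) = 0 := h1
    have h3 : d = 0 := by exact_mod_cast h2
    omega
  have hinf : (Submodule.map (T ι) (Submodule.span ℚ ((fun a => hat w (Sum.inl a)) '' (F : Set κ))))
      ⊓ Submodule.span ℚ {hat (pyr w d) (Sum.inl (Sum.inr ()))} = ⊥ := by
    rw [Submodule.eq_bot_iff]
    rintro x ⟨hx1, hx2⟩
    obtain ⟨y, _, rfl⟩ := hx1
    obtain ⟨c, hc⟩ := Submodule.mem_span_singleton.1 hx2
    have h1 := congrFun hc (Sum.inl (Sum.inr ()))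
    rw [Pi.smul_apply, hat_apex] at h1
    have h2 : (T ι y) (Sum.inl (Sum.inr ())) = 0 := rfl
    rw [h2, smul_eq_mul] at h1
    have h3 : (d : ℚ) ≠ 0 := by
      have : 0 < d := hd
      positivity
    have h4 : c = 0 := (mul_eq_zero.1 h1).resolve_right h3
    rw [← hc, h4, zero_smul]
  have h1 := Submodule.finrank_sup_add_finrank_inf_eq
    (Submodule.map (T ι) (Submodule.span ℚ ((fun a => hat w (Sum.inl a)) '' (F : Set κ))))
    (Submodule.span ℚ {hat (pyr w d) (Sum.inl (Sum.inr ()))})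
  rw [hinf, finrank_bot, add_zero, finrank_span_singleton hne] at h1
  rw [h1, (Submodule.equivMapOfInjective (T ι) T_inj _).finrank_eq]

theorem rk_pos (w : κ → ι → ℕ) {F : Finset κ} (hF : F.Nonempty) : 1 ≤ rk w F := by
  obtain ⟨a, ha⟩ := hF
  unfold rk
  rw [Nat.one_le_iff_ne_zero]
  intro h0
  have h1 := Submodule.finrank_eq_zero.1 h0
  have h2 : hat w (Sum.inl a) ∈
      Submodule.span ℚ ((fun a => hat w (Sum.inl a)) '' (F : Set κ)) :=
    Submodule.subset_span ⟨a, mem_coe.2 ha, rfl⟩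
  rw [h1, Submodule.mem_bot] at h2
  have h3 := congrFun h2 (Sum.inr ())
  simp [hat] at h3

theorem card_le_rk (w : κ → ι → ℕ) {F C : Finset κ} (hC : C ⊆ F)
    (hli : LinearIndependent ℚ fun a : C => hat w (Sum.inl (a : κ))) : C.card ≤ rk w F := by
  classical
  have h1 := finrank_span_eq_card hli
  rw [Fintype.card_coe] at h1
  rw [← h1]
  unfold rk
  refine Submodule.finrank_mono (Submodule.span_mono ?_)
  rintro x ⟨a, rfl⟩
  exact ⟨a, mem_coe.2 (hC a.2), rfl⟩

theorem hv_inl (w : κ → ι → ℕ) (h : κ → ℝ) (h₀ : ℝ) (d : ℕ) (k : ι ⊕ Unit → ℝ) (a : κ) :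
    hval (pyr w d) (Sum.elim h fun _ : Unit => h₀) k (Sum.inl a) =
      hval w h (fun i => k (Sum.inl i)) a := by
  simp [hval, pyr, Fintype.sum_sum_type]

theorem hv_inr (w : κ → ι → ℕ) (h : κ → ℝ) (h₀ : ℝ) (d : ℕ) (k : ι ⊕ Unit → ℝ) :
    hval (pyr w d) (Sum.elim h fun _ : Unit => h₀) k (Sum.inr ()) =
      k (Sum.inr ()) * d + h₀ := by
  simp [hval, pyr, Fintype.sum_sum_type]

/-- linear independence of the vectors of the base -/
theorem li_base (w : κ → ι → ℕ) (d : ℕ) {C : Finset κ} {C' : Finset (κ ⊕ Unit)}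
    (hC : ∀ a ∈ C, Sum.inl a ∈ C')
    (hli : LinearIndependent ℚ fun a : C' => hat (pyr w d) (Sum.inl (a : κ ⊕ Unit))) :
    LinearIndependent ℚ fun a : C => hat w (Sum.inl (a : κ)) := by
  have h1 := hli.comp (fun a : C => (⟨Sum.inl (a : κ), hC a a.2⟩ : C')) (by
    intro a b hab
    have h2 : (Sum.inl (a : κ) : κ ⊕ Unit) = Sum.inl (b : κ) := congrArg Subtype.val hab
    exact Subtype.ext (Sum.inl_injective h2))
  have h2 : ((fun a : C' => hat (pyr w d) (Sum.inl (a : κ ⊕ Unit))) ∘
      fun a : C => (⟨Sum.inl (a : κ), hC a a.2⟩ : C')) =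
      (T ι) ∘ fun a : C => hat w (Sum.inl (a : κ)) := by
    funext a
    exact hat_inl w d a
  rw [h2] at h1
  exact LinearIndependent.of_comp (T ι) h1

theorem smp_pyr (hceli : Stmt_CELI) (w : κ → ι → ℕ) (h : κ → ℝ) (h₀ : ℝ) (F : Finset κ) (d : ℕ)
    (hF : F.Nonempty) (hd : 1 ≤ d) (hH : LinearIndependent ℚ (Sum.elim h fun _ : Unit => h₀)) :
    smp (pyr w d) (Sum.elim h fun _ : Unit => h₀) (pF F) = (smp w h F).image pF := by
  classical
  have hd0 : (d : ℝ) ≠ 0 := by
    have : 0 < d := hd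
    positivity
  ext C'
  simp only [mem_image]
  constructor
  · intro hC'
    unfold smp at hC'
    rw [mem_filter] at hC'
    obtain ⟨_, hcard, k, hk⟩ := hC'
    rw [rk_pyr w d hd] at hcard
    have hli := hceli (ι ⊕ Unit) (κ ⊕ Unit) (pyr w d) (Sum.elim h fun _ : Unit => h₀) hH k C'
      (fun a ha b hb => le_antisymm (((hk a).1 ha).2 b ((hk b).1 hb).1)
        (((hk b).1 hb).2 a ((hk a).1 ha).1))
    set C : Finset κ := univ.filter fun a => Sum.inl a ∈ C' with hCdef
    have hCmem : ∀ a, a ∈ C ↔ Sum.inl a ∈ C' := fun a => by simp [hCdef]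
    have hCF : C ⊆ F := fun a ha => mem_pF_inl.1 ((hk _).1 ((hCmem a).1 ha)).1
    have hCli := li_base w d (fun a ha => (hCmem a).1 ha) hli
    have hCcard := card_le_rk w hCF hCli
    have hapex : (Sum.inr () : κ ⊕ Unit) ∈ C' := by
      by_contra hno
      have h1 : C' ⊆ C.map Function.Embedding.inl := by
        intro v hv
        rcases v with a | u
        · exact mem_map.2 ⟨a, (hCmem a).2 hv, rfl⟩
        · exact absurd hv hno
      have h2 := card_le_card h1
      rw [card_map] at h2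
      omega
    have hCC : pF C = C' := by
      ext v
      rcases v with a | u
      · rw [mem_pF_inl, hCmem]
      · exact ⟨fun _ => hapex, fun _ => mem_pF_inr⟩
    have hCcard' : C.card = rk w F := by
      rw [← hCC, card_pF] at hcard
      omega
    have hCne : C.Nonempty := by
      rw [← card_pos, hCcard']
      exact rk_pos w hF
    refine ⟨C, ?_, hCC⟩
    unfold smp
    rw [mem_filter]
    refine ⟨mem_univ _, hCcard', fun i => k (Sum.inl i), fun a => ?_⟩
    rw [hCmem, hk]
    constructor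
    · rintro ⟨ha, hb⟩
      refine ⟨mem_pF_inl.1 ha, fun b hbF => ?_⟩
      have h1 := hb (Sum.inl b) (mem_pF_inl.2 hbF)
      rw [hv_inl, hv_inl] at h1
      exact h1
    · rintro ⟨ha, hb⟩
      refine ⟨mem_pF_inl.2 ha, fun v hv => ?_⟩
      obtain ⟨c, hc⟩ := hCne
      have h1 := ((hk (Sum.inl c)).1 ((hCmem c).1 hc)).2 v hv
      refine le_trans ?_ h1
      rw [hv_inl, hv_inl]
      exact hb c (hCF hc)
  · rintro ⟨C, hC, rfl⟩
    unfold smp at hC ⊢
    rw [mem_filter] at hC ⊢
    obtain ⟨_, hcard, k, hk⟩ := hC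
    have hCne : C.Nonempty := by
      rw [← card_pos, hcard]
      exact rk_pos w hF
    obtain ⟨c, hc⟩ := hCne
    refine ⟨mem_univ _, by rw [card_pF, hcard, rk_pyr w d hd],
      Sum.elim k fun _ => (hval w h k c - h₀) / d, ?_⟩
    set k' : ι ⊕ Unit → ℝ := Sum.elim k fun _ => (hval w h k c - h₀) / d with hk'
    have e1 : ∀ a, hval (pyr w d) (Sum.elim h fun _ : Unit => h₀) k' (Sum.inl a) =
        hval w h k a := fun a => by rw [hv_inl]; rfl
    have e2 : hval (pyr w d) (Sum.elim h fun _ : Unit => h₀) k' (Sum.inr ()) =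
        hval w h k c := by
      rw [hv_inr, hk']
      simp only [Sum.elim_inr]
      field_simp
      ring
    have hcF := ((hk c).1 hc).1
    have hcmin := ((hk c).1 hc).2
    intro v
    rcases v with a | u
    · rw [mem_pF_inl, mem_pF_inl, hk]
      refine and_congr_right fun ha => ?_
      constructor
      · intro hb v hv
        rcases v with b | u
        · rw [e1, e1]; exact hb b (mem_pF_inl.1 hv)
        · rw [e1, e2]; exact hb c hcF
      · intro hb b hbF
        have h1 := hb (Sum.inl b) (mem_pF_inl.2 hbF)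
        rw [e1, e1] at h1
        exact h1
    · refine ⟨fun _ => ⟨mem_pF_inr, fun v hv => ?_⟩, fun _ => mem_pF_inr⟩
      rcases v with b | u'
      · rw [e1, e2]; exact hcmin b (mem_pF_inl.1 hv)
      · exact le_refl _

/-- the box points of weight with denominator `e` form a finite set -/
theorem fin (w : κ → ι → ℕ) (C : Finset κ) (d : ℕ) (hd : 1 ≤ d)
    (hli : LinearIndependent ℚ fun a : C => hat w (Sum.inl (a : κ))) :
    {b : κ → ℚ | b ∈ Bx w C ∧ (∑ a, b a).den ∣ d}.Finite := by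
  classical
  let f : (κ → ℚ) → (ι → ℚ) × ℚ := fun b => (fun i => ∑ a, b a * w a i, ∑ a, b a)
  let t : Set ((ι → ℚ) × ℚ) :=
    (Set.pi Set.univ fun i => (fun z : ℤ => (z : ℚ)) '' Set.Icc 0 (∑ a, (w a i : ℤ))) ×ˢ
      ((fun z : ℤ => (z : ℚ) / (d : ℚ)) '' Set.Icc 0 ((d : ℤ) * Fintype.card κ))
  have ht : t.Finite := by
    refine Set.Finite.prod (Set.Finite.pi fun i => (Set.finite_Icc _ _).image _) ?_
    exact (Set.finite_Icc _ _).image _
  have hd' : (0 : ℚ) < d := by exact_mod_cast hd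
  refine Set.Finite.of_injOn (f := f) (t := t) ?_ ?_ ht
  · intro b hb
    obtain ⟨⟨h2, _, h3⟩, h4⟩ := hb
    have hsum : (0 : ℚ) ≤ ∑ a, b a ∧ ∑ a, b a ≤ Fintype.card κ := by
      refine ⟨Finset.sum_nonneg fun a _ => (h2 a).1, ?_⟩
      have := Finset.sum_le_sum (s := (Finset.univ : Finset κ)) (f := b) (g := fun _ => (1 : ℚ))
        fun a _ => (h2 a).2.le
      rw [Finset.sum_const, Finset.card_univ, nsmul_eq_mul, mul_one] at this
      exact this
    refine ⟨?_, ?_⟩
    · intro i _
      obtain ⟨z, hz⟩ := h3 i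
      refine ⟨z, ⟨?_, ?_⟩, hz.symm⟩
      · have : (0 : ℚ) ≤ z := by
          rw [← hz]
          exact Finset.sum_nonneg fun a _ => mul_nonneg (h2 a).1 (Nat.cast_nonneg _)
        exact_mod_cast this
      · have : (z : ℚ) ≤ ((∑ a, (w a i : ℤ) : ℤ) : ℚ) := by
          rw [← hz]
          push_cast
          refine Finset.sum_le_sum fun a _ => ?_
          have h5 := mul_le_mul_of_nonneg_right (h2 a).2.le (Nat.cast_nonneg (α := ℚ) (w a i))
          rw [one_mul] at h5
          exact h5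
        exact_mod_cast this
    · obtain ⟨q, hq⟩ := h4
      have hq1 : (((∑ a, b a).num * q : ℤ) : ℚ) = (d : ℚ) * ∑ a, b a := by
        conv_rhs => rw [← Rat.num_div_den (∑ a, b a)]
        have hden : ((∑ a, b a).den : ℚ) ≠ 0 := by
          have := (∑ a, b a).den_pos
          positivity
        have hdq : (d : ℚ) = (∑ a, b a).den * q := by exact_mod_cast hq
        rw [hdq]
        push_cast
        field_simp
      refine ⟨(∑ a, b a).num * q, ⟨?_, ?_⟩, ?_⟩
      · have : (0 : ℚ) ≤ (((∑ a, b a).num * q : ℤ) : ℚ) := by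
          rw [hq1]; exact mul_nonneg hd'.le hsum.1
        exact_mod_cast this
      · have h6 : (((∑ a, b a).num * q : ℤ) : ℚ) ≤ ((d : ℤ) * Fintype.card κ : ℤ) := by
          rw [hq1]
          push_cast
          exact mul_le_mul_of_nonneg_left hsum.2 hd'.le
        exact_mod_cast h6
      · show (((∑ a, b a).num * q : ℤ) : ℚ) / (d : ℚ) = ∑ a, b a
        rw [hq1]
        field_simp
  · intro b hb b' hb' hbb
    have e1 : ∀ i, ∑ a, b a * w a i = ∑ a, b' a * w a i := fun i =>
      congrFun (congrArg Prod.fst hbb) i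
    have e2 : ∑ a, b a = ∑ a, b' a := congrArg Prod.snd hbb
    have h2 := Fintype.linearIndependent_iff.1 hli (fun a => b a - b' a) (by
      funext v
      rw [Finset.sum_apply, Pi.zero_apply]
      have hsub : ∀ g : κ → ℚ, ∑ a : C, (b a - b' a) * g a = ∑ a, (b a - b' a) * g a := by
        intro g
        rw [Finset.sum_coe_sort C fun a => (b a - b' a) * g a]
        refine Finset.sum_subset (Finset.subset_univ _) fun a _ ha => ?_
        rw [hb.1.2.1 a ha, hb'.1.2.1 a ha, sub_zero, zero_mul]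
      simp only [Pi.smul_apply, smul_eq_mul]
      rw [hsub fun a => hat w (Sum.inl a) v]
      rcases v with i | u
      · simp only [hat, Sum.elim_inl, sub_mul, Finset.sum_sub_distrib]
        rw [e1 i, sub_self]
      · simp only [hat, Sum.elim_inl, Sum.elim_inr, mul_one, Finset.sum_sub_distrib]
        rw [e2, sub_self])
    funext a
    by_cases ha : a ∈ C
    · exact sub_eq_zero.1 (h2 ⟨a, ha⟩)
    · rw [hb.1.2.1 a ha, hb'.1.2.1 a ha]

theorem den_one_iff (q : ℚ) : q.den = 1 ↔ ∃ z : ℤ, q = z := by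
  constructor
  · intro h
    exact ⟨q.num, by conv_lhs => rw [← Rat.num_div_den q, h]
                     simp⟩
  · rintro ⟨z, rfl⟩
    exact Rat.den_intCast z

/-- `d q` is integral iff the denominator divides `d` -/
theorem den_dvd_iff (q : ℚ) (d : ℕ) (hd : 1 ≤ d) : q.den ∣ d ↔ ∃ z : ℤ, q * d = z := by
  have hden : (q.den : ℚ) ≠ 0 := by
    have := q.den_pos
    positivity
  constructor
  · rintro ⟨c, hc⟩
    refine ⟨q.num * c, ?_⟩
    have hdq : (d : ℚ) = q.den * c := by exact_mod_cast hc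
    rw [hdq]
    nth_rewrite 1 [← Rat.num_div_den q]
    push_cast
    field_simp
  · rintro ⟨z, hz⟩
    have h1 : q.num * d = z * q.den := by
      have h2 : (q.num : ℚ) * d = z * q.den := by
        rw [← hz]
        nth_rewrite 2 [← Rat.num_div_den q]
        field_simp
      exact_mod_cast h2
    have h3 : (q.den : ℤ) ∣ q.num * d := ⟨z, by rw [h1]; ring⟩
    have h4 : IsCoprime (q.den : ℤ) q.num := by
      have := q.reduced
      rw [Int.isCoprime_iff_gcd_eq_one, Int.gcd_comm]
      exact this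
    exact Int.natCast_dvd_natCast.1 (h4.dvd_of_dvd_mul_left h3)

/-- box points of the pyramid -/
theorem nu_pyr (w : κ → ι → ℕ) (C : Finset κ) (d : ℕ) (hd : 1 ≤ d)
    (hli : LinearIndependent ℚ fun a : C => hat w (Sum.inl (a : κ))) :
    nuE (pyr w d) 1 (pF C) = ∑ e ∈ d.divisors, nuE w e C := by
  classical
  have hfin := fin w C d hd hli
  have h1 : nuE (pyr w d) 1 (pF C) =
      Nat.card {b : κ → ℚ // b ∈ {b : κ → ℚ | b ∈ Bx w C ∧ (∑ a, b a).den ∣ d}} := by
    unfold nuE
    have hdec : ∀ b : κ ⊕ Unit → ℚ, (b ∈ Bx (pyr w d) (pF C) ∧ (∑ a, b a).den = 1) →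
        (fun a => b (Sum.inl a)) ∈ {b : κ → ℚ | b ∈ Bx w C ∧ (∑ a, b a).den ∣ d} ∧
          b (Sum.inr ()) = Int.fract (-∑ a, b (Sum.inl a)) := by
      rintro b ⟨⟨hb1, hb2, hb3⟩, hb4⟩
      obtain ⟨z, hz⟩ := (den_one_iff _).1 hb4
      rw [Fintype.sum_sum_type] at hz
      simp only [univ_unique, sum_singleton, PUnit.default_eq_unit] at hz
      obtain ⟨y, hy⟩ := hb3 (Sum.inr ())
      simp only [pyr, Fintype.sum_sum_type, Sum.elim_inl, Sum.elim_inr, Nat.cast_zero, mul_zero,
        sum_const_zero, univ_unique, sum_singleton, PUnit.default_eq_unit, zero_add] at hy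
      refine ⟨⟨⟨fun a => hb1 _, fun a ha => hb2 _ (fun h => ha (mem_pF_inl.1 h)), fun i => ?_⟩, ?_⟩,
        ?_⟩
      · obtain ⟨z', hz'⟩ := hb3 (Sum.inl i)
        simp only [pyr, Fintype.sum_sum_type, Sum.elim_inl, Sum.elim_inr, Nat.cast_zero, mul_zero,
          sum_const_zero, add_zero] at hz'
        exact ⟨z', hz'⟩
      · rw [den_dvd_iff _ _ hd]
        refine ⟨z * d - y, ?_⟩
        push_cast
        rw [← hz, ← hy]
        ring
      · rw [eq_comm, Int.fract_eq_iff]
        refine ⟨(hb1 _).1, (hb1 _).2, -z, ?_⟩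
        push_cast
        rw [← hz]
        ring
    refine Nat.card_congr
      { toFun := fun b => ⟨fun a => b.1 (Sum.inl a), (hdec b.1 b.2).1⟩
        invFun := fun b => ⟨Sum.elim b.1 fun _ => Int.fract (-∑ a, b.1 a), ?_⟩
        left_inv := ?_
        right_inv := ?_ }
    · obtain ⟨b, ⟨hb1, hb2, hb3⟩, hb4⟩ := b
      refine ⟨⟨?_, ?_, ?_⟩, ?_⟩
      · rintro (a | u)
        · exact hb1 a
        · exact ⟨Int.fract_nonneg _, Int.fract_lt_one _⟩
      · rintro (a | u) ha
        · exact hb2 a fun h => ha (mem_pF_inl.2 h)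
        · exact absurd mem_pF_inr ha
      · rintro (i | u)
        · obtain ⟨z, hz⟩ := hb3 i
          refine ⟨z, ?_⟩
          simp only [pyr, Fintype.sum_sum_type, Sum.elim_inl, Sum.elim_inr, Nat.cast_zero,
            mul_zero, sum_const_zero, add_zero]
          exact hz
        · obtain ⟨z, hz⟩ := (den_dvd_iff _ _ hd).1 hb4
          refine ⟨-z - ⌊-∑ a, b a⌋ * d, ?_⟩
          simp only [pyr, Fintype.sum_sum_type, Sum.elim_inl, Sum.elim_inr, Nat.cast_zero,
            mul_zero, sum_const_zero, univ_unique, sum_singleton, zero_add]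
          push_cast
          rw [← hz]
          unfold Int.fract
          ring
      · rw [den_one_iff]
        refine ⟨-⌊-∑ a, b a⌋, ?_⟩
        rw [Fintype.sum_sum_type]
        simp only [Sum.elim_inl, Sum.elim_inr, univ_unique, sum_singleton]
        unfold Int.fract
        push_cast
        ring
    · rintro ⟨b, hb⟩
      refine Subtype.ext ?_
      funext v
      rcases v with a | u
      · rfl
      · exact (hdec b hb).2.symm
    · rintro ⟨b, hb⟩
      rfl
  have h2 : Nat.card {b : κ → ℚ // b ∈ {b : κ → ℚ | b ∈ Bx w C ∧ (∑ a, b a).den ∣ d}} =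
      hfin.toFinset.card := Nat.card_eq_card_finite_toFinset hfin
  have h3 : hfin.toFinset.card =
      ∑ e ∈ d.divisors, (hfin.toFinset.filter fun b => (∑ a, b a).den = e).card := by
    refine card_eq_sum_card_fiberwise fun b hb => ?_
    have hb' := (Set.Finite.mem_toFinset hfin).1 (mem_coe.1 hb)
    exact mem_coe.2 (Nat.mem_divisors.2 ⟨hb'.2, by omega⟩)
  rw [h1, h2, h3]
  refine sum_congr rfl fun e he => ?_
  unfold nuE
  rw [Nat.subtype_card]
  intro b
  rw [mem_filter, Set.Finite.mem_toFinset]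
  constructor
  · rintro ⟨⟨h4, _⟩, h5⟩
    exact ⟨h4, h5⟩
  · rintro ⟨h4, h5⟩
    exact ⟨⟨h4, by rw [h5]; exact Nat.dvd_of_mem_divisors he⟩, h5⟩

end PYRCAux

open PYRCAux

/-- PYRC: simplices and box points of a pyramid -/
theorem stmt_PYRC (hceli : Stmt_CELI) : Stmt_PYRC := by
  classical
  intro ι κ _ _ _ _ w h h₀ F d hF hd hH
  refine ⟨rk_pyr w d hd F, ?_⟩
  have hs : smp (pyr w d) (Sum.elim h fun _ : Unit => h₀)
      (F.map Function.Embedding.inl ∪ {Sum.inr ()}) = (smp w h F).image pF :=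
    smp_pyr hceli w h h₀ F d hF hd hH
  rw [hs, sum_image fun C _ C' _ hCC' => pF_inj hCC']
  refine sum_congr rfl fun C hC => ?_
  have hh : LinearIndependent ℚ h := by
    have h1 := hH.comp (Sum.inl : κ → κ ⊕ Unit) Sum.inl_injective
    exact h1
  have hli : LinearIndependent ℚ fun a : C => hat w (Sum.inl (a : κ)) := by
    unfold smp at hC
    rw [mem_filter] at hC
    obtain ⟨_, hcard, k, hk⟩ := hC
    exact hceli ι κ w h hh k C
      (fun a ha b hb => le_antisymm (((hk a).1 ha).2 b ((hk b).1 hb).1)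
        (((hk b).1 hb).2 a ((hk a).1 ha).1))
  rw [nu_pyr w C d hd hli]
  push_cast
  rfl

end Pool.Agent.Mono.NP
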