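import Pool.Agent.Work.Monodromy.Interface12C

/-!
# Phase 12, block RA: the limit of a rational series as a limit over real numbers (helper9)
-/

set_option autoImplicit false

namespace Pool.Agent.Mono.NP

open Filter Topology

namespace RAAux

/-- evaluation of a polynomial over `ℚ` at a real number -/
noncomputable def er (u : ℝ) (p : Polynomial ℚ) : ℝ := Polynomial.aeval u p

theorem er_add (u : ℝ) (p q : Polynomial ℚ) : er u (p + q) = er u p + er u q := map_add _ _ _

theorem er_mul (u : ℝ) (p q : Polynomial ℚ) : er u (p * q) = er u p * er u q := map_mul _ _ _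

theorem er_sum {α : Type} (u : ℝ) (s : Finset α) (p : α → Polynomial ℚ) :
    er u (∑ i ∈ s, p i) = ∑ i ∈ s, er u (p i) := map_sum _ _ _

theorem er_Xpow (u : ℝ) (k : ℕ) : er u (Polynomial.X ^ k) = u ^ k := by
  simp [er]

theorem er_zero (u : ℝ) : er u 0 = 0 := map_zero _

theorem er_map (u : ℝ) (p : Polynomial ℤ) :
    er u (Polynomial.mapRingHom (Int.castRingHom ℚ) p) = Polynomial.aeval u p := by
  rw [er, Polynomial.coe_mapRingHom, Polynomial.aeval_def, Polynomial.aeval_def,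
    Polynomial.eval₂_map]
  congr 1

theorem er_continuous (p : Polynomial ℚ) : Continuous fun u => er u p :=
  Polynomial.continuous_aeval p

theorem eventually_er_ne (p : Polynomial ℚ) (hp : p ≠ 0) : ∀ᶠ u in 𝓝[>] (1 : ℝ), er u p ≠ 0 := by
  have hfin : {u : ℝ | er u p = 0}.Finite := by
    have h1 : p.map (algebraMap ℚ ℝ) ≠ 0 :=
      (Polynomial.map_ne_zero_iff (algebraMap ℚ ℝ).injective).2 hp
    refine (p.map (algebraMap ℚ ℝ)).roots.toFinset.finite_toSet.subset fun u hu => ?_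
    rw [Finset.mem_coe, Multiset.mem_toFinset, Polynomial.mem_roots h1, Polynomial.IsRoot.def,
      Polynomial.eval_map]
    exact hu
  have h2 : ({u : ℝ | er u p = 0} \ {1})ᶜ ∈ 𝓝 (1 : ℝ) :=
    (hfin.subset Set.diff_subset).isClosed.isOpen_compl.mem_nhds (by simp)
  filter_upwards [mem_nhdsWithin_of_mem_nhds h2, self_mem_nhdsWithin] with u hu1 hu2 h
  exact hu1 ⟨h, fun hh => by
    rw [Set.mem_singleton_iff] at hh
    rw [hh, Set.mem_Ioi] at hu2
    exact lt_irrefl _ hu2⟩

/-- common denominators -/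
theorem exists_common (p q : Polynomial (RatFunc ℚ)) : ∃ (Q : Polynomial ℚ)
    (N D : ℕ → Polynomial ℚ), Q ≠ 0 ∧
    (∀ i, algebraMap (Polynomial ℚ) (RatFunc ℚ) (N i) =
      algebraMap (Polynomial ℚ) (RatFunc ℚ) Q * p.coeff i) ∧
    (∀ i, algebraMap (Polynomial ℚ) (RatFunc ℚ) (D i) =
      algebraMap (Polynomial ℚ) (RatFunc ℚ) Q * q.coeff i) := by
  classical
  obtain ⟨b, hb⟩ := IsLocalization.exist_integer_multiples_of_finset
    (nonZeroDivisors (Polynomial ℚ))
    (((Finset.range (p.natDegree + 1)).image p.coeff) ∪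
      ((Finset.range (q.natDegree + 1)).image q.coeff) : Finset (RatFunc ℚ))
  have hN : ∀ i, ∃ c : Polynomial ℚ, algebraMap (Polynomial ℚ) (RatFunc ℚ) c =
      algebraMap (Polynomial ℚ) (RatFunc ℚ) (b : Polynomial ℚ) * p.coeff i := by
    intro i
    by_cases hi : i ≤ p.natDegree
    · obtain ⟨c, hc⟩ := hb (p.coeff i) (Finset.mem_union_left _
        (Finset.mem_image_of_mem _ (Finset.mem_range.2 (by omega))))
      exact ⟨c, by rw [hc, ← Algebra.smul_def]⟩
    · exact ⟨0, by rw [Polynomial.coeff_eq_zero_of_natDegree_lt (by omega)]; simp⟩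
  have hD : ∀ i, ∃ c : Polynomial ℚ, algebraMap (Polynomial ℚ) (RatFunc ℚ) c =
      algebraMap (Polynomial ℚ) (RatFunc ℚ) (b : Polynomial ℚ) * q.coeff i := by
    intro i
    by_cases hi : i ≤ q.natDegree
    · obtain ⟨c, hc⟩ := hb (q.coeff i) (Finset.mem_union_right _
        (Finset.mem_image_of_mem _ (Finset.mem_range.2 (by omega))))
      exact ⟨c, by rw [hc, ← Algebra.smul_def]⟩
    · exact ⟨0, by rw [Polynomial.coeff_eq_zero_of_natDegree_lt (by omega)]; simp⟩
  choose N hN using hN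
  choose D hD using hD
  exact ⟨b, N, D, nonZeroDivisors.ne_zero b.2, hN, hD⟩

end RAAux

open RAAux

theorem stmt_RA : Stmt_RA := by
  classical
  intro n P R hlim hsum s
  obtain ⟨num, den, -, hmul, hs⟩ := hlim
  obtain ⟨hden, -, hg1, hg2⟩ := hs s
  obtain ⟨Q, N, D, hQ, hN, hD⟩ := exists_common num den
  set φ : Polynomial ℚ →+* RatFunc ℚ := algebraMap (Polynomial ℚ) (RatFunc ℚ) with hφ
  have hφi : Function.Injective φ := RatFunc.algebraMap_injective ℚ
  have hX : φ Polynomial.X = RatFunc.X := RatFunc.algebraMap_X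
  have hX0 : (RatFunc.X : RatFunc ℚ) ≠ 0 := RatFunc.X_ne_zero
  have hQ0 : φ Q ≠ 0 := fun h => hQ (hφi (by rw [h, map_zero]))
  set PQ : ℕ → Polynomial ℚ := fun j => Polynomial.mapRingHom (Int.castRingHom ℚ) (P j) with hPQ
  have htoRat : ∀ j, toRat (P j) = φ (PQ j) := fun j => rfl
  -- the recursion
  have hrec : ∀ k, ∑ x ∈ Finset.HasAntidiagonal.antidiagonal k, D x.1 * PQ x.2 * Polynomial.X ^ (x.1 * n) =
      N k * Polynomial.X ^ (k * n) := by
    intro k
    apply hφi
    have h1 := congrArg (PowerSeries.coeff k) hmul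
    rw [PowerSeries.coeff_mul, Polynomial.coeff_coe] at h1
    simp only [Polynomial.coeff_coe, PowerSeries.coeff_mk] at h1
    rw [map_sum, map_mul, map_pow, hX, hN, ← h1, Finset.mul_sum, Finset.sum_mul]
    refine Finset.sum_congr rfl fun x hx => ?_
    rw [Finset.HasAntidiagonal.mem_antidiagonal] at hx
    rw [map_mul, map_mul, map_pow, hX, hD, htoRat, ← hx, add_mul, pow_add, inv_pow]
    have h2 : (RatFunc.X : RatFunc ℚ) ^ (x.2 * n) ≠ 0 := pow_ne_zero _ hX0
    field_simp
  set M := max den.natDegree num.natDegree with hM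
  have hDz : ∀ i, M < i → D i = 0 := by
    intro i hi
    apply hφi
    rw [hD, Polynomial.coeff_eq_zero_of_natDegree_lt (lt_of_le_of_lt (le_max_left _ _) hi),
      mul_zero, map_zero]
  have hNz : ∀ i, M < i → N i = 0 := by
    intro i hi
    apply hφi
    rw [hN, Polynomial.coeff_eq_zero_of_natDegree_lt (lt_of_le_of_lt (le_max_right _ _) hi),
      mul_zero, map_zero]
  set dP : Polynomial ℚ := ∑ i ∈ Finset.range (M + 1), D i * Polynomial.X ^ (s * (M - i)) with hdP
  set nP : Polynomial ℚ := ∑ i ∈ Finset.range (M + 1), N i * Polynomial.X ^ (s * (M - i)) with hnP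
  have hpow : ∀ i ∈ Finset.range (M + 1), (RatFunc.X : RatFunc ℚ) ^ (s * (M - i)) =
      RatFunc.X ^ (s * M) * (RatFunc.X⁻¹ ^ s) ^ i := by
    intro i hi
    rw [Finset.mem_range] at hi
    have h1 : s * M = s * (M - i) + s * i := by rw [← mul_add, Nat.sub_add_cancel (by omega)]
    rw [h1, pow_add, ← pow_mul, inv_pow, mul_assoc, mul_inv_cancel₀ (pow_ne_zero _ hX0), mul_one]
  have hdφ : φ dP = φ Q * RatFunc.X ^ (s * M) * den.eval (RatFunc.X⁻¹ ^ s) := by
    rw [hdP, map_sum, Polynomial.eval_eq_sum_range' (n := M + 1)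
      (Nat.lt_succ_of_le (le_max_left _ _)), Finset.mul_sum]
    refine Finset.sum_congr rfl fun i hi => ?_
    rw [map_mul, map_pow, hX, hD, hpow i hi]; ring
  have hnφ : φ nP = φ Q * RatFunc.X ^ (s * M) * num.eval (RatFunc.X⁻¹ ^ s) := by
    rw [hnP, map_sum, Polynomial.eval_eq_sum_range' (n := M + 1)
      (Nat.lt_succ_of_le (le_max_right _ _)), Finset.mul_sum]
    refine Finset.sum_congr rfl fun i hi => ?_
    rw [map_mul, map_pow, hX, hN, hpow i hi]; ring
  have hdP0 : dP ≠ 0 := by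
    intro h
    rw [h, map_zero] at hdφ
    exact mul_ne_zero (mul_ne_zero hQ0 (pow_ne_zero _ hX0)) hden hdφ.symm
  set g : RatFunc ℚ := num.eval (RatFunc.X⁻¹ ^ s) / den.eval (RatFunc.X⁻¹ ^ s) with hg
  have hgrel : nP * g.denom = g.num * dP := by
    apply hφi
    have h1 : φ g.num = g * φ g.denom := by
      have h2 := RatFunc.num_div_denom g
      have h3 : φ g.denom ≠ 0 := fun h => RatFunc.denom_ne_zero g (hφi (by rw [h, map_zero]))
      rw [div_eq_iff h3] at h2
      exact h2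
    have h4 : num.eval (RatFunc.X⁻¹ ^ s) = g * den.eval (RatFunc.X⁻¹ ^ s) := by
      rw [hg, div_mul_cancel₀ _ hden]
    rw [map_mul, map_mul, h1, hnφ, hdφ, h4]; ring
  -- the limit of the rational function
  have hlimg : Tendsto (fun u : ℝ => er u g.num / er u g.denom) (𝓝[>] 1)
      (𝓝 ((R.eval (RingHom.id ℚ) (s : ℚ) : ℚ) : ℝ)) := by
    have h1 : er 1 g.denom = ((g.denom.eval 1 : ℚ) : ℝ) := by
      rw [er, Polynomial.aeval_def, show (1 : ℝ) = algebraMap ℚ ℝ 1 by simp,
        Polynomial.eval₂_at_apply]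
      rfl
    have h2 : er 1 g.num = ((g.num.eval 1 : ℚ) : ℝ) := by
      rw [er, Polynomial.aeval_def, show (1 : ℝ) = algebraMap ℚ ℝ 1 by simp,
        Polynomial.eval₂_at_apply]
      rfl
    have h3 : er 1 g.denom ≠ 0 := by
      rw [h1]
      exact_mod_cast hg1
    have h4 : ((R.eval (RingHom.id ℚ) (s : ℚ) : ℚ) : ℝ) = er 1 g.num / er 1 g.denom := by
      rw [← hg2, h1, h2, RatFunc.eval]
      push_cast
      rfl
    rw [h4]
    exact (((er_continuous _).tendsto 1).div ((er_continuous _).tendsto 1) h3).mono_left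
      nhdsWithin_le_nhds
  refine hlimg.congr' ?_
  filter_upwards [eventually_er_ne dP hdP0, eventually_er_ne g.denom (RatFunc.denom_ne_zero g),
    self_mem_nhdsWithin] with u hu1 hu2 hu3
  have hu : 1 < u := hu3
  have hu0 : u ≠ 0 := by linarith
  have hup : 0 < u := by linarith
  have hr0 : (0 : ℝ) ≤ u⁻¹ := inv_nonneg.2 hup.le
  have hr1 : u⁻¹ ≤ 1 := inv_le_one_of_one_le₀ hu.le
  -- the recursion at `u`
  have hrecu : ∀ k, ∑ x ∈ Finset.HasAntidiagonal.antidiagonal k,
      (er u (D x.1) * u⁻¹ ^ (x.1 * s)) *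
        (Polynomial.aeval u (P x.2) * u⁻¹ ^ (x.2 * n) * u⁻¹ ^ (x.2 * s)) =
      er u (N k) * u⁻¹ ^ (k * s) := by
    intro k
    have h1 := congrArg (er u) (hrec k)
    rw [er_sum, er_mul, er_Xpow] at h1
    have h2 : er u (N k) = u⁻¹ ^ (k * n) * ∑ x ∈ Finset.HasAntidiagonal.antidiagonal k,
        er u (D x.1 * PQ x.2 * Polynomial.X ^ (x.1 * n)) := by
      rw [h1, inv_pow]
      field_simp
    rw [h2, Finset.mul_sum, Finset.sum_mul]
    refine Finset.sum_congr rfl fun x hx => ?_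
    rw [Finset.HasAntidiagonal.mem_antidiagonal] at hx
    rw [er_mul, er_mul, er_Xpow, er_map, ← hx, add_mul, add_mul, pow_add, pow_add]
    have h3 : u⁻¹ ^ (x.1 * n) * u ^ (x.1 * n) = 1 := by
      rw [← mul_pow, inv_mul_cancel₀ hu0, one_pow]
    linear_combination (-(er u (D x.1) * u⁻¹ ^ (x.1 * s) * (Polynomial.aeval u (P x.2) *
      u⁻¹ ^ (x.2 * n) * u⁻¹ ^ (x.2 * s)))) * h3
  -- the Cauchy product
  have hf : Summable fun i : ℕ => ‖er u (D i) * u⁻¹ ^ (i * s)‖ :=
    summable_of_ne_finset_zero (s := Finset.range (M + 1)) fun i hi => by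
      rw [Finset.mem_range] at hi
      rw [hDz i (by omega), er_zero, zero_mul, norm_zero]
  have hgs : Summable fun k : ℕ =>
      ‖Polynomial.aeval u (P k) * u⁻¹ ^ (k * n) * u⁻¹ ^ (k * s)‖ := by
    refine Summable.of_nonneg_of_le (fun k => norm_nonneg _) (fun k => ?_) (hsum u hu)
    rw [norm_mul, norm_mul, Real.norm_eq_abs, Real.norm_eq_abs, Real.norm_eq_abs,
      abs_of_nonneg (pow_nonneg hr0 (k * n)), abs_of_nonneg (pow_nonneg hr0 (k * s))]
    exact mul_le_of_le_one_right (mul_nonneg (abs_nonneg _) (pow_nonneg hr0 _))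
      (pow_le_one₀ hr0 hr1)
  have hcauchy := tsum_mul_tsum_eq_tsum_sum_antidiagonal_of_summable_norm hf hgs
  simp only [hrecu] at hcauchy
  have hfsum : ∑' i : ℕ, er u (D i) * u⁻¹ ^ (i * s) =
      ∑ i ∈ Finset.range (M + 1), er u (D i) * u⁻¹ ^ (i * s) :=
    tsum_eq_sum fun i hi => by
      rw [Finset.mem_range] at hi
      rw [hDz i (by omega), er_zero, zero_mul]
  have hnsum : ∑' i : ℕ, er u (N i) * u⁻¹ ^ (i * s) =
      ∑ i ∈ Finset.range (M + 1), er u (N i) * u⁻¹ ^ (i * s) :=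
    tsum_eq_sum fun i hi => by
      rw [Finset.mem_range] at hi
      rw [hNz i (by omega), er_zero, zero_mul]
  have hpowu : ∀ i ∈ Finset.range (M + 1), u ^ (s * (M - i)) =
      u ^ (s * M) * u⁻¹ ^ (i * s) := by
    intro i hi
    rw [Finset.mem_range] at hi
    have h1 : s * M = s * (M - i) + i * s := by
      rw [mul_comm i s, ← mul_add, Nat.sub_add_cancel (by omega)]
    rw [h1, pow_add, inv_pow, mul_assoc, mul_inv_cancel₀ (pow_ne_zero _ hu0), mul_one]
  have hdu : er u dP = u ^ (s * M) * ∑ i ∈ Finset.range (M + 1), er u (D i) * u⁻¹ ^ (i * s) := by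
    rw [hdP, er_sum, Finset.mul_sum]
    refine Finset.sum_congr rfl fun i hi => ?_
    rw [er_mul, er_Xpow, hpowu i hi]; ring
  have hnu : er u nP = u ^ (s * M) * ∑ i ∈ Finset.range (M + 1), er u (N i) * u⁻¹ ^ (i * s) := by
    rw [hnP, er_sum, Finset.mul_sum]
    refine Finset.sum_congr rfl fun i hi => ?_
    rw [er_mul, er_Xpow, hpowu i hi]; ring
  have hfin : er u dP * ∑' k : ℕ, Polynomial.aeval u (P k) * u⁻¹ ^ (k * n) * u⁻¹ ^ (k * s) =
      er u nP := by
    rw [hdu, hnu, ← hfsum, ← hnsum, mul_assoc, hcauchy]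
  have hrelu := congrArg (er u) hgrel
  rw [er_mul, er_mul] at hrelu
  have h1 : er u g.num = (er u nP * er u g.denom) / er u dP := by
    rw [hrelu, mul_div_assoc, div_self hu1, mul_one]
  rw [h1, ← hfin]
  field_simp

end Pool.Agent.Mono.NP
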