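import Pool.Agent.Work.Monodromy.Interface12C

/-!
# Block REC of phase 12, part I (helper54)
-/

set_option autoImplicit false

namespace Pool.Agent.Mono.NP

namespace RECAux

variable {ι κ : Type} [Fintype ι] [DecidableEq ι] [Fintype κ] [DecidableEq κ]

theorem rg_split (w : κ → ι → ℕ) (g : κ ⊕ ι → ℤ) (M : ℕ) (C : Finset (κ ⊕ ι)) (v : κ ⊕ ι)
    (hv : v ∉ C) :
    Rg w g M C = Rg w g M (insert v C) ∪ Rg w (fun u => g u - if u = v then (M : ℤ) else 0) M C := by
  ext y
  simp only [Rg, Set.mem_union, Set.mem_setOf_eq, Finset.mem_insert, forall_eq_or_imp]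
  constructor
  · rintro ⟨h1, h2⟩
    by_cases h : zp w y v + g v < M
    · exact Or.inl ⟨h1, h, h2⟩
    · right
      refine ⟨fun u => ?_, fun u hu => ?_⟩
      · by_cases hu : u = v
        · subst hu; simp only [if_true]; linarith
        · simp only [if_neg hu, sub_zero]; exact h1 u
      · have hu' : u ≠ v := fun h => hv (h ▸ hu)
        simp only [if_neg hu', sub_zero]; exact h2 u hu
  · rintro (⟨h1, _, h2⟩ | ⟨h1, h2⟩)
    · exact ⟨h1, h2⟩
    · refine ⟨fun u => ?_, fun u hu => ?_⟩
      · have h3 := h1 u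
        by_cases hu : u = v
        · subst hu
          simp only [if_true] at h3
          have : (0 : ℤ) ≤ M := Int.natCast_nonneg M
          linarith
        · simpa only [if_neg hu, sub_zero] using h3
      · have hu' : u ≠ v := fun h => hv (h ▸ hu)
        simpa only [if_neg hu', sub_zero] using h2 u hu

theorem rg_disj (w : κ → ι → ℕ) (g : κ ⊕ ι → ℤ) (M : ℕ) (C : Finset (κ ⊕ ι)) (v : κ ⊕ ι) :
    Disjoint (Rg w g M (insert v C))
      (Rg w (fun u => g u - if u = v then (M : ℤ) else 0) M C) := by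
  rw [Set.disjoint_left]
  rintro y ⟨_, h2⟩ ⟨h3, _⟩
  have h4 := h2 v (Finset.mem_insert_self v C)
  have h5 := h3 v
  simp only [if_true] at h5
  linarith

theorem us_step (hS : Stmt_SUMU) (w : κ → ι → ℕ) (g : κ ⊕ ι → ℤ) (M : ℕ)
    (C : Finset (κ ⊕ ι)) (v : κ ⊕ ι) (hv : v ∉ C) (hC : ∃ a, Sum.inl a ∈ C)
    (p : ι ⊕ Unit → ℝ) (hp : Pos p) (ε : ℝ) (hε : 0 < ε) :
    Us w g M C p ε = Us w g M (insert v C) p ε +
      Us w (fun u => g u - if u = v then (M : ℤ) else 0) M C p ε := by
  have hC' : ∃ a, Sum.inl a ∈ insert v C := by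
    obtain ⟨a, ha⟩ := hC
    exact ⟨a, Finset.mem_insert_of_mem ha⟩
  have h1 := hS ι κ w p hp (insert v C) g M hC' ε hε
  have h2 := hS ι κ w p hp C (fun u => g u - if u = v then (M : ℤ) else 0) M hC ε hε
  have h3 := Summable.tsum_union_disjoint (f := fun y : ι ⊕ Unit → ℤ => Real.exp (-ε * ph p y))
    (rg_disj w g M C v) h1 h2
  have h4 := rg_split w g M C v hv
  unfold Us
  rw [← h3, ← h4]

theorem main (hS : Stmt_SUMU) (w : κ → ι → ℕ) (M : ℕ) (C : Finset (κ ⊕ ι))
    (hC : ∃ a, Sum.inl a ∈ C) : ∀ (N : ℕ) (g δ : κ ⊕ ι → ℤ), (∀ v ∈ C, δ v = 0) →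
    ∑ v, (δ v).natAbs = N →
    ∃ (n : ℕ) (σ : Fin n → ℤ) (j : Fin n → κ ⊕ ι) (g' : Fin n → κ ⊕ ι → ℤ),
      (∀ t, j t ∉ C) ∧ (∀ t v, |g' t v - g v| ≤ M * |δ v|) ∧
      (∀ v, ∑ t, (if j t = v then σ t else 0) = δ v) ∧
      ∀ (p : ι ⊕ Unit → ℝ), Pos p → ∀ ε : ℝ, 0 < ε →
        Us w g M C p ε - Us w (fun v => g v - M * δ v) M C p ε =
          ∑ t, (σ t : ℝ) * Us w (g' t) M (insert (j t) C) p ε := by
  intro N
  induction N with
  | zero =>
    intro g δ _ hN
    have hδ : ∀ v, δ v = 0 := by
      intro v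
      have := (Finset.sum_eq_zero_iff.mp hN) v (Finset.mem_univ v)
      exact Int.natAbs_eq_zero.mp this
    refine ⟨0, fun t => t.elim0, fun t => t.elim0, fun t => t.elim0, fun t => t.elim0,
      fun t => t.elim0, fun v => by simp [hδ v], fun p _ ε _ => ?_⟩
    simp [hδ]
  | succ N ih =>
    intro g δ hδC hN
    have hex : ∃ v, δ v ≠ 0 := by
      by_contra hcon
      have h0 : ∀ v, δ v = 0 := fun v => by
        by_contra h
        exact hcon ⟨v, h⟩
      simp [h0] at hN
    obtain ⟨v, hv⟩ := hex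
    have hvC : v ∉ C := fun h => hv (hδC v h)
    -- the new vector
    set s : ℤ := (δ v).sign with hs
    have hs2 : s = 1 ∧ 0 < δ v ∨ s = -1 ∧ δ v < 0 := by
      rcases lt_or_gt_of_ne hv with h | h
      · exact Or.inr ⟨Int.sign_eq_neg_one_of_neg h, h⟩
      · exact Or.inl ⟨Int.sign_eq_one_of_pos h, h⟩
    set δ' : κ ⊕ ι → ℤ := fun u => δ u - if u = v then s else 0 with hδ'
    set g₁ : κ ⊕ ι → ℤ := fun u => g u - if u = v then (M : ℤ) * s else 0 with hg₁
    have hδ'C : ∀ u ∈ C, δ' u = 0 := by
      intro u hu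
      have : u ≠ v := fun h => hvC (h ▸ hu)
      simp only [hδ', if_neg this, sub_zero]
      exact hδC u hu
    have habs : ∀ u, (δ u).natAbs = (δ' u).natAbs + if u = v then 1 else 0 := by
      intro u
      by_cases hu : u = v
      · subst hu
        simp only [hδ', if_true]
        rcases hs2 with ⟨h1, h2⟩ | ⟨h1, h2⟩ <;> rw [h1] <;> omega
      · simp only [hδ', if_neg hu, sub_zero, add_zero]
    have hN' : ∑ u, (δ' u).natAbs = N := by
      have : ∑ u, (δ u).natAbs = ∑ u, (δ' u).natAbs + 1 := by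
        rw [Finset.sum_congr rfl fun u _ => habs u, Finset.sum_add_distrib]
        simp
      omega
    obtain ⟨n, σ, j, g', hj, hg', hσ, hU⟩ := ih g₁ δ' hδ'C hN'
    have habsz : ∀ u, |δ u| = |δ' u| + if u = v then 1 else 0 := by
      intro u
      have h := habs u
      rw [Int.abs_eq_natAbs, Int.abs_eq_natAbs, h]
      push_cast
      rfl
    have hM : (0 : ℤ) ≤ M := Int.natCast_nonneg M
    have hs1 : |s| = 1 := by
      rcases hs2 with ⟨h1, _⟩ | ⟨h1, _⟩ <;> rw [h1] <;> simp
    refine ⟨n + 1, Fin.cons s σ, Fin.cons v j,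
      Fin.cons (fun u => g u - if u = v then (if s = 1 then 0 else (M : ℤ) * s) else 0) g',
      ?_, ?_, ?_, ?_⟩
    · intro t
      refine Fin.cases ?_ (fun i => ?_) t
      · simpa using hvC
      · simpa using hj i
    · intro t u
      refine Fin.cases ?_ (fun i => ?_) t
      · simp only [Fin.cons_zero]
        rw [habsz u]
        by_cases hu : u = v
        · simp only [if_pos hu]
          have h5 : |g u - (if s = 1 then 0 else (M : ℤ) * s) - g u| ≤ M := by
            by_cases h6 : s = 1
            · simp [h6]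
            · rw [if_neg h6]
              have : g u - (M : ℤ) * s - g u = -((M : ℤ) * s) := by ring
              rw [this, abs_neg, abs_mul, hs1, mul_one, abs_of_nonneg hM]
          have h7 : (0 : ℤ) ≤ M * |δ' u| := mul_nonneg hM (abs_nonneg _)
          rw [mul_add, mul_one]
          linarith
        · simp only [if_neg hu, sub_zero, sub_self, abs_zero, add_zero]
          exact mul_nonneg hM (abs_nonneg _)
      · simp only [Fin.cons_succ]
        have h5 := hg' i u
        rw [habsz u]
        by_cases hu : u = v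
        · simp only [if_pos hu]
          have h6 : |g₁ u - g u| ≤ M := by
            simp only [hg₁, if_pos hu]
            have : g u - (M : ℤ) * s - g u = -((M : ℤ) * s) := by ring
            rw [this, abs_neg, abs_mul, hs1, mul_one, abs_of_nonneg hM]
          have h7 : |g' i u - g u| ≤ |g' i u - g₁ u| + |g₁ u - g u| := abs_sub_le _ _ _
          rw [mul_add, mul_one]
          linarith
        · have h6 : g₁ u = g u := by simp only [hg₁, if_neg hu, sub_zero]
          rw [h6] at h5
          simpa [if_neg hu] using h5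
    · intro u
      rw [Fin.sum_univ_succ]
      simp only [Fin.cons_zero, Fin.cons_succ]
      rw [hσ u]
      simp only [hδ']
      by_cases hu : u = v
      · subst hu; simp
      · rw [if_neg hu, if_neg (fun h => hu h.symm)]; ring
    · intro p hp ε hε
      rw [Fin.sum_univ_succ]
      simp only [Fin.cons_zero, Fin.cons_succ]
      rw [← hU p hp ε hε]
      have hend : (fun u => g₁ u - (M : ℤ) * δ' u) = fun u => g u - (M : ℤ) * δ u := by
        funext u
        simp only [hg₁, hδ']
        by_cases hu : u = v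
        · simp only [if_pos hu]; ring
        · simp only [if_neg hu]; ring
      rw [hend]
      have hfirst : Us w g M C p ε - Us w g₁ M C p ε = (s : ℝ) *
          Us w (fun u => g u - if u = v then (if s = 1 then 0 else (M : ℤ) * s) else 0) M
            (insert v C) p ε := by
        rcases hs2 with ⟨h1, _⟩ | ⟨h1, _⟩
        · have h5 := us_step hS w g M C v hvC hC p hp ε hε
          have h6 : g₁ = fun u => g u - if u = v then (M : ℤ) else 0 := by
            funext u; simp only [hg₁, h1, mul_one]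
          have h7 : (fun u => g u - if u = v then (if s = 1 then 0 else (M : ℤ) * s) else 0) = g := by
            funext u; simp [h1]
          rw [h7, h6, h5, h1]
          push_cast
          ring
        · have h5 := us_step hS w g₁ M C v hvC hC p hp ε hε
          have h6 : (fun u => g₁ u - if u = v then (M : ℤ) else 0) = g := by
            funext u
            simp only [hg₁, h1]
            by_cases hu : u = v
            · simp only [if_pos hu]; ring
            · simp only [if_neg hu]; ring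
          have h7 : (fun u => g u - if u = v then (if s = 1 then 0 else (M : ℤ) * s) else 0) = g₁ := by
            funext u
            simp only [hg₁, h1]
            norm_num
          rw [h7]
          rw [h6] at h5
          rw [h5, h1]
          push_cast
          ring
      rw [← hfirst]
      ring

theorem zp_add (w : κ → ι → ℕ) (y y' : ι ⊕ Unit → ℤ) (v : κ ⊕ ι) :
    zp w (y + y') v = zp w y v + zp w y' v := by
  unfold zp
  rw [← Finset.sum_add_distrib]
  exact Finset.sum_congr rfl fun e _ => by rw [Pi.add_apply]; ring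

theorem zp_smul (w : κ → ι → ℕ) (M : ℤ) (y : ι ⊕ Unit → ℤ) (v : κ ⊕ ι) :
    zp w (fun e => M * y e) v = M * zp w y v := by
  unfold zp
  rw [Finset.mul_sum]
  exact Finset.sum_congr rfl fun e _ => by ring

theorem us_translate (w : κ → ι → ℕ) (g : κ ⊕ ι → ℤ) (M : ℕ) (C : Finset (κ ⊕ ι))
    (ρ : ι ⊕ Unit → ℤ) (hρ : ∀ v ∈ C, zp w ρ v = 0) (p : ι ⊕ Unit → ℝ) (ε : ℝ) :
    Us w (fun v => g v - M * zp w ρ v) M C p ε =
      Real.exp (-ε * (M * ph p ρ)) * Us w g M C p ε := by
  let m : ι ⊕ Unit → ℤ := fun e => (M : ℤ) * ρ e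
  have hmem : ∀ y : ι ⊕ Unit → ℤ, y ∈ Rg w g M C ↔
      Equiv.addRight m y ∈ Rg w (fun v => g v - M * zp w ρ v) M C := by
    intro y
    have hz : ∀ v, zp w (Equiv.addRight m y) v = zp w y v + M * zp w ρ v := by
      intro v
      rw [Equiv.coe_addRight, zp_add, zp_smul]
    simp only [Rg, Set.mem_setOf_eq, hz]
    constructor
    · rintro ⟨h1, h2⟩
      refine ⟨fun v => ?_, fun v hv => ?_⟩
      · have := h1 v; linarith
      · have := h2 v hv; linarith
    · rintro ⟨h1, h2⟩
      refine ⟨fun v => ?_, fun v hv => ?_⟩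
      · have := h1 v; linarith
      · have := h2 v hv; linarith
  let E : Rg w g M C ≃ Rg w (fun v => g v - M * zp w ρ v) M C :=
    Equiv.subtypeEquiv (Equiv.addRight m) hmem
  unfold Us
  rw [← Equiv.tsum_eq E, ← tsum_mul_left]
  refine tsum_congr fun y => ?_
  rw [← Real.exp_add]
  congr 1
  have : ph p (E y : ι ⊕ Unit → ℤ) = ph p y + M * ph p ρ := by
    have hE : ((E y : _) : ι ⊕ Unit → ℤ) = (y : ι ⊕ Unit → ℤ) + m := rfl
    rw [hE]
    unfold ph
    rw [Finset.mul_sum, ← Finset.sum_add_distrib]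
    refine Finset.sum_congr rfl fun e _ => ?_
    simp only [Pi.add_apply, m]
    push_cast
    ring
  rw [this]
  ring

end RECAux

theorem stmt_REC (hS : Stmt_SUMU) : Stmt_REC := by
  intro ι κ _ _ _ _ w g M C ρ _ hC hρ
  obtain ⟨n, σ, j, g', hj, hg', hσ, hU⟩ := RECAux.main hS w M C hC _ g (zp w ρ) hρ rfl
  refine ⟨n, σ, j, g', hj, hg', fun v _ => ?_, fun p hp ε hε => ?_⟩
  · rw [Finset.sum_filter]
    exact hσ v
  · rw [← hU p hp ε hε, RECAux.us_translate w g M C ρ hρ p ε]
    ring

end Pool.Agent.Mono.NP
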