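import Pool.Agent.Work.Monodromy12.CLS012

/-!
# Phase 12, part I, block SUMK (helper49)
-/

set_option autoImplicit false
set_option linter.unusedSectionVars false

namespace Pool.Agent.Mono.NP

open MvPolynomial

namespace SUMKAux

/-! ### products of series -/

theorem hasSum_fin (n : ℕ) : ∀ (g : Fin n → ℕ → ℝ) (S : Fin n → ℝ), (∀ i m, 0 ≤ g i m) →
    (∀ i, HasSum (g i) (S i)) → HasSum (fun k : Fin n → ℕ => ∏ i, g i (k i)) (∏ i, S i) := by
  induction n with
  | zero =>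
    intro g S _ _
    have h : (fun k : Fin 0 → ℕ => ∏ i, g i (k i)) = fun _ => (1 : ℝ) := by
      funext k
      exact Finset.prod_empty
    rw [h, show (∏ i : Fin 0, S i) = 1 from Finset.prod_empty]
    have h2 := hasSum_single (f := fun _ : Fin 0 → ℕ => (1 : ℝ)) (fun i => i.elim0)
      (fun b hb => absurd (Subsingleton.elim _ _) hb)
    exact h2
  | succ n ih =>
    intro g S h0 hS
    have ih' := ih (fun i => g i.succ) (fun i => S i.succ) (fun i m => h0 _ m) (fun i => hS _)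
    set G : (Fin n → ℕ) → ℝ := fun k => ∏ i, g (Fin.succ i) (k i) with hG
    have hG0 : 0 ≤ G := fun k => Finset.prod_nonneg fun i _ => h0 _ _
    have hg0 : 0 ≤ g 0 := fun m => h0 0 m
    have h1 : HasSum (fun x : ℕ × (Fin n → ℕ) => g 0 x.1 * G x.2)
        (S 0 * ∏ i, S (Fin.succ i)) :=
      HasSum.mul (hS 0) ih' (Summable.mul_of_nonneg (hS 0).summable ih'.summable hg0 hG0)
    rw [Fin.prod_univ_succ, ← (Fin.consEquiv fun _ : Fin (n + 1) => ℕ).hasSum_iff]
    have h2 : (fun k : Fin (n + 1) → ℕ => ∏ i, g i (k i)) ∘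
        (Fin.consEquiv fun _ : Fin (n + 1) => ℕ) =
        fun x : ℕ × (Fin n → ℕ) => g 0 x.1 * G x.2 := by
      funext x
      simp only [Function.comp_apply]
      rw [Fin.prod_univ_succ]
      rfl
    rw [h2]
    exact h1

theorem hasSum_pi {ι : Type} [Fintype ι] (g : ι → ℕ → ℝ) (S : ι → ℝ) (h0 : ∀ i m, 0 ≤ g i m)
    (hS : ∀ i, HasSum (g i) (S i)) :
    HasSum (fun k : ι → ℕ => ∏ i, g i (k i)) (∏ i, S i) := by
  have e := Fintype.equivFin ι
  have h1 := hasSum_fin _ (fun j => g (e.symm j)) (fun j => S (e.symm j)) (fun j m => h0 _ m)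
    (fun j => hS _)
  have h2 : ∏ j, S (e.symm j) = ∏ i, S i := Fintype.prod_equiv e.symm _ _ fun _ => rfl
  rw [h2] at h1
  rw [← (Equiv.arrowCongr e.symm (Equiv.refl ℕ)).hasSum_iff]
  have h3 : (fun k : ι → ℕ => ∏ i, g i (k i)) ∘ (Equiv.arrowCongr e.symm (Equiv.refl ℕ)) =
      fun k => ∏ j, g (e.symm j) (k j) := by
    funext k
    simp only [Function.comp_apply]
    refine (Fintype.prod_equiv e.symm _ _ fun j => ?_).symm
    simp [Equiv.arrowCongr]
  rw [h3]
  exact h1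

/-- the sum over the fibre of `b` -/
noncomputable def Sf (K : ℕ) (u : ℝ) (b : ℕ) : ℝ :=
  if b ≤ K then u⁻¹ ^ b else u⁻¹ ^ K / (u - 1)

theorem hasSum_Sf (K : ℕ) {u : ℝ} (hu : 1 < u) {b : ℕ} (hb : b ≤ K + 1) :
    HasSum (fun m : ℕ => if min m (K + 1) = b then u⁻¹ ^ m else 0) (Sf K u b) := by
  have hu0 : 0 < u := by linarith
  have hx0 : 0 ≤ u⁻¹ := inv_nonneg.2 hu0.le
  have hx1 : u⁻¹ < 1 := inv_lt_one_of_one_lt₀ hu
  unfold Sf
  by_cases h : b ≤ K
  · rw [if_pos h]
    have h1 : (fun m : ℕ => if min m (K + 1) = b then u⁻¹ ^ m else 0) =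
        fun m : ℕ => if m = b then u⁻¹ ^ b else 0 := by
      funext m
      by_cases hm : m = b
      · subst hm
        rw [if_pos rfl, if_pos (by omega)]
      · rw [if_neg hm, if_neg (by omega)]
    rw [h1]
    exact hasSum_ite_eq b _
  · rw [if_neg h]
    have hb' : b = K + 1 := by omega
    subst hb'
    rw [← hasSum_nat_add_iff' (K + 1)]
    have h1 : ∑ i ∈ Finset.range (K + 1), (if min i (K + 1) = K + 1 then u⁻¹ ^ i else 0) = 0 := by
      refine Finset.sum_eq_zero fun i hi => ?_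
      rw [Finset.mem_range] at hi
      rw [if_neg (by omega)]
    rw [h1, sub_zero]
    have h2 : (fun n : ℕ => if min (n + (K + 1)) (K + 1) = K + 1 then u⁻¹ ^ (n + (K + 1)) else 0) =
        fun n : ℕ => u⁻¹ ^ n * u⁻¹ ^ (K + 1) := by
      funext n
      rw [if_pos (by omega), pow_add]
    rw [h2]
    have h3 := (hasSum_geometric_of_lt_one hx0 hx1).mul_right (u⁻¹ ^ (K + 1))
    have h4 : (1 - u⁻¹)⁻¹ * u⁻¹ ^ (K + 1) = u⁻¹ ^ K / (u - 1) := by
      have h5 : u - 1 ≠ 0 := by linarith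
      have h6 : 1 - u⁻¹ = (u - 1) * u⁻¹ := by field_simp
      rw [h6, mul_inv, inv_inv, pow_succ]
      field_simp
    rw [h4] at h3
    exact h3

section

variable {ι κ : Type} [Fintype ι] [DecidableEq ι] [Fintype κ] [DecidableEq κ]

/-- the truncation of `k` -/
def tr (K : ℕ) (k : ι → ℕ) : ι → Fin (K + 2) := fun i => ⟨min (k i) (K + 1), by omega⟩

/-- the vector of a truncation -/
def vec {K : ℕ} (b : ι → Fin (K + 2)) : ι → ℕ := fun i => (b i : ℕ)

theorem hasSum_tr (K : ℕ) {u : ℝ} (hu : 1 < u) (b : ι → Fin (K + 2)) :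
    HasSum (fun k : ι → ℕ => if tr K k = b then u⁻¹ ^ (∑ i, k i) else 0)
      (∏ i, Sf K u (vec b i)) := by
  have hu0 : 0 < u := by linarith
  have h1 := hasSum_pi (fun (i : ι) (m : ℕ) => if min m (K + 1) = vec b i then u⁻¹ ^ m else 0)
    (fun i => Sf K u (vec b i)) (fun i m => by
      split_ifs
      · positivity
      · exact le_rfl)
    (fun i => hasSum_Sf K hu (by
      have := (b i).2
      unfold vec
      omega))
  have h2 : (fun k : ι → ℕ => ∏ i, (if min (k i) (K + 1) = vec b i then u⁻¹ ^ (k i) else 0)) =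
      fun k : ι → ℕ => if tr K k = b then u⁻¹ ^ (∑ i, k i) else 0 := by
    funext k
    by_cases h : tr K k = b
    · rw [if_pos h, ← Finset.prod_pow_eq_pow_sum]
      refine Finset.prod_congr rfl fun i _ => ?_
      rw [if_pos]
      rw [← h]
      rfl
    · rw [if_neg h]
      obtain ⟨i, hi⟩ := Function.ne_iff.1 h
      apply Finset.prod_eq_zero (Finset.mem_univ i)
      rw [if_neg]
      intro hcon
      apply hi
      exact Fin.ext hcon
  rw [h2] at h1
  exact h1

/-! ### the bracket depends on the truncation only -/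

theorem kw_le {w : κ → ι → ℕ} {k k' : ι → ℕ} (h : ∀ i, k' i ≤ k i) (a : κ) :
    kw w k' a ≤ kw w k a :=
  Finset.sum_le_sum fun i _ => Nat.mul_le_mul_right _ (h i)

theorem kw_tr {w : κ → ι → ℕ} (K : ℕ) (k : ι → ℕ) {a : κ} (h : kw w (vec (tr K k)) a ≤ K) :
    kw w k a = kw w (vec (tr K k)) a := by
  unfold kw
  refine Finset.sum_congr rfl fun i _ => ?_
  rcases Nat.eq_zero_or_pos (w a i) with h0 | h0
  · rw [h0, mul_zero, mul_zero]
  · have h1 : vec (tr K k) i * w a i ≤ kw w (vec (tr K k)) a :=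
      Finset.single_le_sum (f := fun i => vec (tr K k) i * w a i) (fun _ _ => Nat.zero_le _)
        (Finset.mem_univ i)
    have h2 : vec (tr K k) i ≤ vec (tr K k) i * w a i := Nat.le_mul_of_pos_right _ h0
    have h3 : vec (tr K k) i = k i := by
      have h4 : vec (tr K k) i = min (k i) (K + 1) := rfl
      rw [h4] at h1 h2 ⊢
      omega
    rw [h3]

variable [Nonempty κ]

theorem mnk_le (w : κ → ι → ℕ) (k : ι → ℕ) (a : κ) : mnk w k ≤ kw w k a :=
  ciInf_le (OrderBot.bddBelow _) a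

theorem exists_mnk (w : κ → ι → ℕ) (k : ι → ℕ) : ∃ a, kw w k a = mnk w k :=
  exists_eq_ciInf_of_finite

theorem mem_fc {w : κ → ι → ℕ} {k : ι → ℕ} {a : κ} : a ∈ fc w k ↔ kw w k a = mnk w k := by
  unfold fc
  rw [Finset.mem_filter]
  constructor
  · rintro ⟨-, h⟩
    obtain ⟨b, hb⟩ := exists_mnk w k
    exact le_antisymm (hb ▸ h b) (mnk_le w k a)
  · intro h
    exact ⟨Finset.mem_univ _, fun b => h ▸ mnk_le w k b⟩

/-- the bracket in `ct` -/
noncomputable def br (E : HodgeMeasure) (w : κ → ι → ℕ) (a : κ → ℂ) (d K : ℕ) (u : ℝ)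
    (k : ι → ℕ) : ℝ :=
    (if mnk w k = K then Polynomial.aeval u (E.val (WF w a d (fc w k)))
    else if mnk w k < K then
      Polynomial.aeval u (E.val (VF w a (fc w k))) * (u - 1) * u⁻¹ ^ (K - mnk w k)
    else 0)

theorem mnk_tr (w : κ → ι → ℕ) (K : ℕ) (k : ι → ℕ) :
    (mnk w (vec (tr K k)) ≤ K ∧ mnk w k = mnk w (vec (tr K k)) ∧
      fc w k = fc w (vec (tr K k))) ∨ (K < mnk w (vec (tr K k)) ∧ K < mnk w k) := by
  have hle : ∀ a, kw w (vec (tr K k)) a ≤ kw w k a := kw_le fun i => by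
    change min (k i) (K + 1) ≤ k i
    omega
  rcases Nat.lt_or_ge K (mnk w (vec (tr K k))) with h | h
  · right
    refine ⟨h, ?_⟩
    obtain ⟨a, ha⟩ := exists_mnk w k
    rw [← ha]
    exact h.trans_le ((mnk_le w _ a).trans (hle a))
  · left
    obtain ⟨a, ha⟩ := exists_mnk w (vec (tr K k))
    have h1 : kw w k a = mnk w (vec (tr K k)) := by
      rw [kw_tr K k (by rw [ha]; exact h), ha]
    have h2 : mnk w k = mnk w (vec (tr K k)) := by
      apply le_antisymm (h1 ▸ mnk_le w k a)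
      obtain ⟨b, hb⟩ := exists_mnk w k
      rw [← hb]
      exact (mnk_le w _ b).trans (hle b)
    refine ⟨h, h2, ?_⟩
    ext b
    rw [mem_fc, mem_fc, h2]
    constructor
    · intro hb
      exact le_antisymm (hb ▸ hle b) (mnk_le w _ b)
    · intro hb
      rw [kw_tr K k (by rw [hb]; exact h), hb]

theorem br_tr (E : HodgeMeasure) (w : κ → ι → ℕ) (a : κ → ℂ) (d K : ℕ) (u : ℝ) (k : ι → ℕ) :
    br E w a d K u k = br E w a d K u (vec (tr K k)) := by
  rcases mnk_tr w K k with ⟨_, h1, h2⟩ | ⟨h1, h2⟩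
  · unfold br
    rw [h1, h2]
  · unfold br
    rw [if_neg (by omega), if_neg (by omega), if_neg (by omega), if_neg (by omega)]

end

/-! ### the decomposition of the jets -/

section

variable {ι κ : Type} [Fintype ι] [DecidableEq ι] [Fintype κ] [DecidableEq κ]

open Classical in
/-- the order of a coordinate of a jet -/
noncomputable def ord {K : ℕ} (z : (ι × Fin (K + 1)) ⊕ Unit → ℂ) (i : ι) : Fin (K + 2) :=
  if h : ∃ m : ℕ, ∃ hm : m < K + 1, z (Sum.inl (i, ⟨m, hm⟩)) ≠ 0 then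
    ⟨Nat.find h, by
      obtain ⟨h1, _⟩ := Nat.find_spec h
      omega⟩
  else ⟨K + 1, by omega⟩

theorem ord_zero {K : ℕ} (z : (ι × Fin (K + 1)) ⊕ Unit → ℂ) (i : ι) (l : Fin (K + 1))
    (hl : (l : ℕ) < ord z i) : z (Sum.inl (i, l)) = 0 := by
  classical
  by_contra hne
  have h : ∃ m : ℕ, ∃ hm : m < K + 1, z (Sum.inl (i, ⟨m, hm⟩)) ≠ 0 := ⟨l, l.2, hne⟩
  unfold ord at hl
  rw [dif_pos h] at hl
  exact Nat.find_min h hl ⟨l.2, hne⟩

theorem ord_ne {K : ℕ} (z : (ι × Fin (K + 1)) ⊕ Unit → ℂ) (i : ι) (l : Fin (K + 1))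
    (hl : (l : ℕ) = ord z i) : z (Sum.inl (i, l)) ≠ 0 := by
  classical
  unfold ord at hl
  by_cases h : ∃ m : ℕ, ∃ hm : m < K + 1, z (Sum.inl (i, ⟨m, hm⟩)) ≠ 0
  · rw [dif_pos h] at hl
    obtain ⟨h1, h2⟩ := Nat.find_spec h
    have h3 : l = ⟨Nat.find h, h1⟩ := Fin.ext hl
    rw [h3]
    exact h2
  · rw [dif_neg h] at hl
    have := l.2
    change (l : ℕ) = K + 1 at hl
    omega

theorem Jt_eq (w : κ → ι → ℕ) (a : κ → ℂ) (d K : ℕ) (b : ι → Fin (K + 2)) :
    {z | z ∈ jetSet (poly w a) d K ∧ ord z = b} = Jt w a d K (vec b) := by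
  ext z
  constructor
  · rintro ⟨hz, rfl⟩
    exact ⟨hz, fun i l => ⟨ord_zero z i l, ord_ne z i l⟩⟩
  · rintro ⟨hz, h⟩
    refine ⟨hz, ?_⟩
    funext i
    apply Fin.ext
    have hb := (b i).2
    have ho := (ord z i).2
    rcases Nat.lt_trichotomy (ord z i : ℕ) (b i) with h1 | h1 | h1
    · exfalso
      have h2 : (ord z i : ℕ) < K + 1 := by omega
      exact ord_ne z i ⟨ord z i, h2⟩ rfl ((h i ⟨ord z i, h2⟩).1 h1)
    · exact h1
    · exfalso
      have h2 : (b i : ℕ) < K + 1 := by omega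
      exact (h i ⟨b i, h2⟩).2 rfl (ord_zero z i ⟨b i, h2⟩ h1)

theorem val_jetSet (E : HodgeMeasure) (w : κ → ι → ℕ) (a : κ → ℂ) (d K : ℕ) :
    E.val (jetSet (poly w a) d K) = ∑ b : ι → Fin (K + 2), E.val (Jt w a d K (vec b)) := by
  rw [E.toMotivicMeasure.val_fibers (s := jetSet (poly w a) d K) ord (fun b => by
    rw [Jt_eq]
    exact CLS0Aux.cons_Jt w a d K (vec b))]
  exact Finset.sum_congr rfl fun b _ => by rw [Jt_eq]

/-- the product of the factors -/
theorem prod_Sf (K : ℕ) {u : ℝ} (hu : 1 < u) (k : ι → ℕ) :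
    (∏ i, Sf K u (k i)) * (u - 1) ^ (Finset.univ.filter fun i => K < k i).card =
      u ^ (∑ i, (K - k i)) * u⁻¹ ^ (K * Fintype.card ι) := by
  have hu0 : u ≠ 0 := by linarith
  have hu1 : u - 1 ≠ 0 := by linarith
  have h1 : (u - 1) ^ (Finset.univ.filter fun i => K < k i).card =
      ∏ i, (if K < k i then (u - 1) else 1) := by
    rw [Finset.prod_ite]
    simp
  have h2 : u⁻¹ ^ (K * Fintype.card ι) = ∏ _i : ι, u⁻¹ ^ K := by
    rw [Finset.prod_const, Finset.card_univ, ← pow_mul]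
  rw [h1, h2, ← Finset.prod_pow_eq_pow_sum, ← Finset.prod_mul_distrib, ← Finset.prod_mul_distrib]
  refine Finset.prod_congr rfl fun i _ => ?_
  unfold Sf
  by_cases h : k i ≤ K
  · rw [if_pos h, if_neg (by omega), mul_one]
    have h3 : u⁻¹ ^ K = u⁻¹ ^ (K - k i) * u⁻¹ ^ (k i) := by
      rw [← pow_add, Nat.sub_add_cancel h]
    rw [h3, ← mul_assoc, ← mul_pow, mul_inv_cancel₀ hu0, one_pow, one_mul]
  · rw [if_neg h, if_pos (by omega), show K - k i = 0 by omega, pow_zero, one_mul,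
      div_mul_cancel₀ _ hu1]

end

end SUMKAux

open SUMKAux in
theorem stmt_SUMK (hCLS0 : Stmt_CLS0) (hCLS1 : Stmt_CLS1) (hCLS2 : Stmt_CLS2) : Stmt_SUMK := by
  intro ι κ _ _ _ _ _ w a E d K u hNd hd hu
  have hu0 : u ≠ 0 := by linarith
  have hu1 : u - 1 ≠ 0 := by linarith
  have hL : E.toMotivicMeasure.L = Polynomial.X := E.line
  -- the value of each part
  have hval : ∀ k : ι → ℕ, br E w a d K u k * ∏ i, Sf K u (k i) =
      Polynomial.aeval u (E.val (Jt w a d K k)) * u⁻¹ ^ (K * Fintype.card ι) := by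
    intro k
    have hpr := prod_Sf K hu k
    have hB : (u - 1) ^ (Finset.univ.filter fun i => K < k i).card ≠ 0 := pow_ne_zero _ hu1
    apply mul_right_cancel₀ hB
    rw [mul_assoc, hpr]
    unfold br
    rcases Nat.lt_trichotomy (mnk w k) K with h | h | h
    · rw [if_neg (by omega), if_pos h]
      have h1 := congrArg (Polynomial.aeval u) (hCLS1 ι κ w a (Polynomial ℤ)
        E.toMotivicMeasure d K k hNd hd h)
      rw [hL] at h1
      simp only [map_mul, map_pow, map_sub, map_one, Polynomial.aeval_X] at h1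
      have h2 : u ^ (K - mnk w k) ≠ 0 := pow_ne_zero _ hu0
      have h3 : u⁻¹ ^ (K - mnk w k) * u ^ (K - mnk w k) = 1 := by
        rw [← mul_pow, inv_mul_cancel₀ hu0, one_pow]
      apply mul_right_cancel₀ h2
      calc _ = (Polynomial.aeval u (E.val (VF w a (fc w k))) * (u - 1) *
            u ^ (∑ i, (K - k i))) * (u⁻¹ ^ (K - mnk w k) * u ^ (K - mnk w k)) *
              u⁻¹ ^ (K * Fintype.card ι) := by ring
        _ = _ := by rw [h3, mul_one, ← h1]; ring
    · rw [if_pos h]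
      have h1 := congrArg (Polynomial.aeval u) (hCLS0 ι κ w a (Polynomial ℤ)
        E.toMotivicMeasure d K k hd h)
      rw [hL] at h1
      simp only [map_mul, map_pow, map_sub, map_one, Polynomial.aeval_X] at h1
      rw [← mul_assoc, ← h1]
      ring
    · rw [if_neg (by omega), if_neg (by omega), hCLS2 ι κ w a d K k h,
        E.toMotivicMeasure.val_empty]
      simp
  have hsum : ∀ b : ι → Fin (K + 2), HasSum
      (fun k : ι → ℕ => (if tr K k = b then u⁻¹ ^ (∑ i, k i) else 0) * br E w a d K u (vec b))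
      (Polynomial.aeval u (E.val (Jt w a d K (vec b))) * u⁻¹ ^ (K * Fintype.card ι)) := by
    intro b
    rw [← hval, mul_comm (br E w a d K u (vec b))]
    exact (hasSum_tr K hu b).mul_right _
  have h1 := hasSum_sum (s := Finset.univ) (fun b _ => hsum b)
  rw [← Finset.sum_mul, ← map_sum, ← val_jetSet] at h1
  have h2 : (fun k : ι → ℕ => ∑ b : ι → Fin (K + 2),
      (if tr K k = b then u⁻¹ ^ (∑ i, k i) else 0) * br E w a d K u (vec b)) =
      ct E w a d K u := by
    funext k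
    rw [Finset.sum_eq_single (tr K k)]
    · rw [if_pos rfl, ← br_tr]
      rfl
    · intro b _ hb
      rw [if_neg (Ne.symm hb), zero_mul]
    · intro h
      exact absurd (Finset.mem_univ _) h
  rw [h2] at h1
  exact h1

end Pool.Agent.Mono.NP
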