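import Pool.Agent.Work.Monodromy.Interface12C

/-!
# Phase 12, block SUMU (helper22)
-/

set_option autoImplicit false

namespace Pool.Agent.Mono.NP

theorem stmt_SUMU (GRO : Stmt_GRO) : Stmt_SUMU := by
  intro ι κ _ _ _ _ w p hp C g M hC ε hε
  classical
  obtain ⟨a, ha⟩ := hC
  obtain ⟨c₀, hc₀⟩ : ∃ c₀ : ℕ, ∀ v, |g v| + M ≤ (c₀ : ℤ) := by
    refine ⟨(∑ v, (|g v| + M)).toNat, fun v => ?_⟩
    have h1 : |g v| + (M : ℤ) ≤ ∑ v, (|g v| + (M : ℤ)) :=
      Finset.single_le_sum (f := fun v => |g v| + (M : ℤ))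
        (fun v _ => by positivity) (Finset.mem_univ v)
    exact h1.trans (Int.self_le_toNat _)
  have hind : LinearIndependent ℚ fun v : ({Sum.inl a} : Finset (κ ⊕ ι)) => hat w (v : κ ⊕ ι) := by
    have : Unique (({Sum.inl a} : Finset (κ ⊕ ι)) : Type) :=
      ⟨⟨⟨Sum.inl a, Finset.mem_singleton_self _⟩⟩, fun v => Subtype.ext
        (Finset.mem_singleton.mp v.2)⟩
    rw [linearIndependent_unique_iff]
    intro h
    have h1 := congrFun h (Sum.inr ())
    have h2 : ((default : (({Sum.inl a} : Finset (κ ⊕ ι)) : Type)) : κ ⊕ ι) = Sum.inl a :=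
      Finset.mem_singleton.mp (default : (({Sum.inl a} : Finset (κ ⊕ ι)) : Type)).2
    rw [h2] at h1
    simp [hat] at h1
  have hs := (GRO ι κ w p hp {Sum.inl a} c₀ ⟨a, Finset.mem_singleton_self _⟩ hind).1 ε hε
  have hmem : ∀ y ∈ Rg w g M C, (∀ v, -(c₀ : ℤ) ≤ zp w y v) ∧
      ∀ v ∈ ({Sum.inl a} : Finset (κ ⊕ ι)), zp w y v ≤ c₀ := by
    intro y hy
    obtain ⟨h1, h2⟩ := hy
    constructor
    · intro v
      have h3 := h1 v
      have h4 := hc₀ v
      have h5 := le_abs_self (g v)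
      have h6 : (0 : ℤ) ≤ M := Int.natCast_nonneg M
      linarith
    · intro v hv
      rw [Finset.mem_singleton] at hv
      subst hv
      have h3 := h2 _ ha
      have h4 := hc₀ (Sum.inl a)
      have h5 := neg_abs_le (g (Sum.inl a))
      linarith
  exact hs.comp_injective (i := fun y : Rg w g M C =>
    (⟨y.1, hmem y.1 y.2⟩ : {y : ι ⊕ Unit → ℤ // (∀ v, -(c₀ : ℤ) ≤ zp w y v) ∧
      ∀ v ∈ ({Sum.inl a} : Finset (κ ⊕ ι)), zp w y v ≤ c₀}))
    (fun y y' h => Subtype.ext (Subtype.mk.inj h))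

end Pool.Agent.Mono.NP
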