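import Pool.Agent.Work.Monodromy.Interface12C

/-!
# Phase 12, block TOPC: the number of points of the thick vertices (helper63)
-/

set_option autoImplicit false

namespace Pool.Agent.Mono.NP

open MvPolynomial Filter

namespace TOPCAux

variable {ι κ : Type} [Fintype ι] [DecidableEq ι] [Fintype κ] [DecidableEq κ]

omit [Fintype ι] [Fintype κ] [DecidableEq κ] in
theorem hat_eq_zv (w : κ → ι → ℕ) (v : κ ⊕ ι) (e : ι ⊕ Unit) : hat w v e = (zv w v e : ℚ) := by
  rcases v with a | j <;> rcases e with i | i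
  · simp [hat, zv]
  · simp [hat, zv]
  · by_cases hij : i = j
    · subst hij; simp [hat, zv]
    · simp [hat, zv, hij]
  · simp [hat, zv]

/-- the vectors of a maximal cell are linearly independent -/
theorem indep (hTRI1 : Stmt_TRI1) (w : κ → ι → ℕ) (h : κ → ℝ) (hh : LinearIndependent ℚ h)
    (Δ : Finset (κ ⊕ ι)) (hΔ : Δ ∈ maxCells w h) :
    LinearIndependent ℚ fun v : Δ => hat w (v : κ ⊕ ι) := by
  classical
  have hΔ' : Δ.card = Fintype.card ι + 1 ∧ ∃ k : ι → ℝ, (∀ i, 0 ≤ k i) ∧ Δ = cell w h k := by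
    unfold maxCells at hΔ
    exact (Finset.mem_filter.1 hΔ).2
  obtain ⟨-, k, -, hk⟩ := hΔ'
  rw [Fintype.linearIndependent_iff]
  intro g hg
  have h1 := hTRI1 ι κ w h k (fun v => if hv : v ∈ Δ then g ⟨v, hv⟩ else 0) hh (by
    intro v hv
    rw [← hk] at hv
    exact dif_neg hv) (by
    intro e
    rw [← Finset.sum_subset (Finset.subset_univ Δ) (fun v _ hv => by
      rw [dif_neg hv, zero_mul]), ← Finset.sum_coe_sort Δ]
    have h2 := congrFun hg e
    rw [Finset.sum_apply] at h2
    rw [Pi.zero_apply] at h2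
    rw [← h2]
    refine Finset.sum_congr rfl fun v _ => ?_
    rw [dif_pos v.2]
    rfl)
  intro v
  have h2 := h1 v
  rwa [dif_pos v.2] at h2

/-- the vectors of a maximal cell span -/
theorem span_top (hTRI1 : Stmt_TRI1) (w : κ → ι → ℕ) (h : κ → ℝ) (hh : LinearIndependent ℚ h)
    (Δ : Finset (κ ⊕ ι)) (hΔ : Δ ∈ maxCells w h) :
    Submodule.span ℚ (hat w '' (Δ : Set (κ ⊕ ι))) = ⊤ := by
  classical
  have hcard : Δ.card = Fintype.card ι + 1 := by
    unfold maxCells at hΔ
    exact (Finset.mem_filter.1 hΔ).2.1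
  have h1 := (indep hTRI1 w h hh Δ hΔ).span_eq_top_of_card_eq_finrank' (by
    rw [Fintype.card_coe, hcard, Module.finrank_fintype_fun_eq_card, Fintype.card_sum,
      Fintype.card_unit])
  rw [← h1]
  congr 1
  ext x
  simp

omit [DecidableEq κ] in
/-- a lattice point is determined by its pairings with a spanning set -/
theorem zp_inj (w : κ → ι → ℕ) (Δ : Finset (κ ⊕ ι))
    (hs : Submodule.span ℚ (hat w '' (Δ : Set (κ ⊕ ι))) = ⊤) (y y' : ι ⊕ Unit → ℤ)
    (hy : ∀ v ∈ Δ, zp w y v = zp w y' v) : y = y' := by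
  classical
  have h1 : ∀ x ∈ Submodule.span ℚ (hat w '' (Δ : Set (κ ⊕ ι))),
      ∑ e, x e * ((y e : ℚ) - y' e) = 0 := by
    intro x hx
    induction hx using Submodule.span_induction with
    | mem x hx =>
      obtain ⟨v, hv, rfl⟩ := hx
      have h2 : (zp w y v : ℚ) = zp w y' v := by rw [hy v hv]
      unfold zp at h2
      push_cast at h2
      simp only [mul_sub, Finset.sum_sub_distrib, hat_eq_zv]
      linarith
    | zero => simp
    | add x x' _ _ h3 h4 =>
      simp only [Pi.add_apply, add_mul, Finset.sum_add_distrib, h3, h4, add_zero]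
    | smul c x _ h3 =>
      simp only [Pi.smul_apply, smul_eq_mul, mul_assoc, ← Finset.mul_sum, h3, mul_zero]
  funext e
  have h2 := h1 (Pi.single e 1) (by rw [hs]; exact Submodule.mem_top)
  rw [Finset.sum_eq_single e] at h2
  · rw [Pi.single_eq_same, one_mul, sub_eq_zero] at h2
    exact_mod_cast h2
  · intro e' _ he'
    rw [Pi.single_eq_of_ne he', zero_mul]
  · intro he; exact absurd (Finset.mem_univ e) he

end TOPCAux

open TOPCAux in
theorem stmt_TOPC (hAUTO : Stmt_AUTO) (hCNT : Stmt_CNT) (hDETI : Stmt_DETI)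
    (hTRI1 : Stmt_TRI1) : Stmt_TOPC := by
  classical
  intro ι κ _ _ _ _ _ w h hh M R hM hdvd
  obtain ⟨K₀, hK₀⟩ := hAUTO ι κ w h hh M R
  refine ⟨K₀, fun K hK g hg Δ hΔ => ?_⟩
  have hcard : Δ.card = Fintype.card ι + 1 := by
    have := hΔ
    unfold maxCells at this
    exact (Finset.mem_filter.1 this).2.1
  have hs := span_top hTRI1 w h hh Δ hΔ
  obtain ⟨hD1, hD2⟩ := hDETI ι κ w Δ hcard (indep hTRI1 w h hh Δ hΔ)
  have hML : ∀ z : Δ → ℤ, (fun t => (M : ℤ) * z t) ∈ Lt w Δ := by
    intro z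
    obtain ⟨q, hq⟩ := hdvd Δ hΔ
    have h1 := hD2 Δ (Finset.Subset.refl _) (fun t => (q : ℤ) * z t)
    have h2 : (fun t => (M : ℤ) * z t) = fun t => ((Lt w Δ).index : ℤ) * ((q : ℤ) * z t) := by
      funext t
      rw [← mul_assoc]
      congr 1
      exact_mod_cast hq
    rw [h2]; exact h1
  obtain ⟨hf, hn⟩ := hCNT Δ (Lt w Δ) M (fun t => g t) hM hML
  set B : Set (Δ → ℤ) := {b : Δ → ℤ | (∀ t, 0 ≤ b t ∧ b t < M) ∧
    (fun t => b t - g t) ∈ Lt w Δ} with hB
  let f : (ι ⊕ Unit → ℤ) → (Δ → ℤ) := fun y t => zp w y t + g t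
  have hfinj : Function.Injective f := by
    intro y y' hy
    refine zp_inj w Δ hs y y' fun v hv => ?_
    have := congrFun hy ⟨v, hv⟩
    simpa [f] using this
  have himg : f '' (Rg w g M Δ) = B := by
    ext b
    constructor
    · rintro ⟨y, hy, rfl⟩
      refine ⟨fun t => ⟨hy.1 t, hy.2 t t.2⟩, y, fun v => ?_⟩
      simp [f]
    · rintro ⟨hb, y, hy⟩
      have hfy : f y = b := by
        funext t
        have := hy t
        simp only [f]
        linarith
      refine ⟨y, ⟨fun v => ?_, fun v hv => ?_⟩, hfy⟩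
      · refine hK₀ K hK g hg Δ hΔ Δ (Finset.Subset.refl _) y (fun v hv => ?_) v
          (by rw [hs]; exact Submodule.mem_top)
        have := hb ⟨v, hv⟩
        rw [← hfy] at this
        exact this
      · have := hb ⟨v, hv⟩
        rw [← hfy] at this
        exact this.2
  have hfin : (Rg w g M Δ).Finite := by
    refine Set.Finite.of_finite_image ?_ hfinj.injOn
    rw [himg]; exact hf
  refine ⟨hfin, ?_⟩
  rw [← Set.ncard_image_of_injective _ hfinj, himg, ← hD1]
  rw [Fintype.card_coe, hcard] at hn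
  exact_mod_cast hn

end Pool.Agent.Mono.NP
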