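import Pool.Agent.Work.Monodromy.Interface12C

/-!
# Phase 12, block TORC: adapted coordinates preserve the simplices and the box points (helper30)
-/

set_option autoImplicit false
set_option linter.unusedSectionVars false

namespace Pool.Agent.Mono.NP

open Finset

namespace TORCAux

variable {ι κ : Type} [Fintype ι] [DecidableEq ι] [Fintype κ] [DecidableEq κ]

/-- `A B = 1` in rows of `inl` -/
theorem ab {d m : ℕ} {A : Matrix (Fin d ⊕ Fin m) ι ℤ} {B : Matrix ι (Fin d ⊕ Fin m) ℤ}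
    (h : A * B = 1) (j j' : Fin d) :
    ∑ i, A (Sum.inl j) i * B i (Sum.inl j') = if j = j' then 1 else 0 := by
  have h1 : (A * B) (Sum.inl j) (Sum.inl j') = (1 : Matrix (Fin d ⊕ Fin m) (Fin d ⊕ Fin m) ℤ) (Sum.inl j) (Sum.inl j') := by
    rw [h]
  rw [Matrix.mul_apply, Matrix.one_apply] at h1
  rw [h1]
  by_cases hj : j = j'
  · rw [if_pos hj, if_pos (by rw [hj])]
  · rw [if_neg hj, if_neg (by simpa using hj)]

/-- `hval` in adapted coordinates -/
theorem hv {w : κ → ι → ℕ} {F : Finset κ} {a₀ : κ} {d m : ℕ}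
    {A : Matrix (Fin d ⊕ Fin m) ι ℤ} {c : κ → Fin d → ℕ}
    (hw : ∀ v ∈ F, ∀ i, (w v i : ℤ) - w a₀ i = ∑ j, ((c v j : ℤ) - c a₀ j) * A (Sum.inl j) i)
    (h : κ → ℝ) (k : ι → ℝ) (k' : Fin d → ℝ)
    (hk : ∀ j, k' j = ∑ i, (A (Sum.inl j) i : ℝ) * k i) (a : κ) (ha : a ∈ F) :
    hval w h k a = (∑ i, k i * w a₀ i - ∑ j, k' j * c a₀ j) + hval c h k' a := by
  have h1 : ∀ i, (w a i : ℝ) = w a₀ i + ∑ j, ((c a j : ℝ) - c a₀ j) * A (Sum.inl j) i := by
    intro i
    have h2 := hw a ha i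
    have h3 : ((w a i : ℝ) - w a₀ i) = ∑ j, ((c a j : ℝ) - c a₀ j) * A (Sum.inl j) i := by
      exact_mod_cast congrArg (fun z : ℤ => (z : ℝ)) h2
    rw [← h3]; ring
  unfold hval
  have h4 : ∑ i, k i * (w a i : ℝ) = ∑ i, k i * w a₀ i +
      ∑ j, ((c a j : ℝ) - c a₀ j) * k' j := by
    calc ∑ i, k i * (w a i : ℝ)
        = ∑ i, (k i * w a₀ i + ∑ j, ((c a j : ℝ) - c a₀ j) * (A (Sum.inl j) i * k i)) := by
          refine sum_congr rfl fun i _ => ?_
          rw [h1 i, mul_add, mul_sum]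
          congr 1
          exact sum_congr rfl fun j _ => by ring
      _ = ∑ i, k i * w a₀ i + ∑ i, ∑ j, ((c a j : ℝ) - c a₀ j) * (A (Sum.inl j) i * k i) := by
          rw [sum_add_distrib]
      _ = ∑ i, k i * w a₀ i + ∑ j, ((c a j : ℝ) - c a₀ j) * k' j := by
          congr 1
          rw [sum_comm]
          refine sum_congr rfl fun j _ => ?_
          rw [hk j, mul_sum]
  rw [h4]
  have h5 : ∑ j, ((c a j : ℝ) - c a₀ j) * k' j = ∑ j, k' j * c a j - ∑ j, k' j * c a₀ j := by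
    rw [← sum_sub_distrib]
    exact sum_congr rfl fun j _ => by ring
  rw [h5]; ring

/-- the argmin is the same in adapted coordinates -/
theorem am {w : κ → ι → ℕ} {F : Finset κ} {a₀ : κ} {d m : ℕ}
    {A : Matrix (Fin d ⊕ Fin m) ι ℤ} {c : κ → Fin d → ℕ}
    (hw : ∀ v ∈ F, ∀ i, (w v i : ℤ) - w a₀ i = ∑ j, ((c v j : ℤ) - c a₀ j) * A (Sum.inl j) i)
    (h : κ → ℝ) (k : ι → ℝ) (k' : Fin d → ℝ)
    (hk : ∀ j, k' j = ∑ i, (A (Sum.inl j) i : ℝ) * k i) (a : κ) :
    (a ∈ F ∧ ∀ b ∈ F, hval c h k' a ≤ hval c h k' b) ↔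
      (a ∈ F ∧ ∀ b ∈ F, hval w h k a ≤ hval w h k b) := by
  constructor
  · rintro ⟨ha, hb⟩
    refine ⟨ha, fun b hbF => ?_⟩
    rw [hv hw h k k' hk a ha, hv hw h k k' hk b hbF]
    exact add_le_add_right (hb b hbF) _
  · rintro ⟨ha, hb⟩
    refine ⟨ha, fun b hbF => ?_⟩
    have h1 := hb b hbF
    rw [hv hw h k k' hk a ha, hv hw h k k' hk b hbF] at h1
    linarith

/-- integrality in adapted coordinates -/
theorem int {w : κ → ι → ℕ} {F : Finset κ} {a₀ : κ} {d m : ℕ}
    {A : Matrix (Fin d ⊕ Fin m) ι ℤ} {B : Matrix ι (Fin d ⊕ Fin m) ℤ} {c : κ → Fin d → ℕ}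
    (hAB : A * B = 1)
    (hw : ∀ v ∈ F, ∀ i, (w v i : ℤ) - w a₀ i = ∑ j, ((c v j : ℤ) - c a₀ j) * A (Sum.inl j) i)
    (b : κ → ℚ) (hb : ∀ a, a ∉ F → b a = 0) (z₀ : ℤ) (hz : ∑ a, b a = z₀) :
    (∀ j, ∃ z : ℤ, ∑ a, b a * c a j = z) ↔ ∀ i, ∃ z : ℤ, ∑ a, b a * w a i = z := by
  have key : ∀ i, ∑ a, b a * (w a i : ℚ) = z₀ * w a₀ i +
      ∑ j, (∑ a, b a * (c a j : ℚ) - z₀ * c a₀ j) * A (Sum.inl j) i := by
    intro i
    have h1 : ∀ a, b a * (w a i : ℚ) =
        b a * w a₀ i + ∑ j, (b a * c a j - b a * c a₀ j) * A (Sum.inl j) i := by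
      intro a
      by_cases ha : a ∈ F
      · have h2 := hw a ha i
        have h3 : ((w a i : ℚ) - w a₀ i) = ∑ j, ((c a j : ℚ) - c a₀ j) * A (Sum.inl j) i := by
          exact_mod_cast congrArg (fun z : ℤ => (z : ℚ)) h2
        have h4 : (w a i : ℚ) = w a₀ i + ∑ j, ((c a j : ℚ) - c a₀ j) * A (Sum.inl j) i := by
          rw [← h3]; ring
        rw [h4, mul_add, mul_sum]
        congr 1
        exact sum_congr rfl fun j _ => by ring
      · rw [hb a ha]; simp
    rw [sum_congr rfl fun a _ => h1 a, sum_add_distrib, ← sum_mul, hz]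
    congr 1
    rw [sum_comm]
    refine sum_congr rfl fun j _ => ?_
    rw [← sum_mul, sum_sub_distrib, ← sum_mul, hz]
  constructor
  · intro h i
    choose z hz' using h
    refine ⟨z₀ * w a₀ i + ∑ j, (z j - z₀ * c a₀ j) * A (Sum.inl j) i, ?_⟩
    rw [key i]
    push_cast
    congr 1
    exact sum_congr rfl fun j _ => by rw [hz' j]
  · intro h j'
    choose z hz' using h
    have h1 : ∑ i, ((z i : ℚ) - z₀ * w a₀ i) * B i (Sum.inl j') =
        ∑ a, b a * (c a j' : ℚ) - z₀ * c a₀ j' := by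
      have h2 : ∀ i, ((z i : ℚ) - z₀ * w a₀ i) =
          ∑ j, (∑ a, b a * (c a j : ℚ) - z₀ * c a₀ j) * A (Sum.inl j) i := by
        intro i
        rw [← hz' i, key i]; ring
      calc ∑ i, ((z i : ℚ) - z₀ * w a₀ i) * B i (Sum.inl j')
          = ∑ i, ∑ j, (∑ a, b a * (c a j : ℚ) - z₀ * c a₀ j) *
              ((A (Sum.inl j) i : ℚ) * B i (Sum.inl j')) := by
            refine sum_congr rfl fun i _ => ?_
            rw [h2 i, sum_mul]
            exact sum_congr rfl fun j _ => by ring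
        _ = ∑ j, (∑ a, b a * (c a j : ℚ) - z₀ * c a₀ j) * (if j = j' then 1 else 0) := by
            rw [sum_comm]
            refine sum_congr rfl fun j _ => ?_
            rw [← mul_sum]
            congr 1
            have h3 := congrArg (fun z : ℤ => (z : ℚ)) (ab hAB j j')
            simp only [Int.cast_sum, Int.cast_mul] at h3
            rw [h3]
            by_cases hj : j = j'
            · simp [hj]
            · simp [hj]
        _ = _ := by simp
    refine ⟨∑ i, (z i - z₀ * w a₀ i) * B i (Sum.inl j') + z₀ * c a₀ j', ?_⟩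
    push_cast
    rw [h1]; ring

end TORCAux

open TORCAux

/-- TORC: adapted coordinates preserve the simplices and the box points -/
theorem stmt_TORC : Stmt_TORC := by
  intro ι κ _ _ _ _ w h F a₀ d m A B c ha₀ hAB hBA hw hrk
  refine ⟨?_, ?_⟩
  · ext C
    simp only [smp, mem_filter, mem_univ, true_and]
    rw [hrk]
    refine and_congr_right fun _ => ?_
    constructor
    · rintro ⟨k', hk'⟩
      refine ⟨fun i => ∑ j, (B i (Sum.inl j) : ℝ) * k' j, fun a => ?_⟩
      rw [hk' a]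
      refine am hw h _ k' (fun j => ?_) a
      have h1 : ∀ j', ∑ i, (A (Sum.inl j) i : ℝ) * B i (Sum.inl j') =
          if j = j' then 1 else 0 := by
        intro j'
        have h3 := congrArg (fun z : ℤ => (z : ℝ)) (ab hAB j j')
        simp only [Int.cast_sum, Int.cast_mul] at h3
        rw [h3]
        by_cases hj : j = j'
        · simp [hj]
        · simp [hj]
      calc k' j = ∑ j', (if j = j' then (1 : ℝ) else 0) * k' j' := by simp
        _ = ∑ j', (∑ i, (A (Sum.inl j) i : ℝ) * B i (Sum.inl j')) * k' j' :=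
            sum_congr rfl fun j' _ => by rw [h1 j']
        _ = ∑ i, (A (Sum.inl j) i : ℝ) * ∑ j', (B i (Sum.inl j') : ℝ) * k' j' := by
            simp only [sum_mul, mul_sum]
            rw [sum_comm]
            exact sum_congr rfl fun i _ => sum_congr rfl fun j' _ => by ring
    · rintro ⟨k, hk⟩
      refine ⟨fun j => ∑ i, (A (Sum.inl j) i : ℝ) * k i, fun a => ?_⟩
      rw [hk a]
      exact (am hw h k _ (fun j => rfl) a).symm
  · intro C hC
    unfold nuE
    refine Nat.card_congr (Equiv.subtypeEquivRight fun b => ?_)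
    refine and_congr_left fun hden => ?_
    have hz : ∑ a, b a = ((∑ a, b a).num : ℚ) := by
      conv_lhs => rw [← Rat.num_div_den (∑ a, b a)]
      rw [hden]; simp
    simp only [Bx, Set.mem_ofPred_eq]
    refine and_congr_right fun _ => and_congr_right fun hb => ?_
    exact int hAB hw b (fun a ha => hb a fun haC => ha (hC haC)) _ hz

end Pool.Agent.Mono.NP
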