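import Pool.Agent.Work.Monodromy.Interface12C
import Pool.Agent.Work.Monodromy.YM

/-!
# Phase 12, part I, block TORM: the hypersurface of a face splits off a torus (helper96)
-/

set_option autoImplicit false

namespace Pool.Agent.Mono.NP

open MvPolynomial

namespace TORMAux

/-- the torus -/
def Tor (m : ℕ) : Set (Fin m → ℂ) := {x | ∀ i, x i ≠ 0}

theorem cons_Tor (m : ℕ) : Constructible (Tor m) := by
  refine Constructible.all fun i => ?_
  have h := Constructible.ne (X i : MvPolynomial (Fin m) ℂ)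
  simpa only [eval_X] using h

theorem val_Gm {R : Type} [CommRing R] (μ : MotivicMeasure R) :
    μ.val {x : Unit → ℂ | x () ≠ 0} = μ.L - 1 := by
  have h1 := μ.val_compl (s := {x : Unit → ℂ | x = fun _ => 0}) (Constructible.point _)
  rw [μ.val_point] at h1
  rw [← MotivicMeasure.L] at h1
  rw [← h1]
  congr 1
  ext x
  simp only [Set.mem_ofPred_eq, Set.mem_compl_iff]
  constructor
  · intro h h'
    rw [h'] at h
    exact h rfl
  · intro h h'
    apply h
    ext ⟨⟩
    exact h'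

theorem val_Tor {R : Type} [CommRing R] (μ : MotivicMeasure R) (m : ℕ) :
    μ.val (Tor m) = (μ.L - 1) ^ m := by
  induction m with
  | zero =>
    have h : Tor 0 = Set.univ := by
      ext x
      simp only [Tor, Set.mem_ofPred_eq, Set.mem_univ, iff_true]
      intro i
      exact i.elim0
    rw [h, μ.val_univ_fin, pow_zero, pow_zero]
  | succ m ih =>
    have e : Fin m ⊕ Unit ≃ Fin (m + 1) := (Equiv.sumCongr (Equiv.refl _) finOneEquiv.symm).trans
      finSumFinEquiv
    have hG : Constructible {x : Unit → ℂ | x () ≠ 0} := by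
      have h := Constructible.ne (X () : MvPolynomial Unit ℂ)
      simpa only [eval_X] using h
    have h1 := μ.prod _ _ (cons_Tor m) hG
    have h2 := μ.reindex e (s := {x : Fin m ⊕ Unit → ℂ | (fun i => x (Sum.inl i)) ∈ Tor m ∧
      (fun j => x (Sum.inr j)) ∈ {x : Unit → ℂ | x () ≠ 0}}) (Constructible.prodSet (cons_Tor m) hG)
    rw [h1, ih, val_Gm, ← pow_succ] at h2
    rw [← h2]
    congr 1
    ext x
    simp only [Tor, Set.mem_ofPred_eq]
    constructor
    · intro h
      exact ⟨fun i => h _, h _⟩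
    · rintro ⟨h3, h4⟩ i
      obtain ⟨k, rfl⟩ := e.surjective i
      rcases k with k | ⟨⟩
      · exact h3 k
      · exact h4

theorem cons_VF {ι κ : Type} [Fintype ι] [DecidableEq ι] [Fintype κ] [DecidableEq κ]
    (w : κ → ι → ℕ) (a : κ → ℂ) (F : Finset κ) : Constructible (VF w a F) := by
  refine Constructible.and (Constructible.all fun i => ?_) ?_
  · have h := Constructible.ne (X i : MvPolynomial ι ℂ)
    simpa only [eval_X] using h
  · have h := Constructible.zero (∑ v ∈ F, C (a v) * ∏ i, (X i : MvPolynomial ι ℂ) ^ w v i)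
    have h2 : {x : ι → ℂ | ∑ v ∈ F, a v * ∏ i, x i ^ w v i = 0} =
        {x | eval x (∑ v ∈ F, C (a v) * ∏ i, (X i : MvPolynomial ι ℂ) ^ w v i) = 0} := by
      ext x
      simp only [Set.mem_ofPred_eq, map_sum, map_mul, map_prod, map_pow, eval_X, eval_C]
    rw [h2]
    exact h

/-- monomial maps -/
noncomputable def mon {α β : Type} [Fintype β] (N : Matrix α β ℤ) (y : β → ℂ) (i : α) : ℂ :=
  ∏ j, y j ^ N i j

theorem prod_zpow' {β : Type} (s : Finset β) (z : ℂ) (hz : z ≠ 0) (n : β → ℤ) :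
    ∏ j ∈ s, z ^ n j = z ^ ∑ j ∈ s, n j := by
  classical
  induction s using Finset.induction_on with
  | empty => simp
  | insert b s hb ih => rw [Finset.prod_insert hb, Finset.sum_insert hb, zpow_add₀ hz, ih]

theorem mon_ne {α β : Type} [Fintype β] (N : Matrix α β ℤ) (y : β → ℂ) (hy : ∀ j, y j ≠ 0)
    (i : α) : mon N y i ≠ 0 :=
  Finset.prod_ne_zero_iff.2 fun j _ => zpow_ne_zero _ (hy j)

theorem mon_mon {α β γ : Type} [Fintype β] [Fintype γ] (M : Matrix α β ℤ) (N : Matrix β γ ℤ)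
    (y : γ → ℂ) (hy : ∀ j, y j ≠ 0) : mon M (mon N y) = mon (M * N) y := by
  funext i
  change ∏ j, (∏ k, y k ^ N j k) ^ M i j = ∏ k, y k ^ (M * N) i k
  have h1 : ∀ j, (∏ k, y k ^ N j k) ^ M i j = ∏ k, y k ^ (M i j * N j k) := by
    intro j
    rw [← Finset.prod_zpow]
    exact Finset.prod_congr rfl fun k _ => by rw [← zpow_mul, mul_comm]
  rw [Finset.prod_congr rfl fun j _ => h1 j, Finset.prod_comm]
  refine Finset.prod_congr rfl fun k _ => ?_
  rw [prod_zpow' _ _ (hy k), Matrix.mul_apply]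

theorem mon_one {α : Type} [Fintype α] [DecidableEq α] (y : α → ℂ) :
    mon (1 : Matrix α α ℤ) y = y := by
  funext i
  change ∏ j, y j ^ (1 : Matrix α α ℤ) i j = y i
  rw [Finset.prod_eq_single i]
  · rw [Matrix.one_apply_eq, zpow_one]
  · intro j _ hj
    rw [Matrix.one_apply_ne (Ne.symm hj), zpow_zero]
  · intro hi
    exact absurd (Finset.mem_univ i) hi

section

variable {ι κ : Type} [Fintype ι] [DecidableEq ι] [Fintype κ] [DecidableEq κ] (w : κ → ι → ℕ)
    (a : κ → ℂ) (F : Finset κ) (a₀ : κ) (d m : ℕ) (A : Matrix (Fin d ⊕ Fin m) ι ℤ)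
    (c : κ → Fin d → ℕ)

theorem key (h : ∀ v ∈ F, ∀ i, (w v i : ℤ) - w a₀ i =
    ∑ j, ((c v j : ℤ) - c a₀ j) * A (Sum.inl j) i) (x : ι → ℂ) (hx : ∀ i, x i ≠ 0) :
    (∑ v ∈ F, a v * ∏ i, x i ^ w v i) * ∏ j, mon A x (Sum.inl j) ^ c a₀ j =
      (∏ i, x i ^ w a₀ i) * ∑ v ∈ F, a v * ∏ j, mon A x (Sum.inl j) ^ c v j := by
  rw [Finset.sum_mul, Finset.mul_sum]
  refine Finset.sum_congr rfl fun v hv => ?_
  have h1 : ∏ j, mon A x (Sum.inl j) ^ ((c v j : ℤ) - c a₀ j) =
      ∏ i, x i ^ ((w v i : ℤ) - w a₀ i) := by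
    have h2 : ∀ j, mon A x (Sum.inl j) ^ ((c v j : ℤ) - c a₀ j) =
        ∏ i, x i ^ (((c v j : ℤ) - c a₀ j) * A (Sum.inl j) i) := by
      intro j
      change (∏ i, x i ^ A (Sum.inl j) i) ^ ((c v j : ℤ) - c a₀ j) = _
      rw [← Finset.prod_zpow]
      exact Finset.prod_congr rfl fun i _ => by rw [← zpow_mul, mul_comm]
    rw [Finset.prod_congr rfl fun j _ => h2 j, Finset.prod_comm]
    refine Finset.prod_congr rfl fun i _ => ?_
    rw [prod_zpow' _ _ (hx i), h v hv i]
  have h3 : ∏ j, mon A x (Sum.inl j) ^ ((c v j : ℤ) - c a₀ j) =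
      (∏ j, mon A x (Sum.inl j) ^ c v j) / ∏ j, mon A x (Sum.inl j) ^ c a₀ j := by
    rw [← Finset.prod_div_distrib]
    refine Finset.prod_congr rfl fun j _ => ?_
    rw [zpow_sub₀ (mon_ne A x hx _), zpow_natCast, zpow_natCast]
  have h4 : ∏ i, x i ^ ((w v i : ℤ) - w a₀ i) = (∏ i, x i ^ w v i) / ∏ i, x i ^ w a₀ i := by
    rw [← Finset.prod_div_distrib]
    refine Finset.prod_congr rfl fun i _ => ?_
    rw [zpow_sub₀ (hx i), zpow_natCast, zpow_natCast]
  have h5 : ∏ j, mon A x (Sum.inl j) ^ c a₀ j ≠ 0 :=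
    Finset.prod_ne_zero_iff.2 fun j _ => pow_ne_zero _ (mon_ne A x hx _)
  have h6 : ∏ i, x i ^ w a₀ i ≠ 0 :=
    Finset.prod_ne_zero_iff.2 fun i _ => pow_ne_zero _ (hx i)
  rw [h3, h4, div_eq_div_iff h5 h6] at h1
  linear_combination (-a v) * h1

theorem iff_zero (h : ∀ v ∈ F, ∀ i, (w v i : ℤ) - w a₀ i =
    ∑ j, ((c v j : ℤ) - c a₀ j) * A (Sum.inl j) i) (x : ι → ℂ) (hx : ∀ i, x i ≠ 0) :
    ∑ v ∈ F, a v * ∏ i, x i ^ w v i = 0 ↔
      ∑ v ∈ F, a v * ∏ j, mon A x (Sum.inl j) ^ c v j = 0 := by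
  have hk := key w a F a₀ d m A c h x hx
  have h5 : ∏ j, mon A x (Sum.inl j) ^ c a₀ j ≠ 0 :=
    Finset.prod_ne_zero_iff.2 fun j _ => pow_ne_zero _ (mon_ne A x hx _)
  have h6 : ∏ i, x i ^ w a₀ i ≠ 0 :=
    Finset.prod_ne_zero_iff.2 fun i _ => pow_ne_zero _ (hx i)
  constructor
  · intro h7
    rw [h7, zero_mul] at hk
    exact (mul_eq_zero.1 hk.symm).resolve_left h6
  · intro h7
    rw [h7, mul_zero] at hk
    exact (mul_eq_zero.1 hk).resolve_right h5

end

end TORMAux

open TORMAux in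
theorem stmt_TORM : Stmt_TORM := by
  classical
  intro ι κ _ _ _ _ w a F a₀ d m A B c ha₀ hAB hBA h R _ μ
  let N : ℕ := ∑ i, ∑ j, (B i j).natAbs
  have hN : ∀ i j, 0 ≤ B i j + (N : ℤ) := by
    intro i j
    have h1 : (B i j).natAbs ≤ N :=
      (Finset.single_le_sum (f := fun j => (B i j).natAbs) (fun _ _ => Nat.zero_le _)
        (Finset.mem_univ j)).trans
      (Finset.single_le_sum (f := fun i => ∑ j, (B i j).natAbs) (fun _ _ => Nat.zero_le _)
        (Finset.mem_univ i))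
    omega
  let s : Set (Fin d ⊕ Fin m → ℂ) := {x | (fun i => x (Sum.inl i)) ∈ VF c a F ∧
    (fun j => x (Sum.inr j)) ∈ Tor m}
  have hs : Constructible s := Constructible.prodSet (cons_VF c a F) (cons_Tor m)
  have hne : ∀ y ∈ s, ∀ j, y j ≠ 0 := by
    rintro y ⟨h1, h2⟩ (j | j)
    · exact h1.1 j
    · exact h2 j
  let num : ι → MvPolynomial (Fin d ⊕ Fin m) ℂ := fun i => ∏ j, X j ^ (B i j + N).toNat
  let den : MvPolynomial (Fin d ⊕ Fin m) ℂ := ∏ j, X j ^ N
  have hev : ∀ y : Fin d ⊕ Fin m → ℂ, (∀ j, y j ≠ 0) →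
      (fun i => eval y (num i) / eval y den) = mon B y := by
    intro y hy
    funext i
    simp only [num, den, map_prod, map_pow, eval_X]
    rw [← Finset.prod_div_distrib, mon]
    refine Finset.prod_congr rfl fun j _ => ?_
    rw [div_eq_iff (pow_ne_zero _ (hy j)), ← zpow_natCast, ← zpow_natCast,
      Int.toNat_of_nonneg (hN i j), zpow_add₀ (hy j)]
  have hval : μ.val s = μ.val (VF w a F) := by
    apply stmt_YM R μ _ _ s (VF w a F) num den hs (cons_VF w a F)
    · intro y hy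
      simp only [den, map_prod, map_pow, eval_X]
      exact Finset.prod_ne_zero_iff.2 fun j _ => pow_ne_zero _ (hne y hy j)
    · refine ⟨?_, ?_, ?_⟩
      · intro y hy
        change (fun i => eval y (num i) / eval y den) ∈ VF w a F
        rw [hev y (hne y hy)]
        refine ⟨mon_ne B y (hne y hy), ?_⟩
        rw [iff_zero w a F a₀ d m A c h _ (mon_ne B y (hne y hy)), mon_mon A B y (hne y hy), hAB,
          mon_one]
        exact hy.1.2
      · intro y hy y' hy' hyy
        change (fun i => eval y (num i) / eval y den) =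
          (fun i => eval y' (num i) / eval y' den) at hyy
        rw [hev y (hne y hy), hev y' (hne y' hy')] at hyy
        have h1 := congrArg (mon A) hyy
        rwa [mon_mon A B y (hne y hy), mon_mon A B y' (hne y' hy'), hAB, mon_one, mon_one] at h1
      · intro x hx
        have hA := mon_ne A x hx.1
        refine ⟨mon A x, ⟨⟨fun j => hA _, ?_⟩, fun j => hA _⟩, ?_⟩
        · exact (iff_zero w a F a₀ d m A c h x hx.1).1 hx.2
        · change (fun i => eval (mon A x) (num i) / eval (mon A x) den) = x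
          rw [hev _ hA, mon_mon B A x hx.1, hBA, mon_one]
  rw [← hval, μ.prod _ _ (cons_VF c a F) (cons_Tor m), val_Tor, mul_comm]

end Pool.Agent.Mono.NP
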