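import Pool.Agent.Work.Monodromy.Interface12C

/-!
# Block VERT of phase 12, part I (helper54)
-/

set_option autoImplicit false
namespace Pool.Agent.Mono.NP
namespace VERTAux

open Classical in
theorem step (J τ : Type) [Fintype J] [Fintype τ] (L : τ → J → ℝ) (c : τ → ℝ)
    (hspan : Submodule.span ℝ (Set.range L) = ⊤) (y₀ : J → ℝ)
    (h0 : ∀ t, 0 ≤ ∑ j, L t j * y₀ j + c t)
    (hW : Submodule.span ℝ (L '' {t | ∑ j, L t j * y₀ j + c t = 0}) ≠ ⊤) :
    ∃ y : J → ℝ, (∀ t, 0 ≤ ∑ j, L t j * y j + c t) ∧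
      (∀ t, ∑ j, L t j * y₀ j + c t = 0 → ∑ j, L t j * y j + c t = 0) ∧
      ∃ t, ∑ j, L t j * y₀ j + c t ≠ 0 ∧ ∑ j, L t j * y j + c t = 0 := by
  obtain ⟨f, hf0, hf⟩ := Submodule.exists_le_ker_of_lt_top _ (lt_top_iff_ne_top.mpr hW)
  have hfx : ∀ x : J → ℝ, f x = ∑ j, x j * f (Pi.single j 1) := by
    intro x
    have hx : x = ∑ j, x j • (Pi.single j (1 : ℝ) : J → ℝ) := by
      ext i
      simp [Finset.sum_apply, Pi.single_apply]
    conv_lhs => rw [hx]
    rw [map_sum]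
    exact Finset.sum_congr rfl fun j _ => by rw [map_smul, smul_eq_mul]
  have key : ∃ ρ : J → ℝ, (∀ t, ∑ j, L t j * y₀ j + c t = 0 → ∑ j, L t j * ρ j = 0) ∧
      ∃ t, ∑ j, L t j * ρ j < 0 := by
    have h1 : ∀ t, ∑ j, L t j * y₀ j + c t = 0 → f (L t) = 0 := fun t ht =>
      LinearMap.mem_ker.mp (hf (Submodule.subset_span ⟨t, ht, rfl⟩))
    have h2 : ∃ t, f (L t) ≠ 0 := by
      by_contra hcon
      have hcon : ∀ t, f (L t) = 0 := fun t => by
        by_contra h
        exact hcon ⟨t, h⟩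
      apply hf0
      have : Submodule.span ℝ (Set.range L) ≤ LinearMap.ker f := by
        rw [Submodule.span_le]
        rintro _ ⟨t, rfl⟩
        exact LinearMap.mem_ker.mpr (hcon t)
      rw [hspan, top_le_iff, LinearMap.ker_eq_top] at this
      exact this
    obtain ⟨t, ht⟩ := h2
    rcases lt_or_gt_of_ne ht with hlt | hgt
    · refine ⟨fun j => f (Pi.single j 1), fun t' ht' => ?_, t, ?_⟩
      · rw [← hfx, h1 t' ht']
      · rw [← hfx]; exact hlt
    · refine ⟨fun j => - f (Pi.single j 1), fun t' ht' => ?_, t, ?_⟩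
      · have := h1 t' ht'
        rw [hfx] at this
        simp only [mul_neg, Finset.sum_neg_distrib, this, neg_zero]
      · rw [hfx] at hgt
        simp only [mul_neg, Finset.sum_neg_distrib]
        linarith
  obtain ⟨ρ, hρ0, t₁, ht₁⟩ := key
  have hne : (Finset.univ.filter fun t => ∑ j, L t j * ρ j < 0).Nonempty :=
    ⟨t₁, by simpa using ht₁⟩
  obtain ⟨t₂, ht₂, hmin⟩ := Finset.exists_min_image (Finset.univ.filter fun t => ∑ j, L t j * ρ j < 0)
    (fun t => (∑ j, L t j * y₀ j + c t) / (-∑ j, L t j * ρ j)) hne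
  have ht₂' : ∑ j, L t₂ j * ρ j < 0 := by simpa using ht₂
  set r := (∑ j, L t₂ j * y₀ j + c t₂) / (-∑ j, L t₂ j * ρ j) with hr
  have hr0 : 0 ≤ r := div_nonneg (h0 t₂) (by linarith)
  have hval : ∀ t, ∑ j, L t j * (y₀ j + r * ρ j) + c t =
      (∑ j, L t j * y₀ j + c t) + r * ∑ j, L t j * ρ j := by
    intro t
    have : ∑ j, L t j * (y₀ j + r * ρ j) = ∑ j, L t j * y₀ j + r * ∑ j, L t j * ρ j := by
      rw [Finset.mul_sum, ← Finset.sum_add_distrib]
      exact Finset.sum_congr rfl fun j _ => by ring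
    rw [this]; ring
  refine ⟨fun j => y₀ j + r * ρ j, fun t => ?_, fun t ht => ?_, t₂, ?_, ?_⟩
  · rw [hval]
    by_cases h : ∑ j, L t j * ρ j < 0
    · have h3 := hmin t (by simpa using h)
      rw [le_div_iff₀ (by linarith)] at h3
      nlinarith
    · have h3 := h0 t
      have : 0 ≤ r * ∑ j, L t j * ρ j := mul_nonneg hr0 (not_lt.mp h)
      linarith
  · rw [hval, ht, hρ0 t ht]; simp
  · intro hcon
    have := hρ0 t₂ hcon
    linarith
  · rw [hval, hr]
    have : -∑ j, L t₂ j * ρ j ≠ 0 := by linarith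
    have h5 : (∑ j, L t₂ j * y₀ j + c t₂) / (-∑ j, L t₂ j * ρ j) * (-∑ j, L t₂ j * ρ j) =
      ∑ j, L t₂ j * y₀ j + c t₂ := div_mul_cancel₀ _ this
    linarith

open Classical in
theorem main (J τ : Type) [Fintype J] [Fintype τ] (L : τ → J → ℝ) (c : τ → ℝ)
    (hspan : Submodule.span ℝ (Set.range L) = ⊤) : ∀ (n : ℕ) (y₀ : J → ℝ),
    (Finset.univ.filter fun t => ∑ j, L t j * y₀ j + c t ≠ 0).card = n →
    (∀ t, 0 ≤ ∑ j, L t j * y₀ j + c t) →
    ∃ y : J → ℝ, (∀ t, 0 ≤ ∑ j, L t j * y j + c t) ∧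
      (∀ t, ∑ j, L t j * y₀ j + c t = 0 → ∑ j, L t j * y j + c t = 0) ∧
      Submodule.span ℝ (L '' {t | ∑ j, L t j * y j + c t = 0}) = ⊤ := by
  intro n
  induction n using Nat.strong_induction_on with
  | _ n ih =>
    intro y₀ hn h0
    by_cases hW : Submodule.span ℝ (L '' {t | ∑ j, L t j * y₀ j + c t = 0}) = ⊤
    · exact ⟨y₀, h0, fun t ht => ht, hW⟩
    · obtain ⟨y₁, h1, h2, t, ht, ht'⟩ := step J τ L c hspan y₀ h0 hW
      have hlt : (Finset.univ.filter fun t => ∑ j, L t j * y₁ j + c t ≠ 0).card < n := by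
        rw [← hn]
        apply Finset.card_lt_card
        rw [Finset.ssubset_iff_of_subset]
        · exact ⟨t, by simpa using ht, by simpa using ht'⟩
        · intro t' ht'
          simp only [Finset.mem_filter, Finset.mem_univ, true_and] at ht' ⊢
          exact fun h => ht' (h2 t' h)
      obtain ⟨y, hy1, hy2, hy3⟩ := ih _ hlt y₁ rfl h1
      exact ⟨y, hy1, fun t ht => hy2 t (h2 t ht), hy3⟩

end VERTAux

theorem stmt_VERT : Stmt_VERT := by
  intro J τ _ _ L c y₀ hspan h0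
  exact VERTAux.main J τ L c hspan _ y₀ rfl h0

end Pool.Agent.Mono.NP
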