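import Pool.Agent.Work.Monodromy.Interface12C

/-!
# Phase 12, part I, block VOLB: the volume is the number of box points (helper96)
-/

set_option autoImplicit false

namespace Pool.Agent.Mono.NP

namespace VOLBAux

theorem fullDim (κ : Type) [Fintype κ] [DecidableEq κ] (d : ℕ) (w : κ → Fin d → ℕ)
    (hrk : rk w Finset.univ = d + 1) : FullDim w := by
  intro ρ z hρ
  have htop : Submodule.span ℚ ((fun a => hat w (Sum.inl a)) '' ((Finset.univ : Finset κ) : Set κ))
      = ⊤ := by
    apply Submodule.eq_top_of_finrank_eq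
    rw [Module.finrank_fintype_fun_eq_card, Fintype.card_sum, Fintype.card_fin,
      Fintype.card_unit]
    exact hrk
  let φ : (Fin d ⊕ Unit → ℚ) →ₗ[ℚ] ℚ :=
    { toFun := fun x => ∑ i, ρ i * x (Sum.inl i) - z * x (Sum.inr ())
      map_add' := by
        intro x y
        simp only [Pi.add_apply, mul_add, Finset.sum_add_distrib]
        ring
      map_smul' := by
        intro c x
        simp only [Pi.smul_apply, smul_eq_mul, RingHom.id_apply, mul_sub, Finset.mul_sum]
        congr 1
        · exact Finset.sum_congr rfl fun i _ => by ring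
        · ring }
  have hφ : ∀ x, φ x = 0 := by
    intro x
    have hx : x ∈ Submodule.span ℚ
        ((fun a => hat w (Sum.inl a)) '' ((Finset.univ : Finset κ) : Set κ)) := by
      rw [htop]; trivial
    have hle : Submodule.span ℚ
        ((fun a => hat w (Sum.inl a)) '' ((Finset.univ : Finset κ) : Set κ)) ≤
        LinearMap.ker φ := by
      rw [Submodule.span_le]
      rintro _ ⟨a, -, rfl⟩
      change φ (hat w (Sum.inl a)) = 0
      change ∑ i, ρ i * (w a i : ℚ) - z * 1 = 0
      rw [hρ a, mul_one, sub_self]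
    exact hle hx
  funext i
  have h1 := hφ (Pi.single (Sum.inl i) 1)
  change ∑ j, ρ j * (Pi.single (Sum.inl i) (1 : ℚ) : Fin d ⊕ Unit → ℚ) (Sum.inl j) -
    z * (Pi.single (Sum.inl i) (1 : ℚ) : Fin d ⊕ Unit → ℚ) (Sum.inr ()) = 0 at h1
  rw [Finset.sum_eq_single i] at h1
  · simpa using h1
  · intro j _ hj
    rw [Pi.single_eq_of_ne (by simpa using hj), mul_zero]
  · intro hi
    exact absurd (Finset.mem_univ i) hi

theorem linInd {ι κ : Type} [Fintype ι] [DecidableEq ι] [Fintype κ] [DecidableEq κ]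
    (w : κ → ι → ℕ) (C : Finset κ)
    (hC : LinearIndependent ℚ fun a : C => hat w (Sum.inl (a : κ))) :
    LinearIndependent ℚ fun v : (inl C : Finset (κ ⊕ ι)) => hat w (v : κ ⊕ ι) := by
  have hmem : ∀ v : (inl C : Finset (κ ⊕ ι)), ∃ a : C, (v : κ ⊕ ι) = Sum.inl (a : κ) := by
    rintro ⟨v, hv⟩
    rw [inl, Finset.mem_map] at hv
    obtain ⟨a, ha, rfl⟩ := hv
    exact ⟨⟨a, ha⟩, rfl⟩
  choose f hf using hmem
  have hinj : Function.Injective f := by
    intro v v' hvv
    apply Subtype.ext
    rw [hf v, hf v', hvv]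
  have h := hC.comp f hinj
  have he : ((fun a : C => hat w (Sum.inl (a : κ))) ∘ f) =
      fun v : (inl C : Finset (κ ⊕ ι)) => hat w (v : κ ⊕ ι) := by
    funext v
    change hat w (Sum.inl ((f v : C) : κ)) = hat w (v : κ ⊕ ι)
    rw [hf v]
  rw [he] at h
  exact h

end VOLBAux

theorem stmt_VOLB (hCELI : Stmt_CELI) (hDETI : Stmt_DETI) (hIDX : Stmt_IDX) : Stmt_VOLB := by
  classical
  intro κ _ _ d w h hrk hli
  refine ⟨VOLBAux.fullDim κ d w hrk, ?_⟩
  have hset : (Finset.univ : Finset (Finset κ)).filter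
      (fun C => C.card = d + 1 ∧ ∃ k, ArgM w h C k) = smp w h Finset.univ := by
    ext C
    rw [smp, Finset.mem_filter, Finset.mem_filter, hrk]
    simp only [Finset.mem_univ, true_and, true_implies, ArgM]
  have h1 : VolT w h = ∑ C ∈ smp w h Finset.univ, adet w (inl C) := by
    rw [← hset, VolT]
  rw [h1]
  refine Finset.sum_congr rfl fun C hC => ?_
  rw [← hset, Finset.mem_filter] at hC
  obtain ⟨-, hcard, k, hk⟩ := hC
  have hind := hCELI (Fin d) κ w h hli k C fun a ha b hb =>
    le_antisymm ((hk a).1 ha b) ((hk b).1 hb a)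
  have hcard' : (inl C : Finset (κ ⊕ Fin d)).card = Fintype.card (Fin d) + 1 := by
    rw [inl, Finset.card_map, hcard, Fintype.card_fin]
  have hdet := (hDETI (Fin d) κ w (inl C) hcard' (VOLBAux.linInd w C hind)).1
  rw [← hdet, (hIDX (Fin d) κ w C hind).1]

end Pool.Agent.Mono.NP
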