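import Pool.Agent.Work.Monodromy.Interface12C

/-!
# Block XPD: the coefficients of `f` on an arc (helper69)
-/

set_option autoImplicit false

namespace Pool.Agent.Mono.NP

open MvPolynomial

namespace XPDAux

variable {ι κ : Type} [Fintype ι] [DecidableEq ι] [Fintype κ] [DecidableEq κ]

theorem coeff_jet {K : ℕ} (z : ι × Fin (K + 1) → ℂ) (i : ι) (l : ℕ) :
    (jet z i).coeff l = if h : l < K + 1 then z (i, ⟨l, h⟩) else 0 := by
  rw [jet, Polynomial.finsetSum_coeff]
  by_cases h : l < K + 1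
  · rw [dif_pos h, Finset.sum_eq_single (⟨l, h⟩ : Fin (K + 1))]
    · rw [Polynomial.coeff_C_mul_X_pow, if_pos rfl]
    · intro b _ hb
      rw [Polynomial.coeff_C_mul_X_pow, if_neg]
      intro h'
      exact hb (Fin.ext h'.symm)
    · exact fun h' => absurd (Finset.mem_univ _) h'
  · rw [dif_neg h]
    apply Finset.sum_eq_zero
    intro b _
    rw [Polynomial.coeff_C_mul_X_pow, if_neg]
    rintro rfl
    exact h b.2

theorem X_pow_dvd_jet {K : ℕ} (z : ι × Fin (K + 1) → ℂ) (i : ι) (k : ℕ)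
    (hz : ∀ l : Fin (K + 1), (l : ℕ) < k → z (i, l) = 0) :
    (Polynomial.X : Polynomial ℂ) ^ k ∣ jet z i := by
  rw [Polynomial.X_pow_dvd_iff]
  intro d hd
  rw [coeff_jet]
  split_ifs with h
  · exact hz ⟨d, h⟩ hd
  · rfl

theorem aeval_poly (w : κ → ι → ℕ) (a : κ → ℂ) (x : ι → Polynomial ℂ) :
    (aeval x (poly w a) : Polynomial ℂ) = ∑ v, Polynomial.C (a v) * ∏ i, x i ^ w v i := by
  rw [poly, map_sum]
  refine Finset.sum_congr rfl fun v _ => ?_
  rw [map_mul, aeval_C, map_prod]
  congr 1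
  refine Finset.prod_congr rfl fun i _ => ?_
  rw [map_pow, aeval_X]

theorem prod_X (w : κ → ι → ℕ) (k : ι → ℕ) (U : ι → Polynomial ℂ) (v : κ) :
    ∏ i, (Polynomial.X ^ k i * U i) ^ w v i =
      Polynomial.X ^ kw w k v * ∏ i, U i ^ w v i := by
  have : ∀ i, (Polynomial.X ^ k i * U i) ^ w v i =
      (Polynomial.X : Polynomial ℂ) ^ (k i * w v i) * U i ^ w v i := by
    intro i
    rw [mul_pow, ← pow_mul]
  rw [Finset.prod_congr rfl fun i _ => this i, Finset.prod_mul_distrib, Finset.prod_pow_eq_pow_sum]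
  rfl

theorem mnk_le [Nonempty κ] (w : κ → ι → ℕ) (k : ι → ℕ) (v : κ) : mnk w k ≤ kw w k v :=
  ciInf_le (OrderBot.bddBelow _) v

theorem mem_fc [Nonempty κ] (w : κ → ι → ℕ) (k : ι → ℕ) (v : κ) :
    v ∈ fc w k ↔ kw w k v = mnk w k := by
  classical
  rw [fc, Finset.mem_filter]
  constructor
  · rintro ⟨_, h⟩
    exact le_antisymm (le_ciInf h) (mnk_le w k v)
  · intro h
    exact ⟨Finset.mem_univ _, fun b => h.trans_le (mnk_le w k b)⟩

theorem lt_of_not_mem_fc [Nonempty κ] (w : κ → ι → ℕ) (k : ι → ℕ) (v : κ) (h : v ∉ fc w k) :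
    mnk w k < kw w k v :=
  lt_of_le_of_ne (mnk_le w k v) fun h' => h ((mem_fc w k v).2 h'.symm)

theorem le_kw (w : κ → ι → ℕ) (k : ι → ℕ) (v : κ) (i : ι) (h : w v i ≠ 0) : k i ≤ kw w k v := by
  calc k i ≤ k i * w v i := Nat.le_mul_of_pos_right _ (Nat.pos_of_ne_zero h)
    _ ≤ kw w k v := Finset.single_le_sum (f := fun i => k i * w v i) (fun _ _ => Nat.zero_le _)
        (Finset.mem_univ i)

end XPDAux

open XPDAux

/-- XPD -/
theorem stmt_XPD : Stmt_XPD := by
  intro ι κ _ _ _ _ _ w a K k z hz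
  choose U hU using fun i => X_pow_dvd_jet z i (k i) (hz i)
  have hjet : jet z = fun i => Polynomial.X ^ k i * U i := funext hU
  have haev : (aeval (jet z) (poly w a) : Polynomial ℂ) =
      ∑ v, Polynomial.C (a v) * (Polynomial.X ^ kw w k v * ∏ i, U i ^ w v i) := by
    rw [aeval_poly, hjet]
    exact Finset.sum_congr rfl fun v _ => by rw [prod_X]
  have hcU : ∀ i (h : k i < K + 1), (U i).coeff 0 = z (i, ⟨k i, h⟩) := by
    intro i h
    have h1 : (jet z i).coeff (k i) = (U i).coeff 0 := by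
      rw [hU i, Polynomial.coeff_X_pow_mul', if_pos le_rfl, Nat.sub_self]
    rw [← h1, coeff_jet, dif_pos h]
  have hx : mnk w k ≤ K → ∀ x : ι → ℂ,
      (∀ (i : ι) (l : Fin (K + 1)), (l : ℕ) = k i → x i = z (i, l)) →
      ∀ v ∈ fc w k, ∀ i, w v i ≠ 0 → (U i).coeff 0 = x i := by
    intro hm x hx v hv i hi
    have h1 : k i < K + 1 := by
      have h2 := le_kw w k v i hi
      rw [(mem_fc w k v).1 hv] at h2
      omega
    rw [hcU i h1, hx i ⟨k i, h1⟩ rfl]
  refine ⟨fun l hl _ => ?_, fun hm x hxz => ?_, ?_⟩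
  · rw [haev, Polynomial.finsetSum_coeff]
    apply Finset.sum_eq_zero
    intro v _
    rw [Polynomial.coeff_C_mul, Polynomial.coeff_X_pow_mul',
      if_neg (not_le.2 (lt_of_lt_of_le hl (mnk_le w k v))), mul_zero]
  · rw [haev, Polynomial.finsetSum_coeff, ← Finset.sum_subset (Finset.subset_univ (fc w k))]
    · refine Finset.sum_congr rfl fun v hv => ?_
      rw [Polynomial.coeff_C_mul, Polynomial.coeff_X_pow_mul', (mem_fc w k v).1 hv, if_pos le_rfl,
        Nat.sub_self, Polynomial.coeff_zero_eq_eval_zero, Polynomial.eval_prod]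
      congr 1
      refine Finset.prod_congr rfl fun i _ => ?_
      rw [Polynomial.eval_pow, ← Polynomial.coeff_zero_eq_eval_zero]
      by_cases hi : w v i = 0
      · rw [hi, pow_zero, pow_zero]
      · rw [hx hm x hxz v hv i hi]
    · intro v _ hv
      rw [Polynomial.coeff_C_mul, Polynomial.coeff_X_pow_mul',
        if_neg (not_le.2 (lt_of_not_mem_fc w k v hv)), mul_zero]
  · intro j i₀ x z' hj hjK hxz hz' ⟨v₀, hv₀, hv₀i⟩
    have hk0 : k i₀ ≤ mnk w k := by
      rw [← (mem_fc w k v₀).1 hv₀]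
      exact le_kw w k v₀ i₀ hv₀i
    have hl₀ : k i₀ + j < K + 1 := by omega
    refine ⟨⟨k i₀ + j, hl₀⟩, rfl, ?_⟩
    -- the difference of the jets
    have hdvd : (Polynomial.X : Polynomial ℂ) ^ (k i₀ + j) ∣ jet z' i₀ - jet z i₀ := by
      rw [Polynomial.X_pow_dvd_iff]
      intro d hd
      rw [Polynomial.coeff_sub, coeff_jet, coeff_jet]
      split_ifs with h
      · rw [hz' i₀ ⟨d, h⟩ (Or.inr hd), sub_self]
      · rw [sub_self]
    obtain ⟨Δ, hΔ⟩ := hdvd
    have hΔ0 : Δ.coeff 0 = z' (i₀, ⟨k i₀ + j, hl₀⟩) - z (i₀, ⟨k i₀ + j, hl₀⟩) := by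
      have h1 : (jet z' i₀ - jet z i₀).coeff (k i₀ + j) = Δ.coeff 0 := by
        rw [hΔ, Polynomial.coeff_X_pow_mul', if_pos le_rfl, Nat.sub_self]
      rw [← h1, Polynomial.coeff_sub, coeff_jet, coeff_jet, dif_pos hl₀, dif_pos hl₀]
    have hne : ∀ i, i ≠ i₀ → jet z' i = jet z i := by
      intro i hi
      rw [jet, jet]
      exact Finset.sum_congr rfl fun l _ => by rw [hz' i l (Or.inl hi)]
    set U' : ι → Polynomial ℂ := Function.update U i₀ (U i₀ + Polynomial.X ^ j * Δ) with hU'
    have hjet' : jet z' = fun i => Polynomial.X ^ k i * U' i := by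
      funext i
      by_cases hi : i = i₀
      · subst hi
        rw [hU', Function.update_self]
        have h1 : jet z' i = jet z i + Polynomial.X ^ (k i + j) * Δ := by
          rw [← hΔ]; ring
        rw [h1, hU i]
        ring
      · rw [hne i hi, hU i, hU', Function.update_of_ne hi]
    have haev' : (aeval (jet z') (poly w a) : Polynomial ℂ) =
        ∑ v, Polynomial.C (a v) * (Polynomial.X ^ kw w k v * ∏ i, U' i ^ w v i) := by
      rw [aeval_poly, hjet']
      exact Finset.sum_congr rfl fun v _ => by rw [prod_X]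
    -- the difference of the products
    have hdiff : ∀ v, ∏ i, U' i ^ w v i - ∏ i, U i ^ w v i =
        Polynomial.X ^ j * (Δ * (∑ m ∈ Finset.range (w v i₀),
          U' i₀ ^ m * U i₀ ^ (w v i₀ - 1 - m)) * ∏ i ∈ Finset.univ.erase i₀, U i ^ w v i) := by
      intro v
      rw [← Finset.mul_prod_erase Finset.univ (fun i => U' i ^ w v i) (Finset.mem_univ i₀),
        ← Finset.mul_prod_erase Finset.univ (fun i => U i ^ w v i) (Finset.mem_univ i₀)]
      have h1 : ∏ i ∈ Finset.univ.erase i₀, U' i ^ w v i =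
          ∏ i ∈ Finset.univ.erase i₀, U i ^ w v i := by
        refine Finset.prod_congr rfl fun i hi => ?_
        rw [hU', Function.update_of_ne (Finset.ne_of_mem_erase hi)]
      have h2 := Commute.mul_geom_sum₂ (Commute.all (U' i₀) (U i₀)) (w v i₀)
      have h3 : U' i₀ - U i₀ = Polynomial.X ^ j * Δ := by
        rw [hU', Function.update_self]; ring
      rw [h3] at h2
      rw [h1, ← sub_mul, ← h2]
      ring
    have hU'0 : (U' i₀).eval 0 = (U i₀).eval 0 := by
      rw [hU', Function.update_self, Polynomial.eval_add, Polynomial.eval_mul, Polynomial.eval_pow,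
        Polynomial.eval_X, zero_pow (by omega), zero_mul, add_zero]
    have hmain : (aeval (jet z') (poly w a) : Polynomial ℂ).coeff (mnk w k + j) -
        (aeval (jet z) (poly w a) : Polynomial ℂ).coeff (mnk w k + j) =
        ∑ v ∈ fc w k, a v * (Δ.coeff 0 * ((w v i₀ : ℂ) * (U i₀).eval 0 ^ (w v i₀ - 1)) *
          ∏ i ∈ Finset.univ.erase i₀, (U i).eval 0 ^ w v i) := by
      rw [← Polynomial.coeff_sub, haev, haev', ← Finset.sum_sub_distrib]
      have h1 : ∀ v, Polynomial.C (a v) * (Polynomial.X ^ kw w k v * ∏ i, U' i ^ w v i) -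
          Polynomial.C (a v) * (Polynomial.X ^ kw w k v * ∏ i, U i ^ w v i) =
          Polynomial.C (a v) * (Polynomial.X ^ (kw w k v + j) * (Δ *
            (∑ m ∈ Finset.range (w v i₀), U' i₀ ^ m * U i₀ ^ (w v i₀ - 1 - m)) *
            ∏ i ∈ Finset.univ.erase i₀, U i ^ w v i)) := by
        intro v
        rw [← mul_sub, ← mul_sub, hdiff v, pow_add]
        ring
      rw [Finset.sum_congr rfl fun v _ => h1 v, Polynomial.finsetSum_coeff,
        ← Finset.sum_subset (Finset.subset_univ (fc w k))]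
      · refine Finset.sum_congr rfl fun v hv => ?_
        rw [Polynomial.coeff_C_mul, Polynomial.coeff_X_pow_mul', (mem_fc w k v).1 hv,
          if_pos le_rfl, Nat.sub_self, Polynomial.coeff_zero_eq_eval_zero, Polynomial.eval_mul,
          Polynomial.eval_mul, Polynomial.eval_prod, ← Polynomial.coeff_zero_eq_eval_zero Δ,
          Polynomial.eval_finsetSum]
        have h2 : ∑ m ∈ Finset.range (w v i₀),
            Polynomial.eval 0 (U' i₀ ^ m * U i₀ ^ (w v i₀ - 1 - m)) =
            (w v i₀ : ℂ) * (U i₀).eval 0 ^ (w v i₀ - 1) := by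
          rw [Finset.sum_congr rfl (g := fun _ => (U i₀).eval 0 ^ (w v i₀ - 1)),
            Finset.sum_const, Finset.card_range, nsmul_eq_mul]
          intro m hm
          have hm' := Finset.mem_range.1 hm
          rw [Polynomial.eval_mul, Polynomial.eval_pow, Polynomial.eval_pow, hU'0, ← pow_add]
          congr 1
          omega
        rw [h2]
        congr 2
        exact Finset.prod_congr rfl fun i _ => Polynomial.eval_pow _
      · intro v _ hv
        rw [Polynomial.coeff_C_mul, Polynomial.coeff_X_pow_mul', if_neg, mul_zero]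
        have := lt_of_not_mem_fc w k v hv
        omega
    rw [hmain, hΔ0, Finset.mul_sum, Finset.mul_sum]
    refine Finset.sum_congr rfl fun v hv => ?_
    have hmK : mnk w k ≤ K := by omega
    by_cases hv0 : w v i₀ = 0
    · rw [hv0]; simp
    · have h4 : (U i₀).eval 0 = x i₀ := by
        rw [← Polynomial.coeff_zero_eq_eval_zero]
        exact hx hmK x hxz v hv i₀ hv0
      have h5 : ∏ i ∈ Finset.univ.erase i₀, (U i).eval 0 ^ w v i =
          ∏ i ∈ Finset.univ.erase i₀, x i ^ w v i := by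
        refine Finset.prod_congr rfl fun i _ => ?_
        by_cases hi : w v i = 0
        · rw [hi, pow_zero, pow_zero]
        · rw [← Polynomial.coeff_zero_eq_eval_zero, hx hmK x hxz v hv i hi]
      rw [h4, h5, ← Finset.mul_prod_erase Finset.univ (fun i => x i ^ w v i) (Finset.mem_univ i₀)]
      obtain ⟨m, hm⟩ := Nat.exists_eq_succ_of_ne_zero hv0
      rw [hm, Nat.succ_sub_one, Nat.succ_eq_add_one, pow_succ]
      ring

end Pool.Agent.Mono.NP
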