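import Pool.Agent.Work.Monodromy12.PartII12
import Pool.Agent.Work.Monodromy12.IASM12
import Pool.Agent.Work.Monodromy12.LIMA12
import Pool.Agent.Work.Monodromy12.LIMB12
import Pool.Agent.Work.Monodromy12.RA12
import Pool.Agent.Work.Monodromy12.EXCH12
import Pool.Agent.Work.Monodromy12.SUMK12
import Pool.Agent.Work.Monodromy12.CLS012
import Pool.Agent.Work.Monodromy12.CLS112
import Pool.Agent.Work.Monodromy12.CLS212
import Pool.Agent.Work.Monodromy12.XPD12
import Pool.Agent.Work.Monodromy12.TRIS12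
import Pool.Agent.Work.Monodromy12.NDG12
import Pool.Agent.Work.Monodromy12.KF12
import Pool.Agent.Work.Monodromy12.KW12
import Pool.Agent.Work.Monodromy12.PYRC12
import Pool.Agent.Work.Monodromy12.ADB12
import Pool.Agent.Work.Monodromy12.TORM12
import Pool.Agent.Work.Monodromy12.TORC12
import Pool.Agent.Work.Monodromy12.VOLB12
import Pool.Agent.Work.Monodromy12.SMPF12
import Pool.Agent.Work.Monodromy12.MAXC12
import Pool.Agent.Work.Monodromy12.VERT12
import Pool.Agent.Work.Monodromy12.CELI12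
import Pool.Agent.Work.Monodromy12.DETI12
import Pool.Agent.Work.Monodromy12.IDX12
import Pool.Agent.Work.Monodromy12.CNT12
import Pool.Agent.Work.Monodromy12.AUTO12
import Pool.Agent.Work.Monodromy12.TOPC12
import Pool.Agent.Work.Monodromy12.EMP12
import Pool.Agent.Work.Monodromy12.REC12
import Pool.Agent.Work.Monodromy12.BRI12
import Pool.Agent.Work.Monodromy12.FAC12
import Pool.Agent.Work.Monodromy12.JC12
import Pool.Agent.Work.Monodromy12.GENR12
import Pool.Agent.Work.Monodromy12.GRO12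
import Pool.Agent.Work.Monodromy12.GRK12
import Pool.Agent.Work.Monodromy12.SUMU12

/-!
# Phase 12: part I, all blocks put together (helper2)
-/

set_option autoImplicit false

namespace Pool.Agent.Mono.NP

theorem full_SUMU : Stmt_SUMU := stmt_SUMU stmt_GRO

theorem full_GRK : Stmt_GRK := stmt_GRK stmt_GRO

theorem full_AUTO : Stmt_AUTO := stmt_AUTO stmt_TRI1

theorem full_VOLB : Stmt_VOLB := stmt_VOLB stmt_CELI stmt_DETI stmt_IDX

theorem full_SMPF : Stmt_SMPF := stmt_SMPF (stmt_MAXC stmt_VERT stmt_TRI1) stmt_CELI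

theorem full_BRI : Stmt_BRI :=
  stmt_BRI full_DUAL full_REL (stmt_EMP stmt_VERT)
    (stmt_TOPC full_AUTO stmt_CNT stmt_DETI stmt_TRI1) (stmt_REC full_SUMU)

theorem full_FAC : Stmt_FAC :=
  stmt_FAC full_BRI stmt_GRO stmt_CNT stmt_DETI stmt_IDX full_AUTO full_SUMU full_DUAL

theorem full_JC : Stmt_JC := stmt_JC full_FAC full_GRK

theorem full_SUMK : Stmt_SUMK :=
  stmt_SUMK (stmt_CLS0 stmt_XPD) (stmt_CLS1 stmt_XPD stmt_TRIS) (stmt_CLS2 stmt_XPD)

theorem full_LIMB : LIMAAux.Stmt_LIMB := stmt_LIMB stmt_RA (stmt_EXCH full_SUMK) full_GRK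

/-- part I from Kouchnirenko's theorem -/
theorem part_I_of_K (hK : Stmt_K) : Stmt_I :=
  have hKF : Stmt_KF := stmt_KF hK stmt_ADB stmt_TORM stmt_TORC full_VOLB
  stmt_IASM
    (stmt_LIMA stmt_NDG full_LIMB hKF (stmt_KW hKF (stmt_PYRC stmt_CELI)) full_SMPF full_GRK
      stmt_CELI)
    full_JC (stmt_GENR full_DUAL) full_REL

end Pool.Agent.Mono.NP
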