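import Pool.Agent.Work.Monodromy.Interface12A

/-! # Phase 12, block QC: the cell `M` depends only on the star (helper52) -/

set_option autoImplicit false

namespace Pool.Agent.Mono.NP

namespace QCAux

variable {ι κ : Type} [Fintype ι] [DecidableEq ι] [Fintype κ] [DecidableEq κ]

theorem mem_MM (w : κ → ι → ℕ) (s₀ : ℚ) (Δ : Finset (κ ⊕ ι)) (v : κ ⊕ ι) :
    v ∈ MM w s₀ Δ ↔ cf w Δ (q0 ι s₀) v ≠ 0 := by
  classical
  unfold MM
  rw [Finset.mem_filter]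
  constructor
  · intro hv
    exact hv.2
  · intro hv
    refine ⟨?_, hv⟩
    by_contra hn
    apply hv
    unfold cf
    rw [if_neg hn]

end QCAux

open QCAux in
theorem stmt_QC (hD : Stmt_DUAL) : Stmt_QC := by
  classical
  intro ι κ _ _ _ _ w h s₀ hh Δ hΔ Δ' hΔ' hsub
  have h1 := ((hD ι κ w h hh Δ hΔ).2.2 ℚ).1 (q0 ι s₀)
  have h2 : cf w Δ' (q0 ι s₀) = cf w Δ (q0 ι s₀) := by
    refine ((hD ι κ w h hh Δ' hΔ').2.2 ℚ).2 (q0 ι s₀) _ ?_ h1
    intro v hv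
    by_contra hn
    exact hv (hsub ((mem_MM w s₀ Δ v).2 hn))
  refine ⟨?_, h2⟩
  ext v
  rw [mem_MM, mem_MM, h2]

end Pool.Agent.Mono.NP
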