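import Pool.Agent.Work.Monodromy.Interface12A

/-!
# REG: the integrals have poles along the boundary only (helper11)
-/

set_option autoImplicit false
set_option linter.unusedSectionVars false

namespace Pool.Agent.Mono.NP

open MvPolynomial

namespace REGAux

/-! ### Fractions which are regular along a prime -/

section general

variable {A : Type} [CommRing A] [IsDomain A] {K : Type} [Field K] [Algebra A K]

/-- `x` is regular along the prime `p` -/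
def RegAt (p : A) (x : K) : Prop :=
  ∃ a b : A, ¬ p ∣ b ∧ x * algebraMap A K b = algebraMap A K a

theorem RegAt.add {p : A} (hp : Prime p) {x y : K} (hx : RegAt p x) (hy : RegAt p y) :
    RegAt p (x + y) := by
  obtain ⟨a, b, hb, h⟩ := hx
  obtain ⟨a', b', hb', h'⟩ := hy
  refine ⟨a * b' + a' * b, b * b', fun hd => ?_, ?_⟩
  · rcases hp.dvd_or_dvd hd with h1 | h1
    · exact hb h1
    · exact hb' h1
  · rw [map_add, map_mul, map_mul, map_mul, ← h, ← h']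
    ring

theorem RegAt.mul {p : A} (hp : Prime p) {x y : K} (hx : RegAt p x) (hy : RegAt p y) :
    RegAt p (x * y) := by
  obtain ⟨a, b, hb, h⟩ := hx
  obtain ⟨a', b', hb', h'⟩ := hy
  refine ⟨a * a', b * b', fun hd => ?_, ?_⟩
  · rcases hp.dvd_or_dvd hd with h1 | h1
    · exact hb h1
    · exact hb' h1
  · rw [map_mul, map_mul, ← h, ← h']
    ring

theorem RegAt.alg {p : A} (hp : Prime p) (a : A) : RegAt p (algebraMap A K a) :=
  ⟨a, 1, fun h => hp.not_isUnit (isUnit_of_dvd_one h), by simp⟩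

theorem RegAt.zero {p : A} (hp : Prime p) : RegAt p (0 : K) := by
  simpa using RegAt.alg (K := K) hp (0 : A)

theorem RegAt.sum {p : A} (hp : Prime p) {α : Type} (s : Finset α) (f : α → K)
    (h : ∀ a ∈ s, RegAt p (f a)) : RegAt p (∑ a ∈ s, f a) := by
  classical
  induction s using Finset.induction_on with
  | empty => simpa using RegAt.zero (K := K) hp
  | insert a s ha ih =>
    rw [Finset.sum_insert ha]
    exact RegAt.add hp (h a (Finset.mem_insert_self _ _))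
      (ih fun b hb => h b (Finset.mem_insert_of_mem hb))

theorem RegAt.div [FaithfulSMul A K] {p : A} {a b : A} (hb : ¬ p ∣ b) :
    RegAt p (algebraMap A K a / algebraMap A K b) := by
  refine ⟨a, b, hb, ?_⟩
  have : algebraMap A K b ≠ 0 := by
    intro h
    apply hb
    rw [(FaithfulSMul.algebraMap_eq_zero_iff A K).mp h]
    exact dvd_zero p
  field_simp

/-- `x` specialises to `z` under `φ` -/
def Sp {F : Type} [Field F] (φ : A →+* F) (x : K) (z : F) : Prop :=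
  ∃ a b : A, φ b ≠ 0 ∧ x * algebraMap A K b = algebraMap A K a ∧ z * φ b = φ a

variable {F : Type} [Field F] (φ : A →+* F)

theorem Sp.add {x y : K} {z t : F} (hx : Sp φ x z) (hy : Sp φ y t) : Sp φ (x + y) (z + t) := by
  obtain ⟨a, b, hb, h, h1⟩ := hx
  obtain ⟨a', b', hb', h', h1'⟩ := hy
  refine ⟨a * b' + a' * b, b * b', ?_, ?_, ?_⟩
  · rw [map_mul]; exact mul_ne_zero hb hb'
  · rw [map_add, map_mul, map_mul, map_mul, ← h, ← h']
    ring
  · rw [map_add, map_mul, map_mul, map_mul, ← h1, ← h1']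
    ring

theorem Sp.mul {x y : K} {z t : F} (hx : Sp φ x z) (hy : Sp φ y t) : Sp φ (x * y) (z * t) := by
  obtain ⟨a, b, hb, h, h1⟩ := hx
  obtain ⟨a', b', hb', h', h1'⟩ := hy
  refine ⟨a * a', b * b', ?_, ?_, ?_⟩
  · rw [map_mul]; exact mul_ne_zero hb hb'
  · rw [map_mul, map_mul, ← h, ← h']
    ring
  · rw [map_mul, map_mul, ← h1, ← h1']
    ring

theorem Sp.alg (a : A) : Sp φ (algebraMap A K a) (φ a) := ⟨a, 1, by simp, by simp, by simp⟩

theorem Sp.sum {α : Type} (s : Finset α) (f : α → K) (g : α → F)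
    (h : ∀ a ∈ s, Sp φ (f a) (g a)) : Sp φ (∑ a ∈ s, f a) (∑ a ∈ s, g a) := by
  classical
  induction s using Finset.induction_on with
  | empty => simpa using Sp.alg (K := K) φ 0
  | insert a s ha ih =>
    rw [Finset.sum_insert ha, Finset.sum_insert ha]
    exact Sp.add φ (h a (Finset.mem_insert_self _ _))
      (ih fun b hb => h b (Finset.mem_insert_of_mem hb))

theorem Sp.div [FaithfulSMul A K] {a b : A} (hb : φ b ≠ 0) :
    Sp φ (algebraMap A K a / algebraMap A K b) (φ a / φ b) := by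
  refine ⟨a, b, hb, ?_, ?_⟩
  · have : algebraMap A K b ≠ 0 := by
      intro h
      apply hb
      rw [(FaithfulSMul.algebraMap_eq_zero_iff A K).mp h, map_zero]
    field_simp
  · field_simp

theorem Sp.unique [FaithfulSMul A K] {x : K} {z t : F} (h1 : Sp φ x z) (h2 : Sp φ x t) :
    z = t := by
  obtain ⟨a, b, hb, h, h'⟩ := h1
  obtain ⟨a1, b1, hb1, h1, h1'⟩ := h2
  have : a * b1 = a1 * b := by
    apply FaithfulSMul.algebraMap_injective A K
    rw [map_mul, map_mul, ← h, ← h1]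
    ring
  have h3 : φ a * φ b1 = φ a1 * φ b := by rw [← map_mul, ← map_mul, this]
  rw [← h', ← h1'] at h3
  have h4 : z * (φ b * φ b1) = t * (φ b * φ b1) := by linear_combination h3
  exact mul_right_cancel₀ (mul_ne_zero hb hb1) h4

end general

/-! ### Linear forms -/

section forms

variable {ι : Type} [Fintype ι] [DecidableEq ι]

/-- the linear form with coefficients `x` -/
noncomputable def fm (x : ι ⊕ Unit → ℚ) : MvPolynomial (ι ⊕ Unit) ℚ := ∑ e, C (x e) * X e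

theorem aeval_fm {F : Type} [Field F] [Algebra ℚ F] (x : ι ⊕ Unit → ℚ) (y : ι ⊕ Unit → F) :
    aeval y (fm x) = ev x y := by
  simp [fm, ev]

theorem coeff_fm (x : ι ⊕ Unit → ℚ) (e : ι ⊕ Unit) :
    coeff (Finsupp.single e 1) (fm x) = x e := by
  classical
  rw [fm, coeff_sum, Finset.sum_eq_single e]
  · rw [coeff_C_mul, coeff_X]
    simp
  · intro b _ hb
    rw [coeff_C_mul, coeff_X, if_neg, mul_zero]
    intro h
    exact hb (Finsupp.single_left_injective one_ne_zero h)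
  · intro h; exact absurd (Finset.mem_univ e) h

theorem fm_ne_zero {x : ι ⊕ Unit → ℚ} (hx : x ≠ 0) : fm x ≠ 0 := by
  intro h
  apply hx
  ext e
  rw [← coeff_fm x e, h]
  simp

theorem fm_isHomogeneous (x : ι ⊕ Unit → ℚ) : (fm x).IsHomogeneous 1 := by
  apply IsHomogeneous.sum
  intro e _
  have := (isHomogeneous_C (ι ⊕ Unit) (x e)).mul (isHomogeneous_X ℚ e)
  simpa using this

theorem totalDegree_fm {x : ι ⊕ Unit → ℚ} (hx : x ≠ 0) : (fm x).totalDegree = 1 :=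
  (fm_isHomogeneous x).totalDegree (fm_ne_zero hx)

theorem fm_smul (c : ℚ) (x : ι ⊕ Unit → ℚ) : fm (c • x) = C c * fm x := by
  rw [fm, fm, Finset.mul_sum]
  apply Finset.sum_congr rfl
  intro e _
  rw [Pi.smul_apply, smul_eq_mul, C_mul, mul_assoc]

theorem prime_fm {x : ι ⊕ Unit → ℚ} (hx : x ≠ 0) : Prime (fm x) := by
  apply Irreducible.prime
  apply irreducible_of_totalDegree_eq_one (totalDegree_fm hx)
  intro r hr
  obtain ⟨e, he⟩ : ∃ e, x e ≠ 0 := by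
    by_contra h
    push Not at h
    exact hx (funext h)
  have := hr (Finsupp.single e 1)
  rw [coeff_fm] at this
  rw [isUnit_iff_ne_zero]
  rintro rfl
  exact he (zero_dvd_iff.mp this)

theorem fm_dvd {x y : ι ⊕ Unit → ℚ} (hx : x ≠ 0) (hy : y ≠ 0) (h : fm x ∣ fm y) :
    ∃ c : ℚ, c ≠ 0 ∧ y = c • x := by
  obtain ⟨q, hq⟩ := h
  have hq0 : q ≠ 0 := by
    rintro rfl
    rw [mul_zero] at hq
    exact fm_ne_zero hy hq
  have hd : (fm y).totalDegree = (fm x).totalDegree + q.totalDegree := by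
    rw [hq, totalDegree_mul_of_isDomain (fm_ne_zero hx) hq0]
  rw [totalDegree_fm hx, totalDegree_fm hy] at hd
  have hq1 : q.totalDegree = 0 := by omega
  rw [totalDegree_eq_zero_iff_eq_C] at hq1
  refine ⟨coeff 0 q, ?_, ?_⟩
  · intro h0
    rw [h0, C_0] at hq1
    exact hq0 hq1
  · ext e
    rw [← coeff_fm y e, hq, hq1, mul_comm, coeff_C_mul, coeff_fm]
    simp

end forms

/-! ### The terms of the integral -/

section main

variable {ι κ : Type} [Fintype ι] [DecidableEq ι] [Fintype κ] [DecidableEq κ]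
  (w : κ → ι → ℕ) (h : κ → ℝ)

open Classical in
/-- the coordinates as linear forms -/
noncomputable def cfA (Δ : Finset (κ ⊕ ι)) (v : κ ⊕ ι) : MvPolynomial (ι ⊕ Unit) ℚ :=
  if v ∈ Δ then fm (dual w Δ v) else 0

theorem cf_eq {F : Type} [Field F] [Algebra ℚ F] (Δ : Finset (κ ⊕ ι)) (y : ι ⊕ Unit → F)
    (v : κ ⊕ ι) : cf w Δ y v = aeval y (cfA w Δ v) := by
  unfold cf cfA
  split
  · rw [aeval_fm]
  · simp

/-- numerator -/
noncomputable def numA (g : MvPolynomial (κ ⊕ ι) ℚ) (Δ : Finset (κ ⊕ ι)) :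
    MvPolynomial (ι ⊕ Unit) ℚ := aeval (cfA w Δ) g

/-- denominator -/
noncomputable def denA (σ Δ : Finset (κ ⊕ ι)) : MvPolynomial (ι ⊕ Unit) ℚ :=
  C (adet w Δ) * ∏ v ∈ Δ \ σ, cfA w Δ v

/-- the term of `Δ` -/
noncomputable def term {F : Type} [Field F] [Algebra ℚ F] (σ : Finset (κ ⊕ ι))
    (g : MvPolynomial (κ ⊕ ι) ℚ) (y : ι ⊕ Unit → F) (Δ : Finset (κ ⊕ ι)) : F :=
  aeval (cf w Δ y) g / (algebraMap ℚ F (adet w Δ) * ∏ v ∈ Δ \ σ, cf w Δ y v)

theorem term_eq {F : Type} [Field F] [Algebra ℚ F] (σ : Finset (κ ⊕ ι))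
    (g : MvPolynomial (κ ⊕ ι) ℚ) (y : ι ⊕ Unit → F) (Δ : Finset (κ ⊕ ι)) :
    term w σ g y Δ = aeval y (numA w g Δ) / aeval y (denA w σ Δ) := by
  unfold term numA denA
  rw [map_mul, map_prod, MvPolynomial.aeval_C]
  congr 1
  · have h1 : (fun v => aeval y (cfA w Δ v)) = cf w Δ y := by
      funext v
      exact (cf_eq w Δ y v).symm
    rw [MvPolynomial.comp_aeval_apply, h1]
  · congr 1
    exact Finset.prod_congr rfl fun v _ => cf_eq w Δ y v

/-- the field of fractions -/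
abbrev KK (ι : Type) : Type := FractionRing (MvPolynomial (ι ⊕ Unit) ℚ)

/-- the generic point -/
noncomputable def YY (ι : Type) : ι ⊕ Unit → KK ι := fun e =>
  algebraMap (MvPolynomial (ι ⊕ Unit) ℚ) (KK ι) (X e)

theorem aeval_YY (q : MvPolynomial (ι ⊕ Unit) ℚ) :
    aeval (YY ι) q = algebraMap (MvPolynomial (ι ⊕ Unit) ℚ) (KK ι) q := by
  have : (aeval (YY ι) : MvPolynomial (ι ⊕ Unit) ℚ →ₐ[ℚ] KK ι) =
      IsScalarTower.toAlgHom ℚ (MvPolynomial (ι ⊕ Unit) ℚ) (KK ι) := by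
    apply MvPolynomial.algHom_ext
    intro e
    simp [YY]
  rw [this]
  rfl

theorem dual_ne_zero (hDUAL : Stmt_DUAL) (hlin : LinearIndependent ℚ h)
    {Δ : Finset (κ ⊕ ι)} (hΔ : Δ ∈ maxCells w h) {v : κ ⊕ ι} (hv : v ∈ Δ) :
    dual w Δ v ≠ 0 := by
  intro h0
  have := (hDUAL ι κ w h hlin Δ hΔ).2.1 v hv v hv
  rw [h0] at this
  simp [pr] at this

theorem cfA_ne_zero (hDUAL : Stmt_DUAL) (hlin : LinearIndependent ℚ h)
    {Δ : Finset (κ ⊕ ι)} (hΔ : Δ ∈ maxCells w h) {v : κ ⊕ ι} (hv : v ∈ Δ) :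
    cfA w Δ v ≠ 0 := by
  rw [cfA, if_pos hv]
  exact fm_ne_zero (dual_ne_zero w h hDUAL hlin hΔ hv)

theorem adet_ne_zero (hDUAL : Stmt_DUAL) (hlin : LinearIndependent ℚ h)
    {Δ : Finset (κ ⊕ ι)} (hΔ : Δ ∈ maxCells w h) : adet w Δ ≠ 0 :=
  ((hDUAL ι κ w h hlin Δ hΔ).1).ne'

theorem pr_smul (c : ℚ) (x y : ι ⊕ Unit → ℚ) : pr (c • x) y = c * pr x y := by
  rw [pr, pr, Finset.mul_sum]
  exact Finset.sum_congr rfl fun e _ => by rw [Pi.smul_apply, smul_eq_mul, mul_assoc]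

theorem unique_v (hDUAL : Stmt_DUAL) (hlin : LinearIndependent ℚ h) {ν : ι ⊕ Unit → ℚ}
    (hν : ν ≠ 0) {Δ : Finset (κ ⊕ ι)} (hΔ : Δ ∈ maxCells w h) {u v : κ ⊕ ι} (hu : u ∈ Δ)
    (hv : v ∈ Δ) (h1 : fm ν ∣ cfA w Δ u) (h2 : fm ν ∣ cfA w Δ v) : u = v := by
  by_contra huv
  rw [cfA, if_pos hu] at h1
  rw [cfA, if_pos hv] at h2
  obtain ⟨c, hc, hc'⟩ := fm_dvd hν (dual_ne_zero w h hDUAL hlin hΔ hu) h1
  obtain ⟨d, hd, hd'⟩ := fm_dvd hν (dual_ne_zero w h hDUAL hlin hΔ hv) h2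
  have e1 := (hDUAL ι κ w h hlin Δ hΔ).2.1 u hu u hu
  have e2 := (hDUAL ι κ w h hlin Δ hΔ).2.1 v hv u hu
  rw [if_pos rfl, hc', pr_smul] at e1
  rw [if_neg huv, hd', pr_smul] at e2
  rcases mul_eq_zero.mp e2 with h3 | h3
  · exact hd h3
  · rw [h3, mul_zero] at e1
    exact zero_ne_one e1

theorem dvd_aeval_sub {α : Type} (p : MvPolynomial (ι ⊕ Unit) ℚ)
    (c c' : α → MvPolynomial (ι ⊕ Unit) ℚ) (hc : ∀ u, p ∣ c u - c' u) (g : MvPolynomial α ℚ)
    (s : Finset α) :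
    p ∣ aeval c g * (∏ u ∈ s, c' u) - aeval c' g * (∏ u ∈ s, c u) := by
  rw [← Ideal.mem_span_singleton, ← Ideal.Quotient.eq_zero_iff_mem]
  have hu : ∀ u, Ideal.Quotient.mk (Ideal.span {p}) (c u) =
      Ideal.Quotient.mk (Ideal.span {p}) (c' u) := by
    intro u
    rw [Ideal.Quotient.mk_eq_mk_iff_sub_mem, Ideal.mem_span_singleton]
    exact hc u
  have hg : Ideal.Quotient.mk (Ideal.span {p}) (aeval c g) =
      Ideal.Quotient.mk (Ideal.span {p}) (aeval c' g) := by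
    have h1 : ∀ f : α → MvPolynomial (ι ⊕ Unit) ℚ,
        Ideal.Quotient.mk (Ideal.span {p}) (aeval f g) =
        aeval (fun u => Ideal.Quotient.mk (Ideal.span {p}) (f u)) g := by
      intro f
      exact MvPolynomial.comp_aeval_apply f (Ideal.Quotient.mkₐ ℚ (Ideal.span {p})) g
    rw [h1, h1]
    congr 2
    funext u
    exact hu u
  rw [map_sub, map_mul, map_mul, map_prod, map_prod, hg]
  rw [Finset.prod_congr rfl fun u _ => hu u]
  ring

theorem denA_ne_zero (hDUAL : Stmt_DUAL) (hlin : LinearIndependent ℚ h)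
    {Δ : Finset (κ ⊕ ι)} (hΔ : Δ ∈ maxCells w h) (σ : Finset (κ ⊕ ι)) : denA w σ Δ ≠ 0 := by
  rw [denA]
  apply mul_ne_zero
  · rw [Ne, C_eq_zero]
    exact adet_ne_zero w h hDUAL hlin hΔ
  · rw [Finset.prod_ne_zero_iff]
    intro v hv
    exact cfA_ne_zero w h hDUAL hlin hΔ (Finset.mem_sdiff.mp hv).1

/-- the linear forms of a neighbour -/
theorem cfA_nb (hDET : Stmt_DET) (hlin : LinearIndependent ℚ h)
    {Δ : Finset (κ ⊕ ι)} (hΔ : Δ ∈ maxCells w h) {v v' : κ ⊕ ι} (hv : v ∈ Δ) (hv' : v' ∉ Δ)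
    (hΔ' : insert v' (Δ.erase v) ∈ maxCells w h) :
    C (pr (dual w Δ v) (hat w v')) * cfA w (insert v' (Δ.erase v)) v' = cfA w Δ v ∧
    ∀ u ∈ Δ.erase v, cfA w Δ u - cfA w (insert v' (Δ.erase v)) u =
      C (pr (dual w Δ u) (hat w v') / pr (dual w Δ v) (hat w v')) * cfA w Δ v := by
  obtain ⟨ht, -, hF⟩ := hDET ι κ w h hlin Δ hΔ v hv v' hv' hΔ'
  obtain ⟨h1, h2⟩ := hF (KK ι) (YY ι)
  have hinj : Function.Injective (algebraMap (MvPolynomial (ι ⊕ Unit) ℚ) (KK ι)) :=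
    IsFractionRing.injective _ _
  have hC : ∀ c : ℚ, algebraMap ℚ (KK ι) c =
      algebraMap (MvPolynomial (ι ⊕ Unit) ℚ) (KK ι) (C c) := by
    intro c
    rw [← aeval_YY, MvPolynomial.aeval_C]
  constructor
  · apply hinj
    rw [map_mul, ← hC]
    rw [cf_eq, cf_eq, aeval_YY, aeval_YY] at h1
    rw [h1, mul_div_cancel₀]
    rw [hC, Ne, map_eq_zero_iff _ hinj, C_eq_zero]
    exact ht
  · intro u hu
    apply hinj
    have h3 := h2 u hu
    rw [cf_eq, cf_eq, cf_eq, aeval_YY, aeval_YY, aeval_YY] at h3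
    rw [map_sub, map_mul, ← hC, h3]
    ring

theorem dvd_sub_nb (hDET : Stmt_DET) (hlin : LinearIndependent ℚ h)
    {Δ : Finset (κ ⊕ ι)} (hΔ : Δ ∈ maxCells w h) {v v' : κ ⊕ ι} (hv : v ∈ Δ) (hv' : v' ∉ Δ)
    (hΔ' : insert v' (Δ.erase v) ∈ maxCells w h) (p : MvPolynomial (ι ⊕ Unit) ℚ)
    (hp : p ∣ cfA w Δ v) :
    p ∣ cfA w (insert v' (Δ.erase v)) v' ∧
    ∀ u, p ∣ cfA w Δ u - cfA w (insert v' (Δ.erase v)) u := by
  obtain ⟨h1, h2⟩ := cfA_nb w h hDET hlin hΔ hv hv' hΔ'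
  have ht := (hDET ι κ w h hlin Δ hΔ v hv v' hv' hΔ').1
  have h3 : p ∣ cfA w (insert v' (Δ.erase v)) v' := by
    rw [← h1] at hp
    have hunit : IsUnit (C (pr (dual w Δ v) (hat w v')) : MvPolynomial (ι ⊕ Unit) ℚ) :=
      (IsUnit.mk0 _ ht).map C
    exact (hunit.dvd_mul_left).mp hp
  refine ⟨h3, fun u => ?_⟩
  by_cases hu : u ∈ Δ.erase v
  · rw [h2 u hu]
    exact hp.mul_left _
  · by_cases hu1 : u = v
    · subst hu1
      have : u ∉ insert v' (Δ.erase u) := by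
        intro h4
        rcases Finset.mem_insert.mp h4 with h5 | h5
        · exact hv' (h5 ▸ hv)
        · exact hu h5
      rw [cfA, cfA, if_neg this, sub_zero]
      rw [cfA] at hp
      exact hp
    · by_cases hu2 : u = v'
      · subst hu2
        have e0 : cfA w Δ u = 0 := by rw [cfA, if_neg hv']
        rw [e0, zero_sub]
        exact (dvd_neg).mpr h3
      · have e0 : cfA w Δ u = 0 := by
          rw [cfA, if_neg]
          intro h4
          exact hu (Finset.mem_erase.mpr ⟨hu1, h4⟩)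
        have e1 : cfA w (insert v' (Δ.erase v)) u = 0 := by
          rw [cfA, if_neg]
          intro h4
          rcases Finset.mem_insert.mp h4 with h5 | h5
          · exact hu2 h5
          · exact hu h5
        rw [e0, e1, sub_zero]
        exact dvd_zero p

/-- the sum of the terms of two neighbours is regular along the common wall -/
theorem reg_pair (hDUAL : Stmt_DUAL) (hDET : Stmt_DET) (hlin : LinearIndependent ℚ h)
    {Δ : Finset (κ ⊕ ι)} (hΔ : Δ ∈ maxCells w h) {v v' : κ ⊕ ι} (hv : v ∈ Δ) (hv' : v' ∉ Δ)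
    (hΔ' : insert v' (Δ.erase v) ∈ maxCells w h) (ht : pr (dual w Δ v) (hat w v') < 0)
    (σ : Finset (κ ⊕ ι)) (hσ : σ ⊆ Δ) (hvσ : v ∉ σ) (g : MvPolynomial (κ ⊕ ι) ℚ)
    {ν : ι ⊕ Unit → ℚ} (hν : ν ≠ 0) (hp : fm ν ∣ cfA w Δ v) :
    RegAt (fm ν) (term w σ g (YY ι) Δ + term w σ g (YY ι) (insert v' (Δ.erase v))) := by
  have hpr := prime_fm hν
  set Δ' := insert v' (Δ.erase v) with hΔ'def
  obtain ⟨h1, -⟩ := cfA_nb w h hDET hlin hΔ hv hv' hΔ'
  rw [← hΔ'def] at h1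
  obtain ⟨hp', hsub⟩ := dvd_sub_nb w h hDET hlin hΔ hv hv' hΔ' _ hp
  rw [← hΔ'def] at hp' hsub
  have hdet : adet w Δ' = adet w Δ * |pr (dual w Δ v) (hat w v')| :=
    (hDET ι κ w h hlin Δ hΔ v hv v' hv' hΔ').2.1
  rw [abs_of_neg ht] at hdet
  set t := pr (dual w Δ v) (hat w v') with htdef
  have hv'σ : v' ∉ σ := fun h => hv' (hσ h)
  have hvv' : v ≠ v' := fun h => hv' (h ▸ hv)
  -- the common factors
  set R := (Δ \ σ).erase v with hR
  have e1 : ∏ u ∈ Δ \ σ, cfA w Δ u = cfA w Δ v * ∏ u ∈ R, cfA w Δ u := by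
    rw [hR, Finset.mul_prod_erase]
    exact Finset.mem_sdiff.mpr ⟨hv, hvσ⟩
  have e2 : ∏ u ∈ Δ' \ σ, cfA w Δ' u = cfA w Δ' v' * ∏ u ∈ R, cfA w Δ' u := by
    have : R = (Δ' \ σ).erase v' := by
      ext u
      simp only [hR, hΔ'def, Finset.mem_erase, Finset.mem_sdiff, Finset.mem_insert]
      constructor
      · rintro ⟨h2, h3, h4⟩
        exact ⟨fun h => hv' (h ▸ h3), Or.inr ⟨h2, h3⟩, h4⟩
      · rintro ⟨h2, h3, h4⟩
        rcases h3 with h3 | h3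
        · exact absurd h3 h2
        · exact ⟨h3.1, h3.2, h4⟩
    rw [this, Finset.mul_prod_erase]
    exact Finset.mem_sdiff.mpr ⟨Finset.mem_insert_self _ _, hv'σ⟩
  -- the numerator
  obtain ⟨N1, hN1⟩ := dvd_aeval_sub (fm ν) (cfA w Δ) (cfA w Δ') hsub g R
  -- the form of the wall
  have hp2 := hp
  rw [cfA, if_pos hv] at hp2
  obtain ⟨a, ha, ha'⟩ := fm_dvd hν (dual_ne_zero w h hDUAL hlin hΔ hv) hp2
  have hcv : cfA w Δ v = C a * fm ν := by rw [cfA, if_pos hv, ha', fm_smul]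
  have hδ := adet_ne_zero w h hDUAL hlin hΔ
  have hδ' := adet_ne_zero w h hDUAL hlin hΔ'
  -- not divisible
  have hR1 : ¬ fm ν ∣ ∏ u ∈ R, cfA w Δ u := by
    intro hd
    obtain ⟨u, hu, hu'⟩ := (Prime.dvd_finsetProd_iff hpr _).mp hd
    have hu1 := Finset.mem_erase.mp hu
    exact hu1.1 (unique_v w h hDUAL hlin hν hΔ (Finset.mem_sdiff.mp hu1.2).1 hv hu' hp)
  have hR2 : ¬ fm ν ∣ ∏ u ∈ R, cfA w Δ' u := by
    intro hd
    obtain ⟨u, hu, hu'⟩ := (Prime.dvd_finsetProd_iff hpr _).mp hd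
    have hu1 := Finset.mem_erase.mp hu
    have hu2 : u ∈ Δ := (Finset.mem_sdiff.mp hu1.2).1
    have : u = v' := unique_v w h hDUAL hlin hν hΔ'
      (Finset.mem_insert_of_mem (Finset.mem_erase.mpr ⟨hu1.1, hu2⟩))
      (Finset.mem_insert_self _ _) hu' hp'
    exact hv' (this ▸ hu2)
  have hD : ¬ fm ν ∣ C (adet w Δ * a) * ((∏ u ∈ R, cfA w Δ u) * ∏ u ∈ R, cfA w Δ' u) := by
    intro hd
    have hunit : IsUnit (C (adet w Δ * a) : MvPolynomial (ι ⊕ Unit) ℚ) :=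
      (IsUnit.mk0 _ (mul_ne_zero hδ ha)).map C
    rw [hunit.dvd_mul_left] at hd
    rcases hpr.dvd_or_dvd hd with h3 | h3
    · exact hR1 h3
    · exact hR2 h3
  have hfin := RegAt.div (K := KK ι) (a := N1) hD
  have heq : term w σ g (YY ι) Δ + term w σ g (YY ι) Δ' =
      algebraMap (MvPolynomial (ι ⊕ Unit) ℚ) (KK ι) N1 /
        algebraMap (MvPolynomial (ι ⊕ Unit) ℚ) (KK ι)
          (C (adet w Δ * a) * ((∏ u ∈ R, cfA w Δ u) * ∏ u ∈ R, cfA w Δ' u)) := by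
    rw [term_eq, term_eq, aeval_YY, aeval_YY, aeval_YY, aeval_YY]
    have hinj : Function.Injective (algebraMap (MvPolynomial (ι ⊕ Unit) ℚ) (KK ι)) :=
      IsFractionRing.injective _ _
    have hne : ∀ q : MvPolynomial (ι ⊕ Unit) ℚ, q ≠ 0 →
        algebraMap (MvPolynomial (ι ⊕ Unit) ℚ) (KK ι) q ≠ 0 := fun q hq =>
      (map_ne_zero_iff _ hinj).mpr hq
    have n1 := hne _ (denA_ne_zero w h hDUAL hlin hΔ σ)
    have n2 := hne _ (denA_ne_zero w h hDUAL hlin hΔ' σ)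
    have n3 := hne (C (adet w Δ * a) * ((∏ u ∈ R, cfA w Δ u) * ∏ u ∈ R, cfA w Δ' u)) (by
      intro h0
      apply hD
      rw [h0]
      exact dvd_zero _)
    rw [div_add_div _ _ n1 n2, div_eq_div_iff (mul_ne_zero n1 n2) n3]
    rw [← map_mul, ← map_mul, ← map_mul, ← map_mul, ← map_add, ← map_mul]
    congr 1
    have e3 : denA w σ Δ = C (adet w Δ) * (C a * fm ν * ∏ u ∈ R, cfA w Δ u) := by
      rw [denA, e1, hcv]
    have e4 : denA w σ Δ' = - (C (adet w Δ) * (C a * fm ν * ∏ u ∈ R, cfA w Δ' u)) := by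
      rw [denA, e2, hdet, ← hcv, ← h1]
      rw [C_mul, C_neg]
      ring
    rw [e3, e4]
    have e5 : numA w g Δ * (∏ u ∈ R, cfA w Δ' u) - numA w g Δ' * (∏ u ∈ R, cfA w Δ u) =
        fm ν * N1 := hN1
    rw [C_mul]
    linear_combination (-(C (adet w Δ) * (C a * fm ν)) * (C (adet w Δ) * C a) *
      ((∏ u ∈ R, cfA w Δ u) * ∏ u ∈ R, cfA w Δ' u)) * e5
  rw [heq]
  exact hfin

/-- `Δ` and `Δ'` are neighbours along the wall of `ν` -/
def Nb (σ : Finset (κ ⊕ ι)) (ν : ι ⊕ Unit → ℚ) (Δ Δ' : Finset (κ ⊕ ι)) : Prop :=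
  Δ ∈ maxCells w h ∧ Δ' ∈ maxCells w h ∧ σ ⊆ Δ ∧ σ ⊆ Δ' ∧ ∃ v v', v ∈ Δ ∧ v ∉ σ ∧ v' ∉ Δ ∧
    Δ' = insert v' (Δ.erase v) ∧ fm ν ∣ cfA w Δ v

theorem Nb.symm (hDET : Stmt_DET) (hlin : LinearIndependent ℚ h)
    {σ : Finset (κ ⊕ ι)} {ν : ι ⊕ Unit → ℚ} {Δ Δ' : Finset (κ ⊕ ι)} (hn : Nb w h σ ν Δ Δ') :
    Nb w h σ ν Δ' Δ := by
  obtain ⟨h1, h2, h3, h4, v, v', h5, h6, h7, h8, h9⟩ := hn
  subst h8
  have hvv' : v ≠ v' := fun h => h7 (h ▸ h5)
  refine ⟨h2, h1, h4, h3, v', v, Finset.mem_insert_self _ _, fun h => h7 (h3 h), ?_, ?_,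
    (dvd_sub_nb w h hDET hlin h1 h5 h7 h2 _ h9).1⟩
  · intro h
    rcases Finset.mem_insert.mp h with h10 | h10
    · exact hvv' h10
    · exact (Finset.mem_erase.mp h10).1 rfl
  · rw [Finset.erase_insert, Finset.insert_erase h5]
    intro h
    exact h7 (Finset.mem_erase.mp h).2

theorem exists_nb (hDUAL : Stmt_DUAL) (hTRI2 : Stmt_TRI2) [Nonempty κ]
    (hlin : LinearIndependent ℚ h) {ν : ι ⊕ Unit → ℚ} (hν : ν ≠ 0)
    (hpos : ∃ u, 0 < pr ν (hat w u)) (hneg : ∃ u, pr ν (hat w u) < 0)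
    {Δ : Finset (κ ⊕ ι)} (hΔ : Δ ∈ maxCells w h) {v : κ ⊕ ι} (hv : v ∈ Δ)
    (hp : fm ν ∣ cfA w Δ v) :
    ∃ v', v' ∉ Δ ∧ insert v' (Δ.erase v) ∈ maxCells w h ∧ pr (dual w Δ v) (hat w v') < 0 ∧
      ∀ Δ' ∈ maxCells w h, Δ.erase v ⊆ Δ' → Δ' = Δ ∨ Δ' = insert v' (Δ.erase v) := by
  rcases hTRI2 ι κ w h hlin Δ hΔ v hv with h1 | h1
  · exfalso
    rw [cfA, if_pos hv] at hp
    obtain ⟨a, ha, ha'⟩ := fm_dvd hν (dual_ne_zero w h hDUAL hlin hΔ hv) hp
    obtain ⟨u1, hu1⟩ := hpos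
    obtain ⟨u2, hu2⟩ := hneg
    have e1 := h1 u1
    have e2 := h1 u2
    rw [ha', pr_smul] at e1 e2
    rcases lt_or_gt_of_ne ha with h2 | h2
    · have := mul_neg_of_neg_of_pos h2 hu1
      exact absurd e1 (not_le.mpr this)
    · have := mul_neg_of_pos_of_neg h2 hu2
      exact absurd e2 (not_le.mpr this)
  · exact h1

theorem Nb.unique (hDUAL : Stmt_DUAL) (hTRI2 : Stmt_TRI2) [Nonempty κ]
    (hlin : LinearIndependent ℚ h) {ν : ι ⊕ Unit → ℚ} (hν : ν ≠ 0)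
    (hpos : ∃ u, 0 < pr ν (hat w u)) (hneg : ∃ u, pr ν (hat w u) < 0)
    {σ : Finset (κ ⊕ ι)} {Δ Δ1 Δ2 : Finset (κ ⊕ ι)} (hn1 : Nb w h σ ν Δ Δ1)
    (hn2 : Nb w h σ ν Δ Δ2) : Δ1 = Δ2 := by
  obtain ⟨h1, h2, h3, h4, v, v', h5, h6, h7, h8, h9⟩ := hn1
  obtain ⟨-, i2, -, i4, u, u', i5, i6, i7, i8, i9⟩ := hn2
  have huv := unique_v w h hDUAL hlin hν h1 i5 h5 i9 h9
  subst huv
  obtain ⟨x, -, -, -, hx⟩ := exists_nb w h hDUAL hTRI2 hlin hν hpos hneg h1 h5 h9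
  have a1 : Δ1 = insert x (Δ.erase u) := by
    rcases hx Δ1 h2 (h8 ▸ Finset.subset_insert _ _) with h10 | h10
    · exfalso
      apply h7
      rw [← h10, h8]
      exact Finset.mem_insert_self _ _
    · exact h10
  have a2 : Δ2 = insert x (Δ.erase u) := by
    rcases hx Δ2 i2 (i8 ▸ Finset.subset_insert _ _) with h10 | h10
    · exfalso
      apply i7
      rw [← h10, i8]
      exact Finset.mem_insert_self _ _
    · exact h10
  rw [a1, a2]

theorem Nb.reg (hDUAL : Stmt_DUAL) (hTRI2 : Stmt_TRI2) (hDET : Stmt_DET) [Nonempty κ]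
    (hlin : LinearIndependent ℚ h) {ν : ι ⊕ Unit → ℚ} (hν : ν ≠ 0)
    (hpos : ∃ u, 0 < pr ν (hat w u)) (hneg : ∃ u, pr ν (hat w u) < 0)
    {σ : Finset (κ ⊕ ι)} {Δ Δ1 : Finset (κ ⊕ ι)} (hn1 : Nb w h σ ν Δ Δ1)
    (g : MvPolynomial (κ ⊕ ι) ℚ) :
    RegAt (fm ν) (term w σ g (YY ι) Δ + term w σ g (YY ι) Δ1) := by
  obtain ⟨h1, h2, h3, h4, v, v', h5, h6, h7, h8, h9⟩ := hn1
  obtain ⟨x, hx1, hx2, hx3, hx⟩ := exists_nb w h hDUAL hTRI2 hlin hν hpos hneg h1 h5 h9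
  have a1 : Δ1 = insert x (Δ.erase v) := by
    rcases hx Δ1 h2 (h8 ▸ Finset.subset_insert _ _) with h10 | h10
    · exfalso
      apply h7
      rw [← h10, h8]
      exact Finset.mem_insert_self _ _
    · exact h10
  rw [a1]
  exact reg_pair w h hDUAL hDET hlin h1 h5 hx1 hx2 hx3 σ h3 h6 g hν h9

open Classical in
theorem reg_interior (hDUAL : Stmt_DUAL) (hTRI2 : Stmt_TRI2) (hDET : Stmt_DET) [Nonempty κ]
    (hlin : LinearIndependent ℚ h) {ν : ι ⊕ Unit → ℚ} (hν : ν ≠ 0)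
    (hpos : ∃ u, 0 < pr ν (hat w u)) (hneg : ∃ u, pr ν (hat w u) < 0)
    (σ : Finset (κ ⊕ ι)) (g : MvPolynomial (κ ⊕ ι) ℚ) :
    RegAt (fm ν) (∑ Δ ∈ (maxCells w h).filter (σ ⊆ ·), term w σ g (YY ι) Δ) := by
  have hpr := prime_fm hν
  rw [← Finset.sum_filter_add_sum_filter_not ((maxCells w h).filter (σ ⊆ ·))
    (fun Δ => ∃ Δ', Nb w h σ ν Δ Δ')]
  apply RegAt.add hpr
  · -- cells with a neighbour
    set S := ((maxCells w h).filter (σ ⊆ ·)).filter (fun Δ => ∃ Δ', Nb w h σ ν Δ Δ') with hS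
    have hch : ∀ Δ, ∃ Δ', (Δ ∈ S → Nb w h σ ν Δ Δ') := by
      intro Δ
      by_cases hΔ : Δ ∈ S
      · obtain ⟨Δ', hΔ'⟩ := (Finset.mem_filter.mp hΔ).2
        exact ⟨Δ', fun _ => hΔ'⟩
      · exact ⟨Δ, fun h => absurd h hΔ⟩
    choose f hf using hch
    have hfS : ∀ Δ ∈ S, f Δ ∈ S := by
      intro Δ hΔ
      have h1 := hf Δ hΔ
      rw [hS, Finset.mem_filter, Finset.mem_filter]
      exact ⟨⟨h1.2.1, h1.2.2.2.1⟩, Δ, h1.symm w h hDET hlin⟩
    have hff : ∀ Δ ∈ S, f (f Δ) = Δ := by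
      intro Δ hΔ
      exact Nb.unique w h hDUAL hTRI2 hlin hν hpos hneg (hf (f Δ) (hfS Δ hΔ))
        ((hf Δ hΔ).symm w h hDET hlin)
    have hsum : ∑ Δ ∈ S, term w σ g (YY ι) (f Δ) = ∑ Δ ∈ S, term w σ g (YY ι) Δ :=
      Finset.sum_nbij' f f hfS hfS hff hff (fun _ _ => rfl)
    have h2 : ∑ Δ ∈ S, term w σ g (YY ι) Δ =
        algebraMap (MvPolynomial (ι ⊕ Unit) ℚ) (KK ι) (C (1 / 2)) *
          ∑ Δ ∈ S, (term w σ g (YY ι) Δ + term w σ g (YY ι) (f Δ)) := by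
      rw [Finset.sum_add_distrib, hsum]
      have h3 : algebraMap (MvPolynomial (ι ⊕ Unit) ℚ) (KK ι) (C (1 / 2)) *
          algebraMap (MvPolynomial (ι ⊕ Unit) ℚ) (KK ι) (C 2) = 1 := by
        rw [← map_mul, ← C_mul]
        norm_num
      have h4 : algebraMap (MvPolynomial (ι ⊕ Unit) ℚ) (KK ι) (C 2) = 2 := by
        rw [show (C 2 : MvPolynomial (ι ⊕ Unit) ℚ) = 2 from rfl]
        exact map_ofNat _ 2
      rw [h4] at h3
      linear_combination (-(∑ Δ ∈ S, term w σ g (YY ι) Δ)) * h3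
    rw [h2]
    apply RegAt.mul hpr (RegAt.alg hpr _)
    apply RegAt.sum hpr
    intro Δ hΔ
    exact Nb.reg w h hDUAL hTRI2 hDET hlin hν hpos hneg (hf Δ hΔ) g
  · -- the other cells
    apply RegAt.sum hpr
    intro Δ hΔ
    rw [Finset.mem_filter, Finset.mem_filter] at hΔ
    obtain ⟨⟨hΔ1, hΔ2⟩, hΔ3⟩ := hΔ
    rw [term_eq, aeval_YY, aeval_YY]
    apply RegAt.div
    intro hd
    apply hΔ3
    rw [denA] at hd
    have hunit : IsUnit (C (adet w Δ) : MvPolynomial (ι ⊕ Unit) ℚ) :=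
      (IsUnit.mk0 _ (adet_ne_zero w h hDUAL hlin hΔ1)).map C
    rw [hunit.dvd_mul_left] at hd
    obtain ⟨v, hv, hv'⟩ := (Prime.dvd_finsetProd_iff hpr _).mp hd
    rw [Finset.mem_sdiff] at hv
    obtain ⟨x, hx1, hx2, hx3, hx⟩ := exists_nb w h hDUAL hTRI2 hlin hν hpos hneg hΔ1 hv.1 hv'
    refine ⟨insert x (Δ.erase v), hΔ1, hx2, hΔ2, ?_, v, x, hv.1, hv.2, hx1, rfl, hv'⟩
    intro u hu
    apply Finset.mem_insert_of_mem
    apply Finset.mem_erase.mpr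
    exact ⟨fun h => hv.2 (h ▸ hu), hΔ2 hu⟩

theorem Itg_eq {F : Type} [Field F] [Algebra ℚ F] (σ : Finset (κ ⊕ ι))
    (g : MvPolynomial (κ ⊕ ι) ℚ) (y : ι ⊕ Unit → F)
    [DecidablePred (σ ⊆ · : Finset (κ ⊕ ι) → Prop)] :
    Itg w h σ g y = ∑ Δ ∈ (maxCells w h).filter (σ ⊆ ·), term w σ g y Δ := by
  unfold Itg term
  apply Finset.sum_congr
  · ext Δ
    simp only [Finset.mem_filter]
  · intro Δ _
    rfl

open Classical in
/-- the pairs `(Δ, v)` -/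
noncomputable def prs (σ : Finset (κ ⊕ ι)) : Finset (Finset (κ ⊕ ι) × (κ ⊕ ι)) :=
  (((maxCells w h).filter (σ ⊆ ·)) ×ˢ Finset.univ).filter fun q => q.2 ∈ q.1 \ σ

theorem mem_prs (σ : Finset (κ ⊕ ι)) (q : Finset (κ ⊕ ι) × (κ ⊕ ι)) :
    q ∈ prs w h σ ↔ q.1 ∈ maxCells w h ∧ σ ⊆ q.1 ∧ q.2 ∈ q.1 ∧ q.2 ∉ σ := by
  classical
  simp only [prs, Finset.mem_filter, Finset.mem_product, Finset.mem_univ, Finset.mem_sdiff,
    and_true, and_assoc]

open Classical in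
theorem prod_prs (σ : Finset (κ ⊕ ι)) :
    ∏ q ∈ prs w h σ, fm (dual w q.1 q.2) =
      ∏ Δ ∈ (maxCells w h).filter (σ ⊆ ·), ∏ v ∈ Δ \ σ, cfA w Δ v := by
  rw [prs, Finset.prod_filter, Finset.prod_product]
  apply Finset.prod_congr rfl
  intro Δ _
  rw [← Finset.prod_filter]
  have : Finset.univ.filter (fun v => v ∈ Δ \ σ) = Δ \ σ := by
    ext v
    simp
  rw [this]
  apply Finset.prod_congr rfl
  intro v hv
  rw [cfA, if_pos (Finset.mem_sdiff.mp hv).1]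

end main

end REGAux

open REGAux in
open Classical in
theorem stmt_REG (hDUAL : Stmt_DUAL) (hTRI2 : Stmt_TRI2) (hDET : Stmt_DET)
    (hREGA : Stmt_REGA) : Stmt_REG := by
  intro ι κ _ _ _ _ _ w h hlin σ g
  have hinj : Function.Injective (algebraMap (MvPolynomial (ι ⊕ Unit) ℚ) (KK ι)) :=
    IsFractionRing.injective _ _
  set bd : Finset (κ ⊕ ι) × (κ ⊕ ι) → Prop := fun q => ∀ u, 0 ≤ pr (dual w q.1 q.2) (hat w u)
    with hbd
  set I : Multiset (MvPolynomial (ι ⊕ Unit) ℚ) :=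
    ((prs w h σ).filter fun q => ¬ bd q).val.map fun q => fm (dual w q.1 q.2) with hI
  set J : MvPolynomial (ι ⊕ Unit) ℚ := ∏ q ∈ (prs w h σ).filter bd, fm (dual w q.1 q.2) with hJ
  set B : List (ι ⊕ Unit → ℚ) := ((prs w h σ).filter bd).toList.map fun q => dual w q.1 q.2
    with hB
  set T := (maxCells w h).filter (σ ⊆ ·) with hT
  set x0 : KK ι := ∑ Δ ∈ T, term w σ g (YY ι) Δ with hx0
  have hIJ : I.prod * J = ∏ Δ ∈ T, ∏ v ∈ Δ \ σ, cfA w Δ v := by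
    rw [← prod_prs, ← Finset.prod_filter_mul_prod_filter_not (prs w h σ) bd, mul_comm]
    rfl
  obtain ⟨P, hP⟩ : ∃ P, x0 * algebraMap (MvPolynomial (ι ⊕ Unit) ℚ) (KK ι) J =
      algebraMap (MvPolynomial (ι ⊕ Unit) ℚ) (KK ι) P := by
    apply hREGA (MvPolynomial (ι ⊕ Unit) ℚ) (KK ι) I J x0
    · intro p hp
      rw [hI, Multiset.mem_map] at hp
      obtain ⟨q, hq, rfl⟩ := hp
      have hq' := (mem_prs w h σ q).mp (Finset.mem_filter.mp hq).1
      exact prime_fm (dual_ne_zero w h hDUAL hlin hq'.1 hq'.2.2.1)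
    · rw [hIJ]
      refine ⟨∑ Δ ∈ T, numA w g Δ * C (adet w Δ)⁻¹ * ∏ Δ' ∈ T.erase Δ, ∏ v ∈ Δ' \ σ, cfA w Δ' v, ?_⟩
      rw [hx0, Finset.sum_mul, map_sum]
      apply Finset.sum_congr rfl
      intro Δ hΔ
      have hΔ' := (Finset.mem_filter.mp hΔ).1
      rw [← Finset.mul_prod_erase T (fun Δ => ∏ v ∈ Δ \ σ, cfA w Δ v) hΔ]
      rw [term_eq, aeval_YY, aeval_YY]
      have hden := denA_ne_zero w h hDUAL hlin hΔ' σ
      have hden' : algebraMap (MvPolynomial (ι ⊕ Unit) ℚ) (KK ι) (denA w σ Δ) ≠ 0 :=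
        (map_ne_zero_iff _ hinj).mpr hden
      rw [div_mul_eq_mul_div, div_eq_iff hden', ← map_mul, ← map_mul]
      congr 1
      rw [denA]
      have hc : (C (adet w Δ)⁻¹ * C (adet w Δ) : MvPolynomial (ι ⊕ Unit) ℚ) = 1 := by
        rw [← C_mul, inv_mul_cancel₀ (adet_ne_zero w h hDUAL hlin hΔ'), C_1]
      linear_combination (-(numA w g Δ * (∏ Δ' ∈ T.erase Δ, ∏ v ∈ Δ' \ σ, cfA w Δ' v) *
        ∏ v ∈ Δ \ σ, cfA w Δ v)) * hc
    · intro p hp
      rw [hI, Multiset.mem_map] at hp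
      obtain ⟨q, hq, rfl⟩ := hp
      have hq1 := Finset.mem_filter.mp hq
      have hq' := (mem_prs w h σ q).mp hq1.1
      have hneg : ∃ u, pr (dual w q.1 q.2) (hat w u) < 0 := by
        by_contra hcon
        push Not at hcon
        exact hq1.2 hcon
      have hpos : ∃ u, 0 < pr (dual w q.1 q.2) (hat w u) := by
        refine ⟨q.2, ?_⟩
        rw [(hDUAL ι κ w h hlin q.1 hq'.1).2.1 q.2 hq'.2.2.1 q.2 hq'.2.2.1, if_pos rfl]
        exact one_pos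
      exact reg_interior w h hDUAL hTRI2 hDET hlin
        (dual_ne_zero w h hDUAL hlin hq'.1 hq'.2.2.1) hpos hneg σ g
  refine ⟨B, P, ?_, ?_⟩
  · intro x hx
    rw [hB, List.mem_map] at hx
    obtain ⟨q, hq, rfl⟩ := hx
    rw [Finset.mem_toList, Finset.mem_filter] at hq
    have hq' := (mem_prs w h σ q).mp hq.1
    refine ⟨dual_ne_zero w h hDUAL hlin hq'.1 hq'.2.2.1, hq.2, ?_⟩
    intro u hu
    rw [(hDUAL ι κ w h hlin q.1 hq'.1).2.1 q.2 hq'.2.2.1 u (hq'.2.1 hu), if_neg]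
    rintro rfl
    exact hq'.2.2.2 hu
  · intro F _ _ y hy
    have hJy : (B.map fun x => ev x y).prod = aeval y J := by
      rw [hB, hJ, map_prod, List.map_map]
      rw [← Finset.prod_map_toList]
      apply congrArg List.prod
      apply List.map_congr_left
      intro q _
      rw [Function.comp_apply, aeval_fm]
    rw [hJy]
    have hden : ∀ Δ ∈ maxCells w h, aeval y (denA w σ Δ) ≠ 0 := by
      intro Δ hΔ
      rw [denA, map_mul, map_prod, MvPolynomial.aeval_C]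
      apply mul_ne_zero
      · exact (map_ne_zero _).mpr (adet_ne_zero w h hDUAL hlin hΔ)
      · rw [Finset.prod_ne_zero_iff]
        intro v hv
        rw [← cf_eq]
        exact hy Δ hΔ v (Finset.mem_sdiff.mp hv).1
    have hs1 : Sp (K := KK ι) (aeval y : MvPolynomial (ι ⊕ Unit) ℚ →ₐ[ℚ] F).toRingHom x0
        (Itg w h σ g y) := by
      rw [Itg_eq, hx0]
      apply Sp.sum
      intro Δ hΔ
      rw [term_eq, term_eq, aeval_YY, aeval_YY]
      exact Sp.div (aeval y : MvPolynomial (ι ⊕ Unit) ℚ →ₐ[ℚ] F).toRingHom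
        (hden Δ (Finset.mem_filter.mp hΔ).1)
    have hs2 := Sp.mul _ hs1
      (Sp.alg (K := KK ι) (aeval y : MvPolynomial (ι ⊕ Unit) ℚ →ₐ[ℚ] F).toRingHom J)
    have hs3 := Sp.alg (K := KK ι) (aeval y : MvPolynomial (ι ⊕ Unit) ℚ →ₐ[ℚ] F).toRingHom P
    rw [← hP] at hs3
    exact Sp.unique _ hs2 hs3

end Pool.Agent.Mono.NP
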