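import Pool.Agent.Work.Monodromy.Interface12A

/-!
# Phase 12, block REGA (helper22)
-/

set_option autoImplicit false

namespace Pool.Agent.Mono.NP

theorem stmt_REGA : Stmt_REGA := by
  intro A _ _ K _ _ _ I J x hI hx hp
  induction I using Multiset.induction_on with
  | empty => simpa using hx
  | cons p I ih =>
    have hpp : Prime p := hI p (Multiset.mem_cons_self p I)
    obtain ⟨a, ha⟩ := hx
    obtain ⟨a', b, hb, hab⟩ := hp p (Multiset.mem_cons_self p I)
    apply ih (fun q hq => hI q (Multiset.mem_cons_of_mem hq)) _
      (fun q hq => hp q (Multiset.mem_cons_of_mem hq))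
    have key : a * b = p * (a' * (I.prod * J)) := by
      apply IsFractionRing.injective A K
      rw [Multiset.prod_cons] at ha
      simp only [map_mul] at ha ⊢
      rw [← ha, ← hab]
      ring
    have hpd : p ∣ a * b := ⟨_, key⟩
    rcases hpp.dvd_or_dvd hpd with h | h
    · obtain ⟨c, rfl⟩ := h
      refine ⟨c, ?_⟩
      have hp0 : algebraMap A K p ≠ 0 := by
        intro h0
        apply hpp.ne_zero
        apply IsFractionRing.injective A K
        rw [h0, map_zero]
      apply mul_left_cancel₀ hp0
      rw [Multiset.prod_cons] at ha
      simp only [map_mul] at ha ⊢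
      rw [← ha]
      ring
    · exact absurd h hb

end Pool.Agent.Mono.NP
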