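import Pool.Agent.Work.Monodromy.Interface12A

/-! # Phase 12, block REL: rules for the integrals (helper6) -/

set_option autoImplicit false

namespace Pool.Agent.Mono.NP

open MvPolynomial

namespace RELAux

variable {ι κ : Type} [Fintype ι] [DecidableEq ι] [Fintype κ] [DecidableEq κ]

/-- homogeneous polynomials at a multiple of a point -/
theorem aeval_hom {S F : Type} [Field F] [Algebra ℚ F] (g : MvPolynomial S ℚ) (d : ℕ)
    (hg : g.IsHomogeneous d) (t : F) (c : S → F) :
    aeval (fun v => t * c v) g = t ^ d * aeval c g := by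
  rw [aeval_def, aeval_def, eval₂_eq, eval₂_eq, Finset.mul_sum]
  apply Finset.sum_congr rfl
  intro m hm
  have h1 : ∏ i ∈ m.support, (t * c i) ^ m i = t ^ d * ∏ i ∈ m.support, c i ^ m i := by
    have h2 : m.degree = d := by
      have := hg (mem_support_iff.1 hm)
      rw [← this, Finsupp.weight_apply, Finsupp.degree_apply]
      simp [Finsupp.sum]
    rw [← h2, Finsupp.degree_apply, ← Finset.prod_pow_eq_pow_sum, ← Finset.prod_mul_distrib]
    apply Finset.prod_congr rfl
    intro i _
    rw [mul_pow]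
  rw [h1]
  ring

end RELAux

open RELAux in
theorem stmt_REL (hDUAL : Stmt_DUAL) : Stmt_REL := by
  classical
  intro ι κ _ _ _ _ w h hh F _ _ y hy σ g g'
  have hmax : ∀ Δ ∈ (maxCells w h).filter (σ ⊆ ·), Δ ∈ maxCells w h ∧ σ ⊆ Δ :=
    fun Δ hΔ => Finset.mem_filter.1 hΔ
  refine ⟨?_, ?_, ?_, ?_, ?_, ?_⟩
  · unfold Itg
    rw [← Finset.sum_add_distrib]
    apply Finset.sum_congr rfl
    intro Δ _
    rw [map_add, add_div]
  · intro c
    unfold Itg
    rw [Finset.mul_sum]
    apply Finset.sum_congr rfl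
    intro Δ _
    rw [map_mul, aeval_C, mul_div_assoc]
  · intro e
    unfold Itg
    rw [Finset.mul_sum]
    apply Finset.sum_congr rfl
    intro Δ hΔ
    have h1 := ((hDUAL ι κ w h hh Δ (hmax Δ hΔ).1).2.2 F).1 y e
    have h2 : aeval (cf w Δ y) (relv w e) = y e := by
      rw [← h1]
      unfold relv
      rw [map_sum]
      apply Finset.sum_congr rfl
      intro v _
      rw [map_mul, aeval_C, aeval_X, mul_comm]
    rw [map_mul, h2, mul_div_assoc]
  · intro v hv
    unfold Itg
    have h1 : (maxCells w h).filter (insert v σ ⊆ ·) ⊆ (maxCells w h).filter (σ ⊆ ·) := by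
      intro Δ hΔ
      rw [Finset.mem_filter] at hΔ ⊢
      exact ⟨hΔ.1, (Finset.subset_insert v σ).trans hΔ.2⟩
    rw [← Finset.sum_subset h1]
    · apply Finset.sum_congr rfl
      intro Δ hΔ
      rw [Finset.mem_filter] at hΔ
      have hvΔ : v ∈ Δ := hΔ.2 (Finset.mem_insert_self v σ)
      have hcv : cf w Δ y v ≠ 0 := hy Δ hΔ.1 v hvΔ
      have h2 : Δ \ σ = insert v (Δ \ insert v σ) := by
        ext u
        simp only [Finset.mem_sdiff, Finset.mem_insert]
        constructor
        · rintro ⟨h3, h4⟩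
          by_cases huv : u = v
          · exact Or.inl huv
          · exact Or.inr ⟨h3, fun h5 => h5.elim huv h4⟩
        · rintro (h3 | ⟨h3, h4⟩)
          · rw [h3]
            exact ⟨hvΔ, hv⟩
          · exact ⟨h3, fun h5 => h4 (Or.inr h5)⟩
      have h3 : v ∉ Δ \ insert v σ := by simp
      rw [h2, Finset.prod_insert h3, map_mul, aeval_X]
      rw [show algebraMap ℚ F (adet w Δ) * (cf w Δ y v * ∏ u ∈ Δ \ insert v σ, cf w Δ y u) =
        cf w Δ y v * (algebraMap ℚ F (adet w Δ) * ∏ u ∈ Δ \ insert v σ, cf w Δ y u) by ring]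
      rw [mul_div_mul_left _ _ hcv]
    · intro Δ hΔ hΔ'
      rw [Finset.mem_filter] at hΔ hΔ'
      have hvΔ : v ∉ Δ := by
        intro h2
        apply hΔ'
        exact ⟨hΔ.1, Finset.insert_subset h2 hΔ.2⟩
      rw [map_mul, aeval_X]
      have h2 : cf w Δ y v = 0 := by
        unfold cf
        rw [if_neg hvΔ]
      rw [h2, zero_mul, zero_div]
  · intro d t hg ht
    unfold Itg
    rw [Finset.sum_mul, Finset.mul_sum]
    apply Finset.sum_congr rfl
    intro Δ hΔ
    obtain ⟨hΔ1, hΔ2⟩ := hmax Δ hΔ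
    have hcard : Δ.card = Fintype.card ι + 1 := by
      unfold maxCells at hΔ1
      exact (Finset.mem_filter.1 hΔ1).2.1
    have h1 : cf w Δ (fun e => t * y e) = fun v => t * cf w Δ y v := by
      funext v
      unfold cf
      by_cases hv : v ∈ Δ
      · rw [if_pos hv, if_pos hv]
        unfold ev
        rw [Finset.mul_sum]
        apply Finset.sum_congr rfl
        intro e _
        ring
      · rw [if_neg hv, if_neg hv, mul_zero]
    have h2 : Fintype.card ι + 1 = (Δ \ σ).card + σ.card := by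
      rw [← hcard, Finset.card_sdiff_add_card_eq_card hΔ2]
    rw [h1, aeval_hom g d hg, Finset.prod_mul_distrib, Finset.prod_const, h2]
    have ht' : t ^ (Δ \ σ).card ≠ 0 := pow_ne_zero _ ht
    rw [show algebraMap ℚ F (adet w Δ) * (t ^ (Δ \ σ).card * ∏ v ∈ Δ \ σ, cf w Δ y v) =
      (algebraMap ℚ F (adet w Δ) * ∏ v ∈ Δ \ σ, cf w Δ y v) * t ^ (Δ \ σ).card by ring]
    rw [pow_add, pow_add, div_mul_eq_mul_div]
    rw [show t ^ d * aeval (cf w Δ y) g * (t ^ (Δ \ σ).card * t ^ σ.card) =
      (t ^ d * t ^ σ.card * aeval (cf w Δ y) g) * t ^ (Δ \ σ).card by ring]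
    rw [mul_div_mul_right _ _ ht', mul_div_assoc]
  · intro hn
    unfold Itg
    rw [Finset.filter_eq_empty_iff.2 (fun Δ hΔ => hn Δ hΔ), Finset.sum_empty]

end Pool.Agent.Mono.NP
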