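import Pool.Agent.Work.Monodromy.Interface12A

/-! # Phase 12, block TD: a common denominator of the zeta function (helper32) -/

set_option autoImplicit false

namespace Pool.Agent.Mono.NP

open MvPolynomial

namespace TDAux

variable {ι : Type} [Fintype ι]

theorem aeval_fm {F : Type} [Field F] [Algebra ℚ F] (x : ι ⊕ Unit → ℚ) (y : ι ⊕ Unit → F) :
    aeval y (∑ e, C (x e) * X e : MvPolynomial (ι ⊕ Unit) ℚ) = ev x y := by
  unfold ev
  rw [map_sum]
  apply Finset.sum_congr rfl
  intro e _
  rw [map_mul, aeval_C, aeval_X]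

theorem aeval_list {F : Type} [Field F] [Algebra ℚ F] (B : List (ι ⊕ Unit → ℚ))
    (y : ι ⊕ Unit → F) :
    aeval y (B.map fun x => (∑ e, C (x e) * X e : MvPolynomial (ι ⊕ Unit) ℚ)).prod =
      (B.map fun x => ev x y).prod := by
  induction B with
  | nil => simp
  | cons b B ih =>
    simp only [List.map_cons, List.prod_cons, map_mul]
    rw [ih, aeval_fm]

theorem prod_flatMap {α β M : Type} [CommMonoid M] (l : List α) (B : α → List β) (f : β → M) :
    ((l.flatMap B).map f).prod = (l.map fun a => ((B a).map f).prod).prod := by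
  induction l with
  | nil => simp
  | cons a l ih =>
    simp only [List.flatMap_cons, List.map_append, List.prod_append, List.map_cons,
      List.prod_cons, ih]

end TDAux

open TDAux in
theorem stmt_TD (hREG : Stmt_REG) : Stmt_TD := by
  classical
  intro ι κ _ _ _ _ _ w h e hh
  have h1 := fun C : Finset κ => hREG ι κ w h hh (inl C) 1
  choose B P hB hP using h1
  refine ⟨(Finset.univ : Finset (Finset κ)).toList.flatMap B,
    ∑ C : Finset κ, MvPolynomial.C ((-1 : ℚ) ^ C.card * (mu w e C : ℚ)) * P C *
      ∏ C' ∈ Finset.univ.erase C,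
        ((B C').map fun x => (∑ e, MvPolynomial.C (x e) * X e : MvPolynomial (ι ⊕ Unit) ℚ)).prod,
    ?_, ?_⟩
  · intro x hx
    rw [List.mem_flatMap] at hx
    obtain ⟨C, _, hx⟩ := hx
    obtain ⟨h2, h3, _⟩ := hB C x hx
    exact ⟨h2, h3, fun v hv => absurd hv (Finset.notMem_empty v)⟩
  · intro F _ _ y hy
    rw [prod_flatMap, Finset.prod_map_toList]
    unfold Tf
    rw [Finset.sum_mul, map_sum]
    apply Finset.sum_congr rfl
    intro C _
    rw [map_mul, map_mul, map_prod, ← Finset.mul_prod_erase Finset.univ _ (Finset.mem_univ C)]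
    rw [← hP C F y hy, aeval_C]
    have h4 : ∀ C' ∈ Finset.univ.erase C, aeval y
        ((B C').map fun x => (∑ e, MvPolynomial.C (x e) * X e : MvPolynomial (ι ⊕ Unit) ℚ)).prod =
        ((B C').map fun x => ev x y).prod := fun C' _ => aeval_list (B C') y
    rw [Finset.prod_congr rfl h4, map_mul, map_pow, map_neg, map_one, map_natCast]
    ring

end Pool.Agent.Mono.NP
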