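import Pool.Agent.Work.Monodromy.Interface12A

/-!
# Phase 12, block TRI2: walls have one or two neighbours (helper45)
-/

set_option autoImplicit false

namespace Pool.Agent.Mono.NP

open MvPolynomial

namespace TRI2Aux

variable {ι κ : Type} [Fintype ι] [DecidableEq ι] [Fintype κ] [DecidableEq κ]

/-- the slacks of `k` and `N` -/
def slack (w : κ → ι → ℕ) (h : κ → ℝ) (k : ι → ℝ) (N : ℝ) : κ ⊕ ι → ℝ :=
  Sum.elim (fun a => hval w h k a - N) k

/-- the pairing of a real covector with `hat w u` -/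
def prR (w : κ → ι → ℕ) (y : ι ⊕ Unit → ℝ) (u : κ ⊕ ι) : ℝ := ∑ e, y e * (hat w u e : ℝ)

theorem prR_inl (w : κ → ι → ℕ) (y : ι ⊕ Unit → ℝ) (a : κ) :
    prR w y (Sum.inl a) = ∑ i, y (Sum.inl i) * (w a i : ℝ) + y (Sum.inr ()) := by
  unfold prR
  rw [Fintype.sum_sum_type]
  simp [hat]

theorem prR_inr (w : κ → ι → ℕ) (y : ι ⊕ Unit → ℝ) (j : ι) :
    prR w y (Sum.inr j) = y (Sum.inl j) := by
  unfold prR
  rw [Fintype.sum_sum_type]
  simp only [hat, Sum.elim_inr, Sum.elim_inl, Finset.univ_unique, Finset.sum_singleton,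
    Rat.cast_zero, mul_zero, add_zero]
  rw [Finset.sum_eq_single j]
  · rw [Pi.single_eq_same, Rat.cast_one, mul_one]
  · intro i _ hi
    rw [Pi.single_eq_of_ne hi, Rat.cast_zero, mul_zero]
  · intro hj
    exact absurd (Finset.mem_univ j) hj

theorem slack_add (w : κ → ι → ℕ) (h : κ → ℝ) (k : ι → ℝ) (N : ℝ) (y : ι ⊕ Unit → ℝ)
    (u : κ ⊕ ι) :
    slack w h (fun i => k i + y (Sum.inl i)) (N - y (Sum.inr ())) u = slack w h k N u + prR w y u := by
  rcases u with a | j
  · rw [prR_inl]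
    simp only [slack, Sum.elim_inl, hval]
    have : ∑ i, (k i + y (Sum.inl i)) * (w a i : ℝ) =
        ∑ i, k i * (w a i : ℝ) + ∑ i, y (Sum.inl i) * (w a i : ℝ) := by
      rw [← Finset.sum_add_distrib]
      exact Finset.sum_congr rfl fun i _ => by ring
    rw [this]
    ring
  · rw [prR_inr]
    rfl

theorem slack_sub (w : κ → ι → ℕ) (h : κ → ℝ) (k k' : ι → ℝ) (N N' : ℝ) (u : κ ⊕ ι) :
    slack w h k' N' u - slack w h k N u =
      prR w (Sum.elim (fun i => k' i - k i) fun _ => -(N' - N)) u := by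
  have h1 := slack_add w h k N (Sum.elim (fun i => k' i - k i) fun _ => -(N' - N)) u
  simp only [Sum.elim_inl, Sum.elim_inr] at h1
  have e1 : (fun i => k i + (k' i - k i)) = k' := by
    funext i
    ring
  have e2 : N - -(N' - N) = N' := by ring
  rw [e1, e2] at h1
  linarith

theorem prR_smul (w : κ → ι → ℕ) (t : ℝ) (x : ι ⊕ Unit → ℚ) (u : κ ⊕ ι) :
    prR w (fun e => t * (x e : ℝ)) u = t * (pr x (hat w u) : ℝ) := by
  unfold prR pr
  rw [Rat.cast_sum, Finset.mul_sum]
  refine Finset.sum_congr rfl fun e _ => ?_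
  rw [Rat.cast_mul]
  ring

theorem mem_cell {w : κ → ι → ℕ} {h : κ → ℝ} {k : ι → ℝ} {N : ℝ}
    (h0 : ∀ u, 0 ≤ slack w h k N u) {a0 : κ} (ha : slack w h k N (Sum.inl a0) = 0) (u : κ ⊕ ι) :
    u ∈ cell w h k ↔ slack w h k N u = 0 := by
  classical
  unfold cell
  rw [Finset.mem_filter]
  have ha' : hval w h k a0 - N = 0 := ha
  rcases u with a | j
  · simp only [Finset.mem_univ, true_and, Sum.elim_inl]
    change (∀ b, hval w h k a ≤ hval w h k b) ↔ hval w h k a - N = 0
    have h1 : 0 ≤ hval w h k a - N := h0 (Sum.inl a)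
    constructor
    · intro h2
      have h3 := h2 a0
      linarith
    · intro h2 b
      have h3 : 0 ≤ hval w h k b - N := h0 (Sum.inl b)
      linarith
  · simp only [Finset.mem_univ, true_and, Sum.elim_inr]
    rfl

theorem exists_slack [Nonempty κ] {w : κ → ι → ℕ} {h : κ → ℝ} {k : ι → ℝ} (hk : ∀ i, 0 ≤ k i) :
    ∃ (N : ℝ) (a0 : κ), (∀ u, 0 ≤ slack w h k N u) ∧ slack w h k N (Sum.inl a0) = 0 := by
  obtain ⟨a0, _, ha⟩ := Finset.exists_min_image (Finset.univ : Finset κ) (hval w h k)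
    Finset.univ_nonempty
  refine ⟨hval w h k a0, a0, ?_, sub_self _⟩
  rintro (a | j)
  · exact sub_nonneg.2 (ha a (Finset.mem_univ a))
  · exact hk j

theorem card_cell_le (h1 : Stmt_TRI1) {w : κ → ι → ℕ} {h : κ → ℝ} (hh : LinearIndependent ℚ h)
    (k : ι → ℝ) : (cell w h k).card ≤ Fintype.card ι + 1 := by
  classical
  have hli : LinearIndependent ℚ (fun u : {u // u ∈ cell w h k} => hat w u.1) := by
    rw [Fintype.linearIndependent_iff]
    intro g hg u
    have h2 := h1 ι κ w h k (fun v => if hv : v ∈ cell w h k then g ⟨v, hv⟩ else 0) hh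
      (fun v hv => dif_neg hv) ?_ u.1
    · rw [dif_pos u.2] at h2
      exact h2
    · intro e
      have h3 := congrFun hg e
      rw [Finset.sum_apply] at h3
      simp only [Pi.smul_apply, smul_eq_mul, Pi.zero_apply] at h3
      have e1 : ∑ v, (if hv : v ∈ cell w h k then g ⟨v, hv⟩ else 0) * hat w v e =
          ∑ v ∈ cell w h k, (if hv : v ∈ cell w h k then g ⟨v, hv⟩ else 0) * hat w v e := by
        symm
        apply Finset.sum_subset (Finset.subset_univ _)
        intro v _ hv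
        rw [dif_neg hv, zero_mul]
      rw [e1, ← Finset.sum_coe_sort, ← h3]
      refine Finset.sum_congr rfl fun v _ => ?_
      rw [dif_pos v.2]
  have h2 := hli.fintype_card_le_finrank
  rw [Fintype.card_coe, Module.finrank_fintype_fun_eq_card, Fintype.card_sum,
    Fintype.card_unit] at h2
  exact h2

/-- the pairing with a real covector in coordinates of a maximal cell -/
theorem prR_eq (h2 : Stmt_DUAL) {w : κ → ι → ℕ} {h : κ → ℝ} (hh : LinearIndependent ℚ h)
    {Δ : Finset (κ ⊕ ι)} (hΔ : Δ ∈ maxCells w h) {v : κ ⊕ ι} (hv : v ∈ Δ) (y : ι ⊕ Unit → ℝ)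
    (hy : ∀ u ∈ Δ, u ≠ v → prR w y u = 0) (u : κ ⊕ ι) :
    prR w y u = prR w y v * (pr (dual w Δ v) (hat w u) : ℝ) := by
  classical
  obtain ⟨_, _, h3⟩ := h2 ι κ w h hh Δ hΔ
  obtain ⟨h4, _⟩ := h3 ℚ
  have h5 : ∀ e, (hat w u e : ℝ) = ∑ v', ((cf w Δ (hat w u) v' : ℚ) : ℝ) * (hat w v' e : ℝ) := by
    intro e
    have h6 := h4 (hat w u) e
    rw [← h6, Rat.cast_sum]
    refine Finset.sum_congr rfl fun v' _ => ?_
    rw [Rat.cast_mul]
    rfl
  have h6 : prR w y u = ∑ v', ((cf w Δ (hat w u) v' : ℚ) : ℝ) * prR w y v' := by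
    unfold prR
    simp only [h5, Finset.mul_sum]
    rw [Finset.sum_comm]
    refine Finset.sum_congr rfl fun v' _ => Finset.sum_congr rfl fun e _ => ?_
    ring
  rw [h6, Finset.sum_eq_single v]
  · have h7 : cf w Δ (hat w u) v = pr (dual w Δ v) (hat w u) := by
      unfold cf
      rw [if_pos hv]
      rfl
    rw [h7, mul_comm]
  · intro v' _ hne
    by_cases hv' : v' ∈ Δ
    · rw [hy v' hv' hne, mul_zero]
    · have h7 : cf w Δ (hat w u) v' = 0 := by
        unfold cf
        rw [if_neg hv']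
      rw [h7, Rat.cast_zero, zero_mul]
  · intro hv'
    exact absurd (Finset.mem_univ v) hv'

theorem mem_maxCells {w : κ → ι → ℕ} {h : κ → ℝ} {Δ : Finset (κ ⊕ ι)} :
    Δ ∈ maxCells w h ↔ Δ.card = Fintype.card ι + 1 ∧
      ∃ k : ι → ℝ, (∀ i, 0 ≤ k i) ∧ Δ = cell w h k := by
  classical
  unfold maxCells
  rw [Finset.mem_filter]
  exact ⟨fun h => h.2, fun h => ⟨Finset.mem_univ _, h⟩⟩

end TRI2Aux

open TRI2Aux in
theorem stmt_TRI2 (h1 : Stmt_TRI1) (h2 : Stmt_DUAL) : Stmt_TRI2 := by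
  classical
  intro ι κ _ _ _ _ _ w h hh Δ hΔ v hv
  set ρ : κ ⊕ ι → ℚ := fun u => pr (dual w Δ v) (hat w u) with hρ
  have hρΔ : ∀ u ∈ Δ, ρ u = if u = v then 1 else 0 := (h2 ι κ w h hh Δ hΔ).2.1 v hv
  obtain ⟨hcard, k0, hk0, hcell⟩ := mem_maxCells.1 hΔ
  obtain ⟨N0, a0, hs0, ha0⟩ := exists_slack (w := w) (h := h) hk0
  have hmem : ∀ u, u ∈ Δ ↔ slack w h k0 N0 u = 0 := by
    intro u
    rw [hcell]
    exact mem_cell hs0 ha0 u
  by_cases hneg : ∀ u, 0 ≤ ρ u
  · exact Or.inl hneg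
  right
  -- some vertex of κ is in the wall
  have hR : ∃ a1, Sum.inl a1 ∈ Δ.erase v := by
    by_contra hcon
    push Not at hcon
    have hsub : Δ.erase v ⊆ (Finset.univ : Finset ι).map Function.Embedding.inr := by
      intro u hu
      rcases u with a | j
      · exact absurd hu (hcon a)
      · exact Finset.mem_map.2 ⟨j, Finset.mem_univ j, rfl⟩
    have heq : Δ.erase v = (Finset.univ : Finset ι).map Function.Embedding.inr := by
      apply Finset.eq_of_subset_of_card_le hsub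
      rw [Finset.card_map, Finset.card_univ, Finset.card_erase_of_mem hv, hcard]
      omega
    have hinr : ∀ j : ι, Sum.inr j ∈ Δ.erase v := by
      intro j
      rw [heq]
      exact Finset.mem_map.2 ⟨j, Finset.mem_univ j, rfl⟩
    have hx : ∀ j : ι, dual w Δ v (Sum.inl j) = 0 := by
      intro j
      have h3 := hρΔ (Sum.inr j) (Finset.mem_of_mem_erase (hinr j))
      rw [if_neg (Finset.ne_of_mem_erase (hinr j))] at h3
      have h4 := prR_smul w 1 (dual w Δ v) (Sum.inr j)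
      rw [prR_inr, one_mul, one_mul] at h4
      have h5 : (pr (dual w Δ v) (hat w (Sum.inr j)) : ℝ) = ((0 : ℚ) : ℝ) := by
        rw [← h3]
      rw [h5, Rat.cast_zero] at h4
      exact_mod_cast h4
    have hinl : ∀ a : κ, ρ (Sum.inl a) = dual w Δ v (Sum.inr ()) := by
      intro a
      have h4 := prR_smul w 1 (dual w Δ v) (Sum.inl a)
      rw [prR_inl] at h4
      simp only [hx, one_mul, Rat.cast_zero, zero_mul, Finset.sum_const_zero, zero_add] at h4
      exact_mod_cast h4.symm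
    obtain ⟨a, ha⟩ : ∃ a, v = Sum.inl a := by
      rcases hv2 : v with a | j
      · exact ⟨a, rfl⟩
      · exact absurd (hinr j) (by rw [← hv2]; exact Finset.notMem_erase v Δ)
    have hone : dual w Δ v (Sum.inr ()) = 1 := by
      have h3 := hρΔ v hv
      rw [if_pos rfl] at h3
      rw [← h3, ha]
      rw [ha] at hinl
      exact (hinl a).symm
    apply hneg
    rintro (b | j)
    · rw [hinl b, hone]
      exact zero_le_one
    · rw [hρΔ _ (Finset.mem_of_mem_erase (hinr j)), if_neg (Finset.ne_of_mem_erase (hinr j))]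
  obtain ⟨a1, ha1⟩ := hR
  have ha1Δ := Finset.mem_of_mem_erase ha1
  have ha1v := Finset.ne_of_mem_erase ha1
  -- the first time at which a slack vanishes
  obtain ⟨v', hv'neg, hmin⟩ := Finset.exists_min_image
    ((Finset.univ : Finset (κ ⊕ ι)).filter fun u => ρ u < 0)
    (fun u => slack w h k0 N0 u / (-(ρ u : ℝ))) (by
      push Not at hneg
      obtain ⟨u, hu⟩ := hneg
      exact ⟨u, Finset.mem_filter.2 ⟨Finset.mem_univ _, hu⟩⟩)
  have hv'n : ρ v' < 0 := (Finset.mem_filter.1 hv'neg).2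
  have hv'R : (ρ v' : ℝ) < 0 := by exact_mod_cast hv'n
  have hv'Δ : v' ∉ Δ := by
    intro hcon
    have := hρΔ v' hcon
    rw [this] at hv'n
    split at hv'n
    · exact absurd hv'n (by norm_num)
    · exact absurd hv'n (by norm_num)
  have hsv' : 0 < slack w h k0 N0 v' :=
    lt_of_le_of_ne (hs0 v') (fun hcon => hv'Δ ((hmem v').2 hcon.symm))
  set t1 : ℝ := slack w h k0 N0 v' / (-(ρ v' : ℝ)) with ht1
  have ht1pos : 0 < t1 := div_pos hsv' (by linarith)
  have ht1le : ∀ u, ρ u < 0 → t1 * (-(ρ u : ℝ)) ≤ slack w h k0 N0 u := by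
    intro u hu
    have h3 := hmin u (Finset.mem_filter.2 ⟨Finset.mem_univ _, hu⟩)
    have h4 : (0 : ℝ) < -(ρ u : ℝ) := by
      have : (ρ u : ℝ) < 0 := by exact_mod_cast hu
      linarith
    rw [le_div_iff₀ h4] at h3
    exact h3
  have ht1v' : slack w h k0 N0 v' + t1 * (ρ v' : ℝ) = 0 := by
    have h3 : t1 * (-(ρ v' : ℝ)) = slack w h k0 N0 v' :=
      div_mul_cancel₀ _ (by linarith : (-(ρ v' : ℝ)) > 0).ne'
    linarith
  -- the slacks on the ray
  have hray : ∀ t : ℝ, ∀ u, slack w h (fun i => k0 i + t * (dual w Δ v (Sum.inl i) : ℝ))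
      (N0 - t * (dual w Δ v (Sum.inr ()) : ℝ)) u = slack w h k0 N0 u + t * (ρ u : ℝ) := by
    intro t u
    have h3 := slack_add w h k0 N0 (fun e => t * (dual w Δ v e : ℝ)) u
    rw [prR_smul] at h3
    exact h3
  have hpos : ∀ u, 0 ≤ slack w h (fun i => k0 i + t1 * (dual w Δ v (Sum.inl i) : ℝ))
      (N0 - t1 * (dual w Δ v (Sum.inr ()) : ℝ)) u := by
    intro u
    rw [hray]
    rcases lt_or_ge (ρ u) 0 with hu | hu
    · have := ht1le u hu
      linarith
    · have h3 : (0 : ℝ) ≤ (ρ u : ℝ) := by exact_mod_cast hu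
      have h4 := mul_nonneg ht1pos.le h3
      have h5 := hs0 u
      linarith
  have ha1s : slack w h (fun i => k0 i + t1 * (dual w Δ v (Sum.inl i) : ℝ))
      (N0 - t1 * (dual w Δ v (Sum.inr ()) : ℝ)) (Sum.inl a1) = 0 := by
    rw [hray, (hmem _).1 ha1Δ, hρΔ _ ha1Δ, if_neg ha1v, Rat.cast_zero, mul_zero, add_zero]
  set k1 : ι → ℝ := fun i => k0 i + t1 * (dual w Δ v (Sum.inl i) : ℝ) with hk1
  have hk1pos : ∀ i, 0 ≤ k1 i := fun i => hpos (Sum.inr i)
  have hmem1 : ∀ u, u ∈ cell w h k1 ↔ slack w h k0 N0 u + t1 * (ρ u : ℝ) = 0 := by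
    intro u
    rw [← hray]
    exact mem_cell hpos ha1s u
  have hsub : insert v' (Δ.erase v) ⊆ cell w h k1 := by
    intro u hu
    rw [hmem1]
    rcases Finset.mem_insert.1 hu with rfl | hu
    · exact ht1v'
    · rw [(hmem u).1 (Finset.mem_of_mem_erase hu), hρΔ u (Finset.mem_of_mem_erase hu),
        if_neg (Finset.ne_of_mem_erase hu), Rat.cast_zero, mul_zero, add_zero]
  have hcardins : (insert v' (Δ.erase v)).card = Fintype.card ι + 1 := by
    rw [Finset.card_insert_of_notMem (fun hcon => hv'Δ (Finset.mem_of_mem_erase hcon)),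
      Finset.card_erase_of_mem hv, hcard]
    omega
  have hcell1 : insert v' (Δ.erase v) = cell w h k1 := by
    apply Finset.eq_of_subset_of_card_le hsub
    rw [hcardins]
    exact card_cell_le h1 hh k1
  refine ⟨v', hv'Δ, mem_maxCells.2 ⟨hcardins, k1, hk1pos, hcell1⟩, hv'n, ?_⟩
  -- uniqueness
  intro Δ' hΔ' hsub'
  obtain ⟨hcard', k2, hk2, hcell'⟩ := mem_maxCells.1 hΔ'
  obtain ⟨N2, a2, hs2, ha2⟩ := exists_slack (w := w) (h := h) hk2
  have hmem' : ∀ u, u ∈ Δ' ↔ slack w h k2 N2 u = 0 := by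
    intro u
    rw [hcell']
    exact mem_cell hs2 ha2 u
  have hdiff : ∀ u, slack w h k2 N2 u = slack w h k0 N0 u + slack w h k2 N2 v * (ρ u : ℝ) := by
    intro u
    have h3 := prR_eq h2 hh hΔ hv (Sum.elim (fun i => k2 i - k0 i) fun _ => -(N2 - N0)) (by
      intro u hu hne
      rw [← slack_sub, (hmem u).1 hu, (hmem' u).1 (hsub' (Finset.mem_erase.2 ⟨hne, hu⟩)), sub_zero])
      u
    rw [← slack_sub, ← slack_sub, (hmem v).1 hv, sub_zero] at h3
    linarith
  set t : ℝ := slack w h k2 N2 v with ht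
  have ht0 : 0 ≤ t := hs2 v
  have htle : t ≤ t1 := by
    have h3 := hs2 v'
    rw [hdiff v'] at h3
    rw [ht1, le_div_iff₀ (by linarith)]
    linarith
  rcases eq_or_lt_of_le ht0 with h0 | h0
  · left
    ext u
    rw [hmem', hmem, hdiff u, ← h0, zero_mul, add_zero]
  rcases eq_or_lt_of_le htle with h3 | h3
  · right
    ext u
    rw [hmem', hcell1, hmem1, hdiff u, h3]
  exfalso
  have hsubR : Δ' ⊆ Δ.erase v := by
    intro u hu
    have h4 := (hmem' u).1 hu
    rw [hdiff u] at h4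
    by_contra hcon
    have h5 : 0 < slack w h k0 N0 u + t * (ρ u : ℝ) := by
      by_cases huv : u = v
      · rw [huv, (hmem v).1 hv, hρΔ v hv, if_pos rfl, Rat.cast_one]
        linarith
      · have huΔ : u ∉ Δ := fun hcon' => hcon (Finset.mem_erase.2 ⟨huv, hcon'⟩)
        have hsu : 0 < slack w h k0 N0 u :=
          lt_of_le_of_ne (hs0 u) (fun hcon' => huΔ ((hmem u).2 hcon'.symm))
        rcases lt_or_ge (ρ u) 0 with hu' | hu'
        · have h6 := ht1le u hu'
          have h7 : (0 : ℝ) < -(ρ u : ℝ) := by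
            have : (ρ u : ℝ) < 0 := by exact_mod_cast hu'
            linarith
          have h8 := mul_lt_mul_of_pos_right h3 h7
          linarith
        · have h6 : (0 : ℝ) ≤ (ρ u : ℝ) := by exact_mod_cast hu'
          have h7 := mul_nonneg ht0 h6
          linarith
    linarith
  have h4 := Finset.card_le_card hsubR
  rw [hcard', Finset.card_erase_of_mem hv, hcard] at h4
  omega

end Pool.Agent.Mono.NP
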