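import Pool.Agent.Work.Monodromy12.IIASM12
import Pool.Agent.Work.Monodromy12.TRI112
import Pool.Agent.Work.Monodromy12.TRI212
import Pool.Agent.Work.Monodromy12.DUAL12
import Pool.Agent.Work.Monodromy12.DET12
import Pool.Agent.Work.Monodromy12.REGA12
import Pool.Agent.Work.Monodromy12.REG12
import Pool.Agent.Work.Monodromy12.REL12
import Pool.Agent.Work.Monodromy12.LIM12
import Pool.Agent.Work.Monodromy12.LF12
import Pool.Agent.Work.Monodromy12.GENP12
import Pool.Agent.Work.Monodromy12.COV12
import Pool.Agent.Work.Monodromy12.DAT12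
import Pool.Agent.Work.Monodromy12.QC12
import Pool.Agent.Work.Monodromy12.PAIR12
import Pool.Agent.Work.Monodromy12.POLE12
import Pool.Agent.Work.Monodromy12.TD12
import Pool.Agent.Work.Monodromy12.NUM12

/-!
# Phase 12: part II, all blocks put together (helper17)
-/

set_option autoImplicit false

namespace Pool.Agent.Mono.NP

theorem full_DUAL : Stmt_DUAL := stmt_DUAL stmt_TRI1

theorem full_REG : Stmt_REG :=
  stmt_REG full_DUAL (stmt_TRI2 stmt_TRI1 full_DUAL) (stmt_DET full_DUAL) stmt_REGA

theorem full_REL : Stmt_REL := stmt_REL full_DUAL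

theorem full_LIM : Stmt_LIM := stmt_LIM full_REG

theorem full_LF : Stmt_LF := stmt_LF full_REG full_REL full_LIM

theorem part_II : Stmt_II :=
  stmt_II full_REL (stmt_GENP full_DUAL) full_LF
    (stmt_POLE full_REL full_LIM (stmt_PAIR stmt_TRI1 full_REL) (stmt_QC full_DUAL))
    (stmt_TD full_REG) stmt_NUM (stmt_COV full_DUAL) (stmt_DAT full_LF)

end Pool.Agent.Mono.NP
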