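import Pool.Agent.Work.Monodromy12.KASM12
import Pool.Agent.Work.Monodromy12.KAUT12
import Pool.Agent.Work.Monodromy12.KG12
import Pool.Agent.Work.Monodromy12.KMON12
import Pool.Agent.Work.Monodromy12.KSIM12
import Pool.Agent.Work.Monodromy12.KIFT12
import Pool.Agent.Work.Monodromy12.KLM112
import Pool.Agent.Work.Monodromy12.KLM212
import Pool.Agent.Work.Monodromy12.KCMP12
import Pool.Agent.Work.Monodromy12.KCNT112
import Pool.Agent.Work.Monodromy12.KISO12
import Pool.Agent.Work.Monodromy12.KNODE12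
import Pool.Agent.Work.Monodromy12.KCNT212
import Pool.Agent.Work.Monodromy12.KSLC12
import Pool.Agent.Work.Monodromy12.KFUB12
import Pool.Agent.Work.Monodromy12.KCHG12
import Pool.Agent.Work.Monodromy12.KDIR12
import Pool.Agent.Work.Monodromy12.KMOR12
import Pool.Agent.Work.Monodromy12.KNDG12
import Pool.Agent.Work.Monodromy.Interface13

/-!
# Phase 12: part K, all blocks put together (helper17); block K13 of phase 13
-/

set_option autoImplicit false

namespace Pool.Agent.Mono.NP

theorem full_KCNT2 : Stmt_KCNT2 :=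
  stmt_KCNT2 stmt_KG (stmt_KCNT1 stmt_KAUT stmt_KG (stmt_KSIM stmt_KMON) stmt_KIFT stmt_KLM1 stmt_KCMP)
    stmt_KIFT stmt_KLM2 stmt_KCMP stmt_KISO stmt_KNODE

/-- Kouchnirenko's theorem for generic coefficients -/
theorem part_K : Stmt_K :=
  stmt_KASM full_KCNT2 stmt_KSLC stmt_KFUB stmt_KCHG stmt_KDIR stmt_KMOR stmt_KNDG

/-- Kouchnirenko's theorem for nondegenerate coefficients -/
theorem stmt_K13 : Stmt_K13 := by
  intro E κ _ _ d w a h hd hF hN hE hh
  obtain ⟨d, rfl⟩ : ∃ d', d = d' + 1 := ⟨d - 1, by omega⟩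
  have hO : Nod w a := by
    intro x hx
    rw [hE] at hx
    exact absurd hx (Set.notMem_empty x)
  rw [KASMAux.claim full_KCNT2 stmt_KSLC stmt_KFUB stmt_KCHG stmt_KDIR stmt_KMOR E κ h hh d w a
    hF hN hO, hE, Set.ncard_empty, Nat.add_sub_cancel]
  simp

end Pool.Agent.Mono.NP
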