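import Pool.Agent.Work.Monodromy.Interface12C

/-!
# Block TRIS: triangular systems (helper69)
-/

set_option autoImplicit false

namespace Pool.Agent.Mono.NP

/-- TRIS -/
theorem stmt_TRIS : Stmt_TRIS := by
  intro n G c hc hG t
  have hex : ∀ m : ℕ, ∃ s : Fin n → ℂ, ∀ j : Fin n, (j : ℕ) < m → G s j = t j := by
    intro m
    induction m with
    | zero => exact ⟨0, fun j hj => absurd hj (Nat.not_lt_zero _)⟩
    | succ m ih =>
      obtain ⟨s, hs⟩ := ih
      by_cases hm : m < n
      · set jm : Fin n := ⟨m, hm⟩ with hjm
        refine ⟨Function.update s jm (s jm + (t jm - G s jm) / c), fun j hj => ?_⟩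
        have hagree : ∀ i : Fin n, i < j →
            Function.update s jm (s jm + (t jm - G s jm) / c) i = s i := by
          intro i hi
          apply Function.update_of_ne
          rintro rfl
          have h1 : (jm : ℕ) < j := hi
          have h2 : (jm : ℕ) = m := rfl
          omega
        have h3 := hG j _ _ hagree
        rcases Nat.lt_succ_iff_lt_or_eq.1 hj with h | h
        · have hne : j ≠ jm := by
            rintro rfl
            exact absurd h (lt_irrefl _)
          rw [Function.update_of_ne hne, sub_self, mul_zero, sub_eq_zero] at h3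
          rw [h3, hs j h]
        · have he : j = jm := Fin.ext h
          subst he
          rw [Function.update_self, add_sub_cancel_left, mul_div_cancel₀ _ hc] at h3
          linear_combination h3
      · exact ⟨s, fun j _ => hs j (lt_of_lt_of_le j.2 (not_lt.1 hm))⟩
  obtain ⟨s, hs⟩ := hex n
  refine ⟨s, funext fun j => hs j j.2, fun s' hs' => ?_⟩
  have hu : ∀ m : ℕ, ∀ j : Fin n, (j : ℕ) < m → s' j = s j := by
    intro m
    induction m with
    | zero => exact fun j hj => absurd hj (Nat.not_lt_zero _)
    | succ m ih =>
      intro j hj
      have h1 := hG j s' s fun i hi => ih i (lt_of_lt_of_le hi (Nat.lt_succ_iff.1 hj))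
      have h2 : G s' j = t j := congrFun hs' j
      rw [h2, hs j j.2, sub_self] at h1
      rcases mul_eq_zero.1 h1.symm with h | h
      · exact absurd h hc
      · exact sub_eq_zero.1 h
  exact funext fun j => hu n j j.2

end Pool.Agent.Mono.NP
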